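import Pool.Agent.H50.RQ.Zb

/-!
[H50 RQ AA] The explicit formula for the difference `fw u - fw (u - η)` (corrected by `T`), tested against `k`.

PROOF. Copy `Pool/Agent/H50/RL/Aa.lean` (`efd`; `lf_bound` and the other private lemmas there). `K u = ∫ w in u..(u+η), k w`: `C^5`, `K v = 0` unless `a - η ≤ v ≤ b`, so compactly supported in `(0, ∞)`, `K 0 = 0`. `D.explicit K`:
`Σ (V n + w n) K(log n) = κ Lp K 1 - Σ c Lp K ρ`; `Lp K s = Lf K s = (1 - exp(-s η))/s · Lf k s` for `s ≠ 0`, and `Lp K 0 = η ∫ k = η Lf k 0`.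
(1) `∫ (S(e^u) - S(e^{u-η})) k(u) du = Σ (V n + w n) K(log n)`, `S x = Σ_{n ≤ x} (V n + w n)` (only `n ≤ e^b`). (2) `κ ∫ (e^u - e^{u-η}) k(u) du = κ Lp K 1`. So
`∫ (fw u - fw(u-η)) k = - Σ_i c_i Lp K (ρ i)` over ALL `i`. (3) `i` with `Re ρ ≤ 0`: `ρ = -n` and `c` are real (`D.left`, `D.left_real`). If `ρ = 0`: `c Lp K 0 = ∫ (c.re u - c.re (u-η)) k(u) du`. If `ρ = -n`, `n ≥ 1`:
`c (1 - e^{-ρη})/ρ Lf k ρ = ∫ (c/ρ)(e^{ρu} - e^{ρ(u-η)}) k(u) du`. The sum over these `i` is `∫ (T u - T (u-η)) k(u) du` (dominated: on the support `u - η ≥ a - η > 0`, `e^{ρ(u-η)} ≤ e^{-‖ρ‖(a-η)}`, times `‖c‖/‖ρ‖` summable by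
`sumc` since `e^{-x c} ≤ C_c/x`; `hasSum_integral_of_summable_integral_norm`; `D.countable`). (4) Summability of `‖c‖ ‖Lf k ρ‖` over `0 < Re ρ < 1`: two integrations by parts, `‖Lf k ρ‖ ≤ C/‖ρ‖^2`, `sumc 2`.
-/

set_option autoImplicit false

namespace Pool.Agent.H50.RQ

open MeasureTheory Filter Topology
open Pool.Agent.H50.RL (SC Lp Lf Wk Ft)

private theorem aa_cs {k : ℝ → ℝ} {a b : ℝ} (hs : ∀ u, k u ≠ 0 → a ≤ u ∧ u ≤ b) :
    HasCompactSupport k := by
  refine HasCompactSupport.intro (K := Set.Icc a b) isCompact_Icc fun u hu => ?_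
  by_contra h
  exact hu (hs u h)

private theorem aa_int {k : ℝ → ℝ} (hk : Continuous k) (hc : HasCompactSupport k) {f : ℝ → ℂ}
    (hf : Continuous f) : Integrable fun u => (k u : ℂ) * f u := by
  refine Continuous.integrable_of_hasCompactSupport (by fun_prop) ?_
  exact (hc.comp_left (g := fun x : ℝ => (x : ℂ)) (by simp)).mul_right

private theorem aa_parts {g : ℝ → ℝ} (hg : ContDiff ℝ 1 g) (hc : HasCompactSupport g) (z : ℂ) :
    z * Lf g z = -Lf (deriv g) z := by
  have hd : ∀ x, HasDerivAt (fun x : ℝ => (g x : ℂ)) ((deriv g x : ℝ) : ℂ) x := fun x =>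
    ((hg.differentiable one_ne_zero x).hasDerivAt).ofReal_comp
  have he : ∀ x : ℝ, HasDerivAt (fun x : ℝ => Complex.exp (z * x)) (Complex.exp (z * x) * z) x := by
    intro x
    have h1 : HasDerivAt (fun x : ℝ => z * (x : ℂ)) z x := by
      simpa using (Complex.ofRealCLM.hasDerivAt (x := x)).const_mul z
    exact h1.cexp
  have hce : Continuous fun x : ℝ => Complex.exp (z * x) := by fun_prop
  have hdc : Continuous (deriv g) := hg.continuous_deriv le_rfl
  have h := integral_mul_deriv_eq_deriv_mul_of_integrable (u := fun x : ℝ => (g x : ℂ))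
    (v := fun x : ℝ => Complex.exp (z * x)) (u' := fun x : ℝ => ((deriv g x : ℝ) : ℂ))
    (v' := fun x : ℝ => Complex.exp (z * x) * z) (fun x _ => hd x) (fun x _ => he x)
    (aa_int hg.continuous hc (hce.mul continuous_const)) (aa_int hdc hc.deriv hce)
    (aa_int hg.continuous hc hce)
  unfold Lf
  rw [← h, ← integral_const_mul]
  congr 1
  funext x
  ring

/-- the primitive difference -/
private noncomputable def KK (k : ℝ → ℝ) (η v : ℝ) : ℝ := ∫ w in v..(v + η), k w

private theorem kk_eq {k : ℝ → ℝ} (hk : Continuous k) (η v : ℝ) :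
    KK k η v = (∫ w in (0:ℝ)..(v + η), k w) - ∫ w in (0:ℝ)..v, k w := by
  unfold KK
  rw [intervalIntegral.integral_interval_sub_left (hk.intervalIntegrable _ _)
    (hk.intervalIntegrable _ _)]

private theorem kk_deriv {k : ℝ → ℝ} (hk : Continuous k) (η v : ℝ) :
    HasDerivAt (KK k η) (k (v + η) - k v) v := by
  have h1 : ∀ x : ℝ, HasDerivAt (fun x => ∫ w in (0:ℝ)..x, k w) (k x) x := fun x =>
    (hk.integral_hasStrictDerivAt 0 x).hasDerivAt
  have h2 : HasDerivAt (fun x : ℝ => ∫ w in (0:ℝ)..(x + η), k w) (k (v + η)) v := by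
    simpa using (h1 (v + η)).comp_add_const v η
  have h3 := h2.sub (h1 v)
  refine h3.congr_of_eventuallyEq (Eventually.of_forall fun x => ?_)
  exact kk_eq hk η x

private theorem kk_smooth {k : ℝ → ℝ} (hk : ContDiff ℝ 4 k) (η : ℝ) : ContDiff ℝ 4 (KK k η) := by
  have hd : deriv (KK k η) = fun v => k (v + η) - k v := by
    funext v
    exact (kk_deriv hk.continuous η v).deriv
  have h3 : ContDiff ℝ 3 (deriv (KK k η)) := by
    rw [hd]
    have h4 : ContDiff ℝ 3 k := hk.of_le (by norm_num)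
    exact (h4.comp (contDiff_id.add contDiff_const)).sub h4
  have h5 : ContDiff ℝ (3 + 1) (KK k η) := by
    rw [contDiff_succ_iff_deriv]
    refine ⟨fun v => (kk_deriv hk.continuous η v).differentiableAt, ?_, h3⟩
    intro h
    exact absurd h (by decide)
  have h6 : ((3 : WithTop ℕ∞) + 1) = 4 := by norm_num
  rwa [h6] at h5

private theorem kk_zero {k : ℝ → ℝ} {a b η : ℝ} (hη : 0 < η)
    (hs : ∀ u, k u ≠ 0 → a ≤ u ∧ u ≤ b) {v : ℝ} (hv : v + η < a ∨ b < v) : KK k η v = 0 := by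
  unfold KK
  rw [intervalIntegral.integral_of_le (by linarith)]
  refine setIntegral_eq_zero_of_forall_eq_zero fun w hw => ?_
  by_contra h
  obtain ⟨h1, h2⟩ := hs w h
  rcases hv with h3 | h3
  · linarith [hw.2]
  · linarith [hw.1]

private theorem kk_cs {k : ℝ → ℝ} {a b η : ℝ} (hη : 0 < η)
    (hs : ∀ u, k u ≠ 0 → a ≤ u ∧ u ≤ b) : HasCompactSupport (KK k η) := by
  refine aa_cs (a := a - η) (b := b) fun v hv => ?_
  by_contra h
  rw [not_and_or, not_le, not_le] at h
  refine hv (kk_zero hη hs ?_)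
  rcases h with h | h
  · left; linarith
  · right; exact h

private theorem lf_shift (k : ℝ → ℝ) (η : ℝ) (z : ℂ) :
    Lf (fun v => k (v + η)) z = Complex.exp (-(z * η)) * Lf k z := by
  unfold Lf
  rw [← integral_add_right_eq_self (fun u : ℝ => (k u : ℂ) * Complex.exp (z * u)) η,
    ← integral_const_mul]
  congr 1
  funext v
  have : Complex.exp (-(z * η)) * Complex.exp (z * ((v + η : ℝ) : ℂ)) = Complex.exp (z * v) := by
    rw [← Complex.exp_add]
    congr 1
    push_cast
    ring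
  rw [← this]
  ring

private theorem lf_kk {k : ℝ → ℝ} (hk : ContDiff ℝ 4 k) {a b η : ℝ} (hη : 0 < η)
    (hs : ∀ u, k u ≠ 0 → a ≤ u ∧ u ≤ b) (z : ℂ) :
    z * Lf (KK k η) z = (1 - Complex.exp (-(z * η))) * Lf k z := by
  have hc := aa_cs hs
  rw [aa_parts ((kk_smooth hk η).of_le (by norm_num)) (kk_cs hη hs)]
  have hd : deriv (KK k η) = fun v => k (v + η) - k v := by
    funext v
    exact (kk_deriv hk.continuous η v).deriv
  have h1 := lf_shift k η z
  rw [hd]
  have hce : Continuous fun x : ℝ => Complex.exp (z * x) := by fun_prop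
  have hc2 : HasCompactSupport fun v => k (v + η) := by
    refine aa_cs (a := a - η) (b := b - η) fun v hv => ?_
    obtain ⟨h1, h2⟩ := hs _ hv
    constructor <;> linarith
  have hi2 : Integrable fun v => ((k (v + η) : ℝ) : ℂ) * Complex.exp (z * v) :=
    aa_int (k := fun v => k (v + η)) (hk.continuous.comp (by fun_prop)) hc2 hce
  have h2 : Lf (fun v => k (v + η) - k v) z = Lf (fun v => k (v + η)) z - Lf k z := by
    unfold Lf
    rw [← integral_sub hi2 (aa_int hk.continuous hc hce)]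
    congr 1
    funext v
    push_cast
    ring
  rw [h2, h1]
  ring

private theorem lp_kk {k : ℝ → ℝ} {a b η : ℝ} (hη : 0 < η) (ha : η < a)
    (hs : ∀ u, k u ≠ 0 → a ≤ u ∧ u ≤ b) (z : ℂ) : Lp (KK k η) z = Lf (KK k η) z := by
  unfold RL.Lp RL.Lf
  refine setIntegral_eq_integral_of_forall_compl_eq_zero fun v hv => ?_
  rw [Set.mem_Ioi, not_lt] at hv
  rw [kk_zero hη hs (Or.inl (by linarith)), Complex.ofReal_zero, zero_mul]

/-- the integral of the primitive difference -/
private theorem kk_int {k : ℝ → ℝ} (hk : ContDiff ℝ 4 k) {a b η : ℝ} (hη : 0 < η)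
    (hs : ∀ u, k u ≠ 0 → a ≤ u ∧ u ≤ b) : Lf (KK k η) 0 = η * Lf k 0 := by
  have hc := aa_cs hs
  have hkc := hk.continuous
  have hKc := (kk_smooth hk η).continuous
  have hKcs := kk_cs hη hs
  have hc2 : HasCompactSupport fun v => k (v + η) := by
    refine aa_cs (a := a - η) (b := b - η) fun v hv => ?_
    obtain ⟨h1, h2⟩ := hs _ hv
    constructor <;> linarith
  have hkc2 : Continuous fun v => k (v + η) := hkc.comp (by fun_prop)
  have i1 : Integrable fun v : ℝ => KK k η v * 1 := by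
    simpa using hKc.integrable_of_hasCompactSupport hKcs
  have i2 : Integrable fun v : ℝ => (k (v + η) - k v) * v := by
    refine Continuous.integrable_of_hasCompactSupport (by fun_prop) ?_
    exact (hc2.sub hc).mul_right
  have i3 : Integrable fun v : ℝ => KK k η v * v := by
    refine Continuous.integrable_of_hasCompactSupport (by fun_prop) ?_
    exact hKcs.mul_right
  have h := integral_mul_deriv_eq_deriv_mul_of_integrable (u := KK k η) (v := fun x : ℝ => x)
    (u' := fun v => k (v + η) - k v) (v' := fun _ : ℝ => (1 : ℝ)) (fun x _ => kk_deriv hkc η x)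
    (fun x _ => hasDerivAt_id x) i1 i2 i3
  have j1 : Integrable fun v : ℝ => k (v + η) * (v + η) := by
    refine Continuous.integrable_of_hasCompactSupport (by fun_prop) ?_
    exact hc2.mul_right
  have j2 : Integrable fun v : ℝ => k v * v := by
    refine Continuous.integrable_of_hasCompactSupport (by fun_prop) ?_
    exact hc.mul_right
  have j3 : Integrable fun v : ℝ => k (v + η) := hkc2.integrable_of_hasCompactSupport hc2
  have h1 : ∫ v : ℝ, (k (v + η) - k v) * v = -(η * ∫ v, k v) := by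
    have e1 : (fun v : ℝ => (k (v + η) - k v) * v) =
        fun v => k (v + η) * (v + η) - k v * v - η * k (v + η) := by
      funext v
      ring
    have j4 : Integrable fun v : ℝ => k (v + η) * (v + η) - k v * v := j1.sub j2
    rw [e1, integral_sub j4 (j3.const_mul η), integral_sub j1 j2,
      integral_add_right_eq_self (fun v : ℝ => k v * v) η, sub_self, integral_const_mul,
      integral_add_right_eq_self (fun v : ℝ => k v) η, zero_sub]
  rw [h1, neg_neg] at h
  have h2 : ∀ f : ℝ → ℝ, Lf f 0 = ((∫ v, f v : ℝ) : ℂ) := by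
    intro f
    unfold Lf
    rw [← integral_complex_ofReal]
    congr 1
    funext v
    rw [zero_mul, Complex.exp_zero, mul_one]
  rw [h2, h2, ← Complex.ofReal_mul, ← h]
  simp

private theorem w_ind (W : ℕ → ℝ) {b x : ℝ} (hx : x ≤ b) : ∑ n ∈ Finset.Icc 1 ⌊Real.exp x⌋₊, W n =
    ∑ n ∈ Finset.Icc 1 ⌊Real.exp b⌋₊, if Real.log n ≤ x then W n else 0 := by
  rw [← Finset.sum_filter]
  refine Finset.sum_congr ?_ fun n _ => rfl
  ext n
  have hle : ⌊Real.exp x⌋₊ ≤ ⌊Real.exp b⌋₊ := Nat.floor_mono (Real.exp_le_exp.2 hx)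
  rw [Finset.mem_filter, Finset.mem_Icc, Finset.mem_Icc]
  constructor
  · rintro ⟨h1, h2⟩
    refine ⟨⟨h1, h2.trans hle⟩, ?_⟩
    rw [Nat.le_floor_iff (Real.exp_pos x).le] at h2
    rwa [Real.log_le_iff_le_exp (by exact_mod_cast h1)]
  · rintro ⟨⟨h1, h2⟩, h3⟩
    refine ⟨h1, ?_⟩
    rw [Nat.le_floor_iff (Real.exp_pos x).le]
    rwa [Real.log_le_iff_le_exp (by exact_mod_cast h1)] at h3

private theorem aa_psi (W : ℕ → ℝ) {k : ℝ → ℝ} (hk : Continuous k) {a b η : ℝ} (hη : 0 < η) (ha : η < a)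
    (hs : ∀ u, k u ≠ 0 → a ≤ u ∧ u ≤ b) :
    (Integrable fun u => (∑ n ∈ Finset.Icc 1 ⌊Real.exp u⌋₊, W n -
      ∑ n ∈ Finset.Icc 1 ⌊Real.exp (u - η)⌋₊, W n) * k u) ∧
    ∫ u, (∑ n ∈ Finset.Icc 1 ⌊Real.exp u⌋₊, W n - ∑ n ∈ Finset.Icc 1 ⌊Real.exp (u - η)⌋₊, W n) * k u =
      ∑' n : ℕ, W n * KK k η (Real.log n) := by
  have hki : Integrable k := hk.integrable_of_hasCompactSupport (aa_cs hs)
  have hgi : ∀ n : ℕ, Integrable ((Set.Ico (Real.log n) (Real.log n + η)).indicator k) := fun n =>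
    hki.indicator measurableSet_Ico
  have hfun : (fun u => (∑ n ∈ Finset.Icc 1 ⌊Real.exp u⌋₊, W n -
      ∑ n ∈ Finset.Icc 1 ⌊Real.exp (u - η)⌋₊, W n) * k u) =
      fun u => ∑ n ∈ Finset.Icc 1 ⌊Real.exp b⌋₊, W n *
        (Set.Ico (Real.log n) (Real.log n + η)).indicator k u := by
    funext u
    by_cases hu : k u = 0
    · rw [hu, mul_zero]
      refine (Finset.sum_eq_zero fun n _ => ?_).symm
      rw [Set.indicator_apply, hu]
      simp
    · have hub := (hs u hu).2
      rw [w_ind W hub, w_ind W (show u - η ≤ b by linarith), ← Finset.sum_sub_distrib,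
        Finset.sum_mul]
      refine Finset.sum_congr rfl fun n _ => ?_
      rw [Set.indicator_apply]
      by_cases h1 : Real.log n ≤ u
      · by_cases h2 : Real.log n ≤ u - η
        · rw [if_pos h1, if_pos h2, if_neg (fun h => by have h3 := (Set.mem_Ico.1 h).2; linarith)]
          ring
        · rw [if_pos h1, if_neg h2, if_pos (Set.mem_Ico.2 ⟨h1, by linarith⟩)]
          ring
      · rw [if_neg h1, if_neg (fun h => h1 (by linarith)), if_neg (fun h => h1 (Set.mem_Ico.1 h).1)]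
        ring
  rw [hfun]
  refine ⟨integrable_finset_sum _ fun n _ => (hgi n).const_mul _, ?_⟩
  rw [integral_finset_sum _ fun n _ => (hgi n).const_mul _]
  rw [tsum_eq_sum (s := Finset.Icc 1 ⌊Real.exp b⌋₊)]
  · refine Finset.sum_congr rfl fun n _ => ?_
    rw [integral_const_mul, integral_indicator measurableSet_Ico]
    unfold KK
    rw [intervalIntegral.integral_of_le (by linarith), integral_Ico_eq_integral_Ioc]
  · intro n hn
    rcases Nat.eq_zero_or_pos n with rfl | hn0
    · rw [Nat.cast_zero, Real.log_zero, kk_zero hη hs (Or.inl (by linarith)), mul_zero]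
    · rw [kk_zero hη hs (Or.inr ?_), mul_zero]
      rw [Finset.mem_Icc, not_and, not_le] at hn
      have h1 := hn hn0
      rw [Nat.floor_lt (Real.exp_pos b).le] at h1
      rwa [Real.lt_log_iff_exp_lt (by exact_mod_cast hn0)]

private theorem aa_exp {k : ℝ → ℝ} (hk : Continuous k) (hc : HasCompactSupport k) (η : ℝ) :
    (Integrable fun u => (Real.exp u - Real.exp (u - η)) * k u) ∧
    ((∫ u, (Real.exp u - Real.exp (u - η)) * k u : ℝ) : ℂ) =
      (1 - Complex.exp (-((1 : ℂ) * η))) * Lf k 1 := by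
  constructor
  · refine Continuous.integrable_of_hasCompactSupport (by fun_prop) ?_
    exact hc.mul_left
  · unfold Lf
    rw [← integral_const_mul, ← integral_complex_ofReal]
    congr 1
    funext u
    have h1 : ((Real.exp (u - η) : ℝ) : ℂ) = Complex.exp (-((1 : ℂ) * η)) * Complex.exp (1 * u) := by
      rw [← Complex.exp_add, Complex.ofReal_exp]
      congr 1
      push_cast
      ring
    have h2 : ((Real.exp u : ℝ) : ℂ) = Complex.exp (1 * u) := by
      rw [Complex.ofReal_exp, one_mul]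
    rw [Complex.ofReal_mul, Complex.ofReal_sub, h1, h2]
    ring

private theorem aa_all (D : ZD) {k : ℝ → ℝ} (hk : ContDiff ℝ 4 k) {a b η : ℝ} (hη : 0 < η) (ha : η < a)
    (hs : ∀ u, k u ≠ 0 → a ≤ u ∧ u ≤ b) :
    (Summable fun i => ‖D.c i * Lf (KK k η) (D.ρ i)‖) ∧
    (Integrable fun u => (D.fw u - D.fw (u - η)) * k u) ∧
    ((∫ u, (D.fw u - D.fw (u - η)) * k u : ℝ) : ℂ) = -∑' i, D.c i * Lf (KK k η) (D.ρ i) := by
  obtain ⟨C0, hC⟩ := D.explicit
  obtain ⟨h1, h2⟩ := hC (KK k η) (kk_smooth hk η) (kk_cs hη hs)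
  have h0 : KK k η 0 = 0 := kk_zero hη hs (Or.inl (by linarith))
  have hA : ∀ i, D.c i * (Lp (KK k η) (D.ρ i) - ((KK k η 0 : ℝ) : ℂ) / (2 - D.ρ i)) =
      D.c i * Lf (KK k η) (D.ρ i) := by
    intro i
    rw [h0, Complex.ofReal_zero, zero_div, sub_zero, lp_kk hη ha hs]
  obtain ⟨i1, e1⟩ := aa_psi (fun n => D.V n + D.w n) hk.continuous hη ha hs
  obtain ⟨i2, e2⟩ := aa_exp hk.continuous (aa_cs hs) η
  have hf : (fun u => (D.fw u - D.fw (u - η)) * k u) = fun u =>
      (∑ n ∈ Finset.Icc 1 ⌊Real.exp u⌋₊, (D.V n + D.w n) -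
        ∑ n ∈ Finset.Icc 1 ⌊Real.exp (u - η)⌋₊, (D.V n + D.w n)) * k u -
        D.κ * ((Real.exp u - Real.exp (u - η)) * k u) := by
    funext u
    unfold ZD.fw
    ring
  refine ⟨?_, ?_, ?_⟩
  · refine h1.congr fun i => ?_
    rw [← hA i, norm_mul]
  · rw [hf]
    exact i1.sub (i2.const_mul _)
  · rw [hf, integral_sub i1 (i2.const_mul _), integral_const_mul, Complex.ofReal_sub, Complex.ofReal_mul,
      e1, e2, h2, h0]
    have h6 := lf_kk hk hη hs 1
    rw [one_mul] at h6
    rw [← h6, lp_kk hη ha hs 1, Complex.ofReal_zero, mul_zero, zero_add]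
    have h7 : ∑' i, D.c i * (Lp (KK k η) (D.ρ i) - (0 : ℂ) / (2 - D.ρ i)) =
        ∑' i, D.c i * Lf (KK k η) (D.ρ i) := by
      refine tsum_congr fun i => ?_
      rw [← hA i, h0, Complex.ofReal_zero]
    rw [h7]
    ring

/-- the terms of `T` -/
private noncomputable def tt (D : ZD) (i : D.ι) (u : ℝ) : ℝ :=
  if (D.ρ i).re ≤ 0 then
    (if D.ρ i = 0 then (D.c i).re * u else (D.c i / D.ρ i).re * Real.exp ((D.ρ i).re * u)) else 0

/-- the poles with real part `≤ 0` are real -/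
private theorem rho_real (D : ZD) (i : D.ι) (h : (D.ρ i).re ≤ 0) :
    (((D.ρ i).re : ℝ) : ℂ) = D.ρ i ∧ (D.ρ i).re = -‖D.ρ i‖ ∧ (((D.c i).re : ℝ) : ℂ) = D.c i := by
  obtain ⟨h1, h2⟩ := D.left_real i h
  have h3 : (((D.ρ i).re : ℝ) : ℂ) = D.ρ i := Complex.ext (Complex.ofReal_re _) (by rw [Complex.ofReal_im, h2])
  refine ⟨h3, ?_, Complex.ext (Complex.ofReal_re _) (by rw [Complex.ofReal_im, h1])⟩
  conv_rhs => rw [← h3, Complex.norm_real, Real.norm_eq_abs, abs_of_nonpos h]
  ring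

private theorem tt_le (D : ZD) (i : D.ι) {u c b : ℝ} (hc : 0 < c) (hu : c ≤ u) (hb : u ≤ b) :
    |tt D i u| ≤ (if D.ρ i = 0 then ‖D.c i‖ * b else 0) + (‖D.c i‖ / ‖D.ρ i‖ ^ (2 : ℝ)) * (1 / c) := by
  have hb0 : 0 ≤ b := by linarith
  have hr : 0 ≤ ‖D.c i‖ / ‖D.ρ i‖ ^ (2 : ℝ) * (1 / c) := by positivity
  have hl : 0 ≤ (if D.ρ i = 0 then ‖D.c i‖ * b else 0) := by
    split_ifs
    · positivity
    · exact le_rfl
  unfold tt
  by_cases h : (D.ρ i).re ≤ 0
  · rw [if_pos h]
    by_cases h0 : D.ρ i = 0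
    · rw [if_pos h0, if_pos h0, abs_mul]
      have h1 : |(D.c i).re| * |u| ≤ ‖D.c i‖ * b :=
        mul_le_mul (Complex.abs_re_le_norm _) (by rw [abs_of_nonneg (by linarith)]; exact hb) (abs_nonneg _)
          (norm_nonneg _)
      linarith
    · rw [if_neg h0, if_neg h0, zero_add]
      have hρ : 0 < ‖D.ρ i‖ := norm_pos_iff.2 h0
      rw [(rho_real D i h).2.1, Real.rpow_ofNat, abs_mul, abs_of_pos (Real.exp_pos _)]
      have h1 : Real.exp (-‖D.ρ i‖ * u) ≤ 1 / (‖D.ρ i‖ * c) := by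
        rw [neg_mul, Real.exp_neg, one_div]
        refine inv_anti₀ (by positivity) ?_
        have h2 := Real.add_one_le_exp (‖D.ρ i‖ * u)
        have h3 : ‖D.ρ i‖ * c ≤ ‖D.ρ i‖ * u := mul_le_mul_of_nonneg_left hu hρ.le
        linarith
      have h4 : |(D.c i / D.ρ i).re| ≤ ‖D.c i‖ / ‖D.ρ i‖ := by
        rw [← norm_div]
        exact Complex.abs_re_le_norm _
      calc |(D.c i / D.ρ i).re| * Real.exp (-‖D.ρ i‖ * u) ≤ ‖D.c i‖ / ‖D.ρ i‖ * (1 / (‖D.ρ i‖ * c)) :=
            mul_le_mul h4 h1 (Real.exp_pos _).le (by positivity)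
        _ = ‖D.c i‖ / ‖D.ρ i‖ ^ 2 * (1 / c) := by field_simp
  · rw [if_neg h, abs_zero]
    linarith

private theorem z_summ (D : ZD) (f : D.ι → ℝ) : Summable fun i => if D.ρ i = 0 then f i else 0 := by
  refine summable_of_finite_support (Set.Subsingleton.finite ?_)
  intro i hi j hj
  have h : ∀ l, l ∈ (Function.support fun i => if D.ρ i = 0 then f i else 0) → D.ρ l = 0 := by
    intro l hl
    by_contra h1
    exact hl (if_neg h1)
  exact D.inj ((h i hi).trans (h j hj).symm)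

private theorem b_summ (D : ZD) (b c : ℝ) : Summable fun i =>
    (if D.ρ i = 0 then ‖D.c i‖ * b else 0) + (‖D.c i‖ / ‖D.ρ i‖ ^ (2 : ℝ)) * (1 / c) :=
  (z_summ D _).add ((D.sumc 2 (by norm_num)).mul_right _)

private theorem tt_summ (D : ZD) {u : ℝ} (hu : 0 < u) : Summable fun i => tt D i u :=
  Summable.of_norm_bounded (b_summ D u u) (fun i => tt_le D i hu le_rfl le_rfl)

private theorem tt_cont (D : ZD) (i : D.ι) : Continuous (tt D i) := by
  unfold tt
  split_ifs
  · fun_prop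
  · fun_prop
  · exact continuous_const

private theorem aa_left (D : ZD) {k : ℝ → ℝ} (hk4 : ContDiff ℝ 4 k) {a b η : ℝ} (hη : 0 < η) (ha : η < a)
    (hs : ∀ u, k u ≠ 0 → a ≤ u ∧ u ≤ b) :
    (Integrable fun u => (D.T u - D.T (u - η)) * k u) ∧
    ((∫ u, (D.T u - D.T (u - η)) * k u : ℝ) : ℂ) =
      ∑' i, if (D.ρ i).re ≤ 0 then D.c i * Lf (KK k η) (D.ρ i) else 0 := by
  haveI := D.countable
  have hk := hk4.continuous
  have hc := aa_cs hs
  have hki : Integrable k := hk.integrable_of_hasCompactSupport hc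
  obtain ⟨M, hM⟩ := hk.bounded_above_of_compact_support hc
  have hM0 : 0 ≤ M := (norm_nonneg _).trans (hM 0)
  have hc0 : 0 < a - η := by linarith
  obtain ⟨Bd, hBd⟩ : ∃ Bd : D.ι → ℝ, Bd = fun i => 2 * ((if D.ρ i = 0 then ‖D.c i‖ * |b| else 0) +
    (‖D.c i‖ / ‖D.ρ i‖ ^ (2 : ℝ)) * (1 / (a - η))) := ⟨_, rfl⟩
  have hBs0 : Summable Bd := by
    rw [hBd]
    exact (b_summ D |b| (a - η)).mul_left 2
  have hBn : ∀ i, 0 ≤ Bd i := by
    intro i
    rw [hBd]
    have h1 : 0 ≤ (if D.ρ i = 0 then ‖D.c i‖ * |b| else 0) := by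
      split_ifs
      · positivity
      · exact le_rfl
    have h2 : 0 ≤ ‖D.c i‖ / ‖D.ρ i‖ ^ (2 : ℝ) * (1 / (a - η)) := by positivity
    show 0 ≤ 2 * _
    linarith
  -- the terms
  have hB : ∀ (i : D.ι) (u : ℝ), ‖(tt D i u - tt D i (u - η)) * k u‖ ≤ Bd i * ‖k u‖ := by
    intro i u
    by_cases hu : k u = 0
    · rw [hu, mul_zero, norm_zero, mul_zero]
    · obtain ⟨h1, h2⟩ := hs u hu
      have hbb : b ≤ |b| := le_abs_self b
      rw [norm_mul]
      refine mul_le_mul_of_nonneg_right ?_ (norm_nonneg _)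
      have h3 := tt_le D i hc0 (show a - η ≤ u - η by linarith) (show u - η ≤ |b| by linarith)
      have h4 := tt_le D i hc0 (show a - η ≤ u by linarith) (show u ≤ |b| by linarith)
      rw [hBd]
      refine (norm_sub_le _ _).trans ?_
      rw [Real.norm_eq_abs, Real.norm_eq_abs]
      show _ ≤ 2 * _
      linarith
  have hBc : ∀ i, Continuous fun u => (tt D i u - tt D i (u - η)) * k u := fun i =>
    ((tt_cont D i).sub ((tt_cont D i).comp (by fun_prop))).mul hk
  have hsum : ∀ u : ℝ, (D.T u - D.T (u - η)) * k u = ∑' i, (tt D i u - tt D i (u - η)) * k u := by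
    intro u
    by_cases hu : k u = 0
    · rw [hu, mul_zero]
      simp
    · obtain ⟨h1, h2⟩ := hs u hu
      rw [tsum_mul_right, (tt_summ D (show 0 < u by linarith)).tsum_sub
        (tt_summ D (show 0 < u - η by linarith))]
      rfl
  have hcont : Continuous fun u => (D.T u - D.T (u - η)) * k u := by
    have h1 : (fun u => (D.T u - D.T (u - η)) * k u) =
        fun u => ∑' i, (tt D i u - tt D i (u - η)) * k u := funext hsum
    rw [h1]
    refine continuous_tsum hBc (hBs0.mul_right M) fun i u => ?_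
    refine (hB i u).trans ?_
    exact mul_le_mul_of_nonneg_left (hM u) (hBn i)
  refine ⟨hcont.integrable_of_hasCompactSupport hc.mul_left, ?_⟩
  have hBi : ∀ i, Integrable fun u => (tt D i u - tt D i (u - η)) * k u := fun i =>
    (hBc i).integrable_of_hasCompactSupport hc.mul_left
  have hBs : Summable fun i => ∫ u, ‖(tt D i u - tt D i (u - η)) * k u‖ := by
    refine Summable.of_nonneg_of_le (fun i => integral_nonneg fun u => norm_nonneg _) (fun i => ?_)
      (hBs0.mul_right (∫ u, ‖k u‖))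
    rw [← integral_const_mul]
    exact integral_mono (hBi i).norm (hki.norm.const_mul _) (hB i)
  have h1 := integral_tsum_of_summable_integral_norm hBi hBs
  have h2 : ∫ u, (D.T u - D.T (u - η)) * k u = ∑' i, ∫ u, (tt D i u - tt D i (u - η)) * k u := by
    rw [h1]
    congr 1
    funext u
    exact hsum u
  rw [h2, Complex.ofReal_tsum]
  refine tsum_congr fun i => ?_
  by_cases hre : (D.ρ i).re ≤ 0
  · rw [if_pos hre]
    obtain ⟨e1, e2, e3⟩ := rho_real D i hre
    by_cases h0 : D.ρ i = 0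
    · rw [h0, kk_int hk4 hη hs]
      have h3 : ∀ u, (tt D i u - tt D i (u - η)) * k u = (D.c i).re * η * k u := by
        intro u
        unfold tt
        rw [if_pos hre, if_pos hre, if_pos h0, if_pos h0]
        ring
      simp_rw [h3]
      rw [integral_const_mul]
      unfold Lf
      push_cast
      rw [e3, mul_assoc]
      congr 2
      rw [← integral_complex_ofReal]
      congr 1
      funext v
      rw [zero_mul, Complex.exp_zero, mul_one]
    · have hce : Continuous fun x : ℝ => Complex.exp (D.ρ i * x) := by fun_prop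
      have h6 := lf_kk hk4 hη hs (D.ρ i)
      have h7 : D.c i * Lf (KK k η) (D.ρ i) =
          D.c i / D.ρ i * (1 - Complex.exp (-(D.ρ i * η))) * Lf k (D.ρ i) := by
        rw [mul_assoc, ← h6]
        field_simp
      rw [h7]
      have h8 : (((D.c i / D.ρ i).re : ℝ) : ℂ) = D.c i / D.ρ i := by
        rw [← e1, ← e3, ← Complex.ofReal_div, Complex.ofReal_re]
      unfold Lf
      rw [← integral_const_mul, ← integral_complex_ofReal]
      congr 1
      funext u
      unfold tt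
      rw [if_pos hre, if_pos hre, if_neg h0, if_neg h0]
      have h3 : ∀ x : ℝ, ((Real.exp ((D.ρ i).re * x) : ℝ) : ℂ) = Complex.exp (D.ρ i * x) := by
        intro x
        rw [Complex.ofReal_exp, Complex.ofReal_mul, e1]
      have h4 : Complex.exp (D.ρ i * ((u - η : ℝ) : ℂ)) =
          Complex.exp (-(D.ρ i * η)) * Complex.exp (D.ρ i * u) := by
        rw [← Complex.exp_add]
        congr 1
        push_cast
        ring
      rw [Complex.ofReal_mul, Complex.ofReal_sub, Complex.ofReal_mul, Complex.ofReal_mul,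
        h3, h3, h4, h8]
      ring
  · rw [if_neg hre]
    have : ∀ u, (tt D i u - tt D i (u - η)) * k u = 0 := by
      intro u
      unfold tt
      rw [if_neg hre, if_neg hre]
      ring
    simp [this]

private theorem lf_bound (D : ZD) {k : ℝ → ℝ} (hk : ContDiff ℝ 4 k) {a b : ℝ}
    (hs : ∀ u, k u ≠ 0 → a ≤ u ∧ u ≤ b) :
    ∃ C : ℝ, ∀ i, 0 < (D.ρ i).re → ‖Lf k (D.ρ i)‖ ≤ C / ‖D.ρ i‖ ^ (2 : ℝ) := by
  have hc := aa_cs hs
  have hk1 : ContDiff ℝ 1 (deriv k) := by
    have h1 : ContDiff ℝ (1 + 1) k := hk.of_le (by norm_num)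
    rw [contDiff_succ_iff_deriv] at h1
    exact h1.2.2
  have hk2 : Continuous (deriv (deriv k)) := hk1.continuous_deriv le_rfl
  have hc2 : HasCompactSupport (deriv (deriv k)) := hc.deriv.deriv
  have hi : Integrable fun u => ‖deriv (deriv k) u‖ * Real.exp |u| := by
    refine Continuous.integrable_of_hasCompactSupport (by fun_prop) ?_
    exact hc2.norm.mul_right
  refine ⟨∫ u, ‖deriv (deriv k) u‖ * Real.exp |u|, fun i hρ => ?_⟩
  have h1 := aa_parts (hk.of_le (by norm_num)) hc (D.ρ i)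
  have h2 := aa_parts hk1 hc.deriv (D.ρ i)
  have h3 : D.ρ i ^ 2 * Lf k (D.ρ i) = Lf (deriv (deriv k)) (D.ρ i) := by
    linear_combination D.ρ i * h1 - h2
  have hne : D.ρ i ≠ 0 := by
    intro h
    rw [h, Complex.zero_re] at hρ
    exact lt_irrefl _ hρ
  have hn : 0 < ‖D.ρ i‖ := norm_pos_iff.2 hne
  rw [Real.rpow_ofNat, le_div_iff₀ (by positivity), mul_comm, ← norm_pow, ← norm_mul, h3]
  unfold Lf
  refine (norm_integral_le_integral_norm _).trans (integral_mono_of_nonneg
    (ae_of_all _ fun u => norm_nonneg _) hi (ae_of_all _ fun u => ?_))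
  show ‖((deriv (deriv k) u : ℝ) : ℂ) * Complex.exp (D.ρ i * u)‖ ≤ _
  rw [norm_mul, Complex.norm_real, Complex.norm_exp]
  refine mul_le_mul_of_nonneg_left (Real.exp_le_exp.2 ?_) (norm_nonneg _)
  have h4 : (D.ρ i * (u : ℂ)).re = (D.ρ i).re * u := by simp
  rw [h4]
  have h5 := D.rlt i
  calc (D.ρ i).re * u ≤ (D.ρ i).re * |u| := mul_le_mul_of_nonneg_left (le_abs_self u) hρ.le
    _ ≤ 1 * |u| := mul_le_mul_of_nonneg_right h5.le (abs_nonneg u)
    _ = |u| := one_mul _

theorem ZD.efd (D : ZD) (k : ℝ → ℝ) (hk : ContDiff ℝ 4 k) (a b η : ℝ) (hη : 0 < η) (ha : η < a)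
    (hs : ∀ u, k u ≠ 0 → a ≤ u ∧ u ≤ b) :
    (Summable fun i => if 0 < (D.ρ i).re then ‖D.c i‖ * ‖Lf k (D.ρ i)‖ else 0) ∧
    (((∫ u, D.e η u * k u : ℝ)) : ℂ) =
      -∑' i, if 0 < (D.ρ i).re then
        D.c i / D.ρ i * (1 - Complex.exp (-(D.ρ i * η))) * Lf k (D.ρ i) else 0 := by
  constructor
  · obtain ⟨C, hC⟩ := lf_bound D hk hs
    have hC' : Summable fun i => |C| * (‖D.c i‖ / ‖D.ρ i‖ ^ (2 : ℝ)) :=
      (D.sumc 2 (by norm_num)).mul_left _
    refine Summable.of_nonneg_of_le (fun i => ?_) (fun i => ?_) hC'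
    · split_ifs
      · positivity
      · exact le_rfl
    · split_ifs with h
      · calc ‖D.c i‖ * ‖Lf k (D.ρ i)‖ ≤ ‖D.c i‖ * (C / ‖D.ρ i‖ ^ (2 : ℝ)) :=
              mul_le_mul_of_nonneg_left (hC i h) (norm_nonneg _)
          _ ≤ ‖D.c i‖ * (|C| / ‖D.ρ i‖ ^ (2 : ℝ)) := by
              refine mul_le_mul_of_nonneg_left ?_ (norm_nonneg _)
              exact div_le_div_of_nonneg_right (le_abs_self C) (by positivity)
          _ = |C| * (‖D.c i‖ / ‖D.ρ i‖ ^ (2 : ℝ)) := by ring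
      · positivity
  · obtain ⟨s1, i1, e1⟩ := aa_all D hk hη ha hs
    obtain ⟨i2, e2⟩ := aa_left D hk hη ha hs
    have hf : (fun u => D.e η u * k u) = fun u => (D.fw u - D.fw (u - η)) * k u +
        (D.T u - D.T (u - η)) * k u := by
      funext u
      unfold ZD.e
      ring
    obtain ⟨A, hA⟩ : ∃ A : D.ι → ℂ, A = fun i => D.c i * Lf (KK k η) (D.ρ i) := ⟨_, rfl⟩
    have hAs : Summable A := by
      rw [hA]
      exact Summable.of_norm s1
    have g1 : Summable fun i => if 0 < (D.ρ i).re then A i else 0 := by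
      have := hAs.indicator {i | 0 < (D.ρ i).re}
      refine this.congr fun i => ?_
      rw [Set.indicator_apply]
      rfl
    have g2 : Summable fun i => if (D.ρ i).re ≤ 0 then A i else 0 := by
      have := hAs.indicator {i | (D.ρ i).re ≤ 0}
      refine this.congr fun i => ?_
      rw [Set.indicator_apply]
      rfl
    have g3 : ∑' i, A i = (∑' i, if 0 < (D.ρ i).re then A i else 0) +
        ∑' i, if (D.ρ i).re ≤ 0 then A i else 0 := by
      rw [← g1.tsum_add g2]
      refine tsum_congr fun i => ?_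
      by_cases h : 0 < (D.ρ i).re
      · rw [if_pos h, if_neg (not_le.2 h), add_zero]
      · rw [if_neg h, if_pos (not_lt.1 h), zero_add]
    have e3 : ((∫ u, (D.fw u - D.fw (u - η)) * k u : ℝ) : ℂ) = -∑' i, A i := by
      rw [e1, hA]
    have e4 : ((∫ u, (D.T u - D.T (u - η)) * k u : ℝ) : ℂ) =
        ∑' i, if (D.ρ i).re ≤ 0 then A i else 0 := by
      rw [e2, hA]
    have e5 : -∑' i, (if 0 < (D.ρ i).re then
        D.c i / D.ρ i * (1 - Complex.exp (-(D.ρ i * η))) * Lf k (D.ρ i) else 0) =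
        -∑' i, if 0 < (D.ρ i).re then A i else 0 := by
      congr 1
      refine tsum_congr fun i => ?_
      by_cases h : 0 < (D.ρ i).re
      · rw [if_pos h, if_pos h, hA]
        have hne : D.ρ i ≠ 0 := by
          intro h0
          rw [h0, Complex.zero_re] at h
          exact lt_irrefl _ h
        show _ = D.c i * Lf (KK k η) (D.ρ i)
        rw [mul_assoc, ← lf_kk hk hη hs (D.ρ i)]
        field_simp
      · rw [if_neg h, if_neg h]
    rw [hf, integral_add i1 i2, Complex.ofReal_add, e3, e4, g3, e5]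
    ring

end Pool.Agent.H50.RQ
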