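import Pool.Agent.H50.RQ.Zb

/-!
[H50 RQ AB] The contribution `T` of the poles with real part `≤ 0` has small differences.

PROOF. See `Pool/Agent/H50/RL/Ab.lean`. The `i` with `Re ρ ≤ 0` are `ρ = -n` (`D.left`, distinct by `D.inj`), `c` real (`left_real`). So `T u = c_0 u + Σ_{n ≥ 1} (c_n/(-n)) e^{-nu}` (at most one `i` with `ρ = 0`, `c_0 = 0` if there is none).
For `1 ≤ v ≤ u`: `|e^{-nu} - e^{-nv}| ≤ n (u - v) e^{-nv}` and `e^{-nv} ≤ e^{-(v-1)} e^{-n} ≤ e^{-(v-1)} 2/n^2`, so `|T u - T v| ≤ (u - v)(|c_0| + 2 Σ ‖c‖/‖ρ‖^2) ` (`sumc 2`; rpow versus pow): `T_lip`. `T_small`: `u - v ≤ e^{-v}(e^u - e^v)`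
(`e^{u-v} - 1 ≥ u - v`), so `|T u - T v| ≤ C e^{-v} (e^u - e^v) ≤ κ/2 (e^u - e^v)` for `v ≥ V0` with `C e^{-V0} ≤ κ/2`. `T_cont`: locally uniform convergence on `u ≥ x/2` (as `tz_cont` there), plus a linear term
(write the summand as given; `continuousOn_tsum`: for the one term with `ρ = 0` treat it separately or bound it by `|c| (x+1)`).
-/

set_option autoImplicit false

namespace Pool.Agent.H50.RQ

open MeasureTheory Filter Topology
open Pool.Agent.H50.RL (SC Lp Lf Wk Ft)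

/-- the coefficient of the linear term -/
private noncomputable def lin (D : ZD) (i : D.ι) : ℝ := if D.ρ i = 0 then (D.c i).re else 0

/-- the exponential terms -/
private noncomputable def trm (D : ZD) (i : D.ι) (u : ℝ) : ℝ :=
  if (D.ρ i).re ≤ 0 ∧ D.ρ i ≠ 0 then (D.c i / D.ρ i).re * Real.exp ((D.ρ i).re * u) else 0

private theorem left_norm (D : ZD) {i : D.ι} (h : (D.ρ i).re ≤ 0) : (D.ρ i).re = -‖D.ρ i‖ := by
  obtain ⟨n, hn⟩ := D.left i h
  rw [hn, norm_neg, Complex.norm_natCast, Complex.neg_re, Complex.natCast_re]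

private theorem sqs (D : ZD) : Summable fun i : D.ι => ‖D.c i‖ / ‖D.ρ i‖ ^ 2 := by
  have h := D.sumc 2 (by norm_num)
  refine h.congr fun i => ?_
  rw [show ((2 : ℝ)) = ((2 : ℕ) : ℝ) by norm_num, Real.rpow_natCast]

private theorem exp_le_inv {x : ℝ} (hx : 0 < x) : Real.exp (-x) ≤ 1 / x := by
  rw [Real.exp_neg, one_div]
  exact inv_anti₀ hx (by linarith [Real.add_one_le_exp x])

private theorem exp_le_sq {x : ℝ} (hx : 0 < x) : Real.exp (-x) ≤ 2 / x ^ 2 := by
  have h1 := Real.quadratic_le_exp_of_nonneg hx.le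
  rw [Real.exp_neg, inv_le_comm₀ (Real.exp_pos x) (by positivity), inv_div]
  linarith

private theorem re_le (D : ZD) (i : D.ι) : |(D.c i / D.ρ i).re| ≤ ‖D.c i‖ / ‖D.ρ i‖ := by
  rw [← norm_div]
  exact Complex.abs_re_le_norm _

private theorem trm_le (D : ZD) (i : D.ι) {u : ℝ} (hu : 0 < u) :
    |trm D i u| ≤ 1 / u * (‖D.c i‖ / ‖D.ρ i‖ ^ 2) := by
  unfold trm
  split_ifs with h
  · obtain ⟨h1, h2⟩ := h
    have h0 : 0 < ‖D.ρ i‖ := norm_pos_iff.2 h2
    rw [left_norm D h1, neg_mul, abs_mul, abs_of_pos (Real.exp_pos _)]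
    calc |(D.c i / D.ρ i).re| * Real.exp (-(‖D.ρ i‖ * u)) ≤ ‖D.c i‖ / ‖D.ρ i‖ * (1 / (‖D.ρ i‖ * u)) :=
          mul_le_mul (re_le D i) (exp_le_inv (by positivity)) (Real.exp_pos _).le (by positivity)
      _ = 1 / u * (‖D.c i‖ / ‖D.ρ i‖ ^ 2) := by field_simp
  · rw [abs_zero]
    positivity

private theorem trm_summ (D : ZD) {u : ℝ} (hu : 0 < u) : Summable fun i : D.ι => trm D i u :=
  Summable.of_norm_bounded ((sqs D).mul_left (1 / u)) (fun i => trm_le D i hu)

private theorem trm_diff (D : ZD) (i : D.ι) {v u : ℝ} (hv : 0 < v) (hu : v ≤ u) :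
    |trm D i u - trm D i v| ≤ (u - v) * (2 / v ^ 2) * (‖D.c i‖ / ‖D.ρ i‖ ^ 2) := by
  unfold trm
  split_ifs with h
  · obtain ⟨h1, h2⟩ := h
    have h0 : 0 < ‖D.ρ i‖ := norm_pos_iff.2 h2
    have hre := re_le D i
    rw [left_norm D h1, ← mul_sub, abs_mul]
    obtain ⟨R, hR⟩ : ∃ R, R = ‖D.ρ i‖ := ⟨_, rfl⟩
    rw [← hR] at h0 hre ⊢
    have h3 : Real.exp (-R * u) ≤ Real.exp (-R * v) := Real.exp_le_exp.2 (by nlinarith)
    have h4 : Real.exp (-R * v) - Real.exp (-R * u) ≤ R * (u - v) * Real.exp (-(R * v)) := by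
      have h5 : Real.exp (-R * u) = Real.exp (-(R * v)) * Real.exp (-(R * (u - v))) := by
        rw [← Real.exp_add]
        congr 1
        ring
      have h6 := Real.add_one_le_exp (-(R * (u - v)))
      have h7 := Real.exp_pos (-(R * v))
      rw [h5, neg_mul]
      nlinarith
    have h8 : Real.exp (-(R * v)) ≤ 2 / (R * v) ^ 2 := exp_le_sq (by positivity)
    have h9 : 0 ≤ u - v := by linarith
    have h10 : |Real.exp (-R * u) - Real.exp (-R * v)| = Real.exp (-R * v) - Real.exp (-R * u) := by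
      rw [abs_sub_comm, abs_of_nonneg (by linarith)]
    rw [h10]
    calc |(D.c i / D.ρ i).re| * (Real.exp (-R * v) - Real.exp (-R * u))
        ≤ ‖D.c i‖ / R * (R * (u - v) * (2 / (R * v) ^ 2)) := by
          refine mul_le_mul hre (h4.trans (mul_le_mul_of_nonneg_left h8 (by positivity))) (by linarith)
            (by positivity)
      _ = (u - v) * (2 / v ^ 2) * (‖D.c i‖ / R ^ 2) := by field_simp
  · rw [sub_zero, abs_zero]
    have : 0 ≤ u - v := by linarith
    positivity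

private theorem lin_summ (D : ZD) : Summable (lin D) := by
  refine summable_of_hasFiniteSupport ?_
  refine Set.Subsingleton.finite fun i hi j hj => D.inj ?_
  have h : ∀ k, k ∈ Function.support (lin D) → D.ρ k = 0 := by
    intro k hk
    by_contra h0
    exact hk (if_neg h0)
  rw [h i hi, h j hj]

private theorem T_eq (D : ZD) {u : ℝ} (hu : 0 < u) : D.T u = (∑' i, lin D i) * u + ∑' i, trm D i u := by
  rw [← tsum_mul_right, ← ((lin_summ D).mul_right u).tsum_add (trm_summ D hu)]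
  refine tsum_congr fun i => ?_
  unfold lin trm
  by_cases h0 : D.ρ i = 0
  · rw [if_pos (by rw [h0]; simp), if_pos h0, if_pos h0, if_neg (by simp [h0]), add_zero]
  · rw [if_neg h0, if_neg h0, zero_mul, zero_add]
    by_cases h1 : (D.ρ i).re ≤ 0
    · rw [if_pos h1, if_pos ⟨h1, h0⟩]
    · rw [if_neg h1, if_neg (fun h => h1 h.1)]

theorem ZD.T_lip (D : ZD) : ∃ C : ℝ, 0 ≤ C ∧ ∀ v u : ℝ, 1 ≤ v → v ≤ u → |D.T u - D.T v| ≤ C * (u - v) := by
  obtain ⟨S, hS⟩ : ∃ S, S = ∑' i : D.ι, ‖D.c i‖ / ‖D.ρ i‖ ^ 2 := ⟨_, rfl⟩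
  have hS0 : 0 ≤ S := by
    rw [hS]
    exact tsum_nonneg fun i => by positivity
  refine ⟨|∑' i, lin D i| + 2 * S, by positivity, fun v u hv hu => ?_⟩
  have hv0 : 0 < v := by linarith
  have hu0 : 0 < u := by linarith
  have h0 : 0 ≤ u - v := by linarith
  have h1 : D.T u - D.T v = (∑' i, lin D i) * (u - v) + ∑' i, (trm D i u - trm D i v) := by
    rw [(trm_summ D hu0).tsum_sub (trm_summ D hv0), T_eq D hu0, T_eq D hv0]
    ring
  have h2 : ‖∑' i, (trm D i u - trm D i v)‖ ≤ (u - v) * (2 / v ^ 2) * S := by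
    rw [hS, ← tsum_mul_left]
    exact tsum_of_norm_bounded ((sqs D).mul_left _).hasSum fun i => trm_diff D i hv0 hu
  have h3 : (u - v) * (2 / v ^ 2) * S ≤ (u - v) * 2 * S := by
    refine mul_le_mul_of_nonneg_right (mul_le_mul_of_nonneg_left ?_ h0) hS0
    rw [div_le_iff₀ (by positivity)]
    nlinarith
  rw [Real.norm_eq_abs] at h2
  rw [h1]
  calc |(∑' i, lin D i) * (u - v) + ∑' i, (trm D i u - trm D i v)|
      ≤ |(∑' i, lin D i) * (u - v)| + |∑' i, (trm D i u - trm D i v)| := abs_add_le _ _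
    _ ≤ |∑' i, lin D i| * (u - v) + (u - v) * 2 * S := by
        rw [abs_mul, abs_of_nonneg h0]
        linarith
    _ = (|∑' i, lin D i| + 2 * S) * (u - v) := by ring

theorem ZD.T_small (D : ZD) : ∃ V0 : ℝ, 1 ≤ V0 ∧ ∀ v u : ℝ, V0 ≤ v → v ≤ u →
    |D.T u - D.T v| ≤ D.κ / 2 * (Real.exp u - Real.exp v) := by
  obtain ⟨C, hC, h⟩ := D.T_lip
  have hκ := D.κpos
  refine ⟨max 1 (2 * C / D.κ), le_max_left _ _, fun v u hv hu => ?_⟩
  have hv1 : 1 ≤ v := (le_max_left _ _).trans hv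
  have hv2 : 2 * C / D.κ ≤ v := (le_max_right _ _).trans hv
  refine (h v u hv1 hu).trans ?_
  have h1 : 2 * C / D.κ ≤ Real.exp v := by linarith [Real.add_one_le_exp v]
  rw [div_le_iff₀ hκ] at h1
  have h2 : Real.exp u = Real.exp v * Real.exp (u - v) := by
    rw [← Real.exp_add]
    congr 1
    ring
  have h3 := Real.add_one_le_exp (u - v)
  have h4 : Real.exp v * (u - v) ≤ Real.exp u - Real.exp v := by
    rw [h2]
    nlinarith [Real.exp_pos v]
  have h5 : 0 ≤ u - v := by linarith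
  calc C * (u - v) ≤ (D.κ / 2 * Real.exp v) * (u - v) := mul_le_mul_of_nonneg_right (by linarith) h5
    _ = D.κ / 2 * (Real.exp v * (u - v)) := by ring
    _ ≤ D.κ / 2 * (Real.exp u - Real.exp v) := mul_le_mul_of_nonneg_left h4 (by linarith)

theorem ZD.T_cont (D : ZD) : ContinuousOn D.T (Set.Ioi 0) := by
  intro x hx
  have hx0 : (0 : ℝ) < x := hx
  have h1 : ContinuousOn (fun u => ∑' i, trm D i u) (Set.Ioi (x / 2)) := by
    refine continuousOn_tsum (u := fun i : D.ι => 1 / (x / 2) * (‖D.c i‖ / ‖D.ρ i‖ ^ 2)) ?_ ((sqs D).mul_left _) ?_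
    · intro i
      have h2 : Continuous (trm D i) := by
        unfold trm
        split_ifs
        · fun_prop
        · exact continuous_const
      exact h2.continuousOn
    · intro i u hu
      have hu1 : x / 2 < u := hu
      have hu0 : 0 < u := by linarith
      refine (trm_le D i hu0).trans (mul_le_mul_of_nonneg_right ?_ (by positivity))
      exact one_div_le_one_div_of_le (by linarith) hu1.le
  have h2 : ContinuousOn D.T (Set.Ioi (x / 2)) := by
    have h3 : ContinuousOn (fun u => (∑' i, lin D i) * u + ∑' i, trm D i u) (Set.Ioi (x / 2)) :=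
      (continuous_const.mul continuous_id).continuousOn.add h1
    refine h3.congr fun u hu => ?_
    have hu1 : x / 2 < u := hu
    exact T_eq D (by linarith)
  exact (h2.continuousAt (Ioi_mem_nhds (by linarith))).continuousWithinAt

end Pool.Agent.H50.RQ
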