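import Pool.Agent.H50.RQ.Ab

/-!
[H50 RQ AC] Local signs of the corrected difference near a good prime.

PROOF. See `Pool/Agent/H50/RL/Ac.lean`. `V0 = V + 1`, `V` from `T_small`. `e η u = Σ_{⌊e^{u-η}⌋ < n ≤ ⌊e^u⌋} (V n + w n) - κ (e^u - e^{u-η}) + (T u - T(u-η))`; `u - η ≥ V` in both cases, so the last bracket is at most
`κ/2 (e^u - e^{u-η})` in absolute value.
(1) `log p ≤ u < log p + η`: `e^{u-η} < p ≤ e^u < p e^η ≤ p + 1/2` and `e^{u-η} ≥ p e^{-η} ≥ p - 1/4`, so the only integer in `(e^{u-η}, e^u]` is `p` and the sum is `V p + w p = log p ≥ 1` (`D.P1`); `κ ≤ 1`,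
`e^u - e^{u-η} = e^u (1 - e^{-η}) ≤ η e^u ≤ η p e^η ≤ e/8 < 2/5`, so `e η u ≥ 1 - (3/2)(2/5) > 0`.
(2) `log p + η ≤ u < log(p+1)`: `p ≤ e^{u-η} ≤ e^u < p + 1`, both floors are `p`, the sum is empty; `e η u ≤ -κ/2 (e^u - e^{u-η}) < 0`.
-/

set_option autoImplicit false

namespace Pool.Agent.H50.RQ

open MeasureTheory Filter Topology
open Pool.Agent.H50.RL (SC Lp Lf Wk Ft)

theorem ZD.signs (D : ZD) : ∃ V0 : ℝ, 1 ≤ V0 ∧ ∀ p ∈ D.P, V0 ≤ Real.log p → ∀ η : ℝ, 0 < η → η ≤ 1 / (8 * p) →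
    (∀ u, Real.log p ≤ u → u < Real.log p + η → 0 < D.e η u) ∧
    (∀ u, Real.log p + η ≤ u → u < Real.log (p + 1) → D.e η u < 0) := by
  obtain ⟨V, hV1, hV⟩ := D.T_small
  refine ⟨V + 1, by linarith, fun p hpP hVp η hη hηp => ?_⟩
  obtain ⟨hp, hVp', hwp⟩ := D.P1 p hpP
  have hκ0 := D.κpos
  have hκ1 := D.κle
  have hp2 : (2 : ℝ) ≤ p := by exact_mod_cast hp.two_le
  have hp0 : (0 : ℝ) < p := by linarith
  have hη16 : η ≤ 1 / 16 := by
    refine hηp.trans ?_
    rw [div_le_div_iff₀ (by positivity) (by norm_num)]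
    linarith
  have hpη : p * η ≤ 1 / 8 := by
    have h1 : p * η ≤ p * (1 / (8 * p)) := mul_le_mul_of_nonneg_left hηp hp0.le
    have h2 : (p : ℝ) * (1 / (8 * p)) = 1 / 8 := by
      field_simp
    linarith
  have hexplog : Real.exp (Real.log p) = p := Real.exp_log hp0
  constructor
  · intro u hu1 hu2
    have h1 := (abs_le.1 (hV (u - η) u (by linarith) (by linarith))).1
    have hpu : (p : ℝ) ≤ Real.exp u := by
      rw [← hexplog]
      exact Real.exp_le_exp.2 hu1
    have hpu2 : Real.exp (u - η) < p := by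
      rw [← hexplog]
      exact Real.exp_lt_exp.2 (by linarith)
    have e1 : Real.exp (u - η) = Real.exp u * Real.exp (-η) := by
      rw [← Real.exp_add]
      congr 1
    have e2 : 1 - η ≤ Real.exp (-η) := by
      have := Real.add_one_le_exp (-η)
      linarith
    have e3 : Real.exp u < p * Real.exp η := by
      rw [← hexplog, ← Real.exp_add]
      exact Real.exp_lt_exp.2 hu2
    have e4 : Real.exp η ≤ 1 + 2 * η := by
      have h5 : Real.exp (-η) * Real.exp η = 1 := by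
        rw [← Real.exp_add, neg_add_cancel, Real.exp_zero]
      nlinarith [Real.exp_pos η, Real.exp_pos (-η)]
    have e5 : Real.exp u ≤ 2 * p := by nlinarith
    have hexp : Real.exp u - Real.exp (u - η) ≤ 1 / 4 := by
      rw [e1]
      have e6 : Real.exp u - Real.exp u * Real.exp (-η) = Real.exp u * (1 - Real.exp (-η)) := by ring
      rw [e6]
      have e7 : 1 - Real.exp (-η) ≤ η := by linarith
      calc Real.exp u * (1 - Real.exp (-η)) ≤ Real.exp u * η :=
            mul_le_mul_of_nonneg_left e7 (Real.exp_pos _).le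
        _ ≤ (2 * p) * η := mul_le_mul_of_nonneg_right e5 hη.le
        _ ≤ 1 / 4 := by linarith
    obtain ⟨q, rfl⟩ : ∃ q, p = q + 1 := ⟨p - 1, by have := hp.one_lt; omega⟩
    have hf1 : ⌊Real.exp u⌋₊ = q + 1 := by
      rw [Nat.floor_eq_iff (Real.exp_pos _).le]
      refine ⟨hpu, ?_⟩
      have h7 : Real.exp u < ((q + 1 : ℕ) : ℝ) * (1 + 2 * η) :=
        lt_of_lt_of_le e3 (mul_le_mul_of_nonneg_left e4 hp0.le)
      nlinarith
    have hf2 : ⌊Real.exp (u - η)⌋₊ = q := by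
      rw [Nat.floor_eq_iff (Real.exp_pos _).le]
      refine ⟨?_, ?_⟩
      · have h7 : ((q + 1 : ℕ) : ℝ) - Real.exp (u - η) ≤ 1 := by linarith
        push_cast at h7
        linarith
      · push_cast at hpu2
        exact hpu2
    have hs : (∑ n ∈ Finset.Icc 1 ⌊Real.exp u⌋₊, (D.V n + D.w n)) =
        (∑ n ∈ Finset.Icc 1 ⌊Real.exp (u - η)⌋₊, (D.V n + D.w n)) + Real.log ((q + 1 : ℕ) : ℝ) := by
      rw [hf1, hf2, Finset.sum_Icc_succ_top (by omega), hVp', hwp, add_zero]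
    unfold ZD.e ZD.fw
    rw [hs]
    nlinarith
  · intro u hu1 hu2
    have h1 := (abs_le.1 (hV (u - η) u (by linarith) (by linarith))).2
    have hpu : (p : ℝ) ≤ Real.exp (u - η) := by
      rw [← hexplog]
      exact Real.exp_le_exp.2 (by linarith)
    have hmono : Real.exp (u - η) < Real.exp u := Real.exp_lt_exp.2 (by linarith)
    have hpu2 : Real.exp u < p + 1 := by
      have h2 : Real.exp (Real.log ((p : ℝ) + 1)) = p + 1 := Real.exp_log (by linarith)
      rw [← h2]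
      exact Real.exp_lt_exp.2 hu2
    have hf1 : ⌊Real.exp u⌋₊ = p := by
      rw [Nat.floor_eq_iff (Real.exp_pos _).le]
      exact ⟨by linarith, hpu2⟩
    have hf2 : ⌊Real.exp (u - η)⌋₊ = p := by
      rw [Nat.floor_eq_iff (Real.exp_pos _).le]
      exact ⟨hpu, by linarith⟩
    unfold ZD.e ZD.fw
    rw [hf1, hf2]
    nlinarith

end Pool.Agent.H50.RQ
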