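import Pool.Agent.H50.RQ.Df

/-!
[H50 RQ AD] Windows with many good primes.

PROOF. See `Pool/Agent/H50/RL/Ad.lean` (`prime_window`; there `Σ 1/p`, here `Σ_{p ∈ P} log p/p = ∞`, `D.P2`). If fewer than `M + 1` elements of `P` satisfy `U ≤ log p ≤ U + 1/2` for every `U ≥ W := max V 0`, then every `p ∈ P` with `log p ≥ W` lies in a
window `U_j = W + j/2` and contributes `log p/p ≤ (W + j/2 + 1/2) e^{-W - j/2}`; `Σ_j M (W + j/2 + 1/2) e^{-W-j/2} < ∞` (`summable_pow_mul_geometric_of_norm_lt_one`), contradiction. (`P` consists of primes by `D.P1`, terms `≥ 0`.)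
-/

set_option autoImplicit false

namespace Pool.Agent.H50.RQ

open MeasureTheory Filter Topology
open Pool.Agent.H50.RL (SC Lp Lf Wk Ft)

open Classical in
private lemma window_card (D : ZD) (M : ℕ) (U : ℝ) (h : ∀ p : Fin (M + 1) → ℕ, StrictMono p →
    ¬ ∀ i, p i ∈ D.P ∧ U ≤ Real.log (p i) ∧ Real.log (p i) ≤ U + 1 / 2) (s : Finset ℕ)
    (hs : ∀ n ∈ s, n ∈ D.P ∧ U ≤ Real.log n ∧ Real.log n ≤ U + 1 / 2) : s.card ≤ M := by
  by_contra hc
  have h1 : M + 1 ≤ s.card := by omega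
  refine h (s.orderEmbOfCardLe h1) (s.orderEmbOfCardLe h1).strictMono fun i => ?_
  exact hs _ (s.orderEmbOfCardLe_mem h1 i)

theorem ZD.window (D : ZD) (M : ℕ) (V : ℝ) : ∃ U : ℝ, V ≤ U ∧ ∃ p : Fin (M + 1) → ℕ, StrictMono p ∧
    ∀ i, p i ∈ D.P ∧ U ≤ Real.log (p i) ∧ Real.log (p i) ≤ U + 1 / 2 := by
  classical
  by_contra hcon
  obtain ⟨W, hW, hVW⟩ : ∃ W : ℝ, 0 ≤ W ∧ V ≤ W := ⟨max V 0, le_max_right _ _, le_max_left _ _⟩
  have h : ∀ U : ℝ, W ≤ U → ∀ p : Fin (M + 1) → ℕ, StrictMono p →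
      ¬ ∀ i, p i ∈ D.P ∧ U ≤ Real.log (p i) ∧ Real.log (p i) ≤ U + 1 / 2 :=
    fun U hU p hp hi => hcon ⟨U, hVW.trans hU, p, hp, hi⟩
  set r : ℝ := Real.exp (-(1 / 2)) with hr
  have hr0 : 0 ≤ r := (Real.exp_pos _).le
  have hr1 : r < 1 := by
    rw [hr, Real.exp_lt_one_iff]
    norm_num
  have nn : ∀ n : ℕ, 0 ≤ Real.log n / n := fun n =>
    div_nonneg (Real.log_natCast_nonneg n) (Nat.cast_nonneg n)
  have hsum : Summable fun j : ℕ => (W + j / 2 + 1 / 2) * r ^ j := by
    have h1 := summable_geometric_of_lt_one hr0 hr1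
    have h2 := summable_pow_mul_geometric_of_norm_lt_one 1 (r := r)
      (by rw [Real.norm_eq_abs, abs_of_nonneg hr0]; exact hr1)
    refine ((h1.mul_left (W + 1 / 2)).add (h2.mul_left (1 / 2))).congr fun j => ?_
    ring
  obtain ⟨L, hL⟩ : ∃ L : ℕ, Real.exp W < L := exists_nat_gt _
  apply D.P2
  refine summable_of_sum_range_le (c := ∑ n ∈ Finset.range L, Real.log n / n + M * ∑' j : ℕ, (W + j / 2 + 1 / 2) * r ^ j)
    (fun n => Set.indicator_nonneg (fun k _ => nn _) n) fun N => ?_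
  have e1 : ∑ n ∈ Finset.range N, Set.indicator D.P (fun n : ℕ => Real.log n / n) n =
      ∑ n ∈ (Finset.range N).filter (fun n => n ∈ D.P), Real.log n / n := by
    rw [Finset.sum_filter]
    refine Finset.sum_congr rfl fun n _ => ?_
    rw [Set.indicator_apply]
  rw [e1, ← Finset.sum_filter_add_sum_filter_not _ (fun n : ℕ => Real.log n < W)]
  refine add_le_add ?_ ?_
  · refine Finset.sum_le_sum_of_subset_of_nonneg ?_ fun n _ _ => nn _
    intro n hn
    rw [Finset.mem_filter, Finset.mem_filter] at hn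
    obtain ⟨⟨-, hp⟩, hl⟩ := hn
    rw [Finset.mem_range]
    have h0 : (0 : ℝ) < n := by exact_mod_cast (D.P1 _ hp).1.pos
    have h1 : (n : ℝ) < Real.exp W := (Real.log_lt_iff_lt_exp h0).1 hl
    exact_mod_cast h1.trans hL
  · obtain ⟨s, hs⟩ : ∃ s : Finset ℕ, s = ((Finset.range N).filter (fun n => n ∈ D.P)).filter
      (fun n : ℕ => ¬ Real.log n < W) := ⟨_, rfl⟩
    rw [← hs]
    have hs1 : ∀ n ∈ s, n ∈ D.P ∧ W ≤ Real.log n := by
      intro n hn
      rw [hs, Finset.mem_filter, Finset.mem_filter] at hn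
      exact ⟨hn.1.2, not_lt.1 hn.2⟩
    let g : ℕ → ℕ := fun n => ⌊2 * (Real.log n - W)⌋₊
    obtain ⟨J, hJ⟩ : ∃ J : ℕ, ∀ n ∈ s, g n < J := by
      refine ⟨(s.sup g) + 1, fun n hn => ?_⟩
      have := Finset.le_sup (f := g) hn
      omega
    rw [← Finset.sum_fiberwise_of_maps_to (s := s) (t := Finset.range J) (g := g)
      (fun n hn => Finset.mem_range.2 (hJ n hn))]
    have h2 : ∀ j ∈ Finset.range J, ∑ n ∈ s with g n = j, Real.log n / n ≤ M * ((W + j / 2 + 1 / 2) * r ^ j) := by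
      intro j _
      have h3 : ∀ n ∈ s.filter (fun n => g n = j), n ∈ D.P ∧ W + j / 2 ≤ Real.log n ∧
          Real.log n ≤ W + j / 2 + 1 / 2 := by
        intro n hn
        rw [Finset.mem_filter] at hn
        obtain ⟨hn, hg⟩ := hn
        obtain ⟨hp, hl⟩ := hs1 n hn
        have h4 : (0 : ℝ) ≤ 2 * (Real.log n - W) := by linarith
        have h5 := Nat.floor_le h4
        have h6 := Nat.lt_floor_add_one (2 * (Real.log n - W))
        have h7 : ⌊2 * (Real.log n - W)⌋₊ = j := hg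
        rw [h7] at h5 h6
        exact ⟨hp, by linarith, by linarith⟩
      have h4 := window_card D M (W + j / 2) (h _ (by
        have : (0 : ℝ) ≤ j := Nat.cast_nonneg j
        linarith)) _ h3
      have h5 : ∀ n ∈ s.filter (fun n => g n = j), Real.log n / n ≤ (W + j / 2 + 1 / 2) * r ^ j := by
        intro n hn
        obtain ⟨hp, hl, hl2⟩ := h3 n hn
        have h0 : (0 : ℝ) < n := by exact_mod_cast (D.P1 _ hp).1.pos
        have h6 : Real.exp (j / 2) ≤ n := by
          rw [← Real.exp_log h0]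
          apply Real.exp_le_exp.2
          linarith
        have h7 : r ^ j = (Real.exp (j / 2))⁻¹ := by
          rw [hr, ← Real.exp_nat_mul, ← Real.exp_neg]
          congr 1
          ring
        rw [h7, div_eq_mul_inv]
        exact mul_le_mul hl2 (inv_anti₀ (Real.exp_pos _) h6) (by positivity)
          (le_trans (Real.log_natCast_nonneg n) hl2)
      calc ∑ n ∈ s with g n = j, Real.log n / n ≤ ∑ n ∈ s with g n = j, (W + j / 2 + 1 / 2) * r ^ j :=
            Finset.sum_le_sum h5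
        _ = (s.filter (fun n => g n = j)).card * ((W + j / 2 + 1 / 2) * r ^ j) := by
            rw [Finset.sum_const, nsmul_eq_mul]
        _ ≤ M * ((W + j / 2 + 1 / 2) * r ^ j) := by
            refine mul_le_mul_of_nonneg_right ?_ (by positivity)
            exact_mod_cast h4
    calc ∑ j ∈ Finset.range J, ∑ n ∈ s with g n = j, Real.log n / n
        ≤ ∑ j ∈ Finset.range J, M * ((W + j / 2 + 1 / 2) * r ^ j) := Finset.sum_le_sum h2
      _ = M * ∑ j ∈ Finset.range J, (W + j / 2 + 1 / 2) * r ^ j := by rw [Finset.mul_sum]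
      _ ≤ M * ∑' j : ℕ, (W + j / 2 + 1 / 2) * r ^ j := by
          refine mul_le_mul_of_nonneg_left ?_ (Nat.cast_nonneg _)
          exact hsum.sum_le_tsum _ fun j _ => by positivity

end Pool.Agent.H50.RQ
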