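import Pool.Agent.H50.RQ.Aa
import Pool.Agent.H50.RQ.Ac
import Pool.Agent.H50.RQ.Ad
import Pool.Agent.H50.RL.Ae

/-!
[H50 RQ AF] Part A: if no pole has real part `> 1/2`, small `η` give many sign changes.

PROOF. Copy `Pool/Agent/H50/RL/Af.lean` (`part_a`). By `D.sym` every `i` with `Re ρ > 0` has `Re ρ = 1/2` (`Re (1 - conj ρ) = 1 - Re ρ ≤ 1/2`). `V0` from `D.signs`; `D.window M (V0 + 1)`: `U`, `p_0 < ... < p_M` in `P`; `η0 = 1/(8 (p_M + 1))`.
Let `0 < η < η0`. Open intervals `I_i = (log p_i, log p_i + η)` for `i` even, `(log p_i + η, log(p_i + 1))` for `i` odd: nonempty, ordered, in `[U, U+1]`. On `I_i` the sign of `D.e η` is `(-1)^i`. `k_i ≥ 0` a smooth bump supported in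
`I_i`. For `t ≥ 0`, `k_{i,t}(u) = e^{-u/2} k_i(u - t)`. `D.efd`: `D_i(t) := ∫ D.e η u · k_{i,t}(u) du = Σ' c_i(ρ) e^{iγt}` with `c_i(ρ) = -(c/ρ)(1 - e^{-ρη}) ∫ k_i(w) e^{iγw} dw` on `Re ρ > 0` (`= 1/2`), else `0`;
`Σ ‖c_i‖ < ∞` from `efd` at `t = 0` (`D.away`). `(-1)^i D_i(0) > 0`. Let `3ε = min_i |D_i(0)|`. `RL.recur_multi`: for arbitrarily large `t`, `|D_i(t) - D_i(0)| ≤ ε` for all `i`. New here: the difference between `D.e η u` and
`D.f u - D.f (u - η)` is `(T u - T(u-η)) + (fw u - f u) - (fw (u-η) - f (u-η))`, at most `C η + 2 C' (1 + |u|)` in absolute value (`T_lip`, `sw`), so its integral against `k_{i,t}` is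
`≤ C'' (1 + t + U) e^{-t/2} → 0`: at most `ε` for `t` large. So `(-1)^i ∫ (f u - f(u-η)) k_{i,t}(u) du > 0`, hence there is `u_i ∈ t + I_i` with `(-1)^i (f u_i - f(u_i - η)) > 0`. Take `y = t + U ≥ Y0`, points `u_0 < ... < u_M`.
-/

set_option autoImplicit false

namespace Pool.Agent.H50.RQ

open MeasureTheory Filter Topology
open Pool.Agent.H50.RL (SC Lp Lf Wk Ft)

private theorem exb (α β : ℝ) (h : α < β) : ∃ g : ℝ → ℝ, ContDiff ℝ 4 g ∧ (∀ u, 0 ≤ g u) ∧
    ∃ a b, α < a ∧ a < b ∧ b < β ∧ ∀ u, g u ≠ 0 ↔ a < u ∧ u < b := by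
  let f : ContDiffBump ((α + β) / 2) := ⟨(β - α) / 8, (β - α) / 4, by linarith, by linarith⟩
  refine ⟨f, f.contDiff, fun u => f.nonneg, (α + β) / 2 - (β - α) / 4, (α + β) / 2 + (β - α) / 4,
    by linarith, by linarith, by linarith, fun u => ?_⟩
  have h1 : u ∈ Function.support f ↔ u ∈ Metric.ball ((α + β) / 2) ((β - α) / 4) := by
    rw [f.support_eq]
  rw [Function.mem_support, Real.ball_eq_Ioo, Set.mem_Ioo] at h1
  exact h1

private theorem int_e (D : ZD) {k : ℝ → ℝ} (hk : Continuous k) {a b η : ℝ} (hη : 0 < η) (ha : η < a)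
    (hs : ∀ u, k u ≠ 0 → a ≤ u ∧ u ≤ b) : Integrable fun u => D.e η u * k u := by
  have hf : ∀ c : ℝ, IntegrableOn (fun u => D.fw (u - c)) (Set.Icc a b) := by
    intro c
    rcases le_or_gt a b with hab | hab
    · have h1 := (D.fw_int (a - c) (b - c)).comp_sub_right c
      rw [sub_add_cancel, sub_add_cancel] at h1
      exact (intervalIntegrable_iff_integrableOn_Icc_of_le hab).1 h1
    · rw [Set.Icc_eq_empty (not_le.2 hab)]
      exact integrableOn_empty
  have hT : ∀ c : ℝ, c < a → IntegrableOn (fun u => D.T (u - c)) (Set.Icc a b) := by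
    intro c hc
    refine ContinuousOn.integrableOn_Icc ?_
    refine D.T_cont.comp (Continuous.continuousOn (by fun_prop)) ?_
    intro u hu
    show 0 < u - c
    linarith [hu.1]
  have h1 : IntegrableOn (D.e η) (Set.Icc a b) := by
    have h2 := ((hf 0).sub (hf η)).add ((hT 0 (by linarith)).sub (hT η ha))
    simp only [sub_zero] at h2
    exact h2
  have h2 : IntegrableOn (fun u => D.e η u * k u) (Set.Icc a b) :=
    h1.mul_continuousOn hk.continuousOn isCompact_Icc
  refine (integrableOn_iff_integrable_of_support_subset ?_).1 h2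
  intro u hu
  have h3 : k u ≠ 0 := fun h0 => hu (by
    show D.e η u * k u = 0
    rw [h0, mul_zero])
  exact hs u h3

/-- the coefficients -/
private noncomputable def cc (D : ZD) (g : ℝ → ℝ) (η : ℝ) (i : D.ι) : ℂ :=
  if 0 < (D.ρ i).re then D.c i / D.ρ i * (1 - Complex.exp (-(D.ρ i * η))) * Lf g (D.ρ i) else 0

private theorem cc_summ (D : ZD) {g : ℝ → ℝ} (hg : ContDiff ℝ 4 g) {a b η : ℝ} (hη : 0 < η) (ha : η < a)
    (hs : ∀ u, g u ≠ 0 → a ≤ u ∧ u ≤ b) : Summable fun i => ‖cc D g η i‖ := by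
  obtain ⟨c, hc, -, hcρ⟩ := D.away
  have h1 := (D.efd g hg a b η hη ha hs).1
  refine Summable.of_nonneg_of_le (fun i => norm_nonneg _) ?_ (h1.mul_left (2 / c))
  intro i
  unfold cc
  split_ifs with h
  · have h2 : ‖1 - Complex.exp (-(D.ρ i * η))‖ ≤ 2 := by
      refine (norm_sub_le _ _).trans ?_
      rw [norm_one, Complex.norm_exp]
      have h3 : (-(D.ρ i * (η : ℂ))).re = -((D.ρ i).re * η) := by
        rw [Complex.neg_re, Complex.mul_re, Complex.ofReal_re, Complex.ofReal_im]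
        ring
      have h4 : Real.exp (-((D.ρ i).re * η)) ≤ 1 := by
        rw [Real.exp_le_one_iff]
        have := mul_pos h hη
        linarith
      rw [h3]
      linarith
    have hne : D.ρ i ≠ 0 := by
      intro h0
      rw [h0, Complex.zero_re] at h
      exact lt_irrefl _ h
    rw [norm_mul, norm_mul, norm_div]
    have h5 : ‖D.c i‖ / ‖D.ρ i‖ ≤ ‖D.c i‖ / c :=
      div_le_div_of_nonneg_left (norm_nonneg _) hc (hcρ i hne)
    calc ‖D.c i‖ / ‖D.ρ i‖ * ‖1 - Complex.exp (-(D.ρ i * η))‖ * ‖Lf g (D.ρ i)‖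
        ≤ ‖D.c i‖ / c * 2 * ‖Lf g (D.ρ i)‖ := by
          refine mul_le_mul_of_nonneg_right ?_ (norm_nonneg _)
          exact mul_le_mul h5 h2 (norm_nonneg _) (div_nonneg (norm_nonneg _) hc.le)
      _ = 2 / c * (‖D.c i‖ * ‖Lf g (D.ρ i)‖) := by ring
  · rw [norm_zero, mul_zero]

private theorem Lf_shift (g : ℝ → ℝ) (t : ℝ) (z : ℂ) (hz : z.re = 1 / 2) :
    Lf (fun u => Real.exp (-(t / 2)) * g (u - t)) z =
      Complex.exp (((z.im * t : ℝ) : ℂ) * Complex.I) * Lf g z := by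
  unfold Lf
  have h1 := integral_sub_right_eq_self (μ := volume) (fun u : ℝ =>
    Complex.exp (((z.im * t : ℝ) : ℂ) * Complex.I) * ((g u : ℂ) * Complex.exp (z * u))) t
  rw [← integral_const_mul, ← h1]
  refine integral_congr_ae (Eventually.of_forall fun u => ?_)
  show ((Real.exp (-(t / 2)) * g (u - t) : ℝ) : ℂ) * Complex.exp (z * u) =
    Complex.exp (((z.im * t : ℝ) : ℂ) * Complex.I) * ((g (u - t) : ℂ) * Complex.exp (z * ((u - t : ℝ) : ℂ)))
  have h3 : z = 1 / 2 + (z.im : ℂ) * Complex.I := by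
    apply Complex.ext <;> simp [hz]
  have h2 : Complex.exp (z * u) = Complex.exp (((z.im * t : ℝ) : ℂ) * Complex.I) *
      Complex.exp (z * ((u - t : ℝ) : ℂ)) * Complex.exp ((t / 2 : ℝ) : ℂ) := by
    rw [← Complex.exp_add, ← Complex.exp_add]
    congr 1
    push_cast
    linear_combination (t : ℂ) * h3
  have h4 : ((Real.exp (-(t / 2)) : ℝ) : ℂ) * Complex.exp ((t / 2 : ℝ) : ℂ) = 1 := by
    rw [← Complex.ofReal_exp, ← Complex.ofReal_mul, ← Real.exp_add, neg_add_cancel, Real.exp_zero,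
      Complex.ofReal_one]
  rw [h2, Complex.ofReal_mul]
  linear_combination ((g (u - t) : ℂ) * Complex.exp (((z.im * t : ℝ) : ℂ) * Complex.I) *
      Complex.exp (z * ((u - t : ℝ) : ℂ))) * h4

private theorem D_t (D : ZD) (hRH : ∀ i, (D.ρ i).re ≤ 1 / 2) {g : ℝ → ℝ} (hg : ContDiff ℝ 4 g) {a b η t : ℝ}
    (hη : 0 < η) (ha : η < a) (ht : 0 ≤ t) (hs : ∀ u, g u ≠ 0 → a ≤ u ∧ u ≤ b) :
    ((∫ u, D.e η u * (Real.exp (-(t / 2)) * g (u - t)) : ℝ) : ℂ) =
      -∑' i, cc D g η i * Complex.exp ((((D.ρ i).im * t : ℝ) : ℂ) * Complex.I) := by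
  have hc : ContDiff ℝ 4 fun u => Real.exp (-(t / 2)) * g (u - t) :=
    contDiff_const.mul (hg.comp (contDiff_id.sub contDiff_const))
  have h1 := (D.efd (fun u => Real.exp (-(t / 2)) * g (u - t)) hc (a + t) (b + t) η hη (by linarith) (by
    intro u hu
    have h2 : g (u - t) ≠ 0 := fun h0 => hu (by
      show Real.exp (-(t / 2)) * g (u - t) = 0
      rw [h0, mul_zero])
    have h3 := hs _ h2
    exact ⟨by linarith [h3.1], by linarith [h3.2]⟩)).2
  rw [h1]
  congr 1
  refine tsum_congr fun i => ?_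
  unfold cc
  split_ifs with h
  · have hre : (D.ρ i).re = 1 / 2 := by
      obtain ⟨j, hj⟩ := D.sym i h
      have h2 := hRH j
      rw [hj, Complex.sub_re, Complex.one_re, Complex.conj_re] at h2
      have h4 := hRH i
      linarith
    rw [Lf_shift g t _ hre]
    ring
  · rw [zero_mul]

/-- a point with the right sign -/
private theorem pt (D : ZD) {g : ℝ → ℝ} (hg : Continuous g) (hg0 : ∀ u, 0 ≤ g u) {a b η t σ δ : ℝ}
    (hη : 0 < η) (ha : η < a) (ht : 0 ≤ t) (hs : ∀ u, g u ≠ 0 → a ≤ u ∧ u ≤ b) (hσ : |σ| = 1)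
    (hδ : ∀ u, a + t ≤ u → u ≤ b + t → |D.e η u - (D.f u - D.f (u - η))| ≤ δ)
    (hD : δ * (Real.exp (-(t / 2)) * ∫ u, g u) < σ * ∫ u, D.e η u * (Real.exp (-(t / 2)) * g (u - t))) :
    ∃ u, a + t ≤ u ∧ u ≤ b + t ∧ 0 < σ * (D.f u - D.f (u - η)) := by
  by_contra hcon
  push Not at hcon
  have hkc : Continuous fun u => Real.exp (-(t / 2)) * g (u - t) :=
    continuous_const.mul (hg.comp (continuous_id.sub continuous_const))
  have hks : ∀ u, Real.exp (-(t / 2)) * g (u - t) ≠ 0 → a + t ≤ u ∧ u ≤ b + t := by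
    intro u hu
    have h2 : g (u - t) ≠ 0 := fun h0 => hu (by rw [h0, mul_zero])
    have h3 := hs _ h2
    exact ⟨by linarith [h3.1], by linarith [h3.2]⟩
  have hcs : HasCompactSupport g := by
    refine HasCompactSupport.intro (K := Set.Icc a b) isCompact_Icc fun u hu => ?_
    by_contra h0
    exact hu (hs u h0)
  have hgi : Integrable g := hg.integrable_of_hasCompactSupport hcs
  have hki : Integrable fun u => Real.exp (-(t / 2)) * g (u - t) :=
    (hgi.comp_sub_right t).const_mul _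
  have hei := int_e D hkc hη (by linarith : η < a + t) hks
  have h1 : ∫ u, σ * (D.e η u * (Real.exp (-(t / 2)) * g (u - t))) ≤
      ∫ u, δ * (Real.exp (-(t / 2)) * g (u - t)) := by
    refine integral_mono (hei.const_mul σ) (hki.const_mul δ) fun u => ?_
    show σ * (D.e η u * (Real.exp (-(t / 2)) * g (u - t))) ≤ δ * (Real.exp (-(t / 2)) * g (u - t))
    have hk0 : 0 ≤ Real.exp (-(t / 2)) * g (u - t) := mul_nonneg (Real.exp_pos _).le (hg0 _)
    rcases eq_or_ne (Real.exp (-(t / 2)) * g (u - t)) 0 with h0 | h0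
    · rw [h0, mul_zero, mul_zero, mul_zero]
    · obtain ⟨h2, h3⟩ := hks u h0
      rw [← mul_assoc]
      refine mul_le_mul_of_nonneg_right ?_ hk0
      have h4 := hcon u h2 h3
      have h5 : σ * (D.e η u - (D.f u - D.f (u - η))) ≤ δ := by
        refine (le_abs_self _).trans ?_
        rw [abs_mul, hσ, one_mul]
        exact hδ u h2 h3
      linarith
  rw [integral_const_mul, integral_const_mul, integral_const_mul,
    integral_sub_right_eq_self (μ := volume) g t] at h1
  linarith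

private theorem log_gap {p : ℝ} (hp : 2 ≤ p) : 1 / (p + 1) ≤ Real.log (p + 1) - Real.log p ∧
    Real.log (p + 1) - Real.log p ≤ 1 / p := by
  have h0 : 0 < p := by linarith
  rw [← Real.log_div (by linarith) (by linarith)]
  have hx : 0 < (p + 1) / p := by positivity
  constructor
  · have h1 := Real.one_sub_inv_le_log_of_pos hx
    have h2 : 1 - ((p + 1) / p)⁻¹ = 1 / (p + 1) := by
      have : p + 1 ≠ 0 := by linarith
      field_simp
      ring
    rwa [h2] at h1
  · have h1 := Real.log_le_sub_one_of_pos hx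
    have h2 : (p + 1) / p - 1 = 1 / p := by
      field_simp
      ring
    rwa [h2] at h1

/-- the intervals -/
private theorem ivs (D : ZD) (M : ℕ) : ∃ η0 U : ℝ, 0 < η0 ∧ η0 < 1 ∧ 1 ≤ U ∧ ∀ η : ℝ, 0 < η → η < η0 →
    ∃ α β : Fin (M + 1) → ℝ, (∀ i, α i < β i) ∧ (∀ i j, i < j → β i ≤ α j) ∧ (∀ i, U ≤ α i) ∧
      (∀ i, β i ≤ U + 1) ∧ ∀ i u, α i ≤ u → u < β i → 0 < (-1 : ℝ) ^ (i : ℕ) * D.e η u := by
  obtain ⟨V0, hV1, hV⟩ := D.signs
  obtain ⟨U, hU, p, hp, hpp⟩ := D.window M (V0 + 1)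
  have hp2 : ∀ i, (2 : ℝ) ≤ p i := fun i => by exact_mod_cast (D.P1 _ (hpp i).1).1.two_le
  have hlast : ∀ i, (p i : ℝ) ≤ p (Fin.last M) := fun i => by exact_mod_cast hp.monotone (Fin.le_last i)
  have hl2 := hp2 (Fin.last M)
  refine ⟨1 / (8 * ((p (Fin.last M) : ℝ) + 1)), U, by positivity, ?_, by linarith, fun η hη hη1 => ?_⟩
  · rw [div_lt_one (by positivity)]
    linarith
  have hgap : ∀ i, η < 1 / ((p i : ℝ) + 1) ∧ η ≤ 1 / (8 * (p i : ℝ)) := by
    intro i
    have h1 := hp2 i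
    have h2 := hlast i
    constructor
    · refine hη1.trans_le ?_
      exact one_div_le_one_div_of_le (by linarith) (by linarith)
    · refine hη1.le.trans ?_
      exact one_div_le_one_div_of_le (by linarith) (by linarith)
  have hg : ∀ i, Real.log (p i) + η < Real.log ((p i : ℝ) + 1) := fun i => by
    have h1 := (log_gap (hp2 i)).1
    have h2 := (hgap i).1
    linarith
  have hstep : ∀ i j, i < j → Real.log ((p i : ℝ) + 1) ≤ Real.log (p j) := by
    intro i j hij
    have h1 : p i + 1 ≤ p j := hp hij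
    have h2 : (p i : ℝ) + 1 ≤ p j := by exact_mod_cast h1
    exact Real.log_le_log (by linarith [hp2 i]) h2
  have htop : ∀ i, Real.log ((p i : ℝ) + 1) ≤ U + 1 := by
    intro i
    have h1 := (log_gap (hp2 i)).2
    have h2 := (hpp i).2.2
    have h3 : 1 / (p i : ℝ) ≤ 1 / 2 := one_div_le_one_div_of_le (by norm_num) (hp2 i)
    linarith
  have hs : ∀ i, (∀ u, Real.log (p i) ≤ u → u < Real.log (p i) + η → 0 < D.e η u) ∧
      (∀ u, Real.log (p i) + η ≤ u → u < Real.log ((p i : ℝ) + 1) → D.e η u < 0) := fun i =>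
    hV (p i) (hpp i).1 (by linarith [(hpp i).2.1]) η hη (hgap i).2
  classical
  refine ⟨fun i => if Even (i : ℕ) then Real.log (p i) else Real.log (p i) + η,
    fun i => if Even (i : ℕ) then Real.log (p i) + η else Real.log ((p i : ℝ) + 1), ?_, ?_, ?_, ?_, ?_⟩
  · intro i
    show (if Even (i : ℕ) then Real.log (p i) else Real.log (p i) + η) <
      if Even (i : ℕ) then Real.log (p i) + η else Real.log ((p i : ℝ) + 1)
    by_cases he : Even (i : ℕ)
    · rw [if_pos he, if_pos he]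
      linarith
    · rw [if_neg he, if_neg he]
      exact hg i
  · intro i j hij
    show (if Even (i : ℕ) then Real.log (p i) + η else Real.log ((p i : ℝ) + 1)) ≤
      if Even (j : ℕ) then Real.log (p j) else Real.log (p j) + η
    have h1 : (if Even (i : ℕ) then Real.log (p i) + η else Real.log ((p i : ℝ) + 1)) ≤
        Real.log ((p i : ℝ) + 1) := by
      split_ifs
      · exact (hg i).le
      · exact le_rfl
    have h2 : Real.log (p j) ≤ if Even (j : ℕ) then Real.log (p j) else Real.log (p j) + η := by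
      split_ifs
      · exact le_rfl
      · linarith
    exact h1.trans ((hstep i j hij).trans h2)
  · intro i
    show U ≤ if Even (i : ℕ) then Real.log (p i) else Real.log (p i) + η
    have h1 := (hpp i).2.1
    split_ifs
    · exact h1
    · linarith
  · intro i
    show (if Even (i : ℕ) then Real.log (p i) + η else Real.log ((p i : ℝ) + 1)) ≤ U + 1
    split_ifs
    · exact (hg i).le.trans (htop i)
    · exact htop i
  · intro i u h1 h2
    change (if Even (i : ℕ) then Real.log (p i) else Real.log (p i) + η) ≤ u at h1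
    change u < (if Even (i : ℕ) then Real.log (p i) + η else Real.log ((p i : ℝ) + 1)) at h2
    by_cases he : Even (i : ℕ)
    · rw [if_pos he] at h1 h2
      rw [he.neg_one_pow, one_mul]
      exact (hs i).1 u h1 h2
    · rw [if_neg he] at h1 h2
      rw [(Nat.not_even_iff_odd.1 he).neg_one_pow]
      have := (hs i).2 u h1 h2
      linarith

/-- `(1 + t) exp (-t/2) ≤ 16/t` -/
private theorem expo {t : ℝ} (ht : 0 < t) : (1 + t) * Real.exp (-(t / 2)) ≤ 16 / t := by
  have h1 : t / 4 + 1 ≤ Real.exp (t / 4) := Real.add_one_le_exp _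
  have h2 : Real.exp (t / 4) * Real.exp (t / 4) * Real.exp (-(t / 2)) = 1 := by
    rw [← Real.exp_add, ← Real.exp_add]
    ring_nf
    exact Real.exp_zero
  have h3 : (1 + t) * t / 16 ≤ Real.exp (t / 4) * Real.exp (t / 4) := by
    have h4 : (t / 4 + 1) * (t / 4 + 1) ≤ Real.exp (t / 4) * Real.exp (t / 4) :=
      mul_le_mul h1 h1 (by positivity) (Real.exp_pos _).le
    nlinarith
  have h5 := mul_le_mul_of_nonneg_right h3 (Real.exp_pos (-(t / 2))).le
  rw [h2] at h5
  rw [le_div_iff₀ ht]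
  nlinarith

/-- the difference between `e` and the difference of `f` -/
private theorem e_sub (D : ZD) : ∃ C : ℝ, 0 ≤ C ∧ ∀ η u : ℝ, 0 < η → η ≤ 1 → 2 ≤ u →
    |D.e η u - (D.f u - D.f (u - η))| ≤ C * (1 + u) := by
  obtain ⟨C, hC, hCT⟩ := D.T_lip
  obtain ⟨C', hC', hCs⟩ := D.sw
  refine ⟨C + 2 * C', by positivity, fun η u h0 h1 hu => ?_⟩
  have h2 := hCT (u - η) u (by linarith) (by linarith)
  have h3 := hCs u
  have h4 := hCs (u - η)
  have h3' : |u| = u := abs_of_nonneg (by linarith)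
  rw [h3'] at h3
  have h5 : |u - η| = u - η := abs_of_nonneg (by linarith)
  rw [h5] at h4
  have h6 : D.e η u - (D.f u - D.f (u - η)) =
      (D.T u - D.T (u - η)) + (D.fw u - D.f u) - (D.fw (u - η) - D.f (u - η)) := by
    unfold ZD.e
    ring
  rw [h6]
  have h7 : |(D.T u - D.T (u - η)) + (D.fw u - D.f u) - (D.fw (u - η) - D.f (u - η))| ≤
      |D.T u - D.T (u - η)| + |D.fw u - D.f u| + |D.fw (u - η) - D.f (u - η)| :=
    (abs_sub _ _).trans (add_le_add (abs_add_le _ _) le_rfl)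
  refine h7.trans ?_
  have h8 : C * (u - (u - η)) ≤ C * (1 + u) := mul_le_mul_of_nonneg_left (by linarith) hC
  have h9 : C' * (1 + (u - η)) ≤ C' * (1 + u) := mul_le_mul_of_nonneg_left (by linarith) hC'
  linarith

theorem ZD.part_a (D : ZD) (hRH : ∀ i, (D.ρ i).re ≤ 1 / 2) (M : ℕ) :
    ∃ η0 : ℝ, 0 < η0 ∧ ∀ η : ℝ, 0 < η → η < η0 → ∀ Y0 : ℝ, ∃ y : ℝ, Y0 ≤ y ∧
      SC (fun v => D.f v - D.f (v - η)) y (y + 1) M := by
  obtain ⟨η0, U, h0, h01, hU1, hiv⟩ := ivs D M
  refine ⟨η0, h0, fun η hη hη1 Y0 => ?_⟩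
  obtain ⟨α, β, hαβ, hord, hUα, hβU, hsg⟩ := hiv η hη hη1
  choose g hgc hg0 a b haα hab hbβ hsupp using fun i => exb (α i) (β i) (hαβ i)
  have hηa : ∀ i, η < a i := fun i => by linarith [hUα i, haα i]
  have hs : ∀ i u, g i u ≠ 0 → a i ≤ u ∧ u ≤ b i := fun i u hu =>
    ⟨((hsupp i u).1 hu).1.le, ((hsupp i u).1 hu).2.le⟩
  have hσ : ∀ i : Fin (M + 1), |(-1 : ℝ) ^ (i : ℕ)| = 1 := fun i => by
    rw [abs_pow, abs_neg, abs_one, one_pow]
  -- positivity at `t = 0`
  have hpos : ∀ i : Fin (M + 1), 0 < (-1 : ℝ) ^ (i : ℕ) * ∫ u, D.e η u * g i u := by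
    intro i
    have hint := int_e D (hgc i).continuous hη (hηa i) (hs i)
    rw [← integral_const_mul]
    rw [integral_pos_iff_support_of_nonneg ?_ (hint.const_mul _)]
    · refine lt_of_lt_of_le ?_ (measure_mono (s := Set.Ioo (a i) (b i)) ?_)
      · rw [Real.volume_Ioo, ENNReal.ofReal_pos]
        linarith [hab i]
      · intro u hu
        have h1 : g i u ≠ 0 := (hsupp i u).2 hu
        have h2 := hsg i u (by linarith [haα i, hu.1]) (by linarith [hbβ i, hu.2])
        show (-1 : ℝ) ^ (i : ℕ) * (D.e η u * g i u) ≠ 0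
        rw [← mul_assoc]
        exact mul_ne_zero h2.ne' h1
    · intro u
      show 0 ≤ (-1 : ℝ) ^ (i : ℕ) * (D.e η u * g i u)
      rcases eq_or_ne (g i u) 0 with h1 | h1
      · rw [h1, mul_zero, mul_zero]
      · have h3 := (hsupp i u).1 h1
        have h2 := hsg i u (by linarith [haα i, h3.1]) (by linarith [hbβ i, h3.2])
        rw [← mul_assoc]
        exact mul_nonneg h2.le (hg0 i u)
  obtain ⟨ε, hε, hεle⟩ : ∃ ε : ℝ, 0 < ε ∧ ∀ i : Fin (M + 1), 3 * ε ≤ (-1 : ℝ) ^ (i : ℕ) * ∫ u, D.e η u * g i u := by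
    obtain ⟨i, -, hi⟩ := Finset.exists_min_image (Finset.univ : Finset (Fin (M + 1)))
      (fun i : Fin (M + 1) => (-1 : ℝ) ^ (i : ℕ) * ∫ u, D.e η u * g i u) ⟨0, Finset.mem_univ _⟩
    refine ⟨((-1 : ℝ) ^ (i : ℕ) * ∫ u, D.e η u * g i u) / 3, by
      have := hpos i
      linarith, fun j => ?_⟩
    have := hi j (Finset.mem_univ _)
    linarith
  obtain ⟨K, hK0, hK⟩ : ∃ K : ℝ, 0 ≤ K ∧ ∀ i, ∫ u, g i u ≤ K := by
    refine ⟨∑ i, ∫ u, g i u, Finset.sum_nonneg fun i _ => integral_nonneg (hg0 i), fun i => ?_⟩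
    exact Finset.single_le_sum (f := fun i => ∫ u, g i u) (fun i _ => integral_nonneg (hg0 i)) (Finset.mem_univ i)
  obtain ⟨C, hC0, hC⟩ := e_sub D
  obtain ⟨B, hB⟩ : ∃ B : ℝ, B = C * (U + 2) * K := ⟨_, rfl⟩
  have hB0 : 0 ≤ B := by
    rw [hB]
    exact mul_nonneg (mul_nonneg hC0 (by linarith)) hK0
  obtain ⟨t, ht, hrec⟩ := Pool.Agent.H50.RL.recur_multi (M + 1) (fun i => cc D (g i) η)
    (fun i => (D.ρ i).im)
    (fun i => cc_summ D (hgc i) hη (hηa i) (hs i)) ε hε (max 1 (max (Y0 - U) (16 * B / ε)))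
  have ht1 : 1 ≤ t := (le_max_left _ _).trans ht
  have ht0 : 0 ≤ t := zero_le_one.trans ht1
  have ht2 : Y0 - U ≤ t := (le_max_left _ _).trans ((le_max_right _ _).trans ht)
  have ht3 : 16 * B / ε ≤ t := (le_max_right _ _).trans ((le_max_right _ _).trans ht)
  have hsm : C * (1 + (U + 1 + t)) * (Real.exp (-(t / 2)) * K) ≤ ε := by
    have h1 := expo (by linarith : 0 < t)
    have h2 : B * ((1 + t) * Real.exp (-(t / 2))) ≤ B * (16 / t) := mul_le_mul_of_nonneg_left h1 hB0
    have h3 : B * (16 / t) ≤ ε := by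
      rw [div_le_iff₀ hε] at ht3
      rw [← mul_div_assoc, div_le_iff₀ (by linarith)]
      linarith
    have h4 : C * (1 + (U + 1 + t)) ≤ C * (U + 2) * (1 + t) := by
      rw [mul_assoc]
      refine mul_le_mul_of_nonneg_left ?_ hC0
      nlinarith
    have h5 : 0 ≤ Real.exp (-(t / 2)) * K := mul_nonneg (Real.exp_pos _).le hK0
    have h6 := mul_le_mul_of_nonneg_right h4 h5
    refine h6.trans (le_trans (le_of_eq ?_) (h2.trans h3))
    rw [hB]
    ring
  have hpts : ∀ i : Fin (M + 1), ∃ u, a i + t ≤ u ∧ u ≤ b i + t ∧ 0 < (-1 : ℝ) ^ (i : ℕ) * (D.f u - D.f (u - η)) := by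
    intro i
    refine pt D (hgc i).continuous (hg0 i) (δ := C * (1 + (U + 1 + t))) hη (hηa i) ht0 (hs i) (hσ i) ?_ ?_
    · intro u hu hu'
      have h1 := hUα i
      have h2 := haα i
      have h3 := hβU i
      have h4 := hbβ i
      refine (hC η u hη (by linarith) (by linarith)).trans ?_
      exact mul_le_mul_of_nonneg_left (by linarith) hC0
    · have h1 := D_t D hRH (hgc i) hη (hηa i) ht0 (hs i)
      have h2 := D_t D hRH (hgc i) hη (hηa i) (le_refl 0) (hs i)
      have h3 : ∀ j, cc D (g i) η j * Complex.exp ((((D.ρ j).im * 0 : ℝ) : ℂ) * Complex.I) = cc D (g i) η j := by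
        intro j
        rw [mul_zero, Complex.ofReal_zero, zero_mul, Complex.exp_zero, mul_one]
      simp_rw [h3] at h2
      have h4 : ∀ u : ℝ, D.e η u * (Real.exp (-(0 / 2)) * g i (u - 0)) = D.e η u * g i u := by
        intro u
        rw [zero_div, neg_zero, Real.exp_zero, one_mul, sub_zero]
      simp_rw [h4] at h2
      have h5 := hrec i
      have h6 : (((∫ u, D.e η u * (Real.exp (-(t / 2)) * g i (u - t))) - ∫ u, D.e η u * g i u : ℝ) : ℂ) =
          -((∑' j, cc D (g i) η j * Complex.exp ((((D.ρ j).im * t : ℝ) : ℂ) * Complex.I)) -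
            ∑' j, cc D (g i) η j) := by
        rw [Complex.ofReal_sub, h1, h2]
        ring
      have h7 : |(∫ u, D.e η u * (Real.exp (-(t / 2)) * g i (u - t))) - ∫ u, D.e η u * g i u| ≤ ε := by
        rw [← Real.norm_eq_abs, ← Complex.norm_real, h6, norm_neg]
        exact h5
      have h8 : |(-1 : ℝ) ^ (i : ℕ) * ((∫ u, D.e η u * (Real.exp (-(t / 2)) * g i (u - t))) -
          ∫ u, D.e η u * g i u)| ≤ ε := by
        rw [abs_mul, hσ i, one_mul]
        exact h7
      have h9 := (abs_le.1 h8).1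
      have h10 := hεle i
      have h11 : C * (1 + (U + 1 + t)) * (Real.exp (-(t / 2)) * ∫ u, g i u) ≤
          C * (1 + (U + 1 + t)) * (Real.exp (-(t / 2)) * K) := by
        refine mul_le_mul_of_nonneg_left ?_ (mul_nonneg hC0 (by linarith))
        exact mul_le_mul_of_nonneg_left (hK i) (Real.exp_pos _).le
      rw [mul_sub] at h9
      linarith
  choose x hx1 hx2 hx3 using hpts
  refine ⟨U + t, by linarith, x, ?_, ?_, ?_⟩
  · intro i j hij
    have h1 := hord i j hij
    have h2 := hx2 i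
    have h3 := hx1 j
    have h4 := hbβ i
    have h5 := haα j
    linarith
  · intro i
    have h1 := hx1 i
    have h2 := hx2 i
    have h3 := hUα i
    have h4 := haα i
    have h5 := hbβ i
    have h6 := hβU i
    exact ⟨by linarith, by linarith⟩
  · intro i
    have h1 := hx3 i.castSucc
    have h2 := hx3 i.succ
    show (D.f (x i.castSucc) - D.f (x i.castSucc - η)) * (D.f (x i.succ) - D.f (x i.succ - η)) < 0
    have h3 := mul_pos h1 h2
    rw [Fin.val_castSucc, Fin.val_succ] at h3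
    have h4 : (-1 : ℝ) ^ (i : ℕ) * (D.f (x i.castSucc) - D.f (x i.castSucc - η)) *
        ((-1 : ℝ) ^ ((i : ℕ) + 1) * (D.f (x i.succ) - D.f (x i.succ - η))) =
        -((D.f (x i.castSucc) - D.f (x i.castSucc - η)) * (D.f (x i.succ) - D.f (x i.succ - η))) := by
      have h5 : ((-1 : ℝ) ^ (i : ℕ)) * ((-1 : ℝ) ^ (i : ℕ)) = 1 := by
        rw [← mul_pow]
        norm_num
      rw [pow_succ]
      linear_combination (-((D.f (x i.castSucc) - D.f (x i.castSucc - η)) * (D.f (x i.succ) - D.f (x i.succ - η)))) * h5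
    rw [h4] at h3
    linarith

end Pool.Agent.H50.RQ
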