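import Pool.Agent.H50.RQ.Zb

/-!
[H50 RQ BB] The `m`-fold integral from `0` of `f`: sum over the poles with positive real part, with a small error.

PROOF. Copy `Pool/Agent/H50/RL/Bb.lean` (`am_formula`). `χ` smooth, `χ = 1` on `v ≥ -1/2`, `χ = 0` on `v ≤ -1`. `Ψ v = χ v · (max (x - v) 0)^m/m!`, `Ψ 0 = x^m/m!`. `D.explicit Ψ` (`m ≥ 5`, `x ≥ m/2`), `W = V + w`:
(1) `Σ W(n) Ψ(log n) = Σ_{1 ≤ n ≤ e^x} W(n) (x - log n)^m/m! = ∫_0^x S(e^v) (x-v)^{m-1}/(m-1)! dv`, `S y = Σ_{n ≤ y} W n` (`n = 0`: `W 0 = 0`, `V_zero`). (2) `κ Lp Ψ 1 = -κ x^m/m! + κ ∫_0^x e^v (x-v)^{m-1}/(m-1)! dv`. So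
`∫_0^x fw(v) (x-v)^{m-1}/(m-1)! dv = (C0 - κ) x^m/m! - Σ_i c_i (Lp Ψ ρ - Ψ 0/(2-ρ))` (all `i`). (3) for `ρ ≠ 0`: `Lp Ψ ρ = e^{ρx}/ρ^{m+1} - Σ_{j=0}^m x^{m-j}/((m-j)! ρ^{j+1})`; the polynomial terms as there (`D.away`, `sumc 2`):
total `≤ C1 (4/c)^m x^m/m!`. (4) `Re ρ ≤ 0`, `ρ ≠ 0`: `‖e^{ρx}/ρ^{m+1}‖ ≤ ‖ρ‖^{-2} c^{-(m-1)}`, and `x^m/m! ≥ 2^{-m}`. NEW: (5) the term `ρ = 0` (at most one): `‖c (x^{m+1}/(m+1)! - x^m/(2 m!))‖ ≤ ‖c‖ (1 + x) x^m/m!`.
(6) `fw` versus `f`: `|∫_0^x (x-v)^{m-1}/(m-1)! (fw v - f v) dv| ≤ C (1 + x) x^m/m!` (`D.sw`). All errors are `≤ C^m (1+x) x^m/m!` with one `C ≥ 1` (`m ≥ 5`).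
-/

set_option autoImplicit false

namespace Pool.Agent.H50.RQ

open MeasureTheory Filter Topology
open Pool.Agent.H50.RL (SC Lp Lf Wk Ft)

/-- the main term of the `m`-fold integral of `f` -/
noncomputable def ZD.Am (D : ZD) (m : ℕ) (x : ℝ) : ℂ :=
  ∑' i, if 0 < (D.ρ i).re then D.c i * Complex.exp (D.ρ i * x) / D.ρ i ^ (m + 1) else 0

private theorem mp_hd (m : ℕ) (hm : 2 ≤ m) (w : ℝ) :
    HasDerivAt (fun w : ℝ => (max w 0) ^ m) (m * (max w 0) ^ (m - 1)) w := by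
  rcases lt_trichotomy w 0 with h | h | h
  · have h1 : max w 0 = 0 := max_eq_right h.le
    rw [h1, zero_pow (by omega), mul_zero]
    refine (hasDerivAt_const w (0 : ℝ)).congr_of_eventuallyEq ?_
    filter_upwards [Iio_mem_nhds h] with v hv
    rw [max_eq_right (le_of_lt hv), zero_pow (by omega)]
  · subst h
    rw [max_self, zero_pow (by omega), mul_zero, hasDerivAt_iff_isLittleO, Asymptotics.isLittleO_iff]
    intro c hc
    filter_upwards [Metric.ball_mem_nhds (0 : ℝ) (lt_min one_pos hc)] with v hv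
    rw [Metric.mem_ball, Real.dist_eq, sub_zero] at hv
    have h1 : |v| < 1 := hv.trans_le (min_le_left _ _)
    have h2 : |v| < c := hv.trans_le (min_le_right _ _)
    rw [max_self, zero_pow (by omega), sub_zero, sub_zero, smul_zero, sub_zero, Real.norm_eq_abs, Real.norm_eq_abs,
      abs_pow]
    have h3 : |max v 0| ≤ |v| := by
      rw [abs_of_nonneg (le_max_right v 0)]
      exact max_le (le_abs_self v) (abs_nonneg v)
    calc |max v 0| ^ m ≤ |v| ^ m := pow_le_pow_left₀ (abs_nonneg _) h3 m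
      _ ≤ |v| ^ 2 := pow_le_pow_of_le_one (abs_nonneg _) h1.le hm
      _ = |v| * |v| := sq _
      _ ≤ c * |v| := mul_le_mul_of_nonneg_right h2.le (abs_nonneg _)
  · have h1 : max w 0 = w := max_eq_left h.le
    rw [h1]
    refine (hasDerivAt_pow m w).congr_of_eventuallyEq ?_
    filter_upwards [Ioi_mem_nhds h] with v hv
    rw [max_eq_left (le_of_lt hv)]

private theorem mp_cd : ∀ (k m : ℕ), k + 1 ≤ m → ContDiff ℝ k (fun w : ℝ => (max w 0) ^ m) := by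
  intro k
  induction k with
  | zero =>
    intro m _
    rw [Nat.cast_zero, contDiff_zero]
    exact (continuous_id.max continuous_const).pow m
  | succ k ih =>
    intro m hm
    rw [Nat.cast_succ, contDiff_succ_iff_deriv]
    refine ⟨fun w => (mp_hd m (by omega) w).differentiableAt, fun h => ?_, ?_⟩
    · exact absurd h (by simp)
    · have h1 : deriv (fun w : ℝ => (max w 0) ^ m) = fun w => (m : ℝ) * (max w 0) ^ (m - 1) := by
        funext w
        exact (mp_hd m (by omega) w).deriv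
      rw [h1]
      exact contDiff_const.mul (ih (m - 1) (by omega))

/-- the test function -/
private noncomputable def Ps (m : ℕ) (x v : ℝ) : ℝ :=
  Real.smoothTransition (2 * v + 2) * ((max (x - v) 0) ^ m / (m.factorial : ℝ))

private theorem Ps_cd (m : ℕ) (hm : 5 ≤ m) (x : ℝ) : ContDiff ℝ 4 (Ps m x) := by
  have h1 : ContDiff ℝ 4 (fun v : ℝ => Real.smoothTransition (2 * v + 2)) :=
    Real.smoothTransition.contDiff.comp ((contDiff_const.mul contDiff_id).add contDiff_const)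
  have h2 : ContDiff ℝ 4 (fun v : ℝ => (max (x - v) 0) ^ m) :=
    (mp_cd 4 m hm).comp (contDiff_const.sub contDiff_id)
  exact h1.mul (h2.div_const _)

private theorem Ps_pos (m : ℕ) (x : ℝ) {v : ℝ} (hv : 0 ≤ v) : Ps m x v = (max (x - v) 0) ^ m / (m.factorial : ℝ) := by
  unfold Ps
  rw [Real.smoothTransition.one_of_one_le (by linarith), one_mul]

private theorem Ps_big (m : ℕ) (hm : 1 ≤ m) (x : ℝ) {v : ℝ} (hv : x ≤ v) : Ps m x v = 0 := by
  unfold Ps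
  rw [max_eq_right (by linarith), zero_pow (by omega), zero_div, mul_zero]

private theorem Ps_cs (m : ℕ) (hm : 1 ≤ m) (x : ℝ) : HasCompactSupport (Ps m x) := by
  refine HasCompactSupport.intro (isCompact_Icc (a := -1) (b := x)) fun v hv => ?_
  rw [Set.mem_Icc, not_and_or, not_le, not_le] at hv
  rcases hv with h | h
  · unfold Ps
    rw [Real.smoothTransition.zero_of_nonpos (by linarith), zero_mul]
  · exact Ps_big m hm x h.le

/-- the incomplete exponential integral -/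
private noncomputable def J (m : ℕ) (z : ℂ) (x : ℝ) : ℂ :=
  ∫ v in (0 : ℝ)..x, (((x - v) ^ m / (m.factorial : ℝ) : ℝ) : ℂ) * Complex.exp (z * v)

private theorem Lp_Ps (m : ℕ) (hm : 1 ≤ m) {x : ℝ} (hx : 0 ≤ x) (z : ℂ) : Lp (Ps m x) z = J m z x := by
  unfold Pool.Agent.H50.RL.Lp J
  rw [intervalIntegral.integral_of_le hx]
  rw [setIntegral_eq_of_subset_of_forall_diff_eq_zero measurableSet_Ioi
    (Set.Ioc_subset_Ioi_self : Set.Ioc 0 x ⊆ Set.Ioi 0)]
  · refine setIntegral_congr_fun measurableSet_Ioc fun v hv => ?_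
    show (Ps m x v : ℂ) * Complex.exp (z * v) = _
    rw [Ps_pos m x hv.1.le, max_eq_left (by linarith [hv.2])]
  · intro v hv
    have h1 : x < v := by
      by_contra h
      exact hv.2 ⟨hv.1, not_lt.1 h⟩
    rw [Ps_big m hm x h1.le, Complex.ofReal_zero, zero_mul]

private theorem J_zero {z : ℂ} (hz : z ≠ 0) (x : ℝ) : J 0 z x = (Complex.exp (z * x) - 1) / z := by
  unfold J
  have h1 : ∀ v : ℝ, (((x - v) ^ 0 / ((0 : ℕ).factorial : ℝ) : ℝ) : ℂ) * Complex.exp (z * v) =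
      Complex.exp (z * v) := by
    intro v
    simp
  simp_rw [h1]
  rw [integral_exp_mul_complex hz]
  simp

private theorem J_succ {z : ℂ} (hz : z ≠ 0) (m : ℕ) (x : ℝ) :
    J (m + 1) z x = J m z x / z - ((x ^ (m + 1) / ((m + 1).factorial : ℝ) : ℝ) : ℂ) / z := by
  -- derivative of (x-v)^(m+1)/(m+1)! exp(zv)/z
  have hd : ∀ v : ℝ, HasDerivAt (fun v : ℝ => (((x - v) ^ (m + 1) / ((m + 1).factorial : ℝ) : ℝ) : ℂ) *
      (Complex.exp (z * v) / z))
      ((((x - v) ^ (m + 1) / ((m + 1).factorial : ℝ) : ℝ) : ℂ) * Complex.exp (z * v) -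
        (((x - v) ^ m / (m.factorial : ℝ) : ℝ) : ℂ) * Complex.exp (z * v) / z) v := by
    intro v
    have h1 : HasDerivAt (fun v : ℝ => (x - v) ^ (m + 1) / ((m + 1).factorial : ℝ))
        (-((x - v) ^ m / (m.factorial : ℝ))) v := by
      have h2 := (((hasDerivAt_id v).const_sub x).pow (m + 1)).div_const ((m + 1).factorial : ℝ)
      refine h2.congr_deriv ?_
      rw [Nat.factorial_succ]
      push_cast
      have : (m.factorial : ℝ) ≠ 0 := by positivity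
      have : ((m : ℝ) + 1) ≠ 0 := by positivity
      simp only [id, Nat.add_sub_cancel]
      field_simp
    have h3 : HasDerivAt (fun v : ℝ => Complex.exp (z * v) / z) (Complex.exp (z * v)) v := by
      have h4 : HasDerivAt (fun v : ℝ => z * (v : ℂ)) z v := by
        have := (hasDerivAt_id (v : ℂ)).const_mul z
        rw [mul_one] at this
        exact this.comp_ofReal
      have h5 := (h4.cexp).div_const z
      refine h5.congr_deriv ?_
      field_simp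
    have h6 := h1.ofReal_comp.mul h3
    refine h6.congr_deriv ?_
    push_cast
    ring
  have hc : ∀ k : ℕ, Continuous fun v : ℝ => (((x - v) ^ k / (k.factorial : ℝ) : ℝ) : ℂ) * Complex.exp (z * v) := by
    intro k
    fun_prop
  have hFTC := intervalIntegral.integral_eq_sub_of_hasDerivAt (a := 0) (b := x) (fun v _ => hd v)
    (((hc (m + 1)).sub ((hc m).div_const z)).intervalIntegrable 0 x)
  rw [intervalIntegral.integral_sub ((hc (m + 1)).intervalIntegrable 0 x)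
    (((hc m).div_const z).intervalIntegrable 0 x), intervalIntegral.integral_div] at hFTC
  have e1 : J (m + 1) z x - J m z x / z = (((x - x) ^ (m + 1) / ((m + 1).factorial : ℝ) : ℝ) : ℂ) *
      (Complex.exp (z * x) / z) - (((x - 0) ^ (m + 1) / ((m + 1).factorial : ℝ) : ℝ) : ℂ) *
      (Complex.exp (z * ((0 : ℝ) : ℂ)) / z) := hFTC
  rw [sub_self, zero_pow (by omega), zero_div, Complex.ofReal_zero, zero_mul, zero_sub, sub_zero, mul_zero,
    Complex.exp_zero] at e1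
  linear_combination e1

private theorem J_formula {z : ℂ} (hz : z ≠ 0) (x : ℝ) : ∀ m : ℕ, J m z x = Complex.exp (z * x) / z ^ (m + 1) -
    ∑ j ∈ Finset.range (m + 1), ((x ^ (m - j) / ((m - j).factorial : ℝ) : ℝ) : ℂ) / z ^ (j + 1) := by
  intro m
  induction m with
  | zero =>
    rw [J_zero hz]
    simp
    ring
  | succ m ih =>
    rw [J_succ hz, ih, Finset.sum_range_succ' _ (m + 1)]
    have h1 : ∀ j ∈ Finset.range (m + 1),
        ((x ^ (m + 1 - (j + 1)) / ((m + 1 - (j + 1)).factorial : ℝ) : ℝ) : ℂ) / z ^ (j + 1 + 1) =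
        (((x ^ (m - j) / ((m - j).factorial : ℝ) : ℝ) : ℂ) / z ^ (j + 1)) / z := by
      intro j _
      rw [Nat.add_sub_add_right, pow_succ z (j + 1), div_div]
    rw [Finset.sum_congr rfl h1, ← Finset.sum_div, Nat.sub_zero, zero_add, pow_one, sub_div, pow_succ z (m + 1),
      ← div_div]
    ring

private theorem poly_int (k : ℕ) (a x : ℝ) :
    ∫ v in a..x, (x - v) ^ k / (k.factorial : ℝ) = (x - a) ^ (k + 1) / ((k + 1).factorial : ℝ) := by
  have hd : ∀ v : ℝ, HasDerivAt (fun v : ℝ => -((x - v) ^ (k + 1) / ((k + 1).factorial : ℝ)))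
      ((x - v) ^ k / (k.factorial : ℝ)) v := by
    intro v
    have h2 := ((((hasDerivAt_id v).const_sub x).pow (k + 1)).div_const ((k + 1).factorial : ℝ)).neg
    refine h2.congr_deriv ?_
    rw [Nat.factorial_succ]
    push_cast
    have : (k.factorial : ℝ) ≠ 0 := by positivity
    have : ((k : ℝ) + 1) ≠ 0 := by positivity
    simp only [id, Nat.add_sub_cancel]
    field_simp
  have hc : Continuous fun v : ℝ => (x - v) ^ k / (k.factorial : ℝ) := by fun_prop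
  rw [intervalIntegral.integral_eq_sub_of_hasDerivAt (fun v _ => hd v) (hc.intervalIntegrable a x)]
  simp

private theorem ite_int (k : ℕ) {a x : ℝ} (ha : 0 ≤ a) (hx : 0 ≤ x) (hax : a ≤ x) (L : ℝ) :
    IntervalIntegrable (fun v : ℝ => (x - v) ^ k / (k.factorial : ℝ) * (if a ≤ v then L else 0)) volume 0 x ∧
    ∫ v in (0 : ℝ)..x, (x - v) ^ k / (k.factorial : ℝ) * (if a ≤ v then L else 0) =
      L * ((x - a) ^ (k + 1) / ((k + 1).factorial : ℝ)) := by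
  have hc : Continuous fun v : ℝ => (x - v) ^ k / (k.factorial : ℝ) * L := by fun_prop
  have he : (fun v : ℝ => (x - v) ^ k / (k.factorial : ℝ) * (if a ≤ v then L else 0)) =
      (Set.Ici a).indicator (fun v : ℝ => (x - v) ^ k / (k.factorial : ℝ) * L) := by
    funext v
    by_cases h : a ≤ v
    · rw [if_pos h, Set.indicator_of_mem (show v ∈ Set.Ici a from h)]
    · rw [if_neg h, Set.indicator_of_notMem (show v ∉ Set.Ici a from h), mul_zero]
  rw [he]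
  constructor
  · rw [intervalIntegrable_iff_integrableOn_Ioc_of_le hx]
    exact ((intervalIntegrable_iff_integrableOn_Ioc_of_le hx).1 (hc.intervalIntegrable 0 x)).indicator
      measurableSet_Ici
  · rw [intervalIntegral.integral_of_le hx, setIntegral_indicator measurableSet_Ici,
      setIntegral_congr_set ((ae_eq_refl (Set.Ioc 0 x)).inter Ioi_ae_eq_Ici.symm), Set.Ioc_inter_Ioi,
      max_eq_right ha, ← intervalIntegral.integral_of_le hax, intervalIntegral.integral_mul_const, poly_int]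
    ring

private theorem psi_int (W : ℕ → ℝ) (hW : W 0 = 0) (k : ℕ) {x : ℝ} (hx : 0 ≤ x) :
    IntervalIntegrable (fun v : ℝ => (x - v) ^ k / (k.factorial : ℝ) * ∑ n ∈ Finset.Icc 1 ⌊Real.exp v⌋₊, W n) volume 0 x ∧
    ∫ v in (0 : ℝ)..x, (x - v) ^ k / (k.factorial : ℝ) * ∑ n ∈ Finset.Icc 1 ⌊Real.exp v⌋₊, W n =
      ∑' n : ℕ, W n * Ps (k + 1) x (Real.log n) := by
  have hlog : ∀ n ∈ Finset.Ioc 0 ⌊Real.exp x⌋₊, 0 ≤ Real.log n ∧ Real.log n ≤ x := by
    intro n hn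
    rw [Finset.mem_Ioc] at hn
    have h1 : (n : ℝ) ≤ Real.exp x := (Nat.le_floor_iff (Real.exp_pos x).le).1 hn.2
    have h2 : (1 : ℝ) ≤ n := by exact_mod_cast hn.1
    exact ⟨Real.log_nonneg h2, (Real.log_le_iff_le_exp (by linarith)).2 h1⟩
  have h1 : ∀ v ∈ Set.uIcc (0 : ℝ) x, ∑ n ∈ Finset.Ioc 0 ⌊Real.exp x⌋₊, (x - v) ^ k / (k.factorial : ℝ) *
        (if Real.log n ≤ v then W n else 0) =
      (x - v) ^ k / (k.factorial : ℝ) * ∑ n ∈ Finset.Icc 1 ⌊Real.exp v⌋₊, W n := by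
    intro v hv
    rw [Set.uIcc_of_le hx] at hv
    rw [← Finset.mul_sum]
    congr 1
    rw [← Finset.sum_filter]
    refine Finset.sum_congr ?_ fun n _ => rfl
    ext n
    rw [Finset.mem_filter, Finset.mem_Ioc, Finset.mem_Icc]
    have h3 : 0 < n → (n ≤ ⌊Real.exp v⌋₊ ↔ Real.log n ≤ v) := by
      intro hn
      have h4 : (0 : ℝ) < n := by exact_mod_cast hn
      rw [Nat.le_floor_iff (Real.exp_pos v).le, Real.log_le_iff_le_exp h4]
    constructor
    · intro h4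
      exact ⟨h4.1.1, (h3 h4.1.1).2 h4.2⟩
    · intro h4
      refine ⟨⟨h4.1, h4.2.trans (Nat.floor_mono (Real.exp_le_exp.2 hv.2))⟩, (h3 h4.1).1 h4.2⟩
  have hint : IntervalIntegrable (fun v : ℝ => ∑ n ∈ Finset.Ioc 0 ⌊Real.exp x⌋₊, (x - v) ^ k / (k.factorial : ℝ) *
        (if Real.log n ≤ v then W n else 0)) volume 0 x := by
    have h2 := IntervalIntegrable.sum (μ := volume) (a := 0) (b := x) (Finset.Ioc 0 ⌊Real.exp x⌋₊)
      (f := fun (n : ℕ) (v : ℝ) => (x - v) ^ k / (k.factorial : ℝ) * (if Real.log n ≤ v then W n else 0))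
      fun n hn => (ite_int k (hlog n hn).1 hx (hlog n hn).2 _).1
    refine h2.congr ?_
    intro v _
    exact Finset.sum_apply _ _ _
  refine ⟨hint.congr fun v hv => h1 v (Set.uIoc_subset_uIcc hv), ?_⟩
  rw [← intervalIntegral.integral_congr h1, intervalIntegral.integral_finset_sum, tsum_eq_sum
    (s := Finset.Ioc 0 ⌊Real.exp x⌋₊)]
  · refine Finset.sum_congr rfl fun n hn => ?_
    obtain ⟨h2, h3⟩ := hlog n hn
    rw [(ite_int k h2 hx h3 _).2, Ps_pos _ _ h2, max_eq_left (by linarith)]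
  · intro n hn
    rw [Finset.mem_Ioc, not_and_or, not_lt, not_le] at hn
    rcases hn with h2 | h2
    · have h3 : n = 0 := by omega
      subst h3
      rw [hW, zero_mul]
    · have h3 : Real.exp x < n := (Nat.floor_lt (Real.exp_pos x).le).1 h2
      have h4 : x ≤ Real.log n := by
        rw [Real.le_log_iff_exp_le ((Real.exp_pos x).trans h3)]
        exact h3.le
      rw [Ps_big _ (by omega) x h4, mul_zero]
  · intro n hn
    obtain ⟨h2, h3⟩ := hlog n hn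
    exact (ite_int k h2 hx h3 _).1

private theorem fac_cmp {m j : ℕ} (hj : j ≤ m) {x : ℝ} (hx : (m : ℝ) / 2 ≤ x) :
    x ^ (m - j) / ((m - j).factorial : ℝ) ≤ 2 ^ j * (x ^ m / (m.factorial : ℝ)) := by
  have hx0 : 0 ≤ x := le_trans (by positivity) hx
  have h1 : (m.factorial : ℝ) ≤ (2 * x) ^ j * ((m - j).factorial : ℝ) := by
    have h2 : m.factorial ≤ m ^ j * (m - j).factorial := by
      rw [← Nat.factorial_mul_descFactorial hj, mul_comm]
      exact Nat.mul_le_mul_right _ (Nat.descFactorial_le_pow m j)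
    have h3 : (m.factorial : ℝ) ≤ (m : ℝ) ^ j * ((m - j).factorial : ℝ) := by exact_mod_cast h2
    refine h3.trans (mul_le_mul_of_nonneg_right (pow_le_pow_left₀ (by positivity) (by linarith) j) (by positivity))
  have h4 : (0 : ℝ) < (m.factorial : ℝ) := by positivity
  have h5 : (0 : ℝ) < ((m - j).factorial : ℝ) := by positivity
  rw [← mul_div_assoc, div_le_div_iff₀ h5 h4]
  calc x ^ (m - j) * (m.factorial : ℝ) ≤ x ^ (m - j) * ((2 * x) ^ j * ((m - j).factorial : ℝ)) :=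
        mul_le_mul_of_nonneg_left h1 (pow_nonneg hx0 _)
    _ = 2 ^ j * x ^ m * ((m - j).factorial : ℝ) := by
        rw [mul_pow]
        have : x ^ m = x ^ (m - j) * x ^ j := by
          rw [← pow_add]
          congr 1
          omega
        rw [this]
        ring

/-- the part of the term of a zero which is small -/
private noncomputable def Et (m : ℕ) (x : ℝ) (z : ℂ) : ℂ :=
  ∑ j ∈ Finset.range (m + 1), ((x ^ (m - j) / ((m - j).factorial : ℝ) : ℝ) : ℂ) / z ^ (j + 1) +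
    ((x ^ m / (m.factorial : ℝ) : ℝ) : ℂ) / (2 - z)

private theorem Et_bd {m : ℕ} {x c : ℝ} (hc : 0 < c) (hc1 : c ≤ 1) (hx : (m : ℝ) / 2 ≤ x)
    {z : ℂ} (hz : c ≤ ‖z‖) (hre : z.re < 1) :
    ‖Et m x z‖ ≤ x ^ m / (m.factorial : ℝ) * (6 + (4 / c) ^ m) / ‖z‖ ^ 2 := by
  have hx0 : 0 ≤ x := le_trans (by positivity) hx
  have hz0 : 0 < ‖z‖ := lt_of_lt_of_le hc hz
  have hzne : z ≠ 0 := norm_pos_iff.1 hz0
  obtain ⟨a, ha⟩ : ∃ a : ℝ, a = x ^ m / (m.factorial : ℝ) := ⟨_, rfl⟩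
  have ha0 : 0 ≤ a := by rw [ha]; positivity
  have h2z : 1 ≤ ‖2 - z‖ := by
    have h2 := Complex.re_le_norm (2 - z)
    simp only [Complex.sub_re, Complex.re_ofNat] at h2
    linarith
  have h2ne : 2 - z ≠ 0 := norm_pos_iff.1 (by linarith)
  have h3 : ‖z‖ ≤ 3 * ‖2 - z‖ := by
    have h4 : ‖z‖ ≤ ‖(2 : ℂ)‖ + ‖2 - z‖ := by
      refine le_trans (le_of_eq ?_) (norm_sub_le _ _)
      congr 1
      ring
    have h5 : ‖(2 : ℂ)‖ = 2 := by simp
    rw [h5] at h4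
    linarith
  have hsplit : Et m x z = (∑ j ∈ Finset.range m,
      ((x ^ (m - (j + 1)) / ((m - (j + 1)).factorial : ℝ) : ℝ) : ℂ) / z ^ (j + 1 + 1)) +
      (a : ℂ) * (2 / (z * (2 - z))) := by
    unfold Et
    rw [Finset.sum_range_succ' _ m, Nat.sub_zero, zero_add, pow_one, ← ha, add_assoc]
    congr 1
    field_simp
    ring
  have hterm : ∀ j ∈ Finset.range m,
      ‖((x ^ (m - (j + 1)) / ((m - (j + 1)).factorial : ℝ) : ℝ) : ℂ) / z ^ (j + 1 + 1)‖ ≤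
        a * (2 / c) ^ m / ‖z‖ ^ 2 := by
    intro j hj
    rw [Finset.mem_range] at hj
    have h5 := fac_cmp (m := m) (j := j + 1) hj hx
    rw [← ha] at h5
    have h6 : 0 ≤ x ^ (m - (j + 1)) / ((m - (j + 1)).factorial : ℝ) := by positivity
    rw [norm_div, norm_pow, Complex.norm_real, Real.norm_of_nonneg h6]
    have h7 : c ^ m ≤ ‖z‖ ^ j := by
      calc c ^ m ≤ c ^ j := pow_le_pow_of_le_one hc.le hc1 hj.le
        _ ≤ ‖z‖ ^ j := pow_le_pow_left₀ hc.le hz j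
    have h8 : (2 : ℝ) ^ (j + 1) ≤ 2 ^ m := pow_le_pow_right₀ (by norm_num) hj
    calc x ^ (m - (j + 1)) / ((m - (j + 1)).factorial : ℝ) / ‖z‖ ^ (j + 1 + 1)
        ≤ (2 ^ (j + 1) * a) / ‖z‖ ^ (j + 1 + 1) := by gcongr
      _ = 2 ^ (j + 1) * a / ‖z‖ ^ j / ‖z‖ ^ 2 := by
          rw [div_div, ← pow_add]
      _ ≤ 2 ^ m * a / c ^ m / ‖z‖ ^ 2 := by
          gcongr
      _ = a * (2 / c) ^ m / ‖z‖ ^ 2 := by
          rw [div_pow]
          ring
  have hlast : ‖(a : ℂ) * (2 / (z * (2 - z)))‖ ≤ a * 6 / ‖z‖ ^ 2 := by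
    rw [norm_mul, norm_div, norm_mul, Complex.norm_real, Real.norm_of_nonneg ha0]
    have h5 : ‖(2 : ℂ)‖ = 2 := by simp
    rw [h5, mul_div_assoc]
    refine mul_le_mul_of_nonneg_left ?_ ha0
    rw [div_le_div_iff₀ (by positivity) (by positivity)]
    nlinarith
  have hm2 : (m : ℝ) ≤ 2 ^ m := by
    have : m < 2 ^ m := Nat.lt_two_pow_self
    exact_mod_cast this.le
  rw [hsplit]
  refine (norm_add_le _ _).trans ?_
  have hsum : ‖∑ j ∈ Finset.range m,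
      ((x ^ (m - (j + 1)) / ((m - (j + 1)).factorial : ℝ) : ℝ) : ℂ) / z ^ (j + 1 + 1)‖ ≤
      (m : ℝ) * (a * (2 / c) ^ m / ‖z‖ ^ 2) := by
    refine (norm_sum_le _ _).trans ((Finset.sum_le_sum hterm).trans ?_)
    rw [Finset.sum_const, Finset.card_range, nsmul_eq_mul]
  have h10 : (m : ℝ) * (a * (2 / c) ^ m / ‖z‖ ^ 2) ≤ a * (4 / c) ^ m / ‖z‖ ^ 2 := by
    have h11 : (4 / c) ^ m = 2 ^ m * (2 / c) ^ m := by
      rw [← mul_pow]
      congr 1
      ring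
    rw [h11]
    have h12 : 0 ≤ a * (2 / c) ^ m / ‖z‖ ^ 2 := by positivity
    calc (m : ℝ) * (a * (2 / c) ^ m / ‖z‖ ^ 2) ≤ 2 ^ m * (a * (2 / c) ^ m / ‖z‖ ^ 2) :=
          mul_le_mul_of_nonneg_right hm2 h12
      _ = _ := by ring
  rw [← ha]
  calc _ ≤ a * (4 / c) ^ m / ‖z‖ ^ 2 + a * 6 / ‖z‖ ^ 2 := add_le_add (hsum.trans h10) hlast
    _ = _ := by ring

private theorem triv_bd {m : ℕ} (hm : 1 ≤ m) {x c : ℝ} (hc : 0 < c) (hc1 : c ≤ 1) (hx : (m : ℝ) / 2 ≤ x)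
    {z : ℂ} (hz : c ≤ ‖z‖) (hre : z.re ≤ 0) :
    ‖Complex.exp (z * x) / z ^ (m + 1)‖ ≤ x ^ m / (m.factorial : ℝ) * (2 / c) ^ m / ‖z‖ ^ 2 := by
  have hx0 : 0 ≤ x := le_trans (by positivity) hx
  have hz0 : 0 < ‖z‖ := lt_of_lt_of_le hc hz
  obtain ⟨a, ha⟩ : ∃ a : ℝ, a = x ^ m / (m.factorial : ℝ) := ⟨_, rfl⟩
  have ha0 : 0 ≤ a := by rw [ha]; positivity
  have h1 : 1 ≤ 2 ^ m * a := by
    have h2 : (m.factorial : ℝ) ≤ (m : ℝ) ^ m := by exact_mod_cast Nat.factorial_le_pow m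
    have h3 : (m : ℝ) ^ m ≤ (2 * x) ^ m := pow_le_pow_left₀ (by positivity) (by linarith) m
    rw [ha, ← mul_div_assoc, ← mul_pow, le_div_iff₀ (by positivity), one_mul]
    exact h2.trans h3
  rw [norm_div, norm_pow, Complex.norm_exp, Complex.re_mul_ofReal, ← ha]
  have h4 : Real.exp (z.re * x) ≤ 1 := by
    rw [Real.exp_le_one_iff]
    exact mul_nonpos_of_nonpos_of_nonneg hre hx0
  obtain ⟨k, rfl⟩ : ∃ k, m = k + 1 := ⟨m - 1, by omega⟩
  have h7 : c ^ (k + 1) ≤ ‖z‖ ^ k := by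
    calc c ^ (k + 1) ≤ c ^ k := pow_le_pow_of_le_one hc.le hc1 (Nat.le_succ k)
      _ ≤ ‖z‖ ^ k := pow_le_pow_left₀ hc.le hz k
  calc Real.exp (z.re * x) / ‖z‖ ^ (k + 1 + 1) ≤ 1 / ‖z‖ ^ (k + 1 + 1) := by gcongr
    _ = 1 / ‖z‖ ^ k / ‖z‖ ^ 2 := by rw [div_div, ← pow_add]
    _ ≤ (2 ^ (k + 1) * a) / c ^ (k + 1) / ‖z‖ ^ 2 := by gcongr
    _ = a * (2 / c) ^ (k + 1) / ‖z‖ ^ 2 := by
        rw [div_pow]
        ring

/-- the left side in terms of the test function -/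
private theorem left_eq (D : ZD) (k : ℕ) {x : ℝ} (hx : 0 ≤ x) :
    (((∫ v in (0 : ℝ)..x, (x - v) ^ k / (k.factorial : ℝ) * D.fw v : ℝ)) : ℂ) =
      (((∑' n : ℕ, (D.V n + D.w n) * Ps (k + 1) x (Real.log n) : ℝ)) : ℂ) -
        D.κ * (Lp (Ps (k + 1) x) 1 + ((x ^ (k + 1) / ((k + 1).factorial : ℝ) : ℝ) : ℂ)) := by
  have hc : Continuous fun v : ℝ => (x - v) ^ k / (k.factorial : ℝ) := by fun_prop
  obtain ⟨hi1, hp⟩ := psi_int (fun n => D.V n + D.w n) (by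
    show D.V 0 + D.w 0 = 0
    rw [D.V_zero.1, D.V_zero.2, add_zero]) k hx
  have hi2 : IntervalIntegrable (fun v : ℝ => D.κ * ((x - v) ^ k / (k.factorial : ℝ) * Real.exp v)) volume 0 x :=
    ((hc.mul Real.continuous_exp).intervalIntegrable 0 x).const_mul _
  have h1 : ∫ v in (0 : ℝ)..x, (x - v) ^ k / (k.factorial : ℝ) * D.fw v =
      (∫ v in (0 : ℝ)..x, (x - v) ^ k / (k.factorial : ℝ) * ∑ n ∈ Finset.Icc 1 ⌊Real.exp v⌋₊, (D.V n + D.w n)) -
        D.κ * ∫ v in (0 : ℝ)..x, (x - v) ^ k / (k.factorial : ℝ) * Real.exp v := by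
    rw [← intervalIntegral.integral_const_mul, ← intervalIntegral.integral_sub hi1 hi2]
    refine intervalIntegral.integral_congr fun v _ => ?_
    show (x - v) ^ k / (k.factorial : ℝ) * ((∑ n ∈ Finset.Icc 1 ⌊Real.exp v⌋₊, (D.V n + D.w n)) - D.κ * Real.exp v) = _
    ring
  have h2 : ((∫ v in (0 : ℝ)..x, (x - v) ^ k / (k.factorial : ℝ) * Real.exp v : ℝ) : ℂ) = J k 1 x := by
    unfold J
    rw [← intervalIntegral.integral_ofReal]
    refine intervalIntegral.integral_congr fun v _ => ?_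
    show (((x - v) ^ k / (k.factorial : ℝ) * Real.exp v : ℝ) : ℂ) = _
    rw [Complex.ofReal_mul, Complex.ofReal_exp, one_mul]
  have h3 := J_succ (one_ne_zero : (1 : ℂ) ≠ 0) k x
  rw [div_one, div_one] at h3
  rw [h1, hp, Complex.ofReal_sub, Complex.ofReal_mul, h2, Lp_Ps (k + 1) (by omega) hx, h3]
  ring

private theorem J_at_zero (m : ℕ) (x : ℝ) : J m 0 x = ((x ^ (m + 1) / ((m + 1).factorial : ℝ) : ℝ) : ℂ) := by
  unfold J
  have h1 : ∀ v : ℝ, (((x - v) ^ m / (m.factorial : ℝ) : ℝ) : ℂ) * Complex.exp (0 * v) =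
      (((x - v) ^ m / (m.factorial : ℝ) : ℝ) : ℂ) := by
    intro v
    rw [zero_mul, Complex.exp_zero, mul_one]
  simp_rw [h1]
  rw [intervalIntegral.integral_ofReal, poly_int, sub_zero]

private theorem zero_bd (m : ℕ) {x : ℝ} (hx : 0 ≤ x) (c : ℂ) :
    ‖c * (J m 0 x - ((x ^ m / (m.factorial : ℝ) : ℝ) : ℂ) / (2 - 0))‖ ≤ ‖c‖ * (1 + x) * (x ^ m / (m.factorial : ℝ)) := by
  rw [J_at_zero, norm_mul, mul_assoc]
  refine mul_le_mul_of_nonneg_left ?_ (norm_nonneg _)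
  have e1 : ((x ^ (m + 1) / ((m + 1).factorial : ℝ) : ℝ) : ℂ) - ((x ^ m / (m.factorial : ℝ) : ℝ) : ℂ) / (2 - 0) =
      (((x ^ m / (m.factorial : ℝ)) * (x / (m + 1) - 1 / 2) : ℝ) : ℂ) := by
    rw [Nat.factorial_succ]
    push_cast
    have : (m.factorial : ℂ) ≠ 0 := by exact_mod_cast m.factorial_ne_zero
    have : ((m : ℂ) + 1) ≠ 0 := by exact_mod_cast Nat.succ_ne_zero m
    field_simp
    ring
  rw [e1, Complex.norm_real, Real.norm_eq_abs, abs_mul, abs_of_nonneg (by positivity : 0 ≤ x ^ m / (m.factorial : ℝ)),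
    mul_comm]
  refine mul_le_mul_of_nonneg_right ?_ (by positivity)
  have h1 : x / ((m : ℝ) + 1) ≤ x := div_le_self hx (by linarith [(Nat.cast_nonneg m : (0 : ℝ) ≤ m)])
  have h2 : 0 ≤ x / ((m : ℝ) + 1) := by positivity
  rw [abs_le]
  constructor <;> linarith

private theorem diff_bd (D : ZD) {Cs : ℝ} (hCs : 0 ≤ Cs) (hs : ∀ u : ℝ, |D.fw u - D.f u| ≤ Cs * (1 + |u|)) (k : ℕ) {x : ℝ}
    (hx : 0 ≤ x) : |(∫ v in (0 : ℝ)..x, (x - v) ^ k / (k.factorial : ℝ) * D.fw v) -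
      ∫ v in (0 : ℝ)..x, (x - v) ^ k / (k.factorial : ℝ) * D.f v| ≤
        Cs * (1 + x) * (x ^ (k + 1) / ((k + 1).factorial : ℝ)) := by
  have hc : Continuous fun v : ℝ => (x - v) ^ k / (k.factorial : ℝ) := by fun_prop
  rw [← intervalIntegral.integral_sub ((D.fw_int 0 x).continuousOn_mul hc.continuousOn)
    ((D.f_int 0 x).continuousOn_mul hc.continuousOn)]
  have hb : IntervalIntegrable (fun v : ℝ => Cs * (1 + x) * ((x - v) ^ k / (k.factorial : ℝ))) volume 0 x :=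
    (continuous_const.mul hc).intervalIntegrable 0 x
  have h1 := intervalIntegral.norm_integral_le_of_norm_le (μ := volume) (a := 0) (b := x)
    (f := fun v : ℝ => (x - v) ^ k / (k.factorial : ℝ) * D.fw v - (x - v) ^ k / (k.factorial : ℝ) * D.f v)
    (g := fun v : ℝ => Cs * (1 + x) * ((x - v) ^ k / (k.factorial : ℝ))) hx
    (Filter.Eventually.of_forall fun v hv => by
      have hv0 : 0 ≤ x - v := by linarith [hv.2]
      have h2 := hs v
      rw [abs_of_nonneg hv.1.le] at h2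
      rw [← mul_sub, Real.norm_eq_abs, abs_mul, abs_of_nonneg (by positivity : 0 ≤ (x - v) ^ k / (k.factorial : ℝ)), mul_comm]
      refine mul_le_mul_of_nonneg_right (h2.trans ?_) (by positivity)
      exact mul_le_mul_of_nonneg_left (by linarith [hv.2]) hCs) hb
  rw [intervalIntegral.integral_const_mul, poly_int, sub_zero] at h1
  exact h1

theorem ZD.am_formula (D : ZD) : ∃ C : ℝ, 1 ≤ C ∧ ∀ m : ℕ, 5 ≤ m → ∀ x : ℝ, (m : ℝ) / 2 ≤ x →
    ‖(((∫ v in (0 : ℝ)..x, (x - v) ^ (m - 1) / ((m - 1).factorial : ℝ) * D.f v : ℝ)) : ℂ) + D.Am m x‖ ≤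
      C ^ m * (1 + x) * x ^ m / (m.factorial : ℝ) := by
  classical
  obtain ⟨C0, hC0⟩ := D.explicit
  obtain ⟨c, hc, hc1, hcρ⟩ := D.away
  obtain ⟨Cs, hCs, hsw⟩ := D.sw
  have hs2 : Summable fun i => ‖D.c i‖ / ‖D.ρ i‖ ^ 2 := by
    refine (D.sumc 2 (by norm_num)).congr fun i => ?_
    rw [show ((2 : ℝ)) = ((2 : ℕ) : ℝ) by norm_num, Real.rpow_natCast]
  have hz2 : Summable fun i => if D.ρ i = 0 then ‖D.c i‖ else 0 := by
    refine summable_of_finite_support ((D.fin 0).subset fun i hi => ?_)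
    rw [Function.mem_support] at hi
    by_cases h : D.ρ i = 0
    · show ‖D.ρ i‖ ≤ 0
      rw [h, norm_zero]
    · exact absurd (if_neg h) hi
  obtain ⟨S, hS⟩ : ∃ S : ℝ, S = ∑' i, ‖D.c i‖ / ‖D.ρ i‖ ^ 2 := ⟨_, rfl⟩
  obtain ⟨Z, hZ⟩ : ∃ Z : ℝ, Z = ∑' i, if D.ρ i = 0 then ‖D.c i‖ else 0 := ⟨_, rfl⟩
  have hS0 : 0 ≤ S := by
    rw [hS]
    exact tsum_nonneg fun i => by positivity
  have hZ0 : 0 ≤ Z := by
    rw [hZ]
    refine tsum_nonneg fun i => ?_
    split_ifs <;> positivity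
  obtain ⟨B, hB⟩ : ∃ B : ℝ, B = ‖C0 - D.κ‖ + 8 * S + Z + Cs + 1 := ⟨_, rfl⟩
  have hB1 : 1 ≤ B := by
    rw [hB]
    have := norm_nonneg (C0 - D.κ)
    linarith
  have h4c : 1 ≤ 4 / c := by
    rw [le_div_iff₀ hc]
    linarith
  refine ⟨B * (4 / c), one_le_mul_of_one_le_of_one_le hB1 h4c, fun m hm x hx => ?_⟩
  have hx0 : 0 ≤ x := le_trans (by positivity) hx
  obtain ⟨a, ha⟩ : ∃ a : ℝ, a = x ^ m / (m.factorial : ℝ) := ⟨_, rfl⟩
  have ha0 : 0 ≤ a := by rw [ha]; positivity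
  obtain ⟨hsA, hexp⟩ := hC0 (Ps m x) (Ps_cd m hm x) (Ps_cs m (by omega) x)
  have hP0 : Ps m x 0 = a := by
    rw [Ps_pos m x le_rfl, sub_zero, max_eq_left hx0, ha]
  have h6 : 1 ≤ (4 / c) ^ m := one_le_pow₀ h4c
  -- the small terms
  obtain ⟨T, hT⟩ : ∃ T : D.ι → ℂ, T = fun i => if D.ρ i = 0 then -(D.c i * (J m 0 x - (a : ℂ) / (2 - 0))) else
      D.c i * (Et m x (D.ρ i) -
      if 0 < (D.ρ i).re then 0 else Complex.exp (D.ρ i * x) / D.ρ i ^ (m + 1)) := ⟨_, rfl⟩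
  have hTb : ∀ i, ‖T i‖ ≤ (8 * a * (4 / c) ^ m) * (‖D.c i‖ / ‖D.ρ i‖ ^ 2) +
      ((1 + x) * a) * (if D.ρ i = 0 then ‖D.c i‖ else 0) := by
    intro i
    rw [hT]
    by_cases h0 : D.ρ i = 0
    · simp only [if_pos h0]
      rw [norm_neg]
      have h1 := zero_bd m hx0 (D.c i)
      rw [← ha] at h1
      refine h1.trans ?_
      have h2 : 0 ≤ (8 * a * (4 / c) ^ m) * (‖D.c i‖ / ‖D.ρ i‖ ^ 2) := by positivity
      have h3 : ‖D.c i‖ * (1 + x) * a = (1 + x) * a * ‖D.c i‖ := by ring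
      linarith
    simp only [if_neg h0, mul_zero, add_zero]
    rw [norm_mul]
    have h1 := Et_bd (m := m) hc hc1 hx (hcρ i h0) (D.rlt i)
    rw [← ha] at h1
    have h2 : ‖(if 0 < (D.ρ i).re then (0 : ℂ) else Complex.exp (D.ρ i * x) / D.ρ i ^ (m + 1))‖ ≤
        a * (2 / c) ^ m / ‖D.ρ i‖ ^ 2 := by
      split_ifs with h3
      · rw [norm_zero]
        positivity
      · have h4 := triv_bd (m := m) (by omega) hc hc1 hx (hcρ i h0) (not_lt.1 h3)
        rw [← ha] at h4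
        exact h4
    have h5 : (2 / c) ^ m ≤ (4 / c) ^ m := by gcongr; norm_num
    have h7 : ‖Et m x (D.ρ i) - (if 0 < (D.ρ i).re then (0 : ℂ) else Complex.exp (D.ρ i * x) / D.ρ i ^ (m + 1))‖ ≤
        8 * a * (4 / c) ^ m / ‖D.ρ i‖ ^ 2 := by
      refine (norm_sub_le _ _).trans ((add_le_add h1 h2).trans ?_)
      rw [← add_div]
      have h8 : a * (6 + (4 / c) ^ m) + a * (2 / c) ^ m ≤ 8 * a * (4 / c) ^ m := by
        have h9 : (6 + (4 / c) ^ m) + (2 / c) ^ m ≤ 8 * (4 / c) ^ m := by linarith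
        calc a * (6 + (4 / c) ^ m) + a * (2 / c) ^ m = a * ((6 + (4 / c) ^ m) + (2 / c) ^ m) := by ring
          _ ≤ a * (8 * (4 / c) ^ m) := mul_le_mul_of_nonneg_left h9 ha0
          _ = _ := by ring
      gcongr
    calc ‖D.c i‖ * ‖Et m x (D.ρ i) - (if 0 < (D.ρ i).re then (0 : ℂ) else Complex.exp (D.ρ i * x) / D.ρ i ^ (m + 1))‖
        ≤ ‖D.c i‖ * (8 * a * (4 / c) ^ m / ‖D.ρ i‖ ^ 2) := mul_le_mul_of_nonneg_left h7 (norm_nonneg _)
      _ = _ := by ring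
  have hbs : Summable fun i => (8 * a * (4 / c) ^ m) * (‖D.c i‖ / ‖D.ρ i‖ ^ 2) +
      ((1 + x) * a) * (if D.ρ i = 0 then ‖D.c i‖ else 0) := (hs2.mul_left _).add (hz2.mul_left _)
  have hTs : Summable T := Summable.of_norm_bounded hbs hTb
  have hTn : ‖∑' i, T i‖ ≤ (8 * a * (4 / c) ^ m) * S + ((1 + x) * a) * Z := by
    rw [hS, hZ, ← tsum_mul_left, ← tsum_mul_left, ← (hs2.mul_left _).tsum_add (hz2.mul_left _)]
    exact tsum_of_norm_bounded hbs.hasSum hTb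
  -- the terms of the explicit formula
  obtain ⟨A, hA⟩ : ∃ A : D.ι → ℂ, A = fun i => D.c i * (Lp (Ps m x) (D.ρ i) - (Ps m x 0 : ℂ) / (2 - D.ρ i)) :=
    ⟨_, rfl⟩
  have hAs : Summable A := by
    refine Summable.of_norm ?_
    refine hsA.congr fun i => ?_
    rw [hA]
    show _ = ‖D.c i * (Lp (Ps m x) (D.ρ i) - (Ps m x 0 : ℂ) / (2 - D.ρ i))‖
    rw [norm_mul]
  have hAT : (fun i => A i + T i) = fun i =>
      if 0 < (D.ρ i).re then D.c i * Complex.exp (D.ρ i * x) / D.ρ i ^ (m + 1) else 0 := by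
    funext i
    rw [hA, hT]
    by_cases h0 : D.ρ i = 0
    · simp only [if_pos h0]
      rw [h0, Lp_Ps m (by omega) hx0, hP0, Complex.zero_re, if_neg (lt_irrefl _)]
      ring
    simp only [if_neg h0]
    rw [Lp_Ps m (by omega) hx0, J_formula h0 x m, hP0]
    unfold Et
    rw [← ha]
    split_ifs
    · ring
    · ring
  have hAm : D.Am m x = (∑' i, A i) + ∑' i, T i := by
    unfold ZD.Am
    rw [← hAs.tsum_add hTs, hAT]
  have hleft := left_eq D (m - 1) hx0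
  have hdiff := diff_bd D hCs hsw (m - 1) hx0
  have hm1 : m - 1 + 1 = m := by omega
  rw [hm1] at hleft hdiff
  rw [← ha] at hdiff
  have hexp' : (((∑' n : ℕ, (D.V n + D.w n) * Ps m x (Real.log n) : ℝ)) : ℂ) =
      C0 * a + D.κ * Lp (Ps m x) 1 - ∑' i, A i := by
    rw [hexp, hP0]
    rw [hA]
    simp only [hP0]
  obtain ⟨If, hIf⟩ : ∃ If : ℝ, If = ∫ v in (0 : ℝ)..x, (x - v) ^ (m - 1) / ((m - 1).factorial : ℝ) * D.f v := ⟨_, rfl⟩
  obtain ⟨Iw, hIw⟩ : ∃ Iw : ℝ, Iw = ∫ v in (0 : ℝ)..x, (x - v) ^ (m - 1) / ((m - 1).factorial : ℝ) * D.fw v := ⟨_, rfl⟩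
  rw [← hIw] at hleft
  rw [← hIw, ← hIf] at hdiff
  rw [← hIf]
  have h19 : (If : ℂ) + D.Am m x = ((Iw : ℂ) + D.Am m x) - ((Iw - If : ℝ) : ℂ) := by
    push_cast
    ring
  rw [h19, hleft, hexp', hAm, ← ha]
  have h20 : C0 * (a : ℂ) + D.κ * Lp (Ps m x) 1 - ∑' i, A i - D.κ * (Lp (Ps m x) 1 + (a : ℂ)) + (∑' i, A i + ∑' i, T i) =
      (C0 - D.κ) * a + ∑' i, T i := by ring
  rw [h20]
  have h20b : ‖((Iw - If : ℝ) : ℂ)‖ ≤ Cs * (1 + x) * a := by
    rw [Complex.norm_real]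
    exact hdiff
  have h20c : ‖(C0 - D.κ) * (a : ℂ) + ∑' i, T i‖ ≤ ‖C0 - D.κ‖ * a + ((8 * a * (4 / c) ^ m) * S + ((1 + x) * a) * Z) := by
    refine (norm_add_le _ _).trans ?_
    rw [norm_mul, Complex.norm_real, Real.norm_of_nonneg ha0]
    exact add_le_add le_rfl hTn
  refine ((norm_sub_le _ _).trans (add_le_add h20c h20b)).trans ?_
  obtain ⟨q, hq⟩ : ∃ q : ℝ, q = (4 / c) ^ m := ⟨_, rfl⟩
  rw [← hq] at h6 ⊢
  have h22 : B ≤ B ^ m := le_self_pow₀ hB1 (by omega)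
  have h23 : (B * (4 / c)) ^ m * (1 + x) * x ^ m / (m.factorial : ℝ) = B ^ m * (q * ((1 + x) * a)) := by
    rw [mul_pow, ha, hq]
    ring
  rw [h23]
  have hxa : 0 ≤ (1 + x) * a := by positivity
  have hxa2 : a ≤ (1 + x) * a := by nlinarith
  have hq0 : 0 ≤ q := by linarith
  have h24 : 0 ≤ q * ((1 + x) * a) := by positivity
  have hn0 := norm_nonneg (C0 - D.κ)
  have k1 : ‖C0 - D.κ‖ * a ≤ ‖C0 - D.κ‖ * (q * ((1 + x) * a)) :=
    mul_le_mul_of_nonneg_left (hxa2.trans (le_mul_of_one_le_left hxa h6)) hn0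
  have k2 : 8 * a * q * S ≤ 8 * S * (q * ((1 + x) * a)) := by
    have : q * a ≤ q * ((1 + x) * a) := mul_le_mul_of_nonneg_left hxa2 hq0
    have h8S : 0 ≤ 8 * S := by positivity
    calc 8 * a * q * S = 8 * S * (q * a) := by ring
      _ ≤ _ := mul_le_mul_of_nonneg_left this h8S
  have k3 : (1 + x) * a * Z ≤ Z * (q * ((1 + x) * a)) := by
    rw [mul_comm]
    exact mul_le_mul_of_nonneg_left (le_mul_of_one_le_left hxa h6) hZ0
  have k4 : Cs * (1 + x) * a ≤ Cs * (q * ((1 + x) * a)) := by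
    rw [mul_assoc]
    exact mul_le_mul_of_nonneg_left (le_mul_of_one_le_left hxa h6) hCs
  calc ‖C0 - D.κ‖ * a + (8 * a * q * S + (1 + x) * a * Z) + Cs * (1 + x) * a
      ≤ (‖C0 - D.κ‖ + 8 * S + Z + Cs) * (q * ((1 + x) * a)) := by linarith
    _ ≤ B * (q * ((1 + x) * a)) := mul_le_mul_of_nonneg_right (by rw [hB]; linarith) h24
    _ ≤ B ^ m * (q * ((1 + x) * a)) := mul_le_mul_of_nonneg_right h22 h24

end Pool.Agent.H50.RQ
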