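import Pool.Agent.H50.RQ.Bb
import Pool.Agent.H50.RL.Ba

/-!
[H50 RQ BC] The iterated integral of `f v - f (v - η)` from `Y`.

PROOF. Copy `Pool/Agent/H50/RL/Bc.lean` (`iter_formula`): `D v = f v - f (v - η)`; `RL.it_formula` with `m - 1`: `It D Y m x = ∫_Y^x (x-v)^{m-1}/(m-1)! D v dv`. Write `A x = ∫_0^x (x-v)^{m-1}/(m-1)! f v dv`. For `x ≥ Y ≥ η`:
`It D Y m x = A x - A (x-η) - ∫_0^Y (x-v)^{m-1}/(m-1)! f v dv + ∫_η^Y (x-v)^{m-1}/(m-1)! f(v-η) dv`; the last two integrals are at most `C_Y x^m/m!` (`x ≥ m`; `f` is interval integrable). `am_formula` at `x` and at `x - η`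
(`x - η ≥ m/2` if `m ≥ 2η`), `Am m x - Am m (x-η) = Bm η m x`; absolute convergence: `‖exp(ρx)/ρ^{m+1}‖ ≤ e^x c^{-(m-1)}/‖ρ‖^2`, `sumc 2`, `D.away`.
-/

set_option autoImplicit false

namespace Pool.Agent.H50.RQ

open MeasureTheory Filter Topology
open Pool.Agent.H50.RL (SC Lp Lf Wk Ft)

/-- the main term of the `m`-fold integral of `f v - f (v - η)` -/
noncomputable def ZD.Bm (D : ZD) (η : ℝ) (m : ℕ) (x : ℝ) : ℂ :=
  ∑' i, if 0 < (D.ρ i).re then
    D.c i * (1 - Complex.exp (-(D.ρ i * η))) * Complex.exp (D.ρ i * x) / D.ρ i ^ (m + 1) else 0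

private theorem f_sh (D : ZD) (η a b : ℝ) : IntervalIntegrable (fun v => D.f (v - η)) volume a b := by
  have h1 := (D.f_int (a - η) (b - η)).comp_sub_right η
  simpa using h1

theorem ZD.d_int (D : ZD) (η a b : ℝ) : IntervalIntegrable (fun v => D.f v - D.f (v - η)) volume a b :=
  (D.f_int a b).sub (f_sh D η a b)

/-- the integral with the kernel -/
private noncomputable def AA (D : ZD) (n : ℕ) (z b : ℝ) : ℝ :=
  ∫ v in (0 : ℝ)..b, (z - v) ^ n / (n.factorial : ℝ) * D.f v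

private theorem ker_cont (n : ℕ) (z : ℝ) : Continuous fun v : ℝ => (z - v) ^ n / (n.factorial : ℝ) := by
  fun_prop

private theorem ker_ii (D : ZD) (n : ℕ) (z a b : ℝ) :
    IntervalIntegrable (fun v => (z - v) ^ n / (n.factorial : ℝ) * D.f v) volume a b :=
  (D.f_int a b).continuousOn_mul (ker_cont n z).continuousOn

private theorem it_split (D : ZD) (η Y x : ℝ) (n : ℕ) :
    RL.It (fun v => D.f v - D.f (v - η)) Y (n + 1) x =
      AA D n x x - AA D n (x - η) (x - η) - AA D n x Y + AA D n (x - η) (Y - η) := by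
  rw [RL.it_formula _ (D.d_int η) Y x n]
  have h1 : (fun v => (x - v) ^ n / (n.factorial : ℝ) * (D.f v - D.f (v - η))) =
      fun v => (x - v) ^ n / (n.factorial : ℝ) * D.f v - (x - v) ^ n / (n.factorial : ℝ) * D.f (v - η) := by
    funext v
    ring
  have h2 : IntervalIntegrable (fun v => (x - v) ^ n / (n.factorial : ℝ) * D.f (v - η)) volume Y x :=
    (f_sh D η Y x).continuousOn_mul (ker_cont n x).continuousOn
  rw [h1, intervalIntegral.integral_sub (ker_ii D n x Y x) h2]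
  have h3 : ∫ v in Y..x, (x - v) ^ n / (n.factorial : ℝ) * D.f v = AA D n x x - AA D n x Y :=
    (intervalIntegral.integral_interval_sub_left (ker_ii D n x 0 x) (ker_ii D n x 0 Y)).symm
  have h4 : ∫ v in Y..x, (x - v) ^ n / (n.factorial : ℝ) * D.f (v - η) =
      AA D n (x - η) (x - η) - AA D n (x - η) (Y - η) := by
    have h5 := intervalIntegral.integral_comp_sub_right (a := Y) (b := x)
      (fun w => (x - η - w) ^ n / (n.factorial : ℝ) * D.f w) η
    have h6 : (fun v => (x - v) ^ n / (n.factorial : ℝ) * D.f (v - η)) =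
        fun v => (x - η - (v - η)) ^ n / (n.factorial : ℝ) * D.f (v - η) := by
      funext v
      congr 3
      ring
    rw [h6, h5]
    exact (intervalIntegral.integral_interval_sub_left (ker_ii D n (x - η) 0 (x - η))
      (ker_ii D n (x - η) 0 (Y - η))).symm
  rw [h3, h4]
  ring

private theorem AA_bd (D : ZD) (n : ℕ) {b z x : ℝ} (hb : 0 ≤ b) (hz : b ≤ z) (hx : z ≤ x) :
    |AA D n z b| ≤ x ^ n / (n.factorial : ℝ) * ∫ v in (0 : ℝ)..b, |D.f v| := by
  unfold AA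
  refine (intervalIntegral.abs_integral_le_integral_abs hb).trans ?_
  rw [← intervalIntegral.integral_const_mul]
  refine intervalIntegral.integral_mono_on hb (ker_ii D n z 0 b).abs ((D.f_int 0 b).abs.const_mul _) ?_
  intro v hv
  rw [abs_mul]
  refine mul_le_mul_of_nonneg_right ?_ (abs_nonneg _)
  have h1 : 0 ≤ z - v := by linarith [hv.2]
  rw [abs_of_nonneg (by positivity)]
  refine div_le_div_of_nonneg_right ?_ (by positivity)
  exact pow_le_pow_left₀ h1 (by linarith [hv.1]) n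

private theorem am_summ (D : ZD) (m : ℕ) (hm : 1 ≤ m) (x : ℝ) : Summable fun i =>
    if 0 < (D.ρ i).re then D.c i * Complex.exp (D.ρ i * x) / D.ρ i ^ (m + 1) else 0 := by
  obtain ⟨c, hc, hc1, hc'⟩ := D.away
  have h1 := (D.sumc 2 (by norm_num)).mul_left (Real.exp |x| * (c ^ (m - 1))⁻¹)
  refine Summable.of_norm_bounded h1 fun i => ?_
  rw [Real.rpow_ofNat]
  split_ifs with hre
  · have hne : D.ρ i ≠ 0 := by
      intro h
      rw [h] at hre
      simp at hre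
    have hρ : 0 < ‖D.ρ i‖ := lt_of_lt_of_le hc (hc' i hne)
    have hpos : 0 ≤ Real.exp |x| * (c ^ (m - 1))⁻¹ * (‖D.c i‖ / ‖D.ρ i‖ ^ 2) := by positivity
    rw [norm_div, norm_mul, norm_pow, Complex.norm_exp]
    have h2 : (D.ρ i * (x : ℂ)).re ≤ |x| := by
      rw [Complex.re_mul_ofReal]
      have h3 := D.rlt i
      calc (D.ρ i).re * x ≤ |(D.ρ i).re * x| := le_abs_self _
        _ = |(D.ρ i).re| * |x| := abs_mul _ _
        _ ≤ 1 * |x| := by
          refine mul_le_mul_of_nonneg_right ?_ (abs_nonneg _)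
          rw [abs_of_pos hre]
          exact h3.le
        _ = |x| := one_mul _
    have h4 : c ^ (m - 1) * ‖D.ρ i‖ ^ 2 ≤ ‖D.ρ i‖ ^ (m + 1) := by
      have h5 : ‖D.ρ i‖ ^ (m + 1) = ‖D.ρ i‖ ^ (m - 1) * ‖D.ρ i‖ ^ 2 := by
        rw [← pow_add]
        congr 1
        omega
      rw [h5]
      exact mul_le_mul_of_nonneg_right (pow_le_pow_left₀ hc.le (hc' i hne) _) (by positivity)
    rw [div_le_iff₀ (by positivity)]
    calc ‖D.c i‖ * Real.exp (D.ρ i * (x : ℂ)).re ≤ ‖D.c i‖ * Real.exp |x| :=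
          mul_le_mul_of_nonneg_left (Real.exp_le_exp.2 h2) (norm_nonneg _)
      _ = Real.exp |x| * (c ^ (m - 1))⁻¹ * (‖D.c i‖ / ‖D.ρ i‖ ^ 2) *
          (c ^ (m - 1) * ‖D.ρ i‖ ^ 2) := by
          field_simp
      _ ≤ Real.exp |x| * (c ^ (m - 1))⁻¹ * (‖D.c i‖ / ‖D.ρ i‖ ^ 2) * ‖D.ρ i‖ ^ (m + 1) :=
          mul_le_mul_of_nonneg_left h4 hpos
  · rw [norm_zero]
    positivity

private theorem bm_eq (D : ZD) (η : ℝ) (m : ℕ) (hm : 1 ≤ m) (x : ℝ) :
    D.Bm η m x = D.Am m x - D.Am m (x - η) := by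
  unfold ZD.Bm ZD.Am
  rw [← (am_summ D m hm x).tsum_sub (am_summ D m hm (x - η))]
  refine tsum_congr fun i => ?_
  split_ifs with hre
  · have h1 : Complex.exp (D.ρ i * ((x - η : ℝ) : ℂ)) =
        Complex.exp (D.ρ i * x) * Complex.exp (-(D.ρ i * η)) := by
      rw [← Complex.exp_add]
      congr 1
      push_cast
      ring
    rw [h1]
    ring
  · rw [sub_zero]

theorem ZD.iter_formula (D : ZD) (η : ℝ) (hη : 0 < η) (Y : ℝ) (hY : η ≤ Y) : ∃ C : ℝ, 1 ≤ C ∧ ∃ m0 : ℕ,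
    ∀ m : ℕ, m0 ≤ m → ∀ x : ℝ, (m : ℝ) ≤ x → Y ≤ x →
      ‖((RL.It (fun v => D.f v - D.f (v - η)) Y m x : ℝ) : ℂ) + D.Bm η m x‖ ≤
        C ^ m * (1 + x) * x ^ m / (m.factorial : ℝ) := by
  obtain ⟨C0, hC0, hA⟩ := D.am_formula
  obtain ⟨CY, hCY⟩ : ∃ CY : ℝ, CY = ∫ v in (0 : ℝ)..Y, |D.f v| := ⟨_, rfl⟩
  have hCY0 : 0 ≤ CY := by
    rw [hCY]
    exact intervalIntegral.integral_nonneg (by linarith) fun v _ => abs_nonneg _
  have hCY1 : ∫ v in (0 : ℝ)..(Y - η), |D.f v| ≤ CY := by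
    rw [hCY]
    exact intervalIntegral.integral_mono_interval le_rfl (by linarith) (by linarith)
      (Filter.Eventually.of_forall fun v => abs_nonneg _) (D.f_int 0 Y).abs
  refine ⟨2 * C0 + (2 * CY + 1), by linarith, 5 + ⌈2 * η⌉₊, fun m hm x hmx hYx => ?_⟩
  have hm5 : 5 ≤ m := by omega
  have hmη : 2 * η ≤ m := by
    have h1 : 2 * η ≤ (⌈2 * η⌉₊ : ℝ) := Nat.le_ceil _
    have h2 : ((⌈2 * η⌉₊ : ℕ) : ℝ) ≤ m := by exact_mod_cast (by omega : ⌈2 * η⌉₊ ≤ m)
    linarith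
  obtain ⟨n, rfl⟩ : ∃ n, m = n + 1 := ⟨m - 1, by omega⟩
  have hx0 : 0 < x := by
    have : (0 : ℝ) < ((n + 1 : ℕ) : ℝ) := by positivity
    linarith
  have h1 := hA (n + 1) hm5 x (by
    have : (0 : ℝ) ≤ ((n + 1 : ℕ) : ℝ) := by positivity
    linarith)
  have h2 := hA (n + 1) hm5 (x - η) (by linarith)
  rw [Nat.add_sub_cancel] at h1 h2
  have hfac : (0 : ℝ) < ((n + 1).factorial : ℝ) := by positivity
  -- the bound for the ends
  have hend : x ^ n / (n.factorial : ℝ) ≤ (1 + x) * x ^ (n + 1) / ((n + 1).factorial : ℝ) := by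
    have hend0 : x ^ n / (n.factorial : ℝ) ≤ x ^ (n + 1) / ((n + 1).factorial : ℝ) := by
      rw [div_le_div_iff₀ (by positivity) hfac, Nat.factorial_succ]
      push_cast
      have h3 : x ^ n * (((n : ℝ) + 1) * (n.factorial : ℝ)) ≤ x ^ n * (x * (n.factorial : ℝ)) := by
        refine mul_le_mul_of_nonneg_left ?_ (by positivity)
        refine mul_le_mul_of_nonneg_right ?_ (by positivity)
        push_cast at hmx
        exact hmx
      calc x ^ n * (((n : ℝ) + 1) * (n.factorial : ℝ)) ≤ x ^ n * (x * (n.factorial : ℝ)) := h3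
        _ = x ^ (n + 1) * (n.factorial : ℝ) := by ring
    refine hend0.trans (div_le_div_of_nonneg_right ?_ hfac.le)
    have h4 : 0 ≤ x ^ (n + 1) := by positivity
    nlinarith
  have e1 : |AA D n x Y| ≤ (1 + x) * x ^ (n + 1) / ((n + 1).factorial : ℝ) * CY := by
    refine (AA_bd D n (by linarith) hYx le_rfl).trans ?_
    rw [← hCY]
    exact mul_le_mul_of_nonneg_right hend hCY0
  have e2 : |AA D n (x - η) (Y - η)| ≤ (1 + x) * x ^ (n + 1) / ((n + 1).factorial : ℝ) * CY := by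
    refine (AA_bd D n (x := x) (by linarith) (by linarith) (by linarith)).trans ?_
    exact mul_le_mul hend hCY1
      (intervalIntegral.integral_nonneg (by linarith) fun v _ => abs_nonneg _) (by positivity)
  have e3 : (1 + (x - η)) * (x - η) ^ (n + 1) ≤ (1 + x) * x ^ (n + 1) :=
    mul_le_mul (by linarith) (pow_le_pow_left₀ (by linarith) (by linarith) _)
      (pow_nonneg (by linarith) _) (by linarith)
  have e4 : ‖((AA D n (x - η) (x - η) : ℝ) : ℂ) + D.Am (n + 1) (x - η)‖ ≤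
      C0 ^ (n + 1) * ((1 + x) * x ^ (n + 1) / ((n + 1).factorial : ℝ)) := by
    refine h2.trans ?_
    rw [mul_assoc, mul_div_assoc]
    refine mul_le_mul_of_nonneg_left ?_ (by positivity)
    exact div_le_div_of_nonneg_right e3 hfac.le
  have e5 : ‖((AA D n x x : ℝ) : ℂ) + D.Am (n + 1) x‖ ≤
      C0 ^ (n + 1) * ((1 + x) * x ^ (n + 1) / ((n + 1).factorial : ℝ)) := by
    refine h1.trans (le_of_eq ?_)
    ring
  rw [it_split, bm_eq D η (n + 1) (by omega) x]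
  have e6 : ((AA D n x x - AA D n (x - η) (x - η) - AA D n x Y + AA D n (x - η) (Y - η) : ℝ) : ℂ) +
      (D.Am (n + 1) x - D.Am (n + 1) (x - η)) =
      (((AA D n x x : ℝ) : ℂ) + D.Am (n + 1) x) -
        (((AA D n (x - η) (x - η) : ℝ) : ℂ) + D.Am (n + 1) (x - η)) -
        ((AA D n x Y : ℝ) : ℂ) + ((AA D n (x - η) (Y - η) : ℝ) : ℂ) := by
    push_cast
    ring
  rw [e6]
  have e7 : ‖((AA D n x Y : ℝ) : ℂ)‖ ≤ (1 + x) * x ^ (n + 1) / ((n + 1).factorial : ℝ) * CY := by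
    rw [Complex.norm_real, Real.norm_eq_abs]
    exact e1
  have e8 : ‖((AA D n (x - η) (Y - η) : ℝ) : ℂ)‖ ≤
      (1 + x) * x ^ (n + 1) / ((n + 1).factorial : ℝ) * CY := by
    rw [Complex.norm_real, Real.norm_eq_abs]
    exact e2
  refine (norm_add_le _ _).trans ?_
  have e9 := norm_sub_le ((((AA D n x x : ℝ) : ℂ) + D.Am (n + 1) x) -
    (((AA D n (x - η) (x - η) : ℝ) : ℂ) + D.Am (n + 1) (x - η))) ((AA D n x Y : ℝ) : ℂ)
  have e10 := norm_sub_le (((AA D n x x : ℝ) : ℂ) + D.Am (n + 1) x)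
    (((AA D n (x - η) (x - η) : ℝ) : ℂ) + D.Am (n + 1) (x - η))
  -- the constants
  have k1 : 2 * C0 ^ (n + 1) ≤ (2 * C0) ^ (n + 1) := by
    rw [mul_pow]
    refine mul_le_mul_of_nonneg_right ?_ (by positivity)
    calc (2 : ℝ) = 2 ^ 1 := (pow_one 2).symm
      _ ≤ 2 ^ (n + 1) := pow_le_pow_right₀ (by norm_num) (by omega)
  have k2 : 2 * CY ≤ (2 * CY + 1) ^ (n + 1) := by
    calc 2 * CY ≤ (2 * CY + 1) ^ 1 := by rw [pow_one]; linarith
      _ ≤ (2 * CY + 1) ^ (n + 1) := pow_le_pow_right₀ (by linarith) (by omega)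
  have k3 : (2 * C0) ^ (n + 1) + (2 * CY + 1) ^ (n + 1) ≤ (2 * C0 + (2 * CY + 1)) ^ (n + 1) :=
    pow_add_pow_le (by linarith) (by linarith) (by omega)
  obtain ⟨E, hE⟩ : ∃ E : ℝ, E = (1 + x) * x ^ (n + 1) / ((n + 1).factorial : ℝ) := ⟨_, rfl⟩
  have hE0 : 0 ≤ E := by rw [hE]; positivity
  rw [← hE] at e4 e5 e7 e8
  have k4 : (2 * C0 ^ (n + 1) + 2 * CY) * E ≤ (2 * C0 + (2 * CY + 1)) ^ (n + 1) * E :=
    mul_le_mul_of_nonneg_right (by linarith) hE0
  have k6 : (2 * C0 + (2 * CY + 1)) ^ (n + 1) * (1 + x) * x ^ (n + 1) / ((n + 1).factorial : ℝ) =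
      (2 * C0 + (2 * CY + 1)) ^ (n + 1) * E := by
    rw [hE]
    ring
  rw [k6]
  have k5 : (2 * C0 ^ (n + 1) + 2 * CY) * E = C0 ^ (n + 1) * E + C0 ^ (n + 1) * E + E * CY + E * CY := by
    ring
  linarith

end Pool.Agent.H50.RQ
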