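import Pool.Agent.H50.RQ.Bc

/-!
[H50 RQ BD] A pair of poles dominating for `m/x ∈ [κ1, κ2]`.

PROOF. Copy `Pool/Agent/H50/RL/Bd.lean` (`gap`, `dominance`), with `D.fin`, `sumc`, `D.away` in place of `zz_finite`, `s_one`, `zz_away` (all `i` here have `Re ρ > 0`, so `ρ ≠ 0`). The term of `Bm` for the index `j` with
`ρ j = conj (ρ i0)`, `c j = conj (c i0)` (`D.conj`) is the conjugate of the one for `i0`; `j ≠ i0` as `Im ρ0 > 0`.
-/

set_option autoImplicit false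

namespace Pool.Agent.H50.RQ

open MeasureTheory Filter Topology
open Pool.Agent.H50.RL (SC Lp Lf Wk Ft)

/-- `i0` and its conjugate dominate at `κ` -/
def ZD.Dom (D : ZD) (κ : ℝ) (i0 : D.ι) : Prop :=
  ∀ i, 0 < (D.ρ i).re → D.ρ i ≠ D.ρ i0 → D.ρ i ≠ (starRingEnd ℂ) (D.ρ i0) →
    (D.ρ i).re - κ * Real.log ‖D.ρ i‖ < (D.ρ i0).re - κ * Real.log ‖D.ρ i0‖

private theorem gap_one (D : ZD) (i0 : D.ι) (κ : ℝ) (h1 : 0 < κ) (hd : D.Dom κ i0) :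
    ∃ c0 : ℝ, 0 < c0 ∧ ∀ c : ℝ, c ≤ c0 → ∀ i : D.ι, 0 < (D.ρ i).re → (D.ρ i) ≠ (D.ρ i0) →
      (D.ρ i) ≠ (starRingEnd ℂ) (D.ρ i0) →
      (D.ρ i).re - κ * Real.log ‖(D.ρ i)‖ + c * (1 + max 0 (Real.log ‖(D.ρ i)‖)) ≤
        (D.ρ i0).re - κ * Real.log ‖(D.ρ i0)‖ := by
  obtain ⟨a, ha⟩ : ∃ a : ℝ, a = (D.ρ i0).re - κ * Real.log ‖(D.ρ i0)‖ := ⟨_, rfl⟩
  obtain ⟨L0, hL0⟩ : ∃ L0 : ℝ, L0 = 2 * (2 + |a|) / κ := ⟨_, rfl⟩
  have hL0p : 0 < L0 := by rw [hL0]; positivity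
  have hfin := D.fin (Real.exp L0)
  have hev : ∀ᶠ c in 𝓝[>] (0 : ℝ), ∀ i ∈ {i : D.ι | ‖(D.ρ i)‖ ≤ Real.exp L0},
      (0 < (D.ρ i).re → (D.ρ i) ≠ (D.ρ i0) → (D.ρ i) ≠ (starRingEnd ℂ) (D.ρ i0) →
      (D.ρ i).re - κ * Real.log ‖(D.ρ i)‖ + c * (1 + max 0 (Real.log ‖(D.ρ i)‖)) ≤ a) := by
    rw [eventually_all_finite hfin]
    intro i _
    by_cases hh : 0 < (D.ρ i).re ∧ (D.ρ i) ≠ (D.ρ i0) ∧ (D.ρ i) ≠ (starRingEnd ℂ) (D.ρ i0)
    · have h2 := hd i hh.1 hh.2.1 hh.2.2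
      rw [← ha] at h2
      have h3 : 0 < 1 + max 0 (Real.log ‖(D.ρ i)‖) := by
        have := le_max_left 0 (Real.log ‖(D.ρ i)‖)
        linarith
      obtain ⟨d, hd'⟩ : ∃ d : ℝ, d = (a - ((D.ρ i).re - κ * Real.log ‖(D.ρ i)‖)) /
          (1 + max 0 (Real.log ‖(D.ρ i)‖)) := ⟨_, rfl⟩
      have hdp : 0 < d := by
        rw [hd']
        exact div_pos (by linarith) h3
      filter_upwards [Ioo_mem_nhdsGT hdp] with c hc _ _ _
      have h4 : c * (1 + max 0 (Real.log ‖(D.ρ i)‖)) ≤ a - ((D.ρ i).re - κ * Real.log ‖(D.ρ i)‖) := by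
        rw [← le_div_iff₀ h3, ← hd']
        exact hc.2.le
      linarith
    · filter_upwards with c a1 a2 a3
      exact absurd ⟨a1, a2, a3⟩ hh
  have hmin : 0 < min 1 (κ / 2) := lt_min one_pos (by linarith)
  obtain ⟨c0, hc0, hc0'⟩ := (hev.and (Ioo_mem_nhdsGT hmin)).exists
  refine ⟨c0, hc0'.1, fun c hc i hr hn1 hn2 => ?_⟩
  have h3 : 0 < 1 + max 0 (Real.log ‖(D.ρ i)‖) := by
    have := le_max_left 0 (Real.log ‖(D.ρ i)‖)
    linarith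
  have h4 : c * (1 + max 0 (Real.log ‖(D.ρ i)‖)) ≤ c0 * (1 + max 0 (Real.log ‖(D.ρ i)‖)) :=
    mul_le_mul_of_nonneg_right hc h3.le
  rw [← ha]
  rcases le_or_gt ‖(D.ρ i)‖ (Real.exp L0) with h5 | h5
  · have h6 := hc0 i h5 hr hn1 hn2
    linarith
  · have h6 : L0 < Real.log ‖(D.ρ i)‖ := by
      rw [← Real.log_exp L0]
      exact Real.log_lt_log (Real.exp_pos _) h5
    have h7 : max 0 (Real.log ‖(D.ρ i)‖) = Real.log ‖(D.ρ i)‖ := max_eq_right (by linarith)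
    rw [h7] at h4 ⊢
    have h8 := D.rlt i
    have h9 : c0 ≤ 1 := hc0'.2.le.trans (min_le_left _ _)
    have h10 : c0 ≤ κ / 2 := hc0'.2.le.trans (min_le_right _ _)
    have h11 : c0 * Real.log ‖(D.ρ i)‖ ≤ κ / 2 * Real.log ‖(D.ρ i)‖ :=
      mul_le_mul_of_nonneg_right h10 (by linarith)
    have h12 : 2 * (2 + |a|) ≤ Real.log ‖(D.ρ i)‖ * κ := by
      rw [← div_le_iff₀ h1, ← hL0]
      exact h6.le
    have h13 := neg_abs_le a
    linarith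

theorem ZD.gap (D : ZD) (i0 : D.ι) (κ1 κ2 : ℝ) (h1 : 0 < κ1) (h12 : κ1 ≤ κ2) (hd1 : D.Dom κ1 i0)
    (hd2 : D.Dom κ2 i0) :
    ∃ c : ℝ, 0 < c ∧ ∀ κ : ℝ, κ1 ≤ κ → κ ≤ κ2 → ∀ i, 0 < (D.ρ i).re → D.ρ i ≠ D.ρ i0 →
      D.ρ i ≠ (starRingEnd ℂ) (D.ρ i0) →
      (D.ρ i).re - κ * Real.log ‖D.ρ i‖ + c * (1 + max 0 (Real.log ‖D.ρ i‖)) ≤
        (D.ρ i0).re - κ * Real.log ‖D.ρ i0‖ := by
  obtain ⟨c1, hc1, H1⟩ := gap_one D i0 κ1 h1 hd1
  obtain ⟨c2, hc2, H2⟩ := gap_one D i0 κ2 (by linarith) hd2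
  refine ⟨min c1 c2, lt_min hc1 hc2, fun κ hκ1 hκ2 i hr hn1 hn2 => ?_⟩
  have a1 := H1 (min c1 c2) (min_le_left _ _) i hr hn1 hn2
  have a2 := H2 (min c1 c2) (min_le_right _ _) i hr hn1 hn2
  rcases le_total (Real.log ‖(D.ρ i0)‖) (Real.log ‖(D.ρ i)‖) with h | h
  · have h3 : κ1 * (Real.log ‖(D.ρ i)‖ - Real.log ‖(D.ρ i0)‖) ≤ κ * (Real.log ‖(D.ρ i)‖ - Real.log ‖(D.ρ i0)‖) :=
      mul_le_mul_of_nonneg_right hκ1 (by linarith)
    linarith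
  · have h3 : κ * (Real.log ‖(D.ρ i0)‖ - Real.log ‖(D.ρ i)‖) ≤ κ2 * (Real.log ‖(D.ρ i0)‖ - Real.log ‖(D.ρ i)‖) :=
      mul_le_mul_of_nonneg_right hκ2 (by linarith)
    linarith

/-- a term of `Bm` -/
private noncomputable def tm (D : ZD) (η : ℝ) (m : ℕ) (x : ℝ) (i : D.ι) : ℂ :=
  D.c i * (1 - Complex.exp (-((D.ρ i) * η))) * Complex.exp ((D.ρ i) * x) / (D.ρ i) ^ (m + 1)

private theorem npos (D : ZD) (i : D.ι) (h : 0 < (D.ρ i).re) : 0 < ‖D.ρ i‖ := by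
  rw [norm_pos_iff]
  intro h0
  rw [h0, Complex.zero_re] at h
  exact lt_irrefl _ h

private theorem tm_norm (D : ZD) (η : ℝ) (hη : 0 < η) (m : ℕ) (x : ℝ) (i : D.ι) (hr : 0 < (D.ρ i).re) :
    ‖tm D η m x i‖ ≤ ‖D.c i‖ * 2 * (Real.exp ((D.ρ i).re * x) / ‖(D.ρ i)‖ ^ (m + 1)) := by
  unfold tm
  rw [norm_div, norm_mul, norm_mul, norm_pow, Complex.norm_exp,
    mul_div_assoc]
  have h1 : ((D.ρ i) * (x : ℂ)).re = (D.ρ i).re * x := by
    rw [Complex.re_mul_ofReal]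
  rw [h1]
  have h2 : ‖1 - Complex.exp (-((D.ρ i) * η))‖ ≤ 2 := by
    have h3 := norm_sub_le (1 : ℂ) (Complex.exp (-((D.ρ i) * η)))
    rw [norm_one, Complex.norm_exp, Complex.neg_re, Complex.re_mul_ofReal] at h3
    have h4 : Real.exp (-((D.ρ i).re * η)) ≤ 1 := by
      rw [Real.exp_le_one_iff]
      have : 0 < (D.ρ i).re * η := by positivity
      linarith
    linarith
  have h5 : 0 ≤ Real.exp ((D.ρ i).re * x) / ‖(D.ρ i)‖ ^ (m + 1) := by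
    have := npos D i hr
    positivity
  exact mul_le_mul_of_nonneg_right (mul_le_mul_of_nonneg_left h2 (norm_nonneg _)) h5

theorem ZD.dominance (D : ZD) (i0 : D.ι) (h0 : 0 < (D.ρ i0).re) (him : 0 < (D.ρ i0).im) (κ1 κ2 : ℝ) (h1 : 0 < κ1)
    (h12 : κ1 < κ2) (hd1 : D.Dom κ1 i0) (hd2 : D.Dom κ2 i0) (η : ℝ) (hη : 0 < η) (ε : ℝ) (hε : 0 < ε) :
    ∃ m1 : ℕ, ∀ m : ℕ, m1 ≤ m → ∀ x : ℝ, (m : ℝ) / κ2 ≤ x → x ≤ (m : ℝ) / κ1 →
      |(D.Bm η m x).re - 2 * (D.c i0 * (1 - Complex.exp (-(D.ρ i0 * η))) *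
        Complex.exp (D.ρ i0 * x) / D.ρ i0 ^ (m + 1)).re| ≤
        ε * Real.exp ((D.ρ i0).re * x) / ‖D.ρ i0‖ ^ (m + 1) := by
  classical
  obtain ⟨c, hc, hgap⟩ := D.gap i0 κ1 κ2 h1 h12.le hd1 hd2
  have hκ2 : 0 < κ2 := by linarith
  have hs3 : Summable fun i : D.ι => ‖D.c i‖ / ‖(D.ρ i)‖ ^ 3 := by
    refine (D.sumc 3 (by norm_num)).congr fun i => ?_
    rw [show ((3 : ℝ)) = ((3 : ℕ) : ℝ) by norm_num, Real.rpow_natCast]
  obtain ⟨S, hS⟩ : ∃ S : ℝ, S = ∑' i : D.ι, ‖D.c i‖ / ‖(D.ρ i)‖ ^ 3 := ⟨_, rfl⟩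
  have hS0 : 0 ≤ S := by
    rw [hS]
    exact tsum_nonneg fun i => by positivity
  obtain ⟨K, hK⟩ : ∃ K : ℝ, K = 2 * S * ‖(D.ρ i0)‖ / ε + 1 := ⟨_, rfl⟩
  have hn0 := npos D i0 h0
  have hKp : 0 < K := by rw [hK]; positivity
  -- the conjugate zero
  obtain ⟨jb, hbc, hcc⟩ := D.conj i0
  have hne : i0 ≠ jb := by
    intro h
    have h2 := congrArg (fun z : D.ι => (D.ρ z).im) h
    simp only [hbc, Complex.conj_im] at h2
    linarith
  have hbr : 0 < (D.ρ jb).re := by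
    rw [hbc, Complex.conj_re]
    exact h0
  obtain ⟨m1, hm1⟩ := exists_nat_ge (κ2 * max (2 / c) (Real.log K / c))
  refine ⟨m1 + 1, fun m hm x hx1 hx2 => ?_⟩
  have hmpos : (0 : ℝ) < m := by
    have : 0 < m := by omega
    exact_mod_cast this
  have hmm : (m1 : ℝ) ≤ m := by
    have : m1 ≤ m := by omega
    exact_mod_cast this
  have hx : 0 < x := lt_of_lt_of_le (by positivity) hx1
  obtain ⟨κ, hκ⟩ : ∃ κ, κ = m / x := ⟨_, rfl⟩
  have hκx : (m : ℝ) = κ * x := by rw [hκ]; field_simp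
  have hκ1' : κ1 ≤ κ := by
    rw [hκ, le_div_iff₀ hx]
    rw [le_div_iff₀ h1] at hx2
    linarith
  have hκ2' : κ ≤ κ2 := by
    rw [hκ, div_le_iff₀ hx]
    rw [div_le_iff₀ hκ2] at hx1
    linarith
  have hxM : max (2 / c) (Real.log K / c) ≤ x := by
    have h3 := hm1.trans hmm
    rw [div_le_iff₀ hκ2] at hx1
    have h4 : κ2 * max (2 / c) (Real.log K / c) ≤ κ2 * x := by linarith
    exact le_of_mul_le_mul_left h4 hκ2
  have hcx2 : 2 ≤ c * x := by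
    have h3 := (le_max_left _ _).trans hxM
    rw [div_le_iff₀ hc] at h3
    linarith
  have hcxK : K ≤ Real.exp (c * x) := by
    rw [← Real.log_le_iff_le_exp hKp]
    have h3 := (le_max_right _ _).trans hxM
    rw [div_le_iff₀ hc] at h3
    linarith
  -- the exponential form
  have hexp : ∀ i : D.ι, 0 < ‖D.ρ i‖ → Real.exp ((D.ρ i).re * x) / ‖(D.ρ i)‖ ^ (m + 1) =
      Real.exp (x * ((D.ρ i).re - κ * Real.log ‖(D.ρ i)‖)) / ‖(D.ρ i)‖ := by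
    intro i hni
    have h3 : Real.exp (x * ((D.ρ i).re - κ * Real.log ‖(D.ρ i)‖)) =
        Real.exp ((D.ρ i).re * x) / ‖(D.ρ i)‖ ^ m := by
      have h4 : x * ((D.ρ i).re - κ * Real.log ‖(D.ρ i)‖) = (D.ρ i).re * x - m * Real.log ‖(D.ρ i)‖ := by
        rw [hκx]
        ring
      rw [h4, Real.exp_sub, Real.exp_nat_mul, Real.exp_log hni]
    rw [h3, pow_succ, div_div]
  -- the rest
  obtain ⟨f, hf⟩ : ∃ f : D.ι → ℂ, f = fun i : D.ι => if 0 < (D.ρ i).re then tm D η m x i else 0 := ⟨_, rfl⟩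
  obtain ⟨g, hg⟩ : ∃ g : D.ι → ℂ, g = fun i => if i = i0 ∨ i = jb then 0 else f i := ⟨_, rfl⟩
  obtain ⟨h', hh'⟩ : ∃ h' : D.ι → ℂ, h' = fun i => if i = i0 ∨ i = jb then f i else 0 := ⟨_, rfl⟩
  obtain ⟨M, hM⟩ : ∃ M : ℝ, M = 2 * Real.exp (-(c * x)) *
      (Real.exp ((D.ρ i0).re * x) / ‖(D.ρ i0)‖ ^ (m + 1) * ‖(D.ρ i0)‖) := ⟨_, rfl⟩
  have hMe : M = 2 * Real.exp (-(c * x)) * Real.exp (x * ((D.ρ i0).re - κ * Real.log ‖(D.ρ i0)‖)) := by
    rw [hM, hexp i0 hn0, div_mul_cancel₀ _ hn0.ne']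
  have hM0 : 0 ≤ M := by rw [hMe]; positivity
  have hgb : ∀ i : D.ι, ‖g i‖ ≤ M * (‖D.c i‖ / ‖(D.ρ i)‖ ^ 3) := by
    intro i
    have hnn : 0 ≤ M * (‖D.c i‖ / ‖(D.ρ i)‖ ^ 3) := by positivity
    rw [hg]
    show ‖(if i = i0 ∨ i = jb then (0 : ℂ) else f i)‖ ≤ _
    split_ifs with hc1
    · rw [norm_zero]
      exact hnn
    · rw [hf]
      show ‖(if 0 < (D.ρ i).re then tm D η m x i else 0)‖ ≤ _
      split_ifs with hc2
      · rw [not_or] at hc1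
        have hn1 : (D.ρ i) ≠ (D.ρ i0) := fun h => hc1.1 (D.inj h)
        have hn2 : (D.ρ i) ≠ (starRingEnd ℂ) (D.ρ i0) := fun h => hc1.2 (D.inj (h.trans hbc.symm))
        have h3 := hgap κ hκ1' hκ2' i hc2 hn1 hn2
        have hnρ := npos D i hc2
        refine (tm_norm D η hη m x i hc2).trans ?_
        rw [hexp i hnρ, hMe]
        have h4 : Real.exp (x * ((D.ρ i).re - κ * Real.log ‖(D.ρ i)‖)) ≤
            Real.exp (x * ((D.ρ i0).re - κ * Real.log ‖(D.ρ i0)‖)) * Real.exp (-(c * x)) *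
              Real.exp (-(c * x * max 0 (Real.log ‖(D.ρ i)‖))) := by
          rw [← Real.exp_add, ← Real.exp_add, Real.exp_le_exp]
          have h5 := mul_le_mul_of_nonneg_left h3 hx.le
          linarith
        have h6 : Real.exp (-(c * x * max 0 (Real.log ‖(D.ρ i)‖))) ≤ 1 / ‖(D.ρ i)‖ ^ 2 := by
          have h7 : 1 / ‖(D.ρ i)‖ ^ 2 = Real.exp (-(2 * Real.log ‖(D.ρ i)‖)) := by
            rw [Real.exp_neg, two_mul, Real.exp_add, Real.exp_log hnρ, one_div, sq]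
          rw [h7, Real.exp_le_exp, neg_le_neg_iff]
          have h8 := le_max_right 0 (Real.log ‖(D.ρ i)‖)
          have h9 := le_max_left 0 (Real.log ‖(D.ρ i)‖)
          calc 2 * Real.log ‖(D.ρ i)‖ ≤ 2 * max 0 (Real.log ‖(D.ρ i)‖) := by linarith
            _ ≤ c * x * max 0 (Real.log ‖(D.ρ i)‖) := mul_le_mul_of_nonneg_right hcx2 h9
        have h10 : Real.exp (x * ((D.ρ i).re - κ * Real.log ‖(D.ρ i)‖)) ≤
            Real.exp (x * ((D.ρ i0).re - κ * Real.log ‖(D.ρ i0)‖)) * Real.exp (-(c * x)) *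
              (1 / ‖(D.ρ i)‖ ^ 2) :=
          h4.trans (mul_le_mul_of_nonneg_left h6 (by positivity))
        calc ‖D.c i‖ * 2 * (Real.exp (x * ((D.ρ i).re - κ * Real.log ‖(D.ρ i)‖)) / ‖(D.ρ i)‖)
            ≤ ‖D.c i‖ * 2 * ((Real.exp (x * ((D.ρ i0).re - κ * Real.log ‖(D.ρ i0)‖)) * Real.exp (-(c * x)) *
              (1 / ‖(D.ρ i)‖ ^ 2)) / ‖(D.ρ i)‖) := by
              gcongr
          _ = 2 * Real.exp (-(c * x)) * Real.exp (x * ((D.ρ i0).re - κ * Real.log ‖(D.ρ i0)‖)) *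
              (‖D.c i‖ / ‖(D.ρ i)‖ ^ 3) := by
              field_simp
      · rw [norm_zero]
        exact hnn
  have hgs : Summable g := Summable.of_norm_bounded (hs3.mul_left M) hgb
  have hgn : ‖∑' i, g i‖ ≤ M * S := by
    rw [hS, ← tsum_mul_left]
    exact tsum_of_norm_bounded (hs3.mul_left M).hasSum hgb
  -- the two terms
  have hh's : HasSum h' (f i0 + f jb) := by
    have h3 : HasSum h' (∑ i ∈ ({i0, jb} : Finset D.ι), h' i) := by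
      refine hasSum_sum_of_ne_finset_zero fun i hρ => ?_
      rw [hh']
      show (if i = i0 ∨ i = jb then f i else 0) = 0
      rw [if_neg]
      intro h4
      apply hρ
      rw [Finset.mem_insert, Finset.mem_singleton]
      exact h4
    rw [Finset.sum_pair hne] at h3
    have h4 : h' i0 = f i0 := by
      rw [hh']
      show (if i0 = i0 ∨ i0 = jb then f i0 else 0) = _
      rw [if_pos (Or.inl rfl)]
    have h5 : h' jb = f jb := by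
      rw [hh']
      show (if jb = i0 ∨ jb = jb then f jb else 0) = _
      rw [if_pos (Or.inr rfl)]
    rw [h4, h5] at h3
    exact h3
  have hfsum : D.Bm η m x = (∑' i, g i) + (f i0 + f jb) := by
    have h3 : D.Bm η m x = ∑' i, f i := by
      rw [hf]
      rfl
    have h4 : HasSum f ((∑' i, g i) + (f i0 + f jb)) := by
      have h5 := hgs.hasSum.add hh's
      have h6 : (fun i => g i + h' i) = f := by
        funext i
        rw [hg, hh']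
        show (if i = i0 ∨ i = jb then (0 : ℂ) else f i) + (if i = i0 ∨ i = jb then f i else 0) = f i
        split_ifs
        · rw [zero_add]
        · rw [add_zero]
      rw [h6] at h5
      exact h5
    rw [h3, h4.tsum_eq]
  have hf0 : f i0 = tm D η m x i0 := by
    rw [hf]
    show (if 0 < (D.ρ i0).re then tm D η m x i0 else 0) = _
    rw [if_pos h0]
  have hfb : f jb = (starRingEnd ℂ) (tm D η m x i0) := by
    rw [hf]
    show (if 0 < (D.ρ jb).re then tm D η m x jb else 0) = _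
    rw [if_pos hbr]
    unfold tm
    rw [hcc, hbc]
    simp only [map_div₀, map_mul, map_sub, map_one, map_pow, Complex.conj_ofReal, ← Complex.exp_conj, map_neg]
  rw [hfsum, hf0, hfb, Complex.add_re, Complex.add_re, Complex.conj_re]
  have h20 : (∑' i, g i).re + ((tm D η m x i0).re + (tm D η m x i0).re) - 2 * (tm D η m x i0).re = (∑' i, g i).re := by
    ring
  have h21 : (D.c i0 * (1 - Complex.exp (-((D.ρ i0) * η))) *
        Complex.exp ((D.ρ i0) * x) / (D.ρ i0) ^ (m + 1)) = tm D η m x i0 := rfl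
  rw [h21, h20]
  refine (Complex.abs_re_le_norm _).trans (hgn.trans ?_)
  rw [hM]
  have h22 : 2 * S * ‖(D.ρ i0)‖ * Real.exp (-(c * x)) ≤ ε := by
    have h23 : 2 * S * ‖(D.ρ i0)‖ / ε ≤ Real.exp (c * x) := by
      have : 2 * S * ‖(D.ρ i0)‖ / ε ≤ K := by rw [hK]; linarith
      exact this.trans hcxK
    rw [div_le_iff₀ hε] at h23
    rw [Real.exp_neg, ← div_eq_mul_inv, div_le_iff₀ (Real.exp_pos _)]
    linarith
  calc 2 * Real.exp (-(c * x)) * (Real.exp ((D.ρ i0).re * x) / ‖(D.ρ i0)‖ ^ (m + 1) * ‖(D.ρ i0)‖) * S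
      = (2 * S * ‖(D.ρ i0)‖ * Real.exp (-(c * x))) * (Real.exp ((D.ρ i0).re * x) / ‖(D.ρ i0)‖ ^ (m + 1)) := by
        ring
    _ ≤ ε * (Real.exp ((D.ρ i0).re * x) / ‖(D.ρ i0)‖ ^ (m + 1)) :=
        mul_le_mul_of_nonneg_right h22 (by positivity)
    _ = ε * Real.exp ((D.ρ i0).re * x) / ‖(D.ρ i0)‖ ^ (m + 1) := by ring

end Pool.Agent.H50.RQ
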