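import Pool.Agent.H50.RQ.Bd

/-!
[H50 RQ BG] The dominance intervals would be too short.

PROOF. Copy `Pool/Agent/H50/RL/Bg.lean` (`too_short`), with `D.fin`, `D.away`, `D.s2 σ` (`(1 + ‖c‖)/‖ρ‖ ≥ 1/‖ρ‖`), `D.conj`, `D.inj`, `D.countable` in place of `zz_finite`, `zz_away`, `s_two`, `zeta_conj_zero`.
-/

set_option autoImplicit false

namespace Pool.Agent.H50.RQ

open MeasureTheory Filter Topology
open Pool.Agent.H50.RL (SC Lp Lf Wk Ft)

/-- the value of a zero at slope `κ` -/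
private noncomputable def vv (D : ZD) (κ : ℝ) (i : D.ι) : ℝ := (D.ρ i).re - κ * Real.log ‖(D.ρ i)‖

/-- the maximisers -/
private def Mx (D : ZD) (κ : ℝ) (i0 : D.ι) : Prop := 0 < (D.ρ i0).re ∧ ∀ i : D.ι, 0 < (D.ρ i).re → vv D κ i ≤ vv D κ i0

private theorem zpos (D : ZD) (i : D.ι) (h : 0 < (D.ρ i).re) : 0 < ‖D.ρ i‖ := by
  rw [norm_pos_iff]
  intro h0
  rw [h0, Complex.zero_re] at h
  exact lt_irrefl _ h

private theorem mx_exists (D : ZD) (ia : D.ι) (ha : 0 < (D.ρ ia).re) {κ : ℝ} (hκ : 0 < κ) : ∃ i0, Mx D κ i0 := by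
  have hfin : {i : D.ι | 0 < (D.ρ i).re ∧ vv D κ ia ≤ vv D κ i}.Finite := by
    refine (D.fin (Real.exp ((1 - vv D κ ia) / κ))).subset fun i hρ => ?_
    obtain ⟨h1, h2⟩ := hρ
    have h3 := D.rlt i
    have h4 : Real.log ‖(D.ρ i)‖ ≤ (1 - vv D κ ia) / κ := by
      rw [le_div_iff₀ hκ]
      have h5 : vv D κ i = (D.ρ i).re - κ * Real.log ‖(D.ρ i)‖ := rfl
      nlinarith
    exact (Real.log_le_iff_le_exp (zpos D i h1)).1 h4
  obtain ⟨i0, h1, h2⟩ := Set.exists_max_image _ (vv D κ) hfin ⟨ia, ha, le_rfl⟩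
  refine ⟨i0, h1.1, fun i hρ => ?_⟩
  rcases le_total (vv D κ ia) (vv D κ i) with h | h
  · exact h2 i ⟨hρ, h⟩
  · exact h.trans h1.2

private theorem mx_re (D : ZD) (ia : D.ι) (ha : 0 < (D.ρ ia).re) (a : ℝ) (hlt : a < (D.ρ ia).re) :
    ∃ κ1 : ℝ, 0 < κ1 ∧ ∀ κ : ℝ, 0 < κ → κ ≤ κ1 → ∀ i, Mx D κ i → a < (D.ρ i).re := by
  obtain ⟨c, hc, -, hca⟩ := D.away
  obtain ⟨E, hE⟩ : ∃ E : ℝ, E = |Real.log ‖(D.ρ ia)‖ - Real.log c| + 1 := ⟨_, rfl⟩
  have hE0 : 0 < E := by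
    rw [hE]
    positivity
  refine ⟨((D.ρ ia).re - a) / E, div_pos (by linarith) hE0, fun κ hκ hκ1 i hρ => ?_⟩
  have h1 := hρ.2 ia ha
  unfold vv at h1
  have h2 : Real.log c ≤ Real.log ‖(D.ρ i)‖ :=
    Real.log_le_log hc (hca i (norm_pos_iff.1 (zpos D i hρ.1)))
  have h3 : κ * E ≤ (D.ρ ia).re - a := (le_div_iff₀ hE0).1 hκ1
  have h4 : Real.log ‖(D.ρ ia)‖ - Real.log c ≤ E - 1 := by
    rw [hE]
    linarith [le_abs_self (Real.log ‖(D.ρ ia)‖ - Real.log c)]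
  have h5 : κ * (Real.log ‖(D.ρ ia)‖ - Real.log ‖(D.ρ i)‖) ≤ κ * (E - 1) :=
    mul_le_mul_of_nonneg_left (by linarith) hκ.le
  nlinarith

private theorem mx_dom {D : ZD} {κ1 κ κ2 : ℝ} (h1 : κ1 < κ) (h2 : κ < κ2) {i0 : D.ι} (hm1 : Mx D κ1 i0)
    (hm2 : Mx D κ2 i0) : D.Dom κ i0 := by
  intro i hρ hne hnc
  by_contra hcon
  have e1 := hm1.2 i hρ
  have e2 := hm2.2 i hρ
  unfold vv at e1 e2
  have e3 := not_lt.1 hcon
  obtain ⟨A, hA⟩ : ∃ A : ℝ, A = (D.ρ i).re - (D.ρ i0).re := ⟨_, rfl⟩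
  obtain ⟨L, hL⟩ : ∃ L : ℝ, L = Real.log ‖(D.ρ i)‖ - Real.log ‖(D.ρ i0)‖ := ⟨_, rfl⟩
  have f1 : A - κ1 * L ≤ 0 := by
    rw [hA, hL]
    linarith
  have f2 : A - κ2 * L ≤ 0 := by
    rw [hA, hL]
    linarith
  have f3 : 0 ≤ A - κ * L := by
    rw [hA, hL]
    linarith
  have hL0 : L = 0 := by
    apply le_antisymm
    · by_contra h
      have h' := not_le.1 h
      nlinarith
    · by_contra h
      have h' := not_le.1 h
      nlinarith
  have hA0 : A = 0 := by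
    rw [hL0] at f1 f3
    linarith
  have hn : ‖(D.ρ i)‖ = ‖(D.ρ i0)‖ :=
    Real.log_injOn_pos (Set.mem_Ioi.2 (zpos D i hρ)) (Set.mem_Ioi.2 (zpos D i0 hm1.1)) (by linarith)
  have hr : (D.ρ i).re = (D.ρ i0).re := by linarith
  have hs : Complex.normSq (D.ρ i) = Complex.normSq (D.ρ i0) := by
    rw [Complex.normSq_eq_norm_sq, Complex.normSq_eq_norm_sq, hn]
  rw [Complex.normSq_apply, Complex.normSq_apply, hr] at hs
  have hi : (D.ρ i).im = (D.ρ i0).im ∨ (D.ρ i).im = -(D.ρ i0).im :=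
    mul_self_eq_mul_self_iff.1 (by linarith)
  rcases hi with hi | hi
  · exact hne (Complex.ext hr hi)
  · refine hnc (Complex.ext ?_ ?_)
    · rw [Complex.conj_re, hr]
    · rw [Complex.conj_im, hi]

private theorem exp_le_lin {x a : ℝ} (hx : 0 ≤ x) (ha : a ≤ 1 / 2) (h : 1 - Real.exp (-x) ≤ a) :
    x ≤ 2 * a := by
  have h1 : 1 - a ≤ Real.exp (-x) := by linarith
  have h2 : 0 < 1 - a := by linarith
  have h3 : Real.exp (-x) * Real.exp x = 1 := by rw [← Real.exp_add, neg_add_cancel, Real.exp_zero]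
  have h4 : x + 1 ≤ Real.exp x := Real.add_one_le_exp x
  have h5 : (1 - a) * (x + 1) ≤ Real.exp (-x) * Real.exp x :=
    mul_le_mul h1 h4 (by linarith) (Real.exp_pos _).le
  rw [h3] at h5
  nlinarith

theorem ZD.too_short (D : ZD) (hne : ∃ i, 1 / 2 < (D.ρ i).re) (hna : ∀ i, ∃ j, (D.ρ i).re < (D.ρ j).re)
    (κ0 B : ℝ) (hκ : 0 < κ0) (hB0 : 0 < B)
    (hB : ∀ κ1 κ2 : ℝ, 0 < κ1 → κ1 < κ2 → κ2 ≤ κ0 → ∀ i0 : D.ι, 0 < (D.ρ i0).re → 0 < (D.ρ i0).im →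
      D.Dom κ1 i0 → D.Dom κ2 i0 → (D.ρ i0).im * (1 - κ1 / κ2) ≤ B) : False := by
  have hcount := D.countable
  obtain ⟨ia, hρa⟩ := hne
  obtain ⟨σ, hσ⟩ : ∃ σ : ℝ, σ = (1 / 2 + (D.ρ ia).re) / 2 := ⟨_, rfl⟩
  have hσ1 : 1 / 2 < σ := by rw [hσ]; linarith
  have hσ2 : σ < (D.ρ ia).re := by rw [hσ]; linarith
  -- a zero further to the right than all small zeros
  obtain ⟨im, -, hm2⟩ := Set.exists_max_image ({i : D.ι | ‖(D.ρ i)‖ ≤ 2 * B + 2} ∪ {ia})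
    (fun i : D.ι => (D.ρ i).re) ((D.fin (2 * B + 2)).union (Set.finite_singleton ia))
    ⟨ia, Or.inr rfl⟩
  obtain ⟨i', hρ'⟩ := hna im
  have hma : (D.ρ ia).re ≤ (D.ρ im).re := hm2 ia (Or.inr rfl)
  obtain ⟨κ1, hκ1, hk1⟩ := mx_re D i' (by linarith) (D.ρ im).re hρ'
  obtain ⟨κ', hκ', hκ'1, hκ'0⟩ : ∃ κ' : ℝ, 0 < κ' ∧ κ' ≤ κ1 ∧ κ' ≤ κ0 :=
    ⟨min κ1 κ0, lt_min hκ1 hκ, min_le_left _ _, min_le_right _ _⟩
  have hgood : ∀ κ : ℝ, 0 < κ → κ ≤ κ' → ∀ i, Mx D κ i → σ ≤ (D.ρ i).re ∧ 2 * B + 1 < |(D.ρ i).im| := by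
    intro κ h0 h1 i hρ
    have h2 := hk1 κ h0 (h1.trans hκ'1) i hρ
    refine ⟨by linarith, ?_⟩
    by_contra h
    have h3 : ‖(D.ρ i)‖ ≤ 2 * B + 2 := by
      refine (Complex.norm_le_abs_re_add_abs_im _).trans ?_
      have h4 : |(D.ρ i).re| ≤ 1 := by
        rw [abs_of_pos hρ.1]
        exact (D.rlt i).le
      linarith [not_lt.1 h]
    have h5 := hm2 i (Or.inl h3)
    linarith
  obtain ⟨J, hJ⟩ : ∃ J : D.ι → Set ℝ, ∀ i t, t ∈ J i ↔
      (Real.exp (-t) ≤ κ' ∧ Mx D (Real.exp (-t)) i ∧ σ ≤ (D.ρ i).re ∧ 2 * B + 1 < (D.ρ i).im) :=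
    ⟨fun i => {t | Real.exp (-t) ≤ κ' ∧ Mx D (Real.exp (-t)) i ∧ σ ≤ (D.ρ i).re ∧
      2 * B + 1 < (D.ρ i).im}, fun _ _ => Iff.rfl⟩
  -- the length of the sets
  have hlen : ∀ i s t, s ∈ J i → t ∈ J i → t - s ≤ 4 * B / ‖(D.ρ i)‖ := by
    intro i s t hs ht
    obtain ⟨s1, s2, s3, s4⟩ := (hJ i s).1 hs
    obtain ⟨t1, t2, -, -⟩ := (hJ i t).1 ht
    have him : 0 < (D.ρ i).im := by linarith
    have hd : 2 * (B / (D.ρ i).im) ≤ 4 * B / ‖(D.ρ i)‖ := by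
      rw [le_div_iff₀ (zpos D i s2.1)]
      have h1 : ‖(D.ρ i)‖ ≤ 2 * (D.ρ i).im := by
        refine (Complex.norm_le_abs_re_add_abs_im _).trans ?_
        rw [abs_of_pos s2.1, abs_of_pos him]
        linarith [D.rlt i]
      have h2 : 0 ≤ 2 * (B / (D.ρ i).im) := by positivity
      calc 2 * (B / (D.ρ i).im) * ‖(D.ρ i)‖ ≤ 2 * (B / (D.ρ i).im) * (2 * (D.ρ i).im) :=
            mul_le_mul_of_nonneg_left h1 h2
        _ = 4 * B := by
            field_simp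
            ring
    refine le_trans ?_ hd
    by_contra hcon
    have hcon := not_le.1 hcon
    obtain ⟨d, hdd⟩ : ∃ d : ℝ, d = 2 * (B / (D.ρ i).im) := ⟨_, rfl⟩
    have hd0 : 0 < d := by rw [hdd]; positivity
    rw [← hdd] at hcon
    obtain ⟨u, hu⟩ : ∃ u : ℝ, u = s + (t - s - d) / 4 := ⟨_, rfl⟩
    obtain ⟨w, hw⟩ : ∃ w : ℝ, w = t - (t - s - d) / 4 := ⟨_, rfl⟩
    have hsu : s < u := by rw [hu]; linarith
    have huw : u < w := by rw [hu, hw]; linarith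
    have hwt : w < t := by rw [hw]; linarith
    have hwu : d < w - u := by rw [hu, hw]; linarith
    have hdu : D.Dom (Real.exp (-u)) i :=
      mx_dom (Real.exp_lt_exp.2 (by linarith)) (Real.exp_lt_exp.2 (by linarith)) t2 s2
    have hdw : D.Dom (Real.exp (-w)) i :=
      mx_dom (Real.exp_lt_exp.2 (by linarith)) (Real.exp_lt_exp.2 (by linarith)) t2 s2
    have h1 := hB (Real.exp (-w)) (Real.exp (-u)) (Real.exp_pos _)
      (Real.exp_lt_exp.2 (by linarith))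
      ((Real.exp_le_exp.2 (by linarith)).trans (s1.trans hκ'0)) i s2.1 him hdw hdu
    have h2 : Real.exp (-w) / Real.exp (-u) = Real.exp (-(w - u)) := by
      rw [← Real.exp_sub]
      congr 1
      ring
    rw [h2] at h1
    have h3 : 1 - Real.exp (-(w - u)) ≤ B / (D.ρ i).im := by
      rw [le_div_iff₀ him, mul_comm]
      exact h1
    have h4 : B / (D.ρ i).im ≤ 1 / 2 := by
      rw [div_le_iff₀ him]
      linarith
    have h5 := exp_le_lin (by linarith) h4 h3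
    rw [← hdd] at h5
    linarith
  have hvol : ∀ i, volume (J i) ≤
      ENNReal.ofReal (4 * B * (if σ ≤ (D.ρ i).re then (1 + ‖D.c i‖) / ‖(D.ρ i)‖ else 0)) := by
    intro i
    by_cases hσi : σ ≤ (D.ρ i).re
    · rw [if_pos hσi]
      have h0 : 4 * B / ‖(D.ρ i)‖ ≤ 4 * B * ((1 + ‖D.c i‖) / ‖(D.ρ i)‖) := by
        rw [mul_div_assoc']
        refine div_le_div_of_nonneg_right ?_ (norm_nonneg _)
        nlinarith [norm_nonneg (D.c i)]
      refine le_trans ?_ (ENNReal.ofReal_le_ofReal h0)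
      refine (Real.volume_le_diam _).trans (Metric.ediam_le fun s hs t ht => ?_)
      rw [edist_dist, Real.dist_eq]
      refine ENNReal.ofReal_le_ofReal (abs_le.2 ⟨?_, hlen i t s ht hs⟩)
      linarith [hlen i s t hs ht]
    · have h0 : J i = ∅ := by
        rw [Set.eq_empty_iff_forall_notMem]
        intro t ht
        exact hσi ((hJ i t).1 ht).2.2.1
      rw [h0, measure_empty]
      exact zero_le
  have hcov : Set.Ici (-Real.log κ') ⊆ ⋃ i, J i := by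
    intro t ht
    have ht1 : Real.exp (-t) ≤ κ' := by
      have h1 : -Real.log κ' ≤ t := ht
      rw [← Real.le_log_iff_exp_le hκ']
      linarith
    obtain ⟨i, hρ⟩ := mx_exists D ia (by linarith) (Real.exp_pos (-t))
    obtain ⟨h1, h2⟩ := hgood _ (Real.exp_pos (-t)) ht1 i hρ
    rw [Set.mem_iUnion]
    rcases le_total 0 (D.ρ i).im with h3 | h3
    · rw [abs_of_nonneg h3] at h2
      exact ⟨i, (hJ i t).2 ⟨ht1, hρ, h1, h2⟩⟩
    · rw [abs_of_nonpos h3] at h2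
      obtain ⟨j, hj, -⟩ := D.conj i
      refine ⟨j, (hJ _ t).2 ⟨ht1, ⟨?_, ?_⟩, ?_, ?_⟩⟩
      · rw [hj, Complex.conj_re]
        exact hρ.1
      · intro i1 hi1
        refine (hρ.2 i1 hi1).trans (le_of_eq ?_)
        unfold vv
        rw [hj, Complex.conj_re, RCLike.norm_conj]
      · rw [hj, Complex.conj_re]
        exact h1
      · rw [hj, Complex.conj_im]
        exact h2
  have hsum : Summable fun i : D.ι => 4 * B * (if σ ≤ (D.ρ i).re then (1 + ‖D.c i‖) / ‖(D.ρ i)‖ else 0) :=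
    (D.s2 σ hσ1).mul_left (4 * B)
  have hnn : ∀ i : D.ι, 0 ≤ 4 * B * (if σ ≤ (D.ρ i).re then (1 + ‖D.c i‖) / ‖(D.ρ i)‖ else 0) := by
    intro i
    split_ifs <;> positivity
  have hfin : volume (Set.Ici (-Real.log κ')) < ⊤ := by
    refine lt_of_le_of_lt (measure_mono hcov) (lt_of_le_of_lt (measure_iUnion_le J) ?_)
    refine lt_of_le_of_lt (ENNReal.tsum_le_tsum hvol) ?_
    rw [← ENNReal.ofReal_tsum_of_nonneg hnn hsum]
    exact ENNReal.ofReal_lt_top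
  rw [Real.volume_Ici] at hfin
  exact lt_irrefl _ hfin

end Pool.Agent.H50.RQ
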