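import Pool.Agent.H50.RQ.Bf
import Pool.Agent.H50.RQ.Bg

/-!
[H50 RQ BH] Part B: the supremum of the real parts is not attained.

PROOF. Copy `Pool/Agent/H50/RL/Bh.lean`: otherwise `¬ SC .. y (y+1) M` for all `y ≥ Y0`, hence `¬ SC .. y (y+1) (M+1)` for all `y ≥ Y := max Y0 η`. `window_bound` with `is` an index with `Re ρ > 1/2` gives `κ0`; `too_short` with `B = π (M + 2)`.
-/

set_option autoImplicit false

namespace Pool.Agent.H50.RQ

open MeasureTheory Filter Topology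
open Pool.Agent.H50.RL (SC Lp Lf Wk Ft)

private theorem sc_drop {F : ℝ → ℝ} {a b : ℝ} {k : ℕ} (h : SC F a b (k + 1)) : SC F a b k := by
  obtain ⟨x, hx, hab, hs⟩ := h
  refine ⟨fun i => x i.castSucc, hx.comp (Fin.strictMono_castSucc), fun i => hab _, fun i => ?_⟩
  have h1 := hs i.castSucc
  rw [Fin.succ_castSucc] at h1
  exact h1

theorem ZD.part_b (D : ZD) (hne : ∃ i, 1 / 2 < (D.ρ i).re) (hna : ∀ i, ∃ j, (D.ρ i).re < (D.ρ j).re)
    (M : ℕ) (η : ℝ) (hη : 0 < η) (Y0 : ℝ) :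
    ∃ y : ℝ, Y0 ≤ y ∧ SC (fun v => D.f v - D.f (v - η)) y (y + 1) M := by
  by_contra hcon
  push Not at hcon
  obtain ⟨is, his⟩ := hne
  obtain ⟨κ0, hκ0, hwin⟩ := D.window_bound η hη M (max Y0 η) (le_max_right _ _)
    (fun y hy h => hcon y ((le_max_left _ _).trans hy) (sc_drop h)) is (by linarith)
  have hB0 : 0 < Real.pi * ((M : ℝ) + 2) := by
    have := Real.pi_pos
    positivity
  exact D.too_short ⟨is, his⟩ hna κ0 (Real.pi * ((M : ℝ) + 2)) hκ0 hB0 hwin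

end Pool.Agent.H50.RQ
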