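import Pool.Agent.H50.RQ.Df
import Pool.Agent.H50.RL.Zf

/-!
[H50 RQ XP] Orders for imprimitive characters to the right of `Re s = 0`.

PROOF of `prim_order`. Case `χ ≠ 1`: `χ = changeLevel χ*` (`DirichletCharacter.changeLevel_primitiveCharacter`), `χ* ≠ 1`; `LFunction_changeLevel`: `L(s,χ) = L(s,χ*) Π_{p | q} (1 - χ*(p) p^(-s))`
for all `s`; the product is analytic and nonzero at `ρ` since `|χ*(p) p^(-ρ)| ≤ p^(-Re ρ) < 1`; so the order is that of `L(·,χ*)` (`analyticOrderAt_mul`).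
Case `χ = 1`, `ρ ≠ 1`: `LFunctionTrivChar_eq_mul_riemannZeta` near `ρ`, and `FF_order`-type argument: near `ρ ≠ 1`, `FF = (s-1) ζ` with `s-1` nonzero (RL/Zf, `FF_order` for zeros; if
`ζ ρ ≠ 0` both orders are `0`). Case `χ = 1`, `ρ = 1`: `RL.FF 1 = 1 ≠ 0`, order `0`; and `LFunction 1` is not analytic at `1` (`LFunctionTrivChar_residue_one`: `(s-1) L(s)` tends to a nonzero limit, so `L` is not
continuous at `1`), so `analyticOrderAt = 0` (`analyticOrderAt_of_not_analyticAt`).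
`res_eq`: sum over the characters.
-/

set_option autoImplicit false

namespace Pool.Agent.H50.RQ

open MeasureTheory Filter Topology
open Pool.Agent.H50.RL (SC Lp Lf Wk Ft)

private theorem xp_an (q : ℕ) (g : ℕ → ℂ) (ρ : ℂ) :
    AnalyticAt ℂ (fun s : ℂ => ∏ p ∈ q.primeFactors, (1 - g p * (p : ℂ) ^ (-s))) ρ := by
  have h : Differentiable ℂ (fun s : ℂ => ∏ p ∈ q.primeFactors, (1 - g p * (p : ℂ) ^ (-s))) := by
    refine Differentiable.fun_finsetProd fun p hp => ?_
    have : NeZero p := ⟨(Nat.prime_of_mem_primeFactors hp).ne_zero⟩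
    fun_prop
  exact h.analyticAt ρ

private theorem xp_ne (q : ℕ) (g : ℕ → ℂ) (hg : ∀ n, ‖g n‖ ≤ 1) (ρ : ℂ) (hρ : 0 < ρ.re) :
    ∏ p ∈ q.primeFactors, (1 - g p * (p : ℂ) ^ (-ρ)) ≠ 0 := by
  rw [Finset.prod_ne_zero_iff]
  intro p hp h
  have hpp := Nat.prime_of_mem_primeFactors hp
  have h1 : ‖g p * (p : ℂ) ^ (-ρ)‖ < 1 := by
    rw [norm_mul, Complex.norm_natCast_cpow_of_pos hpp.pos, Complex.neg_re]
    have h2 : (p : ℝ) ^ (-ρ.re) < 1 := by
      apply Real.rpow_lt_one_of_one_lt_of_neg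
      · exact_mod_cast hpp.one_lt
      · linarith
    have h3 : 0 ≤ (p : ℝ) ^ (-ρ.re) := Real.rpow_nonneg (Nat.cast_nonneg p) _
    calc ‖g p‖ * (p : ℝ) ^ (-ρ.re) ≤ 1 * (p : ℝ) ^ (-ρ.re) := mul_le_mul_of_nonneg_right (hg p) h3
      _ < 1 := by rw [one_mul]; exact h2
  have h4 : g p * (p : ℂ) ^ (-ρ) = 1 := (sub_eq_zero.1 h).symm
  rw [h4, norm_one] at h1
  exact lt_irrefl _ h1

private theorem xp_ord (q : ℕ) (g : ℕ → ℂ) (hg : ∀ n, ‖g n‖ ≤ 1) (ρ : ℂ) (hρ : 0 < ρ.re)
    (L M : ℂ → ℂ) (hM : AnalyticAt ℂ M ρ)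
    (hL : L =ᶠ[𝓝 ρ] M * fun s : ℂ => ∏ p ∈ q.primeFactors, (1 - g p * (p : ℂ) ^ (-s))) :
    analyticOrderNatAt L ρ = analyticOrderNatAt M ρ := by
  have h1 := (xp_an q g ρ).analyticOrderAt_eq_zero.2 (xp_ne q g hg ρ hρ)
  unfold analyticOrderNatAt
  rw [analyticOrderAt_congr hL, analyticOrderAt_mul hM (xp_an q g ρ), h1, add_zero]

private theorem xp_triv (q : ℕ) [NeZero q] (ρ : ℂ) (hρ : 0 < ρ.re) (h1 : ρ ≠ 1) :
    analyticOrderNatAt (DirichletCharacter.LFunction (1 : DirichletCharacter ℂ q)) ρ =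
      analyticOrderNatAt RL.FF ρ := by
  have hζ : AnalyticAt ℂ riemannZeta ρ := analyticOn_riemannZeta ρ h1
  have h2 : analyticOrderNatAt (DirichletCharacter.LFunction (1 : DirichletCharacter ℂ q)) ρ =
      analyticOrderNatAt riemannZeta ρ := by
    refine xp_ord q (fun _ => 1) (fun _ => by rw [norm_one]) ρ hρ _ _ hζ ?_
    filter_upwards [isOpen_ne.mem_nhds h1] with z hz
    have h3 := DirichletCharacter.LFunctionTrivChar_eq_mul_riemannZeta (N := q) hz
    rw [Pi.mul_apply, mul_comm]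
    simpa using h3
  rw [h2]
  by_cases hz : riemannZeta ρ = 0
  · exact (RL.FF_order ρ hz).symm
  · have h4 : RL.FF ρ ≠ 0 := fun h => hz ((RL.FF_zero_iff ρ).1 h)
    unfold analyticOrderNatAt
    rw [analyticOrderAt_eq_zero.2 (Or.inr hz), analyticOrderAt_eq_zero.2 (Or.inr h4)]

private theorem xp_one (q : ℕ) [NeZero q] :
    analyticOrderNatAt (DirichletCharacter.LFunction (1 : DirichletCharacter ℂ q)) 1 =
      analyticOrderNatAt RL.FF 1 := by
  have h1 : RL.FF 1 ≠ 0 := fun h => riemannZeta_one_ne_zero ((RL.FF_zero_iff 1).1 h)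
  have h2 : ¬ AnalyticAt ℂ (DirichletCharacter.LFunction (1 : DirichletCharacter ℂ q)) 1 := by
    intro h
    have h3 := DirichletCharacter.LFunctionTrivChar_residue_one (N := q)
    have h4 : Tendsto (fun s : ℂ => (s - 1) * DirichletCharacter.LFunctionTrivChar q s) (𝓝[≠] 1)
        (𝓝 ((1 - 1) * DirichletCharacter.LFunctionTrivChar q 1)) := by
      apply tendsto_nhdsWithin_of_tendsto_nhds
      exact ((continuous_id.sub continuous_const).tendsto 1).mul h.continuousAt.tendsto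
    have h5 := tendsto_nhds_unique h3 h4
    rw [sub_self, zero_mul, Finset.prod_eq_zero_iff] at h5
    obtain ⟨p, hp, h6⟩ := h5
    have h7 : (p : ℂ)⁻¹ = 1 := (sub_eq_zero.1 h6).symm
    rw [inv_eq_one] at h7
    exact (Nat.prime_of_mem_primeFactors hp).ne_one (by exact_mod_cast h7)
  unfold analyticOrderNatAt
  rw [analyticOrderAt_eq_zero.2 (Or.inl h2), analyticOrderAt_eq_zero.2 (Or.inr h1)]

theorem prim_order (q : ℕ) [NeZero q] (χ : DirichletCharacter ℂ q) (ρ : ℂ) (hρ : 0 < ρ.re) :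
    analyticOrderNatAt (DirichletCharacter.LFunction χ) ρ = analyticOrderNatAt (LL χ) ρ := by
  classical
  by_cases hχ : χ = 1
  · subst hχ
    rw [LL, if_pos rfl]
    by_cases h1 : ρ = 1
    · subst h1
      exact xp_one q
    · exact xp_triv q ρ hρ h1
  · rw [LL, if_neg hχ]
    have hne : χ.primitiveCharacter ≠ 1 := by
      intro h
      apply hχ
      rw [← χ.changeLevel_primitiveCharacter, h, DirichletCharacter.changeLevel_one]
    refine xp_ord q (fun n => χ.primitiveCharacter n) (fun n => DirichletCharacter.norm_le_one _ _) ρ hρ _ _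
      ((DirichletCharacter.differentiable_LFunction hne).analyticAt ρ) ?_
    refine Filter.Eventually.of_forall fun s => ?_
    have h2 := DirichletCharacter.LFunction_changeLevel χ.conductor_dvd_level χ.primitiveCharacter
      (s := s) (Or.inl hne)
    rw [χ.changeLevel_primitiveCharacter] at h2
    exact h2

theorem res_eq (q : ℕ) [NeZero q] (a : (ZMod q)ˣ) (ρ : ℂ) (hρ : 0 < ρ.re) : res q a ρ = cf q a ρ := by
  unfold res cf
  exact Finset.sum_congr rfl fun χ _ => by rw [prim_order q χ ρ hρ]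

end Pool.Agent.H50.RQ
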