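import Mathlib

/-!
[H50 RQ XZ] Zeros of primitive `L`-functions: the trivial ones, and the symmetry.

PROOF. `χ` primitive, `χ ≠ 1`, so `N ≠ 1`, `χ⁻¹ ≠ 1`. `LFunction_eq_completed_div_gammaFactor` (`N ≠ 1`): `L(s,χ) = Λ(s,χ)/γ(s)`, `γ = Gammaℝ s` or `Gammaℝ (s+1)`;
`completedLFunction_one_sub`: `Λ(1-s, χ) = N^(s-1/2) W Λ(s, χ⁻¹)`, and `W = rootNumber χ ≠ 0` (otherwise `Λ(·,χ) = 0` identically, but `L(2,χ) ≠ 0`).
`Gammaℝ s = 0 ↔ ∃ n : ℕ, s = -(2 n)` (`Complex.Gammaℝ_eq_zero_iff`), so for `Re s > 0` the factors `γ` do not vanish.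
`chi_left`: `Re ρ ≤ 0`: `L(1-ρ, χ⁻¹) ≠ 0` (`LFunction_ne_zero_of_one_le_re`), so `Λ(1-ρ, χ⁻¹) ≠ 0` (`Λ = L γ`, `γ(1-ρ) ≠ 0`), so `Λ(ρ, χ) ≠ 0`; hence `L(ρ,χ) = 0` only if
`γ(ρ) = 0` (division by zero in Mathlib), `ρ = -2n` or `ρ + 1 = -2n`.
`chi_sym`: for `0 < Re ρ < 1` `γ_χ(1-ρ)`, `γ_{χ⁻¹}(ρ) ≠ 0` and `γ` is analytic there (`Gammaℝ s = π^(-s/2) Γ(s/2)`, `differentiableAt_Gammaℝ...`): near `ρ` we have
`L(1-s, χ) = u(s) L(s, χ⁻¹)` with `u` analytic and nonzero; so the orders agree (`analyticOrderAt_mul`, order `0` of `u`; composition of `L(·,χ)` with `s ↦ 1-s` has at `ρ` the order of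
`L(·,χ)` at `1-ρ`).
-/

set_option autoImplicit false

namespace Pool.Agent.H50.RQ

open MeasureTheory Filter Topology

private theorem gfInv_differentiable {N : ℕ} (χ : DirichletCharacter ℂ N) :
    Differentiable ℂ (fun s : ℂ => (DirichletCharacter.gammaFactor χ s)⁻¹) := by
  rcases χ.even_or_odd with h | h
  · have : (fun s : ℂ => (DirichletCharacter.gammaFactor χ s)⁻¹) = fun s => (Complex.Gammaℝ s)⁻¹ := by
      funext s; rw [h.gammaFactor_def]
    rw [this]; exact Complex.differentiable_Gammaℝ_inv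
  · have : (fun s : ℂ => (DirichletCharacter.gammaFactor χ s)⁻¹) =
        (fun s => (Complex.Gammaℝ s)⁻¹) ∘ fun s => s + 1 := by
      funext s; simp only [Function.comp_apply]; rw [h.gammaFactor_def]
    rw [this]; exact Complex.differentiable_Gammaℝ_inv.comp (differentiable_id.add_const 1)

private theorem gf_ne_zero {N : ℕ} (χ : DirichletCharacter ℂ N) {s : ℂ} (hs : 0 < s.re) :
    DirichletCharacter.gammaFactor χ s ≠ 0 := by
  rcases χ.even_or_odd with h | h
  · rw [h.gammaFactor_def]; exact Complex.Gammaℝ_ne_zero_of_re_pos hs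
  · rw [h.gammaFactor_def]; exact Complex.Gammaℝ_ne_zero_of_re_pos (by simp; linarith)

private theorem level_ne {N : ℕ} {χ : DirichletCharacter ℂ N} (hχ : χ ≠ 1) : N ≠ 1 := by
  exact hχ ∘ χ.level_one'

private theorem L_eq {N : ℕ} [NeZero N] {χ : DirichletCharacter ℂ N} (hχ : χ ≠ 1) (s : ℂ) :
    DirichletCharacter.LFunction χ s =
      DirichletCharacter.completedLFunction χ s * (DirichletCharacter.gammaFactor χ s)⁻¹ := by
  rw [DirichletCharacter.LFunction_eq_completed_div_gammaFactor χ s (Or.inr (level_ne hχ)),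
    div_eq_mul_inv]

private theorem inv_ne {N : ℕ} {χ : DirichletCharacter ℂ N} (hχ : χ ≠ 1) : χ⁻¹ ≠ 1 := by
  intro h; exact hχ (inv_eq_one.mp h)

private theorem root_ne {N : ℕ} [NeZero N] {χ : DirichletCharacter ℂ N} (hp : χ.IsPrimitive) (hχ : χ ≠ 1) :
    DirichletCharacter.rootNumber χ ≠ 0 := by
  intro h0
  have h1 := hp.completedLFunction_one_sub (-1)
  rw [h0, mul_zero, zero_mul] at h1
  have h2 := L_eq hχ (1 - -1)
  rw [h1, zero_mul] at h2
  exact DirichletCharacter.LFunction_ne_zero_of_one_le_re χ (.inl hχ) (by norm_num) h2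

private theorem C_ne {N : ℕ} [NeZero N] {χ : DirichletCharacter ℂ N} (hp : χ.IsPrimitive) (hχ : χ ≠ 1) (s : ℂ) :
    (N : ℂ) ^ (s - 1 / 2) * DirichletCharacter.rootNumber χ ≠ 0 := by
  refine mul_ne_zero ?_ (root_ne hp hχ)
  rw [Ne, Complex.cpow_eq_zero_iff]
  rintro ⟨h, _⟩
  exact NeZero.ne N (by exact_mod_cast h)

private theorem ord_L {N : ℕ} [NeZero N] {χ : DirichletCharacter ℂ N} (hχ : χ ≠ 1) {s : ℂ} (hs : 0 < s.re) :
    analyticOrderAt (DirichletCharacter.LFunction χ) s =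
      analyticOrderAt (DirichletCharacter.completedLFunction χ) s := by
  have h1 : DirichletCharacter.LFunction χ =
      DirichletCharacter.completedLFunction χ * fun s => (DirichletCharacter.gammaFactor χ s)⁻¹ := by
    funext s; exact L_eq hχ s
  have ha : AnalyticAt ℂ (DirichletCharacter.completedLFunction χ) s :=
    (DirichletCharacter.differentiable_completedLFunction hχ).analyticAt s
  have hb : AnalyticAt ℂ (fun s => (DirichletCharacter.gammaFactor χ s)⁻¹) s :=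
    (gfInv_differentiable χ).analyticAt s
  have hb0 : analyticOrderAt (fun s => (DirichletCharacter.gammaFactor χ s)⁻¹) s = 0 :=
    analyticOrderAt_eq_zero.2 (Or.inr (inv_ne_zero (gf_ne_zero χ hs)))
  rw [h1, analyticOrderAt_mul ha hb, hb0, add_zero]

theorem chi_left (N : ℕ) [NeZero N] (χ : DirichletCharacter ℂ N) (hp : χ.IsPrimitive) (hχ : χ ≠ 1) (ρ : ℂ)
    (hρ : DirichletCharacter.LFunction χ ρ = 0) (hre : ρ.re ≤ 0) : ∃ n : ℕ, ρ = -(n : ℂ) := by
  have h1 := L_eq hχ ρ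
  rw [hρ] at h1
  have h2 : DirichletCharacter.LFunction χ⁻¹ (1 - ρ) ≠ 0 :=
    DirichletCharacter.LFunction_ne_zero_of_one_le_re χ⁻¹ (.inl (inv_ne hχ)) (by simp; linarith)
  have h3 : DirichletCharacter.completedLFunction χ⁻¹ (1 - ρ) ≠ 0 := by
    intro h
    apply h2
    rw [L_eq (inv_ne hχ), h, zero_mul]
  have h4 : DirichletCharacter.completedLFunction χ ρ ≠ 0 := by
    have h5 := hp.completedLFunction_one_sub (1 - ρ)
    rw [sub_sub_cancel] at h5
    rw [h5]
    exact mul_ne_zero (C_ne hp hχ _) h3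
  have h6 : DirichletCharacter.gammaFactor χ ρ = 0 := by
    rcases mul_eq_zero.1 h1.symm with h | h
    · exact absurd h h4
    · exact inv_eq_zero.1 h
  rcases χ.even_or_odd with h | h
  · rw [h.gammaFactor_def, Complex.Gammaℝ_eq_zero_iff] at h6
    obtain ⟨n, hn⟩ := h6
    exact ⟨2 * n, by rw [hn]; push_cast; ring⟩
  · rw [h.gammaFactor_def, Complex.Gammaℝ_eq_zero_iff] at h6
    obtain ⟨n, hn⟩ := h6
    exact ⟨2 * n + 1, by rw [eq_sub_of_add_eq hn]; push_cast; ring⟩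

theorem chi_sym (N : ℕ) [NeZero N] (χ : DirichletCharacter ℂ N) (hp : χ.IsPrimitive) (hχ : χ ≠ 1) (ρ : ℂ)
    (h0 : 0 < ρ.re) (h1 : ρ.re < 1) :
    analyticOrderNatAt (DirichletCharacter.LFunction χ) (1 - ρ) =
      analyticOrderNatAt (DirichletCharacter.LFunction χ⁻¹) ρ := by
  unfold analyticOrderNatAt
  congr 1
  have hre : 0 < (1 - ρ).re := by simp; linarith
  rw [ord_L hχ hre, ord_L (inv_ne hχ) h0]
  have hg : AnalyticAt ℂ (fun s : ℂ => 1 - s) ρ := by fun_prop
  have hd : deriv (fun s : ℂ => 1 - s) ρ ≠ 0 := by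
    have : deriv (fun s : ℂ => 1 - s) ρ = -1 := by
      simp
    rw [this]; norm_num
  have h2 := analyticOrderAt_comp_of_deriv_ne_zero (f := DirichletCharacter.completedLFunction χ) hg hd
  rw [← h2]
  have h3 : (DirichletCharacter.completedLFunction χ ∘ fun s : ℂ => 1 - s) =
      (fun s : ℂ => (N : ℂ) ^ (s - 1 / 2) * DirichletCharacter.rootNumber χ) *
        DirichletCharacter.completedLFunction χ⁻¹ := by
    funext s
    simp only [Function.comp_apply, Pi.mul_apply]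
    exact hp.completedLFunction_one_sub s
  have hN : (N : ℂ) ≠ 0 := by exact_mod_cast NeZero.ne N
  have ha : AnalyticAt ℂ (fun s : ℂ => (N : ℂ) ^ (s - 1 / 2) * DirichletCharacter.rootNumber χ) ρ := by
    have hdiff : Differentiable ℂ (fun s : ℂ => (N : ℂ) ^ (s - 1 / 2) * DirichletCharacter.rootNumber χ) := by
      intro s
      refine DifferentiableAt.mul_const ?_ _
      exact DifferentiableAt.const_cpow (by fun_prop) (Or.inl hN)
    exact hdiff.analyticAt ρ
  have hb : AnalyticAt ℂ (DirichletCharacter.completedLFunction χ⁻¹) ρ :=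
    (DirichletCharacter.differentiable_completedLFunction (inv_ne hχ)).analyticAt ρ
  have ha0 : analyticOrderAt (fun s : ℂ => (N : ℂ) ^ (s - 1 / 2) * DirichletCharacter.rootNumber χ) ρ = 0 :=
    analyticOrderAt_eq_zero.2 (Or.inr (C_ne hp hχ ρ))
  rw [h3, analyticOrderAt_mul ha hb, ha0, zero_add]

end Pool.Agent.H50.RQ
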