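import Pool.Agent.H50.RQ.Pw
import Pool.Agent.H50.RQ.Xz
import Pool.Agent.H50.RQ.Xp

/-!
[H50 RQ CZ] The coefficients `cf q a ρ`: conjugation, symmetry, trivial zeros.

PROOF. `LL_sym`: for `χ ≠ 1`: `ψ = χ.primitiveCharacter` is primitive and nontrivial; `chi_sym` for `ψ` at `conj ρ`: `ord_{1 - conj ρ} L(ψ) = ord_{conj ρ} L(ψ⁻¹)`, and that is `ord_ρ L(ψ)` by `chi_conj_order`. For `χ = 1`:
`0 < Re ρ < 1`, near such points `RL.FF = (s-1) ζ(s)` and `ζ(s) = completedRiemannZeta s/Gammaℝ s` (`riemannZeta_def_of_ne_zero`), `completedRiemannZeta_one_sub`, the factors `s - 1`, `Gammaℝ` are analytic and nonzero: so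
`ord_{1-ρ} FF = ord_ρ FF`; conjugation as in `mz_conj` of RL/Zf.lean (or `LL_conj_order` with `χ = 1`).
`cf_sym`: sum over `χ`. `cf_conj`: conjugate the sum, `conj (χ(a⁻¹)) = χ⁻¹(a⁻¹)`, `LL_conj_order`, reindex `χ ↦ χ⁻¹`.
`cf_ne`: if `cf q a ρ ≠ 0` then some order is nonzero, so `LL χ ρ = 0` for some `χ` (order `0` if the value is nonzero, `AnalyticAt.analyticOrderNatAt...`/`analyticOrderAt_eq_zero`).
`cf_lt`: `LF.re_lt`-type: `ff_ne`, `DirichletCharacter.LFunction_ne_zero_of_one_le_re`. `cf_left`: `chi_left`, and `RL.zeta_left` for `χ = 1` (`RL.FF_zero_iff`).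
-/

set_option autoImplicit false

namespace Pool.Agent.H50.RQ

open MeasureTheory Filter Topology
open Pool.Agent.H50.RL (SC Lp Lf Wk Ft)

private theorem cz_FF {s : ℂ} (h0 : 0 < s.re) (h1 : s.re < 1) :
    analyticOrderAt RL.FF s = analyticOrderAt completedRiemannZeta s := by
  have hs1 : s ≠ 1 := by
    rintro rfl
    rw [Complex.one_re] at h1
    exact lt_irrefl _ h1
  have hs0 : s ≠ 0 := by
    rintro rfl
    rw [Complex.zero_re] at h0
    exact lt_irrefl _ h0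
  have hΛ : AnalyticAt ℂ completedRiemannZeta s := by
    rw [Complex.analyticAt_iff_eventually_differentiableAt]
    filter_upwards [isOpen_ne.mem_nhds hs0, isOpen_ne.mem_nhds hs1] with z hz0 hz1
    exact differentiableAt_completedZeta hz0 hz1
  have hG : AnalyticAt ℂ (fun z : ℂ => (Complex.Gammaℝ z)⁻¹) s :=
    Complex.differentiable_Gammaℝ_inv.analyticAt s
  have hG0 : analyticOrderAt (fun z : ℂ => (Complex.Gammaℝ z)⁻¹) s = 0 :=
    analyticOrderAt_eq_zero.2 (Or.inr (inv_ne_zero (Complex.Gammaℝ_ne_zero_of_re_pos h0)))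
  have hL : AnalyticAt ℂ (fun z : ℂ => z - 1) s := analyticAt_id.sub analyticAt_const
  have hL0 : analyticOrderAt (fun z : ℂ => z - 1) s = 0 :=
    hL.analyticOrderAt_eq_zero.2 (sub_ne_zero.2 hs1)
  have he : RL.FF =ᶠ[𝓝 s] (fun z : ℂ => z - 1) * (completedRiemannZeta * fun z : ℂ => (Complex.Gammaℝ z)⁻¹) := by
    filter_upwards [isOpen_ne.mem_nhds hs0, isOpen_ne.mem_nhds hs1] with z hz0 hz1
    rw [RL.FF, Function.update_of_ne hz1, Pi.mul_apply, Pi.mul_apply, riemannZeta_def_of_ne_zero hz0,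
      div_eq_mul_inv]
  rw [analyticOrderAt_congr he, analyticOrderAt_mul hL (hΛ.mul hG), analyticOrderAt_mul hΛ hG, hG0, hL0,
    zero_add, add_zero]

private theorem cz_sym {s : ℂ} (h0 : 0 < s.re) (h1 : s.re < 1) :
    analyticOrderAt RL.FF (1 - s) = analyticOrderAt RL.FF s := by
  have h0' : 0 < (1 - s).re := by
    rw [Complex.sub_re, Complex.one_re]
    linarith
  have h1' : (1 - s).re < 1 := by
    rw [Complex.sub_re, Complex.one_re]
    linarith
  rw [cz_FF h0 h1, cz_FF h0' h1']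
  have hg : AnalyticAt ℂ (fun s : ℂ => 1 - s) s := by fun_prop
  have hd : deriv (fun s : ℂ => 1 - s) s ≠ 0 := by
    have : deriv (fun s : ℂ => 1 - s) s = -1 := by
      simp
    rw [this]; norm_num
  rw [← analyticOrderAt_comp_of_deriv_ne_zero (f := completedRiemannZeta) hg hd]
  congr 1
  funext z
  exact completedRiemannZeta_one_sub z

theorem LL_sym {q : ℕ} [NeZero q] (χ : DirichletCharacter ℂ q) (ρ : ℂ) (h0 : 0 < ρ.re) (h1 : ρ.re < 1) :
    analyticOrderNatAt (LL χ) (1 - (starRingEnd ℂ) ρ) = analyticOrderNatAt (LL χ) ρ := by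
  by_cases hχ : χ = 1
  · subst hχ
    have h2 := LL_conj_order (1 : DirichletCharacter ℂ q) ρ
    rw [inv_one] at h2
    rw [← h2, LL, if_pos rfl]
    unfold analyticOrderNatAt
    rw [cz_sym (s := (starRingEnd ℂ) ρ) (by rwa [Complex.conj_re]) (by rwa [Complex.conj_re])]
  · rw [LL, if_neg hχ]
    rw [chi_sym χ.conductor χ.primitiveCharacter χ.primitiveCharacter_isPrimitive (prim_ne_one χ hχ)
      ((starRingEnd ℂ) ρ) (by rwa [Complex.conj_re]) (by rwa [Complex.conj_re])]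
    exact chi_conj_order χ.conductor χ.primitiveCharacter (prim_ne_one χ hχ) ρ

theorem cf_sym (q : ℕ) [NeZero q] (a : (ZMod q)ˣ) (ρ : ℂ) (h0 : 0 < ρ.re) (h1 : ρ.re < 1) :
    cf q a (1 - (starRingEnd ℂ) ρ) = cf q a ρ := by
  unfold cf
  exact Finset.sum_congr rfl fun χ _ => by rw [LL_sym χ ρ h0 h1]

theorem cf_conj (q : ℕ) [NeZero q] (a : (ZMod q)ˣ) (ρ : ℂ) :
    cf q a ((starRingEnd ℂ) ρ) = (starRingEnd ℂ) (cf q a ρ) := by
  unfold cf
  rw [map_sum]
  rw [← Equiv.sum_comp (Equiv.inv (DirichletCharacter ℂ q))]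
  refine Finset.sum_congr rfl fun χ _ => ?_
  rw [Equiv.inv_apply, LL_conj_order χ ρ, map_mul, map_natCast]
  congr 1
  exact (MulChar.star_apply' χ _).symm

theorem cf_ne (q : ℕ) [NeZero q] (a : (ZMod q)ˣ) (ρ : ℂ) (h : cf q a ρ ≠ 0) :
    ∃ χ : DirichletCharacter ℂ q, LL χ ρ = 0 := by
  by_contra hcon
  push Not at hcon
  apply h
  unfold cf
  refine Finset.sum_eq_zero fun χ _ => ?_
  unfold analyticOrderNatAt
  rw [analyticOrderAt_eq_zero.2 (Or.inr (hcon χ))]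
  simp

theorem cf_lt (q : ℕ) [NeZero q] (a : (ZMod q)ˣ) (ρ : ℂ) (h : cf q a ρ ≠ 0) : ρ.re < 1 := by
  obtain ⟨χ, hχ⟩ := cf_ne q a ρ h
  by_contra h1
  rw [← lfc_F] at hχ
  exact (lfc χ).ne ρ (not_lt.1 h1) hχ

theorem cf_left (q : ℕ) [NeZero q] (a : (ZMod q)ˣ) (ρ : ℂ) (h : cf q a ρ ≠ 0) (h0 : ρ.re ≤ 0) :
    ∃ n : ℕ, ρ = -(n : ℂ) := by
  obtain ⟨χ, hχ⟩ := cf_ne q a ρ h
  by_cases h1 : χ = 1
  · rw [LL, if_pos h1, RL.FF_zero_iff] at hχ
    obtain ⟨n, hn⟩ := RL.zeta_left ρ hχ h0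
    exact ⟨2 * (n + 1), by rw [hn]; push_cast; ring⟩
  · rw [LL, if_neg h1] at hχ
    exact chi_left χ.conductor χ.primitiveCharacter χ.primitiveCharacter_isPrimitive (prim_ne_one χ h1) ρ
      hχ h0

end Pool.Agent.H50.RQ
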