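import Pool.Agent.H50.RQ.Df

/-!
[H50 RQ DC] The residues are bounded below if `a^4 = 1` or `a^6 = 1`.

PROOF. `z χ = χ(a⁻¹)` is a complex number with `z^4 = 1` resp. `z^6 = 1` (`map_pow`, `map_one`; `a⁻¹^4 = 1`). `z^4 = 1`: `z ∈ {1, -1, i, -i}` (`(z^2-1)(z^2+1) = 0`), so `cf = x + y i` with integers `x, y` (sum over `χ`, induction over the finset or
closure: the set `{x + y i | x y : ℤ}` is closed under addition and contains `z n`, `n : ℕ`); `cf ≠ 0` gives `x^2 + y^2 ≥ 1`, `‖cf‖^2 = x^2 + y^2 ≥ 1`. `z^6 = 1`: put `ω = (1 + i √3)/2`, `ω^2 = ω - 1`, `ω^3 = -1`;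
`z ∈ {1, ω, ω^2, -1, -ω, -ω^2}` (`z^6 - 1 = (z-1)(z+1)(z^2+z+1)(z^2-z+1)`, `z^2 - z + 1 = (z - ω)(z - conj ω)`, `conj ω = 1 - ω`, etc.), so `cf = x + y ω`, `‖x + y ω‖^2 = x^2 + x y + y^2`, a nonnegative integer, nonzero since `cf ≠ 0`.
-/

set_option autoImplicit false

namespace Pool.Agent.H50.RQ

open MeasureTheory Filter Topology
open Pool.Agent.H50.RL (SC Lp Lf Wk Ft)

private theorem dc_core (q : ℕ) [NeZero q] (a : (ZMod q)ˣ) (ρ : ℂ) (ω : ℂ) (t : ℤ)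
    (hω : ∀ x y : ℤ, Complex.normSq ((x : ℂ) + y * ω) = ((x ^ 2 + t * x * y + y ^ 2 : ℤ) : ℝ))
    (hz : ∀ χ : DirichletCharacter ℂ q, ∃ x y : ℤ,
      χ (((a⁻¹ : (ZMod q)ˣ)) : ZMod q) = (x : ℂ) + y * ω)
    (hne : cf q a ρ ≠ 0) : 1 ≤ ‖cf q a ρ‖ := by
  have h1 : ∃ x y : ℤ, cf q a ρ = (x : ℂ) + y * ω := by
    unfold cf
    refine Finset.sum_induction _ (fun z => ∃ x y : ℤ, z = (x : ℂ) + y * ω) ?_ ?_ ?_
    · rintro _ _ ⟨x, y, rfl⟩ ⟨x', y', rfl⟩
      exact ⟨x + x', y + y', by push_cast; ring⟩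
    · exact ⟨0, 0, by simp⟩
    · intro χ _
      obtain ⟨x, y, h⟩ := hz χ
      refine ⟨x * (analyticOrderNatAt (LL χ) ρ : ℤ), y * (analyticOrderNatAt (LL χ) ρ : ℤ), ?_⟩
      rw [h]
      push_cast
      ring
  obtain ⟨x, y, h⟩ := h1
  have h2 : Complex.normSq (cf q a ρ) = ((x ^ 2 + t * x * y + y ^ 2 : ℤ) : ℝ) := by
    rw [h]
    exact hω x y
  have h3 : 0 < Complex.normSq (cf q a ρ) := Complex.normSq_pos.2 hne
  rw [h2] at h3
  have h4 : 0 < x ^ 2 + t * x * y + y ^ 2 := by exact_mod_cast h3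
  have h5 : (1 : ℤ) ≤ x ^ 2 + t * x * y + y ^ 2 := h4
  have h6 : (1 : ℝ) ≤ Complex.normSq (cf q a ρ) := by
    rw [h2]
    exact_mod_cast h5
  rw [Complex.normSq_eq_norm_sq] at h6
  by_contra h7
  have h8 : ‖cf q a ρ‖ < 1 := not_le.1 h7
  nlinarith [norm_nonneg (cf q a ρ)]

private theorem dc_pow (q : ℕ) [NeZero q] (a : (ZMod q)ˣ) (n : ℕ) (h : a ^ n = 1)
    (χ : DirichletCharacter ℂ q) : χ (((a⁻¹ : (ZMod q)ˣ)) : ZMod q) ^ n = 1 := by
  rw [← map_pow, ← Units.val_pow_eq_pow_val, inv_pow, h, inv_one, Units.val_one, map_one]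

/-- the primitive sixth root of unity -/
private noncomputable def om : ℂ := ⟨1 / 2, Real.sqrt 3 / 2⟩

private theorem om_sq : om * om = om - 1 := by
  have h3 : Real.sqrt 3 * Real.sqrt 3 = 3 := Real.mul_self_sqrt (by norm_num)
  apply Complex.ext
  · rw [Complex.mul_re, Complex.sub_re, Complex.one_re]
    show 1 / 2 * (1 / 2) - Real.sqrt 3 / 2 * (Real.sqrt 3 / 2) = 1 / 2 - 1
    linear_combination (-1 / 4) * h3
  · rw [Complex.mul_im, Complex.sub_im, Complex.one_im]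
    show 1 / 2 * (Real.sqrt 3 / 2) + Real.sqrt 3 / 2 * (1 / 2) = Real.sqrt 3 / 2 - 0
    ring

private theorem om_norm (x y : ℤ) : Complex.normSq ((x : ℂ) + y * om) =
    ((x ^ 2 + 1 * x * y + y ^ 2 : ℤ) : ℝ) := by
  have h3 : Real.sqrt 3 * Real.sqrt 3 = 3 := Real.mul_self_sqrt (by norm_num)
  rw [Complex.normSq_apply]
  have hr : ((x : ℂ) + y * om).re = (x : ℝ) + y * (1 / 2) := by
    rw [Complex.add_re, Complex.mul_re, Complex.intCast_re, Complex.intCast_re, Complex.intCast_im]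
    show (x : ℝ) + (y * (1 / 2) - 0 * _) = _
    ring
  have hi : ((x : ℂ) + y * om).im = y * (Real.sqrt 3 / 2) := by
    rw [Complex.add_im, Complex.mul_im, Complex.intCast_re, Complex.intCast_im, Complex.intCast_im]
    show 0 + ((y : ℝ) * (Real.sqrt 3 / 2) + 0 * _) = _
    ring
  rw [hr, hi]
  push_cast
  linear_combination ((y : ℝ) ^ 2 / 4) * h3

private theorem i_norm (x y : ℤ) : Complex.normSq ((x : ℂ) + y * Complex.I) =
    ((x ^ 2 + 0 * x * y + y ^ 2 : ℤ) : ℝ) := by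
  rw [Complex.normSq_apply]
  have hr : ((x : ℂ) + y * Complex.I).re = (x : ℝ) := by simp
  have hi : ((x : ℂ) + y * Complex.I).im = (y : ℝ) := by simp
  rw [hr, hi]
  push_cast
  ring

private theorem z4 (z : ℂ) (h : z ^ 4 = 1) : ∃ x y : ℤ, z = (x : ℂ) + y * Complex.I := by
  have hI : Complex.I ^ 2 = -1 := Complex.I_sq
  have h1 : (z - 1) * ((z + 1) * ((z - Complex.I) * (z + Complex.I))) = 0 := by
    linear_combination h - (z ^ 2 - 1) * hI
  rcases mul_eq_zero.1 h1 with h2 | h2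
  · exact ⟨1, 0, by push_cast; linear_combination h2⟩
  rcases mul_eq_zero.1 h2 with h3 | h3
  · exact ⟨-1, 0, by push_cast; linear_combination h3⟩
  rcases mul_eq_zero.1 h3 with h4 | h4
  · exact ⟨0, 1, by push_cast; linear_combination h4⟩
  · exact ⟨0, -1, by push_cast; linear_combination h4⟩

private theorem z6 (z : ℂ) (h : z ^ 6 = 1) : ∃ x y : ℤ, z = (x : ℂ) + y * om := by
  have ho := om_sq
  have e1 : (z - (om - 1)) * (z + om) = z ^ 2 + z + 1 := by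
    linear_combination -ho
  have e2 : (z - om) * (z - (1 - om)) = z ^ 2 - z + 1 := by
    linear_combination -ho
  have h1 : ((z - 1) * ((z - (om - 1)) * (z + om))) * ((z + 1) * ((z - om) * (z - (1 - om)))) = 0 := by
    rw [e1, e2]
    linear_combination h
  rcases mul_eq_zero.1 h1 with h2 | h2
  · rcases mul_eq_zero.1 h2 with h3 | h3
    · exact ⟨1, 0, by push_cast; linear_combination h3⟩
    rcases mul_eq_zero.1 h3 with h4 | h4
    · exact ⟨-1, 1, by push_cast; linear_combination h4⟩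
    · exact ⟨0, -1, by push_cast; linear_combination h4⟩
  · rcases mul_eq_zero.1 h2 with h3 | h3
    · exact ⟨-1, 0, by push_cast; linear_combination h3⟩
    rcases mul_eq_zero.1 h3 with h4 | h4
    · exact ⟨0, 1, by push_cast; linear_combination h4⟩
    · exact ⟨1, -1, by push_cast; linear_combination h4⟩

theorem cf_one (q : ℕ) [NeZero q] (a : (ZMod q)ˣ) (h : a ^ 4 = 1 ∨ a ^ 6 = 1) (ρ : ℂ) (hne : cf q a ρ ≠ 0) :
    1 ≤ ‖cf q a ρ‖ := by
  rcases h with h | h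
  · exact dc_core q a ρ Complex.I 0 i_norm (fun χ => z4 _ (dc_pow q a 4 h χ)) hne
  · exact dc_core q a ρ om 1 om_norm (fun χ => z6 _ (dc_pow q a 6 h χ)) hne

end Pool.Agent.H50.RQ
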