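import Pool.Agent.H50.RL.Zdefs

/-!
# RIGHTMOST LINE FOR ALL MODULI (MP_1650a8_nt): definitions

`LF`: an entire function `F` with `-F'/F = Σ Λ(n) g(n) n^(-s) - p/(s-1)` on `Re s > 1` (`F = (s-1) ζ(s)`, `p = 1`, or
`F = L(s, χ)`, `χ` primitive and nontrivial, `p = 0`). `L.Z`: all its zeros (trivial ones too), `L.m` the multiplicity.

`ZD` (zero data): the explicit formula for the prime sums `Σ (V n + w n) Ψ(log n)` with main term `κ x`. `V ≥ 0` is the true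
weight (`Λ(n)` for `n = a mod q`, `0` otherwise), `w` the small perturbation (prime powers dividing a power of `q`) which comes from
the use of primitive characters; `ρ i`, `c i`: poles and residues (`c i` complex, nonzero); `P` a set of primes with `V p = log p`,
`w p = 0` and divergent sum of `log p / p`.

`LD` (line data): the poles on the line `Re s = Θ`: `r u = - Σ c_i/ρ_i exp(i γ_i u)`, real valued and absolutely convergent.
`D.d η u = r u - exp(-Θ η) r (u - η)`.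
-/

set_option autoImplicit false

namespace Pool.Agent.H50.RQ

open MeasureTheory Filter Topology
open Pool.Agent.H50.RL (SC Lp Lf Wk Ft)

/-- an L-function as used by the explicit formula -/
structure LF where
  /-- the entire function -/
  F : ℂ → ℂ
  /-- the character values -/
  g : ℕ → ℂ
  /-- `1` if there is a pole, else `0` -/
  p : ℂ
  diff : Differentiable ℂ F
  grow : ∀ a : ℝ, 1 < a → ∃ C : ℝ, ∀ z : ℂ, ‖F z‖ ≤ Real.exp (C * (1 + ‖z‖) ^ a)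
  gle : ∀ n, ‖g n‖ ≤ 1
  ne : ∀ s : ℂ, 1 ≤ s.re → F s ≠ 0
  ld : ∀ s : ℂ, 1 < s.re → -(deriv F s / F s) =
    (∑' n : ℕ, (ArithmeticFunction.vonMangoldt n : ℂ) * g n * (n : ℂ) ^ (-s)) - p / (s - 1)

/-- all zeros -/
abbrev LF.Z (L : LF) : Type := {ρ : ℂ // L.F ρ = 0}

/-- the multiplicity of a zero -/
noncomputable def LF.m (L : LF) (ρ : L.Z) : ℝ := (analyticOrderNatAt L.F (ρ : ℂ) : ℝ)

/-- zero data: an explicit formula -/
structure ZD where
  /-- index type of the poles -/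
  ι : Type
  /-- the poles -/
  ρ : ι → ℂ
  /-- the residues -/
  c : ι → ℂ
  /-- the true weight -/
  V : ℕ → ℝ
  /-- the perturbation -/
  w : ℕ → ℝ
  /-- the coefficient of the main term -/
  κ : ℝ
  /-- good primes -/
  P : Set ℕ
  κpos : 0 < κ
  κle : κ ≤ 1
  inj : Function.Injective ρ
  cne : ∀ i, c i ≠ 0
  rlt : ∀ i, (ρ i).re < 1
  fin : ∀ R : ℝ, {i | ‖ρ i‖ ≤ R}.Finite
  s1 : ∀ b : ℝ, 1 < b → Summable fun i => (1 + ‖c i‖) / ‖ρ i‖ ^ b
  s2 : ∀ σ : ℝ, 1 / 2 < σ → Summable fun i => if σ ≤ (ρ i).re then (1 + ‖c i‖) / ‖ρ i‖ else 0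
  left : ∀ i, (ρ i).re ≤ 0 → ∃ n : ℕ, ρ i = -(n : ℂ)
  conj : ∀ i, ∃ j, ρ j = (starRingEnd ℂ) (ρ i) ∧ c j = (starRingEnd ℂ) (c i)
  sym : ∀ i, 0 < (ρ i).re → ∃ j, ρ j = 1 - (starRingEnd ℂ) (ρ i)
  V0 : ∀ n, 0 ≤ V n
  V1 : ∀ n, V n ≤ ArithmeticFunction.vonMangoldt n
  w1 : ∀ n, |w n| ≤ ArithmeticFunction.vonMangoldt n
  w2 : ∃ C : ℝ, ∀ N : ℕ, 1 ≤ N → ∑ n ∈ Finset.Icc 1 N, |w n| ≤ C * (1 + Real.log N)
  P1 : ∀ p ∈ P, p.Prime ∧ V p = Real.log p ∧ w p = 0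
  P2 : ¬ Summable (P.indicator fun n : ℕ => Real.log n / n)
  explicit : ∃ C0 : ℂ, ∀ Ψ : ℝ → ℝ, ContDiff ℝ 4 Ψ → HasCompactSupport Ψ →
    (Summable fun i => ‖c i‖ * ‖Lp Ψ (ρ i) - (Ψ 0 : ℂ) / (2 - ρ i)‖) ∧
    (((∑' n : ℕ, (V n + w n) * Ψ (Real.log n) : ℝ)) : ℂ) =
      C0 * Ψ 0 + κ * Lp Ψ 1 - ∑' i, c i * (Lp Ψ (ρ i) - (Ψ 0 : ℂ) / (2 - ρ i))

/-- `Σ_{n ≤ exp u} V n - κ exp u` -/
noncomputable def ZD.f (D : ZD) (u : ℝ) : ℝ :=
  (∑ n ∈ Finset.Icc 1 ⌊Real.exp u⌋₊, D.V n) - D.κ * Real.exp u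

/-- the same with the perturbed weights -/
noncomputable def ZD.fw (D : ZD) (u : ℝ) : ℝ :=
  (∑ n ∈ Finset.Icc 1 ⌊Real.exp u⌋₊, (D.V n + D.w n)) - D.κ * Real.exp u

/-- minus the contribution of the poles with real part `≤ 0` to `fw` -/
noncomputable def ZD.T (D : ZD) (u : ℝ) : ℝ :=
  ∑' i, if (D.ρ i).re ≤ 0 then
    (if D.ρ i = 0 then (D.c i).re * u else (D.c i / D.ρ i).re * Real.exp ((D.ρ i).re * u)) else 0

/-- the difference, with the correction by `T` -/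
noncomputable def ZD.e (D : ZD) (η u : ℝ) : ℝ := D.fw u - D.fw (u - η) + (D.T u - D.T (u - η))

/-- minus the sum over the poles on the line `Re s = Θ` -/
noncomputable def ZD.r (D : ZD) (Θ u : ℝ) : ℂ :=
  -∑' i, if (D.ρ i).re = Θ then (D.c i / D.ρ i) * Complex.exp ((((D.ρ i).im * u : ℝ) : ℂ) * Complex.I) else 0

/-- almost periodic data on the line `Re s = Θ` -/
structure LD where
  /-- index type of the poles on the line -/
  ι : Type
  /-- the real part -/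
  Θ : ℝ
  /-- the ordinates -/
  γ : ι → ℝ
  /-- the residues -/
  c : ι → ℂ
  /-- the almost periodic function -/
  r : ℝ → ℝ
  Θpos : 0 < Θ
  inj : Function.Injective γ
  summ : Summable fun i => (1 + ‖c i‖) / ‖(Θ : ℂ) + (γ i : ℂ) * Complex.I‖
  hr : ∀ u : ℝ, ((r u : ℝ) : ℂ) =
    -∑' i, (c i / ((Θ : ℂ) + (γ i : ℂ) * Complex.I)) * Complex.exp (((γ i * u : ℝ) : ℂ) * Complex.I)

/-- the limit of `exp(-Θ y) (f y - f (y - η))` -/
noncomputable def LD.d (D : LD) (η u : ℝ) : ℝ :=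
  D.r u - Real.exp (-(D.Θ * η)) * D.r (u - η)

/-- the sum of the absolute values of the coefficients of `r` -/
noncomputable def LD.S (D : LD) : ℝ :=
  ∑' i, ‖D.c i‖ / ‖(D.Θ : ℂ) + (D.γ i : ℂ) * Complex.I‖

instance instNeZeroConductor {q : ℕ} [NeZero q] (χ : DirichletCharacter ℂ q) : NeZero χ.conductor :=
  ⟨DirichletCharacter.conductor_ne_zero χ⟩

open Classical in
/-- the `L`-function used for the character `χ`: `(s-1) ζ(s)`, or `L(s, χ*)` with `χ*` the primitive character -/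
noncomputable def LL {q : ℕ} [NeZero q] (χ : DirichletCharacter ℂ q) : ℂ → ℂ :=
  if χ = 1 then RL.FF else DirichletCharacter.LFunction χ.primitiveCharacter

/-- the coefficient (residue of `Σ χ(a)⁻¹ L'/L(s, χ*)`) at `ρ` -/
noncomputable def cf (q : ℕ) [NeZero q] (a : (ZMod q)ˣ) (ρ : ℂ) : ℂ :=
  ∑ χ : DirichletCharacter ℂ q, χ (((a⁻¹ : (ZMod q)ˣ)) : ZMod q) * (analyticOrderNatAt (LL χ) ρ : ℂ)

/-- the residue of `H_a(s) = Σ χ(a)⁻¹ L'/L(s, χ)` at `ρ ≠ 1` -/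
noncomputable def res (q : ℕ) [NeZero q] (a : (ZMod q)ˣ) (ρ : ℂ) : ℂ :=
  ∑ χ : DirichletCharacter ℂ q, χ (((a⁻¹ : (ZMod q)ˣ)) : ZMod q) *
    (analyticOrderNatAt (DirichletCharacter.LFunction χ) ρ : ℂ)

end Pool.Agent.H50.RQ
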