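import Pool.Agent.H50.RQ.Df

/-!
RIGHTMOST LINE FOR ALL MODULI: the mollifier for `L(s, χ)` (definitions).
-/

set_option autoImplicit false

namespace Pool.Agent.H50.RQ

open MeasureTheory Filter Topology
open Pool.Agent.H50.RL (SC Lp Lf Wk Ft)

/-- mollifier -/
noncomputable def MoX {N : ℕ} (χ : DirichletCharacter ℂ N) (d T : ℝ) (s : ℂ) : ℂ :=
  ∑ k ∈ Finset.Icc 1 ⌊T ^ (d / 4)⌋₊, ((ArithmeticFunction.moebius k : ℤ) : ℂ) * χ k * (k : ℂ) ^ (-s)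

/-- `L(s, χ) M - 1` -/
noncomputable def GmX {N : ℕ} [NeZero N] (χ : DirichletCharacter ℂ N) (d T : ℝ) (s : ℂ) : ℂ :=
  DirichletCharacter.LFunction χ s * MoX χ d T s - 1

/-- local mean square of `L M - 1` to the right of the critical line -/
noncomputable def HHX {N : ℕ} [NeZero N] (χ : DirichletCharacter ℂ N) (d T t0 : ℝ) : ℝ :=
  ∫ x in (1 / 2 + d / 2)..3, ∫ t in (t0 - ((Real.log T) ^ 2 + 1))..(t0 + ((Real.log T) ^ 2 + 1)),
    ‖GmX χ d T ((x : ℂ) + (t : ℂ) * Complex.I)‖ ^ 2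

end Pool.Agent.H50.RQ
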