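import Pool.Agent.H50.RQ.Ap

/-!
[H50 RQ GP] Ordinates after long gaps.

PROOF. Density: for `ε > 0` there is `T0` with `N(T) := ncard {i | |γ i| ≤ T} ≤ ε T` for `T ≥ T0`: choose a finite set `F` of indices with `Σ_{i ∉ F} 1/‖ρ i‖ ≤ ε/4` (`LD.inv_summ`); `|γ i| ≤ T` gives `‖ρ i‖ ≤ Θ + T`, so
`N(T) ≤ card F + (Θ + T) ε/4` (see `Pool/Agent/H50/RL/Dz.lean`). The rest: copy `Pool/Agent/H50/RL/Gap.lean` (`gaps`, `LD.loc_fin`).
-/

set_option autoImplicit false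

namespace Pool.Agent.H50.RQ

open MeasureTheory Filter Topology
open Pool.Agent.H50.RL (SC Lp Lf Wk Ft)

/-- the density of the ordinates of line data is zero -/
private theorem dz_dens (D : LD) (ε : ℝ) (hε : 0 < ε) :
    ∃ T0 : ℝ, ∀ T : ℝ, T0 ≤ T → ({i : D.ι | |D.γ i| ≤ T}.ncard : ℝ) ≤ ε * T := by
  classical
  obtain ⟨w, hw⟩ : ∃ w : D.ι → ℝ, w = fun i => 1 / ‖D.ρ i‖ := ⟨_, rfl⟩
  have hws : Summable w := by rw [hw]; exact D.inv_summ
  have hw0 : ∀ i, 0 ≤ w i := by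
    intro i
    rw [hw]
    exact div_nonneg zero_le_one (norm_nonneg _)
  obtain ⟨F, hF⟩ := (summable_iff_vanishing_norm.1 hws) (ε / 4) (by positivity)
  refine ⟨max (max 1 D.Θ) (4 * (F.card : ℝ) / ε), fun T hT => ?_⟩
  have hT1 : 1 ≤ T := le_trans (le_trans (le_max_left _ _) (le_max_left _ _)) hT
  have hTΘ : D.Θ ≤ T := le_trans (le_trans (le_max_right _ _) (le_max_left _ _)) hT
  have hTF : 4 * (F.card : ℝ) / ε ≤ T := le_trans (le_max_right _ _) hT
  have hfin : {i : D.ι | |D.γ i| ≤ T}.Finite := D.loc_fin T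
  obtain ⟨S, hS⟩ : ∃ S : Finset D.ι, S = hfin.toFinset := ⟨_, rfl⟩
  have hSm : ∀ i, i ∈ S ↔ |D.γ i| ≤ T := by
    intro i
    rw [hS, Set.Finite.mem_toFinset]
    rfl
  have hcard : {i : D.ι | |D.γ i| ≤ T}.ncard = S.card := by
    rw [hS]
    exact Set.ncard_eq_toFinset_card _ hfin
  rw [hcard]
  -- the part outside `F`
  have h1 : ‖∑ i ∈ S \ F, w i‖ < ε / 4 := hF (S \ F) Finset.sdiff_disjoint
  have h2 : ∑ i ∈ S \ F, w i < ε / 4 := lt_of_le_of_lt (le_abs_self _) h1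
  have h3 : ∀ i ∈ S \ F, 1 / (2 * T) ≤ w i := by
    intro i hi
    have h4 : |D.γ i| ≤ T := (hSm i).1 (Finset.mem_sdiff.1 hi).1
    have h5 : ‖D.ρ i‖ ≤ 2 * T := by
      unfold LD.ρ
      refine le_trans (norm_add_le _ _) ?_
      rw [norm_mul, Complex.norm_I, mul_one, Complex.norm_real, Complex.norm_real, Real.norm_eq_abs,
        Real.norm_eq_abs, abs_of_pos D.Θpos]
      linarith
    have h6 : 0 < ‖D.ρ i‖ := norm_pos_iff.2 (D.ρ_ne i)
    rw [hw]
    show 1 / (2 * T) ≤ 1 / ‖D.ρ i‖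
    exact one_div_le_one_div_of_le h6 h5
  have h8 : ((S \ F).card : ℝ) * (1 / (2 * T)) ≤ ∑ i ∈ S \ F, w i := by
    have := Finset.card_nsmul_le_sum (S \ F) w (1 / (2 * T)) h3
    rwa [nsmul_eq_mul] at this
  have h9 : ((S \ F).card : ℝ) ≤ ε / 2 * T := by
    have h10 : ((S \ F).card : ℝ) * (1 / (2 * T)) < ε / 4 := lt_of_le_of_lt h8 h2
    rw [mul_one_div, div_lt_iff₀ (by linarith)] at h10
    linarith
  have h11 : (S.card : ℝ) ≤ ((S \ F).card : ℝ) + (F.card : ℝ) := by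
    have := Finset.card_le_card_sdiff_add_card (s := S) (t := F)
    exact_mod_cast this
  have h12 : (F.card : ℝ) ≤ ε / 4 * T := by
    rw [div_le_iff₀ hε] at hTF
    linarith
  have h13 : 0 < ε * T := mul_pos hε (by linarith)
  linarith

private theorem cnt (D : LD) {R L : ℝ} (hR : 0 < R) (hL : 0 ≤ L)
    (H : ∀ i : D.ι, L ≤ D.γ i → ∃ j : D.ι, D.γ i - R < D.γ j ∧ D.γ j < D.γ i) :
    ∀ n : ℕ, ∀ i : D.ι, L + n * R ≤ D.γ i → n + 1 ≤ ({j : D.ι | |D.γ j| ≤ D.γ i}).ncard := by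
  intro n
  induction n with
  | zero =>
    intro i hi
    have h0 : 0 ≤ D.γ i := by
      push_cast at hi
      linarith
    have h1 : i ∈ {j : D.ι | |D.γ j| ≤ D.γ i} := by
      simp only [Set.mem_ofPred_eq]
      rw [abs_of_nonneg h0]
    have h2 := (Set.ncard_pos (D.loc_fin (D.γ i))).mpr ⟨i, h1⟩
    omega
  | succ n ih =>
    intro i hi
    push_cast at hi
    have hnR : 0 ≤ (n : ℝ) * R := by positivity
    obtain ⟨j, hj1, hj2⟩ := H i (by nlinarith)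
    have h1 := ih j (by linarith)
    have h0 : 0 ≤ D.γ i := by nlinarith
    have h2 : {l : D.ι | |D.γ l| ≤ D.γ j} ⊂ {l : D.ι | |D.γ l| ≤ D.γ i} := by
      rw [Set.ssubset_iff_of_subset]
      · refine ⟨i, ?_, ?_⟩
        · simp only [Set.mem_ofPred_eq]
          rw [abs_of_nonneg h0]
        · simp only [Set.mem_ofPred_eq, not_le]
          rw [abs_of_nonneg h0]
          exact hj2
      · intro l hl
        simp only [Set.mem_ofPred_eq] at hl ⊢
        linarith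
    have h3 := Set.ncard_lt_ncard h2 (D.loc_fin (D.γ i))
    omega

theorem LD.gaps (D : LD) (hinf : {i : D.ι | 0 < D.γ i}.Infinite) (R L : ℝ) :
    ∃ i : D.ι, L ≤ D.γ i ∧ ∀ j : D.ι, ¬ (D.γ i - R < D.γ j ∧ D.γ j < D.γ i) := by
  have hdens := dz_dens D
  by_contra hcon
  push Not at hcon
  set R' : ℝ := max R 1 with hR'
  set L' : ℝ := max L 0 with hL'
  have hR0 : 0 < R' := lt_of_lt_of_le one_pos (le_max_right _ _)
  have hL0 : 0 ≤ L' := le_max_right _ _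
  have H : ∀ i : D.ι, L' ≤ D.γ i → ∃ j : D.ι, D.γ i - R' < D.γ j ∧ D.γ j < D.γ i := by
    intro i hi
    obtain ⟨j, hj1, hj2⟩ := hcon i (le_trans (le_max_left _ _) hi)
    refine ⟨j, ?_, hj2⟩
    have : R ≤ R' := le_max_left _ _
    linarith
  obtain ⟨T0, hT0⟩ := hdens (1 / (2 * R')) (by positivity)
  obtain ⟨i, hi⟩ : ∃ i : D.ι, 2 * L' + |T0| + 1 < D.γ i := by
    by_contra hno
    push Not at hno
    refine hinf ((D.loc_fin (2 * L' + |T0| + 1)).subset ?_)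
    intro i hi
    simp only [Set.mem_ofPred_eq] at hi ⊢
    rw [abs_of_pos hi]
    exact hno i
  have hT := abs_nonneg T0
  have hT' := le_abs_self T0
  have h1 := hT0 (D.γ i) (by linarith)
  have hge : 0 ≤ (D.γ i - L') / R' := div_nonneg (by linarith) hR0.le
  set n : ℕ := ⌊(D.γ i - L') / R'⌋₊ with hn
  have h2 : (n : ℝ) ≤ (D.γ i - L') / R' := Nat.floor_le hge
  have h3 : (D.γ i - L') / R' < n + 1 := Nat.lt_floor_add_one _
  have h4 := cnt D hR0 hL0 H n i (by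
    rw [le_div_iff₀ hR0] at h2
    linarith)
  have h5 : ((n : ℝ) + 1) ≤ (({j : D.ι | |D.γ j| ≤ D.γ i}).ncard : ℝ) := by exact_mod_cast h4
  have h6 : (D.γ i - L') / R' < 1 / (2 * R') * D.γ i := by linarith
  rw [div_lt_iff₀ hR0] at h6
  have h7 : 1 / (2 * R') * D.γ i * R' = D.γ i / 2 := by
    field_simp
  rw [h7] at h6
  linarith

end Pool.Agent.H50.RQ
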