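import Mathlib

/-!
[H50 RQ IN] INNOVATION LEMMA: a function `b` dominated by a positive definite form cannot be large at infinitely many points preceded by longer and longer gaps.

PROOF. On `E = ℝ →₀ ℂ` let `B v w = Σ_{τ,τ'} v_τ conj(w_τ') a(τ - τ')` (sesquilinear; `B w v = conj (B v w)` by `ha`), `Q v = Re B v v`, `ℓ v = Σ v_τ b τ`, so `hpos`: `‖ℓ v‖^2 ≤ C Q v`. `C > 0` may be assumed: if `C ≤ 0`... choose `v = single γ 1` with
`‖b γ‖ ≥ ε` (the set in `h` is nonempty) : `ε^2 ≤ C Q v` shows `C ≠ 0`; if `C < 0` replace `a` by `-a`, `C` by `-C`. So `Q ≥ 0`. `U_s v = v.mapDomain (· + s)` (or `embDomain`): `B (U_s v) (U_s w) = B v w`.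
`d = inf {Q v | v 0 = 1, v τ = 0 for τ > 0}` (`sInf` of a nonempty set bounded below by `0`). Let `0 < η ≤ 1`; choose `F` in the set with `Q F ≤ d + η`.
(1) For `t > 0` and `λ : ℂ`, `F + λ U_{-t} F` is in the set, so `d ≤ Q F + 2 Re(conj λ B F (U_{-t} F)) + |λ|^2 Q F`; with `λ = -x z/|z|`, `z = B F (U_{-t}F)`, `x > 0` (if `z ≠ 0`): `0 ≤ η - 2 x |z| + x^2 (d + 1)`; with `x = √η`:
`|z| ≤ √η (d + 2)/2`. So `|B (U_s F) (U_{s'} F)| ≤ √η (d+2)` for all `s ≠ s'` (shift invariance, hermitian symmetry).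
(2) `F` is supported in `[-R, 0]` for some `R ≥ 0` (finite support). Choose `N` distinct points `γ_1, ..., γ_N` from the infinite set of `h` for this `R`. `ℓ (U_γ F) = Σ_s F_s b(γ + s) = F_0 b(γ) = b γ` (for `s ∈ [-R, 0)`, `b(γ + s) = 0`).
`v = Σ_j w_j U_{γ_j} F`, `w_j = conj(b γ_j)/|b γ_j|`: `ℓ v = Σ |b γ_j| ≥ N ε`; `Q v ≤ Σ_{j,k} |B (U_{γ_j}F) (U_{γ_k}F)| ≤ N (d + 1) + N^2 √η (d + 2)`.
So `N^2 ε^2 ≤ C (N (d+1) + N^2 √η (d+2))` for all `N`. Take first `η` with `C √η (d + 2) ≤ ε^2/2`, then `N > 2 C (d+1)/ε^2`: contradiction.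
-/

set_option autoImplicit false

namespace Pool.Agent.H50.RQ

open MeasureTheory Filter Topology

/-- the form `B v w = Σ v_τ conj(w_τ') a(τ - τ')` -/
private noncomputable def bf (a : ℝ → ℂ) (v w : ℝ →₀ ℂ) : ℂ :=
  Finsupp.linearCombination ℂ (fun τ => w.sum fun τ' y => (starRingEnd ℂ) y * a (τ - τ')) v

private theorem bf_eq (a : ℝ → ℂ) (v w : ℝ →₀ ℂ) :
    bf a v w = v.sum fun τ x => w.sum fun τ' y => x * (starRingEnd ℂ) y * a (τ - τ') := by
  unfold bf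
  rw [Finsupp.linearCombination_apply]
  refine Finsupp.sum_congr fun τ _ => ?_
  rw [smul_eq_mul, Finsupp.mul_sum]
  refine Finsupp.sum_congr fun τ' _ => ?_
  ring

private theorem bf_add (a : ℝ → ℂ) (v v' w : ℝ →₀ ℂ) : bf a (v + v') w = bf a v w + bf a v' w := by
  unfold bf
  rw [map_add]

private theorem bf_smul (a : ℝ → ℂ) (c : ℂ) (v w : ℝ →₀ ℂ) : bf a (c • v) w = c * bf a v w := by
  unfold bf
  rw [map_smul, smul_eq_mul]

private theorem bf_sum (a : ℝ → ℂ) (T : Finset ℝ) (f : ℝ → ℝ →₀ ℂ) (w : ℝ →₀ ℂ) :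
    bf a (∑ γ ∈ T, f γ) w = ∑ γ ∈ T, bf a (f γ) w := by
  unfold bf
  rw [map_sum]

private theorem bf_symm {a : ℝ → ℂ} (ha : ∀ σ, a (-σ) = (starRingEnd ℂ) (a σ)) (v w : ℝ →₀ ℂ) :
    bf a w v = (starRingEnd ℂ) (bf a v w) := by
  rw [bf_eq, bf_eq, Finsupp.sum_comm]
  unfold Finsupp.sum
  rw [map_sum]
  refine Finset.sum_congr rfl fun τ _ => ?_
  rw [map_sum]
  refine Finset.sum_congr rfl fun τ' _ => ?_
  rw [map_mul, map_mul, Complex.conj_conj, ← ha, neg_sub]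
  ring

/-- the shift -/
private noncomputable def sh (s : ℝ) (v : ℝ →₀ ℂ) : ℝ →₀ ℂ := v.mapDomain fun τ => τ + s

private theorem sh_inj (s : ℝ) : Function.Injective fun τ : ℝ => τ + s := fun _ _ h => add_right_cancel h

private theorem sh_apply (s : ℝ) (v : ℝ →₀ ℂ) (τ : ℝ) : sh s v τ = v (τ - s) := by
  have h := Finsupp.mapDomain_apply (sh_inj s) v (τ - s)
  simp only [sub_add_cancel] at h
  exact h

private theorem bf_sh (a : ℝ → ℂ) (s : ℝ) (v w : ℝ →₀ ℂ) : bf a (sh s v) (sh s w) = bf a v w := by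
  rw [bf_eq, bf_eq]
  unfold sh
  rw [Finsupp.sum_mapDomain_index_inj (sh_inj s)]
  refine Finsupp.sum_congr fun τ _ => ?_
  rw [Finsupp.sum_mapDomain_index_inj (sh_inj s)]
  refine Finsupp.sum_congr fun τ' _ => ?_
  rw [add_sub_add_right_eq_sub]

private theorem bf_self {a : ℝ → ℂ} (ha : ∀ σ, a (-σ) = (starRingEnd ℂ) (a σ)) (v : ℝ →₀ ℂ) :
    bf a v v = ((bf a v v).re : ℂ) := by
  have h := bf_symm ha v v
  exact (Complex.conj_eq_iff_re.1 h.symm).symm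

private theorem aux1 {a : ℝ → ℂ} (ha : ∀ σ, a (-σ) = (starRingEnd ℂ) (a σ)) (F G : ℝ →₀ ℂ)
    (hG : bf a G G = bf a F F) (l : ℂ) :
    (bf a (F + l • G) (F + l • G)).re =
      (bf a F F).re * (1 + ‖l‖ ^ 2) + 2 * ((starRingEnd ℂ) l * bf a F G).re := by
  have h1 : bf a F (F + l • G) = bf a F F + (starRingEnd ℂ) l * bf a F G := by
    rw [bf_symm ha (F + l • G) F, bf_add, bf_smul, map_add, map_mul, ← bf_symm ha F F, ← bf_symm ha G F]
  have h2 : bf a G (F + l • G) = (starRingEnd ℂ) (bf a F G) + (starRingEnd ℂ) l * bf a F F := by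
    rw [bf_symm ha (F + l • G) G, bf_add, bf_smul, map_add, map_mul, ← bf_symm ha G G, hG]
  rw [bf_add, bf_smul, h1, h2, bf_self ha F]
  have h3 : ‖l‖ ^ 2 = l.re * l.re + l.im * l.im := by
    rw [← Complex.normSq_eq_norm_sq, Complex.normSq_apply]
  rw [h3]
  simp only [Complex.add_re, Complex.mul_re, Complex.ofReal_re, Complex.ofReal_im, Complex.conj_re,
    Complex.conj_im, Complex.add_im, Complex.mul_im]
  ring

private theorem aux2 {a : ℝ → ℂ} (ha : ∀ σ, a (-σ) = (starRingEnd ℂ) (a σ)) {d η : ℝ} (hη : 0 < η)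
    (hη1 : η ≤ 1) (F : ℝ →₀ ℂ) (hF0 : F 0 = 1) (hF : ∀ τ, 0 < τ → F τ = 0)
    (hd0 : 0 ≤ d) (hFd : (bf a F F).re ≤ d + η)
    (hd : ∀ v : ℝ →₀ ℂ, v 0 = 1 → (∀ τ, 0 < τ → v τ = 0) → d ≤ (bf a v v).re) (t : ℝ) (ht : 0 < t) :
    ‖bf a F (sh (-t) F)‖ ≤ √η * (d + 2) := by
  have hx0 : 0 < √η := Real.sqrt_pos.2 hη
  have hx2 : √η * √η = η := Real.mul_self_sqrt hη.le
  set z := bf a F (sh (-t) F) with hz
  rcases eq_or_ne z 0 with h0 | h0
  · rw [h0, norm_zero]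
    positivity
  have hz0 : 0 < ‖z‖ := norm_pos_iff.2 h0
  set l : ℂ := -((√η / ‖z‖ : ℝ) : ℂ) * z with hl
  have hln : ‖l‖ ^ 2 = η := by
    rw [hl, norm_mul, norm_neg, Complex.norm_real, Real.norm_eq_abs, abs_of_pos (div_pos hx0 hz0),
      div_mul_cancel₀ _ (ne_of_gt hz0), sq, hx2]
  have hlz : ((starRingEnd ℂ) l * z).re = -(√η * ‖z‖) := by
    have h1 : (starRingEnd ℂ) l * z = ((-(√η / ‖z‖ * ‖z‖ ^ 2) : ℝ) : ℂ) := by
      rw [hl, map_mul, map_neg, Complex.conj_ofReal, mul_assoc, ← Complex.normSq_eq_conj_mul_self,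
        Complex.normSq_eq_norm_sq]
      push_cast
      ring
    rw [h1, Complex.ofReal_re]
    field_simp
  have hK := hd (F + l • sh (-t) F) (by
    rw [Finsupp.add_apply, Finsupp.smul_apply, sh_apply, hF0, hF (0 - -t) (by linarith), smul_zero, add_zero])
    (fun τ hτ => by
      rw [Finsupp.add_apply, Finsupp.smul_apply, sh_apply, hF τ hτ, hF (τ - -t) (by linarith), smul_zero,
        add_zero])
  rw [aux1 ha F (sh (-t) F) (bf_sh a (-t) F F) l, ← hz, hlz, hln] at hK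
  have h2 : 2 * (√η * ‖z‖) ≤ √η * (√η * (d + 2)) := by
    have h3 : √η * (√η * (d + 2)) = η * (d + 2) := by
      rw [← mul_assoc, hx2]
    rw [h3]
    nlinarith
  have h4 : 2 * ‖z‖ ≤ √η * (d + 2) := by
    have h5 : √η * (2 * ‖z‖) ≤ √η * (√η * (d + 2)) := by linarith
    exact le_of_mul_le_mul_left h5 hx0
  linarith

private theorem aux3 {a : ℝ → ℂ} (ha : ∀ σ, a (-σ) = (starRingEnd ℂ) (a σ)) (F : ℝ →₀ ℂ) (c e : ℝ)
    (hc : (bf a F F).re ≤ c) (h0 : 0 ≤ (bf a F F).re) (he : 0 ≤ e)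
    (hz : ∀ t : ℝ, 0 < t → ‖bf a F (sh (-t) F)‖ ≤ e) (T : Finset ℝ) (w : ℝ → ℂ) (hw : ∀ γ ∈ T, ‖w γ‖ ≤ 1) :
    (bf a (∑ γ ∈ T, w γ • sh γ F) (∑ γ ∈ T, w γ • sh γ F)).re ≤ T.card * c + (T.card : ℝ) ^ 2 * e := by
  have hsh : ∀ s s' : ℝ, bf a (sh s F) (sh s' F) = bf a F (sh (s' - s) F) := by
    intro s s'
    have h1 : sh s (sh (s' - s) F) = sh s' F := by
      ext τ
      rw [sh_apply, sh_apply, sh_apply]
      congr 1
      ring
    rw [← h1, bf_sh]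
  have hoff : ∀ s s' : ℝ, s ≠ s' → ‖bf a (sh s F) (sh s' F)‖ ≤ e := by
    intro s s' hne
    rcases lt_or_gt_of_ne hne with h | h
    · rw [bf_symm ha (sh s' F) (sh s F), RCLike.norm_conj, hsh]
      have := hz (s' - s) (by linarith)
      rwa [neg_sub] at this
    · rw [hsh]
      have := hz (s - s') (by linarith)
      rwa [neg_sub] at this
  have hdiag : ∀ s : ℝ, ‖bf a (sh s F) (sh s F)‖ ≤ c := by
    intro s
    rw [bf_sh, bf_self ha F, Complex.norm_real, Real.norm_eq_abs, abs_of_nonneg h0]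
    exact hc
  have hc0 : 0 ≤ c := h0.trans hc
  have hexp : bf a (∑ γ ∈ T, w γ • sh γ F) (∑ γ ∈ T, w γ • sh γ F) =
      ∑ γ ∈ T, ∑ γ' ∈ T, w γ * ((starRingEnd ℂ) (w γ') * bf a (sh γ F) (sh γ' F)) := by
    rw [bf_sum]
    refine Finset.sum_congr rfl fun γ _ => ?_
    rw [bf_smul, ← Finset.mul_sum]
    congr 1
    rw [bf_symm ha _ (sh γ F), bf_sum, map_sum]
    refine Finset.sum_congr rfl fun γ' _ => ?_
    rw [bf_smul, map_mul, ← bf_symm ha]
  refine (Complex.re_le_norm _).trans ?_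
  rw [hexp]
  refine (norm_sum_le _ _).trans ?_
  have hrow : ∀ γ ∈ T, ‖∑ γ' ∈ T, w γ * ((starRingEnd ℂ) (w γ') * bf a (sh γ F) (sh γ' F))‖ ≤
      c + T.card * e := by
    intro γ hγ
    refine (norm_sum_le _ _).trans ?_
    have hterm : ∀ γ' ∈ T, ‖w γ * ((starRingEnd ℂ) (w γ') * bf a (sh γ F) (sh γ' F))‖ ≤
        (if γ' = γ then c else 0) + e := by
      intro γ' hγ'
      rw [norm_mul, norm_mul, RCLike.norm_conj]
      have h1 : ‖w γ‖ * (‖w γ'‖ * ‖bf a (sh γ F) (sh γ' F)‖) ≤ ‖bf a (sh γ F) (sh γ' F)‖ := by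
        have h2 := hw γ hγ
        have h3 := hw γ' hγ'
        have h4 := norm_nonneg (bf a (sh γ F) (sh γ' F))
        have h5 : ‖w γ'‖ * ‖bf a (sh γ F) (sh γ' F)‖ ≤ ‖bf a (sh γ F) (sh γ' F)‖ :=
          mul_le_of_le_one_left h4 h3
        exact (mul_le_of_le_one_left (mul_nonneg (norm_nonneg _) h4) h2).trans h5
      refine h1.trans ?_
      split_ifs with h
      · rw [h]
        exact (hdiag γ).trans (by linarith)
      · rw [zero_add]
        exact hoff γ γ' (fun h' => h h'.symm)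
    refine (Finset.sum_le_sum hterm).trans ?_
    rw [Finset.sum_add_distrib, Finset.sum_ite_eq' T γ, if_pos hγ, Finset.sum_const, nsmul_eq_mul]
  refine (Finset.sum_le_sum hrow).trans ?_
  rw [Finset.sum_const, nsmul_eq_mul]
  apply le_of_eq
  ring

private theorem innov_pos (a b : ℝ → ℂ) (C : ℝ) (hC : 0 < C) (ha : ∀ σ, a (-σ) = (starRingEnd ℂ) (a σ))
    (hpos : ∀ v : ℝ →₀ ℂ, ‖v.sum fun τ x => x * b τ‖ ^ 2 ≤ C * (bf a v v).re)
    (ε : ℝ) (hε : 0 < ε)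
    (h : ∀ R : ℝ, {γ : ℝ | ε ≤ ‖b γ‖ ∧ ∀ t : ℝ, 0 < t → t ≤ R → b (γ - t) = 0}.Infinite) : False := by
  have hQ0 : ∀ v : ℝ →₀ ℂ, 0 ≤ (bf a v v).re := by
    intro v
    by_contra hneg
    push Not at hneg
    have h1 := hpos v
    have h2 := sq_nonneg ‖v.sum fun τ x => x * b τ‖
    nlinarith
  set K : Set (ℝ →₀ ℂ) := {v | v 0 = 1 ∧ ∀ τ, 0 < τ → v τ = 0} with hK
  set Qs : Set ℝ := (fun v : ℝ →₀ ℂ => (bf a v v).re) '' K with hQs
  have hne : Qs.Nonempty := by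
    refine ⟨_, Finsupp.single 0 1, ⟨?_, ?_⟩, rfl⟩
    · exact Finsupp.single_eq_same
    · intro τ hτ
      exact Finsupp.single_eq_of_ne (ne_of_gt hτ)
  have hbdd : BddBelow Qs := ⟨0, by
    rintro _ ⟨v, _, rfl⟩
    exact hQ0 v⟩
  set d := sInf Qs with hddef
  have hd : ∀ v : ℝ →₀ ℂ, v 0 = 1 → (∀ τ, 0 < τ → v τ = 0) → d ≤ (bf a v v).re := by
    intro v h1 h2
    exact csInf_le hbdd ⟨v, ⟨h1, h2⟩, rfl⟩
  have hd0 : 0 ≤ d := by
    refine le_csInf hne ?_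
    rintro _ ⟨v, _, rfl⟩
    exact hQ0 v
  set x : ℝ := min 1 (ε ^ 2 / (2 * C * (d + 2))) with hx
  have hx0 : 0 < x := by
    refine lt_min one_pos ?_
    positivity
  have hx1 : x ≤ 1 := min_le_left _ _
  have hxe : C * (x * (d + 2)) ≤ ε ^ 2 / 2 := by
    have h1 : x ≤ ε ^ 2 / (2 * C * (d + 2)) := min_le_right _ _
    have h2 : 0 < 2 * C * (d + 2) := by positivity
    rw [le_div_iff₀ h2] at h1
    linarith
  have hη : 0 < x ^ 2 := by positivity
  have hη1 : x ^ 2 ≤ 1 := by nlinarith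
  have hsq : √(x ^ 2) = x := Real.sqrt_sq hx0.le
  obtain ⟨_, ⟨F, ⟨hF0, hF⟩, rfl⟩, hFlt⟩ := exists_lt_of_csInf_lt hne (show sInf Qs < d + x ^ 2 by
    rw [← hddef]
    linarith)
  have hFd : (bf a F F).re ≤ d + x ^ 2 := le_of_lt hFlt
  have hz : ∀ t : ℝ, 0 < t → ‖bf a F (sh (-t) F)‖ ≤ x * (d + 2) := by
    intro t ht
    have := aux2 ha hη hη1 F hF0 hF hd0 hFd hd t ht
    rwa [hsq] at this
  obtain ⟨m, hm⟩ := F.support.finite_toSet.bddBelow
  have hR : ∀ s : ℝ, F s ≠ 0 → -|m| ≤ s := by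
    intro s hs
    have h1 : m ≤ s := hm (Finset.mem_coe.2 (Finsupp.mem_support_iff.2 hs))
    have h2 := neg_abs_le m
    linarith
  obtain ⟨N, hN⟩ := exists_nat_gt (2 * C * (d + 1) / ε ^ 2)
  obtain ⟨T, hT, hcard⟩ := (h |m|).exists_subset_card_eq N
  have hell : ∀ γ ∈ T, ((sh γ F).sum fun τ y => y * b τ) = b γ := by
    intro γ hγ
    unfold sh
    rw [Finsupp.sum_mapDomain_index_inj (sh_inj γ)]
    unfold Finsupp.sum
    rw [Finset.sum_eq_single 0]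
    · show F 0 * b (0 + γ) = b γ
      rw [hF0, one_mul, zero_add]
    · intro s hs hs0
      show F s * b (s + γ) = 0
      have hs1 : F s ≠ 0 := Finsupp.mem_support_iff.1 hs
      have hs2 : ¬ 0 < s := fun h' => hs1 (hF s h')
      have hs3 : 0 < -s := by
        rcases lt_trichotomy s 0 with h' | h' | h'
        · linarith
        · exact absurd h' hs0
        · exact absurd h' hs2
      have hs4 : -s ≤ |m| := by
        have := hR s hs1
        linarith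
      have h5 := (hT (Finset.mem_coe.2 hγ)).2 (-s) hs3 hs4
      have h6 : s + γ = γ - -s := by ring
      rw [h6, h5, mul_zero]
    · intro h0
      rw [Finsupp.mem_support_iff, hF0] at h0
      exact absurd one_ne_zero h0
  set w : ℝ → ℂ := fun γ => (starRingEnd ℂ) (b γ) / (‖b γ‖ : ℂ) with hwdef
  have hbpos : ∀ γ ∈ T, ε ≤ ‖b γ‖ := fun γ hγ => (hT (Finset.mem_coe.2 hγ)).1
  have hw : ∀ γ ∈ T, ‖w γ‖ ≤ 1 := by
    intro γ hγ
    rw [hwdef]
    simp only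
    rw [norm_div, RCLike.norm_conj, Complex.norm_real, Real.norm_eq_abs, abs_of_nonneg (norm_nonneg _)]
    exact div_self_le_one _
  have hQv := aux3 ha F (d + 1) (x * (d + 2)) (hFd.trans (by linarith)) (hQ0 F) (by positivity) hz T w hw
  set v := ∑ γ ∈ T, w γ • sh γ F with hv
  have hlv : (v.sum fun τ y => y * b τ) = ((∑ γ ∈ T, ‖b γ‖ : ℝ) : ℂ) := by
    have h1 : ∀ u : ℝ →₀ ℂ, (u.sum fun τ y => y * b τ) = Finsupp.linearCombination ℂ b u := by
      intro u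
      rw [Finsupp.linearCombination_apply]
      rfl
    rw [h1, hv, map_sum]
    push_cast
    refine Finset.sum_congr rfl fun γ hγ => ?_
    rw [map_smul, ← h1, hell γ hγ, smul_eq_mul]
    have h2 : (‖b γ‖ : ℂ) ≠ 0 := by
      have := hε.trans_le (hbpos γ hγ)
      exact_mod_cast ne_of_gt this
    rw [hwdef]
    simp only
    rw [div_mul_eq_mul_div, ← Complex.normSq_eq_conj_mul_self, Complex.normSq_eq_norm_sq]
    push_cast
    field_simp
  have hnorm : (N : ℝ) * ε ≤ ‖v.sum fun τ y => y * b τ‖ := by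
    rw [hlv, Complex.norm_real, Real.norm_eq_abs]
    refine le_trans ?_ (le_abs_self _)
    rw [← hcard, ← nsmul_eq_mul]
    exact Finset.card_nsmul_le_sum T _ ε hbpos
  have hmain := hpos v
  have hNpos : 0 ≤ (N : ℝ) := Nat.cast_nonneg N
  have h1 : ((N : ℝ) * ε) ^ 2 ≤ ‖v.sum fun τ y => y * b τ‖ ^ 2 := by
    have h0 : 0 ≤ (N : ℝ) * ε := by positivity
    exact pow_le_pow_left₀ h0 hnorm 2
  rw [hcard] at hQv
  have h2 : C * (bf a v v).re ≤ C * ((N : ℝ) * (d + 1) + (N : ℝ) ^ 2 * (x * (d + 2))) :=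
    mul_le_mul_of_nonneg_left hQv hC.le
  have h3 : (N : ℝ) ^ 2 * (C * (x * (d + 2))) ≤ (N : ℝ) ^ 2 * (ε ^ 2 / 2) :=
    mul_le_mul_of_nonneg_left hxe (by positivity)
  have hN2 : 2 * C * (d + 1) < N * ε ^ 2 := by
    rwa [div_lt_iff₀ (by positivity)] at hN
  have hNp : 0 < (N : ℝ) := by
    have h4 : 0 ≤ 2 * C * (d + 1) := by positivity
    have h5 : 0 < (N : ℝ) * ε ^ 2 := lt_of_le_of_lt h4 hN2
    by_contra h6
    push Not at h6
    have h7 : (N : ℝ) = 0 := le_antisymm h6 hNpos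
    rw [h7, zero_mul] at h5
    exact lt_irrefl _ h5
  have h8 : (N : ℝ) * (2 * C * (d + 1)) < N * (N * ε ^ 2) := mul_lt_mul_of_pos_left hN2 hNp
  nlinarith

theorem innov (a b : ℝ → ℂ) (C : ℝ) (ha : ∀ σ, a (-σ) = (starRingEnd ℂ) (a σ))
    (hpos : ∀ v : ℝ →₀ ℂ, ‖v.sum fun τ x => x * b τ‖ ^ 2 ≤
      C * (v.sum fun τ x => v.sum fun τ' y => x * (starRingEnd ℂ) y * a (τ - τ')).re)
    (ε : ℝ) (hε : 0 < ε)
    (h : ∀ R : ℝ, {γ : ℝ | ε ≤ ‖b γ‖ ∧ ∀ t : ℝ, 0 < t → t ≤ R → b (γ - t) = 0}.Infinite) : False := by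
  have hpos' : ∀ v : ℝ →₀ ℂ, ‖v.sum fun τ x => x * b τ‖ ^ 2 ≤ C * (bf a v v).re := by
    intro v
    rw [bf_eq]
    exact hpos v
  rcases lt_trichotomy C 0 with hC | hC | hC
  · refine innov_pos (fun σ => -a σ) b (-C) (by linarith) ?_ ?_ ε hε h
    · intro σ
      show -a (-σ) = (starRingEnd ℂ) (-a σ)
      rw [ha, map_neg]
    · intro v
      refine (hpos' v).trans (le_of_eq ?_)
      have h1 : bf (fun σ => -a σ) v v = -bf a v v := by
        rw [bf_eq, bf_eq]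
        unfold Finsupp.sum
        rw [← Finset.sum_neg_distrib]
        refine Finset.sum_congr rfl fun τ _ => ?_
        rw [← Finset.sum_neg_distrib]
        refine Finset.sum_congr rfl fun τ' _ => ?_
        ring
      rw [h1, Complex.neg_re]
      ring
  · obtain ⟨γ, hγ⟩ := (h 0).nonempty
    have h1 := hpos' (Finsupp.single γ 1)
    rw [hC, zero_mul, Finsupp.sum_single_index (zero_mul _), one_mul] at h1
    have h2 : 0 < ‖b γ‖ := hε.trans_le hγ.1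
    have h3 : 0 < ‖b γ‖ ^ 2 := by positivity
    linarith
  · exact innov_pos a b C hC ha hpos' ε hε h

end Pool.Agent.H50.RQ
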