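import Pool.Agent.H50.RQ.Df

/-!
[H50 RQ MV] Mean values of absolutely convergent almost periodic sums.

PROOF. For `k ≥ 1`, termwise integration (`hasSum_integral_of_summable_integral_norm` / `intervalIntegral.hasSum_integral_of_summable_norm`; norms `‖c i‖`, continuous terms):
`(1/k) ∫_0^k Σ c_i e^{i(γ_i - τ)u} du = Σ c_i m_k(γ_i - τ)`, `m_k(δ) = (1/k) ∫_0^k e^{iδu} du`. `m_k(0) = 1`, `|m_k(δ)| ≤ 1`, and for `δ ≠ 0` `|m_k(δ)| ≤ 2/(k |δ|) → 0` (`integral_exp_mul_complex`).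
`tendsto_tsum_of_dominated_convergence` with bound `‖c i‖`.
-/

set_option autoImplicit false

namespace Pool.Agent.H50.RQ

open MeasureTheory Filter Topology
open Pool.Agent.H50.RL (SC Lp Lf Wk Ft)

private lemma mv_int_zero (k : ℕ) (hk : k ≠ 0) :
    (1 / (k : ℂ)) * ∫ u in (0 : ℝ)..(k : ℝ), Complex.exp ((((0 : ℝ) * u : ℝ) : ℂ) * Complex.I) = 1 := by
  have hk' : (k : ℂ) ≠ 0 := Nat.cast_ne_zero.mpr hk
  simp [hk']

private lemma mv_norm_exp (δ u : ℝ) : ‖Complex.exp (((δ * u : ℝ) : ℂ) * Complex.I)‖ = 1 :=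
  Complex.norm_exp_ofReal_mul_I _

private lemma mv_bound (k : ℕ) (δ : ℝ) :
    ‖(1 / (k : ℂ)) * ∫ u in (0 : ℝ)..(k : ℝ), Complex.exp (((δ * u : ℝ) : ℂ) * Complex.I)‖ ≤ 1 := by
  rcases Nat.eq_zero_or_pos k with hk | hk
  · subst hk
    simp
  · have hk' : (0 : ℝ) < k := by exact_mod_cast hk
    have h1 : ‖∫ u in (0 : ℝ)..(k : ℝ), Complex.exp (((δ * u : ℝ) : ℂ) * Complex.I)‖ ≤ 1 * |(k : ℝ) - 0| :=
      intervalIntegral.norm_integral_le_of_norm_le_const fun x _ => (mv_norm_exp δ x).le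
    rw [sub_zero, abs_of_pos hk', one_mul] at h1
    rw [norm_mul, norm_div, norm_one, Complex.norm_natCast, one_div]
    calc (k : ℝ)⁻¹ * ‖∫ u in (0 : ℝ)..(k : ℝ), Complex.exp (((δ * u : ℝ) : ℂ) * Complex.I)‖
        ≤ (k : ℝ)⁻¹ * k := mul_le_mul_of_nonneg_left h1 (inv_nonneg.mpr hk'.le)
      _ = 1 := inv_mul_cancel₀ hk'.ne'

private lemma mv_tendsto (δ : ℝ) (hδ : δ ≠ 0) :
    Tendsto (fun k : ℕ => (1 / (k : ℂ)) * ∫ u in (0 : ℝ)..(k : ℝ), Complex.exp (((δ * u : ℝ) : ℂ) * Complex.I))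
      atTop (𝓝 0) := by
  have hc : ((δ : ℂ) * Complex.I) ≠ 0 :=
    mul_ne_zero (Complex.ofReal_ne_zero.mpr hδ) Complex.I_ne_zero
  have h1 : ∀ k : ℕ, ∫ u in (0 : ℝ)..(k : ℝ), Complex.exp (((δ * u : ℝ) : ℂ) * Complex.I)
      = (Complex.exp (((δ : ℂ) * Complex.I) * ((k : ℝ) : ℂ)) - Complex.exp (((δ : ℂ) * Complex.I) * ((0 : ℝ) : ℂ))) / ((δ : ℂ) * Complex.I) := by
    intro k
    rw [← integral_exp_mul_complex hc]
    congr 1
    funext u
    congr 1
    push_cast
    ring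
  have h2 : ∀ k : ℕ, ‖∫ u in (0 : ℝ)..(k : ℝ), Complex.exp (((δ * u : ℝ) : ℂ) * Complex.I)‖ ≤ 2 / |δ| := by
    intro k
    rw [h1 k, norm_div, norm_mul, Complex.norm_I, mul_one, Complex.norm_real, Real.norm_eq_abs]
    refine div_le_div_of_nonneg_right ?_ (abs_nonneg δ)
    refine (norm_sub_le _ _).trans ?_
    have h3 : ∀ x : ℝ, ‖Complex.exp (((δ : ℂ) * Complex.I) * ((x : ℝ) : ℂ))‖ = 1 := by
      intro x
      have h4 : ((δ : ℂ) * Complex.I) * ((x : ℝ) : ℂ) = ((δ * x : ℝ) : ℂ) * Complex.I := by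
        push_cast
        ring
      rw [h4]
      exact mv_norm_exp δ x
    rw [h3, h3]
    norm_num
  refine squeeze_zero_norm (a := fun k : ℕ => (1 / (k : ℝ)) * (2 / |δ|)) ?_ ?_
  · intro k
    rw [norm_mul, norm_div, norm_one, Complex.norm_natCast]
    exact mul_le_mul_of_nonneg_left (h2 k) (by positivity)
  · have h5 : Tendsto (fun k : ℕ => (1 / (k : ℝ)) * (2 / |δ|)) atTop (𝓝 (0 * (2 / |δ|))) :=
      tendsto_one_div_atTop_nhds_zero_nat.mul_const _
    rwa [zero_mul] at h5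

private lemma mv_split {ι : Type*} (c : ι → ℂ) (γ : ι → ℝ) (τ : ℝ) (i : ι) (u : ℝ) :
    c i * Complex.exp (((γ i * u : ℝ) : ℂ) * Complex.I) * Complex.exp (-(((τ * u : ℝ) : ℂ) * Complex.I))
      = c i * Complex.exp ((((γ i - τ) * u : ℝ) : ℂ) * Complex.I) := by
  rw [mul_assoc, ← Complex.exp_add]
  congr 2
  push_cast
  ring

private lemma mv_swap {ι : Type*} [Countable ι] (c : ι → ℂ) (γ : ι → ℝ) (hc : Summable fun i => ‖c i‖) (τ : ℝ) (k : ℕ) :
    (1 / (k : ℂ)) * ∫ u in (0 : ℝ)..(k : ℝ),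
      (∑' i, c i * Complex.exp (((γ i * u : ℝ) : ℂ) * Complex.I)) * Complex.exp (-(((τ * u : ℝ) : ℂ) * Complex.I))
      = ∑' i, c i * ((1 / (k : ℂ)) * ∫ u in (0 : ℝ)..(k : ℝ), Complex.exp ((((γ i - τ) * u : ℝ) : ℂ) * Complex.I)) := by
  have h1 : HasSum (fun i => ∫ u in (0 : ℝ)..(k : ℝ), c i * Complex.exp ((((γ i - τ) * u : ℝ) : ℂ) * Complex.I))
      (∫ u in (0 : ℝ)..(k : ℝ),
        (∑' i, c i * Complex.exp (((γ i * u : ℝ) : ℂ) * Complex.I)) * Complex.exp (-(((τ * u : ℝ) : ℂ) * Complex.I))) := by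
    refine intervalIntegral.hasSum_integral_of_dominated_convergence (fun i _ => ‖c i‖) ?_ ?_ ?_ ?_ ?_
    · intro i
      refine Continuous.aestronglyMeasurable ?_
      fun_prop
    · intro i
      refine Eventually.of_forall fun u _ => ?_
      rw [norm_mul, mv_norm_exp, mul_one]
    · exact Eventually.of_forall fun u _ => hc
    · exact intervalIntegrable_const
    · refine Eventually.of_forall fun u _ => ?_
      have h2 : Summable fun i => c i * Complex.exp (((γ i * u : ℝ) : ℂ) * Complex.I) := by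
        refine Summable.of_norm ?_
        refine hc.congr fun i => ?_
        rw [norm_mul, mv_norm_exp, mul_one]
      have h3 := h2.hasSum.mul_right (Complex.exp (-(((τ * u : ℝ) : ℂ) * Complex.I)))
      refine h3.congr_fun ?_ |> id
      intro i
      exact (mv_split c γ τ i u).symm
  rw [← h1.tsum_eq, ← tsum_mul_left]
  refine tsum_congr fun i => ?_
  rw [intervalIntegral.integral_const_mul]
  ring

private lemma mv_ct {ι : Type*} [Countable ι] (c : ι → ℂ) (γ : ι → ℝ) (hc : Summable fun i => ‖c i‖) (τ : ℝ) :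
    Tendsto (fun k : ℕ => (1 / (k : ℂ)) * ∫ u in (0 : ℝ)..(k : ℝ),
      (∑' i, c i * Complex.exp (((γ i * u : ℝ) : ℂ) * Complex.I)) * Complex.exp (-(((τ * u : ℝ) : ℂ) * Complex.I)))
      atTop (𝓝 (∑' i, Set.indicator {j | γ j = τ} c i)) := by
  simp only [mv_swap c γ hc τ]
  refine tendsto_tsum_of_dominated_convergence hc ?_ ?_
  · intro i
    by_cases hi : γ i = τ
    · rw [Set.indicator_of_mem (show i ∈ {j | γ j = τ} from hi)]
      refine tendsto_const_nhds.congr' ?_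
      filter_upwards [eventually_ne_atTop 0] with k hk
      rw [hi, sub_self, mv_int_zero k hk, mul_one]
    · rw [Set.indicator_of_notMem (show i ∉ {j | γ j = τ} from hi)]
      have h1 := (mv_tendsto (γ i - τ) (sub_ne_zero.mpr hi)).const_mul (c i)
      rwa [mul_zero] at h1
  · refine Eventually.of_forall fun k i => ?_
    rw [norm_mul]
    calc ‖c i‖ * ‖(1 / (k : ℂ)) * ∫ u in (0 : ℝ)..(k : ℝ), Complex.exp ((((γ i - τ) * u : ℝ) : ℂ) * Complex.I)‖
        ≤ ‖c i‖ * 1 := mul_le_mul_of_nonneg_left (mv_bound k _) (norm_nonneg _)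
      _ = ‖c i‖ := mul_one _

theorem ap_mean {ι : Type*} (c : ι → ℂ) (γ : ι → ℝ) (hc : Summable fun i => ‖c i‖) (τ : ℝ) :
    Tendsto (fun k : ℕ => (1 / (k : ℂ)) * ∫ u in (0 : ℝ)..(k : ℝ),
      (∑' i, c i * Complex.exp (((γ i * u : ℝ) : ℂ) * Complex.I)) * Complex.exp (-(((τ * u : ℝ) : ℂ) * Complex.I)))
      atTop (𝓝 (∑' i, Set.indicator {j | γ j = τ} c i)) := by
  have hS : (Function.support fun i => ‖c i‖).Countable := hc.countable_support
  have hsup : ∀ i, c i ≠ 0 → i ∈ Function.support fun i => ‖c i‖ := by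
    intro i hi
    exact norm_ne_zero_iff.mpr hi
  have : Countable (Function.support fun i => ‖c i‖) := hS.to_subtype
  have h1 := mv_ct (fun i : (Function.support fun i => ‖c i‖) => c i) (fun i => γ i) (hc.subtype _) τ
  have h2 : ∀ u : ℝ, ∑' i : (Function.support fun i => ‖c i‖), c i * Complex.exp (((γ i * u : ℝ) : ℂ) * Complex.I)
      = ∑' i, c i * Complex.exp (((γ i * u : ℝ) : ℂ) * Complex.I) := by
    intro u
    refine tsum_subtype_eq_of_support_subset (f := fun i => c i * Complex.exp (((γ i * u : ℝ) : ℂ) * Complex.I)) ?_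
    intro i hi
    exact hsup i fun h => hi (by simp [h])
  have h3 : ∑' i : (Function.support fun i => ‖c i‖),
      Set.indicator {j : (Function.support fun i => ‖c i‖) | γ j = τ} (fun i => c i) i
      = ∑' i, Set.indicator {j | γ j = τ} c i := by
    rw [← tsum_subtype_eq_of_support_subset (f := Set.indicator {j | γ j = τ} c)
      (s := Function.support fun i => ‖c i‖)]
    · refine tsum_congr fun i => ?_
      by_cases hi : γ i = τ
      · rw [Set.indicator_of_mem (show i ∈ {j : (Function.support fun i => ‖c i‖) | γ j = τ} from hi),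
          Set.indicator_of_mem (show (i : ι) ∈ {j | γ j = τ} from hi)]
      · rw [Set.indicator_of_notMem (show i ∉ {j : (Function.support fun i => ‖c i‖) | γ j = τ} from hi),
          Set.indicator_of_notMem (show (i : ι) ∉ {j | γ j = τ} from hi)]
    · intro i hi
      refine hsup i fun h => hi ?_
      by_cases hi' : γ i = τ
      · rw [Set.indicator_of_mem (show i ∈ {j | γ j = τ} from hi'), h]
      · rw [Set.indicator_of_notMem (show i ∉ {j | γ j = τ} from hi')]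
  simp only [h2] at h1
  rw [h3] at h1
  exact h1

end Pool.Agent.H50.RQ
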