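import Mathlib

/-!
[H50 RQ UL] A positive definite majorant for the limits of the mean values.

PROOF. `U = hyperfilter ℕ` (an ultrafilter; `Nat.hyperfilter_le_atTop`). For `n, k, σ` let `A n k σ = (1/k) ∫_0^k |P n u| e^{-iσu} du`: `‖A n k σ‖ ≤ C` (`hC`; `k = 0` gives `0`; `C ≥ 0` from `hC` with `k = 1`). For fixed `n, σ` it converges along `U` (in `k`) to some `A' n σ`,
`‖A' n σ‖ ≤ C` (closed balls of `ℂ` are compact: `IsCompact.ultrafilter_le_nhds` for the mapped ultrafilter, see `Pool/Agent/H50/RL/Wk.lean`); then along `U` (in `n`) to some `a σ`. `A n k (-σ) = conj (A n k σ)` (real function `|P n|`), so `a (-σ) = conj (a σ)`.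
Inequality: for `v : ℝ →₀ ℂ` let `Φ u = Σ_τ v_τ e^{-iτu}`. For `k ≥ 1`, Cauchy-Schwarz (`|∫ P Φ|^2 ≤ ∫ |P| ∫ |P| |Φ|^2`; elementary: `(∫|P||Φ|)^2 ≤ ..` from `∫ |P| (|Φ| - λ)^2 ≥ 0` for all `λ`, or `2|Φ| ≤ t + |Φ|^2/t`):
`‖Σ_τ v_τ (1/k) ∫_0^k P n e^{-iτu}‖^2 = ‖(1/k) ∫_0^k P n Φ‖^2 ≤ C (1/k) ∫_0^k |P n| |Φ|^2 = C Σ_{τ,τ'} v_τ conj(v_τ') A n k (τ - τ')` (real number = its real part; `|Φ|^2 = Σ Σ v_τ conj(v_τ') e^{-i(τ-τ')u}`). Let `k → U`, then
`n → U` (finite sums; `hβ`, `hb` hold along `U` since `U ≤ atTop`; `ge_of_tendsto`/`le_of_tendsto_of_tendsto`).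
-/

set_option autoImplicit false

namespace Pool.Agent.H50.RQ

open MeasureTheory Filter Topology

private lemma exLim (U : Ultrafilter ℕ) (f : ℕ → ℂ) (C : ℝ) (h : ∀ k, ‖f k‖ ≤ C) :
    ∃ z : ℂ, ‖z‖ ≤ C ∧ Tendsto f U (𝓝 z) := by
  have h2 : ((U.map f : Ultrafilter ℂ) : Filter ℂ) ≤ 𝓟 (Metric.closedBall (0 : ℂ) C) := by
    rw [Filter.le_principal_iff, Ultrafilter.mem_coe, Ultrafilter.mem_map]
    exact Filter.Eventually.of_forall fun k => by
      show f k ∈ Metric.closedBall (0 : ℂ) C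
      rw [mem_closedBall_zero_iff]
      exact h k
  obtain ⟨a, ha, hle⟩ := (isCompact_closedBall (0 : ℂ) C).ultrafilter_le_nhds _ h2
  exact ⟨a, mem_closedBall_zero_iff.1 ha, hle⟩

/-- the character `exp (-i σ u)` -/
private noncomputable def ee (σ u : ℝ) : ℂ := Complex.exp (-(((σ * u : ℝ) : ℂ) * Complex.I))

private lemma ee_cont (σ : ℝ) : Continuous (ee σ) := by
  unfold ee
  fun_prop

private lemma ee_norm (σ u : ℝ) : ‖ee σ u‖ = 1 := by
  unfold ee
  rw [← neg_mul, ← Complex.ofReal_neg, Complex.norm_exp_ofReal_mul_I]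

private lemma ee_conj (σ u : ℝ) : (starRingEnd ℂ) (ee σ u) = ee (-σ) u := by
  unfold ee
  rw [← Complex.exp_conj]
  congr 1
  rw [map_neg, map_mul, Complex.conj_ofReal, Complex.conj_I]
  push_cast
  ring

private lemma ee_mul (σ σ' u : ℝ) : ee σ u * ee σ' u = ee (σ + σ') u := by
  unfold ee
  rw [← Complex.exp_add]
  congr 1
  push_cast
  ring

/-- the mean value of `|f| exp (-i σ u)` over `[0, k]` -/
private noncomputable def mv (f : ℝ → ℝ) (k : ℕ) (σ : ℝ) : ℂ :=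
  (1 / (k : ℂ)) * ∫ u in (0 : ℝ)..(k : ℝ), ((|f u| : ℝ) : ℂ) * ee σ u

private lemma mv_norm (f : ℝ → ℝ) (C : ℝ) (hC0 : 0 ≤ C)
    (hC : ∀ k : ℕ, ∫ u in (0 : ℝ)..(k : ℝ), |f u| ≤ C * k) (k : ℕ) (σ : ℝ) : ‖mv f k σ‖ ≤ C := by
  unfold mv
  rcases Nat.eq_zero_or_pos k with rfl | hk
  · simpa using hC0
  · have hk' : (0 : ℝ) < k := by exact_mod_cast hk
    rw [norm_mul, norm_div, norm_one, Complex.norm_natCast]
    have h1 : ‖∫ u in (0 : ℝ)..(k : ℝ), ((|f u| : ℝ) : ℂ) * ee σ u‖ ≤ C * k := by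
      refine (intervalIntegral.norm_integral_le_integral_norm hk'.le).trans ?_
      refine le_trans (le_of_eq ?_) (hC k)
      refine intervalIntegral.integral_congr fun u _ => ?_
      show ‖((|f u| : ℝ) : ℂ) * ee σ u‖ = |f u|
      rw [norm_mul, ee_norm, mul_one, Complex.norm_real, Real.norm_eq_abs, abs_abs]
    calc 1 / (k : ℝ) * ‖∫ u in (0 : ℝ)..(k : ℝ), ((|f u| : ℝ) : ℂ) * ee σ u‖
        ≤ 1 / (k : ℝ) * (C * k) := mul_le_mul_of_nonneg_left h1 (by positivity)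
      _ = C := by field_simp

private lemma mv_conj (f : ℝ → ℝ) (k : ℕ) (σ : ℝ) :
    mv f k (-σ) = (starRingEnd ℂ) (mv f k σ) := by
  unfold mv
  rw [map_mul, map_div₀, map_one, Complex.conj_natCast, ← intervalIntegral.intervalIntegral_conj]
  congr 1
  refine intervalIntegral.integral_congr fun u _ => ?_
  show ((|f u| : ℝ) : ℂ) * ee (-σ) u = (starRingEnd ℂ) (((|f u| : ℝ) : ℂ) * ee σ u)
  rw [map_mul, Complex.conj_ofReal, ee_conj]

private lemma cs (w g : ℝ → ℝ) (hw : Continuous w) (hg : Continuous g) (hw0 : ∀ u, 0 ≤ w u)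
    (k : ℝ) (hk : 0 ≤ k) :
    (∫ u in (0 : ℝ)..k, w u * g u) ^ 2 ≤
      (∫ u in (0 : ℝ)..k, w u) * ∫ u in (0 : ℝ)..k, w u * g u ^ 2 := by
  have h : ∀ x : ℝ, 0 ≤ (∫ u in (0 : ℝ)..k, w u) * (x * x) +
      (-2 * ∫ u in (0 : ℝ)..k, w u * g u) * x + ∫ u in (0 : ℝ)..k, w u * g u ^ 2 := by
    intro x
    have h1 : 0 ≤ ∫ u in (0 : ℝ)..k, w u * (g u - x) ^ 2 :=
      intervalIntegral.integral_nonneg hk fun u _ => mul_nonneg (hw0 u) (sq_nonneg _)
    have i1 : IntervalIntegrable (fun u => w u * g u ^ 2) volume 0 k :=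
      (hw.mul (hg.pow 2)).intervalIntegrable _ _
    have i2 : IntervalIntegrable (fun u => (2 * x) * (w u * g u)) volume 0 k :=
      (continuous_const.mul (hw.mul hg)).intervalIntegrable _ _
    have i3 : IntervalIntegrable (fun u => (x * x) * w u) volume 0 k :=
      (continuous_const.mul hw).intervalIntegrable _ _
    have h2 : ∫ u in (0 : ℝ)..k, w u * (g u - x) ^ 2 =
        ∫ u in (0 : ℝ)..k, (w u * g u ^ 2 - (2 * x) * (w u * g u) + (x * x) * w u) :=
      intervalIntegral.integral_congr fun u _ => by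
        show w u * (g u - x) ^ 2 = w u * g u ^ 2 - (2 * x) * (w u * g u) + (x * x) * w u
        ring
    rw [h2, intervalIntegral.integral_add (i1.sub i2) i3, intervalIntegral.integral_sub i1 i2,
      intervalIntegral.integral_const_mul, intervalIntegral.integral_const_mul] at h1
    linarith
  have h3 := discrim_le_zero h
  unfold discrim at h3
  nlinarith [h3]

private lemma trig (f : ℝ → ℝ) (hf : Continuous f) (C : ℝ)
    (hC : ∀ k : ℕ, ∫ u in (0 : ℝ)..(k : ℝ), |f u| ≤ C * k) (v : ℝ →₀ ℂ) (k : ℕ) :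
    ‖v.sum fun τ x => x * ((1 / (k : ℂ)) * ∫ u in (0 : ℝ)..(k : ℝ), ((f u : ℝ) : ℂ) * ee τ u)‖ ^ 2 ≤
      C * (v.sum fun τ x => v.sum fun τ' y => x * (starRingEnd ℂ) y * mv f k (τ - τ')).re := by
  rcases Nat.eq_zero_or_pos k with rfl | hk
  · simp [mv, Finsupp.sum]
  have hk' : (0 : ℝ) < k := by exact_mod_cast hk
  have hkC : (k : ℂ) ≠ 0 := by exact_mod_cast hk.ne'
  set Φ : ℝ → ℂ := fun u => v.sum fun τ x => x * ee τ u with hΦ
  have hΦc : Continuous Φ := by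
    rw [hΦ]
    unfold Finsupp.sum
    exact continuous_finsetSum _ fun τ _ => continuous_const.mul (ee_cont τ)
  -- the left side
  have hL : (v.sum fun τ x => x * ((1 / (k : ℂ)) * ∫ u in (0 : ℝ)..(k : ℝ), ((f u : ℝ) : ℂ) * ee τ u)) =
      (1 / (k : ℂ)) * ∫ u in (0 : ℝ)..(k : ℝ), ((f u : ℝ) : ℂ) * Φ u := by
    have h1 : ∀ u, ((f u : ℝ) : ℂ) * Φ u = ∑ τ ∈ v.support, v τ * (((f u : ℝ) : ℂ) * ee τ u) := by
      intro u
      rw [hΦ]
      show ((f u : ℝ) : ℂ) * (v.sum fun τ x => x * ee τ u) = _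
      unfold Finsupp.sum
      rw [Finset.mul_sum]
      refine Finset.sum_congr rfl fun τ _ => ?_
      ring
    have h2 : ∫ u in (0 : ℝ)..(k : ℝ), ((f u : ℝ) : ℂ) * Φ u =
        ∫ u in (0 : ℝ)..(k : ℝ), ∑ τ ∈ v.support, v τ * (((f u : ℝ) : ℂ) * ee τ u) :=
      intervalIntegral.integral_congr fun u _ => h1 u
    rw [h2, intervalIntegral.integral_finsetSum]
    · unfold Finsupp.sum
      rw [Finset.mul_sum]
      refine Finset.sum_congr rfl fun τ _ => ?_
      rw [intervalIntegral.integral_const_mul]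
      ring
    · intro τ _
      exact (continuous_const.mul ((Complex.continuous_ofReal.comp hf).mul (ee_cont τ))).intervalIntegrable _ _
  -- the right side
  have hR : (v.sum fun τ x => v.sum fun τ' y => x * (starRingEnd ℂ) y * mv f k (τ - τ')) =
      (((1 / (k : ℝ)) * ∫ u in (0 : ℝ)..(k : ℝ), |f u| * ‖Φ u‖ ^ 2 : ℝ) : ℂ) := by
    have h1 : ∀ u, ((|f u| * ‖Φ u‖ ^ 2 : ℝ) : ℂ) = ∑ τ ∈ v.support, ∑ τ' ∈ v.support,
        (v τ * (starRingEnd ℂ) (v τ')) * (((|f u| : ℝ) : ℂ) * ee (τ - τ') u) := by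
      intro u
      push_cast
      rw [← Complex.mul_conj']
      show _ * ((v.sum fun τ x => x * ee τ u) * (starRingEnd ℂ) (v.sum fun τ x => x * ee τ u)) = _
      unfold Finsupp.sum
      rw [map_sum, Finset.sum_mul_sum, Finset.mul_sum]
      refine Finset.sum_congr rfl fun τ _ => ?_
      rw [Finset.mul_sum]
      refine Finset.sum_congr rfl fun τ' _ => ?_
      rw [map_mul, ee_conj, sub_eq_add_neg, ← ee_mul]
      ring
    have h2 : (((1 / (k : ℝ)) * ∫ u in (0 : ℝ)..(k : ℝ), |f u| * ‖Φ u‖ ^ 2 : ℝ) : ℂ) =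
        (1 / (k : ℂ)) * ∫ u in (0 : ℝ)..(k : ℝ), ∑ τ ∈ v.support, ∑ τ' ∈ v.support,
          (v τ * (starRingEnd ℂ) (v τ')) * (((|f u| : ℝ) : ℂ) * ee (τ - τ') u) := by
      rw [Complex.ofReal_mul, ← intervalIntegral.integral_ofReal]
      push_cast
      congr 1
      refine intervalIntegral.integral_congr fun u _ => ?_
      have := h1 u
      push_cast at this
      exact this
    rw [h2, intervalIntegral.integral_finsetSum]
    · unfold Finsupp.sum
      rw [Finset.mul_sum]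
      refine Finset.sum_congr rfl fun τ _ => ?_
      rw [intervalIntegral.integral_finsetSum]
      · rw [Finset.mul_sum]
        refine Finset.sum_congr rfl fun τ' _ => ?_
        rw [intervalIntegral.integral_const_mul]
        unfold mv
        ring
      · intro τ' _
        exact (continuous_const.mul ((Complex.continuous_ofReal.comp hf.abs).mul
          (ee_cont _))).intervalIntegrable _ _
    · intro τ _
      exact (continuous_finsetSum _ fun τ' _ => continuous_const.mul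
        ((Complex.continuous_ofReal.comp hf.abs).mul (ee_cont _))).intervalIntegrable _ _
  rw [hL, hR, Complex.ofReal_re]
  have hn : ‖∫ u in (0 : ℝ)..(k : ℝ), ((f u : ℝ) : ℂ) * Φ u‖ ≤
      ∫ u in (0 : ℝ)..(k : ℝ), |f u| * ‖Φ u‖ := by
    refine (intervalIntegral.norm_integral_le_integral_norm hk'.le).trans (le_of_eq ?_)
    refine intervalIntegral.integral_congr fun u _ => ?_
    show ‖((f u : ℝ) : ℂ) * Φ u‖ = |f u| * ‖Φ u‖
    rw [norm_mul, Complex.norm_real, Real.norm_eq_abs]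
  have hcs := cs (fun u => |f u|) (fun u => ‖Φ u‖) hf.abs hΦc.norm (fun u => abs_nonneg _) k hk'.le
  have h0 : 0 ≤ ∫ u in (0 : ℝ)..(k : ℝ), |f u| * ‖Φ u‖ ^ 2 :=
    intervalIntegral.integral_nonneg hk'.le fun u _ => by positivity
  have h3 : ‖∫ u in (0 : ℝ)..(k : ℝ), ((f u : ℝ) : ℂ) * Φ u‖ ^ 2 ≤
      (C * k) * ∫ u in (0 : ℝ)..(k : ℝ), |f u| * ‖Φ u‖ ^ 2 :=
    (pow_le_pow_left₀ (norm_nonneg _) hn 2).trans (hcs.trans (mul_le_mul_of_nonneg_right (hC k) h0))
  rw [norm_mul, norm_div, norm_one, Complex.norm_natCast, mul_pow]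
  calc (1 / (k : ℝ)) ^ 2 * ‖∫ u in (0 : ℝ)..(k : ℝ), ((f u : ℝ) : ℂ) * Φ u‖ ^ 2
      ≤ (1 / (k : ℝ)) ^ 2 * ((C * k) * ∫ u in (0 : ℝ)..(k : ℝ), |f u| * ‖Φ u‖ ^ 2) :=
        mul_le_mul_of_nonneg_left h3 (by positivity)
    _ = C * (1 / (k : ℝ) * ∫ u in (0 : ℝ)..(k : ℝ), |f u| * ‖Φ u‖ ^ 2) := by
        field_simp

theorem ultra (P : ℕ → ℝ → ℝ) (C : ℝ) (hP : ∀ n, Continuous (P n))
    (hC : ∀ n k : ℕ, ∫ u in (0 : ℝ)..(k : ℝ), |P n u| ≤ C * k) (β : ℕ → ℝ → ℂ)
    (hβ : ∀ (n : ℕ) (τ : ℝ), Tendsto (fun k : ℕ => (1 / (k : ℂ)) * ∫ u in (0 : ℝ)..(k : ℝ),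
      ((P n u : ℝ) : ℂ) * Complex.exp (-(((τ * u : ℝ) : ℂ) * Complex.I))) atTop (𝓝 (β n τ)))
    (b : ℝ → ℂ) (hb : ∀ τ : ℝ, Tendsto (fun n => β n τ) atTop (𝓝 (b τ))) :
    ∃ a : ℝ → ℂ, (∀ σ, a (-σ) = (starRingEnd ℂ) (a σ)) ∧ ∀ v : ℝ →₀ ℂ,
      ‖v.sum fun τ x => x * b τ‖ ^ 2 ≤
        C * (v.sum fun τ x => v.sum fun τ' y => x * (starRingEnd ℂ) y * a (τ - τ')).re := by
  have hC0 : 0 ≤ C := by
    have h1 := hC 0 1
    have h2 : 0 ≤ ∫ u in (0 : ℝ)..((1 : ℕ) : ℝ), |P 0 u| :=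
      intervalIntegral.integral_nonneg (by norm_num) fun u _ => abs_nonneg _
    push_cast at h1 h2
    linarith
  set U : Ultrafilter ℕ := hyperfilter ℕ with hU
  have hUle : (U : Filter ℕ) ≤ atTop := Nat.hyperfilter_le_atTop
  choose A hA hAt using fun n σ => exLim U (fun k => mv (P n) k σ) C
    (fun k => mv_norm (P n) C hC0 (hC n) k σ)
  choose a ha hat using fun σ => exLim U (fun n => A n σ) C (fun n => hA n σ)
  have hAc : ∀ n σ, A n (-σ) = (starRingEnd ℂ) (A n σ) := fun n σ => by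
    refine tendsto_nhds_unique (hAt n (-σ)) ?_
    have h1 := (Complex.continuous_conj.tendsto _).comp (hAt n σ)
    refine h1.congr fun k => ?_
    exact (mv_conj (P n) k σ).symm
  refine ⟨a, fun σ => ?_, fun v => ?_⟩
  · refine tendsto_nhds_unique (hat (-σ)) ?_
    have h1 := (Complex.continuous_conj.tendsto _).comp (hat σ)
    refine h1.congr fun n => ?_
    exact (hAc n σ).symm
  · have step1 : ∀ n, ‖v.sum fun τ x => x * β n τ‖ ^ 2 ≤
        C * (v.sum fun τ x => v.sum fun τ' y => x * (starRingEnd ℂ) y * A n (τ - τ')).re := by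
      intro n
      refine le_of_tendsto_of_tendsto (b := (U : Filter ℕ))
        (f := fun k : ℕ => ‖v.sum fun τ x => x * ((1 / (k : ℂ)) *
          ∫ u in (0 : ℝ)..(k : ℝ), ((P n u : ℝ) : ℂ) * ee τ u)‖ ^ 2)
        (g := fun k : ℕ => C * (v.sum fun τ x => v.sum fun τ' y =>
          x * (starRingEnd ℂ) y * mv (P n) k (τ - τ')).re) ?_ ?_
        (Filter.Eventually.of_forall fun k => trig (P n) (hP n) C (hC n) v k)
      · refine (Filter.Tendsto.norm ?_).pow 2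
        unfold Finsupp.sum
        exact tendsto_finsetSum _ fun τ _ => ((hβ n τ).mono_left hUle).const_mul _
      · refine ((Complex.continuous_re.tendsto _).comp ?_).const_mul C
        unfold Finsupp.sum
        exact tendsto_finsetSum _ fun τ _ => tendsto_finsetSum _ fun τ' _ =>
          (hAt n (τ - τ')).const_mul _
    refine le_of_tendsto_of_tendsto (b := (U : Filter ℕ))
      (f := fun n : ℕ => ‖v.sum fun τ x => x * β n τ‖ ^ 2)
      (g := fun n : ℕ => C * (v.sum fun τ x => v.sum fun τ' y =>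
          x * (starRingEnd ℂ) y * A n (τ - τ')).re) ?_ ?_
      (Filter.Eventually.of_forall fun n => step1 n)
    · refine (Filter.Tendsto.norm ?_).pow 2
      unfold Finsupp.sum
      exact tendsto_finsetSum _ fun τ _ => ((hb τ).mono_left hUle).const_mul _
    · refine ((Complex.continuous_re.tendsto _).comp ?_).const_mul C
      unfold Finsupp.sum
      exact tendsto_finsetSum _ fun τ _ => tendsto_finsetSum _ fun τ' _ =>
        (hat (τ - τ')).const_mul _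

end Pool.Agent.H50.RQ
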