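import Pool.Agent.H50.RQ.Gr
import Pool.Agent.H50.RQ.Lm
import Pool.Agent.H50.RQ.Gp
import Pool.Agent.H50.RQ.Mv
import Pool.Agent.H50.RQ.Ul
import Pool.Agent.H50.RQ.In

/-!
[H50 RQ PD] Part D: a rightmost line with infinitely many poles and residues bounded below.

PROOF. W.l.o.g. all `η n ≤ 1` (replace `η` by `fun n => η (n + N)`). `limit_sc`: `¬ SC (D.d (η n)) y (y+1) (M+1)` for all `n`, `y`. `P n u = D.d (η n) u / η n`, continuous, `∫_0^k |P n| ≤ C k` with `C = 4 (M+1) S e^{2Θ}` (`l1_unit` on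
`[j, j+1]`, `j < k`). `β n τ = Σ' i, indicator {γ = τ} (fun i => -(c i/ρ i)(1 - exp(-ρ i η n))/η n) i` by `ap_mean` and `d_series` (`summ_d`). `b τ = Σ' i, indicator {γ = τ} (fun i => -c i) i`. As `γ` is injective both sums have at most one term
(`tsum_eq_single`, or all zero), and `(1 - exp(-ρη))/η → ρ` as `η → 0+` (derivative of `exp`; see `c_lim` of `Pool/Agent/H50/RL/Dft.lean`): `β n τ → b τ`. So `‖b (γ i)‖ = ‖c i‖ ≥ κ0` and `b τ = 0` if `τ` is no `γ i`.
`ultra` gives `a`; `innov` with `ε = κ0`: for `R` (w.l.o.g. `R > 0`) the set is infinite: for every `L` it contains `γ i ≥ L` from `gaps (R + 1) L` (`γ i - t = γ j` with `0 < t ≤ R` is excluded), an unbounded set of reals is infinite.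
-/

set_option autoImplicit false

namespace Pool.Agent.H50.RQ

open MeasureTheory Filter Topology
open Pool.Agent.H50.RL (SC Lp Lf Wk Ft)

private theorem pq_exp_lim (ρ : ℂ) (η : ℕ → ℝ) (h0 : ∀ n, 0 < η n) (hη : Tendsto η atTop (𝓝 0)) :
    Tendsto (fun n => (1 - Complex.exp (-(ρ * (η n : ℂ)))) / (η n : ℂ)) atTop (𝓝 ρ) := by
  have h1 : HasDerivAt (fun z : ℂ => 1 - Complex.exp (-(ρ * z))) ρ 0 := by
    have e1 : HasDerivAt (fun z : ℂ => -(ρ * z)) (-ρ) 0 := by
      have e0 := ((hasDerivAt_id (0 : ℂ)).const_mul ρ).neg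
      rw [mul_one] at e0
      exact e0
    have e2 := (e1.cexp).const_sub 1
    refine e2.congr_deriv ?_
    simp
  rw [hasDerivAt_iff_tendsto_slope] at h1
  have h2 : Tendsto (fun n => (η n : ℂ)) atTop (𝓝[≠] (0 : ℂ)) := by
    refine tendsto_nhdsWithin_iff.2 ⟨?_, Filter.Eventually.of_forall fun n => ?_⟩
    · have h3 := (Complex.continuous_ofReal.tendsto 0).comp hη
      rw [Complex.ofReal_zero] at h3
      exact h3
    · have := (h0 n).ne'
      show (η n : ℂ) ≠ 0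
      exact_mod_cast this
  refine (h1.comp h2).congr fun n => ?_
  show slope (fun z : ℂ => 1 - Complex.exp (-(ρ * z))) 0 (η n : ℂ) = _
  rw [slope_def_field]
  simp

/-- the coefficient functional: a sum with at most one term -/
private theorem pq_single (D : LD) (g : D.ι → ℂ) (i : D.ι) :
    (∑' j, Set.indicator {j | D.γ j = D.γ i} g j) = g i := by
  rw [tsum_eq_single i]
  · rw [Set.indicator_of_mem]
    exact rfl
  · intro j hj
    rw [Set.indicator_of_notMem]
    intro h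
    exact hj (D.inj h)

private theorem pq_none (D : LD) (g : D.ι → ℂ) (τ : ℝ) (h : ∀ i, D.γ i ≠ τ) :
    (∑' j, Set.indicator {j | D.γ j = τ} g j) = 0 := by
  have h1 : ∀ j, Set.indicator {j | D.γ j = τ} g j = 0 := by
    intro j
    rw [Set.indicator_of_notMem]
    exact h j
  simp [h1]

theorem LD.part_d (D : LD) (κ0 : ℝ) (hκ : 0 < κ0) (hc : ∀ i, κ0 ≤ ‖D.c i‖) (hinf : {i : D.ι | 0 < D.γ i}.Infinite)
    (f : ℝ → ℝ) (hf : Tendsto (fun y => Real.exp (-(D.Θ * y)) * f y - D.r y) atTop (𝓝 0))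
    (M : ℕ) (η : ℕ → ℝ) (h0 : ∀ n, 0 < η n) (hη : Tendsto η atTop (𝓝 0))
    (hSC : ∀ n, ∃ Y0 : ℝ, ∀ y ≥ Y0, ¬ SC (fun v => f v - f (v - η n)) y (y + 1) (M + 1)) : False := by
  obtain ⟨N, hN⟩ : ∃ N : ℕ, ∀ n ≥ N, η n ≤ 1 := by
    have h1 : ∀ᶠ n in atTop, η n < 1 := hη.eventually (gt_mem_nhds one_pos)
    obtain ⟨N, hN⟩ := eventually_atTop.1 h1
    exact ⟨N, fun n hn => (hN n hn).le⟩
  obtain ⟨e, he⟩ : ∃ e : ℕ → ℝ, e = fun n => η (n + N) := ⟨_, rfl⟩
  have hη' : Tendsto e atTop (𝓝 0) := by rw [he]; exact (tendsto_add_atTop_iff_nat N).2 hη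
  have h1' : ∀ n, e n ≤ 1 := fun n => by rw [he]; exact hN _ (by omega)
  have h0' : ∀ n, 0 < e n := fun n => by rw [he]; exact h0 _
  -- sign changes of the limit
  have hsc : ∀ n y, ¬ SC (D.d (e n)) y (y + 1) (M + 1) := by
    intro n y
    obtain ⟨Y0, hY⟩ := hSC (n + N)
    have h2 := D.limit_sc f hf (e n) (h0' n).le (M + 1) Y0
    rw [he] at h2 ⊢
    exact h2 hY y
  obtain ⟨C, hCd⟩ : ∃ C : ℝ, C = 4 * (M + 1) * D.S * Real.exp (2 * D.Θ) := ⟨_, rfl⟩
  have hP : ∀ n, Continuous fun u => D.d (e n) u / e n := fun n => (D.d_cont (e n)).div_const _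
  have hC : ∀ n k : ℕ, ∫ u in (0 : ℝ)..(k : ℝ), |D.d (e n) u / e n| ≤ C * k := by
    intro n k
    induction k with
    | zero => simp
    | succ k ih =>
      have h2 : ∫ u in (k : ℝ)..((k : ℝ) + 1), |D.d (e n) u / e n| ≤ C := by
        have h3 := D.l1_unit M (e n) (h0' n) (h1' n) (hsc n) (k : ℝ)
        have h4 : (fun u => |D.d (e n) u / e n|) = fun u => |D.d (e n) u| / e n := by
          funext u
          rw [abs_div, abs_of_pos (h0' n)]
        rw [h4, intervalIntegral.integral_div, div_le_iff₀ (h0' n), hCd, mul_comm]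
        exact h3
      have h5 : ∫ u in (0 : ℝ)..((k + 1 : ℕ) : ℝ), |D.d (e n) u / e n| =
          (∫ u in (0 : ℝ)..(k : ℝ), |D.d (e n) u / e n|) +
            ∫ u in (k : ℝ)..((k : ℝ) + 1), |D.d (e n) u / e n| := by
        push_cast
        exact (intervalIntegral.integral_add_adjacent_intervals ((hP n).abs.intervalIntegrable _ _)
          ((hP n).abs.intervalIntegrable _ _)).symm
      rw [h5]
      push_cast
      linarith
  -- mean values
  obtain ⟨cc, hcc⟩ : ∃ cc : ℕ → D.ι → ℂ, ∀ n i, cc n i =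
      -((D.c i / D.ρ i) * ((1 - Complex.exp (-(D.ρ i * (e n : ℂ)))) / (e n : ℂ))) := ⟨_, fun _ _ => rfl⟩
  have hcs : ∀ n, Summable fun i => ‖cc n i‖ := by
    intro n
    refine ((D.summ_d (e n) (h0' n).le).div_const (e n)).congr fun i => ?_
    rw [hcc, norm_neg, norm_mul, norm_mul, norm_div (1 - Complex.exp (-(D.ρ i * (e n : ℂ)))), Complex.norm_real,
      Real.norm_of_nonneg (h0' n).le, mul_div_assoc]
  have hser : ∀ n u, ((D.d (e n) u / e n : ℝ) : ℂ) =
      ∑' i, cc n i * Complex.exp (((D.γ i * u : ℝ) : ℂ) * Complex.I) := by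
    intro n u
    rw [Complex.ofReal_div, D.d_series (e n) u (h0' n).le, neg_div, div_eq_mul_inv, ← tsum_mul_right, ← tsum_neg]
    refine tsum_congr fun i => ?_
    rw [hcc, div_eq_mul_inv (1 - Complex.exp (-(D.ρ i * (e n : ℂ))))]
    ring
  have hβ : ∀ (n : ℕ) (τ : ℝ), Tendsto (fun k : ℕ => (1 / (k : ℂ)) * ∫ u in (0 : ℝ)..(k : ℝ),
      ((D.d (e n) u / e n : ℝ) : ℂ) * Complex.exp (-(((τ * u : ℝ) : ℂ) * Complex.I))) atTop
      (𝓝 (∑' i, Set.indicator {j | D.γ j = τ} (cc n) i)) := by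
    intro n τ
    have h2 := ap_mean (cc n) D.γ (hcs n) τ
    refine h2.congr fun k => ?_
    congr 1
    refine intervalIntegral.integral_congr fun u _ => ?_
    show _ = ((D.d (e n) u / e n : ℝ) : ℂ) * _
    rw [hser n u]
  have hlim : ∀ i, Tendsto (fun n => cc n i) atTop (𝓝 (-D.c i)) := by
    intro i
    have h2 := ((pq_exp_lim (D.ρ i) e h0' hη').const_mul (D.c i / D.ρ i)).neg
    rw [div_mul_cancel₀ _ (D.ρ_ne i)] at h2
    refine h2.congr fun n => ?_
    rw [hcc]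
  have hb : ∀ τ : ℝ, Tendsto (fun n => ∑' i, Set.indicator {j | D.γ j = τ} (cc n) i) atTop
      (𝓝 (∑' i, Set.indicator {j | D.γ j = τ} (fun i => -D.c i) i)) := by
    intro τ
    by_cases h : ∃ i, D.γ i = τ
    · obtain ⟨i, rfl⟩ := h
      rw [pq_single D (fun i => -D.c i) i]
      refine (hlim i).congr fun n => ?_
      rw [pq_single D (cc n) i]
    · have h2 : ∀ i, D.γ i ≠ τ := fun i hi => h ⟨i, hi⟩
      rw [pq_none D _ τ h2]
      refine tendsto_const_nhds.congr fun n => ?_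
      rw [pq_none D _ τ h2]
  obtain ⟨a, ha, hpos⟩ := ultra (fun n u => D.d (e n) u / e n) C hP hC
    (fun n τ => ∑' i, Set.indicator {j | D.γ j = τ} (cc n) i) hβ
    (fun τ => ∑' i, Set.indicator {j | D.γ j = τ} (fun i => -D.c i) i) hb
  refine innov a _ C ha hpos κ0 hκ ?_
  intro R
  refine Set.infinite_of_not_bddAbove ?_
  rintro ⟨B, hB⟩
  obtain ⟨i, hi1, hi2⟩ := D.gaps hinf (|R| + 1) (B + 1)
  have h2 : D.γ i ≤ B := by
    apply hB
    refine ⟨?_, fun t ht1 ht2 => ?_⟩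
    · show κ0 ≤ ‖∑' j, Set.indicator {j | D.γ j = D.γ i} (fun i => -D.c i) j‖
      rw [pq_single D (fun i => -D.c i) i, norm_neg]
      exact hc i
    · show (∑' j, Set.indicator {j | D.γ j = D.γ i - t} (fun i => -D.c i) j) = 0
      refine pq_none D _ _ fun j hj => hi2 j ⟨?_, ?_⟩
      · rw [hj]
        have := le_abs_self R
        linarith
      · rw [hj]
        linarith
  linarith

end Pool.Agent.H50.RQ
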