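import Pool.Agent.H50.RQ.Ic
import Pool.Agent.H50.RQ.Pd

/-!
[H50 RQ DZ] Part D for zero data.

PROOF. See `Pool/Agent/H50/RL/Dz.lean`. Apply `LD.part_d` to the `LD` of `line_data Θ`. `hinf`: infinitely many indices on the line; the map `i ↦ j` of `D.conj` is injective and sends `γ` to `-γ`, at most one index has `γ = 0`
(`D.inj`, real part `Θ`), so infinitely many have `γ > 0`. `hf`: `psi_lim`.
-/

set_option autoImplicit false

namespace Pool.Agent.H50.RQ

open MeasureTheory Filter Topology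
open Pool.Agent.H50.RL (SC Lp Lf Wk Ft)

theorem ZD.part_dz (D : ZD) (Θ : ℝ) (hΘ : 1 / 2 < Θ) (hΘ1 : Θ < 1) (hmax : ∀ i, (D.ρ i).re ≤ Θ)
    (hinf : {i | (D.ρ i).re = Θ}.Infinite) (κ0 : ℝ) (hκ : 0 < κ0) (hc : ∀ i, (D.ρ i).re = Θ → κ0 ≤ ‖D.c i‖)
    (M : ℕ) (η : ℕ → ℝ) (h0 : ∀ n, 0 < η n) (hη : Tendsto η atTop (𝓝 0))
    (hSC : ∀ n, ∃ Y0 : ℝ, ∀ y ≥ Y0, ¬ SC (fun v => D.f v - D.f (v - η n)) y (y + 1) (M + 1)) : False := by
  classical
  obtain ⟨L, hLΘ, hLr, e, he⟩ := D.line_data Θ hΘ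
  refine L.part_d κ0 hκ ?_ ?_ D.f ?_ M η h0 hη hSC
  · intro i
    rw [(he i).2]
    exact hc _ (e i).2
  · intro hfin
    apply hinf
    have hB : ((fun i : L.ι => D.ρ (e i : D.ι)) '' {i : L.ι | 0 < L.γ i}).Finite := hfin.image _
    have hC := ((hB.union (hB.image (starRingEnd ℂ))).union (Set.finite_singleton ((Θ : ℝ) : ℂ)))
    refine (hC.preimage D.inj.injOn).subset ?_
    intro i hi
    have hre : (D.ρ i).re = Θ := hi
    rcases lt_trichotomy (D.ρ i).im 0 with h | h | h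
    · left; right
      obtain ⟨j, hj, -⟩ := D.conj i
      have hjre : (D.ρ j).re = Θ := by rw [hj, Complex.conj_re]; exact hre
      refine ⟨D.ρ j, ⟨e.symm ⟨j, hjre⟩, ?_, ?_⟩, by rw [hj]; exact Complex.conj_conj _⟩
      · show 0 < L.γ _
        rw [(he _).1, Equiv.apply_symm_apply]
        show 0 < (D.ρ j).im
        rw [hj, Complex.conj_im]
        linarith
      · show D.ρ (e (e.symm _) : D.ι) = _
        rw [Equiv.apply_symm_apply]
    · right
      exact Complex.ext (by simpa using hre) (by simpa using h)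
    · left; left
      refine ⟨e.symm ⟨i, hre⟩, ?_, ?_⟩
      · show 0 < L.γ _
        rw [(he _).1, Equiv.apply_symm_apply]
        exact h
      · show D.ρ (e (e.symm _) : D.ι) = _
        rw [Equiv.apply_symm_apply]
  · have h := D.psi_lim Θ hΘ hΘ1 hmax
    simpa only [hLΘ, hLr] using h

end Pool.Agent.H50.RQ
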