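import Pool.Agent.H50.RQ.Lz2
import Pool.Agent.H50.RL.Fi

/-!
[H50 RQ EF] The explicit formula for an `LF`.

PROOF. Copy `explicit` of `Pool/Agent/H50/RL/Ef.lean`. Multiply `L.ld` and `log_formula`, i.e.
`Σ Λ(n) g(n) n^(-s) = p/(s-1) + C0 - Σ m (1/(s-ρ) - 1/(2-ρ))`, at `s = 2 + it` by `Ft Ψ t/(2π)` and integrate over `t`
(`ft_term`, `ft_const`, `ft_pole` of RL/Fi; the term `n = 0` is `0`; `‖g n‖ ≤ 1`, `Σ Λ(n)/n^2 < ∞`, `Σ m/‖2-ρ‖^2 < ∞`).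
-/

set_option autoImplicit false

namespace Pool.Agent.H50.RQ

open MeasureTheory Filter Topology
open Pool.Agent.H50.RL (SC Lp Lf Wk Ft ft_bound ft_pole ft_const ft_term)

private theorem ne_one (t : ℝ) : (2 + (t : ℂ) * Complex.I) ≠ 1 := by
  intro h
  have := congrArg Complex.re h
  simp at this

private theorem re_s (t : ℝ) : (2 + (t : ℂ) * Complex.I).re = 2 := by simp

private theorem F_cont (L : LF) : Continuous fun t : ℝ =>
    deriv L.F (2 + (t : ℂ) * Complex.I) / L.F (2 + (t : ℂ) * Complex.I) := by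
  have hs : Continuous fun t : ℝ => (2 + (t : ℂ) * Complex.I) := by fun_prop
  have h1 : Continuous fun t : ℝ => L.F (2 + (t : ℂ) * Complex.I) := L.diff.continuous.comp hs
  have h2 : Continuous fun t : ℝ => deriv L.F (2 + (t : ℂ) * Complex.I) := by
    have h3 : Continuous (deriv L.F) := by
      have h4 := L.diff.differentiableOn.deriv isOpen_univ (s := Set.univ)
      exact continuousOn_univ.1 h4.continuousOn
    exact h3.comp hs
  refine h2.div h1 fun t => ?_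
  exact L.ne _ (by rw [re_s]; norm_num)

private theorem two_sub (L : LF) (ρ : L.Z) : 1 ≤ ‖2 - (ρ : ℂ)‖ := by
  have h1 := L.re_lt ρ
  have h2 := Complex.re_le_norm (2 - (ρ : ℂ))
  simp only [Complex.sub_re, Complex.re_ofNat] at h2
  linarith

private theorem s_sub (L : LF) (ρ : L.Z) (t : ℝ) : 1 ≤ ‖2 + (t : ℂ) * Complex.I - (ρ : ℂ)‖ := by
  have h1 := L.re_lt ρ
  have h2 := Complex.re_le_norm (2 + (t : ℂ) * Complex.I - (ρ : ℂ))
  rw [Complex.sub_re, re_s] at h2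
  linarith

private theorem term_bd (L : LF) (ρ : L.Z) (t : ℝ) :
    ‖1 / (2 + (t : ℂ) * Complex.I - (ρ : ℂ)) - 1 / (2 - (ρ : ℂ))‖ ≤
      (1 + t ^ 2) * (2 / ‖2 - (ρ : ℂ)‖ ^ 2) := by
  have ha := s_sub L ρ t
  have hb := two_sub L ρ
  have ha0 : (2 + (t : ℂ) * Complex.I - (ρ : ℂ)) ≠ 0 := by
    rw [← norm_pos_iff]; linarith
  have hb0 : (2 - (ρ : ℂ)) ≠ 0 := by
    rw [← norm_pos_iff]; linarith
  have e1 : 1 / (2 + (t : ℂ) * Complex.I - (ρ : ℂ)) - 1 / (2 - (ρ : ℂ)) =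
      -((t : ℂ) * Complex.I) / ((2 + (t : ℂ) * Complex.I - (ρ : ℂ)) * (2 - (ρ : ℂ))) := by
    field_simp
    ring
  have e2 : ‖-((t : ℂ) * Complex.I)‖ = |t| := by
    rw [norm_neg, norm_mul, Complex.norm_I, mul_one, Complex.norm_real, Real.norm_eq_abs]
  have hle : ‖2 - (ρ : ℂ)‖ ≤ (1 + |t|) * ‖2 + (t : ℂ) * Complex.I - (ρ : ℂ)‖ := by
    have h1 : ‖2 - (ρ : ℂ)‖ ≤ ‖2 + (t : ℂ) * Complex.I - (ρ : ℂ)‖ + ‖-((t : ℂ) * Complex.I)‖ := by
      refine le_trans (le_of_eq ?_) (norm_add_le _ _)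
      congr 1
      ring
    rw [e2] at h1
    nlinarith [abs_nonneg t]
  rw [e1, norm_div, norm_mul, e2]
  have hbp : 0 < ‖2 - (ρ : ℂ)‖ := by linarith
  have hap : 0 < ‖2 + (t : ℂ) * Complex.I - (ρ : ℂ)‖ := by linarith
  rw [div_le_iff₀ (by positivity)]
  have h3 : (1 + t ^ 2) * (2 / ‖2 - (ρ : ℂ)‖ ^ 2) *
      (‖2 + (t : ℂ) * Complex.I - (ρ : ℂ)‖ * ‖2 - (ρ : ℂ)‖) =
      2 * (1 + t ^ 2) * ‖2 + (t : ℂ) * Complex.I - (ρ : ℂ)‖ / ‖2 - (ρ : ℂ)‖ := by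
    field_simp
  rw [h3, le_div_iff₀ hbp]
  have h4 : |t| * (1 + |t|) ≤ 2 * (1 + t ^ 2) := by
    have := sq_abs t
    nlinarith [abs_nonneg t, sq_nonneg (|t| - 1)]
  calc |t| * ‖2 - (ρ : ℂ)‖ ≤ |t| * ((1 + |t|) * ‖2 + (t : ℂ) * Complex.I - (ρ : ℂ)‖) :=
        mul_le_mul_of_nonneg_left hle (abs_nonneg t)
    _ = |t| * (1 + |t|) * ‖2 + (t : ℂ) * Complex.I - (ρ : ℂ)‖ := by ring
    _ ≤ 2 * (1 + t ^ 2) * ‖2 + (t : ℂ) * Complex.I - (ρ : ℂ)‖ :=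
        mul_le_mul_of_nonneg_right h4 hap.le

private theorem w_summ (L : LF) : Summable fun ρ : L.Z => L.m ρ * (2 / ‖2 - (ρ : ℂ)‖ ^ 2) := by
  have h1 := (L.s_one 2 (by norm_num)).mul_left 50
  refine Summable.of_norm_bounded_eventually h1 ?_
  have hfin := L.zfin 1
  have hev : ∀ᶠ ρ : L.Z in cofinite, ¬ ‖(ρ : ℂ)‖ ≤ 1 := by
    rw [Filter.eventually_cofinite]
    simpa only [not_not] using hfin
  filter_upwards [hev] with ρ hρ1
  have hm := L.one_le ρ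
  have hρ : 1 < ‖(ρ : ℂ)‖ := not_le.1 hρ1
  have hb := two_sub L ρ
  rw [Real.norm_eq_abs, abs_of_nonneg (by positivity), Real.rpow_ofNat]
  have key : 2 / ‖2 - (ρ : ℂ)‖ ^ 2 ≤ 50 / ‖(ρ : ℂ)‖ ^ 2 := by
    rw [div_le_div_iff₀ (by positivity) (by positivity)]
    have h2 : ‖(ρ : ℂ)‖ ≤ 4 * ‖2 - (ρ : ℂ)‖ := by
      have h3 : ‖(ρ : ℂ)‖ ≤ ‖(2 : ℂ)‖ + ‖2 - (ρ : ℂ)‖ := by
        refine le_trans (le_of_eq ?_) (norm_sub_le _ _)
        congr 1
        ring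
      have h4 : ‖(2 : ℂ)‖ = 2 := by simp
      rw [h4] at h3
      linarith
    have h5 : ‖(ρ : ℂ)‖ ^ 2 ≤ (4 * ‖2 - (ρ : ℂ)‖) ^ 2 := pow_le_pow_left₀ (by linarith) h2 2
    nlinarith
  calc L.m ρ * (2 / ‖2 - (ρ : ℂ)‖ ^ 2) ≤ L.m ρ * (50 / ‖(ρ : ℂ)‖ ^ 2) :=
        mul_le_mul_of_nonneg_left key (by linarith)
    _ = 50 * (L.m ρ / ‖(ρ : ℂ)‖ ^ 2) := by ring

private theorem zz_countable (L : LF) : Countable L.Z := by
  have h1 := (w_summ L).countable_support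
  have h2 : (Function.support fun ρ : L.Z => L.m ρ * (2 / ‖2 - (ρ : ℂ)‖ ^ 2)) = Set.univ := by
    refine Set.eq_univ_of_forall fun ρ => ?_
    have hm := L.one_le ρ
    have hρ := two_sub L ρ
    rw [Function.mem_support]
    have : 0 < L.m ρ * (2 / ‖2 - (ρ : ℂ)‖ ^ 2) := by positivity
    exact this.ne'
  rw [h2] at h1
  exact Set.countable_univ_iff.1 h1

/-- the term of the Dirichlet series -/
private noncomputable def at' (L : LF) (t : ℝ) (n : ℕ) : ℂ :=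
  (ArithmeticFunction.vonMangoldt n : ℂ) * L.g n * (n : ℂ) ^ (-(2 + (t : ℂ) * Complex.I))

private theorem at_norm (L : LF) (t : ℝ) (n : ℕ) : ‖at' L t n‖ ≤
    ‖LSeries.term (fun n => (ArithmeticFunction.vonMangoldt n : ℂ)) 2 n‖ := by
  unfold at'
  rcases Nat.eq_zero_or_pos n with rfl | hn
  · simp
  · rw [LSeries.norm_term_eq, Complex.re_ofNat, if_neg hn.ne', norm_mul, norm_mul,
      Complex.norm_natCast_cpow_of_pos hn]
    have h1 : (-(2 + (t : ℂ) * Complex.I)).re = -2 := by simp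
    rw [h1, Real.rpow_neg (Nat.cast_nonneg n), div_eq_mul_inv]
    refine mul_le_mul_of_nonneg_right ?_ (by positivity)
    exact mul_le_of_le_one_right (norm_nonneg _) (L.gle n)

theorem LF.explicit (L : LF) : ∃ C0 : ℂ, ∀ Ψ : ℝ → ℝ, ContDiff ℝ 4 Ψ → HasCompactSupport Ψ →
    (Summable fun ρ : L.Z => L.m ρ * ‖Lp Ψ ρ - (Ψ 0 : ℂ) / (2 - (ρ : ℂ))‖) ∧
    (∑' n : ℕ, (ArithmeticFunction.vonMangoldt n : ℂ) * L.g n * (Ψ (Real.log n) : ℂ)) =
      C0 * Ψ 0 + L.p * Lp Ψ 1 - ∑' ρ : L.Z, (L.m ρ : ℂ) * (Lp Ψ ρ - (Ψ 0 : ℂ) / (2 - (ρ : ℂ))) := by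
  obtain ⟨C0, hC⟩ := L.log_formula
  refine ⟨C0, fun Ψ hΨ hc => ?_⟩
  haveI := zz_countable L
  obtain ⟨hcont, C, hCb⟩ := ft_bound Ψ hΨ hc
  have hC0 : 0 ≤ C := by
    have h1 := (norm_nonneg _).trans (hCb 0)
    simpa using h1
  -- weighted integrability
  have hW : Integrable fun t : ℝ => (1 + t ^ 2) * ‖Ft Ψ t‖ := by
    have h1 : Integrable fun t : ℝ => C * (1 + t ^ 2)⁻¹ := integrable_inv_one_add_sq.const_mul C
    refine h1.mono' (by fun_prop) (ae_of_all _ fun t => ?_)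
    rw [Real.norm_eq_abs, abs_of_nonneg (by positivity)]
    have h2 := hCb t
    have hp : 0 < 1 + t ^ 2 := by positivity
    calc (1 + t ^ 2) * ‖Ft Ψ t‖ ≤ (1 + t ^ 2) * (C / (1 + t ^ 2) ^ 2) :=
          mul_le_mul_of_nonneg_left h2 hp.le
      _ = C * (1 + t ^ 2)⁻¹ := by field_simp
  have hF : Integrable (Ft Ψ) := by
    refine hW.mono' hcont.aestronglyMeasurable (ae_of_all _ fun t => ?_)
    have : 0 ≤ t ^ 2 * ‖Ft Ψ t‖ := by positivity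
    linarith
  have hpole : ∀ z : ℂ, z.re < 1 ∨ z = 1 → Integrable fun t : ℝ =>
      Ft Ψ t * (1 / (2 + (t : ℂ) * Complex.I - z)) := by
    intro z hz
    have hre : ∀ t : ℝ, 1 ≤ ‖2 + (t : ℂ) * Complex.I - z‖ := by
      intro t
      have h2 := Complex.re_le_norm (2 + (t : ℂ) * Complex.I - z)
      rw [Complex.sub_re, re_s] at h2
      rcases hz with h | rfl
      · linarith
      · rw [Complex.one_re] at h2
        linarith
    have hne : ∀ t : ℝ, 2 + (t : ℂ) * Complex.I - z ≠ 0 := by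
      intro t
      rw [← norm_pos_iff]
      linarith [hre t]
    have hcz : Continuous fun t : ℝ => 1 / (2 + (t : ℂ) * Complex.I - z) :=
      continuous_const.div (by fun_prop) hne
    refine hF.norm.mono' (hcont.mul hcz).aestronglyMeasurable (ae_of_all _ fun t => ?_)
    rw [norm_mul, norm_div, norm_one]
    refine mul_le_of_le_one_right (norm_nonneg _) ?_
    rw [div_le_one (by linarith [hre t])]
    exact hre t
  -- the terms of the sum over the zeros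
  have hT : ∀ ρ : L.Z, Integrable fun t : ℝ => Ft Ψ t *
      ((L.m ρ : ℂ) * (1 / (2 + (t : ℂ) * Complex.I - (ρ : ℂ)) - 1 / (2 - (ρ : ℂ)))) := by
    intro ρ
    have h1 := ((hpole ρ (Or.inl (L.re_lt ρ))).sub (hF.mul_const (1 / (2 - (ρ : ℂ))))).const_mul
      (L.m ρ : ℂ)
    refine h1.congr (ae_of_all _ fun t => ?_)
    simp only [Pi.sub_apply]
    ring
  have hTn : ∀ ρ : L.Z, ∀ t : ℝ, ‖Ft Ψ t *
      ((L.m ρ : ℂ) * (1 / (2 + (t : ℂ) * Complex.I - (ρ : ℂ)) - 1 / (2 - (ρ : ℂ))))‖ ≤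
      (L.m ρ * (2 / ‖2 - (ρ : ℂ)‖ ^ 2)) * ((1 + t ^ 2) * ‖Ft Ψ t‖) := by
    intro ρ t
    have hm := L.one_le ρ
    rw [norm_mul, norm_mul, Complex.norm_real, Real.norm_eq_abs, abs_of_nonneg (by linarith)]
    have h1 := term_bd L ρ t
    calc ‖Ft Ψ t‖ * (L.m ρ * ‖1 / (2 + (t : ℂ) * Complex.I - (ρ : ℂ)) - 1 / (2 - (ρ : ℂ))‖)
        ≤ ‖Ft Ψ t‖ * (L.m ρ * ((1 + t ^ 2) * (2 / ‖2 - (ρ : ℂ)‖ ^ 2))) := by
          refine mul_le_mul_of_nonneg_left (mul_le_mul_of_nonneg_left h1 (by linarith))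
            (norm_nonneg _)
      _ = _ := by ring
  have hTi : ∀ ρ : L.Z, ∫ t : ℝ, ‖Ft Ψ t *
      ((L.m ρ : ℂ) * (1 / (2 + (t : ℂ) * Complex.I - (ρ : ℂ)) - 1 / (2 - (ρ : ℂ))))‖ ≤
      (L.m ρ * (2 / ‖2 - (ρ : ℂ)‖ ^ 2)) * ∫ t : ℝ, (1 + t ^ 2) * ‖Ft Ψ t‖ := by
    intro ρ
    rw [← integral_const_mul]
    exact integral_mono (hT ρ).norm (hW.const_mul _) (hTn ρ)
  have hTs : Summable fun ρ : L.Z => ∫ t : ℝ, ‖Ft Ψ t *
      ((L.m ρ : ℂ) * (1 / (2 + (t : ℂ) * Complex.I - (ρ : ℂ)) - 1 / (2 - (ρ : ℂ))))‖ :=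
    Summable.of_nonneg_of_le (fun ρ => integral_nonneg fun t => norm_nonneg _) hTi
      ((w_summ L).mul_right _)
  have hTe : ∀ ρ : L.Z, (1 / (2 * Real.pi) : ℂ) * ∫ t : ℝ, Ft Ψ t *
      ((L.m ρ : ℂ) * (1 / (2 + (t : ℂ) * Complex.I - (ρ : ℂ)) - 1 / (2 - (ρ : ℂ)))) =
      (L.m ρ : ℂ) * (Lp Ψ ρ - (Ψ 0 : ℂ) / (2 - (ρ : ℂ))) := by
    intro ρ
    have hre : (ρ : ℂ).re < 2 := by linarith [L.re_lt ρ]
    rw [← ft_pole Ψ hΨ hc ρ hre, ← ft_const Ψ hΨ hc]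
    have h1 : (fun t : ℝ => Ft Ψ t *
      ((L.m ρ : ℂ) * (1 / (2 + (t : ℂ) * Complex.I - (ρ : ℂ)) - 1 / (2 - (ρ : ℂ))))) =
      fun t : ℝ => (L.m ρ : ℂ) * (Ft Ψ t * (1 / (2 + (t : ℂ) * Complex.I - (ρ : ℂ))) -
        Ft Ψ t * (1 / (2 - (ρ : ℂ)))) := by
      funext t
      ring
    rw [h1, integral_const_mul, integral_sub (hpole ρ (Or.inl (L.re_lt ρ)))
      (hF.mul_const (1 / (2 - (ρ : ℂ)))), integral_mul_const]
    ring
  -- summability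
  have hfirst : Summable fun ρ : L.Z => L.m ρ * ‖Lp Ψ ρ - (Ψ 0 : ℂ) / (2 - (ρ : ℂ))‖ := by
    refine Summable.of_nonneg_of_le (fun ρ => ?_) (fun ρ => ?_)
      (hTs.mul_left ‖(1 / (2 * Real.pi) : ℂ)‖)
    · have := L.one_le ρ
      positivity
    · have hm := L.one_le ρ
      have h1 : L.m ρ * ‖Lp Ψ ρ - (Ψ 0 : ℂ) / (2 - (ρ : ℂ))‖ =
          ‖(L.m ρ : ℂ) * (Lp Ψ ρ - (Ψ 0 : ℂ) / (2 - (ρ : ℂ)))‖ := by
        rw [norm_mul, Complex.norm_real, Real.norm_eq_abs, abs_of_nonneg (by linarith)]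
      rw [h1, ← hTe ρ, norm_mul]
      exact mul_le_mul_of_nonneg_left (norm_integral_le_integral_norm _) (norm_nonneg _)
  refine ⟨hfirst, ?_⟩
  -- the sum over the zeros, integrated
  have hsum := integral_tsum_of_summable_integral_norm hT hTs
  have hG : Integrable fun t : ℝ => ∑' ρ : L.Z, Ft Ψ t *
      ((L.m ρ : ℂ) * (1 / (2 + (t : ℂ) * Complex.I - (ρ : ℂ)) - 1 / (2 - (ρ : ℂ)))) := by
    have hsplit : ∀ t : ℝ, (∑' ρ : L.Z, Ft Ψ t *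
        ((L.m ρ : ℂ) * (1 / (2 + (t : ℂ) * Complex.I - (ρ : ℂ)) - 1 / (2 - (ρ : ℂ))))) =
        Ft Ψ t * (C0 +
          deriv L.F (2 + (t : ℂ) * Complex.I) / L.F (2 + (t : ℂ) * Complex.I)) := by
      intro t
      have h1 := (hC (2 + (t : ℂ) * Complex.I) (by rw [re_s]; norm_num)).2
      rw [tsum_mul_left]
      congr 1
      linear_combination h1
    have hcontG : Continuous fun t : ℝ => Ft Ψ t * (C0 +
          deriv L.F (2 + (t : ℂ) * Complex.I) / L.F (2 + (t : ℂ) * Complex.I)) :=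
      hcont.mul (continuous_const.add (F_cont L))
    refine (hW.const_mul (∑' ρ : L.Z, L.m ρ * (2 / ‖2 - (ρ : ℂ)‖ ^ 2))).mono' ?_
      (ae_of_all _ fun t => ?_)
    · simp_rw [hsplit]
      exact hcontG.aestronglyMeasurable
    · have hs1 : Summable fun ρ : L.Z =>
          (L.m ρ * (2 / ‖2 - (ρ : ℂ)‖ ^ 2)) * ((1 + t ^ 2) * ‖Ft Ψ t‖) := (w_summ L).mul_right _
      have hs2 : Summable fun ρ : L.Z => ‖Ft Ψ t *
        ((L.m ρ : ℂ) * (1 / (2 + (t : ℂ) * Complex.I - (ρ : ℂ)) - 1 / (2 - (ρ : ℂ))))‖ :=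
        Summable.of_nonneg_of_le (fun ρ => norm_nonneg _) (fun ρ => hTn ρ t) hs1
      calc ‖∑' ρ : L.Z, Ft Ψ t *
        ((L.m ρ : ℂ) * (1 / (2 + (t : ℂ) * Complex.I - (ρ : ℂ)) - 1 / (2 - (ρ : ℂ))))‖
          ≤ ∑' ρ : L.Z, ‖Ft Ψ t *
        ((L.m ρ : ℂ) * (1 / (2 + (t : ℂ) * Complex.I - (ρ : ℂ)) - 1 / (2 - (ρ : ℂ))))‖ :=
            norm_tsum_le_tsum_norm hs2
        _ ≤ ∑' ρ : L.Z, (L.m ρ * (2 / ‖2 - (ρ : ℂ)‖ ^ 2)) * ((1 + t ^ 2) * ‖Ft Ψ t‖) :=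
            hs2.tsum_le_tsum (fun ρ => hTn ρ t) hs1
        _ = _ := tsum_mul_right
  -- the left side
  have hsΛ : Summable fun n : ℕ => ‖LSeries.term
      (fun n => (ArithmeticFunction.vonMangoldt n : ℂ)) 2 n‖ :=
    (ArithmeticFunction.LSeriesSummable_vonMangoldt (s := 2) (by simp)).norm
  have hLc : ∀ n : ℕ, Continuous fun t : ℝ => at' L t n := by
    intro n
    unfold at'
    rcases Nat.eq_zero_or_pos n with rfl | hn
    · simp only [ArithmeticFunction.map_zero, Complex.ofReal_zero, zero_mul]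
      exact continuous_const
    · have hn0 : (n : ℂ) ≠ 0 := by exact_mod_cast hn.ne'
      refine continuous_const.mul (Continuous.const_cpow (by fun_prop) (Or.inl hn0))
  have hLi : ∀ n : ℕ, Integrable fun t : ℝ => Ft Ψ t * at' L t n := by
    intro n
    refine (hF.norm.mul_const ‖LSeries.term
      (fun n => (ArithmeticFunction.vonMangoldt n : ℂ)) 2 n‖).mono'
      (hcont.mul (hLc n)).aestronglyMeasurable (ae_of_all _ fun t => ?_)
    rw [norm_mul]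
    exact mul_le_mul_of_nonneg_left (at_norm L t n) (norm_nonneg _)
  have hLs : Summable fun n : ℕ => ∫ t : ℝ, ‖Ft Ψ t * at' L t n‖ := by
    have h1 : ∀ n : ℕ, ∫ t : ℝ, ‖Ft Ψ t * at' L t n‖ ≤
      (∫ t : ℝ, ‖Ft Ψ t‖) * ‖LSeries.term
        (fun n => (ArithmeticFunction.vonMangoldt n : ℂ)) 2 n‖ := by
      intro n
      rw [← integral_mul_const]
      refine integral_mono (hLi n).norm (hF.norm.mul_const _) fun t => ?_
      show ‖Ft Ψ t * at' L t n‖ ≤ _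
      rw [norm_mul]
      exact mul_le_mul_of_nonneg_left (at_norm L t n) (norm_nonneg _)
    exact Summable.of_nonneg_of_le (fun n => integral_nonneg fun t => norm_nonneg _) h1
      (hsΛ.mul_left _)
  have hLsum := integral_tsum_of_summable_integral_norm hLi hLs
  have hLe : ∀ n : ℕ, (1 / (2 * Real.pi) : ℂ) * ∫ t : ℝ, Ft Ψ t * at' L t n =
      (ArithmeticFunction.vonMangoldt n : ℂ) * L.g n * (Ψ (Real.log n) : ℂ) := by
    intro n
    rcases Nat.eq_zero_or_pos n with rfl | hn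
    · simp [at']
    · rw [← ft_term Ψ hΨ hc n hn]
      have h1 : (fun t : ℝ => Ft Ψ t * at' L t n) =
          fun t : ℝ => ((ArithmeticFunction.vonMangoldt n : ℂ) * L.g n) * (Ft Ψ t *
            (n : ℂ) ^ (-(2 + (t : ℂ) * Complex.I))) := by
        funext t
        unfold at'
        ring
      rw [h1, integral_const_mul]
      ring
  have hmain : ∀ t : ℝ, (∑' n : ℕ, Ft Ψ t * at' L t n) =
      (L.p * (Ft Ψ t * (1 / (2 + (t : ℂ) * Complex.I - 1))) + Ft Ψ t * C0) - ∑' ρ : L.Z, Ft Ψ t *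
      ((L.m ρ : ℂ) * (1 / (2 + (t : ℂ) * Complex.I - (ρ : ℂ)) - 1 / (2 - (ρ : ℂ)))) := by
    intro t
    have h1 := (hC (2 + (t : ℂ) * Complex.I) (by rw [re_s]; norm_num)).2
    have h2 := L.ld (2 + (t : ℂ) * Complex.I) (by rw [re_s]; norm_num)
    rw [tsum_mul_left, tsum_mul_left]
    have h3 : (∑' n : ℕ, at' L t n) = -(deriv L.F (2 + (t : ℂ) * Complex.I) /
          L.F (2 + (t : ℂ) * Complex.I)) + L.p / (2 + (t : ℂ) * Complex.I - 1) := by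
      rw [h2, sub_add_cancel]
      rfl
    rw [h3, h1]
    ring
  have hR1 : (1 / (2 * Real.pi) : ℂ) * ∫ t : ℝ, Ft Ψ t * (1 / (2 + (t : ℂ) * Complex.I - 1)) =
      Lp Ψ 1 := ft_pole Ψ hΨ hc 1 (by norm_num)
  have hR2 : (1 / (2 * Real.pi) : ℂ) * ∫ t : ℝ, Ft Ψ t * C0 = C0 * Ψ 0 := by
    rw [integral_mul_const, ← ft_const Ψ hΨ hc]
    ring
  simp_rw [← hLe, ← hTe]
  rw [tsum_mul_left, tsum_mul_left, hLsum, hsum]
  simp_rw [hmain]
  have hA1 : Integrable fun t : ℝ => L.p * (Ft Ψ t * (1 / (2 + (t : ℂ) * Complex.I - 1))) :=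
    (hpole 1 (Or.inr rfl)).const_mul L.p
  have hA : Integrable fun t : ℝ => L.p * (Ft Ψ t * (1 / (2 + (t : ℂ) * Complex.I - 1))) + Ft Ψ t * C0 :=
    hA1.add (hF.mul_const C0)
  rw [integral_sub hA hG, integral_add hA1 (hF.mul_const C0), integral_const_mul, ← hR1, ← hR2]
  ring

end Pool.Agent.H50.RQ
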