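import Pool.Agent.H50.RQ.Ms
import Pool.Agent.H48.WN.Sub

/-!
[H50 RQ GD] Few unit windows contain a zero of `L(s, χ)` to the right of `1/2 + d`.

PROOF. `gdX`: copy `Pool/Agent/H48/WN/Gdh.lean` (`gdh`; there `Gm`, `HH` for zeta; here `GmX χ`, `HHX χ`, `msX`; `L(s, χ)` is entire, `DirichletCharacter.differentiable_LFunction hχ`, so it is simpler).
`bad_heightsX`: copy `Pool/Agent/H50/RL/Cl2.lean` (`bad_heights`): `GmX χ d T ρ = -1` at a zero; `Re ρ ≤ 2` by `DirichletCharacter.LFunction_ne_zero_of_one_le_re`.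
-/

set_option autoImplicit false

namespace Pool.Agent.H50.RQ

open MeasureTheory Filter Topology
open Pool.Agent.H50.RL (SC Lp Lf Wk Ft)

private theorem gdX_diff {N : ℕ} [NeZero N] (χ : DirichletCharacter ℂ N) (hχ : χ ≠ 1) (d T : ℝ)
    (s : ℂ) : DifferentiableAt ℂ (GmX χ d T) s := by
  have h1 : DifferentiableAt ℂ (MoX χ d T) s := by
    unfold MoX
    apply DifferentiableAt.fun_sum
    intro k hk
    apply DifferentiableAt.const_mul
    apply DifferentiableAt.const_cpow differentiableAt_id.neg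
    left
    have : 1 ≤ k := (Finset.mem_Icc.1 hk).1
    exact_mod_cast (by omega : k ≠ 0)
  have h2 : DifferentiableAt ℂ (fun z => DirichletCharacter.LFunction χ z * MoX χ d T z - 1) s :=
    ((DirichletCharacter.differentiable_LFunction hχ s).mul h1).sub_const 1
  exact h2

private theorem gdX_ex {N : ℕ} [NeZero N] (χ : DirichletCharacter ℂ N) (hχ : χ ≠ 1) (d T : ℝ) :
    ∃ g : ℝ → ℝ → ℝ, Continuous (Function.uncurry g) ∧ (∀ x t, 0 ≤ g x t) ∧
    ∀ x t : ℝ, 1 ≤ t → ‖GmX χ d T ((x : ℂ) + (t : ℂ) * Complex.I)‖ ^ 2 = g x t := by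
  refine ⟨fun x t => ‖GmX χ d T ((x : ℂ) + (t : ℂ) * Complex.I)‖ ^ 2, ?_, fun x t => by positivity,
    fun x t _ => rfl⟩
  have h1 : Continuous (GmX χ d T) := by
    rw [continuous_iff_continuousAt]
    exact fun s => (gdX_diff χ hχ d T s).continuousAt
  have h2 : Continuous (fun q : ℝ × ℝ => (q.1 : ℂ) + (q.2 : ℂ) * Complex.I) := by
    fun_prop
  exact ((h1.comp h2).norm).pow 2

private theorem gdh_io (F : ℝ → ℝ → ℝ) (hF : Continuous (Function.uncurry F)) (a b c e : ℝ) :
    IntegrableOn (Function.uncurry F) (Set.uIoc a b ×ˢ Set.uIoc c e) := by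
  have h : IntegrableOn (Function.uncurry F) (Set.uIcc a b ×ˢ Set.uIcc c e) :=
    hF.continuousOn.integrableOn_compact (isCompact_uIcc.prod isCompact_uIcc)
  exact h.mono_set (Set.prod_mono Set.uIoc_subset_uIcc Set.uIoc_subset_uIcc)

/-- growth facts -/
private theorem gdh_grow (d : ℝ) (hd : 0 < d) : ∃ T0 : ℝ, 10 ≤ T0 ∧ ∀ T : ℝ, T0 ≤ T →
    (Real.log T) ^ 2 + 2 ≤ T / 4 ∧ 6 * ((Real.log T) ^ 2 + 1) ≤ T ^ (d ^ 2 / 16) := by
  have h1 : Filter.Tendsto (fun T : ℝ => (Real.log T) ^ 2 / T) Filter.atTop (nhds 0) := by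
    have := Real.isLittleO_pow_log_id_atTop (n := 2)
    have h := this.tendsto_div_nhds_zero
    simpa using h
  have h2 : Filter.Tendsto (fun T : ℝ => (Real.log T) ^ 2 / T ^ (d ^ 2 / 16)) Filter.atTop (nhds 0) := by
    have := isLittleO_log_rpow_rpow_atTop 2 (show 0 < d ^ 2 / 16 by positivity)
    have h := this.tendsto_div_nhds_zero
    refine h.congr' ?_
    filter_upwards [Filter.eventually_ge_atTop 1] with T hT
    norm_num
  have h3 : Filter.Tendsto (fun T : ℝ => T ^ (d ^ 2 / 16)) Filter.atTop Filter.atTop :=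
    tendsto_rpow_atTop (by positivity)
  have e1 := h1.eventually (gt_mem_nhds (show (0 : ℝ) < 1 / 8 by norm_num))
  have e2 := h2.eventually (gt_mem_nhds (show (0 : ℝ) < 1 / 12 by norm_num))
  have e3 := h3.eventually_ge_atTop 12
  have e := (e1.and (e2.and (e3.and (Filter.eventually_ge_atTop (16 : ℝ)))))
  obtain ⟨A, hA⟩ := Filter.eventually_atTop.1 e
  refine ⟨max A 16, by linarith [le_max_right A 16], fun T hT => ?_⟩
  obtain ⟨f1, f2, f3, f4⟩ := hA T (le_trans (le_max_left _ _) hT)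
  have hT0 : 0 < T := by linarith
  have hp : 0 < T ^ (d ^ 2 / 16) := by positivity
  rw [div_lt_iff₀ hT0] at f1
  rw [div_lt_iff₀ hp] at f2
  constructor
  · linarith
  · linarith

private theorem unit_windows {f : ℝ → ℝ} {a b m : ℝ} (hab : a ≤ b) (hf : ContinuousOn f (Set.Icc a b))
    (h0 : ∀ t ∈ Set.Icc a b, 0 ≤ f t) (K : Finset ℕ)
    (hK : ∀ k ∈ K, a ≤ (k : ℝ) ∧ (k : ℝ) + 1 ≤ b ∧ ∀ t ∈ Set.Icc (k : ℝ) (k + 1), m ≤ f t) :
    (K.card : ℝ) * m ≤ ∫ t in a..b, f t := by
  have hint : IntegrableOn f (Set.Icc a b) := hf.integrableOn_compact isCompact_Icc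
  have hsub : ∀ k ∈ K, Set.Ioc (k : ℝ) (k + 1) ⊆ Set.Ioc a b := by
    intro k hk
    obtain ⟨h1, h2, -⟩ := hK k hk
    exact Set.Ioc_subset_Ioc h1 h2
  have hU : (⋃ k ∈ K, Set.Ioc (k : ℝ) (k + 1)) ⊆ Set.Ioc a b := Set.iUnion₂_subset hsub
  have hmeas : MeasurableSet (⋃ k ∈ K, Set.Ioc (k : ℝ) (k + 1)) :=
    Finset.measurableSet_biUnion K fun k _ => measurableSet_Ioc
  have h1 : ∫ t in (⋃ k ∈ K, Set.Ioc (k : ℝ) (k + 1)), f t =
      ∑ k ∈ K, ∫ t in Set.Ioc (k : ℝ) (k + 1), f t := by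
    refine integral_biUnion_finset K (fun k _ => measurableSet_Ioc) ?_ ?_
    · intro i hi j hj hij
      rw [Function.onFun, Set.disjoint_left]
      intro t h3 h4
      rw [Set.mem_Ioc] at h3 h4
      have h5 : (i : ℝ) < j + 1 := by linarith [h3.1, h4.2]
      have h6 : (j : ℝ) < i + 1 := by linarith [h4.1, h3.2]
      have h7 : i < j + 1 := by exact_mod_cast h5
      have h8 : j < i + 1 := by exact_mod_cast h6
      exact hij (by omega)
    · intro k hk
      exact hint.mono_set ((hsub k hk).trans Set.Ioc_subset_Icc_self)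
  have h2 : ∀ k ∈ K, m ≤ ∫ t in Set.Ioc (k : ℝ) (k + 1), f t := by
    intro k hk
    obtain ⟨-, -, h3⟩ := hK k hk
    have h4 : ∫ t in Set.Ioc (k : ℝ) (k + 1), m ≤ ∫ t in Set.Ioc (k : ℝ) (k + 1), f t := by
      refine setIntegral_mono_on ?_ ?_ measurableSet_Ioc ?_
      · exact integrableOn_const (by simp)
      · exact hint.mono_set ((hsub k hk).trans Set.Ioc_subset_Icc_self)
      · intro t ht
        exact h3 t ⟨ht.1.le, ht.2⟩
    have h5 : ∫ t in Set.Ioc (k : ℝ) (k + 1), m = m := by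
      rw [setIntegral_const]
      simp
    rwa [h5] at h4
  rw [intervalIntegral.integral_of_le hab]
  calc (K.card : ℝ) * m = ∑ k ∈ K, m := by rw [Finset.sum_const, nsmul_eq_mul]
    _ ≤ ∑ k ∈ K, ∫ t in Set.Ioc (k : ℝ) (k + 1), f t := Finset.sum_le_sum h2
    _ = ∫ t in (⋃ k ∈ K, Set.Ioc (k : ℝ) (k + 1)), f t := h1.symm
    _ ≤ ∫ t in Set.Ioc a b, f t := by
        refine setIntegral_mono_set (hint.mono_set Set.Ioc_subset_Icc_self) ?_
          (HasSubset.Subset.eventuallyLE hU)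
        refine (ae_restrict_iff' measurableSet_Ioc).2 (Eventually.of_forall fun t ht => ?_)
        exact h0 t ⟨ht.1.le, ht.2⟩

theorem gdX (N : ℕ) [NeZero N] (χ : DirichletCharacter ℂ N) (hχ : χ ≠ 1) (d : ℝ) (hd : 0 < d) (hd1 : d ≤ 1 / 8) :
    ∃ T0 : ℝ, 10 ≤ T0 ∧ ∀ T : ℝ, T0 ≤ T →
    ContinuousOn (fun t0 => HHX χ d T t0) (Set.Icc T (2 * T)) ∧
    (∫ t0 in T..(2 * T), HHX χ d T t0 ≤ T ^ (1 - d ^ 2 / 16)) ∧
    ∀ t0 : ℝ, T ≤ t0 → t0 ≤ 2 * T → 0 ≤ HHX χ d T t0 ∧
      ∀ s : ℂ, 1 / 2 + d ≤ s.re → s.re ≤ 2 → |s.im - t0| ≤ (Real.log T) ^ 2 →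
        ‖GmX χ d T s‖ ^ 2 ≤ (4 / d ^ 2) * HHX χ d T t0 := by
  obtain ⟨T1, hT1, hmsg⟩ := msX N χ hχ d hd hd1
  obtain ⟨T2, hT2, hgr⟩ := gdh_grow d hd
  refine ⟨max T1 T2, le_max_of_le_left hT1, fun T hT => ?_⟩
  have hTa : T1 ≤ T := le_trans (le_max_left _ _) hT
  have hTb : T2 ≤ T := le_trans (le_max_right _ _) hT
  obtain ⟨g1, g2⟩ := hgr T hTb
  have hT10 : 10 ≤ T := by linarith
  obtain ⟨R, hR⟩ : ∃ R : ℝ, R = (Real.log T) ^ 2 + 1 := ⟨_, rfl⟩
  have hR1 : 1 ≤ R := by rw [hR]; nlinarith [sq_nonneg (Real.log T)]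
  have hRT : R + 1 ≤ T / 4 := by rw [hR]; linarith
  obtain ⟨g, hcont, gnn, geq⟩ := gdX_ex χ hχ d T
  have hHH : ∀ t0 : ℝ, T ≤ t0 → HHX χ d T t0 =
      ∫ x in (1 / 2 + d / 2)..3, ∫ u in (-R)..R, g x (t0 + u) := by
    intro t0 ht0
    unfold HHX
    rw [← hR]
    apply intervalIntegral.integral_congr
    intro x _
    simp only
    have h1 : ∫ u in (-R)..R, g x (t0 + u) = ∫ t in (t0 + -R)..(t0 + R), g x t :=
      intervalIntegral.integral_comp_add_left (fun t => g x t) t0
    rw [h1, ← sub_eq_add_neg]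
    apply intervalIntegral.integral_congr
    intro t ht
    rw [Set.uIcc_of_le (by linarith)] at ht
    exact geq x t (by linarith [ht.1])
  have hin : Continuous (fun p : ℝ × ℝ => ∫ u in (-R)..R, g p.2 (p.1 + u)) := by
    apply intervalIntegral.continuous_parametric_intervalIntegral_of_continuous'
    have : Continuous (fun q : (ℝ × ℝ) × ℝ => (q.1.2, q.1.1 + q.2)) := by fun_prop
    exact hcont.comp this
  have hco : Continuous (fun t0 : ℝ => ∫ x in (1 / 2 + d / 2)..3, ∫ u in (-R)..R, g x (t0 + u)) := by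
    apply intervalIntegral.continuous_parametric_intervalIntegral_of_continuous'
    exact hin
  refine ⟨?_, ?_, ?_⟩
  · apply hco.continuousOn.congr
    intro t0 ht0
    exact hHH t0 ht0.1
  · have e1 : ∫ t0 in T..(2 * T), HHX χ d T t0 = ∫ t0 in T..(2 * T),
        ∫ x in (1 / 2 + d / 2)..3, ∫ u in (-R)..R, g x (t0 + u) := by
      apply intervalIntegral.integral_congr
      intro t0 ht0
      rw [Set.uIcc_of_le (by linarith)] at ht0
      exact hHH t0 ht0.1
    have e2 : ∫ t0 in T..(2 * T), ∫ x in (1 / 2 + d / 2)..3, ∫ u in (-R)..R, g x (t0 + u) =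
        ∫ x in (1 / 2 + d / 2)..3, ∫ t0 in T..(2 * T), ∫ u in (-R)..R, g x (t0 + u) := by
      apply intervalIntegral_intervalIntegral_swap
      exact gdh_io (fun t0 x => ∫ u in (-R)..R, g x (t0 + u)) hin _ _ _ _
    have e3 : ∀ x : ℝ, ∫ t0 in T..(2 * T), ∫ u in (-R)..R, g x (t0 + u) =
        ∫ u in (-R)..R, ∫ t0 in T..(2 * T), g x (t0 + u) := by
      intro x
      apply intervalIntegral_intervalIntegral_swap
      have hc : Continuous (Function.uncurry fun t0 u : ℝ => g x (t0 + u)) := by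
        have : Continuous (fun q : ℝ × ℝ => (x, q.1 + q.2)) := by fun_prop
        exact hcont.comp this
      exact gdh_io _ hc _ _ _ _
    have hcx : ∀ x : ℝ, Continuous (fun t : ℝ => g x t) := by
      intro x
      have : Continuous (fun t : ℝ => (x, t)) := by fun_prop
      exact hcont.comp this
    have e4 : ∀ x : ℝ, ∀ u ∈ Set.Icc (-R) R, ∫ t0 in T..(2 * T), g x (t0 + u) ≤
        ∫ t in (T / 4)..(4 * T), g x t := by
      intro x u hu
      rw [intervalIntegral.integral_comp_add_right (fun t => g x t) u]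
      apply intervalIntegral.integral_mono_interval (by linarith [hu.1]) (by linarith)
        (by linarith [hu.2])
      · exact Filter.Eventually.of_forall fun t => gnn x t
      · exact (hcx x).intervalIntegrable _ _
    have e5 : ∀ x ∈ Set.Icc (1 / 2 + d / 2) 3, ∫ t in (T / 4)..(4 * T), g x t ≤
        T ^ (1 - d ^ 2 / 8) := by
      intro x hx
      have h := hmsg T hTa x hx.1 hx.2
      refine le_trans (le_of_eq ?_) h
      apply intervalIntegral.integral_congr
      intro t ht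
      rw [Set.uIcc_of_le (by linarith)] at ht
      exact (geq x t (by linarith [ht.1])).symm
    have e6 : ∀ x ∈ Set.Icc (1 / 2 + d / 2) 3,
        ∫ t0 in T..(2 * T), ∫ u in (-R)..R, g x (t0 + u) ≤ 2 * R * T ^ (1 - d ^ 2 / 8) := by
      intro x hx
      rw [e3 x]
      have hcu : Continuous (fun u : ℝ => ∫ t0 in T..(2 * T), g x (t0 + u)) := by
        apply intervalIntegral.continuous_parametric_intervalIntegral_of_continuous'
        have : Continuous (fun q : ℝ × ℝ => (x, q.2 + q.1)) := by fun_prop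
        exact hcont.comp this
      calc ∫ u in (-R)..R, ∫ t0 in T..(2 * T), g x (t0 + u)
          ≤ ∫ _u in (-R)..R, T ^ (1 - d ^ 2 / 8) := by
            apply intervalIntegral.integral_mono_on (by linarith)
              (hcu.intervalIntegrable _ _) (intervalIntegrable_const)
            intro u hu
            exact (e4 x u hu).trans (e5 x hx)
        _ = 2 * R * T ^ (1 - d ^ 2 / 8) := by
            rw [intervalIntegral.integral_const, smul_eq_mul]
            ring
    rw [e1, e2]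
    have hTp : 0 < T ^ (1 - d ^ 2 / 8) := by positivity
    have hcx2 : Continuous (fun x : ℝ => ∫ t0 in T..(2 * T), ∫ u in (-R)..R, g x (t0 + u)) := by
      apply intervalIntegral.continuous_parametric_intervalIntegral_of_continuous'
      have : Continuous (fun q : ℝ × ℝ => (q.2, q.1)) := by fun_prop
      exact hin.comp this
    calc ∫ x in (1 / 2 + d / 2)..3, ∫ t0 in T..(2 * T), ∫ u in (-R)..R, g x (t0 + u)
        ≤ ∫ _x in (1 / 2 + d / 2)..3, 2 * R * T ^ (1 - d ^ 2 / 8) := by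
          apply intervalIntegral.integral_mono_on (by linarith)
            (hcx2.intervalIntegrable _ _) (intervalIntegrable_const)
          exact e6
      _ = (3 - (1 / 2 + d / 2)) * (2 * R * T ^ (1 - d ^ 2 / 8)) := by
          rw [intervalIntegral.integral_const, smul_eq_mul]
      _ ≤ 3 * (2 * R * T ^ (1 - d ^ 2 / 8)) := by
          apply mul_le_mul_of_nonneg_right (by linarith)
          positivity
      _ = (6 * R) * T ^ (1 - d ^ 2 / 8) := by ring
      _ ≤ T ^ (d ^ 2 / 16) * T ^ (1 - d ^ 2 / 8) := by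
          apply mul_le_mul_of_nonneg_right _ hTp.le
          rw [hR]
          exact g2
      _ = T ^ (1 - d ^ 2 / 16) := by
          rw [← Real.rpow_add (by linarith)]
          congr 1
          ring
  · intro t0 ht0 ht0'
    have hnn : 0 ≤ HHX χ d T t0 := by
      rw [hHH t0 ht0]
      apply intervalIntegral.integral_nonneg (by linarith)
      intro x _
      apply intervalIntegral.integral_nonneg (by linarith)
      intro u _
      exact gnn x _
    refine ⟨hnn, ?_⟩
    intro s hs1 hs2 hs3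
    have hsq := Pool.Agent.H48.WN.sub_sq (GmX χ d T) s (d / 2) (by linarith) (by
      intro w _ _
      exact gdX_diff χ hχ d T w)
    have e0 : 1 / (d / 2) ^ 2 = 4 / d ^ 2 := by
      field_simp
      norm_num
    rw [e0] at hsq
    refine hsq.trans ?_
    apply mul_le_mul_of_nonneg_left _ (by positivity)
    rw [abs_le] at hs3
    have f1 : ∫ x in (s.re - d / 2)..(s.re + d / 2), ∫ t in (s.im - d / 2)..(s.im + d / 2),
        ‖GmX χ d T ((x : ℂ) + (t : ℂ) * Complex.I)‖ ^ 2 = ∫ x in (s.re - d / 2)..(s.re + d / 2),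
        ∫ t in (s.im - d / 2)..(s.im + d / 2), g x t := by
      apply intervalIntegral.integral_congr
      intro x _
      apply intervalIntegral.integral_congr
      intro t ht
      rw [Set.uIcc_of_le (by linarith)] at ht
      exact geq x t (by linarith [ht.1, hs3.1])
    have f2 : HHX χ d T t0 = ∫ x in (1 / 2 + d / 2)..3, ∫ t in (t0 - R)..(t0 + R), g x t := by
      unfold HHX
      rw [← hR]
      apply intervalIntegral.integral_congr
      intro x _
      apply intervalIntegral.integral_congr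
      intro t ht
      rw [Set.uIcc_of_le (by linarith)] at ht
      exact geq x t (by linarith [ht.1])
    rw [f1, f2]
    have hc1 : ∀ a b : ℝ, Continuous (fun x : ℝ => ∫ t in a..b, g x t) := by
      intro a b
      apply intervalIntegral.continuous_parametric_intervalIntegral_of_continuous'
      exact hcont
    have hcx : ∀ x : ℝ, Continuous (fun t : ℝ => g x t) := by
      intro x
      have : Continuous (fun t : ℝ => (x, t)) := by fun_prop
      exact hcont.comp this
    calc ∫ x in (s.re - d / 2)..(s.re + d / 2), ∫ t in (s.im - d / 2)..(s.im + d / 2), g x t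
        ≤ ∫ x in (s.re - d / 2)..(s.re + d / 2), ∫ t in (t0 - R)..(t0 + R), g x t := by
          apply intervalIntegral.integral_mono_on (by linarith)
            ((hc1 _ _).intervalIntegrable _ _) ((hc1 _ _).intervalIntegrable _ _)
          intro x _
          apply intervalIntegral.integral_mono_interval (by linarith [hs3.1]) (by linarith)
            (by linarith [hs3.2])
          · exact Filter.Eventually.of_forall fun t => gnn x t
          · exact (hcx x).intervalIntegrable _ _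
      _ ≤ ∫ x in (1 / 2 + d / 2)..3, ∫ t in (t0 - R)..(t0 + R), g x t := by
          apply intervalIntegral.integral_mono_interval (by linarith) (by linarith) (by linarith)
          · refine Filter.Eventually.of_forall fun x => ?_
            apply intervalIntegral.integral_nonneg (by linarith)
            intro t _
            exact gnn x t
          · exact (hc1 _ _).intervalIntegrable _ _

theorem bad_heightsX (N : ℕ) [NeZero N] (χ : DirichletCharacter ℂ N) (hχ : χ ≠ 1) (d : ℝ) (hd : 0 < d) (hd1 : d ≤ 1 / 8) :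
    ∃ c T0 : ℝ, 0 < c ∧ 10 ≤ T0 ∧ ∀ T : ℝ, T0 ≤ T →
    ∀ K : Finset ℕ, (∀ k ∈ K, T ≤ (k : ℝ) ∧ (k : ℝ) + 1 ≤ 2 * T ∧
      ∃ ρ : ℂ, DirichletCharacter.LFunction χ ρ = 0 ∧ 1 / 2 + d ≤ ρ.re ∧ (k : ℝ) ≤ ρ.im ∧ ρ.im ≤ (k : ℝ) + 1) →
    (K.card : ℝ) ≤ T ^ (1 - c) := by
  obtain ⟨T1, hT1, hg⟩ := gdX N χ hχ d hd hd1
  have hlim : Tendsto (fun T : ℝ => T ^ (d ^ 2 / 32)) atTop atTop :=
    tendsto_rpow_atTop (by positivity)
  obtain ⟨T2, hT2⟩ := eventually_atTop.1 (hlim.eventually_ge_atTop (4 / d ^ 2))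
  refine ⟨d ^ 2 / 32, max T1 T2, by positivity, le_max_of_le_left hT1, fun T hT K hK => ?_⟩
  have hTa : T1 ≤ T := le_trans (le_max_left _ _) hT
  have hTb : T2 ≤ T := le_trans (le_max_right _ _) hT
  have hT10 : 10 ≤ T := by linarith
  have hT0 : 0 < T := by linarith
  obtain ⟨hc, hi, hh⟩ := hg T hTa
  have hlog : 1 ≤ (Real.log T) ^ 2 := by
    have h1 : 1 ≤ Real.log T := by
      rw [Real.le_log_iff_exp_le hT0]
      linarith [Real.exp_one_lt_d9]
    nlinarith
  have h1 := unit_windows (f := fun t0 => HHX χ d T t0) (a := T) (b := 2 * T) (m := d ^ 2 / 4)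
    (by linarith) hc (fun t ht => (hh t ht.1 ht.2).1) K (by
      intro k hk
      obtain ⟨h1, h2, ρ, h3, h4, h5, h6⟩ := hK k hk
      refine ⟨h1, h2, fun t ht => ?_⟩
      obtain ⟨-, h7⟩ := hh t (by linarith [ht.1]) (by linarith [ht.2])
      have hre : ρ.re ≤ 2 := by
        by_contra hlt
        exact DirichletCharacter.LFunction_ne_zero_of_one_le_re χ (Or.inl hχ) (by linarith) h3
      have h8 := h7 ρ h4 hre (by
        have : |ρ.im - t| ≤ 1 := by
          rw [abs_le]
          constructor <;> linarith [ht.1, ht.2]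
        linarith)
      have h9 : GmX χ d T ρ = -1 := by
        unfold GmX
        rw [h3, zero_mul, zero_sub]
      rw [h9, norm_neg, norm_one, one_pow] at h8
      have h10 : d ^ 2 / 4 * 1 ≤ d ^ 2 / 4 * (4 / d ^ 2 * HHX χ d T t) :=
        mul_le_mul_of_nonneg_left h8 (by positivity)
      have h11 : d ^ 2 / 4 * (4 / d ^ 2 * HHX χ d T t) = HHX χ d T t := by
        field_simp
      rw [h11, mul_one] at h10
      exact h10)
  have h2 : (K.card : ℝ) * (d ^ 2 / 4) ≤ T ^ (1 - d ^ 2 / 16) := h1.trans hi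
  have h3 : (K.card : ℝ) ≤ 4 / d ^ 2 * T ^ (1 - d ^ 2 / 16) := by
    have h4 := mul_le_mul_of_nonneg_left h2 (show (0 : ℝ) ≤ 4 / d ^ 2 by positivity)
    have h5 : 4 / d ^ 2 * ((K.card : ℝ) * (d ^ 2 / 4)) = K.card := by
      field_simp
    rwa [h5] at h4
  calc (K.card : ℝ) ≤ 4 / d ^ 2 * T ^ (1 - d ^ 2 / 16) := h3
    _ ≤ T ^ (d ^ 2 / 32) * T ^ (1 - d ^ 2 / 16) :=
        mul_le_mul_of_nonneg_right (hT2 T hTb) (Real.rpow_nonneg hT0.le _)
    _ = T ^ (1 - d ^ 2 / 32) := by
        rw [← Real.rpow_add hT0]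
        congr 1
        ring

end Pool.Agent.H50.RQ
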