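import Pool.Agent.H50.RQ.Df
import Pool.Agent.H50.RL.Zg

/-!
[H50 RQ LK] The `LF` of the Riemann zeta function: `F = (s-1) ζ(s)`, `g = 1`, `p = 1`.

PROOF. `ff_ne`: `FF_zero_iff` (RL/Zf) and `riemannZeta_ne_zero_of_one_le_re`. `ff_ld`: `FF_logDeriv` (RL/Zf) and
`ArithmeticFunction.LSeries_vonMangoldt_eq_deriv_riemannZeta_div` (`LSeries` unfolded: `LSeries.term`, the term `n = 0` is `0`, `f n / n^s = f n * n^(-s)`,
`Complex.cpow_neg`). See the start of the proof in RL/Ef.lean.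
-/

set_option autoImplicit false

namespace Pool.Agent.H50.RQ

open MeasureTheory Filter Topology
open Pool.Agent.H50.RL (SC Lp Lf Wk Ft)

theorem ff_ne (s : ℂ) (hs : 1 ≤ s.re) : RL.FF s ≠ 0 := fun h =>
  riemannZeta_ne_zero_of_one_le_re hs ((RL.FF_zero_iff s).1 h)

theorem ff_ld (s : ℂ) (hs : 1 < s.re) : -(deriv RL.FF s / RL.FF s) =
    (∑' n : ℕ, (ArithmeticFunction.vonMangoldt n : ℂ) * 1 * (n : ℂ) ^ (-s)) - 1 / (s - 1) := by
  have h1 := RL.FF_logDeriv s hs
  rw [logDeriv_apply] at h1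
  have h2 := ArithmeticFunction.LSeries_vonMangoldt_eq_deriv_riemannZeta_div hs
  have h3 : LSeries (fun n => (ArithmeticFunction.vonMangoldt n : ℂ)) s =
      ∑' n : ℕ, (ArithmeticFunction.vonMangoldt n : ℂ) * 1 * (n : ℂ) ^ (-s) := by
    unfold LSeries
    refine tsum_congr fun n => ?_
    rcases eq_or_ne n 0 with rfl | hn
    · rw [LSeries.term_zero, ArithmeticFunction.map_zero, Complex.ofReal_zero, zero_mul, zero_mul]
    · rw [LSeries.term_of_ne_zero hn, Complex.cpow_neg, mul_one, div_eq_mul_inv]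
  rw [h1, ← h3, h2]
  ring

/-- the zeta function -/
noncomputable def lfz : LF where
  F := RL.FF
  g := fun _ => 1
  p := 1
  diff := RL.FF_diff
  grow := RL.FF_growth
  gle := fun _ => by simp
  ne := ff_ne
  ld := ff_ld

end Pool.Agent.H50.RQ
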