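import Pool.Agent.H50.RQ.Df
import Pool.Agent.H50.RL.Pf3

/-!
[H50 RQ LZ1] Zeros of an `LF`: real parts, multiplicities, local finiteness, `Σ m/|ρ|^b < ∞` for `b > 1`.

PROOF. `re_lt`: `L.ne` (`Re ρ ≥ 1` impossible). `one_le`: `L.F` is entire and `F 2 ≠ 0`, so it is not identically zero and the order at a zero
is finite and positive (see `mz_one_le` in `Pool/Agent/H50/RL/Zf.lean`). `zfin`: zeros of an entire function `≠ 0` in a compact ball are finitely many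
(`zz_finite` in RL/Zf, or `pf_factor` of RL/Pf1 for `f z = F (z+2)`).
`s_one`: `f z = L.F (z + 2)`: `f 0 ≠ 0`, entire, `‖f z‖ ≤ exp(C (3 + ‖z‖)^a) ≤ exp(|C| 3^a (1 + ‖z‖)^a)`, `a = (1+b)/2`; `pf_summ f` gives
`Σ_{f z = 0} ord_z f/‖z‖^b < ∞`. Transport by `ρ ↦ ρ - 2` (`ord_{ρ-2} f = ord_ρ F`: composition with a translation; e.g. both orders are characterised by
`analyticOrderAt_eq_natCast`/`AnalyticAt.analyticOrderAt_comp...`), and compare: for `‖ρ‖ ≥ 4`, `‖ρ - 2‖ ≤ 2 ‖ρ‖`, so `1/‖ρ‖^b ≤ 2^b/‖ρ-2‖^b`;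
the finitely many zeros with `‖ρ‖ < 4` do not matter (`zfin`; for `ρ = 0` the term is `m/0 = 0`, as `0^b = 0` for `b > 1`).
-/

set_option autoImplicit false

namespace Pool.Agent.H50.RQ

open MeasureTheory Filter Topology
open Pool.Agent.H50.RL (SC Lp Lf Wk Ft)

theorem LF.re_lt (L : LF) (ρ : L.Z) : (ρ : ℂ).re < 1 := by
  by_contra h
  exact L.ne ρ (not_lt.1 h) ρ.2

private theorem lz_two (L : LF) : L.F 2 ≠ 0 := by
  refine L.ne 2 ?_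
  norm_num

private theorem lz_top (L : LF) (z : ℂ) : analyticOrderAt L.F z ≠ ⊤ := by
  intro h
  rw [analyticOrderAt_eq_top] at h
  have h1 : AnalyticOnNhd ℂ L.F Set.univ := fun w _ => L.diff.analyticAt w
  have h2 := h1.eqOn_zero_of_preconnected_of_eventuallyEq_zero isPreconnected_univ (Set.mem_univ z) h
  exact lz_two L (h2 (Set.mem_univ 2))

theorem LF.one_le (L : LF) (ρ : L.Z) : 1 ≤ L.m ρ := by
  show (1 : ℝ) ≤ (analyticOrderNatAt L.F (ρ : ℂ) : ℝ)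
  have h2 : analyticOrderAt L.F (ρ : ℂ) ≠ 0 := (L.diff.analyticAt _).analyticOrderAt_ne_zero.2 ρ.2
  have h3 := Nat.cast_analyticOrderNatAt (lz_top L ρ)
  have h4 : analyticOrderNatAt L.F (ρ : ℂ) ≠ 0 := by
    intro h5
    rw [h5] at h3
    exact h2 h3.symm
  exact_mod_cast Nat.one_le_iff_ne_zero.2 h4

/-- the translated function -/
private def lzf (L : LF) : ℂ → ℂ := L.F ∘ fun z => z + 2

private theorem lzf_apply (L : LF) (z : ℂ) : lzf L z = L.F (z + 2) := rfl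

private theorem lzf_diff (L : LF) : Differentiable ℂ (lzf L) :=
  L.diff.comp (differentiable_id.add_const 2)

private theorem lzf_zero (L : LF) : lzf L 0 ≠ 0 := by
  rw [lzf_apply, zero_add]
  exact lz_two L

theorem LF.zfin (L : LF) (R : ℝ) : {ρ : L.Z | ‖(ρ : ℂ)‖ ≤ R}.Finite := by
  obtain ⟨Z, -, hZ, -⟩ := RL.pf_factor (lzf L) (lzf_diff L) (lzf_zero L) (R + 2)
  refine Set.Finite.of_injOn (f := fun ρ : L.Z => (ρ : ℂ) - 2) (t := (Z : Set ℂ)) ?_ ?_ Z.finite_toSet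
  · intro ρ hρ
    rw [Finset.mem_coe, hZ, lzf_apply, sub_add_cancel]
    refine ⟨ρ.2, ?_⟩
    have h1 : ‖(ρ : ℂ)‖ ≤ R := hρ
    have h2 : ‖(ρ : ℂ) - 2‖ ≤ ‖(ρ : ℂ)‖ + ‖(2 : ℂ)‖ := norm_sub_le _ _
    rw [Complex.norm_ofNat] at h2
    linarith
  · intro ρ _ ρ' _ h
    apply Subtype.ext
    exact sub_left_injective h

private theorem lz_order (L : LF) (ρ : ℂ) : analyticOrderNatAt (lzf L) (ρ - 2) = analyticOrderNatAt L.F ρ := by
  have h1 : AnalyticAt ℂ (fun z : ℂ => z + 2) (ρ - 2) := analyticAt_id.add analyticAt_const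
  have h2 : deriv (fun z : ℂ => z + 2) (ρ - 2) ≠ 0 := by
    rw [deriv_add_const]
    have h3 : deriv (fun z : ℂ => z) (ρ - 2) = 1 := deriv_id _
    rw [h3]
    exact one_ne_zero
  have h3 := analyticOrderAt_comp_of_deriv_ne_zero (f := L.F) h1 h2
  unfold analyticOrderNatAt
  show (analyticOrderAt (L.F ∘ fun z => z + 2) (ρ - 2)).toNat = _
  rw [h3, sub_add_cancel]

/-- the translation of the zeros -/
private def lz_equiv (L : LF) : L.Z ≃ {z : ℂ // lzf L z = 0} where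
  toFun ρ := ⟨(ρ : ℂ) - 2, by rw [lzf_apply, sub_add_cancel]; exact ρ.2⟩
  invFun z := ⟨(z : ℂ) + 2, z.2⟩
  left_inv ρ := Subtype.ext (sub_add_cancel _ _)
  right_inv z := Subtype.ext (add_sub_cancel_right _ _)

private theorem lz_sum (L : LF) (b : ℝ) (hb : 1 < b) : Summable fun ρ : L.Z => L.m ρ / ‖(ρ : ℂ) - 2‖ ^ b := by
  obtain ⟨C, hC⟩ := L.grow ((1 + b) / 2) (by linarith)
  have ha : 0 < (1 + b) / 2 := by linarith
  have hgr : ∀ z, ‖lzf L z‖ ≤ Real.exp ((|C| * 3 ^ ((1 + b) / 2)) * (1 + ‖z‖) ^ ((1 + b) / 2)) := by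
    intro z
    rw [lzf_apply]
    refine (hC (z + 2)).trans (Real.exp_le_exp.2 ?_)
    have h1 : ‖z + 2‖ ≤ ‖z‖ + 2 := by
      have h := norm_add_le z 2
      rwa [Complex.norm_ofNat] at h
    have h2 : (1 + ‖z + 2‖) ^ ((1 + b) / 2) ≤ (3 * (1 + ‖z‖)) ^ ((1 + b) / 2) := by
      refine Real.rpow_le_rpow (by positivity) ?_ ha.le
      nlinarith [norm_nonneg z]
    rw [Real.mul_rpow (by norm_num) (by positivity)] at h2
    calc C * (1 + ‖z + 2‖) ^ ((1 + b) / 2) ≤ |C| * (1 + ‖z + 2‖) ^ ((1 + b) / 2) :=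
          mul_le_mul_of_nonneg_right (le_abs_self C) (by positivity)
      _ ≤ |C| * (3 ^ ((1 + b) / 2) * (1 + ‖z‖) ^ ((1 + b) / 2)) := mul_le_mul_of_nonneg_left h2 (abs_nonneg C)
      _ = _ := by ring
  have h := RL.pf_summ (lzf L) (lzf_diff L) (lzf_zero L) ((1 + b) / 2) (|C| * 3 ^ ((1 + b) / 2)) ha hgr b (by linarith)
  have h2 := (lz_equiv L).summable_iff.2 h
  refine h2.congr fun ρ => ?_
  show (analyticOrderNatAt (lzf L) ((ρ : ℂ) - 2) : ℝ) / ‖(ρ : ℂ) - 2‖ ^ b = L.m ρ / ‖(ρ : ℂ) - 2‖ ^ b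
  rw [lz_order]
  rfl

theorem LF.s_one (L : LF) (b : ℝ) (hb : 1 < b) : Summable fun ρ : L.Z => L.m ρ / ‖(ρ : ℂ)‖ ^ b := by
  refine Summable.of_norm_bounded_eventually ((lz_sum L b hb).mul_left (2 ^ b)) ?_
  rw [Filter.eventually_cofinite]
  refine (L.zfin 4).subset fun ρ hρ => ?_
  show ‖(ρ : ℂ)‖ ≤ 4
  by_contra h4
  rw [not_le] at h4
  apply hρ
  have hm : 0 ≤ L.m ρ := zero_le_one.trans (L.one_le ρ)
  have h1 : ‖(ρ : ℂ) - 2‖ ≤ ‖(ρ : ℂ)‖ + 2 := by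
    have h := norm_sub_le (ρ : ℂ) 2
    rwa [Complex.norm_ofNat] at h
  have h2 : 0 < ‖(ρ : ℂ) - 2‖ := by
    have h := norm_sub_norm_le (ρ : ℂ) 2
    rw [Complex.norm_ofNat] at h
    linarith
  have h3 : ‖(ρ : ℂ) - 2‖ ≤ 2 * ‖(ρ : ℂ)‖ := by linarith
  have h5 : 0 < ‖(ρ : ℂ)‖ := by linarith
  have h6 : ‖(ρ : ℂ) - 2‖ ^ b ≤ 2 ^ b * ‖(ρ : ℂ)‖ ^ b := by
    rw [← Real.mul_rpow (by norm_num) h5.le]
    exact Real.rpow_le_rpow h2.le h3 (by linarith)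
  have h7 : 0 < ‖(ρ : ℂ) - 2‖ ^ b := Real.rpow_pos_of_pos h2 _
  have h8 : 0 < ‖(ρ : ℂ)‖ ^ b := Real.rpow_pos_of_pos h5 _
  rw [Real.norm_of_nonneg (div_nonneg hm h8.le), div_le_iff₀ h8, mul_div_assoc', div_mul_eq_mul_div, le_div_iff₀ h7]
  calc L.m ρ * ‖(ρ : ℂ) - 2‖ ^ b ≤ L.m ρ * (2 ^ b * ‖(ρ : ℂ)‖ ^ b) := mul_le_mul_of_nonneg_left h6 hm
    _ = 2 ^ b * L.m ρ * ‖(ρ : ℂ)‖ ^ b := by ring

end Pool.Agent.H50.RQ
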