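import Mathlib

/-!
[H50 RQ XC] Complex conjugation.

PROOF. `chi_conj`: `star (χ n) = χ⁻¹ n` (`MulChar.star_apply'`-type lemma, `χ⁻¹ n = (χ n)⁻¹` on units, values are roots of unity, `0` off units). For `Re s > 1` both sides are
`Σ χ⁻¹(n) n^(-conj s)` (`LFunction_eq_LSeries`; `Complex.cpow_conj` for positive real base, conjugation commutes with `tsum`: `Complex.conj_tsum`). Both sides are entire in
`conj s`... precisely `g s = conj (L(conj s, χ))` is entire (`DifferentiableAt.conj_conj`-type lemma, see `an_conj` in RL/Zf.lean) and equals `L(s, χ⁻¹)` for `Re s > 1`, so everywhere.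
`chi_conj_order`: the order of `conj ∘ f ∘ conj` at `conj ρ` is the order of `f` at `ρ` (see `mz_conj` in `Pool/Agent/H50/RL/Zf.lean`).
-/

set_option autoImplicit false

namespace Pool.Agent.H50.RQ

open MeasureTheory Filter Topology

private theorem an_conj {g : ℂ → ℂ} {s : ℂ} (hg : AnalyticAt ℂ g s) :
    AnalyticAt ℂ ((starRingEnd ℂ) ∘ g ∘ (starRingEnd ℂ)) ((starRingEnd ℂ) s) := by
  rw [Complex.analyticAt_iff_eventually_differentiableAt] at hg ⊢
  have h1 : Tendsto (starRingEnd ℂ) (𝓝 ((starRingEnd ℂ) s)) (𝓝 s) := by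
    have h2 := (Complex.continuous_conj.tendsto ((starRingEnd ℂ) s))
    rwa [Complex.conj_conj] at h2
  filter_upwards [h1.eventually hg] with z hz
  have h3 := hz.conj_conj
  rwa [Complex.conj_conj] at h3

private theorem ord_conj {f g : ℂ → ℂ} {s : ℂ} (hf : AnalyticAt ℂ f s) (hg : AnalyticAt ℂ g ((starRingEnd ℂ) s))
    (hfg : ∀ z, g ((starRingEnd ℂ) z) = (starRingEnd ℂ) (f z)) :
    analyticOrderAt g ((starRingEnd ℂ) s) = analyticOrderAt f s := by
  have h5 : Tendsto (starRingEnd ℂ) (𝓝 ((starRingEnd ℂ) s)) (𝓝 s) := by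
    have h2 := (Complex.continuous_conj.tendsto ((starRingEnd ℂ) s))
    rwa [Complex.conj_conj] at h2
  have h6 : ∀ z, g z = (starRingEnd ℂ) (f ((starRingEnd ℂ) z)) := fun z => by
    rw [← hfg, Complex.conj_conj]
  by_cases hT : analyticOrderAt f s = ⊤
  · rw [hT, analyticOrderAt_eq_top]
    rw [analyticOrderAt_eq_top] at hT
    filter_upwards [h5.eventually hT] with z hz
    rw [h6, hz, map_zero]
  · obtain ⟨n, hn⟩ := ENat.ne_top_iff_exists.1 hT
    rw [← hn]
    obtain ⟨g', hg1, hg2, hg3⟩ := hf.analyticOrderAt_eq_natCast.1 hn.symm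
    refine hg.analyticOrderAt_eq_natCast.2 ⟨(starRingEnd ℂ) ∘ g' ∘ (starRingEnd ℂ), an_conj hg1, ?_, ?_⟩
    · intro h3
      apply hg2
      have h4 : (starRingEnd ℂ) (g' ((starRingEnd ℂ) ((starRingEnd ℂ) s))) = 0 := h3
      rw [Complex.conj_conj, map_eq_zero] at h4
      exact h4
    · filter_upwards [h5.eventually hg3] with z hz
      rw [h6, hz, smul_eq_mul, map_mul, map_pow, map_sub, Complex.conj_conj]
      rfl

private theorem conj_re (N : ℕ) [NeZero N] (χ : DirichletCharacter ℂ N) {s : ℂ} (hs : 1 < s.re) :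
    DirichletCharacter.LFunction χ⁻¹ ((starRingEnd ℂ) s) = (starRingEnd ℂ) (DirichletCharacter.LFunction χ s) := by
  rw [DirichletCharacter.LFunction_eq_LSeries χ hs, DirichletCharacter.LFunction_eq_LSeries χ⁻¹ (by rwa [Complex.conj_re])]
  unfold LSeries
  rw [Complex.conj_tsum]
  refine tsum_congr fun n => ?_
  rcases Nat.eq_zero_or_pos n with h0 | h0
  · subst h0
    rw [LSeries.term_zero, LSeries.term_zero, map_zero]
  · rw [LSeries.term_of_ne_zero h0.ne', LSeries.term_of_ne_zero h0.ne', map_div₀]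
    have h1 : (starRingEnd ℂ) (χ (n : ZMod N)) = χ⁻¹ (n : ZMod N) := MulChar.star_apply' χ _
    have h2 : (n : ℂ) ^ ((starRingEnd ℂ) s) = (starRingEnd ℂ) ((n : ℂ) ^ s) := by
      rw [Complex.cpow_conj _ _ (by rw [Complex.natCast_arg]; exact Real.pi_ne_zero.symm), Complex.conj_natCast]
    rw [h1, h2]

theorem chi_conj (N : ℕ) [NeZero N] (χ : DirichletCharacter ℂ N) (hχ : χ ≠ 1) (s : ℂ) :
    DirichletCharacter.LFunction χ⁻¹ ((starRingEnd ℂ) s) = (starRingEnd ℂ) (DirichletCharacter.LFunction χ s) := by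
  have hχ' : χ⁻¹ ≠ 1 := inv_ne_one.2 hχ
  obtain ⟨f, hf⟩ : ∃ f : ℂ → ℂ, f = DirichletCharacter.LFunction χ⁻¹ := ⟨_, rfl⟩
  obtain ⟨g, hg⟩ : ∃ g : ℂ → ℂ, g = (starRingEnd ℂ) ∘ DirichletCharacter.LFunction χ ∘ (starRingEnd ℂ) := ⟨_, rfl⟩
  have hfa : AnalyticOnNhd ℂ f Set.univ := fun z _ => by
    rw [hf]
    exact (DirichletCharacter.differentiable_LFunction hχ').analyticAt z
  have hga : AnalyticOnNhd ℂ g Set.univ := fun z _ => by
    rw [hg]
    have h1 := an_conj ((DirichletCharacter.differentiable_LFunction hχ).analyticAt ((starRingEnd ℂ) z))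
    rwa [Complex.conj_conj] at h1
  have heq : f = g := by
    refine hfa.eq_of_eventuallyEq hga (z₀ := 2) ?_
    have h1 : {z : ℂ | 1 < z.re} ∈ 𝓝 (2 : ℂ) :=
      (isOpen_lt continuous_const Complex.continuous_re).mem_nhds (by simp)
    filter_upwards [h1] with z hz
    have h2 := conj_re N χ (s := (starRingEnd ℂ) z) (by rw [Complex.conj_re]; exact hz)
    rw [Complex.conj_conj] at h2
    rw [hf, hg]
    exact h2
  have h1 := congrFun heq ((starRingEnd ℂ) s)
  rw [hf, hg, Function.comp_apply, Function.comp_apply, Complex.conj_conj] at h1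
  exact h1

theorem chi_conj_order (N : ℕ) [NeZero N] (χ : DirichletCharacter ℂ N) (hχ : χ ≠ 1) (ρ : ℂ) :
    analyticOrderNatAt (DirichletCharacter.LFunction χ⁻¹) ((starRingEnd ℂ) ρ) =
      analyticOrderNatAt (DirichletCharacter.LFunction χ) ρ := by
  unfold analyticOrderNatAt
  rw [ord_conj ((DirichletCharacter.differentiable_LFunction hχ).analyticAt ρ)
    ((DirichletCharacter.differentiable_LFunction (inv_ne_one.2 hχ)).analyticAt _) (chi_conj N χ hχ)]

end Pool.Agent.H50.RQ
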