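import Pool.Agent.H50.RQ.Lc
import Pool.Agent.H50.RQ.Gd
import Pool.Agent.H50.RQ.Xc
import Pool.Agent.H50.RQ.Lz1
import Pool.Agent.H50.RQ.Lk
import Pool.Agent.H50.RL.S2

/-!
[H50 RQ ST] `Σ m/|ρ|` over the zeros with real part at least `σ > 1/2` converges.

PROOF. `s_twoX`: copy `Pool/Agent/H50/RL/S2.lean` with `local_countX`, `bad_heightsX`: its `s_upper` gives the zeros with `Im ρ ≥ 4` for every nontrivial character; zeros with `Im ρ ≤ -4`: `ρ ↦ conj ρ`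
maps the zeros of `L(s, χ)` bijectively to those of `L(s, χ⁻¹)` (`chi_conj`, `chi_conj_order`; `χ⁻¹ ≠ 1`, `χ⁻¹⁻¹ = χ`), apply `s_upper` to `χ⁻¹`; the zeros with `|Im ρ| ≤ 4`, `1/2 ≤ Re ρ < 1`: finitely many (`LF.zfin`).
`s_twoz`: the zeros of `RL.FF` are those of zeta, with the same order (`RL.FF_zero_iff`, `RL.FF_order`): transport `RL.s_two` along the equivalence `RL.ZZ ≃ lfz.Z`.
-/

set_option autoImplicit false

namespace Pool.Agent.H50.RQ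

open MeasureTheory Filter Topology
open Pool.Agent.H50.RL (SC Lp Lf Wk Ft)

/-- conjugation on the zeros -/
private noncomputable def cjE (N : ℕ) [NeZero N] (χ : DirichletCharacter ℂ N) (hχ : χ ≠ 1) :
    (lfx N χ hχ).Z ≃ (lfx N χ⁻¹ (inv_ne_one.2 hχ)).Z where
  toFun ρ := ⟨(starRingEnd ℂ) (ρ : ℂ), by
    have h : DirichletCharacter.LFunction χ (ρ : ℂ) = 0 := ρ.2
    show DirichletCharacter.LFunction χ⁻¹ _ = 0
    rw [chi_conj N χ hχ, h, map_zero]⟩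
  invFun ρ := ⟨(starRingEnd ℂ) (ρ : ℂ), by
    have h : DirichletCharacter.LFunction χ⁻¹ (ρ : ℂ) = 0 := ρ.2
    show DirichletCharacter.LFunction χ _ = 0
    have h1 := chi_conj N χ hχ ((starRingEnd ℂ) (ρ : ℂ))
    rw [Complex.conj_conj, h] at h1
    exact (map_eq_zero (starRingEnd ℂ)).1 h1.symm⟩
  left_inv _ := Subtype.ext (Complex.conj_conj _)
  right_inv _ := Subtype.ext (Complex.conj_conj _)

private theorem cj_m (N : ℕ) [NeZero N] (χ : DirichletCharacter ℂ N) (hχ : χ ≠ 1) (ρ : (lfx N χ hχ).Z) :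
    (lfx N χ⁻¹ (inv_ne_one.2 hχ)).m (cjE N χ hχ ρ) = (lfx N χ hχ).m ρ := by
  show (analyticOrderNatAt (DirichletCharacter.LFunction χ⁻¹) ((starRingEnd ℂ) (ρ : ℂ)) : ℝ) =
    (analyticOrderNatAt (DirichletCharacter.LFunction χ) (ρ : ℂ) : ℝ)
  rw [chi_conj_order N χ hχ]

/-- a function on `ℕ` whose dyadic sums are eventually bounded by a summable sequence is summable -/
private theorem dya_summ (h : ℕ → ℝ) (h0 : ∀ k, 0 ≤ h k) (u : ℕ → ℝ) (hu : Summable u)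
    (hb : ∀ᶠ j in atTop, ∑ k ∈ Finset.Ico (2 ^ j) (2 ^ (j + 1)), h k ≤ u j) : Summable h := by
  have hS : Summable fun j : ℕ => ∑ k ∈ Finset.Ico (2 ^ j) (2 ^ (j + 1)), h k := by
    refine Summable.of_norm_bounded_eventually_nat hu ?_
    filter_upwards [hb] with j hj
    rwa [Real.norm_eq_abs, abs_of_nonneg (Finset.sum_nonneg fun k _ => h0 k)]
  have hind : ∀ n : ℕ, ∑ k ∈ Finset.range (2 ^ n), h k =
      h 0 + ∑ j ∈ Finset.range n, ∑ k ∈ Finset.Ico (2 ^ j) (2 ^ (j + 1)), h k := by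
    intro n
    induction n with
    | zero => simp
    | succ n ih =>
      rw [Finset.sum_range_succ, ← add_assoc, ← ih, Finset.range_eq_Ico, Finset.range_eq_Ico,
        Finset.sum_Ico_consecutive h (Nat.zero_le _) (Nat.pow_le_pow_right (by norm_num) (Nat.le_succ n))]
  refine summable_of_sum_range_le (c := h 0 + ∑' j : ℕ, ∑ k ∈ Finset.Ico (2 ^ j) (2 ^ (j + 1)), h k) h0 fun n => ?_
  calc ∑ i ∈ Finset.range n, h i ≤ ∑ i ∈ Finset.range (2 ^ n), h i :=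
        Finset.sum_le_sum_of_subset_of_nonneg (Finset.range_subset_range.2 Nat.lt_two_pow_self.le) fun i _ _ => h0 i
    _ ≤ _ := by
        rw [hind]
        refine add_le_add le_rfl ?_
        exact hS.sum_le_tsum _ fun j _ => Finset.sum_nonneg fun k _ => h0 k

private theorem s_upper (N : ℕ) [NeZero N] (χ : DirichletCharacter ℂ N) (hχ : χ ≠ 1) (d : ℝ) (hd : 0 < d) (hd1 : d ≤ 1 / 8) :
    Summable fun ρ : (lfx N χ hχ).Z => if 1 / 2 + d ≤ (ρ : ℂ).re ∧ 4 ≤ (ρ : ℂ).im then (lfx N χ hχ).m ρ / ‖(ρ : ℂ)‖ else 0 := by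
  classical
  obtain ⟨C, hC, hloc⟩ := local_countX N χ hχ
  obtain ⟨c, T0, hc, hT0, hbad⟩ := bad_heightsX N χ hχ d hd hd1
  obtain ⟨Bad, hBad⟩ : ∃ Bad : ℕ → Prop, Bad = fun k : ℕ => 4 ≤ k ∧ ∃ ρ : ℂ, DirichletCharacter.LFunction χ ρ = 0 ∧ 1 / 2 + d ≤ ρ.re ∧
    (k : ℝ) ≤ ρ.im ∧ ρ.im ≤ (k : ℝ) + 1 := ⟨_, rfl⟩
  obtain ⟨h, hh⟩ : ∃ h : ℕ → ℝ, h = fun k : ℕ => if Bad k then C * Real.log ((k : ℝ) + 1) / k else 0 := ⟨_, rfl⟩
  have h0 : ∀ k, 0 ≤ h k := by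
    intro k
    rw [hh]
    dsimp only
    split_ifs
    · have : 0 ≤ Real.log ((k : ℝ) + 1) := Real.log_nonneg (by linarith [Nat.cast_nonneg (α := ℝ) k])
      positivity
    · exact le_rfl
  have hr : |((2 : ℝ) ^ (-c))| < 1 := by
    rw [abs_of_pos (by positivity)]
    exact Real.rpow_lt_one_of_one_lt_of_neg (by norm_num) (by linarith)
  have hsh : Summable h := by
    refine dya_summ h h0 (fun j : ℕ => C * Real.log 2 * ((j : ℝ) + 1) * ((2 : ℝ) ^ (-c)) ^ j) ?_ ?_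
    · have h1 := summable_pow_mul_geometric_of_norm_lt_one (R := ℝ) 1 (r := (2 : ℝ) ^ (-c)) (by
        rw [Real.norm_eq_abs]; exact hr)
      have h2 := summable_geometric_of_abs_lt_one hr
      refine ((h1.add h2).mul_left (C * Real.log 2)).congr fun j => ?_
      ring
    · have h1 : ∀ᶠ j : ℕ in atTop, T0 ≤ (2 : ℝ) ^ j :=
        (tendsto_pow_atTop_atTop_of_one_lt (by norm_num : (1 : ℝ) < 2)).eventually_ge_atTop T0
      filter_upwards [h1] with j hj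
      have h2 := hbad ((2 : ℝ) ^ j) hj ((Finset.Ico (2 ^ j) (2 ^ (j + 1))).filter Bad) (by
        intro k hk
        rw [Finset.mem_filter, Finset.mem_Ico, hBad] at hk
        obtain ⟨⟨hk1, hk2⟩, -, hk3⟩ := hk
        refine ⟨by exact_mod_cast hk1, ?_, hk3⟩
        have h3 : k + 1 ≤ 2 * 2 ^ j := by
          rw [pow_succ] at hk2
          omega
        exact_mod_cast h3)
      have h3 : ∑ k ∈ Finset.Ico (2 ^ j) (2 ^ (j + 1)), h k =
          ∑ k ∈ (Finset.Ico (2 ^ j) (2 ^ (j + 1))).filter Bad, C * Real.log ((k : ℝ) + 1) / k := by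
        rw [hh, Finset.sum_filter]
      have hpos : (0 : ℝ) < 2 ^ j := by positivity
      have h4 : ∀ k ∈ (Finset.Ico (2 ^ j) (2 ^ (j + 1))).filter Bad,
          C * Real.log ((k : ℝ) + 1) / k ≤ C * (Real.log 2 * ((j : ℝ) + 1)) / 2 ^ j := by
        intro k hk
        rw [Finset.mem_filter, Finset.mem_Ico] at hk
        obtain ⟨⟨hk1, hk2⟩, -⟩ := hk
        have hk1' : (2 : ℝ) ^ j ≤ k := by exact_mod_cast hk1
        have hk2' : (k : ℝ) + 1 ≤ 2 ^ (j + 1) := by exact_mod_cast hk2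
        have h5 : Real.log ((k : ℝ) + 1) ≤ Real.log 2 * ((j : ℝ) + 1) := by
          have h6 := Real.log_le_log (by positivity) hk2'
          rw [Real.log_pow] at h6
          push_cast at h6
          linarith
        have h7 : 0 ≤ Real.log ((k : ℝ) + 1) := Real.log_nonneg (by linarith [Nat.cast_nonneg (α := ℝ) k])
        have h8 : C * Real.log ((k : ℝ) + 1) ≤ C * (Real.log 2 * ((j : ℝ) + 1)) :=
          mul_le_mul_of_nonneg_left h5 hC.le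
        exact div_le_div₀ (le_trans (by positivity) h8) h8 hpos hk1'
      rw [h3]
      refine (Finset.sum_le_card_nsmul _ _ _ h4).trans ?_
      rw [nsmul_eq_mul]
      have h9 : ((2 : ℝ) ^ j) ^ (1 - c) = 2 ^ j * ((2 : ℝ) ^ (-c)) ^ j := by
        rw [sub_eq_add_neg, Real.rpow_add hpos, Real.rpow_one, ← Real.rpow_natCast, ← Real.rpow_mul (by norm_num),
          ← Real.rpow_natCast ((2 : ℝ) ^ (-c)) j, ← Real.rpow_mul (by norm_num), mul_comm (j : ℝ) (-c)]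
      rw [h9] at h2
      have h10 : 0 ≤ C * (Real.log 2 * ((j : ℝ) + 1)) / 2 ^ j := by
        have := Real.log_nonneg (x := 2) (by norm_num)
        positivity
      refine (mul_le_mul_of_nonneg_right h2 h10).trans_eq ?_
      field_simp
  refine summable_of_sum_le (c := ∑' k, h k) ?_ fun Z => ?_
  · intro ρ
    dsimp only
    split_ifs
    · exact div_nonneg (zero_le_one.trans ((lfx N χ hχ).one_le ρ)) (norm_nonneg _)
    · exact le_rfl
  · rw [← Finset.sum_filter]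
    set Z' := Z.filter (fun ρ : (lfx N χ hχ).Z => 1 / 2 + d ≤ (ρ : ℂ).re ∧ 4 ≤ (ρ : ℂ).im) with hZ'
    have hmap : ∀ ρ ∈ Z', ⌊(ρ : ℂ).im⌋₊ ∈ Z'.image (fun ρ : (lfx N χ hχ).Z => ⌊(ρ : ℂ).im⌋₊) :=
      fun ρ hρ => Finset.mem_image_of_mem _ hρ
    rw [← Finset.sum_fiberwise_of_maps_to hmap]
    refine le_trans (Finset.sum_le_sum (g := h) fun k hk => ?_) (hsh.sum_le_tsum _ fun k _ => h0 k)
    rw [Finset.mem_image] at hk
    obtain ⟨ρ0, hρ0, hk0⟩ := hk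
    have hZmem : ∀ ρ ∈ Z', 1 / 2 + d ≤ (ρ : ℂ).re ∧ 4 ≤ (ρ : ℂ).im := fun ρ hρ => (Finset.mem_filter.1 hρ).2
    have hfl : ∀ ρ ∈ Z', ∀ k : ℕ, ⌊(ρ : ℂ).im⌋₊ = k → (k : ℝ) ≤ (ρ : ℂ).im ∧ (ρ : ℂ).im ≤ (k : ℝ) + 1 := by
      intro ρ hρ k hk
      have h1 := (hZmem ρ hρ).2
      rw [Nat.floor_eq_iff (by linarith)] at hk
      exact ⟨hk.1, hk.2.le⟩
    have hk4 : 4 ≤ k := by
      rw [← hk0]
      exact Nat.le_floor (by exact_mod_cast (hZmem ρ0 hρ0).2)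
    have hBk : Bad k := by
      rw [hBad]
      exact ⟨hk4, ρ0, ρ0.2, (hZmem ρ0 hρ0).1, hfl ρ0 hρ0 k hk0⟩
    have hk4' : (4 : ℝ) ≤ k := by exact_mod_cast hk4
    have h1 := hloc ((k : ℝ) + 1 / 2) (by linarith) (Z'.filter fun ρ : (lfx N χ hχ).Z => ⌊(ρ : ℂ).im⌋₊ = k) (by
      intro ρ hρ
      rw [Finset.mem_filter] at hρ
      have h2 := hZmem ρ hρ.1
      have h3 := hfl ρ hρ.1 k hρ.2
      refine ⟨by linarith [h2.1], ?_⟩
      rw [abs_le]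
      constructor <;> linarith [h3.1, h3.2])
    have h2 : ∑ ρ ∈ Z'.filter (fun ρ : (lfx N χ hχ).Z => ⌊(ρ : ℂ).im⌋₊ = k), (lfx N χ hχ).m ρ / ‖(ρ : ℂ)‖ ≤
        ∑ ρ ∈ Z'.filter (fun ρ : (lfx N χ hχ).Z => ⌊(ρ : ℂ).im⌋₊ = k), (lfx N χ hχ).m ρ / k := by
      refine Finset.sum_le_sum fun ρ hρ => ?_
      rw [Finset.mem_filter] at hρ
      have h3 := (hfl ρ hρ.1 k hρ.2).1
      refine div_le_div_of_nonneg_left (zero_le_one.trans ((lfx N χ hχ).one_le ρ)) (by linarith) ?_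
      exact h3.trans ((le_abs_self _).trans (Complex.abs_im_le_norm _))
    refine h2.trans ?_
    rw [← Finset.sum_div, hh]
    dsimp only
    rw [if_pos hBk]
    refine div_le_div_of_nonneg_right (h1.trans ?_) (by linarith)
    refine mul_le_mul_of_nonneg_left (Real.log_le_log (by linarith) (by linarith)) hC.le

theorem s_twoX (N : ℕ) [NeZero N] (χ : DirichletCharacter ℂ N) (hχ : χ ≠ 1) (σ : ℝ) (hσ : 1 / 2 < σ) :
    Summable fun ρ : (lfx N χ hχ).Z => if σ ≤ (ρ : ℂ).re then (lfx N χ hχ).m ρ / ‖(ρ : ℂ)‖ else 0 := by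
  classical
  obtain ⟨d, hd⟩ : ∃ d, d = min (σ - 1 / 2) (1 / 8) := ⟨_, rfl⟩
  have hd0 : 0 < d := by
    rw [hd]
    exact lt_min (by linarith) (by norm_num)
  have hd1 : d ≤ 1 / 8 := by
    rw [hd]
    exact min_le_right _ _
  have hd2 : d ≤ σ - 1 / 2 := by
    rw [hd]
    exact min_le_left _ _
  have h1 := s_upper N χ hχ d hd0 hd1
  have h2 := (Equiv.summable_iff (cjE N χ hχ)).2 (s_upper N χ⁻¹ (inv_ne_one.2 hχ) d hd0 hd1)
  have h3 : Summable fun ρ : (lfx N χ hχ).Z => if ‖(ρ : ℂ)‖ ≤ 5 then (lfx N χ hχ).m ρ / ‖(ρ : ℂ)‖ else 0 := by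
    refine summable_of_hasFiniteSupport (((lfx N χ hχ).zfin 5).subset ?_)
    intro ρ hρ
    by_contra hcon
    rw [Function.mem_support] at hρ
    exact hρ (if_neg hcon)
  have hnn : ∀ ρ : (lfx N χ hχ).Z, 0 ≤ (lfx N χ hχ).m ρ / ‖(ρ : ℂ)‖ := fun ρ =>
    div_nonneg (zero_le_one.trans ((lfx N χ hχ).one_le ρ)) (norm_nonneg _)
  refine Summable.of_nonneg_of_le (fun ρ => ?_) (fun ρ => ?_) ((h1.add h2).add h3)
  · split_ifs
    · exact hnn ρ
    · exact le_rfl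
  · have e1 : ((fun ρ : (lfx N χ⁻¹ (inv_ne_one.2 hχ)).Z => if 1 / 2 + d ≤ (ρ : ℂ).re ∧ 4 ≤ (ρ : ℂ).im then
        (lfx N χ⁻¹ (inv_ne_one.2 hχ)).m ρ / ‖(ρ : ℂ)‖ else 0) ∘ cjE N χ hχ) ρ =
        if 1 / 2 + d ≤ (ρ : ℂ).re ∧ 4 ≤ -(ρ : ℂ).im then (lfx N χ hχ).m ρ / ‖(ρ : ℂ)‖ else 0 := by
      have e2 : (lfx N χ⁻¹ (inv_ne_one.2 hχ)).m (cjE N χ hχ ρ) = (lfx N χ hχ).m ρ := cj_m N χ hχ ρ
      have e3 : ((cjE N χ hχ ρ : (lfx N χ⁻¹ (inv_ne_one.2 hχ)).Z) : ℂ) = (starRingEnd ℂ) (ρ : ℂ) := rfl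
      rw [Function.comp_apply, e2, e3, Complex.norm_conj, Complex.conj_re, Complex.conj_im]
    rw [e1]
    have n1 : 0 ≤ (if 1 / 2 + d ≤ (ρ : ℂ).re ∧ 4 ≤ (ρ : ℂ).im then (lfx N χ hχ).m ρ / ‖(ρ : ℂ)‖ else 0) := by
      split_ifs
      · exact hnn ρ
      · exact le_rfl
    have n2 : 0 ≤ (if 1 / 2 + d ≤ (ρ : ℂ).re ∧ 4 ≤ -(ρ : ℂ).im then (lfx N χ hχ).m ρ / ‖(ρ : ℂ)‖ else 0) := by
      split_ifs
      · exact hnn ρ
      · exact le_rfl
    have n3 : 0 ≤ (if ‖(ρ : ℂ)‖ ≤ 5 then (lfx N χ hχ).m ρ / ‖(ρ : ℂ)‖ else 0) := by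
      split_ifs
      · exact hnn ρ
      · exact le_rfl
    by_cases hσρ : σ ≤ (ρ : ℂ).re
    · rw [if_pos hσρ]
      have hre : 1 / 2 + d ≤ (ρ : ℂ).re := by linarith
      rcases le_total 4 (ρ : ℂ).im with h4 | h4
      · rw [if_pos ⟨hre, h4⟩]
        linarith
      · rcases le_total 4 (-(ρ : ℂ).im) with h5 | h5
        · have e5 : (if 1 / 2 + d ≤ (ρ : ℂ).re ∧ 4 ≤ -(ρ : ℂ).im then (lfx N χ hχ).m ρ / ‖(ρ : ℂ)‖ else 0) =
              (lfx N χ hχ).m ρ / ‖(ρ : ℂ)‖ := if_pos ⟨hre, h5⟩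
          rw [e5]
          linarith
        · have h6 : ‖(ρ : ℂ)‖ ≤ 5 := by
            refine (Complex.norm_le_abs_re_add_abs_im _).trans ?_
            have h7 := (lfx N χ hχ).re_lt ρ
            have h8 : |(ρ : ℂ).re| ≤ 1 := abs_le.2 ⟨by linarith, h7.le⟩
            have h9 : |(ρ : ℂ).im| ≤ 4 := abs_le.2 ⟨by linarith, h4⟩
            linarith
          rw [if_pos h6]
          linarith
    · rw [if_neg hσρ]
      linarith

/-- the zeros of `FF` are the zeros of `ζ` -/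
private noncomputable def eqz : RL.ZZ ≃ lfz.Z :=
  Equiv.subtypeEquivRight fun z => (RL.FF_zero_iff z).symm

theorem s_twoz (σ : ℝ) (hσ : 1 / 2 < σ) :
    Summable fun ρ : lfz.Z => if σ ≤ (ρ : ℂ).re then lfz.m ρ / ‖(ρ : ℂ)‖ else 0 := by
  refine (Equiv.summable_iff eqz).1 ((RL.s_two σ hσ).congr fun ρ => ?_)
  have e1 : ((eqz ρ : lfz.Z) : ℂ) = (ρ : ℂ) := rfl
  have e2 : lfz.m (eqz ρ) = RL.mz ρ := by
    show (analyticOrderNatAt RL.FF (ρ : ℂ) : ℝ) = (analyticOrderNatAt riemannZeta (ρ : ℂ) : ℝ)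
    rw [RL.FF_order _ ρ.2]
  rw [Function.comp_apply, e1, e2]

end Pool.Agent.H50.RQ
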