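import Pool.Agent.H50.RQ.Pw

/-!
[H50 RQ WT] The weights: `Λ(n)/φ(q) Σ_χ χ(a)⁻¹ χ*(n) = V(n) + w(n)` with `V` the residue class and `w` small.

PROOF. `S n = Σ_χ χ(a⁻¹) gx χ n`. Conjugation: `conj (χ(a⁻¹)) = χ⁻¹(a⁻¹)` and `gx_conj`, reindex by `χ ↦ χ⁻¹` (`Equiv.inv`): `conj (S n) = S n`, so `S n` is real: `wq_cast`.
`wq_coprime`: `n` coprime to `q`: `S n = Σ_χ χ(a⁻¹ n) = φ(q)` if `n = a`, else `0` (`gx_coprime`, `DirichletCharacter.sum_char_inv_mul_char_eq`, see `ArithmeticFunction.vonMangoldt.residueClass_apply` in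
Mathlib's `PrimesInAP`). `wq_le`: `n` coprime to `q`: `0`. Otherwise `Vq n = 0` (`(n : ZMod q)` is not a unit) and `|S n| ≤ φ(q)` (number of characters: `DirichletCharacter.card_eq_totient_of_hasEnoughRootsOfUnity`, `gx_le`).
`wq_sum`: only `n` not coprime to `q` with `Λ(n) ≠ 0`, so `n = p^k`, `p ∣ q` prime, `k ≥ 1`, `Λ(n) = log p`, contribute: for each prime `p ∣ q` the sum over `k ≥ 1`, `p^k ≤ N` is
`log p · ⌊log N/log p⌋ ≤ log N`; so `C = ` number of prime factors of `q`.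
`p_div`: `P = {p prime | p = a in ZMod q}`: `ArithmeticFunction.vonMangoldt.not_summable_residueClass_prime_div` (the summand is `log p/p` on `P`, `0` elsewhere: `vonMangoldt_apply_prime`).
-/

set_option autoImplicit false

namespace Pool.Agent.H50.RQ

open MeasureTheory Filter Topology
open Pool.Agent.H50.RL (SC Lp Lf Wk Ft)

private theorem wt_real (q : ℕ) [NeZero q] (a : (ZMod q)ˣ) (n : ℕ) :
    (((∑ χ : DirichletCharacter ℂ q, χ (((a⁻¹ : (ZMod q)ˣ)) : ZMod q) * gx χ n).re : ℝ) : ℂ) =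
      ∑ χ : DirichletCharacter ℂ q, χ (((a⁻¹ : (ZMod q)ˣ)) : ZMod q) * gx χ n := by
  rw [← Complex.conj_eq_iff_re, map_sum]
  rw [← Equiv.sum_comp (Equiv.inv (DirichletCharacter ℂ q))
    (fun χ => χ (((a⁻¹ : (ZMod q)ˣ)) : ZMod q) * gx χ n)]
  refine Finset.sum_congr rfl fun χ _ => ?_
  rw [map_mul, Equiv.inv_apply, gx_conj, ← MulChar.star_apply' χ]
  rfl

private theorem wt_coprime (q : ℕ) [NeZero q] (a : (ZMod q)ˣ) (n : ℕ) (h : n.Coprime q) :
    ∑ χ : DirichletCharacter ℂ q, χ (((a⁻¹ : (ZMod q)ˣ)) : ZMod q) * gx χ n =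
      if (a : ZMod q) = (n : ZMod q) then (q.totient : ℂ) else 0 := by
  rw [← DirichletCharacter.sum_char_inv_mul_char_eq ℂ a.isUnit (n : ZMod q)]
  refine Finset.sum_congr rfl fun χ _ => ?_
  rw [gx_coprime χ n h, ZMod.inv_coe_unit]

private theorem wt_tot (q : ℕ) [NeZero q] : (0 : ℝ) < (q.totient : ℝ) := by
  exact_mod_cast Nat.totient_pos.mpr (Nat.pos_of_ne_zero (NeZero.ne q))

private theorem wt_norm (q : ℕ) [NeZero q] (a : (ZMod q)ˣ) (n : ℕ) :
    |(∑ χ : DirichletCharacter ℂ q, χ (((a⁻¹ : (ZMod q)ˣ)) : ZMod q) * gx χ n).re| ≤ (q.totient : ℝ) := by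
  refine (Complex.abs_re_le_norm _).trans ((norm_sum_le _ _).trans ?_)
  refine (Finset.sum_le_card_nsmul _ _ 1 fun χ _ => ?_).trans (le_of_eq ?_)
  · rw [norm_mul]
    exact mul_le_one₀ (DirichletCharacter.norm_le_one _ _) (norm_nonneg _) (gx_le χ n)
  · rw [Finset.card_univ, ← Nat.card_eq_fintype_card,
      DirichletCharacter.card_eq_totient_of_hasEnoughRootsOfUnity ℂ q, nsmul_eq_mul, mul_one]

private theorem wt_h (p N : ℕ) (hp : p.Prime) (hN : 1 ≤ N) (s : Finset ℕ)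
    (hs : ∀ n ∈ s, n ≤ N ∧ ∃ k, 1 ≤ k ∧ n = p ^ k) : (s.card : ℝ) * Real.log p ≤ Real.log N := by
  have h1 : s ⊆ (Finset.Icc 1 (Nat.log p N)).image (fun k => p ^ k) := by
    intro n hn
    obtain ⟨h2, k, hk, h3⟩ := hs n hn
    refine Finset.mem_image.2 ⟨k, Finset.mem_Icc.2 ⟨hk, ?_⟩, h3.symm⟩
    exact Nat.le_log_of_pow_le hp.one_lt (h3 ▸ h2)
  have h2 : s.card ≤ Nat.log p N := by
    refine (Finset.card_le_card h1).trans (Finset.card_image_le.trans ?_)
    rw [Nat.card_Icc, Nat.add_sub_cancel]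
  have h3 : (0 : ℝ) ≤ Real.log p := Real.log_natCast_nonneg p
  have h4 : ((p : ℝ) ^ (Nat.log p N)) ≤ (N : ℝ) := by
    exact_mod_cast Nat.pow_log_le_self p (by omega)
  have h5 : (0 : ℝ) < (p : ℝ) := by exact_mod_cast hp.pos
  calc (s.card : ℝ) * Real.log p ≤ (Nat.log p N : ℝ) * Real.log p :=
        mul_le_mul_of_nonneg_right (by exact_mod_cast h2) h3
    _ = Real.log ((p : ℝ) ^ (Nat.log p N)) := (Real.log_pow _ _).symm
    _ ≤ Real.log N := Real.log_le_log (pow_pos h5 _) h4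

theorem wq_cast (q : ℕ) [NeZero q] (a : (ZMod q)ˣ) (n : ℕ) : ((Vq q a n + wq q a n : ℝ) : ℂ) =
    ((ArithmeticFunction.vonMangoldt n : ℝ) : ℂ) *
      ∑ χ : DirichletCharacter ℂ q, (χ (((a⁻¹ : (ZMod q)ˣ)) : ZMod q) / (q.totient : ℂ)) * gx χ n := by
  unfold wq
  rw [add_sub_cancel, Complex.ofReal_mul, wt_real, Complex.ofReal_div, Finset.mul_sum, Finset.mul_sum]
  refine Finset.sum_congr rfl fun χ _ => ?_
  rw [Complex.ofReal_natCast]
  ring

theorem wq_coprime (q : ℕ) [NeZero q] (a : (ZMod q)ˣ) (n : ℕ) (h : n.Coprime q) : wq q a n = 0 := by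
  unfold wq Vq
  rw [wt_coprime q a n h]
  by_cases h1 : (a : ZMod q) = (n : ZMod q)
  · rw [if_pos h1, if_pos h1.symm, Complex.natCast_re, div_mul_cancel₀ _ (wt_tot q).ne', sub_self]
  · rw [if_neg h1, if_neg (fun h2 => h1 h2.symm), Complex.zero_re, mul_zero, sub_self]

theorem wq_le (q : ℕ) [NeZero q] (a : (ZMod q)ˣ) (n : ℕ) : |wq q a n| ≤ ArithmeticFunction.vonMangoldt n := by
  by_cases h : n.Coprime q
  · rw [wq_coprime q a n h, abs_zero]
    exact ArithmeticFunction.vonMangoldt_nonneg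
  · unfold wq Vq
    have h1 : ¬ (n : ZMod q) = (a : ZMod q) := by
      intro h1
      apply h
      rw [← ZMod.isUnit_iff_coprime, h1]
      exact a.isUnit
    rw [if_neg h1, sub_zero, abs_mul, abs_div, abs_of_pos (wt_tot q),
      abs_of_nonneg ArithmeticFunction.vonMangoldt_nonneg]
    calc ArithmeticFunction.vonMangoldt n / (q.totient : ℝ) *
          |(∑ χ : DirichletCharacter ℂ q, χ (((a⁻¹ : (ZMod q)ˣ)) : ZMod q) * gx χ n).re|
        ≤ ArithmeticFunction.vonMangoldt n / (q.totient : ℝ) * (q.totient : ℝ) :=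
          mul_le_mul_of_nonneg_left (wt_norm q a n)
            (div_nonneg ArithmeticFunction.vonMangoldt_nonneg (wt_tot q).le)
      _ = ArithmeticFunction.vonMangoldt n := div_mul_cancel₀ _ (wt_tot q).ne'

theorem wq_sum (q : ℕ) [NeZero q] (a : (ZMod q)ˣ) : ∃ C : ℝ, ∀ N : ℕ, 1 ≤ N →
    ∑ n ∈ Finset.Icc 1 N, |wq q a n| ≤ C * (1 + Real.log N) := by
  classical
  refine ⟨(q.primeFactors.card : ℝ), fun N hN => ?_⟩
  have hlog : (0 : ℝ) ≤ Real.log N := Real.log_natCast_nonneg N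
  have h1 : ∀ n ∈ Finset.Icc 1 N, |wq q a n| ≤
      ∑ p ∈ q.primeFactors, (if ∃ k, 1 ≤ k ∧ n = p ^ k then Real.log p else 0) := by
    intro n _
    have hnn : ∀ p ∈ q.primeFactors, (0 : ℝ) ≤ (if ∃ k, 1 ≤ k ∧ n = p ^ k then Real.log p else 0) := by
      intro p _
      split_ifs
      · exact Real.log_natCast_nonneg p
      · exact le_refl 0
    by_cases h2 : n.Coprime q
    · rw [wq_coprime q a n h2, abs_zero]
      exact Finset.sum_nonneg hnn
    by_cases h3 : IsPrimePow n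
    · obtain ⟨p, k, hp, hk, h4⟩ := (isPrimePow_nat_iff n).1 h3
      have h5 : p ∣ q := by
        by_contra h5
        apply h2
        rw [← h4]
        exact Nat.Coprime.pow_left k ((Nat.Prime.coprime_iff_not_dvd hp).2 h5)
      have h6 : p ∈ q.primeFactors := Nat.mem_primeFactors.2 ⟨hp, h5, NeZero.ne q⟩
      refine (wq_le q a n).trans (le_trans ?_ (Finset.single_le_sum hnn h6))
      rw [if_pos ⟨k, hk, h4.symm⟩, ← h4, ArithmeticFunction.vonMangoldt_apply_pow (by omega),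
        ArithmeticFunction.vonMangoldt_apply_prime hp]
    · refine (wq_le q a n).trans ?_
      rw [ArithmeticFunction.vonMangoldt_eq_zero_iff.2 h3]
      exact Finset.sum_nonneg hnn
  refine (Finset.sum_le_sum h1).trans ?_
  rw [Finset.sum_comm]
  have h2 : ∀ p ∈ q.primeFactors, ∑ n ∈ Finset.Icc 1 N,
      (if ∃ k, 1 ≤ k ∧ n = p ^ k then Real.log p else 0) ≤ Real.log N := by
    intro p hp
    rw [← Finset.sum_filter, Finset.sum_const, nsmul_eq_mul]
    refine wt_h p N (Nat.prime_of_mem_primeFactors hp) hN _ fun n hn => ?_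
    rw [Finset.mem_filter, Finset.mem_Icc] at hn
    exact ⟨hn.1.2, hn.2⟩
  refine (Finset.sum_le_card_nsmul _ _ _ h2).trans ?_
  rw [nsmul_eq_mul]
  exact mul_le_mul_of_nonneg_left (by linarith) (Nat.cast_nonneg _)

theorem p_div (q : ℕ) [NeZero q] (a : (ZMod q)ˣ) :
    ¬ Summable ({p : ℕ | p.Prime ∧ (p : ZMod q) = (a : ZMod q)}.indicator fun n : ℕ => Real.log n / n) := by
  intro H
  apply ArithmeticFunction.vonMangoldt.not_summable_residueClass_prime_div a.isUnit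
  refine H.congr fun n => ?_
  by_cases h1 : n.Prime
  · rw [if_pos h1]
    by_cases h2 : (n : ZMod q) = (a : ZMod q)
    · rw [Set.indicator_of_mem (show n ∈ {p : ℕ | p.Prime ∧ (p : ZMod q) = (a : ZMod q)} from ⟨h1, h2⟩),
        ArithmeticFunction.vonMangoldt.residueClass, Set.indicator_of_mem (show n ∈ {n : ℕ | (n : ZMod q) = (a : ZMod q)} from h2),
        ArithmeticFunction.vonMangoldt_apply_prime h1]
    · rw [Set.indicator_of_notMem (show n ∉ {p : ℕ | p.Prime ∧ (p : ZMod q) = (a : ZMod q)} from fun h => h2 h.2),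
        ArithmeticFunction.vonMangoldt.residueClass, Set.indicator_of_notMem (show n ∉ {n : ℕ | (n : ZMod q) = (a : ZMod q)} from h2), zero_div]
  · rw [if_neg h1, Set.indicator_of_notMem
      (show n ∉ {p : ℕ | p.Prime ∧ (p : ZMod q) = (a : ZMod q)} from fun h => h1 h.1), zero_div]

end Pool.Agent.H50.RQ
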