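import Pool.Agent.H50.RQ.Mx
import Pool.Agent.H50.RQ.Wt
import Pool.Agent.H50.RQ.Cz
import Pool.Agent.H50.RQ.Ef
import Pool.Agent.H50.RQ.St

/-!
[H50 RQ ZI] The zero data of a reduced residue class.

PROOF. `ι = {ρ : ℂ // cc (fun χ => lfc χ) α ρ ≠ 0}`, `α χ = χ(a⁻¹)/φ(q)`; `cc .. ρ = cf q a ρ/φ(q)` (`lfc_F`), so it is nonzero iff `cf q a ρ ≠ 0`. `c i = cf q a i/φ(q)`, `V = Vq q a`, `w = wq q a`, `κ = 1/φ(q)`,
`P = {p | p.Prime ∧ (p : ZMod q) = a}` (then `p` is coprime to `q`: `(p : ZMod q)` is a unit, so `wq = 0`). `explicit`: multiply `LF.explicit` for `lfc χ` by `α χ` and sum over `χ` (finite); left side: `Λ(n) g(n)` and `wq_cast`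
(finite support in `n`: `Ψ(log n) = 0` for large `n`, and `Ψ(log 0) = Ψ 0` times `Λ 0 = 0`); main term: `Σ α χ p_χ = α 1 = 1/φ(q)` (`lfc_p`, `χ(a⁻¹) = 1` for `χ = 1`); zeros: `mix` with `h ρ = Lp Ψ ρ - Ψ 0/(2-ρ)`.
`s1`: `mix_w` with `w ρ = 1/‖ρ‖^b`, `LF.s_one`. `s2`: `mix_w` with `w ρ = if σ ≤ Re ρ then 1/‖ρ‖ else 0`, `s_twoX` for the primitive character, `s_twoz` for `χ = 1`. `fin`: the zeros of each of the finitely many `LF` in a ball are finitely
many (`LF.zfin`, `cf_ne`). `rlt`, `left`, `conj`, `sym`: `cf_lt`, `cf_left`, `cf_conj`, `cf_sym`. `V0, V1, w1, w2, P1, P2`: clear from Wt (`0 ≤ Λ`).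
-/

set_option autoImplicit false

namespace Pool.Agent.H50.RQ

open MeasureTheory Filter Topology
open Pool.Agent.H50.RL (SC Lp Lf Wk Ft)

/-- the coefficients of the mixture -/
private noncomputable def al (q : ℕ) [NeZero q] (a : (ZMod q)ˣ) (χ : DirichletCharacter ℂ q) : ℂ :=
  χ (((a⁻¹ : (ZMod q)ˣ)) : ZMod q) / (q.totient : ℂ)

private theorem zi_tot (q : ℕ) [NeZero q] : 0 < q.totient := Nat.totient_pos.2 (Nat.pos_of_neZero q)

private theorem zi_cc (q : ℕ) [NeZero q] (a : (ZMod q)ˣ) (ρ : ℂ) :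
    cc (fun χ : DirichletCharacter ℂ q => lfc χ) (al q a) ρ = cf q a ρ / (q.totient : ℂ) := by
  unfold cc cf al
  rw [Finset.sum_div]
  refine Finset.sum_congr rfl fun χ _ => ?_
  rw [lfc_F]
  ring

private theorem zi_ne (q : ℕ) [NeZero q] (a : (ZMod q)ˣ) (ρ : ℂ) :
    cc (fun χ : DirichletCharacter ℂ q => lfc χ) (al q a) ρ ≠ 0 ↔ cf q a ρ ≠ 0 := by
  have h1 : (q.totient : ℂ) ≠ 0 := by exact_mod_cast (zi_tot q).ne'
  rw [zi_cc]
  constructor
  · intro h h2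
    apply h
    rw [h2, zero_div]
  · intro h
    exact div_ne_zero h h1

private theorem zi_p (q : ℕ) [NeZero q] (a : (ZMod q)ˣ) :
    ∑ χ : DirichletCharacter ℂ q, al q a χ * (lfc χ).p = 1 / (q.totient : ℂ) := by
  rw [Finset.sum_eq_single (1 : DirichletCharacter ℂ q)]
  · rw [lfc_p, if_pos rfl, mul_one, al, MulChar.one_apply (Units.isUnit _)]
  · intro χ _ hχ
    rw [lfc_p, if_neg hχ, mul_zero]
  · intro h
    exact absurd (Finset.mem_univ _) h

private theorem zi_fs (Ψ : ℝ → ℝ) (hc : HasCompactSupport Ψ) :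
    {n : ℕ | Ψ (Real.log n) ≠ 0}.Finite := by
  obtain ⟨B, hB⟩ := hc.isCompact.bddAbove
  have h0 : ∀ x, B < x → Ψ x = 0 := fun x hx =>
    image_eq_zero_of_notMem_tsupport fun h => absurd (hB h) (not_le.2 hx)
  refine (Set.finite_Iic ⌊Real.exp B⌋₊).subset fun n hn => ?_
  rw [Set.mem_Iic]
  by_contra hcon
  push Not at hcon
  apply hn
  apply h0
  have h1 : Real.exp B < n := (Nat.floor_lt (Real.exp_pos B).le).1 hcon
  have h2 : (0 : ℝ) < n := (Real.exp_pos B).trans h1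
  exact (Real.lt_log_iff_exp_lt h2).2 h1

private theorem zi_s1 (q : ℕ) [NeZero q] (a : (ZMod q)ˣ) (b : ℝ) (hb : 1 < b) :
    Summable fun i : {ρ : ℂ // cc (fun χ : DirichletCharacter ℂ q => lfc χ) (al q a) ρ ≠ 0} =>
      (1 + ‖cc (fun χ : DirichletCharacter ℂ q => lfc χ) (al q a) i‖) / ‖(i : ℂ)‖ ^ b := by
  have h := mix_w (fun χ : DirichletCharacter ℂ q => lfc χ) (al q a) (fun ρ => 1 / ‖ρ‖ ^ b)
    (fun ρ => by positivity) (fun χ => ((lfc χ).s_one b hb).congr fun ρ => by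
      rw [mul_one_div])
  refine h.congr fun i => ?_
  rw [mul_one_div]

private theorem zi_s2 (q : ℕ) [NeZero q] (a : (ZMod q)ˣ) (σ : ℝ) (hσ : 1 / 2 < σ) :
    Summable fun i : {ρ : ℂ // cc (fun χ : DirichletCharacter ℂ q => lfc χ) (al q a) ρ ≠ 0} =>
      if σ ≤ (i : ℂ).re then
        (1 + ‖cc (fun χ : DirichletCharacter ℂ q => lfc χ) (al q a) i‖) / ‖(i : ℂ)‖ else 0 := by
  have h := mix_w (fun χ : DirichletCharacter ℂ q => lfc χ) (al q a)
    (fun ρ => if σ ≤ ρ.re then 1 / ‖ρ‖ else 0)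
    (fun ρ => by
      split_ifs
      · positivity
      · exact le_rfl)
    (fun χ => by
      by_cases hχ : χ = 1
      · have e : lfc χ = lfz := by
          unfold lfc
          rw [dif_pos hχ]
        rw [e]
        refine (s_twoz σ hσ).congr fun ρ => ?_
        rw [mul_ite, mul_zero, mul_one_div]
      · have e : lfc χ = lfx χ.conductor χ.primitiveCharacter (prim_ne_one χ hχ) := by
          unfold lfc
          rw [dif_neg hχ]
        rw [e]
        refine (s_twoX χ.conductor χ.primitiveCharacter (prim_ne_one χ hχ) σ hσ).congr fun ρ => ?_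
        rw [mul_ite, mul_zero, mul_one_div])
  refine h.congr fun i => ?_
  rw [mul_ite, mul_zero, mul_one_div]

private theorem zi_fin (q : ℕ) [NeZero q] (a : (ZMod q)ˣ) (R : ℝ) :
    {i : {ρ : ℂ // cc (fun χ : DirichletCharacter ℂ q => lfc χ) (al q a) ρ ≠ 0} | ‖(i : ℂ)‖ ≤ R}.Finite := by
  have h1 : (⋃ χ : DirichletCharacter ℂ q, Subtype.val '' {ρ : (lfc χ).Z | ‖(ρ : ℂ)‖ ≤ R}).Finite :=
    Set.finite_iUnion fun χ => ((lfc χ).zfin R).image _
  refine (h1.preimage (Subtype.val_injective.injOn)).subset fun i hi => ?_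
  obtain ⟨χ, hχ⟩ := cf_ne q a i ((zi_ne q a i).1 i.2)
  rw [← lfc_F] at hχ
  exact Set.mem_iUnion.2 ⟨χ, ⟨⟨(i : ℂ), hχ⟩, hi, rfl⟩⟩

private theorem zi_ex (q : ℕ) [NeZero q] (a : (ZMod q)ˣ) : ∃ C0 : ℂ, ∀ Ψ : ℝ → ℝ, ContDiff ℝ 4 Ψ →
    HasCompactSupport Ψ →
    (Summable fun i : {ρ : ℂ // cc (fun χ : DirichletCharacter ℂ q => lfc χ) (al q a) ρ ≠ 0} =>
      ‖cc (fun χ : DirichletCharacter ℂ q => lfc χ) (al q a) i‖ * ‖Lp Ψ i - (Ψ 0 : ℂ) / (2 - (i : ℂ))‖) ∧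
    (((∑' n : ℕ, (Vq q a n + wq q a n) * Ψ (Real.log n) : ℝ)) : ℂ) =
      C0 * Ψ 0 + ((1 / (q.totient : ℝ) : ℝ) : ℂ) * Lp Ψ 1 -
        ∑' i : {ρ : ℂ // cc (fun χ : DirichletCharacter ℂ q => lfc χ) (al q a) ρ ≠ 0},
          cc (fun χ : DirichletCharacter ℂ q => lfc χ) (al q a) i * (Lp Ψ i - (Ψ 0 : ℂ) / (2 - (i : ℂ))) := by
  choose C0 hC0 using fun χ : DirichletCharacter ℂ q => (lfc χ).explicit
  refine ⟨∑ χ : DirichletCharacter ℂ q, al q a χ * C0 χ, fun Ψ hΨ hc => ?_⟩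
  have hm := mix (fun χ : DirichletCharacter ℂ q => lfc χ) (al q a)
    (fun ρ => Lp Ψ ρ - (Ψ 0 : ℂ) / (2 - ρ)) (fun χ => (hC0 χ Ψ hΨ hc).1)
  refine ⟨hm.1, ?_⟩
  have hfs := zi_fs Ψ hc
  have hsum : ∀ χ : DirichletCharacter ℂ q, Summable fun n : ℕ =>
      al q a χ * ((ArithmeticFunction.vonMangoldt n : ℂ) * (lfc χ).g n * (Ψ (Real.log n) : ℂ)) := by
    intro χ
    refine summable_of_hasFiniteSupport (hfs.subset fun n hn => ?_)
    rw [Function.mem_support] at hn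
    intro h0
    apply hn
    rw [h0, Complex.ofReal_zero, mul_zero, mul_zero]
  have hL : (((∑' n : ℕ, (Vq q a n + wq q a n) * Ψ (Real.log n) : ℝ)) : ℂ) =
      ∑ χ : DirichletCharacter ℂ q, al q a χ *
        ∑' n : ℕ, (ArithmeticFunction.vonMangoldt n : ℂ) * (lfc χ).g n * (Ψ (Real.log n) : ℂ) := by
    rw [Complex.ofReal_tsum]
    have h1 : ∀ χ : DirichletCharacter ℂ q, al q a χ *
        ∑' n : ℕ, (ArithmeticFunction.vonMangoldt n : ℂ) * (lfc χ).g n * (Ψ (Real.log n) : ℂ) =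
        ∑' n : ℕ, al q a χ * ((ArithmeticFunction.vonMangoldt n : ℂ) * (lfc χ).g n * (Ψ (Real.log n) : ℂ)) :=
      fun χ => tsum_mul_left.symm
    rw [Finset.sum_congr rfl fun χ _ => h1 χ, ← Summable.tsum_finsetSum fun χ _ => hsum χ]
    refine tsum_congr fun n => ?_
    rw [Complex.ofReal_mul, wq_cast, mul_assoc, Finset.sum_mul, Finset.mul_sum]
    refine Finset.sum_congr rfl fun χ _ => ?_
    rw [lfc_g, al]
    ring
  rw [hL, Finset.sum_congr rfl fun χ _ => by rw [(hC0 χ Ψ hΨ hc).2]]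
  have h2 : ∀ χ : DirichletCharacter ℂ q, al q a χ * (C0 χ * (Ψ 0 : ℂ) + (lfc χ).p * Lp Ψ 1 -
      ∑' ρ : (lfc χ).Z, ((lfc χ).m ρ : ℂ) * (Lp Ψ ρ - (Ψ 0 : ℂ) / (2 - (ρ : ℂ)))) =
      al q a χ * C0 χ * (Ψ 0 : ℂ) + al q a χ * (lfc χ).p * Lp Ψ 1 -
        al q a χ * ∑' ρ : (lfc χ).Z, ((lfc χ).m ρ : ℂ) * (Lp Ψ ρ - (Ψ 0 : ℂ) / (2 - (ρ : ℂ))) :=
    fun χ => by ring
  rw [Finset.sum_congr rfl fun χ _ => h2 χ, Finset.sum_sub_distrib, Finset.sum_add_distrib, ← Finset.sum_mul,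
    ← Finset.sum_mul, zi_p, hm.2]
  push_cast
  rfl

theorem zd_exists (q : ℕ) [NeZero q] (a : (ZMod q)ˣ) : ∃ D : ZD, D.V = Vq q a ∧ D.κ = 1 / (q.totient : ℝ) ∧
    (∀ i, D.c i = cf q a (D.ρ i) / (q.totient : ℂ)) ∧ ∀ ρ : ℂ, cf q a ρ ≠ 0 → ∃ i, D.ρ i = ρ := by
  have htot : (0 : ℝ) < q.totient := by exact_mod_cast zi_tot q
  refine ⟨{ ι := {ρ : ℂ // cc (fun χ : DirichletCharacter ℂ q => lfc χ) (al q a) ρ ≠ 0}
            ρ := fun i => i
            c := fun i => cc (fun χ : DirichletCharacter ℂ q => lfc χ) (al q a) i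
            V := Vq q a
            w := wq q a
            κ := 1 / (q.totient : ℝ)
            P := {p : ℕ | p.Prime ∧ (p : ZMod q) = (a : ZMod q)}
            κpos := by positivity
            κle := ?_
            inj := Subtype.val_injective
            cne := fun i => i.2
            rlt := fun i => cf_lt q a i ((zi_ne q a i).1 i.2)
            fin := zi_fin q a
            s1 := zi_s1 q a
            s2 := zi_s2 q a
            left := fun i h => cf_left q a i ((zi_ne q a i).1 i.2) h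
            conj := ?_
            sym := ?_
            V0 := ?_
            V1 := ?_
            w1 := wq_le q a
            w2 := wq_sum q a
            P1 := ?_
            P2 := p_div q a
            explicit := zi_ex q a }, rfl, rfl, fun i => zi_cc q a i, fun ρ hρ => ⟨⟨ρ, (zi_ne q a ρ).2 hρ⟩, rfl⟩⟩
  · rw [div_le_one htot]
    exact_mod_cast zi_tot q
  · intro i
    have h1 : cc (fun χ : DirichletCharacter ℂ q => lfc χ) (al q a) ((starRingEnd ℂ) (i : ℂ)) =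
        (starRingEnd ℂ) (cc (fun χ : DirichletCharacter ℂ q => lfc χ) (al q a) i) := by
      rw [zi_cc, zi_cc, cf_conj, map_div₀, map_natCast]
    refine ⟨⟨(starRingEnd ℂ) (i : ℂ), ?_⟩, rfl, h1⟩
    rw [h1]
    exact (map_ne_zero (starRingEnd ℂ)).2 i.2
  · intro i hi
    have h1 := (zi_ne q a i).1 i.2
    refine ⟨⟨1 - (starRingEnd ℂ) (i : ℂ), ?_⟩, rfl⟩
    rw [zi_ne, cf_sym q a i hi (cf_lt q a i h1)]
    exact h1
  · intro n
    unfold Vq
    split_ifs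
    · exact ArithmeticFunction.vonMangoldt_nonneg
    · exact le_rfl
  · intro n
    unfold Vq
    split_ifs
    · exact le_rfl
    · exact ArithmeticFunction.vonMangoldt_nonneg
  · rintro p ⟨hp, hpa⟩
    refine ⟨hp, ?_, ?_⟩
    · rw [Vq, if_pos hpa, ArithmeticFunction.vonMangoldt_apply_prime hp]
    · refine wq_coprime q a p ((ZMod.isUnit_iff_coprime p q).1 ?_)
      rw [hpa]
      exact a.isUnit

end Pool.Agent.H50.RQ
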