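import Pool.Agent.H50.RQ.Af
import Pool.Agent.H50.RQ.Bh
import Pool.Agent.H50.RQ.Dz
import Pool.Agent.H50.RQ.Dc
import Pool.Agent.H50.RQ.Zi

/-!
[H50 RQ FN] Final assembly of RIGHTMOST LINE FOR ALL MODULI.
-/

set_option autoImplicit false

namespace Pool.Agent.H50.RQ

open MeasureTheory Filter Topology
open Pool.Agent.H50.RL (SC Lp Lf Wk Ft)

/-- `ψ(x; q, a)` -/
noncomputable def Ps (q : ℕ) [NeZero q] (a : (ZMod q)ˣ) (x : ℝ) : ℝ :=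
  ∑ n ∈ Finset.Icc 1 ⌊x⌋₊, Vq q a n

/-- `ψ(x; q, a) - (1-δ) x/φ(q) - ψ(δ x; q, a)` -/
noncomputable def EQ (q : ℕ) [NeZero q] (a : (ZMod q)ˣ) (δ x : ℝ) : ℝ :=
  Ps q a x - (1 - δ) * x / (q.totient : ℝ) - Ps q a (δ * x)

theorem eq_exp (q : ℕ) [NeZero q] (a : (ZMod q)ˣ) (D : ZD) (hV : D.V = Vq q a) (hκ : D.κ = 1 / (q.totient : ℝ))
    (δ v : ℝ) (hδ : 0 < δ) :
    EQ q a δ (Real.exp v) = D.f v - D.f (v - (-Real.log δ)) := by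
  have h : Real.exp (v - (-Real.log δ)) = δ * Real.exp v := by
    rw [sub_neg_eq_add, Real.exp_add, Real.exp_log hδ, mul_comm]
  unfold EQ ZD.f Ps
  rw [h, hV, hκ]
  ring

theorem sc_expQ (q : ℕ) [NeZero q] (a : (ZMod q)ˣ) (D : ZD) (hV : D.V = Vq q a) (hκ : D.κ = 1 / (q.totient : ℝ))
    (δ y : ℝ) (n : ℕ) (hδ : 0 < δ)
    (h : SC (fun v => D.f v - D.f (v - (-Real.log δ))) y (y + 1) n) :
    SC (EQ q a δ) (Real.exp y) (Real.exp 1 * Real.exp y) n := by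
  obtain ⟨x, h1, h2, h3⟩ := h
  refine ⟨fun i => Real.exp (x i), fun i j hij => Real.exp_lt_exp.2 (h1 hij), fun i => ⟨?_, ?_⟩, fun i => ?_⟩
  · exact Real.exp_le_exp.2 (h2 i).1
  · rw [← Real.exp_add]
    exact Real.exp_le_exp.2 (by linarith [(h2 i).2])
  · have h := h3 i
    simp only at h ⊢
    rw [eq_exp q a D hV hκ δ _ hδ, eq_exp q a D hV hκ δ _ hδ]
    exact h

private theorem sc_pred (F : ℝ → ℝ) (a b : ℝ) (k : ℕ) (h : SC F a b (k + 1)) : SC F a b k := by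
  obtain ⟨x, h1, h2, h3⟩ := h
  refine ⟨fun i => x i.castSucc, fun i j hij => h1 (Fin.castSucc_lt_castSucc_iff.2 hij), fun i => h2 _, fun i => ?_⟩
  have h := h3 i.castSucc
  rw [← Fin.castSucc_succ] at h
  exact h

private theorem le_exp_of_log {T y : ℝ} (hy : Real.log (max T 1) ≤ y) : T ≤ Real.exp y := by
  calc T ≤ max T 1 := le_max_left _ _
    _ = Real.exp (Real.log (max T 1)) := (Real.exp_log (lt_of_lt_of_le one_pos (le_max_right _ _))).symm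
    _ ≤ Real.exp y := Real.exp_le_exp.2 hy

/-- the supremum is not attained: unboundedly many sign changes for EVERY `δ` -/
theorem fin_bQ (q : ℕ) [NeZero q] (a : (ZMod q)ˣ) (D : ZD) (hV : D.V = Vq q a) (hκ : D.κ = 1 / (q.totient : ℝ))
    (hne : ∃ i, 1 / 2 < (D.ρ i).re) (hna : ∀ i, ∃ j, (D.ρ i).re < (D.ρ j).re)
    (δ : ℝ) (h0 : 0 < δ) (h1 : δ < 1) (M : ℕ) (T₀ : ℝ) :
    ∃ T : ℝ, T₀ ≤ T ∧ SC (EQ q a δ) T (Real.exp 1 * T) M := by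
  have hη : 0 < -Real.log δ := by
    have := Real.log_neg h0 h1
    linarith
  obtain ⟨y, hy, hsc⟩ := D.part_b hne hna M (-Real.log δ) hη (Real.log (max T₀ 1))
  exact ⟨Real.exp y, le_exp_of_log hy, sc_expQ q a D hV hκ δ y M h0 hsc⟩

/-- no pole to the right of `1/2` -/
theorem fin_aQ (q : ℕ) [NeZero q] (a : (ZMod q)ˣ) (D : ZD) (hV : D.V = Vq q a) (hκ : D.κ = 1 / (q.totient : ℝ))
    (hRH : ∀ i, (D.ρ i).re ≤ 1 / 2) (M : ℕ) :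
    ∃ δ₀ : ℝ, δ₀ < 1 ∧ ∀ δ : ℝ, 0 ≤ δ → δ₀ < δ → δ < 1 → ∀ T₀ : ℝ,
      ∃ T : ℝ, T₀ ≤ T ∧ SC (EQ q a δ) T (Real.exp 1 * T) M := by
  obtain ⟨η0, hη0, H⟩ := D.part_a hRH M
  refine ⟨Real.exp (-η0), by rw [Real.exp_lt_one_iff]; linarith, fun δ _ h1 h2 T₀ => ?_⟩
  have hδ : 0 < δ := lt_trans (Real.exp_pos _) h1
  have hη : 0 < -Real.log δ := by
    have := Real.log_neg hδ h2
    linarith
  have hη1 : -Real.log δ < η0 := by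
    have := Real.log_lt_log (Real.exp_pos _) h1
    rw [Real.log_exp] at this
    linarith
  obtain ⟨y, hy, hsc⟩ := H (-Real.log δ) hη hη1 (Real.log (max T₀ 1))
  exact ⟨Real.exp y, le_exp_of_log hy, sc_expQ q a D hV hκ δ y M hδ hsc⟩

/-- infinitely many poles on the rightmost line, residues bounded below -/
theorem fin_dQ (q : ℕ) [NeZero q] (a : (ZMod q)ˣ) (D : ZD) (hV : D.V = Vq q a) (hκ : D.κ = 1 / (q.totient : ℝ))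
    (Θ : ℝ) (hΘ : 1 / 2 < Θ) (hΘ1 : Θ < 1) (hmax : ∀ i, (D.ρ i).re ≤ Θ)
    (hinf : {i | (D.ρ i).re = Θ}.Infinite) (κ0 : ℝ) (hκ0 : 0 < κ0) (hc : ∀ i, (D.ρ i).re = Θ → κ0 ≤ ‖D.c i‖) (M : ℕ) :
    ∃ δ₀ : ℝ, δ₀ < 1 ∧ ∀ δ : ℝ, 0 ≤ δ → δ₀ < δ → δ < 1 → ∀ T₀ : ℝ,
      ∃ T : ℝ, T₀ ≤ T ∧ SC (EQ q a δ) T (Real.exp 1 * T) M := by
  by_contra hcon
  push Not at hcon
  have hex : ∀ n : ℕ, ∃ δ : ℝ, 0 ≤ δ ∧ 1 - 1 / ((n : ℝ) + 2) < δ ∧ δ < 1 ∧ ∃ T₀ : ℝ, ∀ T : ℝ, T₀ ≤ T →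
      ¬ SC (EQ q a δ) T (Real.exp 1 * T) M := by
    intro n
    have hn : (0 : ℝ) < (n : ℝ) + 2 := by positivity
    obtain ⟨δ, h1, h2, h3, T₀, h4⟩ := hcon (1 - 1 / ((n : ℝ) + 2)) (by
      have : 0 < 1 / ((n : ℝ) + 2) := by positivity
      linarith)
    exact ⟨δ, h1, h2, h3, T₀, h4⟩
  choose δ hδ0 hδ1 hδ2 T₀ hT₀ using hex
  have hpos : ∀ n, 0 < δ n := by
    intro n
    have h : 1 / ((n : ℝ) + 2) ≤ 1 := by
      rw [div_le_one (by positivity)]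
      have : (0 : ℝ) ≤ n := Nat.cast_nonneg n
      linarith
    linarith [hδ1 n]
  have hlim : Tendsto δ atTop (𝓝 1) := by
    have h1 : Tendsto (fun n : ℕ => 1 - 1 / ((n : ℝ) + 2)) atTop (𝓝 (1 - 0)) := by
      apply Tendsto.const_sub
      have := (tendsto_const_div_atTop_nhds_zero_nat (1 : ℝ)).comp (tendsto_add_atTop_nat 2)
      refine this.congr fun n => ?_
      simp
    rw [sub_zero] at h1
    exact tendsto_of_tendsto_of_tendsto_of_le_of_le h1 tendsto_const_nhds (fun n => (hδ1 n).le)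
      (fun n => (hδ2 n).le)
  have hlog : Tendsto (fun n => -Real.log (δ n)) atTop (𝓝 0) := by
    have := ((Real.continuousAt_log one_ne_zero).tendsto.comp hlim).neg
    simpa using this
  refine D.part_dz Θ hΘ hΘ1 hmax hinf κ0 hκ0 hc M (fun n => -Real.log (δ n)) (fun n => ?_) hlog
    (fun n => ⟨Real.log (max (T₀ n) 1), fun y hy hsc => ?_⟩)
  · have := Real.log_neg (hpos n) (hδ2 n)
    linarith
  · exact hT₀ n (Real.exp y) (le_exp_of_log hy) (sc_expQ q a D hV hκ (δ n) y M (hpos n) (sc_pred _ _ _ _ hsc))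

/-- the exceptional case -/
def Exc (q : ℕ) [NeZero q] (a : (ZMod q)ˣ) : Prop :=
  ∃ Θ : ℝ, 1 / 2 < Θ ∧ Θ < 1 ∧ (∀ ρ : ℂ, Θ < ρ.re → res q a ρ = 0) ∧
    {ρ : ℂ | ρ.re = Θ ∧ res q a ρ ≠ 0}.Nonempty ∧
    ({ρ : ℂ | ρ.re = Θ ∧ res q a ρ ≠ 0}.Finite ∨
      (¬ (a ^ 4 = 1 ∨ a ^ 6 = 1) ∧ ∀ ε : ℝ, 0 < ε → ∃ ρ : ℂ, ρ.re = Θ ∧ res q a ρ ≠ 0 ∧ ‖res q a ρ‖ < ε))

theorem fin_allQ (q : ℕ) [NeZero q] (a : (ZMod q)ˣ) (h : ¬ Exc q a) (M : ℕ) :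
    ∃ δ₀ : ℝ, δ₀ < 1 ∧ ∀ δ : ℝ, 0 ≤ δ → δ₀ < δ → δ < 1 → ∀ T₀ : ℝ,
      ∃ T : ℝ, T₀ ≤ T ∧ SC (EQ q a δ) T (Real.exp 1 * T) M := by
  obtain ⟨D, hV, hκ, hc, hex⟩ := zd_exists q a
  have hφ : (0 : ℝ) < q.totient := by
    exact_mod_cast Nat.totient_pos.2 (Nat.pos_of_ne_zero (NeZero.ne q))
  by_cases hRH : ∀ i, (D.ρ i).re ≤ 1 / 2
  · exact fin_aQ q a D hV hκ hRH M
  push Not at hRH
  by_cases hna : ∀ i, ∃ j, (D.ρ i).re < (D.ρ j).re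
  · exact ⟨0, one_pos, fun δ _ h0 h1 T₀ => fin_bQ q a D hV hκ hRH hna δ h0 h1 M T₀⟩
  push Not at hna
  obtain ⟨i1, hi1⟩ := hRH
  obtain ⟨i2, hi2⟩ := hna
  obtain ⟨Θ, hΘe⟩ : ∃ Θ, Θ = (D.ρ i2).re := ⟨_, rfl⟩
  rw [← hΘe] at hi2
  have hΘ : 1 / 2 < Θ := lt_of_lt_of_le hi1 (hi2 i1)
  have hΘ1 : Θ < 1 := by
    rw [hΘe]
    exact D.rlt i2
  have hcne : ∀ i, cf q a (D.ρ i) ≠ 0 := by
    intro i h0
    refine D.cne i ?_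
    rw [hc i, h0, zero_div]
  have hre : ∀ ρ : ℂ, Θ ≤ ρ.re → res q a ρ = cf q a ρ := fun ρ hρ => res_eq q a ρ (by linarith)
  have hsup : ∀ ρ : ℂ, Θ < ρ.re → res q a ρ = 0 := by
    intro ρ hρ
    rw [hre ρ hρ.le]
    by_contra hne
    obtain ⟨i, hi⟩ := hex ρ hne
    have := hi2 i
    rw [hi] at this
    linarith
  have hnon : {ρ : ℂ | ρ.re = Θ ∧ res q a ρ ≠ 0}.Nonempty := by
    refine ⟨D.ρ i2, hΘe.symm, ?_⟩
    rw [hre _ hΘe.le]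
    exact hcne i2
  have hinf : {i | (D.ρ i).re = Θ}.Infinite := by
    intro hfin
    refine h ⟨Θ, hΘ, hΘ1, hsup, hnon, Or.inl ?_⟩
    refine (hfin.image D.ρ).subset ?_
    intro ρ hρ
    obtain ⟨h1, h2⟩ := hρ
    rw [hre ρ h1.ge] at h2
    obtain ⟨i, hi⟩ := hex ρ h2
    exact ⟨i, by rw [Set.mem_setOf_eq, hi, h1], hi⟩
  obtain ⟨ε, hε, hlow⟩ : ∃ ε : ℝ, 0 < ε ∧ ∀ i, (D.ρ i).re = Θ → ε ≤ ‖cf q a (D.ρ i)‖ := by
    by_cases h46 : a ^ 4 = 1 ∨ a ^ 6 = 1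
    · exact ⟨1, one_pos, fun i _ => cf_one q a h46 _ (hcne i)⟩
    · by_contra hcon
      push Not at hcon
      refine h ⟨Θ, hΘ, hΘ1, hsup, hnon, Or.inr ⟨h46, fun ε hε => ?_⟩⟩
      obtain ⟨i, hi1, hi2⟩ := hcon ε hε
      refine ⟨D.ρ i, hi1, ?_, ?_⟩
      · rw [hre _ hi1.ge]
        exact hcne i
      · rw [hre _ hi1.ge]
        exact hi2
  refine fin_dQ q a D hV hκ Θ hΘ hΘ1 hi2 hinf (ε / q.totient) (by positivity) (fun i hi => ?_) M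
  rw [hc i, norm_div, Complex.norm_natCast]
  exact div_le_div_of_nonneg_right (hlow i hi) hφ.le

end Pool.Agent.H50.RQ
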