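import Pool.Agent.H50.RQ.Ap
import Pool.Agent.H50.RL.Seq
import Pool.Agent.H50.RL.Grid

/-!
[H50 RQ GR] Few sign changes of `d η` imply that the `L¹` norm of `d η` is `O(η)` on every unit interval.

PROOF. Copy `l1_unit` of `Pool/Agent/H50/RL/Grid.lean` (`RL.sc_mono`, `RL.sc_two`, `RL.sum_abs_le` can be used as they are; `LD.r_abs_le`, `LD.d_cont`).
-/

set_option autoImplicit false

namespace Pool.Agent.H50.RQ

open MeasureTheory Filter Topology
open Pool.Agent.H50.RL (SC Lp Lf Wk Ft)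

private theorem pt_bd (D : LD) (M : ℕ) (η : ℝ) (h0 : 0 < η) (h1 : η ≤ 1)
    (h : ∀ y : ℝ, ¬ SC (D.d η) y (y + 1) (M + 1)) (a : ℝ) (K : ℕ) (hK : (K : ℝ) * η ≤ 2) (s : ℝ)
    (hs : a ≤ s ∧ s ≤ a + η) :
    ∑ j ∈ Finset.range K, |D.d η (s + j * η)| ≤ 4 * (M + 1) * D.S * Real.exp (2 * D.Θ) := by
  obtain ⟨G, hG⟩ : ∃ G : ℕ → ℝ, ∀ j, G j = Real.exp (D.Θ * (s + j * η - η)) * D.r (s + j * η - η) :=
    ⟨_, fun _ => rfl⟩
  have hΘ := D.Θpos
  have hS := D.S_nonneg
  have hinc : ∀ j : ℕ, G (j + 1) - G j = Real.exp (D.Θ * (s + j * η)) * D.d η (s + j * η) := by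
    intro j
    rw [hG, hG]
    unfold LD.d
    have e1 : s + ((j + 1 : ℕ) : ℝ) * η - η = s + j * η := by
      push_cast
      ring
    have e2 : Real.exp (D.Θ * (s + j * η - η)) = Real.exp (D.Θ * (s + j * η)) * Real.exp (-(D.Θ * η)) := by
      rw [← Real.exp_add]
      congr 1
      ring
    rw [e1, e2]
    ring
  have hB : ∀ j ≤ K, |G j| ≤ Real.exp (D.Θ * (a + 2)) * D.S := by
    intro j hj
    rw [hG, abs_mul, abs_of_pos (Real.exp_pos _)]
    have hj' : (j : ℝ) ≤ K := by exact_mod_cast hj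
    have h2 : (j : ℝ) * η ≤ K * η := mul_le_mul_of_nonneg_right hj' h0.le
    refine mul_le_mul (Real.exp_le_exp.2 ?_) (D.r_abs_le _) (abs_nonneg _) (Real.exp_pos _).le
    refine mul_le_mul_of_nonneg_left ?_ hΘ.le
    linarith [hs.2]
  obtain ⟨k, hk⟩ : ∃ k : ℕ, k = 2 * M + 1 := ⟨_, rfl⟩
  have hno : ¬ ∃ i : Fin (k + 2) → ℕ, StrictMono i ∧ (∀ a, i a < K) ∧
      ∀ a : Fin (k + 1), (G (i a.castSucc + 1) - G (i a.castSucc)) * (G (i a.succ + 1) - G (i a.succ)) < 0 := by
    rintro ⟨i, hi1, hi2, hi3⟩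
    have hSC : SC (D.d η) a (a + 2) (2 * (M + 1)) := by
      have e1 : 2 * (M + 1) = k + 1 := by omega
      rw [e1]
      refine ⟨fun b => s + (i b) * η, ?_, fun b => ⟨?_, ?_⟩, fun b => ?_⟩
      · intro b c hbc
        have h2 : (i b : ℝ) < i c := by exact_mod_cast hi1 hbc
        have h3 := mul_lt_mul_of_pos_right h2 h0
        show s + (i b) * η < s + (i c) * η
        linarith
      · have h2 : (0 : ℝ) ≤ (i b : ℝ) * η := by positivity
        linarith [hs.1]
      · have h2 : ((i b : ℝ) + 1) ≤ K := by exact_mod_cast hi2 b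
        have h3 := mul_le_mul_of_nonneg_right h2 h0.le
        have h4 : ((i b : ℝ) + 1) * η = (i b : ℝ) * η + η := by ring
        linarith [hs.2]
      · have h2 := hi3 b
        rw [hinc, hinc] at h2
        have h3 : Real.exp (D.Θ * (s + (i b.castSucc) * η)) * D.d η (s + (i b.castSucc) * η) *
            (Real.exp (D.Θ * (s + (i b.succ) * η)) * D.d η (s + (i b.succ) * η)) =
            (Real.exp (D.Θ * (s + (i b.castSucc) * η)) * Real.exp (D.Θ * (s + (i b.succ) * η))) *
            (D.d η (s + (i b.castSucc) * η) * D.d η (s + (i b.succ) * η)) := by ring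
        rw [h3] at h2
        by_contra h4
        push Not at h4
        have h5 := mul_nonneg (mul_pos (Real.exp_pos (D.Θ * (s + (i b.castSucc) * η)))
          (Real.exp_pos (D.Θ * (s + (i b.succ) * η)))).le h4
        linarith
    rcases RL.sc_two hSC with h2 | h2
    · exact h a h2
    · exact h (a + 1) h2
  have hsum := RL.sum_abs_le k K G _ hB hno
  have hterm : ∀ j ∈ Finset.range K, |D.d η (s + j * η)| ≤
      Real.exp (-(D.Θ * a)) * |G (j + 1) - G j| := by
    intro j _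
    rw [hinc, abs_mul, abs_of_pos (Real.exp_pos _), ← mul_assoc, ← Real.exp_add]
    have h2 : (0 : ℝ) ≤ (j : ℝ) * η := by positivity
    have h3 : 1 ≤ Real.exp (-(D.Θ * a) + D.Θ * (s + j * η)) := by
      rw [Real.one_le_exp_iff]
      have h4 : D.Θ * a ≤ D.Θ * (s + j * η) := by
        refine mul_le_mul_of_nonneg_left ?_ hΘ.le
        linarith [hs.1]
      linarith
    have h5 := mul_le_mul_of_nonneg_right h3 (abs_nonneg (D.d η (s + j * η)))
    linarith
  refine (Finset.sum_le_sum hterm).trans ?_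
  rw [← Finset.mul_sum]
  refine (mul_le_mul_of_nonneg_left hsum (Real.exp_pos _).le).trans (le_of_eq ?_)
  have e2 : Real.exp (D.Θ * (a + 2)) = Real.exp (D.Θ * a) * Real.exp (2 * D.Θ) := by
    rw [← Real.exp_add]
    congr 1
    ring
  have e3 : Real.exp (-(D.Θ * a)) * Real.exp (D.Θ * a) = 1 := by
    rw [← Real.exp_add, neg_add_cancel, Real.exp_zero]
  rw [e2, hk]
  push_cast
  linear_combination (2 * Real.exp (2 * D.Θ) * D.S * (2 * (M : ℝ) + 1 + 1)) * e3

theorem LD.l1_unit (D : LD) (M : ℕ) (η : ℝ) (h0 : 0 < η) (h1 : η ≤ 1)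
    (h : ∀ y : ℝ, ¬ SC (D.d η) y (y + 1) (M + 1)) (a : ℝ) :
    ∫ u in a..(a + 1), |D.d η u| ≤ η * (4 * (M + 1) * D.S * Real.exp (2 * D.Θ)) := by
  obtain ⟨K, hKdef⟩ : ∃ K : ℕ, K = ⌈1 / η⌉₊ := ⟨_, rfl⟩
  have hcont : Continuous fun u => |D.d η u| := (D.d_cont η).abs
  have hK1 : 1 ≤ (K : ℝ) * η := by
    have h2 : 1 / η ≤ (K : ℝ) := by
      rw [hKdef]
      exact Nat.le_ceil _
    rwa [div_le_iff₀ h0] at h2
  have hK2 : (K : ℝ) * η ≤ 2 := by
    have h2 : (K : ℝ) < 1 / η + 1 := by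
      rw [hKdef]
      exact Nat.ceil_lt_add_one (by positivity)
    have h3 := mul_lt_mul_of_pos_right h2 h0
    have h4 : (1 / η + 1) * η = 1 + η := by
      field_simp
    rw [h4] at h3
    linarith
  have s1 : ∫ u in a..(a + 1), |D.d η u| ≤ ∫ u in a..(a + K * η), |D.d η u| := by
    refine intervalIntegral.integral_mono_interval le_rfl (by linarith) (by linarith) ?_
      (hcont.intervalIntegrable _ _)
    exact Filter.Eventually.of_forall fun u => abs_nonneg _
  have s2 : ∫ u in a..(a + K * η), |D.d η u| =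
      ∑ j ∈ Finset.range K, ∫ u in (a + (j : ℝ) * η)..(a + ((j + 1 : ℕ) : ℝ) * η), |D.d η u| := by
    have h2 := intervalIntegral.sum_integral_adjacent_intervals (f := fun u => |D.d η u|)
      (μ := volume) (a := fun j : ℕ => a + (j : ℝ) * η) (n := K)
      (fun j _ => hcont.intervalIntegrable _ _)
    rw [h2]
    simp
  have s3 : ∀ j : ℕ, ∫ u in (a + (j : ℝ) * η)..(a + ((j + 1 : ℕ) : ℝ) * η), |D.d η u| =
      ∫ s in a..(a + η), |D.d η (s + j * η)| := by
    intro j
    rw [intervalIntegral.integral_comp_add_right (fun u => |D.d η u|) ((j : ℝ) * η)]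
    congr 1
    push_cast
    ring
  have hc2 : ∀ j : ℕ, Continuous fun s : ℝ => |D.d η (s + j * η)| := fun j =>
    hcont.comp (by fun_prop : Continuous fun s : ℝ => s + j * η)
  have s4 : ∫ u in a..(a + K * η), |D.d η u| =
      ∫ s in a..(a + η), ∑ j ∈ Finset.range K, |D.d η (s + j * η)| := by
    rw [s2, intervalIntegral.integral_finsetSum (fun j _ => (hc2 j).intervalIntegrable _ _)]
    exact Finset.sum_congr rfl fun j _ => s3 j
  have s5 : ∫ s in a..(a + η), ∑ j ∈ Finset.range K, |D.d η (s + j * η)| ≤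
      ∫ _ in a..(a + η), (4 * (M + 1) * D.S * Real.exp (2 * D.Θ)) := by
    refine intervalIntegral.integral_mono_on (by linarith) ?_ (by simp) ?_
    · exact (continuous_finsetSum _ fun j _ => hc2 j).intervalIntegrable _ _
    · intro s hs
      exact pt_bd D M η h0 h1 h a K hK2 s hs
  rw [intervalIntegral.integral_const, add_sub_cancel_left, smul_eq_mul] at s5
  rw [s4] at s1
  exact s1.trans s5

end Pool.Agent.H50.RQ
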