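import Pool.Agent.H50.RQ.Xl
import Pool.Agent.H50.RQ.Lk

/-!
RIGHTMOST LINE FOR ALL MODULI: values of the primitive characters, the family of `L`-functions modulo `q`.
-/

set_option autoImplicit false

namespace Pool.Agent.H50.RQ

open MeasureTheory Filter Topology
open Pool.Agent.H50.RL (SC Lp Lf Wk Ft)

open Classical in
/-- the values of the primitive character inducing `χ` -/
noncomputable def gx {q : ℕ} [NeZero q] (χ : DirichletCharacter ℂ q) (n : ℕ) : ℂ :=
  if χ = 1 then 1 else χ.primitiveCharacter n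

theorem prim_ne_one {q : ℕ} [NeZero q] (χ : DirichletCharacter ℂ q) (h : χ ≠ 1) : χ.primitiveCharacter ≠ 1 := by
  intro h1
  apply h
  have h2 := DirichletCharacter.changeLevel_primitiveCharacter χ
  rw [h1, map_one] at h2
  exact h2.symm

open Classical in
/-- the `L`-function of the primitive character inducing `χ` -/
noncomputable def lfc {q : ℕ} [NeZero q] (χ : DirichletCharacter ℂ q) : LF :=
  if h : χ = 1 then lfz else lfx χ.conductor χ.primitiveCharacter (prim_ne_one χ h)

theorem lfc_F {q : ℕ} [NeZero q] (χ : DirichletCharacter ℂ q) : (lfc χ).F = LL χ := by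
  unfold lfc LL
  split_ifs <;> rfl

theorem lfc_g {q : ℕ} [NeZero q] (χ : DirichletCharacter ℂ q) (n : ℕ) : (lfc χ).g n = gx χ n := by
  unfold lfc gx
  split_ifs <;> rfl

open Classical in
theorem lfc_p {q : ℕ} [NeZero q] (χ : DirichletCharacter ℂ q) : (lfc χ).p = if χ = 1 then 1 else 0 := by
  unfold lfc
  split_ifs <;> rfl

/-- the true weights -/
noncomputable def Vq (q : ℕ) [NeZero q] (a : (ZMod q)ˣ) (n : ℕ) : ℝ :=
  if (n : ZMod q) = (a : ZMod q) then ArithmeticFunction.vonMangoldt n else 0

/-- the perturbation of the weights -/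
noncomputable def wq (q : ℕ) [NeZero q] (a : (ZMod q)ˣ) (n : ℕ) : ℝ :=
  ArithmeticFunction.vonMangoldt n / (q.totient : ℝ) *
    (∑ χ : DirichletCharacter ℂ q, χ (((a⁻¹ : (ZMod q)ˣ)) : ZMod q) * gx χ n).re - Vq q a n

end Pool.Agent.H50.RQ
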