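import Pool.Agent.H50.RQ.Zb

/-!
[H50 RQ IA] `Σ_{n ≤ exp y} V n` between smoothed sums over the poles with positive real part.

PROOF. Copy `Pool/Agent/H50/RL/Ia.lean` (`smooth_psi`). `Ψ u = λ u · S((y-u)/h)`, `λ = 0` on `u ≤ 3/10`, `λ = 1` on `u ≥ 6/10`; for `s ≠ 0` `Lp Ψ s = (Wk K y h s - A s)/s`, `A s = ∫ λ'(u) e^{su} du`. `D.explicit Ψ` (`Ψ 0 = 0`):
`Σ (V n + w n) Ψ(log n) = κ Lp Ψ 1 - Σ_i c_i Lp Ψ (ρ i)`. `Σ ‖c‖ ‖A ρ/ρ‖` over `0 < Re ρ < 1` converges (`‖A ρ‖ ≤ C/‖ρ‖`, `sumc 2`), so the `Wk` series over `0 < Re ρ` converges too. NEW: (a) the `i` with `Re ρ ≤ 0`: `ρ = -n` (`D.left`): `n = 0` (at most one):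
`‖c Lp Ψ 0‖ ≤ ‖c‖ (y + 1)`; `n ≥ 1`: `|Lp Ψ (-n)| ≤ ∫_{3/10}^∞ e^{-nu} du = e^{-3n/10}/n ≤ 4/n^2`, so the sum over them is `≤ 4 Σ ‖c‖/‖ρ‖^2`. (b) `|Σ w n Ψ(log n)| ≤ Σ_{n ≤ e^{y+1}} |w n| ≤ C (2 + y)` (`D.w2`, `0 ≤ Ψ ≤ 1`). (c) the comparison of
`Σ V n Ψ(log n)` with `Σ_{n ≤ exp y} V n` uses `V n ≥ 0`, and `V 1 = 0` (`Λ 1 = 0`, `D.V1`). All errors together `≤ C (1 + y)`.
-/

set_option autoImplicit false

namespace Pool.Agent.H50.RQ

open MeasureTheory Filter Topology
open Pool.Agent.H50.RL (SC Lp Lf Wk Ft)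

private noncomputable def lam (u : ℝ) : ℝ := Real.smoothTransition ((u - 3 / 10) / (3 / 10))

private theorem lam_smooth : ContDiff ℝ (⊤ : ℕ∞) lam := by
  have h1 : ContDiff ℝ (⊤ : ℕ∞) fun u : ℝ => (u - 3 / 10) / (3 / 10) := by fun_prop
  exact Real.smoothTransition.contDiff.comp h1

private theorem lam_zero {u : ℝ} (hu : u ≤ 3 / 10) : lam u = 0 := by
  refine Real.smoothTransition.zero_of_nonpos ?_
  rw [div_le_iff₀ (by norm_num)]
  linarith

private theorem lam_one {u : ℝ} (hu : 6 / 10 ≤ u) : lam u = 1 := by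
  refine Real.smoothTransition.one_of_one_le ?_
  rw [le_div_iff₀ (by norm_num)]
  linarith

private theorem lam_nonneg (u : ℝ) : 0 ≤ lam u := Real.smoothTransition.nonneg _

private theorem lam_le_one (u : ℝ) : lam u ≤ 1 := Real.smoothTransition.le_one _

private theorem dlam_smooth : ContDiff ℝ (⊤ : ℕ∞) (deriv lam) :=
  (contDiff_infty_iff_deriv.1 lam_smooth).2

private theorem ddlam_smooth : ContDiff ℝ (⊤ : ℕ∞) (deriv (deriv lam)) :=
  (contDiff_infty_iff_deriv.1 dlam_smooth).2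

private theorem dlam_zero {u : ℝ} (hu : u < 3 / 10 ∨ 6 / 10 < u) : deriv lam u = 0 := by
  rcases hu with hu | hu
  · have h1 : lam =ᶠ[𝓝 u] fun _ => 0 := by
      filter_upwards [Iio_mem_nhds hu] with v hv
      exact lam_zero hv.le
    rw [h1.deriv_eq]
    exact deriv_const u 0
  · have h1 : lam =ᶠ[𝓝 u] fun _ => 1 := by
      filter_upwards [Ioi_mem_nhds hu] with v hv
      exact lam_one (le_of_lt hv)
    rw [h1.deriv_eq]
    exact deriv_const u 1

private theorem ddlam_zero {u : ℝ} (hu : u < 3 / 10 ∨ 6 / 10 < u) : deriv (deriv lam) u = 0 := by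
  have h1 : deriv lam =ᶠ[𝓝 u] fun _ => 0 := by
    rcases hu with hu | hu
    · filter_upwards [Iio_mem_nhds hu] with v hv
      exact dlam_zero (Or.inl hv)
    · filter_upwards [Ioi_mem_nhds hu] with v hv
      exact dlam_zero (Or.inr hv)
  rw [h1.deriv_eq]
  exact deriv_const u 0

private theorem dlam_compact : HasCompactSupport (deriv lam) := by
  refine HasCompactSupport.intro (isCompact_Icc : IsCompact (Set.Icc (3 / 10 : ℝ) (6 / 10)))
    fun u hu => ?_
  refine dlam_zero ?_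
  rw [Set.mem_Icc, not_and_or, not_le, not_le] at hu
  exact hu

private theorem ddlam_compact : HasCompactSupport (deriv (deriv lam)) := by
  refine HasCompactSupport.intro (isCompact_Icc : IsCompact (Set.Icc (3 / 10 : ℝ) (6 / 10)))
    fun u hu => ?_
  refine ddlam_zero ?_
  rw [Set.mem_Icc, not_and_or, not_le, not_le] at hu
  exact hu

/-- integrability against the exponential -/
private theorem int_exp {f : ℝ → ℝ} (hf : Continuous f) (hc : HasCompactSupport f) (g : ℝ → ℂ)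
    (hg : Continuous g) : Integrable fun u : ℝ => (f u : ℂ) * g u := by
  have h1 : Continuous fun u : ℝ => (f u : ℂ) * g u :=
    (Complex.continuous_ofReal.comp hf).mul hg
  refine h1.integrable_of_hasCompactSupport ?_
  have h2 : HasCompactSupport fun u : ℝ => (f u : ℂ) := hc.comp_left Complex.ofReal_zero
  exact h2.mul_right

private theorem exp_cont (s : ℂ) : Continuous fun u : ℝ => Complex.exp (s * u) := by fun_prop

/-- integration by parts -/
private theorem ibp {f : ℝ → ℝ} (hf : ContDiff ℝ 1 f) (hc : HasCompactSupport f)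
    (hc' : HasCompactSupport (deriv f)) (s : ℂ) (hs : s ≠ 0) :
    ∫ u : ℝ, (f u : ℂ) * Complex.exp (s * u) =
      -(1 / s * ∫ u : ℝ, ((deriv f u : ℝ) : ℂ) * Complex.exp (s * u)) := by
  have hv : ∀ x : ℝ, HasDerivAt (fun u : ℝ => Complex.exp (s * u) / s) (Complex.exp (s * x)) x := by
    intro x
    have h1 : HasDerivAt (fun u : ℝ => s * (u : ℂ)) s x := by
      have h2 := (Complex.ofRealCLM.hasDerivAt (x := x)).const_mul s
      rw [Complex.ofRealCLM_apply, Complex.ofReal_one, mul_one] at h2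
      exact h2
    have h3 := (h1.cexp).div_const s
    rw [mul_div_assoc, div_self hs, mul_one] at h3
    exact h3
  have hu : ∀ x : ℝ, HasDerivAt (fun u : ℝ => (f u : ℂ)) ((deriv f x : ℝ) : ℂ) x := fun x =>
    ((hf.differentiable one_ne_zero) x).hasDerivAt.ofReal_comp
  have hcd : Continuous (deriv f) := hf.continuous_deriv le_rfl
  have h1 := integral_mul_deriv_eq_deriv_mul_of_integrable (u := fun u : ℝ => (f u : ℂ))
    (v := fun u : ℝ => Complex.exp (s * u) / s) (u' := fun u : ℝ => ((deriv f u : ℝ) : ℂ))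
    (v' := fun u : ℝ => Complex.exp (s * u)) (fun x _ => hu x) (fun x _ => hv x)
    (int_exp hf.continuous hc _ (exp_cont s))
    (int_exp hcd hc' _ ((exp_cont s).div_const s))
    (int_exp hf.continuous hc _ ((exp_cont s).div_const s))
  rw [h1, ← integral_const_mul]
  congr 1
  refine integral_congr_ae (Eventually.of_forall fun u => ?_)
  show ((deriv f u : ℝ) : ℂ) * (Complex.exp (s * u) / s) =
    1 / s * (((deriv f u : ℝ) : ℂ) * Complex.exp (s * u))
  ring

/-- the contribution of the cut off -/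
private noncomputable def AA (s : ℂ) : ℂ :=
  ∫ u : ℝ, ((deriv lam u : ℝ) : ℂ) * Complex.exp (s * u)

private theorem AA_bound : ∃ D : ℝ, 0 ≤ D ∧ ∀ s : ℂ, s ≠ 0 → s.re ≤ 1 → ‖AA s‖ ≤ D / ‖s‖ := by
  have hi : Integrable fun u : ℝ => |deriv (deriv lam) u| * Real.exp 1 :=
    ((ddlam_smooth.continuous.integrable_of_hasCompactSupport ddlam_compact).abs).mul_const _
  refine ⟨∫ u : ℝ, |deriv (deriv lam) u| * Real.exp 1,
    integral_nonneg fun u => by positivity, fun s hs hre => ?_⟩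
  have h1 := ibp (dlam_smooth.of_le (by exact_mod_cast le_top)) dlam_compact ddlam_compact s hs
  unfold AA
  rw [h1, norm_neg, norm_mul, norm_div, norm_one, one_div, inv_mul_eq_div]
  refine div_le_div_of_nonneg_right ?_ (norm_nonneg s)
  refine norm_integral_le_of_norm_le hi (Eventually.of_forall fun u => ?_)
  rw [norm_mul, Complex.norm_real, Real.norm_eq_abs]
  by_cases hu : u < 3 / 10 ∨ 6 / 10 < u
  · rw [ddlam_zero hu, abs_zero, zero_mul, zero_mul]
  · rw [not_or, not_lt, not_lt] at hu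
    refine mul_le_mul_of_nonneg_left ?_ (abs_nonneg _)
    rw [Complex.norm_exp, Real.exp_le_exp]
    have h2 : (s * (u : ℂ)).re = s.re * u := by
      rw [Complex.mul_re, Complex.ofReal_re, Complex.ofReal_im, mul_zero, sub_zero]
    rw [h2]
    nlinarith

section kernel

variable {κ : ℝ → ℝ}

private noncomputable def SS (κ : ℝ → ℝ) (w : ℝ) : ℝ := ∫ v in (-1 : ℝ)..w, κ v

private theorem k_zero (hκ : Continuous κ) (hs : ∀ v, 1 < |v| → κ v = 0) {v : ℝ}
    (hv : v ≤ -1 ∨ 1 ≤ v) : κ v = 0 := by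
  have hcl : IsClosed {v : ℝ | κ v = 0} := isClosed_eq hκ continuous_const
  rcases hv with hv | hv
  · have h1 : Set.Iic (-1 : ℝ) ⊆ {v | κ v = 0} := by
      rw [← closure_Iio]
      refine closure_minimal (fun w hw => hs w ?_) hcl
      have hw' : w < -1 := hw
      rw [abs_of_neg (by linarith)]
      linarith
    exact h1 hv
  · have h1 : Set.Ici (1 : ℝ) ⊆ {v | κ v = 0} := by
      rw [← closure_Ioi]
      refine closure_minimal (fun w hw => hs w ?_) hcl
      have hw' : 1 < w := hw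
      rw [abs_of_pos (by linarith)]
      exact hw'
    exact h1 hv

private theorem k_compact (hs : ∀ v, 1 < |v| → κ v = 0) : HasCompactSupport κ := by
  refine HasCompactSupport.intro (isCompact_Icc : IsCompact (Set.Icc (-1 : ℝ) 1)) fun u hu => ?_
  refine hs u ?_
  by_contra h
  rw [not_lt, abs_le] at h
  exact hu h

private theorem SS_deriv (hκ : Continuous κ) (w : ℝ) : HasDerivAt (SS κ) (κ w) w :=
  intervalIntegral.integral_hasDerivAt_right (hκ.intervalIntegrable _ _)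
    (hκ.stronglyMeasurableAtFilter _ _) hκ.continuousAt

private theorem SS_smooth (hκ : ContDiff ℝ (⊤ : ℕ∞) κ) : ContDiff ℝ (⊤ : ℕ∞) (SS κ) := by
  rw [contDiff_infty_iff_deriv]
  refine ⟨fun w => (SS_deriv hκ.continuous w).differentiableAt, ?_⟩
  have h1 : deriv (SS κ) = κ := funext fun w => (SS_deriv hκ.continuous w).deriv
  rw [h1]
  exact hκ

private theorem SS_zero (hκ : Continuous κ) (hs : ∀ v, 1 < |v| → κ v = 0) {w : ℝ}
    (hw : ∀ v, v ≤ w → κ v = 0) : SS κ w = 0 := by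
  unfold SS
  rw [intervalIntegral.integral_congr (g := fun _ => (0 : ℝ))]
  · exact intervalIntegral.integral_zero
  · intro v hv
    show κ v = 0
    rw [Set.mem_uIcc] at hv
    rcases hv with hv | hv
    · exact hw v hv.2
    · exact k_zero hκ hs (Or.inl hv.2)

private theorem SS_one (hκ : Continuous κ) (hs : ∀ v, 1 < |v| → κ v = 0) (h1 : ∫ v, κ v = 1)
    {w : ℝ} (hw1 : -1 ≤ w) (hw : ∀ v, w < v → κ v = 0) : SS κ w = 1 := by
  unfold SS
  rw [intervalIntegral.integral_of_le hw1]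
  refine Eq.trans ?_ h1
  refine setIntegral_eq_integral_of_forall_compl_eq_zero fun v hv => ?_
  rw [Set.mem_Ioc, not_and_or, not_lt, not_le] at hv
  rcases hv with hv | hv
  · exact k_zero hκ hs (Or.inl hv)
  · exact hw v hv

private theorem SS_nonneg (hκ : Continuous κ) (h0 : ∀ v, 0 ≤ κ v) (hs : ∀ v, 1 < |v| → κ v = 0)
    (w : ℝ) : 0 ≤ SS κ w := by
  rcases le_or_gt w (-1) with hw | hw
  · rw [SS_zero hκ hs fun v hv => k_zero hκ hs (Or.inl (hv.trans hw))]
  · exact intervalIntegral.integral_nonneg hw.le fun v _ => h0 v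

private theorem SS_le_one (hκ : Continuous κ) (h0 : ∀ v, 0 ≤ κ v) (hs : ∀ v, 1 < |v| → κ v = 0)
    (h1 : ∫ v, κ v = 1) (w : ℝ) : SS κ w ≤ 1 := by
  rcases le_or_gt w (-1) with hw | hw
  · rw [SS_zero hκ hs fun v hv => k_zero hκ hs (Or.inl (hv.trans hw))]
    exact zero_le_one
  · unfold SS
    rw [intervalIntegral.integral_of_le hw.le]
    refine le_trans (setIntegral_le_integral
      (hκ.integrable_of_hasCompactSupport (k_compact hs)) (Eventually.of_forall h0)) h1.le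

/-- the test function -/
private noncomputable def PP (κ : ℝ → ℝ) (y h u : ℝ) : ℝ := lam u * SS κ ((y - u) / h)

private theorem PP_smooth (hκ : ContDiff ℝ (⊤ : ℕ∞) κ) (y h : ℝ) :
    ContDiff ℝ (⊤ : ℕ∞) (PP κ y h) := by
  have h1 : ContDiff ℝ (⊤ : ℕ∞) fun u : ℝ => (y - u) / h := by fun_prop
  exact lam_smooth.mul ((SS_smooth hκ).comp h1)

private theorem PP_zero {y h u : ℝ} (hu : u ≤ 3 / 10) : PP κ y h u = 0 := by
  unfold PP
  rw [lam_zero hu, zero_mul]

private theorem PP_compact (hκ : Continuous κ) (hs : ∀ v, 1 < |v| → κ v = 0) {y h : ℝ}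
    (hh : 0 < h) : HasCompactSupport (PP κ y h) := by
  refine HasCompactSupport.intro (isCompact_Icc : IsCompact (Set.Icc (3 / 10 : ℝ) (y + h)))
    fun u hu => ?_
  rw [Set.mem_Icc, not_and_or, not_le, not_le] at hu
  rcases hu with hu | hu
  · exact PP_zero hu.le
  · unfold PP
    rw [SS_zero hκ hs, mul_zero]
    intro v hv
    refine k_zero hκ hs (Or.inl (hv.trans ?_))
    rw [div_le_iff₀ hh]
    linarith

private theorem PP_deriv (hκ : Continuous κ) (hs : ∀ v, 1 < |v| → κ v = 0) (h1 : ∫ v, κ v = 1)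
    {y h : ℝ} (hy : 2 ≤ y) (hh : 0 < h) (hh' : h ≤ 1 / 10) (u : ℝ) :
    deriv (PP κ y h) u = deriv lam u - κ ((y - u) / h) / h := by
  have ha : HasDerivAt (fun u : ℝ => (y - u) / h) (-1 / h) u :=
    ((hasDerivAt_id u).const_sub y).div_const h
  have hb : HasDerivAt (fun u : ℝ => SS κ ((y - u) / h)) (κ ((y - u) / h) * (-1 / h)) u := by
    have hb' := (SS_deriv hκ ((y - u) / h)).comp u ha
    exact hb'
  have hl : HasDerivAt lam (deriv lam u) u :=
    ((contDiff_infty_iff_deriv.1 lam_smooth).1 u).hasDerivAt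
  have hc : HasDerivAt (PP κ y h) (deriv lam u * SS κ ((y - u) / h) +
      lam u * (κ ((y - u) / h) * (-1 / h))) u := hl.mul hb
  have e1 : deriv lam u * SS κ ((y - u) / h) = deriv lam u := by
    by_cases hu : 6 / 10 < u
    · rw [dlam_zero (Or.inr hu), zero_mul]
    · have h2 : 1 ≤ (y - u) / h := by
        rw [le_div_iff₀ hh]
        linarith
      rw [SS_one hκ hs h1 (by linarith) fun v hv => k_zero hκ hs (Or.inr (by linarith)), mul_one]
  have e2 : lam u * κ ((y - u) / h) = κ ((y - u) / h) := by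
    by_cases hu : 6 / 10 ≤ u
    · rw [lam_one hu, one_mul]
    · have h2 : 1 ≤ (y - u) / h := by
        rw [le_div_iff₀ hh]
        linarith
      rw [k_zero hκ hs (Or.inr h2), mul_zero]
  rw [hc.deriv, e1, ← mul_assoc, e2]
  ring

private theorem Lp_PP (hκ : ContDiff ℝ (⊤ : ℕ∞) κ) (hs : ∀ v, 1 < |v| → κ v = 0)
    (h1 : ∫ v, κ v = 1) {y h : ℝ} (hy : 2 ≤ y) (hh : 0 < h) (hh' : h ≤ 1 / 10) (s : ℂ)
    (hs0 : s ≠ 0) : Lp (PP κ y h) s = Wk κ y h s / s - AA s / s := by
  have hk := hκ.continuous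
  have hcP := PP_compact hk hs (y := y) hh
  have e1 : Lp (PP κ y h) s = ∫ u : ℝ, (PP κ y h u : ℂ) * Complex.exp (s * u) := by
    unfold Pool.Agent.H50.RL.Lp
    refine setIntegral_eq_integral_of_forall_compl_eq_zero fun v hv => ?_
    rw [Set.mem_Ioi, not_lt] at hv
    rw [PP_zero (by linarith), Complex.ofReal_zero, zero_mul]
  have hkh : Continuous fun u : ℝ => κ ((y - u) / h) / h := by fun_prop
  have hkc : HasCompactSupport fun u : ℝ => κ ((y - u) / h) / h := by
    refine HasCompactSupport.intro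
      (isCompact_Icc : IsCompact (Set.Icc (y - h) (y + h))) fun u hu => ?_
    rw [Set.mem_Icc, not_and_or, not_le, not_le] at hu
    have h2 : (y - u) / h ≤ -1 ∨ 1 ≤ (y - u) / h := by
      rcases hu with hu | hu
      · right
        rw [le_div_iff₀ hh]
        linarith
      · left
        rw [div_le_iff₀ hh]
        linarith
    rw [k_zero hk hs h2, zero_div]
  have hdP : deriv (PP κ y h) = fun u => deriv lam u - κ ((y - u) / h) / h :=
    funext fun u => PP_deriv hk hs h1 hy hh hh' u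
  have hdc : HasCompactSupport (deriv (PP κ y h)) := hcP.deriv
  rw [e1, ibp ((PP_smooth hκ y h).of_le (by exact_mod_cast le_top)) hcP hdc s hs0, hdP]
  have e2 : ∫ u : ℝ, ((deriv lam u - κ ((y - u) / h) / h : ℝ) : ℂ) * Complex.exp (s * u) =
      AA s - ∫ u : ℝ, ((κ ((y - u) / h) / h : ℝ) : ℂ) * Complex.exp (s * u) := by
    unfold AA
    rw [← integral_sub (int_exp dlam_smooth.continuous dlam_compact _ (exp_cont s))
      (int_exp hkh hkc _ (exp_cont s))]
    refine integral_congr_ae (Eventually.of_forall fun u => ?_)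
    show ((deriv lam u - κ ((y - u) / h) / h : ℝ) : ℂ) * Complex.exp (s * u) =
      ((deriv lam u : ℝ) : ℂ) * Complex.exp (s * u) -
        ((κ ((y - u) / h) / h : ℝ) : ℂ) * Complex.exp (s * u)
    rw [Complex.ofReal_sub]
    ring
  have e3 : ∫ u : ℝ, ((κ ((y - u) / h) / h : ℝ) : ℂ) * Complex.exp (s * u) = Wk κ y h s := by
    unfold Wk
    obtain ⟨G, hG⟩ : ∃ G : ℝ → ℂ, G = fun v => (κ v : ℂ) *
        Complex.exp (s * ((y - h * v : ℝ) : ℂ)) := ⟨_, rfl⟩
    have h2 : ∀ u : ℝ, ((κ ((y - u) / h) / h : ℝ) : ℂ) * Complex.exp (s * u) =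
        (h : ℂ)⁻¹ * (fun x => G (x / h)) (y - u) := by
      intro u
      rw [hG]
      have h3 : y - h * ((y - u) / h) = u := by field_simp; ring
      show ((κ ((y - u) / h) / h : ℝ) : ℂ) * Complex.exp (s * u) =
        (h : ℂ)⁻¹ * ((κ ((y - u) / h) : ℂ) *
          Complex.exp (s * ((y - h * ((y - u) / h) : ℝ) : ℂ)))
      rw [h3, Complex.ofReal_div]
      ring
    simp_rw [h2]
    rw [integral_const_mul, integral_sub_left_eq_self (fun x => G (x / h)) volume y,
      Measure.integral_comp_div G h, abs_of_pos hh, Complex.real_smul, ← mul_assoc,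
      inv_mul_cancel₀ (Complex.ofReal_ne_zero.2 hh.ne'), one_mul, hG]
  rw [e2, e3]
  ring

end kernel

theorem ZD.smooth_f (D : ZD) (K : ℝ → ℝ) (hK : ContDiff ℝ (⊤ : ℕ∞) K) (h0 : ∀ v, 0 ≤ K v) (hs : ∀ v, 1 < |v| → K v = 0)
    (h1 : ∫ v, K v = 1) :
    ∃ C : ℝ, ∀ y h : ℝ, 2 ≤ y → 0 < h → h ≤ 1 / 10 →
      (Summable fun i => if 0 < (D.ρ i).re then ‖D.c i‖ * ‖Wk K y h (D.ρ i) / D.ρ i‖ else 0) ∧
      ((∀ v, 0 < v → K v = 0) →
        ∑ n ∈ Finset.Icc 1 ⌊Real.exp y⌋₊, D.V n ≤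
          (D.κ * Wk K y h 1 - ∑' i, if 0 < (D.ρ i).re then D.c i * (Wk K y h (D.ρ i) / D.ρ i) else 0).re + C * (1 + y)) ∧
      ((∀ v, v < 0 → K v = 0) →
        (D.κ * Wk K y h 1 - ∑' i, if 0 < (D.ρ i).re then D.c i * (Wk K y h (D.ρ i) / D.ρ i) else 0).re - C * (1 + y) ≤
          ∑ n ∈ Finset.Icc 1 ⌊Real.exp y⌋₊, D.V n) := by
  have hk := hK.continuous
  obtain ⟨C0, hC⟩ := D.explicit
  obtain ⟨B, hB0, hB⟩ := AA_bound
  obtain ⟨Cw, hCw⟩ := D.w2
  have hs2 := D.sumc 2 (by norm_num)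
  simp only [Real.rpow_ofNat] at hs2
  have hκ0 : 0 < D.κ := D.κpos
  -- the cut off terms
  have hA : Summable fun i => if 0 < (D.ρ i).re then ‖D.c i‖ * ‖AA (D.ρ i) / D.ρ i‖ else 0 := by
    refine Summable.of_nonneg_of_le (fun i => ?_) (fun i => ?_) (hs2.mul_left B)
    · split_ifs
      · positivity
      · exact le_rfl
    · split_ifs with hi
      · have hne : D.ρ i ≠ 0 := by
          intro h2
          rw [h2, Complex.zero_re] at hi
          exact lt_irrefl _ hi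
        have hn : 0 < ‖D.ρ i‖ := norm_pos_iff.2 hne
        rw [norm_div]
        have h2 := hB (D.ρ i) hne (D.rlt i).le
        have h3 : ‖AA (D.ρ i)‖ / ‖D.ρ i‖ ≤ B / ‖D.ρ i‖ / ‖D.ρ i‖ :=
          div_le_div_of_nonneg_right h2 (norm_nonneg _)
        calc ‖D.c i‖ * (‖AA (D.ρ i)‖ / ‖D.ρ i‖) ≤ ‖D.c i‖ * (B / ‖D.ρ i‖ / ‖D.ρ i‖) :=
              mul_le_mul_of_nonneg_left h3 (norm_nonneg _)
          _ = B * (‖D.c i‖ / ‖D.ρ i‖ ^ 2) := by
              have := hn.ne'
              field_simp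
      · positivity
  have hZ : Summable fun i => if D.ρ i = 0 then ‖D.c i‖ else 0 := by
    refine summable_of_hasFiniteSupport ?_
    refine (D.fin 0).subset fun i hi => ?_
    show ‖D.ρ i‖ ≤ 0
    by_contra h2
    apply hi
    show (if D.ρ i = 0 then ‖D.c i‖ else 0) = 0
    rw [if_neg]
    intro h3
    apply h2
    rw [h3, norm_zero]
  obtain ⟨B1, hB1⟩ : ∃ B1 : ℝ, B1 = ∑' i, (if 0 < (D.ρ i).re then ‖D.c i‖ * ‖AA (D.ρ i) / D.ρ i‖ else 0) :=
    ⟨_, rfl⟩
  obtain ⟨B2, hB2⟩ : ∃ B2 : ℝ, B2 = ∑' i, (if D.ρ i = 0 then ‖D.c i‖ else 0) := ⟨_, rfl⟩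
  obtain ⟨B3, hB3⟩ : ∃ B3 : ℝ, B3 = ∑' i, ‖D.c i‖ / ‖D.ρ i‖ ^ 2 := ⟨_, rfl⟩
  have hB1n : 0 ≤ B1 := by
    rw [hB1]
    refine tsum_nonneg fun i => ?_
    split_ifs
    · positivity
    · exact le_rfl
  have hB2n : 0 ≤ B2 := by
    rw [hB2]
    refine tsum_nonneg fun i => ?_
    split_ifs
    · positivity
    · exact le_rfl
  have hB3n : 0 ≤ B3 := by
    rw [hB3]
    exact tsum_nonneg fun i => by positivity
  refine ⟨‖AA 1‖ + B1 + B2 + (1 + B) * B3 + 2 * |Cw|, fun y h hy hh hh' => ?_⟩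
  have hcP := PP_compact hk hs (y := y) hh
  obtain ⟨hS1, hS2⟩ := hC (PP K y h)
    ((PP_smooth hK y h).of_le (WithTop.coe_le_coe.2 (le_top : (4 : ℕ∞) ≤ ⊤))) hcP
  have hP0 : PP K y h 0 = 0 := PP_zero (by norm_num)
  have hL1 := Lp_PP hK hs h1 hy hh hh' 1 one_ne_zero
  rw [div_one, div_one] at hL1
  simp only [hP0, Complex.ofReal_zero, zero_div, sub_zero, mul_zero, zero_add] at hS1 hS2
  have hP1 : ∀ u, 0 ≤ PP K y h u := fun u => mul_nonneg (lam_nonneg u) (SS_nonneg hk h0 hs _)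
  have hP2 : ∀ u, PP K y h u ≤ 1 := fun u =>
    mul_le_one₀ (lam_le_one u) (SS_nonneg hk h0 hs _) (SS_le_one hk h0 hs h1 _)
  have hPz : ∀ u, y + h ≤ u → PP K y h u = 0 := by
    intro u hu
    unfold PP
    rw [SS_zero hk hs, mul_zero]
    intro v hv
    refine k_zero hk hs (Or.inl (hv.trans ?_))
    rw [div_le_iff₀ hh]
    linarith
  -- the poles with positive real part
  have hLp : ∀ i, 0 < (D.ρ i).re → Lp (PP K y h) (D.ρ i) = Wk K y h (D.ρ i) / D.ρ i - AA (D.ρ i) / D.ρ i := by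
    intro i hi
    refine Lp_PP hK hs h1 hy hh hh' _ ?_
    intro h2
    rw [h2, Complex.zero_re] at hi
    exact lt_irrefl _ hi
  -- the poles with real part at most zero
  have hz : ‖Lp (PP K y h) 0‖ ≤ 1 + y := by
    have e1 : Lp (PP K y h) 0 = ∫ u in Set.Ioc (0 : ℝ) (y + h), ((PP K y h u : ℝ) : ℂ) := by
      unfold Pool.Agent.H50.RL.Lp
      have h2 : ∀ v : ℝ, ((PP K y h v : ℝ) : ℂ) * Complex.exp (0 * v) = ((PP K y h v : ℝ) : ℂ) := by
        intro v
        rw [zero_mul, Complex.exp_zero, mul_one]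
      simp_rw [h2]
      refine setIntegral_eq_of_subset_of_forall_sdiff_eq_zero measurableSet_Ioi
        (fun u hu => hu.1) fun u hu => ?_
      have h3 : ¬ (u ≤ y + h) := fun h4 => hu.2 ⟨hu.1, h4⟩
      rw [hPz u (by linarith [not_le.1 h3]), Complex.ofReal_zero]
    rw [e1]
    have h2 := norm_setIntegral_le_of_norm_le_const (μ := volume) (s := Set.Ioc (0 : ℝ) (y + h))
      (f := fun u => ((PP K y h u : ℝ) : ℂ)) (C := 1) (by
        rw [Real.volume_Ioc]
        exact ENNReal.ofReal_lt_top) (fun u _ => by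
        rw [Complex.norm_real, Real.norm_of_nonneg (hP1 u)]
        exact hP2 u)
    refine h2.trans ?_
    rw [Real.volume_real_Ioc_of_le (by linarith)]
    linarith
  have hneg : ∀ i, (D.ρ i).re ≤ 0 → D.ρ i ≠ 0 →
      ‖Lp (PP K y h) (D.ρ i)‖ ≤ (1 + B) * (1 / ‖D.ρ i‖ ^ 2) := by
    intro i hi hne
    obtain ⟨n, hn⟩ := D.left i hi
    have hn0 : n ≠ 0 := by
      rintro rfl
      apply hne
      rw [hn]
      simp
    have hn1 : (1 : ℝ) ≤ n := by exact_mod_cast Nat.one_le_iff_ne_zero.2 hn0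
    have hnorm : ‖D.ρ i‖ = n := by
      rw [hn, norm_neg, Complex.norm_natCast]
    have hre : (D.ρ i).re = -n := by
      rw [hn, Complex.neg_re, Complex.natCast_re]
    rw [Lp_PP hK hs h1 hy hh hh' _ hne]
    have hW : ‖Wk K y h (D.ρ i)‖ ≤ 1 / n := by
      unfold Wk
      have hint : Integrable fun v : ℝ => K v * Real.exp (-n) :=
        (hk.integrable_of_hasCompactSupport (k_compact hs)).mul_const _
      have h2 : ‖∫ v : ℝ, (K v : ℂ) * Complex.exp (D.ρ i * ((y - h * v : ℝ) : ℂ))‖ ≤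
          ∫ v : ℝ, K v * Real.exp (-n) := by
        refine norm_integral_le_of_norm_le hint (Eventually.of_forall fun v => ?_)
        rw [norm_mul, Complex.norm_real, Real.norm_of_nonneg (h0 v)]
        by_cases hv : 1 < |v|
        · rw [hs v hv, zero_mul, zero_mul]
        · refine mul_le_mul_of_nonneg_left ?_ (h0 v)
          rw [Complex.norm_exp, Real.exp_le_exp, Complex.mul_re, Complex.ofReal_re, Complex.ofReal_im,
            mul_zero, sub_zero, hre]
          have h3 := (abs_le.1 (not_lt.1 hv)).2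
          have h4 : 1 ≤ y - h * v := by nlinarith
          nlinarith
      refine h2.trans ?_
      rw [integral_mul_const, h1, one_mul, Real.exp_neg, one_div]
      refine inv_anti₀ (by linarith) ?_
      linarith [Real.add_one_le_exp (n : ℝ)]
    have hAn : ‖AA (D.ρ i)‖ ≤ B / n := by
      have h2 := hB (D.ρ i) hne (by linarith)
      rw [hnorm] at h2
      exact h2
    refine (norm_sub_le _ _).trans ?_
    rw [norm_div, norm_div, hnorm, ← add_div, div_le_iff₀ (by linarith)]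
    have h5 : (1 + B) * (1 / (n : ℝ) ^ 2) * n = 1 / n + B / n := by
      field_simp
    rw [h5]
    linarith
  have hd : ∀ i, ‖(if 0 < (D.ρ i).re then 0 else D.c i * Lp (PP K y h) (D.ρ i))‖ ≤
      (if D.ρ i = 0 then ‖D.c i‖ else 0) * (1 + y) + (1 + B) * (‖D.c i‖ / ‖D.ρ i‖ ^ 2) := by
    intro i
    have hp1 : 0 ≤ (1 + B) * (‖D.c i‖ / ‖D.ρ i‖ ^ 2) := by positivity
    split_ifs with hi hi2 hi2
    · rw [norm_zero]
      have := mul_nonneg (norm_nonneg (D.c i)) (by linarith : (0 : ℝ) ≤ 1 + y)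
      linarith
    · rw [norm_zero]
      linarith
    · rw [norm_mul, hi2]
      have h2 := mul_le_mul_of_nonneg_left hz (norm_nonneg (D.c i))
      rw [hi2] at hp1
      linarith
    · rw [norm_mul, zero_mul, zero_add]
      have h2 := mul_le_mul_of_nonneg_left (hneg i (not_lt.1 hi) hi2) (norm_nonneg (D.c i))
      refine h2.trans (le_of_eq ?_)
      ring
  have hdS : Summable fun i => (if D.ρ i = 0 then ‖D.c i‖ else 0) * (1 + y) + (1 + B) * (‖D.c i‖ / ‖D.ρ i‖ ^ 2) :=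
    (hZ.mul_right _).add (hs2.mul_left _)
  have hdn : Summable fun i => ‖(if 0 < (D.ρ i).re then 0 else D.c i * Lp (PP K y h) (D.ρ i))‖ :=
    Summable.of_nonneg_of_le (fun i => norm_nonneg _) hd hdS
  have hd' : Summable fun i => (if 0 < (D.ρ i).re then 0 else D.c i * Lp (PP K y h) (D.ρ i)) :=
    Summable.of_norm hdn
  have hdB : ‖∑' i, (if 0 < (D.ρ i).re then 0 else D.c i * Lp (PP K y h) (D.ρ i))‖ ≤
      B2 * (1 + y) + (1 + B) * B3 := by
    refine (norm_tsum_le_tsum_norm hdn).trans ?_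
    refine (hdn.tsum_le_tsum hd hdS).trans (le_of_eq ?_)
    rw [(hZ.mul_right _).tsum_add (hs2.mul_left _), tsum_mul_right, tsum_mul_left, hB2, hB3]
  have hW : Summable fun i => if 0 < (D.ρ i).re then ‖D.c i‖ * ‖Wk K y h (D.ρ i) / D.ρ i‖ else 0 := by
    refine Summable.of_nonneg_of_le (fun i => ?_) (fun i => ?_) (hS1.add hA)
    · split_ifs
      · positivity
      · exact le_rfl
    · split_ifs with hi
      · rw [← mul_add]
        refine mul_le_mul_of_nonneg_left ?_ (norm_nonneg _)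
        have h2 : Wk K y h (D.ρ i) / D.ρ i = Lp (PP K y h) (D.ρ i) + AA (D.ρ i) / D.ρ i := by
          rw [hLp i hi]
          ring
        rw [h2]
        exact norm_add_le _ _
      · positivity
  have hW' : Summable fun i => if 0 < (D.ρ i).re then D.c i * (Wk K y h (D.ρ i) / D.ρ i) else 0 := by
    refine Summable.of_norm (hW.congr fun i => ?_)
    split_ifs
    · rw [norm_mul]
    · rw [norm_zero]
  have hAn : Summable fun i => ‖(if 0 < (D.ρ i).re then D.c i * (AA (D.ρ i) / D.ρ i) else 0)‖ := by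
    refine hA.congr fun i => ?_
    split_ifs
    · rw [norm_mul]
    · rw [norm_zero]
  have hA' : Summable fun i => if 0 < (D.ρ i).re then D.c i * (AA (D.ρ i) / D.ρ i) else 0 :=
    Summable.of_norm hAn
  have hAB : ‖∑' i, (if 0 < (D.ρ i).re then D.c i * (AA (D.ρ i) / D.ρ i) else 0)‖ ≤ B1 := by
    refine (norm_tsum_le_tsum_norm hAn).trans (le_of_eq ?_)
    rw [hB1]
    refine tsum_congr fun i => ?_
    split_ifs
    · rw [norm_mul]
    · rw [norm_zero]
  have hT : ∑' i, D.c i * Lp (PP K y h) (D.ρ i) =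
      (∑' i, if 0 < (D.ρ i).re then D.c i * (Wk K y h (D.ρ i) / D.ρ i) else 0) -
      (∑' i, if 0 < (D.ρ i).re then D.c i * (AA (D.ρ i) / D.ρ i) else 0) +
      ∑' i, (if 0 < (D.ρ i).re then 0 else D.c i * Lp (PP K y h) (D.ρ i)) := by
    rw [← hW'.tsum_sub hA', ← (hW'.sub hA').tsum_add hd']
    refine tsum_congr fun i => ?_
    by_cases hi : 0 < (D.ρ i).re
    · simp only [if_pos hi]
      rw [hLp i hi]
      ring
    · simp only [if_neg hi]
      ring
  rw [hL1, hT] at hS2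
  obtain ⟨T, hTd⟩ : ∃ T : ℂ, T = D.κ * Wk K y h 1 -
      ∑' i, (if 0 < (D.ρ i).re then D.c i * (Wk K y h (D.ρ i) / D.ρ i) else 0) := ⟨_, rfl⟩
  obtain ⟨E, hE⟩ : ∃ E : ℂ, E = D.κ * AA 1 -
      (∑' i, if 0 < (D.ρ i).re then D.c i * (AA (D.ρ i) / D.ρ i) else 0) +
      ∑' i, (if 0 < (D.ρ i).re then 0 else D.c i * Lp (PP K y h) (D.ρ i)) := ⟨_, rfl⟩
  obtain ⟨Q, hQ⟩ : ∃ Q : ℝ, Q = ∑' n : ℕ, (D.V n + D.w n) * PP K y h (Real.log n) := ⟨_, rfl⟩
  have hQT : T.re = Q + E.re := by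
    have h2 : T = (Q : ℂ) + E := by
      rw [hQ, hS2, hTd, hE]
      ring
    rw [h2, Complex.add_re, Complex.ofReal_re]
  have hEb : |E.re| ≤ ‖AA 1‖ + B1 + (B2 * (1 + y) + (1 + B) * B3) := by
    refine (Complex.abs_re_le_norm E).trans ?_
    rw [hE]
    refine (norm_add_le _ _).trans (add_le_add ?_ hdB)
    refine (norm_sub_le _ _).trans (add_le_add ?_ hAB)
    rw [norm_mul, Complex.norm_real, Real.norm_of_nonneg hκ0.le]
    exact mul_le_of_le_one_left (norm_nonneg _) D.κle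
  have hfin : ∀ n : ℕ, n ∉ Finset.Icc 1 ⌊Real.exp (y + h)⌋₊ → PP K y h (Real.log n) = 0 := by
    intro n hn
    rcases Nat.eq_zero_or_pos n with rfl | hn0
    · rw [Nat.cast_zero, Real.log_zero, hP0]
    · rw [Finset.mem_Icc, not_and, not_le] at hn
      have h2 := hn hn0
      rw [Nat.floor_lt (Real.exp_pos _).le] at h2
      have hn0' : (0 : ℝ) < n := by exact_mod_cast hn0
      have h3 : y + h < Real.log n := (Real.lt_log_iff_exp_lt hn0').2 h2
      exact hPz _ h3.le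
  obtain ⟨QV, hQV⟩ : ∃ QV : ℝ, QV = ∑ n ∈ Finset.Icc 1 ⌊Real.exp (y + h)⌋₊, D.V n * PP K y h (Real.log n) :=
    ⟨_, rfl⟩
  obtain ⟨Qw, hQw⟩ : ∃ Qw : ℝ, Qw = ∑ n ∈ Finset.Icc 1 ⌊Real.exp (y + h)⌋₊, D.w n * PP K y h (Real.log n) :=
    ⟨_, rfl⟩
  have hQs : Q = QV + Qw := by
    rw [hQ, hQV, hQw, ← Finset.sum_add_distrib, tsum_eq_sum (s := Finset.Icc 1 ⌊Real.exp (y + h)⌋₊)]
    · exact Finset.sum_congr rfl fun n _ => by ring
    · intro n hn
      rw [hfin n hn, mul_zero]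
  have hQwb : |Qw| ≤ 2 * |Cw| * (1 + y) := by
    have hN1 : 1 ≤ ⌊Real.exp (y + h)⌋₊ := by
      rw [Nat.one_le_floor_iff]
      exact Real.one_le_exp (by linarith)
    have h2 := hCw ⌊Real.exp (y + h)⌋₊ hN1
    have h3 : |Qw| ≤ ∑ n ∈ Finset.Icc 1 ⌊Real.exp (y + h)⌋₊, |D.w n| := by
      rw [hQw]
      refine (Finset.abs_sum_le_sum_abs _ _).trans (Finset.sum_le_sum fun n _ => ?_)
      rw [abs_mul, abs_of_nonneg (hP1 _)]
      exact mul_le_of_le_one_right (abs_nonneg _) (hP2 _)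
    have h4 : Real.log (⌊Real.exp (y + h)⌋₊ : ℝ) ≤ y + h := by
      have h5 : (0 : ℝ) < (⌊Real.exp (y + h)⌋₊ : ℝ) := by exact_mod_cast hN1
      rw [Real.log_le_iff_le_exp h5]
      exact Nat.floor_le (Real.exp_pos _).le
    have h5 : 0 ≤ Real.log (⌊Real.exp (y + h)⌋₊ : ℝ) := Real.log_nonneg (by exact_mod_cast hN1)
    have h6 : Cw * (1 + Real.log (⌊Real.exp (y + h)⌋₊ : ℝ)) ≤ |Cw| * (1 + (y + h)) :=
      (mul_le_mul_of_nonneg_right (le_abs_self Cw) (by linarith)).trans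
        (mul_le_mul_of_nonneg_left (by linarith) (abs_nonneg _))
    have h7 : |Cw| * (1 + (y + h)) ≤ 2 * |Cw| * (1 + y) := by
      have := abs_nonneg Cw
      nlinarith
    linarith
  have hsub : Finset.Icc 1 ⌊Real.exp y⌋₊ ⊆ Finset.Icc 1 ⌊Real.exp (y + h)⌋₊ :=
    Finset.Icc_subset_Icc_right (Nat.floor_mono (Real.exp_le_exp.2 (by linarith)))
  have hV0 : ∀ n, 0 ≤ D.V n := D.V0
  have hV1 : D.V 1 = 0 := by
    refine le_antisymm ?_ (hV0 1)
    have h2 := D.V1 1
    rw [ArithmeticFunction.vonMangoldt_apply_one] at h2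
    exact h2
  have hfinal : (‖AA 1‖ + B1 + B2 + (1 + B) * B3 + 2 * |Cw|) * (1 + y) ≥
      ‖AA 1‖ + B1 + (B2 * (1 + y) + (1 + B) * B3) + 2 * |Cw| * (1 + y) := by
    have h2 : 0 ≤ ‖AA 1‖ := norm_nonneg _
    have h3 : 0 ≤ (1 + B) * B3 := by positivity
    have h4 : 0 ≤ (‖AA 1‖ + B1 + (1 + B) * B3) * y := by positivity
    nlinarith
  refine ⟨hW, fun hκ0 => ?_, fun hκ0 => ?_⟩
  · rw [← hTd, hQT, hQs]
    have h2 : ∑ n ∈ Finset.Icc 1 ⌊Real.exp y⌋₊, D.V n ≤ QV := by
      rw [hQV]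
      refine le_trans (Finset.sum_le_sum fun n hn => ?_)
        (Finset.sum_le_sum_of_subset_of_nonneg hsub fun n _ _ => mul_nonneg (hV0 n) (hP1 _))
      rw [Finset.mem_Icc] at hn
      rcases Nat.lt_or_ge n 2 with h3 | h3
      · have h4 : n = 1 := by omega
        rw [h4, hV1, zero_mul]
      · have hn0' : (0 : ℝ) < n := by exact_mod_cast hn.1
        have h4 : Real.log n ≤ y := by
          rw [Real.log_le_iff_le_exp hn0']
          exact (Nat.le_floor_iff (Real.exp_pos _).le).1 hn.2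
        have h5 : 6 / 10 ≤ Real.log n := by
          have h6 : Real.log 2 ≤ Real.log n :=
            Real.log_le_log (by norm_num) (by exact_mod_cast h3)
          have h7 := Real.log_two_gt_d9
          linarith
        have h6 : 0 ≤ (y - Real.log n) / h := div_nonneg (by linarith) hh.le
        have h8 : PP K y h (Real.log n) = 1 := by
          unfold PP
          rw [lam_one h5, one_mul]
          exact SS_one hk hs h1 (by linarith) fun v hv => hκ0 v (by linarith)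
        rw [h8, mul_one]
    have h3 := neg_abs_le E.re
    have h4 := neg_abs_le Qw
    linarith
  · rw [← hTd, hQT, hQs]
    have hk0 : ∀ v, v ≤ 0 → K v = 0 := by
      intro v hv
      have h2 : Set.Iic (0 : ℝ) ⊆ {v | K v = 0} := by
        rw [← closure_Iio]
        exact closure_minimal (fun w hw => hκ0 w hw) (isClosed_eq hk continuous_const)
      exact h2 hv
    have h2 : QV ≤ ∑ n ∈ Finset.Icc 1 ⌊Real.exp y⌋₊, D.V n := by
      have h3 : QV = ∑ n ∈ Finset.Icc 1 ⌊Real.exp y⌋₊, D.V n * PP K y h (Real.log n) := by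
        rw [hQV]
        symm
        refine Finset.sum_subset hsub fun n hn hn' => ?_
        rw [Finset.mem_Icc] at hn
        rw [Finset.mem_Icc, not_and, not_le] at hn'
        have h4 := hn' hn.1
        rw [Nat.floor_lt (Real.exp_pos _).le] at h4
        have hn0' : (0 : ℝ) < n := by exact_mod_cast hn.1
        have h5 : y < Real.log n := (Real.lt_log_iff_exp_lt hn0').2 h4
        have h6 : PP K y h (Real.log n) = 0 := by
          unfold PP
          rw [SS_zero hk hs, mul_zero]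
          intro v hv
          refine hk0 v (hv.trans ?_)
          exact div_nonpos_of_nonpos_of_nonneg (by linarith) hh.le
        rw [h6, mul_zero]
      rw [h3]
      exact Finset.sum_le_sum fun n _ => mul_le_of_le_one_right (hV0 n) (hP2 _)
    have h3 := le_abs_self E.re
    have h4 := le_abs_self Qw
    linarith

end Pool.Agent.H50.RQ
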