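import Pool.Agent.H50.RQ.Zb

/-!
[H50 RQ IB] The smoothed sum over the poles, divided by `exp(Θ y)`, tends to the sum over the line `Re s = Θ`.

PROOF. Copy `Pool/Agent/H50/RL/Ib.lean` (`w_lim`), with `‖c i‖` for `mz`, `D.s2 σ`, `sumc (1+ε)`; all sums are over `0 < Re ρ` (put `if 0 < Re` in front). The first statement is the first part of `RL.w_lim`
(its proof does not use the zeros).
-/

set_option autoImplicit false

namespace Pool.Agent.H50.RQ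

open MeasureTheory Filter Topology
open Pool.Agent.H50.RL (SC Lp Lf Wk Ft)

private theorem nrm (f : ℝ → ℝ) (hf : Integrable f) (hs : ∀ v, 1 < |v| → f v = 0) (g : ℝ → ℂ) (E : ℝ)
    (hE : ∀ v, |v| ≤ 1 → ‖g v‖ ≤ E) : ‖∫ v, (f v : ℂ) * g v‖ ≤ E * ∫ v, |f v| := by
  rw [← integral_const_mul]
  refine norm_integral_le_of_norm_le (hf.abs.const_mul E) (Filter.Eventually.of_forall fun v => ?_)
  rw [norm_mul, Complex.norm_real, Real.norm_eq_abs, mul_comm]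
  rcases le_or_gt |v| 1 with h | h
  · exact mul_le_mul_of_nonneg_right (hE v h) (abs_nonneg _)
  · rw [hs v h, abs_zero, mul_zero, mul_zero]

private theorem cs {f : ℝ → ℝ} (hs : ∀ v, 1 < |v| → f v = 0) : HasCompactSupport f := by
  refine HasCompactSupport.intro (isCompact_Icc (a := (-1 : ℝ)) (b := 1)) fun v hv => hs v ?_
  by_contra h
  push Not at h
  exact hv (abs_le.1 h)

private theorem int_mul {f : ℝ → ℝ} (hf : Continuous f) (hs : ∀ v, 1 < |v| → f v = 0) {g : ℝ → ℂ}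
    (hg : Continuous g) : Integrable fun v => (f v : ℂ) * g v := by
  have h1 : Continuous fun v => (f v : ℂ) := Complex.continuous_ofReal.comp hf
  refine (h1.mul hg).integrable_of_hasCompactSupport ?_
  refine HasCompactSupport.intro (isCompact_Icc (a := (-1 : ℝ)) (b := 1)) fun v hv => ?_
  show (f v : ℂ) * g v = 0
  rw [hs v, Complex.ofReal_zero, zero_mul]
  by_contra h
  push Not at h
  exact hv (abs_le.1 h)

private theorem cexp_sub_one {w : ℂ} (hw : ‖w‖ ≤ 1) : ‖Complex.exp w - 1‖ ≤ 2 * ‖w‖ :=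
  Complex.norm_exp_sub_one_le hw

/-- `∫ κ(v) exp(-w v) dv` -/
private noncomputable def Gk (κ : ℝ → ℝ) (w : ℂ) : ℂ := ∫ v : ℝ, (κ v : ℂ) * Complex.exp (-(w * v))

private theorem wk_eq (κ : ℝ → ℝ) (y h : ℝ) (s : ℂ) : Wk κ y h s = Complex.exp (s * y) * Gk κ (s * h) := by
  unfold Wk Gk
  rw [← integral_const_mul]
  refine integral_congr_ae (Filter.Eventually.of_forall fun v => ?_)
  show (κ v : ℂ) * Complex.exp (s * ((y - h * v : ℝ) : ℂ)) = Complex.exp (s * y) * ((κ v : ℂ) * Complex.exp (-(s * h * v)))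
  have h1 : Complex.exp (s * ((y - h * v : ℝ) : ℂ)) = Complex.exp (s * y) * Complex.exp (-(s * h * v)) := by
    rw [← Complex.exp_add]
    congr 1
    push_cast
    ring
  rw [h1]
  ring

private theorem gk_sub (κ : ℝ → ℝ) (hκ : Continuous κ) (hs : ∀ v, 1 < |v| → κ v = 0) (h1 : ∫ v, κ v = 1) {w : ℂ}
    (hw : ‖w‖ ≤ 1) : ‖Gk κ w - 1‖ ≤ 2 * ‖w‖ * ∫ v, |κ v| := by
  have h2 : (1 : ℂ) = ∫ v : ℝ, (κ v : ℂ) * 1 := by
    simp only [mul_one]
    rw [integral_complex_ofReal, h1, Complex.ofReal_one]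
  have h3 : Gk κ w - 1 = ∫ v : ℝ, (κ v : ℂ) * (Complex.exp (-(w * v)) - 1) := by
    have h4 : Gk κ w - 1 = (∫ v : ℝ, (κ v : ℂ) * Complex.exp (-(w * v))) - ∫ v : ℝ, (κ v : ℂ) * 1 := by
      rw [← h2]
      rfl
    rw [h4, ← integral_sub (int_mul hκ hs (by fun_prop)) (int_mul hκ hs (by fun_prop))]
    refine integral_congr_ae (Filter.Eventually.of_forall fun v => ?_)
    show (κ v : ℂ) * Complex.exp (-(w * v)) - (κ v : ℂ) * 1 = (κ v : ℂ) * (Complex.exp (-(w * v)) - 1)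
    ring
  rw [h3]
  refine nrm κ (hκ.integrable_of_hasCompactSupport (cs hs)) hs _ _ fun v hv => ?_
  have h4 : ‖-(w * v)‖ ≤ ‖w‖ := by
    rw [norm_neg, norm_mul, Complex.norm_real, Real.norm_eq_abs]
    exact mul_le_of_le_one_right (norm_nonneg _) hv
  exact (cexp_sub_one (h4.trans hw)).trans (by linarith)

private theorem exp_nrm (s : ℂ) (y h v : ℝ) : ‖Complex.exp (s * ((y - h * v : ℝ) : ℂ))‖ = Real.exp (s.re * (y - h * v)) := by
  rw [Complex.norm_exp]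
  congr 1
  rw [Complex.mul_re, Complex.ofReal_re, Complex.ofReal_im, mul_zero, sub_zero]

/-- for `|v| ≤ 1` -/
private theorem exp_bd {s : ℂ} {y h v σ : ℝ} (hσ0 : 0 ≤ σ) (hσ : s.re ≤ σ) (hy : 1 ≤ y) (h0 : 0 ≤ h) (hh : h ≤ 1) (hv : |v| ≤ 1) :
    ‖Complex.exp (s * ((y - h * v : ℝ) : ℂ))‖ ≤ Real.exp (σ * (y + 1)) := by
  rw [exp_nrm, Real.exp_le_exp]
  have h1 : |h * v| ≤ 1 := by
    rw [abs_mul, abs_of_nonneg h0]
    nlinarith [abs_nonneg v]
  have h2 := abs_le.1 h1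
  have h3 : 0 ≤ y - h * v := by linarith
  calc s.re * (y - h * v) ≤ σ * (y - h * v) := mul_le_mul_of_nonneg_right hσ h3
    _ ≤ σ * (y + 1) := mul_le_mul_of_nonneg_left (by linarith) hσ0

private theorem ds (κ : ℝ → ℝ) (hs : ∀ v, 1 < |v| → κ v = 0) : ∀ v, 1 < |v| → deriv κ v = 0 := by
  intro v hv
  have h1 : κ =ᶠ[𝓝 v] fun _ => 0 := by
    have h2 : {v : ℝ | 1 < |v|} ∈ 𝓝 v := (isOpen_lt continuous_const continuous_abs).mem_nhds hv
    filter_upwards [h2] with u hu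
    exact hs u hu
  rw [h1.deriv_eq, deriv_const]

/-- one integration by parts -/
private theorem ibp (κ : ℝ → ℝ) (hκ : ContDiff ℝ (⊤ : ℕ∞) κ) (hs : ∀ v, 1 < |v| → κ v = 0) (y h : ℝ) (s : ℂ) :
    s * h * Wk κ y h s = ∫ v : ℝ, ((deriv κ v : ℝ) : ℂ) * Complex.exp (s * ((y - h * v : ℝ) : ℂ)) := by
  have hc : Continuous κ := hκ.continuous
  have hd : Differentiable ℝ κ := hκ.differentiable (by simp)
  have hdc : Continuous (deriv κ) := hκ.continuous_deriv (by simp)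
  have hu : ∀ v : ℝ, HasDerivAt (fun v : ℝ => (κ v : ℂ)) ((deriv κ v : ℝ) : ℂ) v := fun v =>
    (hd v).hasDerivAt.ofReal_comp
  have hv : ∀ v : ℝ, HasDerivAt (fun v : ℝ => Complex.exp (s * ((y - h * v : ℝ) : ℂ)))
      (-(s * h) * Complex.exp (s * ((y - h * v : ℝ) : ℂ))) v := by
    intro v
    have e1 : HasDerivAt (fun v : ℝ => y - h * v) (-h) v := by
      have e2 := ((hasDerivAt_id v).const_mul h).const_sub y
      rw [mul_one] at e2
      exact e2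
    have e3 : HasDerivAt (fun v : ℝ => ((y - h * v : ℝ) : ℂ)) ((-h : ℝ) : ℂ) v := e1.ofReal_comp
    have e4 := (e3.const_mul s).cexp
    refine e4.congr_deriv ?_
    push_cast
    ring
  have hexp : Continuous fun v : ℝ => Complex.exp (s * ((y - h * v : ℝ) : ℂ)) :=
    continuous_iff_continuousAt.2 fun v => (hv v).continuousAt
  have key := integral_mul_deriv_eq_deriv_mul_of_integrable (u := fun v : ℝ => (κ v : ℂ))
    (v := fun v : ℝ => Complex.exp (s * ((y - h * v : ℝ) : ℂ))) (u' := fun v : ℝ => ((deriv κ v : ℝ) : ℂ))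
    (v' := fun v : ℝ => -(s * h) * Complex.exp (s * ((y - h * v : ℝ) : ℂ))) (fun v _ => hu v) (fun v _ => hv v)
    (int_mul hc hs (continuous_const.mul hexp)) (int_mul hdc (ds κ hs) hexp) (int_mul hc hs hexp)
  have h2 : ∫ v : ℝ, (κ v : ℂ) * (-(s * h) * Complex.exp (s * ((y - h * v : ℝ) : ℂ))) = -(s * h * Wk κ y h s) := by
    have h3 : ∫ v : ℝ, (κ v : ℂ) * (-(s * h) * Complex.exp (s * ((y - h * v : ℝ) : ℂ))) =
        ∫ v : ℝ, -(s * h) * ((κ v : ℂ) * Complex.exp (s * ((y - h * v : ℝ) : ℂ))) := by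
      refine integral_congr_ae (Filter.Eventually.of_forall fun v => ?_)
      show (κ v : ℂ) * (-(s * h) * Complex.exp (s * ((y - h * v : ℝ) : ℂ))) =
        -(s * h) * ((κ v : ℂ) * Complex.exp (s * ((y - h * v : ℝ) : ℂ)))
      ring
    rw [h3, integral_const_mul, neg_mul]
    rfl
  rw [h2] at key
  exact neg_injective key

private theorem exp_tend {a : ℝ} (ha : a < 0) : Tendsto (fun y : ℝ => Real.exp (a * y)) atTop (𝓝 0) :=
  Real.tendsto_exp_atBot.comp (tendsto_id.const_mul_atTop_of_neg ha)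

private theorem part1 (κ : ℝ → ℝ) (hκ : Continuous κ) (hs : ∀ v, 1 < |v| → κ v = 0) (h1 : ∫ v, κ v = 1)
    (Θ : ℝ) (b : ℝ) (hb0 : 0 < b) (hb : 1 - Θ < b) :
    Tendsto (fun y : ℝ => ((Real.exp (-(Θ * y)) : ℝ) : ℂ) *
      (Wk κ y (Real.exp (-(b * y))) 1 - ((Real.exp y : ℝ) : ℂ))) atTop (𝓝 0) := by
  have hK : 0 ≤ ∫ v, |κ v| := integral_nonneg fun v => abs_nonneg _
  have h2 : Tendsto (fun y : ℝ => 2 * (∫ v, |κ v|) * Real.exp ((1 - Θ - b) * y)) atTop (𝓝 0) := by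
    have := (exp_tend (a := 1 - Θ - b) (by linarith)).const_mul (2 * ∫ v, |κ v|)
    rwa [mul_zero] at this
  refine squeeze_zero_norm' ?_ h2
  filter_upwards [eventually_ge_atTop (0 : ℝ)] with y hy
  have hh : Real.exp (-(b * y)) ≤ 1 := by
    rw [Real.exp_le_one_iff]
    nlinarith
  have hw : ‖(1 : ℂ) * (Real.exp (-(b * y)) : ℝ)‖ = Real.exp (-(b * y)) := by
    rw [one_mul, Complex.norm_real, Real.norm_of_nonneg (Real.exp_pos _).le]
  have h3 := gk_sub κ hκ hs h1 (w := (1 : ℂ) * (Real.exp (-(b * y)) : ℝ)) (by rw [hw]; exact hh)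
  rw [hw] at h3
  have h4 : Wk κ y (Real.exp (-(b * y))) 1 - ((Real.exp y : ℝ) : ℂ) =
      ((Real.exp y : ℝ) : ℂ) * (Gk κ ((1 : ℂ) * (Real.exp (-(b * y)) : ℝ)) - 1) := by
    rw [wk_eq, one_mul, mul_sub, mul_one, Complex.ofReal_exp y]
  rw [h4, norm_mul, norm_mul, Complex.norm_real, Complex.norm_real, Real.norm_of_nonneg (Real.exp_pos _).le,
    Real.norm_of_nonneg (Real.exp_pos _).le]
  have h5 : Real.exp ((1 - Θ - b) * y) = Real.exp (-(Θ * y)) * (Real.exp y * Real.exp (-(b * y))) := by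
    rw [← Real.exp_add, ← Real.exp_add]
    congr 1
    ring
  rw [h5]
  have h6 : Real.exp (-(Θ * y)) * (Real.exp y * ‖Gk κ ((1 : ℂ) * (Real.exp (-(b * y)) : ℝ)) - 1‖) ≤
      Real.exp (-(Θ * y)) * (Real.exp y * (2 * Real.exp (-(b * y)) * ∫ v, |κ v|)) :=
    mul_le_mul_of_nonneg_left (mul_le_mul_of_nonneg_left h3 (Real.exp_pos _).le) (Real.exp_pos _).le
  refine h6.trans (le_of_eq ?_)
  ring

private theorem ib_rpos (D : ZD) {i : D.ι} (h : 0 < (D.ρ i).re) : 0 < ‖D.ρ i‖ := by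
  rw [norm_pos_iff]
  intro h0
  rw [h0, Complex.zero_re] at h
  exact lt_irrefl _ h

/-- the difference of the terms -/
private noncomputable def Dt (D : ZD) (K : ℝ → ℝ) (Θ b y : ℝ) (i : D.ι) : ℂ :=
  ((Real.exp (-(Θ * y)) : ℝ) : ℂ) *
    (if 0 < (D.ρ i).re then D.c i * (Wk K y (Real.exp (-(b * y))) (D.ρ i) / D.ρ i) else 0)

/-- the terms of `r` -/
private noncomputable def Rt (D : ZD) (Θ y : ℝ) (i : D.ι) : ℂ :=
  if (D.ρ i).re = Θ then (D.c i / D.ρ i) * Complex.exp ((((D.ρ i).im * y : ℝ) : ℂ) * Complex.I) else 0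

private theorem dt_norm (D : ZD) (K : ℝ → ℝ) (Θ b y : ℝ) (i : D.ι) (h : 0 < (D.ρ i).re) :
    ‖Dt D K Θ b y i‖ = Real.exp (-(Θ * y)) * (‖D.c i‖ * (‖Wk K y (Real.exp (-(b * y))) (D.ρ i)‖ / ‖D.ρ i‖)) := by
  unfold Dt
  rw [if_pos h, norm_mul, norm_mul, norm_div, Complex.norm_real, Real.norm_of_nonneg (Real.exp_pos _).le]

private theorem dt_zero (D : ZD) (K : ℝ → ℝ) (Θ b y : ℝ) (i : D.ι) (h : ¬ 0 < (D.ρ i).re) :
    Dt D K Θ b y i = 0 := by
  unfold Dt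
  rw [if_neg h, mul_zero]

private theorem rt_norm (D : ZD) (Θ y : ℝ) (i : D.ι) : ‖Rt D Θ y i‖ ≤ ‖D.c i‖ / ‖D.ρ i‖ := by
  unfold Rt
  split_ifs
  · rw [norm_mul, norm_div, Complex.norm_exp_ofReal_mul_I, mul_one]
  · rw [norm_zero]
    exact div_nonneg (norm_nonneg _) (norm_nonneg _)

private theorem dt_bd (D : ZD) (K : ℝ → ℝ) (hκ : Continuous K) (hs : ∀ v, 1 < |v| → K v = 0) {Θ b y : ℝ} (hΘ : 0 ≤ Θ) (hΘ1 : Θ ≤ 1)
    (hb : 0 ≤ b) (hy : 1 ≤ y) (i : D.ι) (hρ : (D.ρ i).re ≤ Θ) :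
    ‖Dt D K Θ b y i‖ ≤ Real.exp 1 * (∫ v, |K v|) * (‖D.c i‖ / ‖D.ρ i‖) := by
  have hK : 0 ≤ ∫ v, |K v| := integral_nonneg fun v => abs_nonneg _
  have hq : 0 ≤ ‖D.c i‖ / ‖D.ρ i‖ := div_nonneg (norm_nonneg _) (norm_nonneg _)
  by_cases h0 : 0 < (D.ρ i).re
  swap
  · rw [dt_zero D K Θ b y i h0, norm_zero]
    positivity
  have hh : Real.exp (-(b * y)) ≤ 1 := by
    rw [Real.exp_le_one_iff]
    nlinarith
  have h1 : ‖Wk K y (Real.exp (-(b * y))) (D.ρ i)‖ ≤ Real.exp (Θ * (y + 1)) * ∫ v, |K v| :=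
    nrm K (hκ.integrable_of_hasCompactSupport (cs hs)) hs _ _ fun v hv =>
      exp_bd hΘ hρ hy (Real.exp_pos _).le hh hv
  have h2 : Real.exp (-(Θ * y)) * Real.exp (Θ * (y + 1)) ≤ Real.exp 1 := by
    rw [← Real.exp_add, Real.exp_le_exp]
    linarith
  rw [dt_norm D K Θ b y i h0]
  calc Real.exp (-(Θ * y)) * (‖D.c i‖ * (‖Wk K y (Real.exp (-(b * y))) (D.ρ i)‖ / ‖D.ρ i‖))
      = Real.exp (-(Θ * y)) * ‖Wk K y (Real.exp (-(b * y))) (D.ρ i)‖ * (‖D.c i‖ / ‖D.ρ i‖) := by ring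
    _ ≤ Real.exp (-(Θ * y)) * (Real.exp (Θ * (y + 1)) * ∫ v, |K v|) * (‖D.c i‖ / ‖D.ρ i‖) :=
      mul_le_mul_of_nonneg_right (mul_le_mul_of_nonneg_left h1 (Real.exp_pos _).le) hq
    _ = (Real.exp (-(Θ * y)) * Real.exp (Θ * (y + 1))) * (∫ v, |K v|) * (‖D.c i‖ / ‖D.ρ i‖) := by ring
    _ ≤ Real.exp 1 * (∫ v, |K v|) * (‖D.c i‖ / ‖D.ρ i‖) :=
      mul_le_mul_of_nonneg_right (mul_le_mul_of_nonneg_right h2 hK) hq

/-- the limit of one term -/
private theorem dt_lim (D : ZD) (K : ℝ → ℝ) (hκ : Continuous K) (hs : ∀ v, 1 < |v| → K v = 0) (h1 : ∫ v, K v = 1) {Θ b : ℝ}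
    (hΘ : 0 < Θ) (hb : 0 < b) (i : D.ι) (hρ : (D.ρ i).re ≤ Θ) :
    Tendsto (fun y : ℝ => Dt D K Θ b y i - Rt D Θ y i) atTop (𝓝 0) := by
  by_cases h0 : 0 < (D.ρ i).re
  swap
  · have h2 : (fun y : ℝ => Dt D K Θ b y i - Rt D Θ y i) = fun _ => 0 := by
      funext y
      have h3 : Rt D Θ y i = 0 := by
        unfold Rt
        rw [if_neg]
        intro h4
        rw [h4] at h0
        exact h0 hΘ
      rw [dt_zero D K Θ b y i h0, h3, sub_zero]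
    rw [h2]
    exact tendsto_const_nhds
  have hG : Tendsto (fun y : ℝ => ‖Gk K (D.ρ i * (Real.exp (-(b * y)) : ℝ)) - 1‖) atTop (𝓝 0) := by
    have h2 : Tendsto (fun y : ℝ => 2 * (‖D.ρ i‖ * Real.exp (-b * y)) * ∫ v, |K v|) atTop (𝓝 0) := by
      have := (((exp_tend (a := -b) (by linarith)).const_mul ‖D.ρ i‖).const_mul 2).mul_const (∫ v, |K v|)
      rwa [mul_zero, mul_zero, zero_mul] at this
    have h3 : ∀ᶠ y : ℝ in atTop, ‖D.ρ i‖ * Real.exp (-b * y) ≤ 1 := by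
      have := (exp_tend (a := -b) (by linarith)).const_mul ‖D.ρ i‖
      rw [mul_zero] at this
      exact this.eventually (eventually_le_nhds one_pos)
    refine squeeze_zero' (Filter.Eventually.of_forall fun y => norm_nonneg _) ?_ h2
    filter_upwards [h3] with y hy
    have hw : ‖D.ρ i * (Real.exp (-(b * y)) : ℝ)‖ = ‖D.ρ i‖ * Real.exp (-b * y) := by
      rw [norm_mul, Complex.norm_real, Real.norm_of_nonneg (Real.exp_pos _).le, neg_mul]
    have h4 := gk_sub K hκ hs h1 (w := D.ρ i * (Real.exp (-(b * y)) : ℝ)) (by rw [hw]; exact hy)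
    rwa [hw] at h4
  have hD : ∀ y : ℝ, Dt D K Θ b y i = (D.c i / D.ρ i) * Complex.exp ((((D.ρ i).im * y : ℝ) : ℂ) * Complex.I) *
      (((Real.exp (((D.ρ i).re - Θ) * y) : ℝ) : ℂ) * Gk K (D.ρ i * (Real.exp (-(b * y)) : ℝ))) := by
    intro y
    unfold Dt
    rw [if_pos h0, wk_eq]
    have h2 : ((Real.exp (-(Θ * y)) : ℝ) : ℂ) * Complex.exp (D.ρ i * y) =
        Complex.exp ((((D.ρ i).im * y : ℝ) : ℂ) * Complex.I) * ((Real.exp (((D.ρ i).re - Θ) * y) : ℝ) : ℂ) := by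
      rw [Complex.ofReal_exp, Complex.ofReal_exp, ← Complex.exp_add, ← Complex.exp_add]
      congr 1
      have h3 := Complex.re_add_im (D.ρ i)
      push_cast
      linear_combination (-(y : ℂ)) * h3
    calc _ = (D.c i / D.ρ i) * (((Real.exp (-(Θ * y)) : ℝ) : ℂ) * Complex.exp (D.ρ i * y)) *
          Gk K (D.ρ i * (Real.exp (-(b * y)) : ℝ)) := by ring
      _ = _ := by rw [h2]; ring
  rw [tendsto_zero_iff_norm_tendsto_zero]
  have hq : 0 ≤ ‖D.c i‖ / ‖D.ρ i‖ := div_nonneg (norm_nonneg _) (norm_nonneg _)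
  have hnc : ∀ y : ℝ, ‖(D.c i / D.ρ i) * Complex.exp ((((D.ρ i).im * y : ℝ) : ℂ) * Complex.I)‖ =
      ‖D.c i‖ / ‖D.ρ i‖ := by
    intro y
    rw [norm_mul, norm_div, Complex.norm_exp_ofReal_mul_I, mul_one]
  rcases hρ.lt_or_eq with hlt | heq
  · have h2 : Tendsto (fun y : ℝ => ‖D.c i‖ / ‖D.ρ i‖ * (Real.exp (((D.ρ i).re - Θ) * y) *
        (‖Gk K (D.ρ i * (Real.exp (-(b * y)) : ℝ)) - 1‖ + 1))) atTop (𝓝 0) := by
      have := ((exp_tend (a := (D.ρ i).re - Θ) (by linarith)).mul (hG.add_const 1)).const_mul (‖D.c i‖ / ‖D.ρ i‖)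
      rwa [zero_mul, mul_zero] at this
    refine squeeze_zero (fun y => norm_nonneg _) (fun y => ?_) h2
    have h3 : Rt D Θ y i = 0 := by
      unfold Rt
      rw [if_neg hlt.ne]
    rw [h3, sub_zero, hD, norm_mul, hnc, norm_mul, Complex.norm_real, Real.norm_of_nonneg (Real.exp_pos _).le]
    refine mul_le_mul_of_nonneg_left (mul_le_mul_of_nonneg_left ?_ (Real.exp_pos _).le) hq
    have h4 := norm_add_le (Gk K (D.ρ i * (Real.exp (-(b * y)) : ℝ)) - 1) 1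
    rwa [sub_add_cancel, norm_one] at h4
  · have h2 : Tendsto (fun y : ℝ => ‖D.c i‖ / ‖D.ρ i‖ *
        ‖Gk K (D.ρ i * (Real.exp (-(b * y)) : ℝ)) - 1‖) atTop (𝓝 0) := by
      have := hG.const_mul (‖D.c i‖ / ‖D.ρ i‖)
      rwa [mul_zero] at this
    refine squeeze_zero (fun y => norm_nonneg _) (fun y => le_of_eq ?_) h2
    have h3 : Rt D Θ y i = (D.c i / D.ρ i) * Complex.exp ((((D.ρ i).im * y : ℝ) : ℂ) * Complex.I) := by
      unfold Rt
      rw [if_pos heq]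
    have h4 : ((Real.exp (((D.ρ i).re - Θ) * y) : ℝ) : ℂ) = 1 := by
      rw [heq, sub_self, zero_mul, Real.exp_zero, Complex.ofReal_one]
    have h5 : ‖Dt D K Θ b y i - Rt D Θ y i‖ = ‖(D.c i / D.ρ i) *
        Complex.exp ((((D.ρ i).im * y : ℝ) : ℂ) * Complex.I) *
          (Gk K (D.ρ i * (Real.exp (-(b * y)) : ℝ)) - 1)‖ := by
      rw [hD, h3, h4]
      congr 1
      ring
    rw [h5, norm_mul, hnc]

/-- the terms with real part at least `σ` -/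
private noncomputable def At (D : ZD) (K : ℝ → ℝ) (Θ b σ y : ℝ) (i : D.ι) : ℂ :=
  if σ ≤ (D.ρ i).re then Dt D K Θ b y i - Rt D Θ y i else 0

/-- the terms with real part less than `σ` -/
private noncomputable def Bt (D : ZD) (K : ℝ → ℝ) (Θ b σ y : ℝ) (i : D.ι) : ℂ :=
  if σ ≤ (D.ρ i).re then 0 else Dt D K Θ b y i

private theorem at_bd (D : ZD) (K : ℝ → ℝ) (hκ : Continuous K) (hs : ∀ v, 1 < |v| → K v = 0) {Θ b σ y : ℝ} (hΘ : 0 ≤ Θ) (hΘ1 : Θ ≤ 1)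
    (hmax : ∀ i, (D.ρ i).re ≤ Θ) (hb : 0 ≤ b) (hy : 1 ≤ y) (i : D.ι) :
    ‖At D K Θ b σ y i‖ ≤ (Real.exp 1 * (∫ v, |K v|) + 1) * (if σ ≤ (D.ρ i).re then ‖D.c i‖ / ‖D.ρ i‖ else 0) := by
  unfold At
  split_ifs with h
  · refine (norm_sub_le _ _).trans ?_
    have h1 := dt_bd D K hκ hs hΘ hΘ1 hb hy i (hmax i)
    have h2 := rt_norm D Θ y i
    linarith
  · rw [norm_zero, mul_zero]

private theorem bt_bd (D : ZD) (K : ℝ → ℝ) (hκ : ContDiff ℝ (⊤ : ℕ∞) K) (hs : ∀ v, 1 < |v| → K v = 0) {Θ b σ ε y : ℝ} (hσ : 0 ≤ σ)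
    (hb : 0 ≤ b) (hε : 0 < ε) (hε1 : ε ≤ 1) (hy : 1 ≤ y) (i : D.ι) :
    ‖Bt D K Θ b σ y i‖ ≤ ((∫ v, |K v|) + ∫ v, |deriv K v|) * Real.exp σ * Real.exp ((σ - Θ + b * ε) * y) *
      (‖D.c i‖ / ‖D.ρ i‖ ^ (1 + ε)) := by
  have hK : 0 ≤ ∫ v, |K v| := integral_nonneg fun v => abs_nonneg _
  have hK' : 0 ≤ ∫ v, |deriv K v| := integral_nonneg fun v => abs_nonneg _
  have hc0 : 0 ≤ ‖D.c i‖ := norm_nonneg _
  unfold Bt
  split_ifs with h
  · rw [norm_zero]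
    positivity
  by_cases h00 : 0 < (D.ρ i).re
  swap
  · rw [dt_zero D K Θ b y i h00, norm_zero]
    positivity
  have hr := ib_rpos D h00
  have hrp : 0 < ‖D.ρ i‖ ^ (1 + ε) := Real.rpow_pos_of_pos hr _
  push Not at h
  obtain ⟨h', hh'⟩ : ∃ h' : ℝ, h' = Real.exp (-(b * y)) := ⟨_, rfl⟩
  have h0 : 0 < h' := by rw [hh']; exact Real.exp_pos _
  have hh : h' ≤ 1 := by
    rw [hh', Real.exp_le_one_iff]
    nlinarith
  have hc : Continuous K := hκ.continuous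
  have hdc : Continuous (deriv K) := hκ.continuous_deriv (by simp)
  have w1 : ‖Wk K y h' (D.ρ i)‖ ≤ Real.exp (σ * (y + 1)) * ∫ v, |K v| :=
    nrm K (hc.integrable_of_hasCompactSupport (cs hs)) hs _ _ fun v hv => exp_bd hσ h.le hy h0.le hh hv
  have w2 : ‖D.ρ i‖ * h' * ‖Wk K y h' (D.ρ i)‖ ≤ Real.exp (σ * (y + 1)) * ∫ v, |deriv K v| := by
    have h2 := ibp K hκ hs y h' (D.ρ i)
    have h3 : ‖D.ρ i‖ * h' * ‖Wk K y h' (D.ρ i)‖ = ‖D.ρ i * h' * Wk K y h' (D.ρ i)‖ := by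
      rw [norm_mul, norm_mul, Complex.norm_real, Real.norm_of_nonneg h0.le]
    rw [h3, h2]
    exact nrm (deriv K) (hdc.integrable_of_hasCompactSupport (cs (ds K hs))) (ds K hs) _ _ fun v hv =>
      exp_bd hσ h.le hy h0.le hh hv
  have hx : 0 < ‖D.ρ i‖ * h' := by positivity
  have hE := Real.exp_pos (σ * (y + 1))
  have w3 : ‖Wk K y h' (D.ρ i)‖ ≤ Real.exp (σ * (y + 1)) * ((∫ v, |K v|) + ∫ v, |deriv K v|) *
      (‖D.ρ i‖ * h') ^ (-ε) := by
    rcases le_total (‖D.ρ i‖ * h') 1 with hle | hge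
    · have h2 : 1 ≤ (‖D.ρ i‖ * h') ^ (-ε) := Real.one_le_rpow_of_pos_of_le_one_of_nonpos hx hle (by linarith)
      have h3 : Real.exp (σ * (y + 1)) * (∫ v, |K v|) ≤
          Real.exp (σ * (y + 1)) * ((∫ v, |K v|) + ∫ v, |deriv K v|) :=
        mul_le_mul_of_nonneg_left (by linarith) hE.le
      have h4 : 0 ≤ Real.exp (σ * (y + 1)) * ((∫ v, |K v|) + ∫ v, |deriv K v|) := by positivity
      refine w1.trans (h3.trans ?_)
      exact le_mul_of_one_le_right h4 h2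
    · have h2 : (‖D.ρ i‖ * h')⁻¹ ≤ (‖D.ρ i‖ * h') ^ (-ε) := by
        rw [← Real.rpow_neg_one]
        exact Real.rpow_le_rpow_of_exponent_le hge (by linarith)
      have h3 : ‖Wk K y h' (D.ρ i)‖ ≤ Real.exp (σ * (y + 1)) * (∫ v, |deriv K v|) * (‖D.ρ i‖ * h')⁻¹ := by
        rw [← div_eq_mul_inv, le_div_iff₀ hx]
        linarith
      refine h3.trans ?_
      refine mul_le_mul (mul_le_mul_of_nonneg_left (by linarith) hE.le) h2 (by positivity) (by positivity)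
  rw [dt_norm D K Θ b y i h00, ← hh']
  have e1 : (‖D.ρ i‖ * h') ^ (-ε) = ‖D.ρ i‖ ^ (-ε) * Real.exp (b * ε * y) := by
    rw [Real.mul_rpow hr.le h0.le, hh', ← Real.exp_mul]
    congr 2
    ring
  have e2 : ‖D.ρ i‖ ^ (1 + ε) = ‖D.ρ i‖ * ‖D.ρ i‖ ^ ε := by
    rw [Real.rpow_add hr, Real.rpow_one]
  have e3 : ‖D.ρ i‖ ^ (-ε) = (‖D.ρ i‖ ^ ε)⁻¹ := Real.rpow_neg hr.le _
  have e4 : Real.exp (-(Θ * y)) * (Real.exp (σ * (y + 1)) * Real.exp (b * ε * y)) =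
      Real.exp σ * Real.exp ((σ - Θ + b * ε) * y) := by
    rw [← Real.exp_add, ← Real.exp_add, ← Real.exp_add]
    congr 1
    ring
  have hrε : 0 < ‖D.ρ i‖ ^ ε := Real.rpow_pos_of_pos hr _
  calc Real.exp (-(Θ * y)) * (‖D.c i‖ * (‖Wk K y h' (D.ρ i)‖ / ‖D.ρ i‖)) ≤
        Real.exp (-(Θ * y)) * (‖D.c i‖ * (Real.exp (σ * (y + 1)) * ((∫ v, |K v|) + ∫ v, |deriv K v|) *
          (‖D.ρ i‖ * h') ^ (-ε) / ‖D.ρ i‖)) := by
        refine mul_le_mul_of_nonneg_left (mul_le_mul_of_nonneg_left ?_ hc0) (Real.exp_pos _).le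
        exact div_le_div_of_nonneg_right w3 hr.le
    _ = ((∫ v, |K v|) + ∫ v, |deriv K v|) * (Real.exp (-(Θ * y)) * (Real.exp (σ * (y + 1)) * Real.exp (b * ε * y))) *
          (‖D.c i‖ / (‖D.ρ i‖ * ‖D.ρ i‖ ^ ε)) := by
        rw [e1, e3]
        field_simp
    _ = _ := by
        rw [e4, e2]
        ring

theorem w_one (K : ℝ → ℝ) (hK : ContDiff ℝ (⊤ : ℕ∞) K) (hs : ∀ v, 1 < |v| → K v = 0) (h1 : ∫ v, K v = 1)
    (Θ : ℝ) (hΘ : 1 / 2 < Θ) (hΘ1 : Θ < 1) (b : ℝ) (hb : 1 - Θ < b) :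
    Tendsto (fun y : ℝ => ((Real.exp (-(Θ * y)) : ℝ) : ℂ) *
      (Wk K y (Real.exp (-(b * y))) 1 - ((Real.exp y : ℝ) : ℂ))) atTop (𝓝 0) :=
  part1 K hK.continuous hs h1 Θ b (by linarith) hb

theorem ZD.w_lim (D : ZD) (K : ℝ → ℝ) (hK : ContDiff ℝ (⊤ : ℕ∞) K) (hs : ∀ v, 1 < |v| → K v = 0) (h1 : ∫ v, K v = 1)
    (Θ : ℝ) (hΘ : 1 / 2 < Θ) (hΘ1 : Θ < 1) (hmax : ∀ i, (D.ρ i).re ≤ Θ) (b : ℝ) (hb : 1 - Θ < b) :
    Tendsto (fun y : ℝ => ((Real.exp (-(Θ * y)) : ℝ) : ℂ) *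
      (∑' i, if 0 < (D.ρ i).re then D.c i * (Wk K y (Real.exp (-(b * y))) (D.ρ i) / D.ρ i) else 0) + D.r Θ y)
      atTop (𝓝 0) := by
  have hb0 : 0 < b := by linarith
  have hc : Continuous K := hK.continuous
  obtain ⟨σ, hσ1, hσ2⟩ : ∃ σ : ℝ, 1 / 2 < σ ∧ σ < Θ := exists_between hΘ
  obtain ⟨ε, hε0, hε1, hεb⟩ : ∃ ε : ℝ, 0 < ε ∧ ε ≤ 1 ∧ σ - Θ + b * ε < 0 := by
    refine ⟨min 1 ((Θ - σ) / (2 * b)), lt_min one_pos (div_pos (by linarith) (by linarith)), min_le_left _ _, ?_⟩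
    have h2 : b * min 1 ((Θ - σ) / (2 * b)) ≤ b * ((Θ - σ) / (2 * b)) :=
      mul_le_mul_of_nonneg_left (min_le_right _ _) hb0.le
    have h3 : b * ((Θ - σ) / (2 * b)) = (Θ - σ) / 2 := by
      field_simp
    linarith
  have hS2 : Summable fun i => if σ ≤ (D.ρ i).re then ‖D.c i‖ / ‖D.ρ i‖ else 0 := by
    refine Summable.of_nonneg_of_le (fun i => ?_) (fun i => ?_) (D.s2 σ hσ1)
    · split_ifs
      · positivity
      · exact le_rfl
    · split_ifs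
      · exact div_le_div_of_nonneg_right (by linarith) (norm_nonneg _)
      · exact le_rfl
  have hS1 := D.sumc (1 + ε) (by linarith)
  have hA : Tendsto (fun y : ℝ => ∑' i, At D K Θ b σ y i) atTop (𝓝 (∑' _ : D.ι, (0 : ℂ))) := by
    refine tendsto_tsum_of_dominated_convergence (hS2.mul_left (Real.exp 1 * (∫ v, |K v|) + 1)) ?_ ?_
    · intro i
      unfold At
      by_cases h : σ ≤ (D.ρ i).re
      · simp only [if_pos h]
        exact dt_lim D K hc hs h1 (by linarith) hb0 i (hmax i)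
      · simp only [if_neg h]
        exact tendsto_const_nhds
    · filter_upwards [eventually_ge_atTop (1 : ℝ)] with y hy i
      exact at_bd D K hc hs (by linarith) hΘ1.le hmax hb0.le hy i
  rw [tsum_zero] at hA
  have hB : Tendsto (fun y : ℝ => ∑' i, Bt D K Θ b σ y i) atTop (𝓝 0) := by
    have h2 : Tendsto (fun y : ℝ => ((∫ v, |K v|) + ∫ v, |deriv K v|) * Real.exp σ *
        Real.exp ((σ - Θ + b * ε) * y) * ∑' i, ‖D.c i‖ / ‖D.ρ i‖ ^ (1 + ε)) atTop (𝓝 0) := by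
      have := ((exp_tend hεb).const_mul (((∫ v, |K v|) + ∫ v, |deriv K v|) * Real.exp σ)).mul_const
        (∑' i, ‖D.c i‖ / ‖D.ρ i‖ ^ (1 + ε))
      rwa [mul_zero, zero_mul] at this
    refine squeeze_zero_norm' ?_ h2
    filter_upwards [eventually_ge_atTop (1 : ℝ)] with y hy
    rw [← tsum_mul_left]
    exact tsum_of_norm_bounded (hS1.mul_left _).hasSum fun i =>
      bt_bd D K hK hs (by linarith) hb0.le hε0 hε1 hy i
  have hAB := hA.add hB
  rw [add_zero] at hAB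
  refine hAB.congr' ?_
  filter_upwards [eventually_ge_atTop (1 : ℝ)] with y hy
  have sA : Summable fun i => At D K Θ b σ y i :=
    Summable.of_norm_bounded (hS2.mul_left (Real.exp 1 * (∫ v, |K v|) + 1)) fun i =>
      at_bd D K hc hs (by linarith) hΘ1.le hmax hb0.le hy i
  have sB : Summable fun i => Bt D K Θ b σ y i :=
    Summable.of_norm_bounded (hS1.mul_left _) fun i => bt_bd D K hK hs (by linarith) hb0.le hε0 hε1 hy i
  have sR : Summable fun i => Rt D Θ y i := by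
    refine Summable.of_norm_bounded hS2 fun i => ?_
    by_cases h : σ ≤ (D.ρ i).re
    · rw [if_pos h]
      exact rt_norm D Θ y i
    · rw [if_neg h]
      have h2 : Rt D Θ y i = 0 := by
        unfold Rt
        rw [if_neg]
        intro h3
        exact h (by rw [h3]; exact hσ2.le)
      rw [h2, norm_zero]
  have hsum : ∀ i, At D K Θ b σ y i + Bt D K Θ b σ y i + Rt D Θ y i = Dt D K Θ b y i := by
    intro i
    unfold At Bt
    by_cases h : σ ≤ (D.ρ i).re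
    · rw [if_pos h, if_pos h]
      ring
    · rw [if_neg h, if_neg h]
      have h2 : Rt D Θ y i = 0 := by
        unfold Rt
        rw [if_neg]
        intro h3
        exact h (by rw [h3]; exact hσ2.le)
      rw [h2]
      ring
  have h2 : ((Real.exp (-(Θ * y)) : ℝ) : ℂ) *
      (∑' i, if 0 < (D.ρ i).re then D.c i * (Wk K y (Real.exp (-(b * y))) (D.ρ i) / D.ρ i) else 0) =
      ∑' i, Dt D K Θ b y i := by
    rw [← tsum_mul_left]
    rfl
  have h3 : D.r Θ y = -∑' i, Rt D Θ y i := rfl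
  rw [h2, h3]
  have h4 : ∑' i, Dt D K Θ b y i =
      (∑' i, At D K Θ b σ y i) + (∑' i, Bt D K Θ b σ y i) + ∑' i, Rt D Θ y i := by
    rw [← sA.tsum_add sB, ← (sA.add sB).tsum_add sR]
    exact (tsum_congr hsum).symm
  rw [h4]
  ring

end Pool.Agent.H50.RQ
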