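import Pool.Agent.H50.RQ.Ia
import Pool.Agent.H50.RQ.Ib
import Pool.Agent.H50.RQ.Ap

/-!
[H50 RQ IC] The error term on the rightmost line, and the line data.

PROOF. Copy `Pool/Agent/H50/RL/Ic.lean` (`psi_lim`, `line_data`). `psi_lim`: squeeze with `smooth_f`, `w_one`, `w_lim` (`b = 1`, `h = exp(-y)`); the error `C (1 + y) e^{-Θ y} → 0`; `D.f y = Σ V n - κ e^y`.
`line_data`: `ι = {i : D.ι // (D.ρ i).re = Θ}`, `γ = Im`, `c = D.c`, `r u = (D.r Θ u).re`, `inj` from `D.inj`, `summ` from `D.s2 Θ`; `hr`: `D.r Θ u` is real: conjugation (`D.conj`, an involution of the index set by `D.inj`) maps the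
term of `i` to its complex conjugate.
-/

set_option autoImplicit false

namespace Pool.Agent.H50.RQ

open MeasureTheory Filter Topology
open Pool.Agent.H50.RL (SC Lp Lf Wk Ft)

private theorem kern (c : ℝ) : ∃ K : ℝ → ℝ, ContDiff ℝ (⊤ : ℕ∞) K ∧ (∀ v, 0 ≤ K v) ∧
    (∀ v, 1 / 2 ≤ |v - c| → K v = 0) ∧ ∫ v, K v = 1 := by
  let f : ContDiffBump c := ⟨1 / 4, 1 / 2, by norm_num, by norm_num⟩
  refine ⟨f.normed volume, f.contDiff_normed, fun v => f.nonneg_normed v, fun v hv => ?_,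
    f.integral_normed⟩
  have h1 : v ∉ Function.support (f.normed volume) := by
    rw [f.support_normed_eq, Metric.mem_ball, Real.dist_eq]
    exact not_lt.2 hv
  exact Function.notMem_support.1 h1

private theorem exp_zero (Θ C : ℝ) (hΘ : 0 < Θ) :
    Tendsto (fun y : ℝ => Real.exp (-(Θ * y)) * (C * (1 + y))) atTop (𝓝 0) := by
  have h1 : Tendsto (fun y : ℝ => Θ * y) atTop atTop := tendsto_id.const_mul_atTop hΘ
  have h2 : Tendsto (fun y : ℝ => Real.exp (-(Θ * y))) atTop (𝓝 0) :=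
    Real.tendsto_exp_neg_atTop_nhds_zero.comp h1
  have h3 : Tendsto (fun y : ℝ => (Θ * y) ^ 1 * Real.exp (-(Θ * y))) atTop (𝓝 0) :=
    (Real.tendsto_pow_mul_exp_neg_atTop_nhds_zero 1).comp h1
  have h4 := (h2.const_mul C).add (h3.const_mul (C / Θ))
  rw [mul_zero, mul_zero, add_zero] at h4
  refine h4.congr fun y => ?_
  have h5 : Θ ≠ 0 := hΘ.ne'
  field_simp
  try ring

private theorem one_side (D : ZD) (Θ : ℝ) (hΘ : 1 / 2 < Θ) (hΘ1 : Θ < 1) (hmax : ∀ i, (D.ρ i).re ≤ Θ)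
    (K : ℝ → ℝ) (hK : ContDiff ℝ (⊤ : ℕ∞) K) (hs : ∀ v, 1 < |v| → K v = 0) (h1 : ∫ v, K v = 1)
    (C : ℝ) :
    Tendsto (fun y : ℝ => Real.exp (-(Θ * y)) * ((D.κ * Wk K y (Real.exp (-y)) 1 -
      ∑' i, if 0 < (D.ρ i).re then D.c i * (Wk K y (Real.exp (-y)) (D.ρ i) / D.ρ i) else 0).re +
        C * (1 + y) - D.κ * Real.exp y) - (D.r Θ y).re) atTop (𝓝 0) := by
  have h2 := w_one K hK hs h1 Θ hΘ hΘ1 1 (by linarith)
  have h3 := D.w_lim K hK hs h1 Θ hΘ hΘ1 hmax 1 (by linarith)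
  have h4 : Tendsto (fun y : ℝ => (((D.κ : ℝ) : ℂ) * (((Real.exp (-(Θ * y)) : ℝ) : ℂ) *
      (Wk K y (Real.exp (-(1 * y))) 1 - ((Real.exp y : ℝ) : ℂ))) -
      (((Real.exp (-(Θ * y)) : ℝ) : ℂ) *
      (∑' i, if 0 < (D.ρ i).re then D.c i * (Wk K y (Real.exp (-(1 * y))) (D.ρ i) / D.ρ i) else 0) +
        D.r Θ y)).re) atTop (𝓝 0) := by
    have h5 := (h2.const_mul ((D.κ : ℝ) : ℂ)).sub h3
    rw [mul_zero, sub_zero] at h5
    exact (Complex.continuous_re.tendsto 0).comp h5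
  have h6 := h4.add (exp_zero Θ C (by linarith))
  rw [add_zero] at h6
  refine h6.congr fun y => ?_
  rw [one_mul, Complex.sub_re, Complex.add_re, Complex.re_ofReal_mul, Complex.re_ofReal_mul,
    Complex.re_ofReal_mul, Complex.sub_re, Complex.sub_re, Complex.re_ofReal_mul, Complex.ofReal_re]
  ring

theorem ZD.psi_lim (D : ZD) (Θ : ℝ) (hΘ : 1 / 2 < Θ) (hΘ1 : Θ < 1) (hmax : ∀ i, (D.ρ i).re ≤ Θ) :
    Tendsto (fun y : ℝ => Real.exp (-(Θ * y)) * D.f y - (D.r Θ y).re) atTop (𝓝 0) := by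
  obtain ⟨K, hK1, hK2, hK3, hK4⟩ := kern (-1 / 2)
  obtain ⟨K', hK1', hK2', hK3', hK4'⟩ := kern (1 / 2)
  have hs : ∀ v, 1 < |v| → K v = 0 := by
    intro v hv
    refine hK3 v ?_
    have h1 := abs_sub_abs_le_abs_sub v (-1 / 2)
    have h2 : |(-1 / 2 : ℝ)| = 1 / 2 := by norm_num [abs_of_neg]
    linarith
  have hs' : ∀ v, 1 < |v| → K' v = 0 := by
    intro v hv
    refine hK3' v ?_
    have h1 := abs_sub_abs_le_abs_sub v (1 / 2)
    have h2 : |(1 / 2 : ℝ)| = 1 / 2 := by norm_num [abs_of_pos]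
    linarith
  obtain ⟨C, hC⟩ := D.smooth_f K hK1 hK2 hs hK4
  obtain ⟨C', hC'⟩ := D.smooth_f K' hK1' hK2' hs' hK4'
  have hpos : ∀ v, 0 < v → K v = 0 := by
    intro v hv
    refine hK3 v ?_
    rw [abs_of_pos (by linarith)]
    linarith
  have hneg : ∀ v, v < 0 → K' v = 0 := by
    intro v hv
    refine hK3' v ?_
    rw [abs_of_neg (by linarith)]
    linarith
  have hup := one_side D Θ hΘ hΘ1 hmax K hK1 hs hK4 C
  have hlo := one_side D Θ hΘ hΘ1 hmax K' hK1' hs' hK4' (-C')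
  have hh : ∀ y : ℝ, 3 ≤ y → Real.exp (-y) ≤ 1 / 10 := by
    intro y hy
    have h1 : Real.exp (-y) ≤ Real.exp (-3) := Real.exp_le_exp.2 (by linarith)
    have h2 : (10 : ℝ) ≤ Real.exp 3 := by
      have h3 : Real.exp 3 = Real.exp 1 ^ 3 := by
        rw [← Real.exp_nat_mul]
        norm_num
      rw [h3]
      have h4 := Real.exp_one_gt_d9
      nlinarith [pow_pos (Real.exp_pos 1) 2, mul_pos (Real.exp_pos 1) (Real.exp_pos 1)]
    have h5 : Real.exp (-3) = 1 / Real.exp 3 := by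
      rw [Real.exp_neg, one_div]
    rw [h5] at h1
    exact h1.trans (one_div_le_one_div_of_le (by norm_num) h2)
  refine tendsto_of_tendsto_of_tendsto_of_le_of_le' hlo hup ?_ ?_
  · filter_upwards [eventually_ge_atTop (3 : ℝ)] with y hy
    have h1 := (hC' y (Real.exp (-y)) (by linarith) (Real.exp_pos _) (hh y hy)).2.2 hneg
    have h2 : 0 < Real.exp (-(Θ * y)) := Real.exp_pos _
    refine sub_le_sub_right (mul_le_mul_of_nonneg_left ?_ h2.le) _
    unfold ZD.f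
    linarith
  · filter_upwards [eventually_ge_atTop (3 : ℝ)] with y hy
    have h1 := (hC y (Real.exp (-y)) (by linarith) (Real.exp_pos _) (hh y hy)).2.1 hpos
    have h2 : 0 < Real.exp (-(Θ * y)) := Real.exp_pos _
    refine sub_le_sub_right (mul_le_mul_of_nonneg_left ?_ h2.le) _
    unfold ZD.f
    linarith

private noncomputable def cjf (D : ZD) (i : D.ι) : D.ι := (D.conj i).choose

private theorem cjf_ρ (D : ZD) (i : D.ι) : D.ρ (cjf D i) = (starRingEnd ℂ) (D.ρ i) :=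
  (D.conj i).choose_spec.1

private theorem cjf_c (D : ZD) (i : D.ι) : D.c (cjf D i) = (starRingEnd ℂ) (D.c i) :=
  (D.conj i).choose_spec.2

private theorem cjf_cjf (D : ZD) (i : D.ι) : cjf D (cjf D i) = i :=
  D.inj (by rw [cjf_ρ, cjf_ρ, Complex.conj_conj])

/-- conjugation of the poles on the line -/
private noncomputable def cj (D : ZD) (Θ : ℝ) :
    {i : D.ι // (D.ρ i).re = Θ} ≃ {i : D.ι // (D.ρ i).re = Θ} where
  toFun i := ⟨cjf D i.1, by rw [cjf_ρ, Complex.conj_re]; exact i.2⟩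
  invFun i := ⟨cjf D i.1, by rw [cjf_ρ, Complex.conj_re]; exact i.2⟩
  left_inv i := Subtype.ext (cjf_cjf D i.1)
  right_inv i := Subtype.ext (cjf_cjf D i.1)

private theorem line_pt (D : ZD) {Θ : ℝ} (i : {i : D.ι // (D.ρ i).re = Θ}) :
    ((Θ : ℂ) + (((D.ρ i.1).im : ℝ) : ℂ) * Complex.I) = D.ρ i.1 := by
  have h1 := Complex.re_add_im (D.ρ i.1)
  have h2 : (((D.ρ i.1).re : ℝ) : ℂ) = (Θ : ℂ) := congrArg _ i.2
  rw [h2] at h1
  exact h1

private theorem r_eq (D : ZD) (Θ u : ℝ) : D.r Θ u = -∑' i : {i : D.ι // (D.ρ i).re = Θ},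
    (D.c i.1 / D.ρ i.1) * Complex.exp ((((D.ρ i.1).im * u : ℝ) : ℂ) * Complex.I) := by
  unfold ZD.r
  congr 1
  have h1 := tsum_subtype {i : D.ι | (D.ρ i).re = Θ} (fun i : D.ι => (D.c i / D.ρ i) *
    Complex.exp ((((D.ρ i).im * u : ℝ) : ℂ) * Complex.I))
  refine Eq.trans ?_ h1.symm
  refine tsum_congr fun i => ?_
  by_cases h : (D.ρ i).re = Θ
  · rw [if_pos h, Set.indicator_of_mem (by exact h)]
  · rw [if_neg h, Set.indicator_of_notMem (by exact h)]

private theorem r_real (D : ZD) (Θ u : ℝ) : (((D.r Θ u).re : ℝ) : ℂ) = D.r Θ u := by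
  rw [← Complex.conj_eq_iff_re, r_eq, map_neg, Complex.conj_tsum]
  congr 1
  rw [← Equiv.tsum_eq (cj D Θ)]
  refine tsum_congr fun i => ?_
  have h1 : D.c ((cj D Θ i).1) = (starRingEnd ℂ) (D.c i.1) := cjf_c D i.1
  have h2 : D.ρ ((cj D Θ i).1) = (starRingEnd ℂ) (D.ρ i.1) := cjf_ρ D i.1
  rw [h1, h2, map_mul, map_div₀, Complex.conj_conj, Complex.conj_conj, ← Complex.exp_conj, map_mul,
    Complex.conj_ofReal, Complex.conj_I, Complex.conj_im]
  congr 2
  push_cast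
  ring

theorem ZD.line_data (D : ZD) (Θ : ℝ) (hΘ : 1 / 2 < Θ) :
    ∃ L : LD, L.Θ = Θ ∧ (∀ u, L.r u = (D.r Θ u).re) ∧
      ∃ e : L.ι ≃ {i : D.ι // (D.ρ i).re = Θ}, ∀ i, L.γ i = (D.ρ (e i : D.ι)).im ∧ L.c i = D.c (e i : D.ι) := by
  refine ⟨{ ι := {i : D.ι // (D.ρ i).re = Θ}
            Θ := Θ
            γ := fun i => (D.ρ i.1).im
            c := fun i => D.c i.1
            r := fun u => (D.r Θ u).re
            Θpos := by linarith
            inj := ?_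
            summ := ?_
            hr := ?_ }, rfl, fun _ => rfl, Equiv.refl _, fun _ => ⟨rfl, rfl⟩⟩
  · intro i j hij
    apply Subtype.ext
    apply D.inj
    exact Complex.ext (i.2.trans j.2.symm) hij
  · have h1 := (D.s2 Θ hΘ).subtype {i : D.ι | (D.ρ i).re = Θ}
    refine h1.congr fun i => ?_
    have h2 : Θ ≤ (D.ρ i.1).re := le_of_eq i.2.symm
    change (if Θ ≤ (D.ρ i.1).re then (1 + ‖D.c i.1‖) / ‖D.ρ i.1‖ else 0) = _
    rw [if_pos h2, line_pt]
  · intro u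
    rw [r_real, r_eq]
    congr 1
    refine tsum_congr fun i => ?_
    rw [line_pt]

end Pool.Agent.H50.RQ
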