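import Pool.Agent.H50.RQ.Xu

/-!
[H50 RQ LA] `L(s, χ)` by sums of length `T^(1+ε)`.

PROOF. Iterated primitives. Call `P : ℝ → ℂ` good if it is bounded, measurable, `N`-periodic with `∫_0^N P = 0`. If `P` is good then so is `Q x = ∫_0^x P - N^(-1) ∫_0^N (∫_0^y P) dy`
(continuous, `Q' = P` almost everywhere; or use the primitive directly with `intervalIntegral` integration by parts).
CLAIM(K), by induction on `K`, for every good `P` there is `C` such that for all `Y ≥ 1` and all `z` with `Re z ≥ 5/4`: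
`‖∫_Y^∞ P x x^(-z) dx‖ ≤ C Y^(-Re z) Σ_{j<K} (‖z‖ + K)^j Y^(-j) + C (‖z‖ + K)^K Y^(1 - Re z - K)`. `K = 0`: `‖P‖ ≤ C0`, `∫_Y^∞ x^(-Re z) = Y^(1-Re z)/(Re z - 1) ≤ 4 Y^(1-Re z)`.
Step: integration by parts `∫_Y^∞ P x^(-z) = -Q(Y) Y^(-z) + z ∫_Y^∞ Q x^(-z-1) dx`, claim `K` for `Q` and `z + 1` (`‖z+1‖ ≤ ‖z‖ + 1`).
APPLICATION. `phi_int` with `Φ = χ`: `L(s) - Σ_{n ≤ NX} = s ∫_{NX}^∞ A x^(-s-1) dx`, `A x = Σ_{n ≤ x} χ n` is `N`-periodic and bounded; `A = m + P`, `m` its mean, `P` good.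
`s ∫ m x^(-s-1) = m (NX)^(-s)`. With `z = s + 1` (`Re z ≥ 5/4`), `‖s‖ ≤ 4 + 64 T ≤ 68 T`, `NX ≥ X ≥ T^(1+ε)`: every `(‖z‖+K)/(NX) ≤ C_K T^(-ε) ≤ C_K`, so
`‖s‖ ‖∫ P x^(-z)‖ ≤ C_K ‖s‖ X^(-σ-1) + C_K ‖s‖ (C_K T)^K X^(-σ-K) ≤ C X^(-σ) + C T^(1+K) T^(-(1+ε)K) X^(-σ)`, and `K ≥ 1/ε` makes the last factor `≤ 1`.
-/

set_option autoImplicit false

namespace Pool.Agent.H50.RQ

open MeasureTheory Filter Topology

/-- bounded periodic functions with mean zero -/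
private structure Gd (N : ℕ) (P : ℝ → ℂ) : Prop where
  meas : Measurable P
  bd : ∃ B : ℝ, 0 ≤ B ∧ ∀ x, ‖P x‖ ≤ B
  per : ∀ x, P (x + N) = P x
  mean : ∫ x in (0 : ℝ)..(N : ℝ), P x = 0
  rc : ∀ x, ContinuousWithinAt P (Set.Ioi x) x

private theorem Gd.int {N : ℕ} {P : ℝ → ℂ} (h : Gd N P) (a b : ℝ) : IntervalIntegrable P volume a b := by
  obtain ⟨B, -, hB⟩ := h.bd
  rw [intervalIntegrable_iff]
  exact Measure.integrableOn_of_bounded (M := B) (by simp) h.meas.aestronglyMeasurable (Eventually.of_forall hB)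

private theorem gd_prim {N : ℕ} [NeZero N] {P : ℝ → ℂ} (h : Gd N P) : ∃ Q : ℝ → ℂ, Gd N Q ∧ Continuous Q ∧
    ∀ x, HasDerivWithinAt Q (P x) (Set.Ioi x) x := by
  have hN : (0 : ℝ) < N := by exact_mod_cast Nat.pos_of_ne_zero (NeZero.ne N)
  obtain ⟨F, hF⟩ : ∃ F : ℝ → ℂ, ∀ x, F x = ∫ y in (0 : ℝ)..x, P y := ⟨_, fun x => rfl⟩
  obtain ⟨μ, hμ⟩ : ∃ μ : ℂ, μ = (N : ℂ)⁻¹ * ∫ y in (0 : ℝ)..(N : ℝ), F y := ⟨_, rfl⟩
  have hFc : Continuous F := by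
    have h1 := intervalIntegral.continuous_primitive h.int 0
    exact h1.congr fun x => (hF x).symm
  have hP : Function.Periodic P (N : ℝ) := h.per
  have hFp : ∀ x, F (x + N) = F x := by
    intro x
    rw [hF, hF, ← intervalIntegral.integral_add_adjacent_intervals (h.int 0 x) (h.int x (x + N)),
      hP.intervalIntegral_add_eq x 0, zero_add, h.mean, add_zero]
  have hQc : Continuous fun x => F x - μ := hFc.sub continuous_const
  have hN' : (N : ℂ) ≠ 0 := by exact_mod_cast NeZero.ne N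
  refine ⟨fun x => F x - μ, ⟨hQc.measurable, ?_, fun x => by rw [hFp], ?_, fun x => hQc.continuousWithinAt⟩, hQc, ?_⟩
  · obtain ⟨C, hC⟩ := (isCompact_Icc (a := (0 : ℝ)) (b := (N : ℝ))).exists_bound_of_continuousOn hQc.continuousOn
    refine ⟨max C 0, le_max_right _ _, fun x => ?_⟩
    have hp : Function.Periodic (fun x => F x - μ) (N : ℝ) := fun x => by
      show F (x + N) - μ = F x - μ
      rw [hFp]
    obtain ⟨y, hy, hxy⟩ := hp.exists_mem_Ico₀ hN x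
    have h1 := hC y ⟨hy.1, hy.2.le⟩
    show ‖F x - μ‖ ≤ _
    have h2 : F x - μ = F y - μ := hxy
    rw [h2]
    exact h1.trans (le_max_left _ _)
  · rw [intervalIntegral.integral_sub (hFc.intervalIntegrable _ _) (continuous_const.intervalIntegrable _ _),
      intervalIntegral.integral_const, hμ, sub_zero, Complex.real_smul]
    push_cast
    rw [← mul_assoc, mul_inv_cancel₀ hN', one_mul, sub_self]
  · intro x
    have h1 : HasDerivWithinAt (fun u => ∫ y in (0 : ℝ)..u, P y) (P x) (Set.Ici x) x :=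
      intervalIntegral.integral_hasDerivWithinAt_right (t := Set.Ioi x) (h.int 0 x)
        (h.meas.stronglyMeasurable.stronglyMeasurableAtFilter) (h.rc x)
    have h2 : HasDerivWithinAt F (P x) (Set.Ici x) x := h1.congr (fun y _ => hF y) (hF x)
    exact (h2.mono Set.Ioi_subset_Ici_self).sub_const μ

private theorem cp_deriv (z : ℂ) {x : ℝ} (hx : 0 < x) :
    HasDerivAt (fun y : ℝ => (y : ℂ) ^ (-z)) (-z * (x : ℂ) ^ (-z - 1)) x := by
  have h1 : (x : ℂ) ∈ Complex.slitPlane := Or.inl (by simpa using hx)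
  have h2 := ((hasDerivAt_id (x : ℂ)).cpow_const (c := -z) h1).comp_ofReal
  simpa using h2

private theorem by_parts {N : ℕ} {P Q : ℝ → ℂ} (h : Gd N P) (hQ : Continuous Q)
    (hd : ∀ x, HasDerivWithinAt Q (P x) (Set.Ioi x) x) (z : ℂ) {Y Z : ℝ} (hY : 0 < Y) (hYZ : Y ≤ Z) :
    ∫ x in Y..Z, P x * (x : ℂ) ^ (-z) = Q Z * (Z : ℂ) ^ (-z) - Q Y * (Y : ℂ) ^ (-z) +
      z * ∫ x in Y..Z, Q x * (x : ℂ) ^ (-(z + 1)) := by
  have hpos : ∀ x ∈ Set.uIcc Y Z, 0 < x := by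
    intro x hx
    rw [Set.uIcc_of_le hYZ] at hx
    exact hY.trans_le hx.1
  have hvc : ContinuousOn (fun y : ℝ => (y : ℂ) ^ (-z)) (Set.uIcc Y Z) := fun x hx =>
    (cp_deriv z (hpos x hx)).continuousAt.continuousWithinAt
  have hvc1 : ContinuousOn (fun y : ℝ => (y : ℂ) ^ (-(z + 1))) (Set.uIcc Y Z) := fun x hx =>
    (cp_deriv (z + 1) (hpos x hx)).continuousAt.continuousWithinAt
  have e1 : -z - 1 = -(z + 1) := by ring
  have hv' : IntervalIntegrable (fun y : ℝ => -z * (y : ℂ) ^ (-z - 1)) volume Y Z := by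
    rw [e1]
    exact (continuousOn_const.mul hvc1).intervalIntegrable
  have h1 := intervalIntegral.integral_mul_deriv_eq_deriv_mul_of_hasDeriv_right (a := Y) (b := Z) (u := Q) (v := fun y : ℝ => (y : ℂ) ^ (-z))
    (u' := P) (v' := fun y : ℝ => -z * (y : ℂ) ^ (-z - 1)) hQ.continuousOn hvc (fun x _ => hd x) (fun x hx => by
      refine (cp_deriv z ?_).hasDerivWithinAt
      rw [min_eq_left hYZ] at hx
      exact hY.trans hx.1) (h.int Y Z) hv'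
  have h2 : ∫ x in Y..Z, Q x * (-z * (x : ℂ) ^ (-z - 1)) = -z * ∫ x in Y..Z, Q x * (x : ℂ) ^ (-(z + 1)) := by
    rw [← intervalIntegral.integral_const_mul]
    refine intervalIntegral.integral_congr fun x _ => ?_
    show Q x * (-z * (x : ℂ) ^ (-z - 1)) = -z * (Q x * (x : ℂ) ^ (-(z + 1)))
    rw [e1]
    ring
  rw [h2] at h1
  linear_combination h1

private theorem base_bd {P : ℝ → ℂ} {B : ℝ} (hB0 : 0 ≤ B) (hB : ∀ x, ‖P x‖ ≤ B) {z : ℂ} (hz : 5 / 4 ≤ z.re) {Y Z : ℝ} (hY : 1 ≤ Y)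
    (hYZ : Y ≤ Z) : ‖∫ x in Y..Z, P x * (x : ℂ) ^ (-z)‖ ≤ 4 * B * Y ^ (1 - z.re) := by
  have hY0 : 0 < Y := by linarith
  have h0 : (0 : ℝ) ∉ Set.uIcc Y Z := by
    rw [Set.uIcc_of_le hYZ]
    intro h
    linarith [h.1]
  have hg : IntervalIntegrable (fun x : ℝ => B * x ^ (-z.re)) volume Y Z :=
    (intervalIntegral.intervalIntegrable_rpow (Or.inr h0)).const_mul B
  have h1 := intervalIntegral.norm_integral_le_of_norm_le (μ := volume) (f := fun x : ℝ => P x * (x : ℂ) ^ (-z)) hYZ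
    (Eventually.of_forall fun x hx => by
      have hx0 : 0 < x := hY0.trans hx.1
      rw [norm_mul, Complex.norm_cpow_eq_rpow_re_of_pos hx0, Complex.neg_re]
      exact mul_le_mul_of_nonneg_right (hB x) (Real.rpow_nonneg hx0.le _)) hg
  refine h1.trans ?_
  rw [intervalIntegral.integral_const_mul, integral_rpow (Or.inr ⟨by linarith, h0⟩)]
  have e1 : -z.re + 1 = -(z.re - 1) := by ring
  have e2 : (1 - z.re) = -(z.re - 1) := by ring
  rw [e1, e2]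
  have h2 : 0 < z.re - 1 := by linarith
  have h3 : 0 ≤ Z ^ (-(z.re - 1)) := Real.rpow_nonneg (by linarith) _
  have h4 : 0 ≤ Y ^ (-(z.re - 1)) := Real.rpow_nonneg hY0.le _
  have h5 : (Z ^ (-(z.re - 1)) - Y ^ (-(z.re - 1))) / -(z.re - 1) ≤ 4 * Y ^ (-(z.re - 1)) := by
    rw [div_neg, ← neg_div, div_le_iff₀ h2]
    nlinarith
  calc B * ((Z ^ (-(z.re - 1)) - Y ^ (-(z.re - 1))) / -(z.re - 1)) ≤ B * (4 * Y ^ (-(z.re - 1))) :=
        mul_le_mul_of_nonneg_left h5 hB0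
    _ = _ := by ring

private theorem claim {N : ℕ} [NeZero N] (K : ℕ) {D : ℝ} (hD : 1 ≤ D) : ∀ P : ℝ → ℂ, Gd N P → ∃ C : ℝ, 0 ≤ C ∧
    ∀ (Y Z ρ : ℝ) (z : ℂ), 1 ≤ Y → Y ≤ Z → 5 / 4 ≤ z.re → ‖z‖ + K ≤ ρ * Y → 0 ≤ ρ → ρ ≤ D →
      ‖∫ x in Y..Z, P x * (x : ℂ) ^ (-z)‖ ≤ C * (Y ^ (-z.re) + Y ^ (1 - z.re) * ρ ^ K) := by
  induction K with
  | zero =>
    intro P h
    obtain ⟨B, hB0, hB⟩ := h.bd
    refine ⟨4 * B, by positivity, fun Y Z ρ z hY hYZ hz _ _ _ => ?_⟩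
    refine (base_bd hB0 hB hz hY hYZ).trans ?_
    rw [pow_zero, mul_one]
    have h4 : 0 ≤ Y ^ (-z.re) := Real.rpow_nonneg (by linarith) _
    exact mul_le_mul_of_nonneg_left (by linarith) (by positivity)
  | succ K ih =>
    intro P h
    obtain ⟨Q, hQ, hQc, hQd⟩ := gd_prim h
    obtain ⟨B, hB0, hB⟩ := hQ.bd
    obtain ⟨C, hC0, hC⟩ := ih Q hQ
    refine ⟨2 * B + C * D, by positivity, fun Y Z ρ z hY hYZ hz hρ hρ0 hρD => ?_⟩
    have hY0 : 0 < Y := by linarith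
    rw [by_parts h hQc hQd z hY0 hYZ]
    have h1 := hC Y Z ρ (z + 1) hY hYZ (by
      rw [Complex.add_re, Complex.one_re]
      linarith) (by
      have h2 := norm_add_le z 1
      rw [norm_one] at h2
      push_cast at hρ
      linarith) hρ0 hρD
    rw [Complex.add_re, Complex.one_re] at h1
    have e1 : 1 - (z.re + 1) = -z.re := by ring
    rw [e1] at h1
    have hYr : Y ^ (-(z.re + 1)) * Y = Y ^ (-z.re) := by
      rw [← Real.rpow_add_one hY0.ne']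
      congr 1
      ring
    have hYr2 : Y ^ (-z.re) * Y = Y ^ (1 - z.re) := by
      rw [← Real.rpow_add_one hY0.ne']
      congr 1
      ring
    have hzl : ‖z‖ ≤ ρ * Y := by
      have : (0 : ℝ) ≤ ((K + 1 : ℕ) : ℝ) := Nat.cast_nonneg _
      linarith
    have hA : 0 ≤ Y ^ (-z.re) := Real.rpow_nonneg hY0.le _
    have hA1 : 0 ≤ Y ^ (-(z.re + 1)) := Real.rpow_nonneg hY0.le _
    have hA2 : 0 ≤ Y ^ (1 - z.re) := Real.rpow_nonneg hY0.le _
    have h3 : ‖z * ∫ x in Y..Z, Q x * (x : ℂ) ^ (-(z + 1))‖ ≤ C * (ρ * Y ^ (-z.re) + Y ^ (1 - z.re) * ρ ^ (K + 1)) := by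
      rw [norm_mul]
      calc ‖z‖ * ‖∫ x in Y..Z, Q x * (x : ℂ) ^ (-(z + 1))‖ ≤ (ρ * Y) * (C * (Y ^ (-(z.re + 1)) + Y ^ (-z.re) * ρ ^ K)) :=
            mul_le_mul hzl h1 (norm_nonneg _) (by positivity)
        _ = C * (ρ * (Y ^ (-(z.re + 1)) * Y) + (Y ^ (-z.re) * Y) * ρ ^ (K + 1)) := by ring
        _ = _ := by rw [hYr, hYr2]
    have h4 : ‖Q Z * (Z : ℂ) ^ (-z)‖ ≤ B * Y ^ (-z.re) := by
      rw [norm_mul, Complex.norm_cpow_eq_rpow_re_of_pos (by linarith), Complex.neg_re]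
      refine mul_le_mul (hB Z) ?_ (Real.rpow_nonneg (by linarith) _) hB0
      exact Real.rpow_le_rpow_of_nonpos hY0 hYZ (by linarith)
    have h5 : ‖Q Y * (Y : ℂ) ^ (-z)‖ ≤ B * Y ^ (-z.re) := by
      rw [norm_mul, Complex.norm_cpow_eq_rpow_re_of_pos hY0, Complex.neg_re]
      exact mul_le_mul_of_nonneg_right (hB Y) hA
    have h6 := norm_add_le (Q Z * (Z : ℂ) ^ (-z) - Q Y * (Y : ℂ) ^ (-z)) (z * ∫ x in Y..Z, Q x * (x : ℂ) ^ (-(z + 1)))
    have h7 := norm_sub_le (Q Z * (Z : ℂ) ^ (-z)) (Q Y * (Y : ℂ) ^ (-z))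
    have h8 : C * (ρ * Y ^ (-z.re)) ≤ C * (D * Y ^ (-z.re)) :=
      mul_le_mul_of_nonneg_left (mul_le_mul_of_nonneg_right hρD hA) hC0
    have h9 : 0 ≤ Y ^ (1 - z.re) * ρ ^ (K + 1) := by positivity
    have h10 : C * (Y ^ (1 - z.re) * ρ ^ (K + 1)) ≤ (2 * B + C * D) * (Y ^ (1 - z.re) * ρ ^ (K + 1)) := by
      refine mul_le_mul_of_nonneg_right ?_ h9
      nlinarith
    nlinarith

private theorem sum_per {N : ℕ} [NeZero N] (χ : DirichletCharacter ℂ N) (hχ : χ ≠ 1) (n : ℕ) :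
    ∑ i ∈ Finset.Icc 1 (n + N), χ i = ∑ i ∈ Finset.Icc 1 n, χ i := by
  have hN : 0 < N := Nat.pos_of_ne_zero (NeZero.ne N)
  have h0 : ∑ j : ZMod N, χ j = 0 := MulChar.sum_eq_zero_of_ne_one hχ
  have h1 : ∀ n : ℕ, ∑ i ∈ Finset.range N, χ ((n + 1 + i : ℕ) : ZMod N) = 0 := by
    intro n
    rw [← h0]
    have h2 : ∑ i ∈ Finset.range N, χ ((n + 1 + i : ℕ) : ZMod N) = ∑ j : ZMod N, χ (((n + 1 : ℕ) : ZMod N) + j) := by
      rw [← Finset.sum_coe_sort]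
      refine Fintype.sum_bijective (fun i : {i // i ∈ Finset.range N} => ((i.1 : ℕ) : ZMod N)) ?_ _ _ fun i => ?_
      · rw [Fintype.bijective_iff_injective_and_card]
        refine ⟨fun a b hab => ?_, ?_⟩
        · have h3 : (a.1 : ZMod N) = (b.1 : ZMod N) := hab
          rw [ZMod.natCast_eq_natCast_iff'] at h3
          rw [Nat.mod_eq_of_lt (Finset.mem_range.1 a.2), Nat.mod_eq_of_lt (Finset.mem_range.1 b.2)] at h3
          exact Subtype.ext h3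
        · rw [ZMod.card, Fintype.card_coe, Finset.card_range]
      · push_cast
        rfl
    rw [h2]
    exact Fintype.sum_equiv (Equiv.addLeft ((n + 1 : ℕ) : ZMod N)) _ _ fun j => rfl
  have h2 : ∀ m : ℕ, ∑ i ∈ Finset.Icc 1 (n + m), χ i = ∑ i ∈ Finset.Icc 1 n, χ i + ∑ i ∈ Finset.range m, χ ((n + 1 + i : ℕ) : ZMod N) := by
    intro m
    induction m with
    | zero => simp
    | succ m ih =>
      rw [← add_assoc, Finset.sum_Icc_succ_top (by omega), ih, Finset.sum_range_succ, add_assoc]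
      congr 3
      push_cast
      ring
  rw [h2 N, h1 n, add_zero]

private theorem sum_mod {N : ℕ} [NeZero N] (χ : DirichletCharacter ℂ N) (hχ : χ ≠ 1) (n : ℕ) :
    ∑ i ∈ Finset.Icc 1 n, χ i = ∑ i ∈ Finset.Icc 1 (n % N), χ i := by
  have h : ∀ q r : ℕ, ∑ i ∈ Finset.Icc 1 (r + q * N), χ i = ∑ i ∈ Finset.Icc 1 r, χ i := by
    intro q r
    induction q with
    | zero => simp
    | succ q ih =>
      have e1 : r + (q + 1) * N = (r + q * N) + N := by ring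
      rw [e1, sum_per χ hχ, ih]
  have h1 := h (n / N) (n % N)
  have h2 : n % N + n / N * N = n := by
    rw [mul_comm]
    exact Nat.mod_add_div n N
  rw [h2] at h1
  exact h1

private theorem gd_chi {N : ℕ} [NeZero N] (χ : DirichletCharacter ℂ N) (hχ : χ ≠ 1) : ∃ (P : ℝ → ℂ) (m : ℂ), Gd N P ∧
    ∀ x : ℝ, 0 ≤ x → ∑ i ∈ Finset.Icc 1 ⌊x⌋₊, χ i = P x + m := by
  have hN : (0 : ℝ) < N := by exact_mod_cast Nat.pos_of_ne_zero (NeZero.ne N)
  have hNz : (0 : ℤ) < N := by exact_mod_cast Nat.pos_of_ne_zero (NeZero.ne N)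
  obtain ⟨S, hS⟩ : ∃ S : ℤ → ℂ, ∀ k, S k = ∑ i ∈ Finset.Icc 1 (k % (N : ℤ)).toNat, χ i := ⟨_, fun k => rfl⟩
  obtain ⟨B, hB0, hB⟩ : ∃ B : ℝ, 0 ≤ B ∧ ∀ k, ‖S k‖ ≤ B := by
    refine ⟨∑ j ∈ Finset.range N, ‖∑ i ∈ Finset.Icc 1 j, χ i‖, Finset.sum_nonneg fun _ _ => norm_nonneg _, fun k => ?_⟩
    rw [hS]
    have h1 := Int.emod_nonneg k hNz.ne'
    have h2 := Int.emod_lt_of_pos k hNz
    exact Finset.single_le_sum (f := fun j : ℕ => ‖∑ i ∈ Finset.Icc 1 j, χ (i : ZMod N)‖) (fun _ _ => norm_nonneg _)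
      (Finset.mem_range.2 (by omega))
  have hSp : ∀ k, S (k + N) = S k := by
    intro k
    rw [hS, hS, Int.add_emod_right]
  have hSm : Measurable fun x : ℝ => S ⌊x⌋ := (measurable_of_countable S).comp Int.measurable_floor
  have hint : IntervalIntegrable (fun x : ℝ => S ⌊x⌋) volume 0 N := by
    rw [intervalIntegrable_iff]
    exact Measure.integrableOn_of_bounded (M := B) (by simp) hSm.aestronglyMeasurable (Eventually.of_forall fun x => hB _)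
  obtain ⟨m, hm⟩ : ∃ m : ℂ, m = (N : ℂ)⁻¹ * ∫ x in (0 : ℝ)..(N : ℝ), S ⌊x⌋ := ⟨_, rfl⟩
  have hN' : (N : ℂ) ≠ 0 := by exact_mod_cast NeZero.ne N
  refine ⟨fun x => S ⌊x⌋ - m, m, ⟨hSm.sub_const m, ⟨B + ‖m‖, by positivity, fun x => ?_⟩, fun x => ?_, ?_, fun x => ?_⟩, ?_⟩
  · exact (norm_sub_le _ _).trans (add_le_add (hB _) le_rfl)
  · have h1 : ⌊x + (N : ℝ)⌋ = ⌊x⌋ + N := by exact_mod_cast Int.floor_add_natCast x N
    show S ⌊x + (N : ℝ)⌋ - m = S ⌊x⌋ - m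
    rw [h1, hSp]
  · rw [intervalIntegral.integral_sub hint (continuous_const.intervalIntegrable _ _),
      intervalIntegral.integral_const, hm, sub_zero, Complex.real_smul]
    push_cast
    rw [← mul_assoc, mul_inv_cancel₀ hN', one_mul, sub_self]
  · have h1 : Tendsto (fun y : ℝ => S ⌊y⌋) (𝓝[≥] x) (pure (S ⌊x⌋)) :=
      (tendsto_pure_pure S ⌊x⌋).comp (tendsto_floor_right_pure_floor x)
    have h2 : ContinuousWithinAt (fun y : ℝ => S ⌊y⌋) (Set.Ici x) x := h1.mono_right (pure_le_nhds _)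
    exact (h2.mono Set.Ioi_subset_Ici_self).sub continuousWithinAt_const
  · intro x hx
    show _ = S ⌊x⌋ - m + m
    rw [sub_add_cancel, hS, sum_mod χ hχ]
    congr 2
    have h1 : (⌊x⌋₊ : ℤ) = ⌊x⌋ := Int.natCast_floor_eq_floor hx
    rw [← h1]
    omega

theorem lap (N : ℕ) [NeZero N] (χ : DirichletCharacter ℂ N) (hχ : χ ≠ 1) (ε : ℝ) (hε : 0 < ε) :
    ∃ C : ℝ, 0 ≤ C ∧ ∀ T : ℝ, 1 ≤ T → ∀ X : ℕ, T ^ (1 + ε) ≤ (X : ℝ) → ∀ s : ℂ, 1 / 4 ≤ s.re → s.re ≤ 4 →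
      |s.im| ≤ 64 * T →
      ‖DirichletCharacter.LFunction χ s - ∑ n ∈ Finset.Icc 1 (N * X), χ n * (n : ℂ) ^ (-s)‖ ≤ C * (X : ℝ) ^ (-s.re) := by
  obtain ⟨P, m, hP, hPm⟩ := gd_chi χ hχ
  obtain ⟨K, hK⟩ := exists_nat_ge (1 / ε)
  have hKε : 1 ≤ ε * K := by
    rw [div_le_iff₀ hε] at hK
    linarith
  obtain ⟨D, hD⟩ : ∃ D : ℝ, D = 69 + K := ⟨_, rfl⟩
  have hK0 : (0 : ℝ) ≤ K := Nat.cast_nonneg _
  have hD1 : 1 ≤ D := by linarith
  obtain ⟨C, hC0, hC⟩ := claim (N := N) K hD1 P hP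
  obtain ⟨B, hB0, hB⟩ := hP.bd
  have h0 : ∑ j : ZMod N, χ j = 0 := MulChar.sum_eq_zero_of_ne_one hχ
  refine ⟨‖m‖ + 68 * C + 68 * C * D ^ K, by positivity, fun T hT X hTX s hs1 hs4 him => ?_⟩
  have hT0 : 0 < T := by linarith
  have hTT : T ≤ T ^ (1 + ε) := by
    calc T = T ^ (1 : ℝ) := (Real.rpow_one T).symm
      _ ≤ _ := Real.rpow_le_rpow_of_exponent_le hT (by linarith)
  have hTX' : T ≤ X := hTT.trans hTX
  have hX1r : (1 : ℝ) ≤ X := by linarith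
  have hX1 : 1 ≤ X := by exact_mod_cast hX1r
  have hX0 : (0 : ℝ) < X := by linarith
  obtain ⟨Y, hY⟩ : ∃ Y : ℝ, Y = ((N * X : ℕ) : ℝ) := ⟨_, rfl⟩
  have hXY : (X : ℝ) ≤ Y := by
    rw [hY]
    exact_mod_cast Nat.le_mul_of_pos_left X (Nat.pos_of_ne_zero (NeZero.ne N))
  have hY1 : 1 ≤ Y := by linarith
  have hY0 : 0 < Y := by linarith
  have hs0 : s ≠ 0 := by
    intro h
    rw [h, Complex.zero_re] at hs1
    norm_num at hs1
  have hL := phi_int N (fun j => χ j) h0 X hX1 s (by linarith)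
  have hL' : DirichletCharacter.LFunction χ s - ∑ n ∈ Finset.Icc 1 (N * X), χ n * (n : ℂ) ^ (-s) =
      s * ∫ x in Set.Ioi Y, (∑ n ∈ Finset.Icc 1 ⌊x⌋₊, χ n) * (x : ℂ) ^ (-s - 1) := by
    rw [hY]
    show ZMod.LFunction (fun j => χ j) s - _ = _
    rw [hL]
    ring
  have hre : (-s - 1).re < -1 := by
    rw [Complex.sub_re, Complex.neg_re, Complex.one_re]
    linarith
  have hcp := integrableOn_Ioi_cpow_of_lt hre hY0
  have e1 : -(s + 1) = -s - 1 := by ring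
  have hPi : IntegrableOn (fun x : ℝ => P x * (x : ℂ) ^ (-s - 1)) (Set.Ioi Y) := by
    refine Integrable.mono' (hcp.norm.const_mul B) (hP.meas.aestronglyMeasurable.mul hcp.aestronglyMeasurable)
      (Eventually.of_forall fun x => ?_)
    rw [norm_mul]
    exact mul_le_mul_of_nonneg_right (hB x) (norm_nonneg _)
  have h1 : ∫ x in Set.Ioi Y, (∑ n ∈ Finset.Icc 1 ⌊x⌋₊, χ n) * (x : ℂ) ^ (-s - 1) =
      (∫ x in Set.Ioi Y, P x * (x : ℂ) ^ (-s - 1)) + m * ((Y : ℂ) ^ (-s) / s) := by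
    have h2 : ∫ x in Set.Ioi Y, (∑ n ∈ Finset.Icc 1 ⌊x⌋₊, χ n) * (x : ℂ) ^ (-s - 1) =
        ∫ x in Set.Ioi Y, (P x * (x : ℂ) ^ (-s - 1) + m * (x : ℂ) ^ (-s - 1)) := by
      refine setIntegral_congr_fun measurableSet_Ioi fun x hx => ?_
      have hx0 : 0 ≤ x := hY0.le.trans (le_of_lt hx)
      show (∑ n ∈ Finset.Icc 1 ⌊x⌋₊, χ n) * (x : ℂ) ^ (-s - 1) = _
      rw [hPm x hx0, add_mul]
    rw [h2, integral_add hPi (hcp.const_mul m), integral_const_mul, integral_Ioi_cpow_of_lt hre hY0]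
    have e2 : -s - 1 + 1 = -s := by ring
    rw [e2, neg_div_neg_eq]
  obtain ⟨ρ, hρ⟩ : ∃ ρ : ℝ, ρ = D * T / X := ⟨_, rfl⟩
  have hρ0 : 0 ≤ ρ := by rw [hρ]; positivity
  have hρD : ρ ≤ D := by
    rw [hρ, div_le_iff₀ hX0]
    exact mul_le_mul_of_nonneg_left hTX' (by linarith)
  have hsn : ‖s‖ ≤ 68 * T := by
    have h2 := Complex.norm_le_abs_re_add_abs_im s
    have h3 : |s.re| ≤ 4 := abs_le.2 ⟨by linarith, hs4⟩
    linarith
  have hρY : ‖s + 1‖ + K ≤ ρ * Y := by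
    have h2 := norm_add_le s 1
    rw [norm_one] at h2
    have h3 : D * T ≤ ρ * Y := by
      rw [hρ, div_mul_eq_mul_div, le_div_iff₀ hX0]
      exact mul_le_mul_of_nonneg_left hXY (by positivity)
    have h4 : (1 + (K : ℝ)) * 1 ≤ (1 + K) * T := mul_le_mul_of_nonneg_left hT (by positivity)
    have h5 : D * T = 68 * T + (1 + K) * T := by rw [hD]; ring
    linarith
  have h2 : ‖∫ x in Set.Ioi Y, P x * (x : ℂ) ^ (-s - 1)‖ ≤ C * (Y ^ (-(s.re + 1)) + Y ^ (1 - (s.re + 1)) * ρ ^ K) := by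
    have h3 := (intervalIntegral_tendsto_integral_Ioi Y hPi tendsto_id).norm
    refine le_of_tendsto h3 ((eventually_ge_atTop Y).mono fun Z hZ => ?_)
    have h4 := hC Y Z ρ (s + 1) hY1 hZ (by
      rw [Complex.add_re, Complex.one_re]
      linarith) hρY hρ0 hρD
    rw [Complex.add_re, Complex.one_re, e1] at h4
    exact h4
  have hYX : Y ^ (-s.re) ≤ (X : ℝ) ^ (-s.re) := Real.rpow_le_rpow_of_nonpos hX0 hXY (by linarith)
  have hXn : 0 ≤ (X : ℝ) ^ (-s.re) := Real.rpow_nonneg hX0.le _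
  have hYn : 0 ≤ Y ^ (-s.re) := Real.rpow_nonneg hY0.le _
  have h3 : T * Y ^ (-(s.re + 1)) ≤ (X : ℝ) ^ (-s.re) := by
    have h4 : Y ^ (-(s.re + 1)) * Y = Y ^ (-s.re) := by
      rw [← Real.rpow_add_one hY0.ne']
      congr 1
      ring
    calc T * Y ^ (-(s.re + 1)) ≤ Y * Y ^ (-(s.re + 1)) := mul_le_mul_of_nonneg_right (hTX'.trans hXY) (Real.rpow_nonneg hY0.le _)
      _ = Y ^ (-s.re) := by rw [mul_comm, h4]
      _ ≤ _ := hYX
  have h4 : T * ρ ^ K ≤ D ^ K := by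
    have h5 : T / X ≤ T ^ (-ε) := by
      rw [div_le_iff₀ hX0]
      calc T = T ^ (-ε) * T ^ (1 + ε) := by
            rw [← Real.rpow_add hT0]
            have : -ε + (1 + ε) = 1 := by ring
            rw [this, Real.rpow_one]
        _ ≤ T ^ (-ε) * X := mul_le_mul_of_nonneg_left hTX (Real.rpow_nonneg hT0.le _)
    have h6 : (T / X) ^ K ≤ T ^ (-(ε * K)) := by
      calc (T / X) ^ K ≤ (T ^ (-ε)) ^ K := pow_le_pow_left₀ (by positivity) h5 K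
        _ = T ^ (-(ε * K)) := by
            rw [← Real.rpow_natCast, ← Real.rpow_mul hT0.le]
            congr 1
            ring
    have h7 : T * T ^ (-(ε * K)) ≤ 1 := by
      have h8 : T * T ^ (-(ε * K)) = T ^ (1 + -(ε * K)) := by
        rw [Real.rpow_add hT0, Real.rpow_one]
      rw [h8]
      exact Real.rpow_le_one_of_one_le_of_nonpos hT (by linarith)
    have h8 : ρ ^ K = D ^ K * (T / X) ^ K := by
      rw [hρ, mul_div_assoc, mul_pow]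
    rw [h8]
    calc T * (D ^ K * (T / X) ^ K) = D ^ K * (T * (T / X) ^ K) := by ring
      _ ≤ D ^ K * (T * T ^ (-(ε * K))) := by gcongr
      _ ≤ D ^ K * 1 := by gcongr
      _ = D ^ K := mul_one _
  have e3 : 1 - (s.re + 1) = -s.re := by ring
  rw [e3] at h2
  have h5 : ‖s * ∫ x in Set.Ioi Y, P x * (x : ℂ) ^ (-s - 1)‖ ≤ (68 * C + 68 * C * D ^ K) * (X : ℝ) ^ (-s.re) := by
    rw [norm_mul]
    calc ‖s‖ * ‖∫ x in Set.Ioi Y, P x * (x : ℂ) ^ (-s - 1)‖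
        ≤ (68 * T) * (C * (Y ^ (-(s.re + 1)) + Y ^ (-s.re) * ρ ^ K)) :=
          mul_le_mul hsn h2 (norm_nonneg _) (by positivity)
      _ = 68 * C * (T * Y ^ (-(s.re + 1))) + 68 * C * (Y ^ (-s.re) * (T * ρ ^ K)) := by ring
      _ ≤ 68 * C * (X : ℝ) ^ (-s.re) + 68 * C * ((X : ℝ) ^ (-s.re) * D ^ K) := by gcongr
      _ = _ := by ring
  have h6 : ‖s * (m * ((Y : ℂ) ^ (-s) / s))‖ ≤ ‖m‖ * (X : ℝ) ^ (-s.re) := by
    have h7 : s * (m * ((Y : ℂ) ^ (-s) / s)) = m * (Y : ℂ) ^ (-s) := by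
      field_simp
    rw [h7, norm_mul, Complex.norm_cpow_eq_rpow_re_of_pos hY0, Complex.neg_re]
    exact mul_le_mul_of_nonneg_left hYX (norm_nonneg _)
  rw [hL', h1, mul_add]
  refine (norm_add_le _ _).trans ?_
  calc _ ≤ (68 * C + 68 * C * D ^ K) * (X : ℝ) ^ (-s.re) + ‖m‖ * (X : ℝ) ^ (-s.re) := add_le_add h5 h6
    _ = _ := by ring

end Pool.Agent.H50.RQ
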