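import Pool.Agent.H50.RQ.Xl
import Pool.Agent.H50.RL.Pf1

/-!
[H50 RQ LC] Zeros of `L(s, χ)` in a window of height 2: at most `C log T` with multiplicity.

PROOF. Copy `Pool/Agent/H50/RL/Cl1.lean` (`local_count`; copy its private lemma `jen_prod`). `F z = L(c + z, χ)`, `c = 2 + iT`, entire. Upper bound on `‖z‖ = 19/10`: `Re ≥ 1/10 ≥ 1/16`,
`phi_ub` (RQ/Xu) with `Φ = χ` (`DirichletCharacter.LFunction χ = ZMod.LFunction χ`, `χ.sum_eq_zero_of_ne_one`): `‖F z‖ ≤ C1 (1 + 4 + T + 2) ≤ 3 C1 T`. Lower bound: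
`‖L(c, χ)‖ ≥ 1 - Σ_{n ≥ 2} n^(-2) ≥ 1/4` (see `cl_two` there; `LFunction_eq_LSeries`, `‖χ n‖ ≤ 1`, `χ 1 = 1`). The orders: `analyticOrderAt_comp_of_deriv_ne_zero` as in `ff_ord`.
-/

set_option autoImplicit false

namespace Pool.Agent.H50.RQ

open MeasureTheory Filter Topology
open Pool.Agent.H50.RL (SC Lp Lf Wk Ft)

/-- Jensen's inequality in the form of a product. -/
private theorem jen_prod {f : ℂ → ℂ} (hf : Differentiable ℂ f) (h0 : f 0 ≠ 0) {R R1 M : ℝ} (hR1 : 0 < R1)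
    (hRR : R1 < R) (hM : ∀ z : ℂ, ‖z‖ = R → ‖f z‖ ≤ M) (S : Finset ℂ)
    (hS : ∀ ρ ∈ S, f ρ = 0 ∧ ‖ρ‖ ≤ R1) :
    (R / R1) ^ (∑ ρ ∈ S, analyticOrderNatAt f ρ) * ‖f 0‖ ≤ M := by
  classical
  have hR : 0 < R := hR1.trans hRR
  obtain ⟨Z, h, hZ, hd, -, hfac⟩ := RL.pf_factor f hf h0 R
  have hne : ∀ ρ ∈ Z, ρ ≠ 0 := by
    intro ρ hρ h1
    rw [h1] at hρ
    exact h0 ((hZ 0).1 hρ).1
  have hf0 : f 0 = h 0 := by
    rw [hfac 0]
    have h1 : ∏ ρ ∈ Z, (1 - (0 : ℂ) / ρ) ^ analyticOrderNatAt f ρ = 1 := by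
      refine Finset.prod_eq_one fun ρ _ => ?_
      rw [zero_div, sub_zero, one_pow]
    rw [h1, one_mul]
  obtain ⟨G, hG⟩ : ∃ G : ℂ → ℂ, G = fun z =>
      (∏ ρ ∈ Z, (((R : ℂ) ^ 2 - (starRingEnd ℂ) ρ * z) / (R * ρ)) ^ analyticOrderNatAt f ρ) * h z := ⟨_, rfl⟩
  have hGd : Differentiable ℂ G := by
    rw [hG]
    refine Differentiable.mul ?_ hd
    refine Differentiable.fun_finsetProd fun ρ _ => ?_
    exact (((differentiable_const _).sub ((differentiable_const _).mul differentiable_id)).div_const _).pow _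
  have hcirc : ∀ z : ℂ, ‖z‖ = R → ‖G z‖ = ‖f z‖ := by
    intro z hz
    rw [hG, hfac z]
    simp only []
    rw [norm_mul, norm_mul, norm_prod, norm_prod]
    congr 1
    refine Finset.prod_congr rfl fun ρ hρ => ?_
    rw [norm_pow, norm_pow]
    congr 1
    have hρ0 : ρ ≠ 0 := hne ρ hρ
    have hzz : (R : ℂ) ^ 2 = (starRingEnd ℂ) z * z := by
      rw [Complex.conj_mul', hz]
    have h1 : (R : ℂ) ^ 2 - (starRingEnd ℂ) ρ * z = (starRingEnd ℂ) (z - ρ) * z := by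
      rw [hzz, map_sub]
      ring
    have h2 : 1 - z / ρ = -((z - ρ) / ρ) := by
      field_simp
      ring
    have hρn : ‖ρ‖ ≠ 0 := norm_ne_zero_iff.2 hρ0
    rw [h1, h2, norm_neg, norm_div, norm_div, norm_mul, norm_mul, Complex.norm_conj, hz, Complex.norm_real,
      Real.norm_eq_abs, abs_of_pos hR]
    field_simp
  have hmax : ‖G 0‖ ≤ M := by
    have h1 : DiffContOnCl ℂ G (Metric.ball 0 R) := hGd.diffContOnCl
    refine Complex.norm_le_of_forall_mem_frontier_norm_le Metric.isBounded_ball h1 ?_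
      (subset_closure (Metric.mem_ball_self hR))
    intro z hz
    rw [frontier_ball (0 : ℂ) hR.ne', mem_sphere_zero_iff_norm] at hz
    rw [hcirc z hz]
    exact hM z hz
  have hG0 : ‖G 0‖ = (∏ ρ ∈ Z, (R / ‖ρ‖) ^ analyticOrderNatAt f ρ) * ‖f 0‖ := by
    rw [hG, hf0]
    simp only []
    rw [norm_mul, norm_prod]
    congr 1
    refine Finset.prod_congr rfl fun ρ hρ => ?_
    rw [norm_pow]
    congr 1
    have hρn : ‖ρ‖ ≠ 0 := norm_ne_zero_iff.2 (hne ρ hρ)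
    rw [mul_zero, sub_zero, norm_div, norm_mul, norm_pow, Complex.norm_real, Real.norm_eq_abs, abs_of_pos hR]
    field_simp
  rw [hG0] at hmax
  refine le_trans ?_ hmax
  refine mul_le_mul_of_nonneg_right ?_ (norm_nonneg _)
  rw [← Finset.prod_pow_eq_pow_sum]
  have hSZ : Z ∩ S = S := by
    refine Finset.inter_eq_right.2 fun ρ hρ => ?_
    exact (hZ ρ).2 ⟨(hS ρ hρ).1, (hS ρ hρ).2.trans hRR.le⟩
  have h1 : ∏ ρ ∈ S, (R / R1) ^ analyticOrderNatAt f ρ =
      ∏ ρ ∈ Z, (if ρ ∈ S then (R / R1) ^ analyticOrderNatAt f ρ else 1) := by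
    rw [Finset.prod_ite_mem, hSZ]
  rw [h1]
  refine Finset.prod_le_prod ?_ ?_
  · intro ρ _
    split_ifs
    · positivity
    · exact zero_le_one
  · intro ρ hρ
    have hρn : 0 < ‖ρ‖ := norm_pos_iff.2 (hne ρ hρ)
    split_ifs with hρS
    · refine pow_le_pow_left₀ (by positivity) ?_ _
      exact div_le_div_of_nonneg_left hR.le hρn (hS ρ hρS).2
    · refine one_le_pow₀ ?_
      rw [one_le_div hρn]
      exact ((hZ ρ).1 hρ).2

open Complex in
private theorem lx_two (N : ℕ) [NeZero N] (χ : DirichletCharacter ℂ N) (t : ℝ) :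
    1 / 4 ≤ ‖DirichletCharacter.LFunction χ (2 + I * t)‖ := by
  have hre : (2 + I * (t : ℂ)).re = 2 := by simp
  have h1 : 1 < (2 + I * (t : ℂ)).re := by
    rw [hre]
    norm_num
  rw [DirichletCharacter.LFunction_eq_LSeries χ h1]
  unfold LSeries
  obtain ⟨a, ha⟩ : ∃ a : ℕ → ℂ, a = fun n : ℕ => LSeries.term (fun n => χ n) (2 + I * (t : ℂ)) n := ⟨_, rfl⟩
  have hnorm : ∀ n : ℕ, ‖a n‖ ≤ 1 / (n : ℝ) ^ 2 := by
    intro n
    rw [ha]
    simp only []
    rw [LSeries.norm_term_eq]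
    split_ifs with hn
    · positivity
    · rw [hre, Real.rpow_two]
      exact div_le_div_of_nonneg_right (χ.norm_le_one _) (by positivity)
  have ha0 : a 0 = 0 := by
    rw [ha]
    simp only []
    exact LSeries.term_zero _ _
  have ha1 : a 1 = 1 := by
    rw [ha]
    simp only []
    rw [LSeries.term_of_ne_zero one_ne_zero]
    simp
  have hs2 : Summable (fun n : ℕ => 1 / (n : ℝ) ^ 2) := hasSum_zeta_two.summable
  have hs : Summable a := Summable.of_norm_bounded hs2 hnorm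
  have hs3 : Summable (fun n => a (n + 1)) := (summable_nat_add_iff 1).2 hs
  have e1 : (∑' n : ℕ, LSeries.term (fun n => χ n) (2 + I * (t : ℂ)) n) = 1 + ∑' n : ℕ, a (n + 1 + 1) := by
    have h2 : (∑' n : ℕ, LSeries.term (fun n => χ n) (2 + I * (t : ℂ)) n) = ∑' n, a n := by rw [ha]
    rw [h2, hs.tsum_eq_zero_add, ha0, zero_add, hs3.tsum_eq_zero_add]
    simp only [zero_add]
    rw [ha1]
  have htail : ‖∑' n : ℕ, a (n + 1 + 1)‖ ≤ 3 / 4 := by
    have hs4 : Summable (fun n : ℕ => 1 / ((n + 1 : ℕ) : ℝ) ^ 2) := (summable_nat_add_iff 1).2 hs2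
    have hs5 : Summable (fun n : ℕ => 1 / ((n + 1 + 1 : ℕ) : ℝ) ^ 2) := (summable_nat_add_iff 1).2 hs4
    refine (tsum_of_norm_bounded hs5.hasSum fun n => hnorm (n + 1 + 1)).trans ?_
    have h4 := hs2.tsum_eq_zero_add
    rw [hasSum_zeta_two.tsum_eq, hs4.tsum_eq_zero_add] at h4
    have h7 : (1 : ℝ) / ((0 : ℕ) : ℝ) ^ 2 = 0 := by norm_num
    have h9 : (1 : ℝ) / ((0 + 1 : ℕ) : ℝ) ^ 2 = 1 := by norm_num
    rw [h7, h9] at h4
    have h8 : Real.pi ^ 2 ≤ 9.9225 := by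
      have := Real.pi_lt_d2
      have := Real.pi_pos
      nlinarith
    linarith
  rw [e1]
  have h9 : ‖(1 : ℂ)‖ - ‖∑' n : ℕ, a (n + 1 + 1)‖ ≤ ‖1 + ∑' n : ℕ, a (n + 1 + 1)‖ := norm_sub_le_norm_add _ _
  rw [norm_one] at h9
  linarith

private theorem lx_ord {F : ℂ → ℂ} (c ρ : ℂ) :
    analyticOrderNatAt (fun z => F (c + z)) (ρ - c) = analyticOrderNatAt F ρ := by
  unfold analyticOrderNatAt
  have hg : AnalyticAt ℂ (fun z : ℂ => c + z) (ρ - c) := by fun_prop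
  have hd : deriv (fun z : ℂ => c + z) (ρ - c) ≠ 0 := by
    have h1 : HasDerivAt (fun z : ℂ => c + z) 1 (ρ - c) := (hasDerivAt_id _).const_add c
    rw [h1.deriv]
    exact one_ne_zero
  have h1 := analyticOrderAt_comp_of_deriv_ne_zero (f := F) hg hd
  rw [add_sub_cancel] at h1
  rw [← h1]
  rfl

theorem local_countX (N : ℕ) [NeZero N] (χ : DirichletCharacter ℂ N) (hχ : χ ≠ 1) : ∃ C : ℝ, 0 < C ∧ ∀ T : ℝ, 4 ≤ T →
    ∀ Z : Finset (lfx N χ hχ).Z, (∀ ρ ∈ Z, 1 / 2 ≤ (ρ : ℂ).re ∧ |(ρ : ℂ).im - T| ≤ 1) →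
    ∑ ρ ∈ Z, (lfx N χ hχ).m ρ ≤ C * Real.log T := by
  classical
  obtain ⟨C1, hC1, hup⟩ := phi_ub N (fun j => χ j) (MulChar.sum_eq_zero_of_ne_one hχ)
  have hq : 0 < Real.log ((19 / 10) / (181 / 100)) := Real.log_pos (by norm_num)
  refine ⟨(|Real.log (12 * C1)| + 1) / Real.log ((19 / 10) / (181 / 100)), by positivity, ?_⟩
  intro T hT Z hZ
  obtain ⟨F, hFdef⟩ : ∃ F : ℂ → ℂ, F = DirichletCharacter.LFunction χ := ⟨_, rfl⟩
  obtain ⟨c, hc⟩ : ∃ c : ℂ, c = 2 + Complex.I * T := ⟨_, rfl⟩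
  have hcre : c.re = 2 := by rw [hc]; simp
  have hcim : c.im = T := by rw [hc]; simp
  have hFd : Differentiable ℂ F := by
    rw [hFdef]
    exact DirichletCharacter.differentiable_LFunction hχ
  have hF : Differentiable ℂ (fun z => F (c + z)) := hFd.comp ((differentiable_const _).add differentiable_id)
  have hlow : 1 / 4 ≤ ‖F (c + 0)‖ := by
    rw [add_zero, hFdef, hc]
    exact lx_two N χ T
  have hM : ∀ z : ℂ, ‖z‖ = 19 / 10 → ‖F (c + z)‖ ≤ 3 * C1 * T := by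
    intro z hz
    have hre := Complex.abs_re_le_norm z
    have him := Complex.abs_im_le_norm z
    rw [hz, abs_le] at hre him
    have hsre : (c + z).re = 2 + z.re := by rw [Complex.add_re, hcre]
    have hsim : (c + z).im = T + z.im := by rw [Complex.add_im, hcim]
    have h1 : ‖F (c + z)‖ ≤ C1 * (1 + ‖c + z‖) := by
      rw [hFdef]
      exact hup (c + z) (by rw [hsre]; linarith [hre.1])
    have h2 : ‖c + z‖ ≤ T + 6 := by
      have h3 : ‖c + z‖ ≤ |(c + z).re| + |(c + z).im| := Complex.norm_le_abs_re_add_abs_im _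
      rw [hsre, hsim] at h3
      have h4 : |2 + z.re| ≤ 4 := by
        rw [abs_le]
        constructor <;> linarith [hre.1, hre.2]
      have h5 : |T + z.im| ≤ T + 2 := by
        rw [abs_le]
        constructor <;> linarith [him.1, him.2]
      linarith
    refine h1.trans ?_
    have h6 : C1 * (1 + ‖c + z‖) ≤ C1 * (3 * T) := mul_le_mul_of_nonneg_left (by linarith) hC1.le
    linarith
  obtain ⟨S, hS⟩ : ∃ S : Finset ℂ, S = Z.image (fun ρ : (lfx N χ hχ).Z => (ρ : ℂ) - c) := ⟨_, rfl⟩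
  have hinj : Set.InjOn (fun ρ : (lfx N χ hχ).Z => (ρ : ℂ) - c) Z := by
    intro a _ b _ hab
    exact Subtype.ext (sub_left_injective hab)
  have hS1 : ∀ w ∈ S, F (c + w) = 0 ∧ ‖w‖ ≤ 181 / 100 := by
    intro w hw
    rw [hS, Finset.mem_image] at hw
    obtain ⟨ρ, hρ, rfl⟩ := hw
    refine ⟨?_, ?_⟩
    · rw [add_sub_cancel, hFdef]
      exact ρ.2
    · obtain ⟨h1, h2⟩ := hZ ρ hρ
      have h3 : (ρ : ℂ).re < 1 := by
        by_contra h
        exact (lfx N χ hχ).ne ρ (not_lt.1 h) ρ.2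
      rw [abs_le] at h2
      have h4 : ‖(ρ : ℂ) - c‖ ^ 2 ≤ (181 / 100) ^ 2 := by
        rw [← Complex.normSq_eq_norm_sq, Complex.normSq_apply, Complex.sub_re, Complex.sub_im, hcre, hcim]
        have h5 : ((ρ : ℂ).re - 2) * ((ρ : ℂ).re - 2) ≤ 9 / 4 := by nlinarith
        have h6 : ((ρ : ℂ).im - T) * ((ρ : ℂ).im - T) ≤ 1 := by nlinarith
        linarith
      exact (pow_le_pow_iff_left₀ (norm_nonneg _) (by norm_num) two_ne_zero).1 h4
  have hJ := jen_prod hF (by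
    intro h
    rw [h, norm_zero] at hlow
    linarith) (R := 19 / 10) (R1 := 181 / 100) (by norm_num) (by norm_num) hM S hS1
  have hsum : ∑ ρ ∈ Z, (lfx N χ hχ).m ρ =
      ((∑ w ∈ S, analyticOrderNatAt (fun z => F (c + z)) w : ℕ) : ℝ) := by
    rw [hS, Finset.sum_image hinj, Nat.cast_sum]
    refine Finset.sum_congr rfl fun ρ _ => ?_
    rw [lx_ord, hFdef]
    rfl
  rw [hsum]
  obtain ⟨n, hn⟩ : ∃ n, n = ∑ w ∈ S, analyticOrderNatAt (fun z => F (c + z)) w := ⟨_, rfl⟩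
  rw [← hn] at hJ ⊢
  have hJ2 : ((19 / 10) / (181 / 100) : ℝ) ^ n ≤ 12 * C1 * T := by
    have hp : (0 : ℝ) ≤ ((19 / 10) / (181 / 100) : ℝ) ^ n := by positivity
    have h1 := mul_le_mul_of_nonneg_left hlow hp
    linarith
  have hJ3 := Real.log_le_log (by positivity) hJ2
  have hlT : 1 ≤ Real.log T := by
    rw [Real.le_log_iff_exp_le (by linarith)]
    linarith [Real.exp_one_lt_d9]
  rw [Real.log_pow, Real.log_mul (by positivity) (by linarith)] at hJ3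
  rw [div_mul_eq_mul_div, le_div_iff₀ hq]
  refine hJ3.trans ?_
  have h7 : Real.log (12 * C1) ≤ |Real.log (12 * C1)| * Real.log T :=
    (le_abs_self _).trans (le_mul_of_one_le_right (abs_nonneg _) hlT)
  linarith

end Pool.Agent.H50.RQ
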