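import Pool.Agent.H50.RQ.Lz1
import Pool.Agent.H50.RL.Pf4

/-!
[H50 RQ LZ2] Partial fractions of `F'/F` on `Re s > 1`.

PROOF. Copy `log_zeta` of `Pool/Agent/H50/RL/Lz.lean` (there `FF` instead of `L.F`). On `Re s > 1`, `‖s - ρ‖ ≥ Re s - 1 > 0` (`re_lt`) and
`1/(s-ρ) - 1/(2-ρ) = (2-s)/((s-ρ)(2-ρ))`, summable by `s_one` with `b = 2` (compare; finitely many `ρ` with `‖ρ‖ ≤ 2‖s‖ + 4`, `zfin`).
`H s = Σ' m (1/(s-ρ) - 1/(2-ρ))` has derivative `-Σ' m/(s-ρ)^2` on the half plane. `G = logDeriv L.F` has the same derivative: `pf_main` for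
`f z = L.F (z + 2)`, `a = 3/2` (zeros `ρ - 2`, same orders, as in `Lz1`; you may make that transport a public lemma there), at `z = s - 2`.
So `G - H` is constant on the convex open set `Re s > 1`: `= -C0`.
-/

set_option autoImplicit false

namespace Pool.Agent.H50.RQ

open MeasureTheory Filter Topology
open Pool.Agent.H50.RL (SC Lp Lf Wk Ft)

/-- the translated function -/
private def yzf (L : LF) : ℂ → ℂ := L.F ∘ fun z => z + 2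

private theorem yzf_apply (L : LF) (z : ℂ) : yzf L z = L.F (z + 2) := rfl

private theorem yzf_diff (L : LF) : Differentiable ℂ (yzf L) :=
  L.diff.comp (differentiable_id.add_const 2)

private theorem yz_two (L : LF) : L.F 2 ≠ 0 := by
  refine L.ne 2 ?_
  norm_num

private theorem yzf_zero (L : LF) : yzf L 0 ≠ 0 := by
  rw [yzf_apply, zero_add]
  exact yz_two L

private theorem yz_order (L : LF) (ρ : ℂ) : analyticOrderNatAt (yzf L) (ρ - 2) = analyticOrderNatAt L.F ρ := by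
  have h1 : AnalyticAt ℂ (fun z : ℂ => z + 2) (ρ - 2) := analyticAt_id.add analyticAt_const
  have h2 : deriv (fun z : ℂ => z + 2) (ρ - 2) ≠ 0 := by
    rw [deriv_add_const]
    have h3 : deriv (fun z : ℂ => z) (ρ - 2) = 1 := deriv_id _
    rw [h3]
    exact one_ne_zero
  have h3 := analyticOrderAt_comp_of_deriv_ne_zero (f := L.F) h1 h2
  unfold analyticOrderNatAt
  show (analyticOrderAt (L.F ∘ fun z => z + 2) (ρ - 2)).toNat = _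
  rw [h3, sub_add_cancel]

/-- the translation of the zeros -/
private def yz_equiv (L : LF) : L.Z ≃ {z : ℂ // yzf L z = 0} where
  toFun ρ := ⟨(ρ : ℂ) - 2, by rw [yzf_apply, sub_add_cancel]; exact ρ.2⟩
  invFun z := ⟨(z : ℂ) + 2, z.2⟩
  left_inv ρ := Subtype.ext (sub_add_cancel _ _)
  right_inv z := Subtype.ext (add_sub_cancel_right _ _)

private theorem yz_coe (L : LF) (ρ : L.Z) : ((yz_equiv L ρ : {z : ℂ // yzf L z = 0}) : ℂ) = (ρ : ℂ) - 2 := rfl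

private theorem yz_grow (L : LF) (a : ℝ) (ha : 1 < a) : ∃ C : ℝ, ∀ z, ‖yzf L z‖ ≤ Real.exp (C * (1 + ‖z‖) ^ a) := by
  obtain ⟨C, hC⟩ := L.grow a ha
  refine ⟨|C| * 3 ^ a, fun z => ?_⟩
  rw [yzf_apply]
  refine (hC (z + 2)).trans (Real.exp_le_exp.2 ?_)
  have h1 : ‖z + 2‖ ≤ ‖z‖ + 2 := by
    have h := norm_add_le z 2
    rwa [Complex.norm_ofNat] at h
  have h2 : (1 + ‖z + 2‖) ^ a ≤ (3 * (1 + ‖z‖)) ^ a := by
    refine Real.rpow_le_rpow (by positivity) ?_ (by linarith)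
    nlinarith [norm_nonneg z]
  rw [Real.mul_rpow (by norm_num) (by positivity)] at h2
  calc C * (1 + ‖z + 2‖) ^ a ≤ |C| * (1 + ‖z + 2‖) ^ a :=
        mul_le_mul_of_nonneg_right (le_abs_self C) (by positivity)
    _ ≤ |C| * (3 ^ a * (1 + ‖z‖) ^ a) := mul_le_mul_of_nonneg_left h2 (abs_nonneg C)
    _ = _ := by ring

private theorem y_two (L : LF) : Summable fun ρ : L.Z => L.m ρ / ‖(ρ : ℂ) - 2‖ ^ 2 := by
  obtain ⟨C, hC⟩ := yz_grow L (3 / 2) (by norm_num)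
  have h := RL.pf_summ (yzf L) (yzf_diff L) (yzf_zero L) (3 / 2) C (by norm_num) hC 2 (by norm_num)
  have h2 := (yz_equiv L).summable_iff.2 h
  refine h2.congr fun ρ => ?_
  show (analyticOrderNatAt (yzf L) ((ρ : ℂ) - 2) : ℝ) / ‖(ρ : ℂ) - 2‖ ^ (2 : ℝ) = L.m ρ / ‖(ρ : ℂ) - 2‖ ^ 2
  rw [yz_order, show ((2 : ℝ)) = ((2 : ℕ) : ℝ) by norm_num, Real.rpow_natCast]
  rfl

private theorem ydpos (L : LF) {s : ℂ} (ρ : L.Z) : s.re - 1 ≤ ‖s - (ρ : ℂ)‖ := by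
  have h1 := Complex.re_le_norm (s - (ρ : ℂ))
  rw [Complex.sub_re] at h1
  have h2 := L.re_lt ρ
  linarith

private theorem ysne (L : LF) {s : ℂ} (hs : 1 < s.re) (ρ : L.Z) : s - (ρ : ℂ) ≠ 0 := by
  intro h
  have h1 := ydpos L (s := s) ρ
  rw [h, norm_zero] at h1
  linarith

private theorem ypos2 (L : LF) (ρ : L.Z) : 0 < ‖(ρ : ℂ) - 2‖ := by
  have h1 : (1 : ℝ) < (2 : ℂ).re := by norm_num
  have h2 := norm_pos_iff.2 (ysne L h1 ρ)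
  rwa [norm_sub_rev] at h2

/-- the distance to a zero is comparable to the size of the zero -/
private theorem ycmp (L : LF) {s : ℂ} {δ R : ℝ} (hδ : 0 < δ) (hs : 1 + δ ≤ s.re) (hR : ‖s - 2‖ ≤ R) (ρ : L.Z) :
    ‖(ρ : ℂ) - 2‖ ≤ (1 + R / δ) * ‖s - (ρ : ℂ)‖ := by
  have h1 := ydpos L (s := s) ρ
  have h2 : ‖(ρ : ℂ) - 2‖ ≤ ‖s - 2‖ + ‖s - (ρ : ℂ)‖ := by
    have := norm_sub_le (s - 2) (s - (ρ : ℂ))
    rwa [sub_sub_sub_cancel_left] at this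
  have h3 : ‖s - 2‖ ≤ R / δ * ‖s - (ρ : ℂ)‖ := by
    have hR0 : 0 ≤ R := (norm_nonneg _).trans hR
    calc ‖s - 2‖ ≤ R := hR
      _ = R / δ * δ := by field_simp
      _ ≤ R / δ * ‖s - (ρ : ℂ)‖ := mul_le_mul_of_nonneg_left (by linarith) (by positivity)
  linarith

private theorem yinv_le (L : LF) {s : ℂ} {δ R : ℝ} (hδ : 0 < δ) (hs : 1 + δ ≤ s.re) (hR : ‖s - 2‖ ≤ R) (ρ : L.Z) :
    1 / ‖s - (ρ : ℂ)‖ ≤ (1 + R / δ) / ‖(ρ : ℂ) - 2‖ := by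
  have h0 := ypos2 L ρ
  have h1 : 0 < ‖s - (ρ : ℂ)‖ := norm_pos_iff.2 (ysne L (by linarith) ρ)
  rw [div_le_div_iff₀ h1 h0, one_mul]
  exact ycmp L hδ hs hR ρ

private theorem ym0 (L : LF) (ρ : L.Z) : 0 ≤ L.m ρ := zero_le_one.trans (L.one_le ρ)

private theorem ysm (L : LF) {s : ℂ} (hs : 1 < s.re) :
    Summable fun ρ : L.Z => L.m ρ * ‖1 / (s - (ρ : ℂ)) - 1 / (2 - (ρ : ℂ))‖ := by
  obtain ⟨c1, hc1⟩ : ∃ c1, c1 = 1 + ‖s - 2‖ / (s.re - 1) := ⟨_, rfl⟩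
  have h20 : (1 : ℝ) < (2 : ℂ).re := by norm_num
  have hp1 : 0 ≤ c1 := by
    rw [hc1]
    have : 0 < s.re - 1 := by linarith
    positivity
  refine Summable.of_nonneg_of_le (fun ρ => mul_nonneg (ym0 L ρ) (norm_nonneg _)) ?_ ((y_two L).mul_left (‖2 - s‖ * c1))
  intro ρ
  have h1 : 1 / ‖s - (ρ : ℂ)‖ ≤ c1 / ‖(ρ : ℂ) - 2‖ := by
    rw [hc1]
    exact yinv_le L (by linarith) (by linarith) le_rfl ρ
  have h2 : 1 / ‖(2 : ℂ) - (ρ : ℂ)‖ = 1 / ‖(ρ : ℂ) - 2‖ := by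
    rw [norm_sub_rev]
  have h3 : 1 / (s - (ρ : ℂ)) - 1 / (2 - (ρ : ℂ)) = (2 - s) * (1 / (s - (ρ : ℂ))) * (1 / (2 - (ρ : ℂ))) := by
    have := ysne L hs ρ
    have := ysne L h20 ρ
    field_simp
    ring
  have hp2 := ypos2 L ρ
  have h4 : ‖1 / (s - (ρ : ℂ)) - 1 / (2 - (ρ : ℂ))‖ ≤ ‖2 - s‖ * (c1 / ‖(ρ : ℂ) - 2‖) * (1 / ‖(ρ : ℂ) - 2‖) := by
    rw [h3, norm_mul, norm_mul, norm_div, norm_div, norm_one, h2]
    have h5 : 0 ≤ c1 / ‖(ρ : ℂ) - 2‖ := div_nonneg hp1 (norm_nonneg _)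
    gcongr
  calc L.m ρ * ‖1 / (s - (ρ : ℂ)) - 1 / (2 - (ρ : ℂ))‖ ≤
        L.m ρ * (‖2 - s‖ * (c1 / ‖(ρ : ℂ) - 2‖) * (1 / ‖(ρ : ℂ) - 2‖)) := mul_le_mul_of_nonneg_left h4 (ym0 L ρ)
    _ = ‖2 - s‖ * c1 * (L.m ρ / ‖(ρ : ℂ) - 2‖ ^ 2) := by
      field_simp

/-- the series -/
private noncomputable def YH (L : LF) (s : ℂ) : ℂ :=
  ∑' ρ : L.Z, (L.m ρ : ℂ) * (1 / (s - (ρ : ℂ)) - 1 / (2 - (ρ : ℂ)))

private theorem YH_deriv (L : LF) {s : ℂ} (hs : 1 < s.re) :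
    HasDerivAt (YH L) (∑' ρ : L.Z, (L.m ρ : ℂ) * (-1 / (s - (ρ : ℂ)) ^ 2)) s := by
  obtain ⟨r, hr⟩ : ∃ r : ℝ, r = (s.re - 1) / 2 := ⟨_, rfl⟩
  have hr0 : 0 < r := by rw [hr]; linarith
  have hre : ∀ w ∈ Metric.ball s r, 1 + r ≤ w.re := by
    intro w hw
    rw [mem_ball_iff_norm] at hw
    have h1 := (abs_le.1 (Complex.abs_re_le_norm (w - s))).1
    rw [Complex.sub_re] at h1
    linarith
  have hno : ∀ w ∈ Metric.ball s r, ‖w - 2‖ ≤ ‖s - 2‖ + r := by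
    intro w hw
    rw [mem_ball_iff_norm] at hw
    have h1 := norm_add_le (w - s) (s - 2)
    rw [sub_add_sub_cancel] at h1
    linarith
  obtain ⟨c, hc⟩ : ∃ c : ℝ, c = 1 + (‖s - 2‖ + r) / r := ⟨_, rfl⟩
  have hc0 : 0 ≤ c := by rw [hc]; positivity
  refine hasDerivAt_tsum_of_isPreconnected (g := fun (ρ : L.Z) (w : ℂ) => (L.m ρ : ℂ) * (1 / (w - (ρ : ℂ)) - 1 / (2 - (ρ : ℂ))))
    (g' := fun (ρ : L.Z) (w : ℂ) => (L.m ρ : ℂ) * (-1 / (w - (ρ : ℂ)) ^ 2)) (t := Metric.ball s r) (y₀ := s)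
    ((y_two L).mul_left (c ^ 2)) Metric.isOpen_ball (convex_ball s r).isPreconnected ?_ ?_ (Metric.mem_ball_self hr0) ?_
    (Metric.mem_ball_self hr0)
  · intro ρ w hw
    have h1 : w - (ρ : ℂ) ≠ 0 := ysne L (by linarith [hre w hw]) ρ
    have h2 : HasDerivAt (fun w : ℂ => w - (ρ : ℂ)) 1 w := (hasDerivAt_id w).sub_const _
    have h3 : HasDerivAt (fun w : ℂ => 1 / (w - (ρ : ℂ))) (-1 / (w - (ρ : ℂ)) ^ 2) w := by
      have h4 := h2.inv h1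
      simp only [one_div]
      exact h4
    exact (h3.sub_const _).const_mul _
  · intro ρ w hw
    have h0 : ‖(ρ : ℂ) - 2‖ ≠ 0 := (ypos2 L ρ).ne'
    have h1 : 1 / ‖w - (ρ : ℂ)‖ ≤ c / ‖(ρ : ℂ) - 2‖ := by
      rw [hc]
      exact yinv_le L hr0 (hre w hw) (hno w hw) ρ
    have h2 : ‖(L.m ρ : ℂ) * (-1 / (w - (ρ : ℂ)) ^ 2)‖ = L.m ρ * (1 / ‖w - (ρ : ℂ)‖) ^ 2 := by
      rw [norm_mul, Complex.norm_real, Real.norm_of_nonneg (ym0 L ρ), norm_div, norm_neg, norm_one, norm_pow, one_div_pow]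
    show ‖(L.m ρ : ℂ) * (-1 / (w - (ρ : ℂ)) ^ 2)‖ ≤ _
    rw [h2]
    calc L.m ρ * (1 / ‖w - (ρ : ℂ)‖) ^ 2 ≤ L.m ρ * (c / ‖(ρ : ℂ) - 2‖) ^ 2 :=
          mul_le_mul_of_nonneg_left (pow_le_pow_left₀ (by positivity) h1 2) (ym0 L ρ)
      _ = c ^ 2 * (L.m ρ / ‖(ρ : ℂ) - 2‖ ^ 2) := by field_simp
  · refine Summable.of_norm ?_
    refine (ysm L hs).congr fun ρ => ?_
    rw [norm_mul, Complex.norm_real, Real.norm_of_nonneg (ym0 L ρ)]

private theorem YG_deriv (L : LF) {s : ℂ} (hs : 1 < s.re) :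
    HasDerivAt (logDeriv L.F) (∑' ρ : L.Z, (L.m ρ : ℂ) * (-1 / (s - (ρ : ℂ)) ^ 2)) s := by
  have hne : L.F s ≠ 0 := L.ne s hs.le
  have hne' : yzf L (s - 2) ≠ 0 := by
    rw [yzf_apply, sub_add_cancel]
    exact hne
  obtain ⟨C, hC⟩ := yz_grow L (3 / 2) (by norm_num)
  have h1 := RL.pf_main (yzf L) (yzf_diff L) (yzf_zero L) (3 / 2) C (by norm_num) (by norm_num) hC (s - 2) hne'
  have h2 : DifferentiableAt ℂ (logDeriv L.F) s :=
    ((L.diff.analyticAt s).deriv.differentiableAt).div (L.diff s) hne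
  have h3 := h2.hasDerivAt
  have h6 : logDeriv (yzf L) = fun z => logDeriv L.F (z + 2) := by
    funext z
    have h7 : deriv (yzf L) z = deriv L.F (z + 2) := by
      show deriv (fun w => L.F (w + 2)) z = _
      rw [deriv_comp_add_const]
    rw [logDeriv_apply, logDeriv_apply, h7, yzf_apply]
  have h8 : deriv (logDeriv (yzf L)) (s - 2) = deriv (logDeriv L.F) s := by
    rw [h6]
    have h9 := deriv_comp_add_const (logDeriv L.F) 2 (s - 2)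
    rw [h9, sub_add_cancel]
  rw [h8] at h1
  rw [h1, ← tsum_neg] at h3
  have h4 := (yz_equiv L).tsum_eq fun ρ : {z : ℂ // yzf L z = 0} => -((analyticOrderNatAt (yzf L) ρ : ℂ) / (s - 2 - ρ) ^ 2)
  rw [← h4] at h3
  have h5 : ∀ ρ : L.Z, -((analyticOrderNatAt (yzf L) ((yz_equiv L ρ : {z : ℂ // yzf L z = 0}) : ℂ) : ℂ) /
      (s - 2 - ((yz_equiv L ρ : {z : ℂ // yzf L z = 0}) : ℂ)) ^ 2) = (L.m ρ : ℂ) * (-1 / (s - (ρ : ℂ)) ^ 2) := by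
    intro ρ
    rw [yz_coe, yz_order, sub_sub_sub_cancel_right]
    unfold LF.m
    push_cast
    ring
  rw [tsum_congr h5] at h3
  exact h3

theorem LF.log_formula (L : LF) : ∃ C0 : ℂ, ∀ s : ℂ, 1 < s.re →
    (Summable fun ρ : L.Z => L.m ρ * ‖1 / (s - (ρ : ℂ)) - 1 / (2 - (ρ : ℂ))‖) ∧
    -(deriv L.F s / L.F s) =
      C0 - ∑' ρ : L.Z, (L.m ρ : ℂ) * (1 / (s - (ρ : ℂ)) - 1 / (2 - (ρ : ℂ))) := by
  obtain ⟨U, hU⟩ : ∃ U : Set ℂ, U = {s : ℂ | 1 < s.re} := ⟨_, rfl⟩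
  have hUo : IsOpen U := by
    rw [hU]
    exact isOpen_lt continuous_const Complex.continuous_re
  have hUc : IsPreconnected U := by
    rw [hU]
    exact (convex_halfSpace_re_gt 1).isPreconnected
  have hd : ∀ s ∈ U, HasDerivAt (fun s => logDeriv L.F s - YH L s) 0 s := by
    intro s hs
    rw [hU] at hs
    have h1 := (YG_deriv L hs).sub (YH_deriv L hs)
    rw [sub_self] at h1
    exact h1
  have hconst : ∀ s ∈ U, logDeriv L.F s - YH L s = logDeriv L.F 2 - YH L 2 := by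
    intro s hs
    refine hUo.is_const_of_deriv_eq_zero hUc (fun s hs => (hd s hs).differentiableAt.differentiableWithinAt)
      (fun s hs => (hd s hs).deriv) hs ?_
    rw [hU]
    show (1 : ℝ) < (2 : ℂ).re
    norm_num
  refine ⟨-(logDeriv L.F 2 - YH L 2), fun s hs => ⟨ysm L hs, ?_⟩⟩
  have h1 := hconst s (by rw [hU]; exact hs)
  rw [← h1, logDeriv_apply]
  show _ = -(deriv L.F s / L.F s - YH L s) - YH L s
  ring

end Pool.Agent.H50.RQ
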