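import Pool.Agent.H50.RQ.Dm
import Pool.Agent.H50.RQ.La
import Pool.Agent.H43.SI.Mvt
import Pool.Agent.H92.DivBound

/-!
[H50 RQ MS] Mean square of `L(s, χ) M - 1` to the right of the critical line (Carlson).

PROOF. Copy `Pool/Agent/H48/WN/Msg.lean` (`msg`), there `ζ` instead of `L(s, χ)`. `K = ⌊T^(d/4)⌋`, `X = ⌈T^(1+d/4)⌉`; `lap` with `ε = d/4`: for `T/4 ≤ t ≤ 4T`
`L(s) = P(s) + O(X^(-σ))`, `P = Σ_{m ≤ N X} χ(m) m^(-s)`; `|M(s)| ≤ Σ_{k ≤ K} k^(-1/2) ≤ 2 T^(d/8)`. So `|L M - 1| ≤ |P M - 1| + C T^(d/8) X^(-1/2)`, the last term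
`≤ C` and its square contributes `≤ 4 T C^2 T^(d/4) X^(-1) ≤ C'`. `P M - 1 = Σ_n c_n n^(-s) - 1`, `c_n = Σ_{k | n, k ≤ K, n/k ≤ NX} μ(k) χ(k) χ(n/k) = χ(n) Σ μ(k)`; `c_1 = 1`; for `1 < n ≤ K` all `k | n` have
`k ≤ K`, `n/k ≤ K ≤ NX`, so `c_n = χ(n) Σ_{k | n} μ(k) = 0`; always `|c_n| ≤ d(n)`; `c_n = 0` for `n > K N X` (`K N X ≤ 2 N T^(1 + d/2)`). The rest (dyadic blocks, `Pool.Agent.H43.SI.mvt`, divisor bound
`Pool.Agent.H5.W.divisor_bound`) as there: `msg_dy`, `msg_coef` (with `2 N T^(1+d/2)` in place of `2 T^(1+d/2)`, an extra constant), `msg_grow`; copy these private lemmas.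
-/

set_option autoImplicit false

namespace Pool.Agent.H50.RQ

open MeasureTheory Filter Topology
open Pool.Agent.H50.RL (SC Lp Lf Wk Ft)

section

open Finset

private theorem msg_sqrt (K : ℕ) : ∑ k ∈ Icc 1 K, 1 / Real.sqrt k ≤ 2 * Real.sqrt K := by
  induction K with
  | zero => simp
  | succ K ih =>
    rw [Finset.sum_Icc_succ_top (by omega)]
    have h1 : 0 < Real.sqrt ((K + 1 : ℕ) : ℝ) := Real.sqrt_pos.2 (by positivity)
    have h2 : 0 ≤ Real.sqrt (K : ℝ) := Real.sqrt_nonneg _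
    have h3 : Real.sqrt ((K + 1 : ℕ) : ℝ) ^ 2 = K + 1 := by
      rw [Real.sq_sqrt (by positivity)]
      push_cast
      ring
    have h4 : Real.sqrt (K : ℝ) ^ 2 = K := Real.sq_sqrt (by positivity)
    have h5 : 1 / Real.sqrt ((K + 1 : ℕ) : ℝ) ≤
        2 * (Real.sqrt ((K + 1 : ℕ) : ℝ) - Real.sqrt (K : ℝ)) := by
      rw [div_le_iff₀ h1]
      nlinarith [sq_nonneg (Real.sqrt ((K + 1 : ℕ) : ℝ) - Real.sqrt (K : ℝ))]
    linarith

private theorem mo_le {N : ℕ} (χ : DirichletCharacter ℂ N) (d T : ℝ) (hd : 0 < d) (hT : 1 ≤ T) (s : ℂ) (hs : 1 / 2 ≤ s.re) :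
    ‖MoX χ d T s‖ ≤ 2 * T ^ (d / 8) := by
  unfold MoX
  have hT0 : 0 < T := by linarith
  refine (norm_sum_le _ _).trans ?_
  have h1 : ∀ k ∈ Icc 1 ⌊T ^ (d / 4)⌋₊,
      ‖((ArithmeticFunction.moebius k : ℤ) : ℂ) * χ k * (k : ℂ) ^ (-s)‖ ≤ 1 / Real.sqrt k := by
    intro k hk
    have hk1 : 1 ≤ k := (Finset.mem_Icc.1 hk).1
    have hk0 : (0 : ℝ) < k := by exact_mod_cast hk1
    have hk1' : (1 : ℝ) ≤ k := by exact_mod_cast hk1
    rw [norm_mul, Complex.norm_natCast_cpow_of_pos (by omega)]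
    have h2 : ‖((ArithmeticFunction.moebius k : ℤ) : ℂ) * χ k‖ ≤ 1 := by
      rw [norm_mul, Complex.norm_intCast]
      have h6 := ArithmeticFunction.abs_moebius_le_one (n := k)
      have h7 : |((ArithmeticFunction.moebius k : ℤ) : ℝ)| ≤ 1 := by exact_mod_cast h6
      exact mul_le_one₀ h7 (norm_nonneg _) (χ.norm_le_one _)
    have h3 : (k : ℝ) ^ (-s).re ≤ 1 / Real.sqrt k := by
      rw [Complex.neg_re, Real.sqrt_eq_rpow, one_div, ← Real.rpow_neg hk0.le]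
      apply Real.rpow_le_rpow_of_exponent_le hk1'
      linarith
    calc _ ≤ 1 * (1 / Real.sqrt k) := mul_le_mul h2 h3 (by positivity) (by norm_num)
      _ = _ := one_mul _
  refine (Finset.sum_le_sum h1).trans ?_
  refine (msg_sqrt _).trans ?_
  have h4 : Real.sqrt ((⌊T ^ (d / 4)⌋₊ : ℕ) : ℝ) ≤ Real.sqrt (T ^ (d / 4)) :=
    Real.sqrt_le_sqrt (Nat.floor_le (by positivity))
  have h5 : Real.sqrt (T ^ (d / 4)) = T ^ (d / 8) := by
    rw [Real.sqrt_eq_rpow, ← Real.rpow_mul hT0.le]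
    congr 1
    ring
  rw [h5] at h4
  linarith

private theorem msg_split {M : Type*} [AddCommMonoid M] (J : ℕ) (f : ℕ → M) :
    ∑ n ∈ Ico 1 (2 ^ J), f n = ∑ j ∈ range J, ∑ n ∈ Ico (2 ^ j) (2 ^ (j + 1)), f n := by
  induction J with
  | zero => simp
  | succ J ih =>
    rw [Finset.sum_range_succ, ← ih]
    rw [Finset.sum_Ico_consecutive]
    · exact Nat.one_le_two_pow
    · exact Nat.pow_le_pow_right (by norm_num) (by omega)

private theorem msg_dy : ∃ C : ℝ, 0 < C ∧ ∀ (J : ℕ) (T : ℝ) (a : ℕ → ℂ), 1 ≤ T →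
    ∫ t in (-T)..T, ‖∑ n ∈ Ico 1 (2 ^ J), a n * (n : ℂ) ^ (-((t : ℂ) * Complex.I))‖ ^ 2 ≤
      C * J * ∑ n ∈ Ico 1 (2 ^ J), (T + n) * ‖a n‖ ^ 2 := by
  obtain ⟨C, hC, hmv⟩ := Pool.Agent.H43.SI.mvt
  refine ⟨2 * C, by positivity, fun J T a hT => ?_⟩
  have hcont : ∀ s : Finset ℕ, (∀ n ∈ s, 1 ≤ n) →
      Continuous (fun t : ℝ => ‖∑ n ∈ s, a n * (n : ℂ) ^ (-((t : ℂ) * Complex.I))‖ ^ 2) := by
    intro s hs
    apply Continuous.pow
    apply Continuous.norm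
    apply continuous_finsetSum
    intro n hn
    apply Continuous.mul continuous_const
    have hn0 : (n : ℂ) ≠ 0 := by
      have := hs n hn
      exact_mod_cast (by omega : n ≠ 0)
    apply Continuous.const_cpow
    · fun_prop
    · left
      exact hn0
  have hpt : ∀ t : ℝ, ‖∑ n ∈ Ico 1 (2 ^ J), a n * (n : ℂ) ^ (-((t : ℂ) * Complex.I))‖ ^ 2 ≤
      J * ∑ j ∈ range J,
        ‖∑ n ∈ Ico (2 ^ j) (2 ^ (j + 1)), a n * (n : ℂ) ^ (-((t : ℂ) * Complex.I))‖ ^ 2 := by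
    intro t
    rw [msg_split]
    have h1 := norm_sum_le (range J) (fun j => ∑ n ∈ Ico (2 ^ j) (2 ^ (j + 1)),
      a n * (n : ℂ) ^ (-((t : ℂ) * Complex.I)))
    have h2 := sq_sum_le_card_mul_sum_sq (s := range J) (f := fun j =>
      ‖∑ n ∈ Ico (2 ^ j) (2 ^ (j + 1)), a n * (n : ℂ) ^ (-((t : ℂ) * Complex.I))‖)
    rw [card_range] at h2
    exact (pow_le_pow_left₀ (norm_nonneg _) h1 2).trans h2
  have hpow1 : ∀ j : ℕ, 1 ≤ 2 ^ j := fun j => Nat.one_le_two_pow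
  have hB : ∀ j : ℕ, ∀ n ∈ Ico (2 ^ j) (2 ^ (j + 1)), 1 ≤ n := by
    intro j n hn
    have := (Finset.mem_Ico.1 hn).1
    have := hpow1 j
    omega
  have hint : ∀ j : ℕ, IntervalIntegrable (fun t : ℝ =>
      ‖∑ n ∈ Ico (2 ^ j) (2 ^ (j + 1)), a n * (n : ℂ) ^ (-((t : ℂ) * Complex.I))‖ ^ 2)
        volume (-T) T := fun j => (hcont _ (hB j)).intervalIntegrable _ _
  have hblk : ∀ j : ℕ, ∫ t in (-T)..T,
      ‖∑ n ∈ Ico (2 ^ j) (2 ^ (j + 1)), a n * (n : ℂ) ^ (-((t : ℂ) * Complex.I))‖ ^ 2 ≤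
        2 * C * ∑ n ∈ Ico (2 ^ j) (2 ^ (j + 1)), (T + n) * ‖a n‖ ^ 2 := by
    intro j
    have hsub : Ico (2 ^ j) (2 ^ (j + 1)) = (Icc 1 (2 ^ (j + 1))).filter
        (fun n => n ∈ Ico (2 ^ j) (2 ^ (j + 1))) := by
      ext n
      simp only [Finset.mem_filter, Finset.mem_Icc, Finset.mem_Ico]
      have := hpow1 j
      constructor
      · rintro ⟨h1, h2⟩
        exact ⟨⟨by omega, by omega⟩, h1, h2⟩
      · rintro ⟨_, h⟩
        exact h
    have h := hmv (2 ^ (j + 1)) T (fun n => if n ∈ Ico (2 ^ j) (2 ^ (j + 1)) then a n else 0)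
      (hpow1 _) hT
    have e1 : ∀ t : ℝ, ∑ n ∈ Icc 1 (2 ^ (j + 1)), (if n ∈ Ico (2 ^ j) (2 ^ (j + 1)) then a n else 0) *
        (n : ℂ) ^ (-((t : ℂ) * Complex.I)) =
        ∑ n ∈ Ico (2 ^ j) (2 ^ (j + 1)), a n * (n : ℂ) ^ (-((t : ℂ) * Complex.I)) := by
      intro t
      conv_rhs => rw [hsub, Finset.sum_filter]
      apply Finset.sum_congr rfl
      intro n _
      split_ifs <;> simp
    have e2 : ∑ n ∈ Icc 1 (2 ^ (j + 1)), ‖(if n ∈ Ico (2 ^ j) (2 ^ (j + 1)) then a n else 0)‖ ^ 2 =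
        ∑ n ∈ Ico (2 ^ j) (2 ^ (j + 1)), ‖a n‖ ^ 2 := by
      conv_rhs => rw [hsub, Finset.sum_filter]
      apply Finset.sum_congr rfl
      intro n _
      split_ifs <;> simp
    simp only [e1, e2] at h
    refine h.trans ?_
    have h2 : (T + ((2 ^ (j + 1) : ℕ) : ℝ)) * ∑ n ∈ Ico (2 ^ j) (2 ^ (j + 1)), ‖a n‖ ^ 2 ≤
        2 * ∑ n ∈ Ico (2 ^ j) (2 ^ (j + 1)), (T + n) * ‖a n‖ ^ 2 := by
      rw [mul_sum, mul_sum]
      apply Finset.sum_le_sum
      intro n hn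
      rw [← mul_assoc]
      apply mul_le_mul_of_nonneg_right _ (by positivity)
      have hn1 : (2 : ℝ) ^ j ≤ n := by exact_mod_cast (Finset.mem_Ico.1 hn).1
      push_cast
      rw [pow_succ]
      linarith
    calc _ = C * ((T + ((2 ^ (j + 1) : ℕ) : ℝ)) * ∑ n ∈ Ico (2 ^ j) (2 ^ (j + 1)), ‖a n‖ ^ 2) := by
          ring
      _ ≤ C * (2 * ∑ n ∈ Ico (2 ^ j) (2 ^ (j + 1)), (T + n) * ‖a n‖ ^ 2) :=
          mul_le_mul_of_nonneg_left h2 hC.le
      _ = _ := by ring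
  have hsumint : IntervalIntegrable (fun t : ℝ => (J : ℝ) * ∑ j ∈ range J,
      ‖∑ n ∈ Ico (2 ^ j) (2 ^ (j + 1)), a n * (n : ℂ) ^ (-((t : ℂ) * Complex.I))‖ ^ 2)
      volume (-T) T := by
    apply IntervalIntegrable.const_mul
    apply Continuous.intervalIntegrable
    apply continuous_finsetSum
    intro j _
    exact hcont _ (hB j)
  calc _ ≤ ∫ t in (-T)..T, (J : ℝ) * ∑ j ∈ range J,
        ‖∑ n ∈ Ico (2 ^ j) (2 ^ (j + 1)), a n * (n : ℂ) ^ (-((t : ℂ) * Complex.I))‖ ^ 2 := by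
        apply intervalIntegral.integral_mono_on (by linarith) _ hsumint
        · intro t _
          exact hpt t
        · apply Continuous.intervalIntegrable
          apply hcont
          intro n hn
          exact (Finset.mem_Ico.1 hn).1
    _ = (J : ℝ) * ∑ j ∈ range J, ∫ t in (-T)..T,
        ‖∑ n ∈ Ico (2 ^ j) (2 ^ (j + 1)), a n * (n : ℂ) ^ (-((t : ℂ) * Complex.I))‖ ^ 2 := by
        rw [intervalIntegral.integral_const_mul, intervalIntegral.integral_finset_sum]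
        intro j _
        exact hint j
    _ ≤ (J : ℝ) * ∑ j ∈ range J, (2 * C * ∑ n ∈ Ico (2 ^ j) (2 ^ (j + 1)), (T + n) * ‖a n‖ ^ 2) := by
        apply mul_le_mul_of_nonneg_left _ (by positivity)
        apply Finset.sum_le_sum
        intro j _
        exact hblk j
    _ = 2 * C * J * ∑ n ∈ Ico 1 (2 ^ J), (T + n) * ‖a n‖ ^ 2 := by
        rw [msg_split J (fun n => (T + n) * ‖a n‖ ^ 2), ← mul_sum]
        ring

/-- coefficients of the product -/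
private noncomputable def msgc {N : ℕ} (χ : DirichletCharacter ℂ N) (K L : ℕ) (n : ℕ) : ℂ :=
  (∑ p ∈ (Icc 1 K ×ˢ Icc 1 L).filter (fun p => p.1 * p.2 = n),
    ((ArithmeticFunction.moebius p.1 : ℤ) : ℂ) * χ p.1 * χ p.2) - (if n = 1 then 1 else 0)

private theorem msgc_prod {N : ℕ} (χ : DirichletCharacter ℂ N) (K L M : ℕ) (h : K * L < M) (hM : 1 < M) (s : ℂ) :
    (∑ m ∈ Icc 1 L, χ m * (m : ℂ) ^ (-s)) *
      (∑ k ∈ Icc 1 K, ((ArithmeticFunction.moebius k : ℤ) : ℂ) * χ k * (k : ℂ) ^ (-s)) - 1 =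
      ∑ n ∈ Ico 1 M, msgc χ K L n * (n : ℂ) ^ (-s) := by
  unfold msgc
  simp only [sub_mul, Finset.sum_sub_distrib]
  congr 1
  · have h1 : ∀ n ∈ Ico 1 M, (∑ p ∈ (Icc 1 K ×ˢ Icc 1 L).filter (fun p => p.1 * p.2 = n),
        ((ArithmeticFunction.moebius p.1 : ℤ) : ℂ) * χ p.1 * χ p.2) * (n : ℂ) ^ (-s) =
        ∑ p ∈ (Icc 1 K ×ˢ Icc 1 L).filter (fun p => p.1 * p.2 = n),
          (((ArithmeticFunction.moebius p.1 : ℤ) : ℂ) * χ p.1 * (p.1 : ℂ) ^ (-s)) *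
            (χ p.2 * (p.2 : ℂ) ^ (-s)) := by
      intro n _
      rw [Finset.sum_mul]
      apply Finset.sum_congr rfl
      intro p hp
      rw [← (Finset.mem_filter.1 hp).2]
      rw [Nat.cast_mul, Complex.natCast_mul_natCast_cpow]
      ring
    rw [Finset.sum_congr rfl h1, Finset.sum_fiberwise_of_maps_to, Finset.sum_product,
      mul_comm, Finset.sum_mul_sum]
    · intro p hp
      rw [Finset.mem_product, Finset.mem_Icc, Finset.mem_Icc] at hp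
      rw [Finset.mem_Ico]
      have h2 : p.1 * p.2 ≤ K * L := Nat.mul_le_mul hp.1.2 hp.2.2
      have h3 : 0 < p.1 * p.2 := Nat.mul_pos hp.1.1 hp.2.1
      omega
  · have h1 : ∀ n ∈ Ico 1 M, (if n = 1 then (1 : ℂ) else 0) * (n : ℂ) ^ (-s) =
        if n = 1 then 1 else 0 := by
      intro n _
      split_ifs with h2
      · subst h2
        simp
      · simp
    rw [Finset.sum_congr rfl h1, Finset.sum_ite_eq' (Ico 1 M) 1 (fun _ => (1 : ℂ)),
      if_pos (Finset.mem_Ico.2 ⟨le_rfl, hM⟩)]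

private theorem msgc_small {N : ℕ} (χ : DirichletCharacter ℂ N) (K L : ℕ) (hKN : K ≤ L)
    (n : ℕ) (hn : 1 ≤ n) (hnK : n ≤ K) : msgc χ K L n = 0 := by
  unfold msgc
  have h1 : (Icc 1 K ×ˢ Icc 1 L).filter (fun p => p.1 * p.2 = n) = n.divisorsAntidiagonal := by
    ext p
    rw [Finset.mem_filter, Finset.mem_product, Finset.mem_Icc, Finset.mem_Icc,
      Nat.mem_divisorsAntidiagonal]
    constructor
    · rintro ⟨_, h⟩
      exact ⟨h, by omega⟩
    · rintro ⟨h, _⟩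
      have h2 : 1 ≤ p.1 := by
        rcases Nat.eq_zero_or_pos p.1 with h0 | h0
        · rw [h0, zero_mul] at h; omega
        · exact h0
      have h3 : 1 ≤ p.2 := by
        rcases Nat.eq_zero_or_pos p.2 with h0 | h0
        · rw [h0, mul_zero] at h; omega
        · exact h0
      have h4 : p.1 ≤ n := by
        rw [← h]; exact Nat.le_mul_of_pos_right _ h3
      have h5 : p.2 ≤ n := by
        rw [← h]; exact Nat.le_mul_of_pos_left _ h2
      exact ⟨⟨⟨h2, by omega⟩, h3, by omega⟩, h⟩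
  rw [h1]
  have h2 : ∑ p ∈ n.divisorsAntidiagonal, ((ArithmeticFunction.moebius p.1 : ℤ) : ℂ) * χ p.1 * χ p.2 =
      χ n * (((ArithmeticFunction.moebius *
        (ArithmeticFunction.zeta : ArithmeticFunction ℤ)) n : ℤ) : ℂ) := by
    rw [ArithmeticFunction.mul_apply]
    push_cast
    rw [Finset.mul_sum]
    apply Finset.sum_congr rfl
    intro p hp
    rw [Nat.mem_divisorsAntidiagonal] at hp
    obtain ⟨h, _⟩ := hp
    have h3 : 1 ≤ p.2 := by
      rcases Nat.eq_zero_or_pos p.2 with h0 | h0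
      · rw [h0, mul_zero] at h; omega
      · exact h0
    have h6 : χ (n : ZMod N) = χ p.1 * χ p.2 := by
      rw [← h, Nat.cast_mul, map_mul]
    rw [ArithmeticFunction.natCoe_apply, ArithmeticFunction.zeta_apply, if_neg (by omega), h6]
    push_cast
    ring
  rw [h2, ArithmeticFunction.moebius_mul_coe_zeta, ArithmeticFunction.one_apply]
  split_ifs with h0
  · rw [h0, Nat.cast_one, map_one]
    simp
  · simp

private theorem msgc_le {N : ℕ} (χ : DirichletCharacter ℂ N) (K L : ℕ) (n : ℕ) (hn : 1 < n) :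
    ‖msgc χ K L n‖ ≤ (n.divisors.card : ℝ) := by
  unfold msgc
  rw [if_neg (by omega), sub_zero]
  refine (norm_sum_le _ _).trans ?_
  have h1 : ∀ p ∈ (Icc 1 K ×ˢ Icc 1 L).filter (fun p => p.1 * p.2 = n),
      ‖((ArithmeticFunction.moebius p.1 : ℤ) : ℂ) * χ p.1 * χ p.2‖ ≤ 1 := by
    intro p _
    rw [norm_mul, norm_mul]
    have h2 : ‖((ArithmeticFunction.moebius p.1 : ℤ) : ℂ)‖ ≤ 1 := by
      rw [Complex.norm_intCast]
      have := ArithmeticFunction.abs_moebius_le_one (n := p.1)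
      exact_mod_cast this
    exact mul_le_one₀ (mul_le_one₀ h2 (norm_nonneg _) (χ.norm_le_one _)) (norm_nonneg _) (χ.norm_le_one _)
  refine (Finset.sum_le_sum h1).trans ?_
  rw [Finset.sum_const, nsmul_eq_mul, mul_one]
  have h2 : ((Icc 1 K ×ˢ Icc 1 L).filter (fun p => p.1 * p.2 = n)).card ≤
      (n.divisorsAntidiagonal).card := by
    apply Finset.card_le_card
    intro p hp
    rw [Finset.mem_filter] at hp
    rw [Nat.mem_divisorsAntidiagonal]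
    exact ⟨hp.2, by omega⟩
  have h3 : (n.divisorsAntidiagonal).card = n.divisors.card := by
    rw [← Nat.map_div_right_divisors]
    simp
  rw [h3] at h2
  exact_mod_cast h2

private theorem msgc_big {N : ℕ} (χ : DirichletCharacter ℂ N) (K L : ℕ) (n : ℕ) (hn : 1 < n) (h : K * L < n) :
    msgc χ K L n = 0 := by
  unfold msgc
  rw [if_neg (by omega), sub_zero]
  apply Finset.sum_eq_zero
  intro p hp
  rw [Finset.mem_filter, Finset.mem_product, Finset.mem_Icc, Finset.mem_Icc] at hp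
  have h2 : p.1 * p.2 ≤ K * L := Nat.mul_le_mul hp.1.1.2 hp.1.2.2
  omega

/-- the weighted coefficient sum -/
private theorem msg_coef (B : ℝ) (hB : 1 ≤ B) (d : ℝ) (hd : 0 < d) (hd1 : d ≤ 1 / 8) : ∃ A : ℝ, 0 < A ∧
    ∀ T : ℝ, 10 ≤ T → ∀ σ : ℝ, 1 / 2 + d / 2 ≤ σ → ∀ (a' : ℕ → ℂ) (J : ℕ),
    (∀ n : ℕ, 1 ≤ n → (n : ℝ) ≤ T ^ (d / 4) → a' n = 0) →
    (∀ n : ℕ, B * T ^ (1 + d / 2) < n → a' n = 0) →
    (∀ n : ℕ, 1 < n → ‖a' n‖ ≤ (n.divisors.card : ℝ)) →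
    ∑ n ∈ Ico 1 (2 ^ J), (4 * T + n) * ‖a' n * (n : ℂ) ^ (-(σ : ℂ))‖ ^ 2 ≤
      A * T ^ (1 - 5 * d ^ 2 / 32) := by
  obtain ⟨C, hC, hdiv⟩ := Pool.Agent.H5.W.divisor_bound (d / 8) (by positivity)
  have hsum : Summable (fun n : ℕ => (n : ℝ) ^ (-1 - d / 8)) := by
    rw [Real.summable_nat_rpow]
    linarith
  obtain ⟨S, hS⟩ : ∃ S : ℝ, S = ∑' n : ℕ, (n : ℝ) ^ (-1 - d / 8) := ⟨_, rfl⟩
  have hS0 : 0 ≤ S := by
    rw [hS]
    exact tsum_nonneg fun n => by positivity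
  refine ⟨(4 + B) * C ^ 2 * S + 1, by positivity, ?_⟩
  intro T hT σ hσ a' J h1 h2 h3
  have hT0 : 0 < T := by linarith
  have hT1 : 1 ≤ T := by linarith
  have hTp : 0 < T ^ (1 - 5 * d ^ 2 / 32) := by positivity
  have hterm : ∀ n ∈ Ico 1 (2 ^ J), (4 * T + n) * ‖a' n * (n : ℂ) ^ (-(σ : ℂ))‖ ^ 2 ≤
      (4 + B) * C ^ 2 * T ^ (1 - 5 * d ^ 2 / 32) * (n : ℝ) ^ (-1 - d / 8) := by
    intro n hn
    have hn1 : 1 ≤ n := (Finset.mem_Ico.1 hn).1
    have hn0 : (0 : ℝ) < n := by exact_mod_cast hn1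
    have hn1' : (1 : ℝ) ≤ n := by exact_mod_cast hn1
    by_cases c1 : (n : ℝ) ≤ T ^ (d / 4)
    · rw [h1 n hn1 c1]
      simp only [zero_mul, norm_zero]
      rw [zero_pow (by norm_num), mul_zero]
      positivity
    by_cases c2 : B * T ^ (1 + d / 2) < n
    · rw [h2 n c2]
      simp only [zero_mul, norm_zero]
      rw [zero_pow (by norm_num), mul_zero]
      positivity
    push Not at c1 c2
    have hTd : 1 ≤ T ^ (d / 4) := Real.one_le_rpow hT1 (by positivity)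
    have hn2 : 1 < n := by
      have : (1 : ℝ) < n := by linarith
      exact_mod_cast this
    have e1 : ‖a' n * (n : ℂ) ^ (-(σ : ℂ))‖ ^ 2 ≤ C ^ 2 * (n : ℝ) ^ (-1 - 3 * d / 4) := by
      rw [norm_mul, Complex.norm_natCast_cpow_of_pos (by omega), mul_pow]
      have f1 : ‖a' n‖ ≤ C * (n : ℝ) ^ (d / 8) := (h3 n hn2).trans (hdiv n hn1)
      have f2 : ‖a' n‖ ^ 2 ≤ C ^ 2 * (n : ℝ) ^ (d / 4) := by
        calc ‖a' n‖ ^ 2 ≤ (C * (n : ℝ) ^ (d / 8)) ^ 2 := pow_le_pow_left₀ (norm_nonneg _) f1 2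
          _ = C ^ 2 * (n : ℝ) ^ (d / 4) := by
              rw [mul_pow, ← Real.rpow_natCast, ← Real.rpow_natCast, ← Real.rpow_mul hn0.le]
              congr 2
              push_cast
              ring
      have f3 : ((n : ℝ) ^ (-(σ : ℂ)).re) ^ 2 ≤ (n : ℝ) ^ (-1 - d) := by
        rw [← Real.rpow_natCast, ← Real.rpow_mul hn0.le]
        apply Real.rpow_le_rpow_of_exponent_le hn1'
        rw [Complex.neg_re, Complex.ofReal_re]
        push_cast
        linarith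
      calc _ ≤ (C ^ 2 * (n : ℝ) ^ (d / 4)) * (n : ℝ) ^ (-1 - d) :=
            mul_le_mul f2 f3 (by positivity) (by positivity)
        _ = C ^ 2 * (n : ℝ) ^ (-1 - 3 * d / 4) := by
            rw [mul_assoc, ← Real.rpow_add hn0]
            congr 2
            ring
    have e2 : (n : ℝ) ^ (-(5 * d / 8)) ≤ T ^ (-(5 * d ^ 2 / 32)) := by
      calc (n : ℝ) ^ (-(5 * d / 8)) ≤ (T ^ (d / 4)) ^ (-(5 * d / 8)) := by
            apply Real.rpow_le_rpow_of_nonpos (by positivity) c1.le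
            have : 0 ≤ 5 * d / 8 := by positivity
            linarith
        _ = T ^ (-(5 * d ^ 2 / 32)) := by
            rw [← Real.rpow_mul hT0.le]
            congr 1
            ring
    have e3 : (n : ℝ) ^ (1 - 5 * d / 8) ≤ B * T ^ (1 - 5 * d ^ 2 / 32) := by
      have g1 : 0 ≤ 1 - 5 * d / 8 := by linarith
      calc (n : ℝ) ^ (1 - 5 * d / 8) ≤ (B * T ^ (1 + d / 2)) ^ (1 - 5 * d / 8) :=
            Real.rpow_le_rpow hn0.le c2 g1
        _ = B ^ (1 - 5 * d / 8) * T ^ ((1 + d / 2) * (1 - 5 * d / 8)) := by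
            rw [Real.mul_rpow (by linarith) (by positivity), ← Real.rpow_mul hT0.le]
        _ ≤ B * T ^ (1 - 5 * d ^ 2 / 32) := by
            apply mul_le_mul _ _ (by positivity) (by linarith)
            · calc B ^ (1 - 5 * d / 8) ≤ B ^ (1 : ℝ) := by
                    apply Real.rpow_le_rpow_of_exponent_le hB
                    linarith
                _ = B := Real.rpow_one B
            · apply Real.rpow_le_rpow_of_exponent_le hT1
              nlinarith [sq_nonneg d]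
    have e4 : (4 * T + n) * (n : ℝ) ^ (-1 - 3 * d / 4) =
        (4 * (T * (n : ℝ) ^ (-(5 * d / 8))) + (n : ℝ) ^ (1 - 5 * d / 8)) * (n : ℝ) ^ (-1 - d / 8) := by
      have g1 : (n : ℝ) ^ (-1 - 3 * d / 4) = (n : ℝ) ^ (-(5 * d / 8)) * (n : ℝ) ^ (-1 - d / 8) := by
        rw [← Real.rpow_add hn0]
        congr 1
        ring
      have g2 : (n : ℝ) ^ (1 - 5 * d / 8) = n * (n : ℝ) ^ (-(5 * d / 8)) := by
        nth_rewrite 2 [← Real.rpow_one (n : ℝ)]
        rw [← Real.rpow_add hn0]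
        congr 1
      rw [g1, g2]
      ring
    have e5 : T * (n : ℝ) ^ (-(5 * d / 8)) ≤ T ^ (1 - 5 * d ^ 2 / 32) := by
      calc T * (n : ℝ) ^ (-(5 * d / 8)) ≤ T * T ^ (-(5 * d ^ 2 / 32)) :=
            mul_le_mul_of_nonneg_left e2 hT0.le
        _ = T ^ (1 - 5 * d ^ 2 / 32) := by
            nth_rewrite 1 [← Real.rpow_one T]
            rw [← Real.rpow_add hT0]
            congr 1
    calc (4 * T + n) * ‖a' n * (n : ℂ) ^ (-(σ : ℂ))‖ ^ 2
        ≤ (4 * T + n) * (C ^ 2 * (n : ℝ) ^ (-1 - 3 * d / 4)) :=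
          mul_le_mul_of_nonneg_left e1 (by positivity)
      _ = C ^ 2 * ((4 * T + n) * (n : ℝ) ^ (-1 - 3 * d / 4)) := by ring
      _ = C ^ 2 * ((4 * (T * (n : ℝ) ^ (-(5 * d / 8))) + (n : ℝ) ^ (1 - 5 * d / 8)) *
            (n : ℝ) ^ (-1 - d / 8)) := by rw [e4]
      _ ≤ C ^ 2 * ((4 * T ^ (1 - 5 * d ^ 2 / 32) + B * T ^ (1 - 5 * d ^ 2 / 32)) *
            (n : ℝ) ^ (-1 - d / 8)) := by
          apply mul_le_mul_of_nonneg_left _ (by positivity)
          apply mul_le_mul_of_nonneg_right _ (by positivity)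
          linarith
      _ = _ := by ring
  refine (Finset.sum_le_sum hterm).trans ?_
  rw [← mul_sum]
  have hle : ∑ n ∈ Ico (1 : ℕ) (2 ^ J), (n : ℝ) ^ (-1 - d / 8) ≤ S := by
    rw [hS]
    exact hsum.sum_le_tsum _ fun n _ => by positivity
  calc (4 + B) * C ^ 2 * T ^ (1 - 5 * d ^ 2 / 32) * ∑ n ∈ Ico (1 : ℕ) (2 ^ J), (n : ℝ) ^ (-1 - d / 8)
      ≤ (4 + B) * C ^ 2 * T ^ (1 - 5 * d ^ 2 / 32) * S := mul_le_mul_of_nonneg_left hle (by positivity)
    _ = ((4 + B) * C ^ 2 * S) * T ^ (1 - 5 * d ^ 2 / 32) := by ring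
    _ ≤ ((4 + B) * C ^ 2 * S + 1) * T ^ (1 - 5 * d ^ 2 / 32) := by
        apply mul_le_mul_of_nonneg_right _ hTp.le
        linarith

private theorem msg_grow (d A B : ℝ) (hd : 0 < d) : ∃ T0 : ℝ, ∀ T : ℝ, T0 ≤ T →
    A * Real.log T + B ≤ T ^ (d ^ 2 / 32) := by
  have h2 : Filter.Tendsto (fun T : ℝ => A * (Real.log T / T ^ (d ^ 2 / 32)))
      Filter.atTop (nhds (A * 0)) := by
    apply Filter.Tendsto.const_mul
    have := isLittleO_log_rpow_atTop (show 0 < d ^ 2 / 32 by positivity)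
    exact this.tendsto_div_nhds_zero
  rw [mul_zero] at h2
  have h3 : Filter.Tendsto (fun T : ℝ => T ^ (d ^ 2 / 32)) Filter.atTop Filter.atTop :=
    tendsto_rpow_atTop (by positivity)
  have e2 := h2.eventually (gt_mem_nhds (show (0 : ℝ) < 1 / 2 by norm_num))
  have e3 := h3.eventually_ge_atTop (2 * B)
  obtain ⟨D, hD⟩ := Filter.eventually_atTop.1 (e2.and (e3.and (Filter.eventually_gt_atTop (0 : ℝ))))
  refine ⟨D, fun T hT => ?_⟩
  obtain ⟨f1, f2, f3⟩ := hD T hT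
  have hp : 0 < T ^ (d ^ 2 / 32) := by positivity
  rw [← mul_div_assoc, div_lt_iff₀ hp] at f1
  linarith

theorem msX (N : ℕ) [NeZero N] (χ : DirichletCharacter ℂ N) (hχ : χ ≠ 1) (d : ℝ) (hd : 0 < d) (hd1 : d ≤ 1 / 8) :
    ∃ T0 : ℝ, 10 ≤ T0 ∧ ∀ T : ℝ, T0 ≤ T → ∀ σ : ℝ, 1 / 2 + d / 2 ≤ σ → σ ≤ 3 →
    ∫ t in (T / 4)..(4 * T), ‖GmX χ d T ((σ : ℂ) + (t : ℂ) * Complex.I)‖ ^ 2 ≤ T ^ (1 - d ^ 2 / 8) := by
  obtain ⟨C', hC', hlap⟩ := lap N χ hχ (d / 4) (by positivity)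
  have hN1 : 1 ≤ N := Nat.pos_of_ne_zero (NeZero.ne N)
  have hN1r : (1 : ℝ) ≤ N := by exact_mod_cast hN1
  obtain ⟨C, hC, hdy⟩ := msg_dy
  obtain ⟨A, hA, hcoef⟩ := msg_coef (2 * N) (by linarith) d hd hd1
  obtain ⟨D, hD⟩ : ∃ D : ℝ, D = 4 + 2 * Real.log (2 * N) := ⟨_, rfl⟩
  have hlN : 0 ≤ Real.log (2 * N) := Real.log_nonneg (by linarith)
  have hD0 : 0 < D := by rw [hD]; linarith
  obtain ⟨T2, hgr⟩ := msg_grow d (2 * (C * (D * A))) (32 * C' ^ 2) hd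
  refine ⟨max T2 10, le_max_right _ _, ?_⟩
  intro T hT σ hσ1 hσ2
  have hTb : T2 ≤ T := le_trans (le_max_left _ _) hT
  have hT10 : 10 ≤ T := le_trans (le_max_right _ _) hT
  have hT0 : 0 < T := by linarith
  have hT1' : 1 ≤ T := by linarith
  have hg := hgr T hTb
  have hL : 0 < Real.log T := Real.log_pos (by linarith)
  have hL2 : 2 ≤ Real.log T := by
    rw [Real.le_log_iff_exp_le hT0]
    have := Real.exp_one_lt_d9
    have h2 : Real.exp 2 = Real.exp 1 ^ 2 := by rw [← Real.exp_nat_mul]; norm_num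
    rw [h2]
    nlinarith [Real.exp_pos 1]
  obtain ⟨K, hK⟩ : ∃ K : ℕ, K = ⌊T ^ (d / 4)⌋₊ := ⟨_, rfl⟩
  obtain ⟨X, hX0⟩ : ∃ X : ℕ, X = ⌈T ^ (1 + d / 4)⌉₊ := ⟨_, rfl⟩
  have hKle : (K : ℝ) ≤ T ^ (d / 4) := by rw [hK]; exact Nat.floor_le (by positivity)
  have hK1 : 1 ≤ K := by
    rw [hK, Nat.one_le_floor_iff]
    exact Real.one_le_rpow hT1' (by positivity)
  have hXge : T ^ (1 + d / 4) ≤ X := by rw [hX0]; exact Nat.le_ceil _
  have hXle : (X : ℝ) ≤ 2 * T ^ (1 + d / 4) := by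
    have h1 : (X : ℝ) < T ^ (1 + d / 4) + 1 := by rw [hX0]; exact Nat.ceil_lt_add_one (by positivity)
    have h2 : 1 ≤ T ^ (1 + d / 4) := Real.one_le_rpow hT1' (by positivity)
    linarith
  obtain ⟨M, hM⟩ : ∃ M : ℕ, M = N * X := ⟨_, rfl⟩
  have hKX : K ≤ X := by
    have h1 : (K : ℝ) ≤ X := by
      refine hKle.trans (le_trans ?_ hXge)
      apply Real.rpow_le_rpow_of_exponent_le hT1'
      linarith
    exact_mod_cast h1
  have hKN : K ≤ M := by
    rw [hM]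
    exact hKX.trans (Nat.le_mul_of_pos_left X hN1)
  have hX : ((K * M : ℕ) : ℝ) ≤ 2 * N * T ^ (1 + d / 2) := by
    rw [hM]
    push_cast
    calc (K : ℝ) * (N * X) ≤ T ^ (d / 4) * (N * (2 * T ^ (1 + d / 4))) :=
          mul_le_mul hKle (mul_le_mul_of_nonneg_left hXle (by positivity)) (by positivity) (by positivity)
      _ = 2 * N * (T ^ (d / 4) * T ^ (1 + d / 4)) := by ring
      _ = 2 * N * T ^ (1 + d / 2) := by
          rw [← Real.rpow_add hT0]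
          congr 2
          ring
  obtain ⟨J, hJ⟩ : ∃ J : ℕ, J = Nat.log 2 (K * M) + 1 := ⟨_, rfl⟩
  have hXJ : K * M < 2 ^ J := by
    rw [hJ]
    exact Nat.lt_pow_succ_log_self (by norm_num) _
  have hKN1 : 1 ≤ K * M := Nat.mul_pos hK1 (by omega)
  have hJ1 : 1 < 2 ^ J := by
    rw [hJ]
    exact Nat.one_lt_two_pow (by omega)
  have hJle : (J : ℝ) ≤ D * Real.log T := by
    have h1 : 2 ^ Nat.log 2 (K * M) ≤ K * M := Nat.pow_log_le_self 2 (by omega)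
    have h2 : ((2 : ℝ) ^ Nat.log 2 (K * M)) ≤ 2 * N * T ^ (1 + d / 2) := by
      refine le_trans ?_ hX
      exact_mod_cast h1
    have h3 := Real.log_le_log (by positivity) h2
    rw [Real.log_pow, Real.log_mul (by positivity) (by positivity), Real.log_rpow hT0] at h3
    have h4 : 0.6931471803 < Real.log 2 := Real.log_two_gt_d9
    have h5 : (Nat.log 2 (K * M) : ℝ) * Real.log 2 ≤ Real.log (2 * N) + 2 * Real.log T := by
      refine h3.trans ?_
      nlinarith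
    have h6 : (Nat.log 2 (K * M) : ℝ) ≤ 2 * Real.log (2 * N) + 3 * Real.log T := by
      by_contra h
      push Not at h
      nlinarith
    rw [hJ, hD]
    push_cast
    nlinarith
  obtain ⟨a', ha'⟩ : ∃ a' : ℕ → ℂ, a' = msgc χ K M := ⟨_, rfl⟩
  have hprod : ∀ s : ℂ, (∑ n ∈ Icc 1 M, χ n * (n : ℂ) ^ (-s)) * MoX χ d T s - 1 =
      ∑ n ∈ Ico 1 (2 ^ J), a' n * (n : ℂ) ^ (-s) := by
    intro s
    rw [ha', ← msgc_prod χ K M (2 ^ J) hXJ hJ1 s]
    unfold MoX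
    rw [← hK]
  have ha1 : ∀ n : ℕ, 1 ≤ n → (n : ℝ) ≤ T ^ (d / 4) → a' n = 0 := by
    intro n hn hn2
    rw [ha']
    apply msgc_small χ K M hKN n hn
    rw [hK]
    exact Nat.le_floor hn2
  have ha2 : ∀ n : ℕ, 2 * N * T ^ (1 + d / 2) < n → a' n = 0 := by
    intro n hn
    have h1 : K * M < n := by
      have : ((K * M : ℕ) : ℝ) < n := lt_of_le_of_lt hX hn
      exact_mod_cast this
    rw [ha']
    exact msgc_big χ K M n (by omega) h1
  have ha3 : ∀ n : ℕ, 1 < n → ‖a' n‖ ≤ (n.divisors.card : ℝ) := by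
    intro n hn
    rw [ha']
    exact msgc_le χ K M n hn
  have hc := hcoef T hT10 σ hσ1 a' J ha1 ha2 ha3
  have hd4 := hdy J (4 * T) (fun n => a' n * (n : ℂ) ^ (-(σ : ℂ))) (by linarith)
  have hfun : ∀ t : ℝ, ∑ n ∈ Ico 1 (2 ^ J), a' n * (n : ℂ) ^ (-((σ : ℂ) + (t : ℂ) * Complex.I)) =
      ∑ n ∈ Ico 1 (2 ^ J), a' n * (n : ℂ) ^ (-(σ : ℂ)) * (n : ℂ) ^ (-((t : ℂ) * Complex.I)) := by
    intro t
    apply Finset.sum_congr rfl
    intro n hn
    have hn0 : (n : ℂ) ≠ 0 := by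
      have := (Finset.mem_Ico.1 hn).1
      exact_mod_cast (by omega : n ≠ 0)
    rw [neg_add, Complex.cpow_add _ _ hn0, mul_assoc]
  obtain ⟨P, hP⟩ : ∃ P : ℝ → ℝ, P = fun t : ℝ => ‖∑ n ∈ Ico 1 (2 ^ J), a' n * (n : ℂ) ^ (-(σ : ℂ)) *
    (n : ℂ) ^ (-((t : ℂ) * Complex.I))‖ ^ 2 := ⟨_, rfl⟩
  have hPc : Continuous P := by
    rw [hP]
    apply Continuous.pow
    apply Continuous.norm
    apply continuous_finsetSum
    intro n hn
    apply Continuous.mul continuous_const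
    have hn0 : (n : ℂ) ≠ 0 := by
      have := (Finset.mem_Ico.1 hn).1
      exact_mod_cast (by omega : n ≠ 0)
    apply Continuous.const_cpow
    · fun_prop
    · left
      exact hn0
  have hP0 : ∀ t, 0 ≤ P t := by
    intro t
    rw [hP]
    positivity
  have hPint : ∫ t in (-(4 * T))..(4 * T), P t ≤ C * J * (A * T ^ (1 - 5 * d ^ 2 / 32)) := by
    rw [hP]
    refine hd4.trans ?_
    apply mul_le_mul_of_nonneg_left hc (by positivity)
  have hpt : ∀ t ∈ Set.Icc (T / 4) (4 * T), ‖GmX χ d T ((σ : ℂ) + (t : ℂ) * Complex.I)‖ ^ 2 ≤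
      2 * P t + 8 * C' ^ 2 * T ^ (-1 : ℝ) := by
    intro t ht
    have hre : ((σ : ℂ) + (t : ℂ) * Complex.I).re = σ := by simp
    have him : ((σ : ℂ) + (t : ℂ) * Complex.I).im = t := by simp
    have h1 := hlap T hT1' X hXge ((σ : ℂ) + (t : ℂ) * Complex.I) (by rw [hre]; linarith)
      (by rw [hre]; linarith) (by rw [him, abs_of_nonneg (by linarith [ht.1])]; linarith [ht.2])
    rw [← hM, hre] at h1
    have h2 := mo_le χ d T hd hT1' ((σ : ℂ) + (t : ℂ) * Complex.I) (by rw [hre]; linarith)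
    have h3 : GmX χ d T ((σ : ℂ) + (t : ℂ) * Complex.I) =
        ((∑ n ∈ Icc 1 M, χ n * (n : ℂ) ^ (-((σ : ℂ) + (t : ℂ) * Complex.I))) *
          MoX χ d T ((σ : ℂ) + (t : ℂ) * Complex.I) - 1) +
        (DirichletCharacter.LFunction χ ((σ : ℂ) + (t : ℂ) * Complex.I) -
          ∑ n ∈ Icc 1 M, χ n * (n : ℂ) ^ (-((σ : ℂ) + (t : ℂ) * Complex.I))) *
            MoX χ d T ((σ : ℂ) + (t : ℂ) * Complex.I) := by
      unfold GmX
      ring
    rw [h3, hprod, hfun]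
    obtain ⟨x, hx⟩ : ∃ x : ℂ, x = ∑ n ∈ Ico 1 (2 ^ J), a' n * (n : ℂ) ^ (-(σ : ℂ)) *
      (n : ℂ) ^ (-((t : ℂ) * Complex.I)) := ⟨_, rfl⟩
    have hPt : P t = ‖x‖ ^ 2 := by rw [hP, hx]
    rw [hPt, ← hx]
    obtain ⟨y, hy⟩ : ∃ y : ℂ, y = (DirichletCharacter.LFunction χ ((σ : ℂ) + (t : ℂ) * Complex.I) -
          ∑ n ∈ Icc 1 M, χ n * (n : ℂ) ^ (-((σ : ℂ) + (t : ℂ) * Complex.I))) *
            MoX χ d T ((σ : ℂ) + (t : ℂ) * Complex.I) := ⟨_, rfl⟩
    rw [← hy]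
    have hXp : (X : ℝ) ^ (-σ) ≤ T ^ (-(1 / 2) - d / 8) := by
      have hTX : 1 ≤ T ^ (1 + d / 4) := Real.one_le_rpow hT1' (by positivity)
      calc (X : ℝ) ^ (-σ) ≤ (T ^ (1 + d / 4)) ^ (-σ) :=
            Real.rpow_le_rpow_of_nonpos (by linarith) hXge (by linarith)
        _ ≤ (T ^ (1 + d / 4)) ^ (-(1 / 2) : ℝ) := Real.rpow_le_rpow_of_exponent_le hTX (by linarith)
        _ = T ^ (-(1 / 2) - d / 8) := by
            rw [← Real.rpow_mul hT0.le]
            congr 1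
            ring
    have hyn : ‖y‖ ≤ 2 * C' * T ^ (-(1 / 2) : ℝ) := by
      rw [hy, norm_mul]
      calc _ ≤ (C' * T ^ (-(1 / 2) - d / 8)) * (2 * T ^ (d / 8)) :=
            mul_le_mul (h1.trans (mul_le_mul_of_nonneg_left hXp hC')) h2 (norm_nonneg _) (by positivity)
        _ = 2 * C' * (T ^ (-(1 / 2) - d / 8) * T ^ (d / 8)) := by ring
        _ = 2 * C' * T ^ (-(1 / 2) : ℝ) := by
            rw [← Real.rpow_add hT0]
            congr 2
            ring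
    have hy2 : ‖y‖ ^ 2 ≤ 4 * C' ^ 2 * T ^ (-1 : ℝ) := by
      calc ‖y‖ ^ 2 ≤ (2 * C' * T ^ (-(1 / 2) : ℝ)) ^ 2 := pow_le_pow_left₀ (norm_nonneg _) hyn 2
        _ = 4 * C' ^ 2 * T ^ (-1 : ℝ) := by
            rw [mul_pow, mul_pow, ← Real.rpow_natCast (T ^ (-(1 / 2) : ℝ)), ← Real.rpow_mul hT0.le]
            norm_num
    have h4 : ‖x + y‖ ^ 2 ≤ 2 * ‖x‖ ^ 2 + 2 * ‖y‖ ^ 2 := by
      have h5 := norm_add_le x y
      have h6 : ‖x + y‖ ^ 2 ≤ (‖x‖ + ‖y‖) ^ 2 := pow_le_pow_left₀ (norm_nonneg _) h5 2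
      nlinarith [sq_nonneg (‖x‖ - ‖y‖)]
    linarith
  have hGc : ContinuousOn (fun t : ℝ => ‖GmX χ d T ((σ : ℂ) + (t : ℂ) * Complex.I)‖ ^ 2)
      (Set.uIcc (T / 4) (4 * T)) := by
    have h1 : Differentiable ℂ (GmX χ d T) := by
      have h2 : Differentiable ℂ (MoX χ d T) := by
        intro z
        unfold MoX
        apply DifferentiableAt.fun_sum
        intro k hk
        apply DifferentiableAt.const_mul
        apply DifferentiableAt.const_cpow differentiableAt_id.neg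
        left
        have : 1 ≤ k := (Finset.mem_Icc.1 hk).1
        exact_mod_cast (by omega : k ≠ 0)
      exact ((DirichletCharacter.differentiable_LFunction hχ).mul h2).sub_const 1
    have h3 : Continuous fun t : ℝ => GmX χ d T ((σ : ℂ) + (t : ℂ) * Complex.I) :=
      h1.continuous.comp (by fun_prop)
    exact (h3.norm.pow 2).continuousOn
  have hbig : ∫ t in (T / 4)..(4 * T), P t ≤ ∫ t in (-(4 * T))..(4 * T), P t := by
    apply intervalIntegral.integral_mono_interval (by linarith) (by linarith) le_rfl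
    · exact Filter.Eventually.of_forall hP0
    · exact hPc.intervalIntegrable _ _
  have hstep : ∫ t in (T / 4)..(4 * T), ‖GmX χ d T ((σ : ℂ) + (t : ℂ) * Complex.I)‖ ^ 2 ≤
      2 * (C * J * (A * T ^ (1 - 5 * d ^ 2 / 32))) + 32 * C' ^ 2 := by
    have hTm : T * T ^ (-1 : ℝ) = 1 := by
      rw [Real.rpow_neg_one]
      exact mul_inv_cancel₀ hT0.ne'
    have hTm0 : 0 < T ^ (-1 : ℝ) := by positivity
    calc _ ≤ ∫ t in (T / 4)..(4 * T), (2 * P t + 8 * C' ^ 2 * T ^ (-1 : ℝ)) := by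
          apply intervalIntegral.integral_mono_on (by linarith) hGc.intervalIntegrable
          · apply Continuous.intervalIntegrable
            fun_prop
          · exact hpt
      _ = 2 * (∫ t in (T / 4)..(4 * T), P t) + (4 * T - T / 4) * (8 * C' ^ 2 * T ^ (-1 : ℝ)) := by
          rw [intervalIntegral.integral_add, intervalIntegral.integral_const_mul,
            intervalIntegral.integral_const, smul_eq_mul]
          · exact (hPc.const_mul 2 |>.intervalIntegrable _ _)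
          · exact intervalIntegrable_const
      _ ≤ 2 * (C * J * (A * T ^ (1 - 5 * d ^ 2 / 32))) + 4 * T * (8 * C' ^ 2 * T ^ (-1 : ℝ)) := by
          have h1 := hbig.trans hPint
          have h2 : (4 * T - T / 4) * (8 * C' ^ 2 * T ^ (-1 : ℝ)) ≤ 4 * T * (8 * C' ^ 2 * T ^ (-1 : ℝ)) := by
            apply mul_le_mul_of_nonneg_right (by linarith) (by positivity)
          linarith
      _ = 2 * (C * J * (A * T ^ (1 - 5 * d ^ 2 / 32))) + 32 * C' ^ 2 * (T * T ^ (-1 : ℝ)) := by ring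
      _ = _ := by rw [hTm, mul_one]
  refine hstep.trans ?_
  have hTp : 0 < T ^ (1 - 5 * d ^ 2 / 32) := by positivity
  have h1 : (1 : ℝ) ≤ T ^ (1 - 5 * d ^ 2 / 32) := by
    apply Real.one_le_rpow hT1'
    nlinarith
  have h1' : 32 * C' ^ 2 ≤ 32 * C' ^ 2 * T ^ (1 - 5 * d ^ 2 / 32) :=
    le_mul_of_one_le_right (by positivity) h1
  have h2 : C * J * (A * T ^ (1 - 5 * d ^ 2 / 32)) ≤
      (C * (D * A)) * Real.log T * T ^ (1 - 5 * d ^ 2 / 32) := by
    have h3 : C * J * (A * T ^ (1 - 5 * d ^ 2 / 32)) = (C * A * T ^ (1 - 5 * d ^ 2 / 32)) * J := by ring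
    have h4 : (C * A * T ^ (1 - 5 * d ^ 2 / 32)) * J ≤
        (C * A * T ^ (1 - 5 * d ^ 2 / 32)) * (D * Real.log T) :=
      mul_le_mul_of_nonneg_left hJle (by positivity)
    rw [h3]
    refine h4.trans (le_of_eq ?_)
    ring
  calc 2 * (C * J * (A * T ^ (1 - 5 * d ^ 2 / 32))) + 32 * C' ^ 2
      ≤ 2 * ((C * (D * A)) * Real.log T * T ^ (1 - 5 * d ^ 2 / 32)) +
          32 * C' ^ 2 * T ^ (1 - 5 * d ^ 2 / 32) := by linarith
    _ = (2 * (C * (D * A)) * Real.log T + 32 * C' ^ 2) * T ^ (1 - 5 * d ^ 2 / 32) := by ring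
    _ ≤ T ^ (d ^ 2 / 32) * T ^ (1 - 5 * d ^ 2 / 32) := mul_le_mul_of_nonneg_right hg hTp.le
    _ = T ^ (1 - d ^ 2 / 8) := by
        rw [← Real.rpow_add hT0]
        congr 1
        ring

end

end Pool.Agent.H50.RQ
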