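import Pool.Agent.H50.RQ.Df

/-!
[H50 RQ MX] Mixing a finite family of `L`-functions.

PROOF. `cc ρ = Σ_j α_j ord_ρ F_j`. Each `ord_ρ F_j` vanishes unless `F_j ρ = 0` (value nonzero: order `0`; `F_j` is entire). So `Σ'_{ρ : (L j).Z} m(ρ) h(ρ)` is the sum over all `ρ : ℂ` of `ord_ρ F_j h(ρ)`
(`tsum_subtype`, support), absolutely convergent (`summable_subtype_iff_indicator`/`Summable` with support in the zeros). `mix`: the finite linear combination of these sums over `ℂ` is `Σ'_{ρ : ℂ} cc ρ h ρ`, whose support is in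
`{ρ | cc ρ ≠ 0}`; `‖cc ρ‖ ≤ Σ_j ‖α_j‖ ord_ρ F_j`. `mix_w`: if `cc ρ ≠ 0` then some `ord_ρ F_j ≥ 1`, so `1 + ‖cc ρ‖ ≤ Σ_j (1 + ‖α_j‖) ord_ρ F_j`; compare.
-/

set_option autoImplicit false

namespace Pool.Agent.H50.RQ

open MeasureTheory Filter Topology
open Pool.Agent.H50.RL (SC Lp Lf Wk Ft)

/-- the coefficient of a mixture -/
noncomputable def cc {J : Type} [Fintype J] (L : J → LF) (α : J → ℂ) (ρ : ℂ) : ℂ :=
  ∑ j, α j * (analyticOrderNatAt (L j).F ρ : ℂ)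

private theorem mx_zero (L : LF) {ρ : ℂ} (h : L.F ρ ≠ 0) : analyticOrderNatAt L.F ρ = 0 := by
  have h1 : AnalyticAt ℂ L.F ρ := L.diff.analyticAt ρ
  have h2 := h1.analyticOrderAt_eq_zero.2 h
  rw [analyticOrderNatAt, h2]
  rfl

private theorem mx_sum (L : LF) (w : ℂ → ℝ) (hs : Summable fun ρ : L.Z => L.m ρ * w ρ) :
    Summable fun ρ : ℂ => (analyticOrderNatAt L.F ρ : ℝ) * w ρ := by
  have hi : Function.Injective (Subtype.val : L.Z → ℂ) := Subtype.val_injective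
  refine (hi.summable_iff fun x hx => ?_).1 hs
  have h1 : L.F x ≠ 0 := fun h => hx ⟨⟨x, h⟩, rfl⟩
  rw [mx_zero L h1, Nat.cast_zero, zero_mul]

private theorem mx_tsum (L : LF) (h : ℂ → ℂ) :
    ∑' ρ : L.Z, (L.m ρ : ℂ) * h ρ = ∑' ρ : ℂ, (analyticOrderNatAt L.F ρ : ℂ) * h ρ := by
  have hi : Function.Injective (Subtype.val : L.Z → ℂ) := Subtype.val_injective
  have h1 := hi.tsum_eq (f := fun ρ : ℂ => (analyticOrderNatAt L.F ρ : ℂ) * h ρ) (fun x hx => by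
    refine ⟨⟨x, ?_⟩, rfl⟩
    by_contra h2
    apply hx
    show (analyticOrderNatAt L.F x : ℂ) * h x = 0
    rw [mx_zero L h2, Nat.cast_zero, zero_mul])
  rw [← h1]
  refine tsum_congr fun ρ => ?_
  show ((analyticOrderNatAt L.F (ρ : ℂ) : ℝ) : ℂ) * h ρ = _
  rw [Complex.ofReal_natCast]

private theorem mx_cc {J : Type} [Fintype J] (L : J → LF) (α : J → ℂ) (ρ : ℂ) :
    ‖cc L α ρ‖ ≤ ∑ j, ‖α j‖ * (analyticOrderNatAt (L j).F ρ : ℝ) := by
  refine (norm_sum_le _ _).trans (Finset.sum_le_sum fun j _ => ?_)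
  rw [norm_mul, Complex.norm_natCast]

theorem mix {J : Type} [Fintype J] (L : J → LF) (α : J → ℂ) (h : ℂ → ℂ)
    (hs : ∀ j, Summable fun ρ : (L j).Z => (L j).m ρ * ‖h ρ‖) :
    (Summable fun i : {ρ : ℂ // cc L α ρ ≠ 0} => ‖cc L α i‖ * ‖h i‖) ∧
    ∑ j, α j * ∑' ρ : (L j).Z, ((L j).m ρ : ℂ) * h ρ = ∑' i : {ρ : ℂ // cc L α ρ ≠ 0}, cc L α i * h i := by
  have hs' : ∀ j, Summable fun ρ : ℂ => (analyticOrderNatAt (L j).F ρ : ℝ) * ‖h ρ‖ := fun j =>
    mx_sum (L j) (fun ρ => ‖h ρ‖) (hs j)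
  have hsc : ∀ j, Summable fun ρ : ℂ => α j * ((analyticOrderNatAt (L j).F ρ : ℂ) * h ρ) := by
    intro j
    refine Summable.mul_left _ (Summable.of_norm ?_)
    refine (hs' j).congr fun ρ => ?_
    rw [norm_mul, Complex.norm_natCast]
  constructor
  · have h1 : Summable fun ρ : ℂ =>
        ∑ j, ‖α j‖ * ((analyticOrderNatAt (L j).F ρ : ℝ) * ‖h ρ‖) :=
      summable_sum fun j _ => (hs' j).mul_left _
    refine Summable.of_nonneg_of_le (fun i => by positivity) (fun i => ?_)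
      (h1.comp_injective (Subtype.val_injective (p := fun ρ : ℂ => cc L α ρ ≠ 0)))
    show ‖cc L α i‖ * ‖h i‖ ≤ ∑ j, ‖α j‖ * ((analyticOrderNatAt (L j).F (i : ℂ) : ℝ) * ‖h i‖)
    refine (mul_le_mul_of_nonneg_right (mx_cc L α i) (norm_nonneg _)).trans (le_of_eq ?_)
    rw [Finset.sum_mul]
    exact Finset.sum_congr rfl fun j _ => mul_assoc _ _ _
  · have h1 : ∑ j, α j * ∑' ρ : (L j).Z, ((L j).m ρ : ℂ) * h ρ = ∑' ρ : ℂ, cc L α ρ * h ρ := by
      have h2 : ∀ j, α j * ∑' ρ : (L j).Z, ((L j).m ρ : ℂ) * h ρ =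
          ∑' ρ : ℂ, α j * ((analyticOrderNatAt (L j).F ρ : ℂ) * h ρ) := fun j => by
        rw [mx_tsum, tsum_mul_left]
      rw [Finset.sum_congr rfl fun j _ => h2 j, ← Summable.tsum_finsetSum fun j _ => hsc j]
      refine tsum_congr fun ρ => ?_
      unfold cc
      rw [Finset.sum_mul]
      exact Finset.sum_congr rfl fun j _ => (mul_assoc _ _ _).symm
    rw [h1]
    refine ((Subtype.val_injective (p := fun ρ : ℂ => cc L α ρ ≠ 0)).tsum_eq
      (f := fun ρ : ℂ => cc L α ρ * h ρ) fun x hx => ?_).symm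
    refine ⟨⟨x, fun h2 => hx ?_⟩, rfl⟩
    show cc L α x * h x = 0
    rw [h2, zero_mul]

theorem mix_w {J : Type} [Fintype J] (L : J → LF) (α : J → ℂ) (w : ℂ → ℝ) (hw : ∀ ρ, 0 ≤ w ρ)
    (hs : ∀ j, Summable fun ρ : (L j).Z => (L j).m ρ * w ρ) :
    Summable fun i : {ρ : ℂ // cc L α ρ ≠ 0} => (1 + ‖cc L α i‖) * w i := by
  have hs' : ∀ j, Summable fun ρ : ℂ => (analyticOrderNatAt (L j).F ρ : ℝ) * w ρ := fun j =>
    mx_sum (L j) w (hs j)
  have h1 : Summable fun ρ : ℂ =>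
      ∑ j, (1 + ‖α j‖) * ((analyticOrderNatAt (L j).F ρ : ℝ) * w ρ) :=
    summable_sum fun j _ => (hs' j).mul_left _
  refine Summable.of_nonneg_of_le (fun i => mul_nonneg (by positivity) (hw _)) (fun i => ?_)
    (h1.comp_injective (Subtype.val_injective (p := fun ρ : ℂ => cc L α ρ ≠ 0)))
  show (1 + ‖cc L α i‖) * w i ≤
    ∑ j, (1 + ‖α j‖) * ((analyticOrderNatAt (L j).F (i : ℂ) : ℝ) * w i)
  have h2 : (1 : ℝ) ≤ ∑ j, (analyticOrderNatAt (L j).F (i : ℂ) : ℝ) := by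
    by_contra hc
    have h3 : ∀ j, analyticOrderNatAt (L j).F (i : ℂ) = 0 := by
      intro j
      by_contra h4
      have h5 : (1 : ℝ) ≤ (analyticOrderNatAt (L j).F (i : ℂ) : ℝ) := by
        exact_mod_cast Nat.one_le_iff_ne_zero.2 h4
      exact hc (h5.trans (Finset.single_le_sum
        (f := fun j => (analyticOrderNatAt (L j).F (i : ℂ) : ℝ))
        (fun j _ => Nat.cast_nonneg _) (Finset.mem_univ j)))
    apply i.2
    show ∑ j, α j * (analyticOrderNatAt (L j).F (i : ℂ) : ℂ) = 0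
    refine Finset.sum_eq_zero fun j _ => ?_
    rw [h3 j, Nat.cast_zero, mul_zero]
  have h3 : 1 + ‖cc L α i‖ ≤ ∑ j, (1 + ‖α j‖) * (analyticOrderNatAt (L j).F (i : ℂ) : ℝ) := by
    refine (add_le_add h2 (mx_cc L α i)).trans (le_of_eq ?_)
    rw [← Finset.sum_add_distrib]
    exact Finset.sum_congr rfl fun j _ => by ring
  refine (mul_le_mul_of_nonneg_right h3 (hw _)).trans (le_of_eq ?_)
  rw [Finset.sum_mul]
  exact Finset.sum_congr rfl fun j _ => mul_assoc _ _ _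

end Pool.Agent.H50.RQ
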