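import Pool.Agent.H50.RQ.Gx
import Pool.Agent.H50.RQ.Xc

/-!
[H50 RQ PW] The primitive characters: values at integers coprime to `q`, complex conjugation.

PROOF. `gx_coprime`: `χ = 1`: `χ n = 1`. Otherwise `DirichletCharacter.primitiveCharacter_apply_of_isCoprime` (with `a = (n : ℤ)`, casts).
`gx_le`: `DirichletCharacter.norm_le_one`.
For `χ ≠ 1`: `χ.primitiveCharacter⁻¹` (mod `d = χ.conductor`) changes level to `χ⁻¹` (`changeLevel` is a homomorphism, `map_inv`), so `χ⁻¹.conductor = d` (`conductor` is the least level a character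
factors through; both directions; or a Mathlib lemma on the conductor of an inverse). Prove the auxiliary lemma: for `d, d' ∣ q`, `d = d'`, `ψ` mod `d`, `ψ'` mod `d'`, `changeLevel _ ψ = χ`, `changeLevel _ ψ' = χ⁻¹`:
`∀ n, ψ' n = conj (ψ n)` and `LFunction ψ' = LFunction ψ⁻¹` (stated with `subst`: then `ψ' = ψ⁻¹` by `changeLevel_injective`), apply it to the two primitive characters.
`gx_conj`: `ψ⁻¹ n = conj (ψ n)` (see RQ/Xc). `LL_conj_order`: `χ = 1`: `χ⁻¹ = 1` and `RL.FF (conj s) = conj (RL.FF s)` (`riemannZeta_conj`-type lemma, see `mz_conj` in RL/Zf.lean; at zeros and non zeros of `FF`; at `1` both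
orders are `0` as `FF 1 = 1`); `χ ≠ 1`: `chi_conj_order` for the primitive character.
-/

set_option autoImplicit false

namespace Pool.Agent.H50.RQ

open MeasureTheory Filter Topology
open Pool.Agent.H50.RL (SC Lp Lf Wk Ft)

theorem gx_coprime {q : ℕ} [NeZero q] (χ : DirichletCharacter ℂ q) (n : ℕ) (h : n.Coprime q) : gx χ n = χ n := by
  unfold gx
  split_ifs with h1
  · rw [h1, MulChar.one_apply ((ZMod.isUnit_iff_coprime n q).2 h)]
  · have h2 := DirichletCharacter.primitiveCharacter_apply_of_isCoprime χ (a := (n : ℤ))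
      (Nat.isCoprime_iff_coprime.2 h)
    rw [Int.cast_natCast, Int.cast_natCast] at h2
    exact h2

theorem gx_le {q : ℕ} [NeZero q] (χ : DirichletCharacter ℂ q) (n : ℕ) : ‖gx χ n‖ ≤ 1 := by
  unfold gx
  split_ifs with h1
  · rw [norm_one]
  · exact DirichletCharacter.norm_le_one _ _

private theorem pw_aux {q d d' : ℕ} [NeZero d] [NeZero d'] [NeZero q] (hd : d ∣ q) (hd' : d' ∣ q)
    (h : d = d') (χ : DirichletCharacter ℂ q) (ψ : DirichletCharacter ℂ d) (ψ' : DirichletCharacter ℂ d')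
    (h1 : DirichletCharacter.changeLevel hd ψ = χ) (h2 : DirichletCharacter.changeLevel hd' ψ' = χ⁻¹)
    (hψ : ψ ≠ 1) : (∀ n : ℕ, ψ' n = (starRingEnd ℂ) (ψ n)) ∧
      ∀ ρ : ℂ, analyticOrderNatAt (DirichletCharacter.LFunction ψ') ((starRingEnd ℂ) ρ) =
        analyticOrderNatAt (DirichletCharacter.LFunction ψ) ρ := by
  subst h
  have h3 : ψ' = ψ⁻¹ := by
    apply DirichletCharacter.changeLevel_injective hd'
    rw [h2, map_inv, h1]
  rw [h3]
  exact ⟨fun n => (MulChar.star_apply' ψ _).symm, fun ρ => chi_conj_order d ψ hψ ρ⟩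

private theorem pw_prim {q : ℕ} [NeZero q] (χ : DirichletCharacter ℂ q) (hχ : χ ≠ 1) :
    (∀ n : ℕ, χ⁻¹.primitiveCharacter n = (starRingEnd ℂ) (χ.primitiveCharacter n)) ∧
      ∀ ρ : ℂ, analyticOrderNatAt (DirichletCharacter.LFunction χ⁻¹.primitiveCharacter) ((starRingEnd ℂ) ρ) =
        analyticOrderNatAt (DirichletCharacter.LFunction χ.primitiveCharacter) ρ :=
  pw_aux χ.conductor_dvd_level χ⁻¹.conductor_dvd_level (DirichletCharacter.conductor_inv χ).symm χ
    χ.primitiveCharacter χ⁻¹.primitiveCharacter (DirichletCharacter.changeLevel_primitiveCharacter χ)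
    (DirichletCharacter.changeLevel_primitiveCharacter χ⁻¹) (prim_ne_one χ hχ)

theorem gx_conj {q : ℕ} [NeZero q] (χ : DirichletCharacter ℂ q) (n : ℕ) : gx χ⁻¹ n = (starRingEnd ℂ) (gx χ n) := by
  unfold gx
  by_cases h1 : χ = 1
  · rw [h1, if_pos rfl, if_pos inv_one, map_one]
  · rw [if_neg h1, if_neg (inv_ne_one.2 h1), (pw_prim χ h1).1 n]

private theorem pw_an {g : ℂ → ℂ} {s : ℂ} (hg : AnalyticAt ℂ g s) :
    AnalyticAt ℂ ((starRingEnd ℂ) ∘ g ∘ (starRingEnd ℂ)) ((starRingEnd ℂ) s) := by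
  rw [Complex.analyticAt_iff_eventually_differentiableAt] at hg ⊢
  have h1 : Tendsto (starRingEnd ℂ) (𝓝 ((starRingEnd ℂ) s)) (𝓝 s) := by
    have h2 := (Complex.continuous_conj.tendsto ((starRingEnd ℂ) s))
    rwa [Complex.conj_conj] at h2
  filter_upwards [h1.eventually hg] with z hz
  have h3 := hz.conj_conj
  rwa [Complex.conj_conj] at h3

private theorem pw_ord {f g : ℂ → ℂ} {s : ℂ} (hf : AnalyticAt ℂ f s) (hg : AnalyticAt ℂ g ((starRingEnd ℂ) s))
    (hfg : ∀ z, g ((starRingEnd ℂ) z) = (starRingEnd ℂ) (f z)) :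
    analyticOrderAt g ((starRingEnd ℂ) s) = analyticOrderAt f s := by
  have h5 : Tendsto (starRingEnd ℂ) (𝓝 ((starRingEnd ℂ) s)) (𝓝 s) := by
    have h2 := (Complex.continuous_conj.tendsto ((starRingEnd ℂ) s))
    rwa [Complex.conj_conj] at h2
  have h6 : ∀ z, g z = (starRingEnd ℂ) (f ((starRingEnd ℂ) z)) := fun z => by
    rw [← hfg, Complex.conj_conj]
  by_cases hT : analyticOrderAt f s = ⊤
  · rw [hT, analyticOrderAt_eq_top]
    rw [analyticOrderAt_eq_top] at hT
    filter_upwards [h5.eventually hT] with z hz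
    rw [h6, hz, map_zero]
  · obtain ⟨n, hn⟩ := ENat.ne_top_iff_exists.1 hT
    rw [← hn]
    obtain ⟨g', hg1, hg2, hg3⟩ := hf.analyticOrderAt_eq_natCast.1 hn.symm
    refine hg.analyticOrderAt_eq_natCast.2 ⟨(starRingEnd ℂ) ∘ g' ∘ (starRingEnd ℂ), pw_an hg1, ?_, ?_⟩
    · intro h3
      apply hg2
      have h4 : (starRingEnd ℂ) (g' ((starRingEnd ℂ) ((starRingEnd ℂ) s))) = 0 := h3
      rw [Complex.conj_conj, map_eq_zero] at h4
      exact h4
    · filter_upwards [h5.eventually hg3] with z hz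
      rw [h6, hz, smul_eq_mul, map_mul, map_pow, map_sub, Complex.conj_conj]
      rfl

private theorem pw_FF (z : ℂ) : RL.FF ((starRingEnd ℂ) z) = (starRingEnd ℂ) (RL.FF z) := by
  by_cases h1 : z = 1
  · rw [h1, map_one, RL.FF, Function.update_self, map_one]
  · have h2 : (starRingEnd ℂ) z ≠ 1 := by
      intro h
      apply h1
      rw [← Complex.conj_conj z, h, map_one]
    rw [RL.FF, Function.update_of_ne h1, Function.update_of_ne h2, map_mul, map_sub, map_one, riemannZeta_conj]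

theorem LL_conj_order {q : ℕ} [NeZero q] (χ : DirichletCharacter ℂ q) (ρ : ℂ) :
    analyticOrderNatAt (LL χ⁻¹) ((starRingEnd ℂ) ρ) = analyticOrderNatAt (LL χ) ρ := by
  unfold LL
  by_cases h1 : χ = 1
  · rw [h1, if_pos rfl, if_pos inv_one]
    unfold analyticOrderNatAt
    rw [pw_ord (RL.FF_diff.analyticAt ρ) (RL.FF_diff.analyticAt _) pw_FF]
  · rw [if_neg h1, if_neg (inv_ne_one.2 h1)]
    exact (pw_prim χ h1).2 ρ

end Pool.Agent.H50.RQ
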