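import Pool.Agent.H50.RQ.Xu
import Pool.Agent.H50.RL.Zg

/-!
[H50 RQ XG] `L(s, χ)` has order one.

PROOF. Like RL/Zg.lean. It suffices to bound by `K exp(B (1+‖z‖)^a)` with some `K, B ≥ 0`. `Φ = χ` has `Σ Φ = 0` (`χ.sum_eq_zero_of_ne_one`) and `Φ 0 = 0`
(`N ≠ 1` since `χ ≠ 1`; `χ.map_zero'`).
(1) `Re z ≥ 1/2`: `phi_ub` and `1 + ‖z‖ ≤ exp((1 + ‖z‖)^a)`.
(2) `Re z ≤ 1/2`: `z = 1 - s`, `Re s ≥ 1/2`; `ZMod.LFunction_one_sub` (`s ≠ -n`, `Φ 0 = 0`):
`L(z) = N^(s-1) (2π)^(-s) Γ(s) (e^(πis/2) L(𝓕Φ, s) + e^(-πis/2) L(𝓕Φ(-·), s))`. `Σ_j 𝓕Φ j = 𝓕(𝓕Φ) 0 = N Φ 0 = 0` (`ZMod.dft_dft`, `ZMod.dft_apply_zero`; the same for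
`x ↦ Φ(-x)`), so `phi_ub` for both. `‖N^(s-1)‖ ≤ N^(‖s‖)`, `‖(2π)^(-s)‖ ≤ 1`, `‖e^(±πis/2)‖ ≤ exp(2‖s‖)`, `‖Γ(s)‖ ≤ Γ(Re s) ≤ 4 exp(x log(2(x+1)))`, `x = Re s`
(see RL/Zg.lean; copy the private lemmas on `Γ`), `log(1+x) ≤ (1+x)^(a-1)/(a-1)`, `‖s‖ ≤ 1 + ‖z‖`.
-/

set_option autoImplicit false

namespace Pool.Agent.H50.RQ

open MeasureTheory Filter Topology
open Pool.Agent.H50.RL (SC Lp Lf Wk Ft)

private lemma zg_log_le (x t : ℝ) (hx : 0 ≤ x) (ht : 0 < t) :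
    t ^ x ≤ Real.exp (x * Real.log (2 * (x + 1))) * Real.exp (t / 2) := by
  rw [Real.rpow_def_of_pos ht, ← Real.exp_add]
  apply Real.exp_le_exp.mpr
  have ha : (0 : ℝ) < 2 * (x + 1) := by linarith
  have h1 : Real.log (t / (2 * (x + 1))) ≤ t / (2 * (x + 1)) - 1 :=
    Real.log_le_sub_one_of_pos (div_pos ht ha)
  rw [Real.log_div ht.ne' ha.ne'] at h1
  have h2 : Real.log t ≤ Real.log (2 * (x + 1)) + t / (2 * (x + 1)) := by linarith
  have h3 : x * (t / (2 * (x + 1))) ≤ t / 2 := by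
    have : x * (t / (2 * (x + 1))) = (t / 2) * (x / (x + 1)) := by
      field_simp
    rw [this]
    have h4 : x / (x + 1) ≤ 1 := by
      rw [div_le_one (by linarith)]
      linarith
    have h5 : 0 ≤ t / 2 := by linarith
    calc (t / 2) * (x / (x + 1)) ≤ (t / 2) * 1 := mul_le_mul_of_nonneg_left h4 h5
      _ = t / 2 := mul_one _
  calc Real.log t * x = x * Real.log t := mul_comm _ _
    _ ≤ x * (Real.log (2 * (x + 1)) + t / (2 * (x + 1))) := mul_le_mul_of_nonneg_left h2 hx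
    _ = x * Real.log (2 * (x + 1)) + x * (t / (2 * (x + 1))) := by ring
    _ ≤ x * Real.log (2 * (x + 1)) + t / 2 := by linarith

private lemma zg_Gamma_succ_le (x : ℝ) (hx : 0 ≤ x) :
    Real.Gamma (x + 1) ≤ 2 * Real.exp (x * Real.log (2 * (x + 1))) := by
  rw [Real.Gamma_eq_integral (by linarith)]
  have hint : MeasureTheory.IntegrableOn
      (fun t : ℝ => Real.exp (x * Real.log (2 * (x + 1))) * Real.exp (-(1 / 2) * t)) (Set.Ioi 0) := by
    have := integrableOn_exp_mul_Ioi (a := -(1 / 2 : ℝ)) (by norm_num) 0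
    exact this.const_mul _
  calc ∫ t in Set.Ioi (0 : ℝ), Real.exp (-t) * t ^ (x + 1 - 1)
      ≤ ∫ t in Set.Ioi (0 : ℝ),
          Real.exp (x * Real.log (2 * (x + 1))) * Real.exp (-(1 / 2) * t) := by
        apply MeasureTheory.setIntegral_mono_on (Real.GammaIntegral_convergent (by linarith)) hint
          measurableSet_Ioi
        intro t ht
        have ht0 : 0 < t := ht
        rw [add_sub_cancel_right]
        calc Real.exp (-t) * t ^ x
            ≤ Real.exp (-t) * (Real.exp (x * Real.log (2 * (x + 1))) * Real.exp (t / 2)) :=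
              mul_le_mul_of_nonneg_left (zg_log_le x t hx ht0) (Real.exp_pos _).le
          _ = Real.exp (x * Real.log (2 * (x + 1))) * (Real.exp (-t) * Real.exp (t / 2)) := by ring
          _ = Real.exp (x * Real.log (2 * (x + 1))) * Real.exp (-(1 / 2) * t) := by
              rw [← Real.exp_add]
              congr 2
              ring
    _ = 2 * Real.exp (x * Real.log (2 * (x + 1))) := by
        rw [MeasureTheory.integral_const_mul, integral_exp_mul_Ioi (by norm_num)]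
        simp
        ring

private lemma zg_norm_Gamma_le (s : ℂ) (hs : 0 < s.re) :
    ‖Complex.Gamma s‖ ≤ Real.Gamma s.re := by
  rw [Complex.Gamma_eq_integral hs, Real.Gamma_eq_integral hs, Complex.GammaIntegral]
  refine (MeasureTheory.norm_integral_le_integral_norm _).trans (le_of_eq ?_)
  apply MeasureTheory.setIntegral_congr_fun measurableSet_Ioi
  intro t ht
  have ht0 : 0 < t := ht
  simp only [norm_mul]
  rw [Complex.norm_cpow_eq_rpow_re_of_pos ht0]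
  simp [Complex.norm_exp]

private lemma zg_gamma (a : ℝ) (ha : 1 < a) (s : ℂ) (hs : 1 / 2 ≤ s.re) (R : ℝ) (hR : 1 ≤ R)
    (hsR : ‖s‖ ≤ R) : ‖Complex.Gamma s‖ ≤ 4 * Real.exp ((3 + 1 / (a - 1)) * R ^ a) := by
  have hx : 0 < s.re := by linarith
  have h0 : ‖Complex.Gamma s‖ ≤ Real.Gamma s.re := zg_norm_Gamma_le s hx
  have h1 : Real.Gamma (s.re + 1) = s.re * Real.Gamma s.re := Real.Gamma_add_one hx.ne'
  have h2 := zg_Gamma_succ_le s.re hx.le
  have hG : 0 < Real.Gamma s.re := Real.Gamma_pos_of_pos hx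
  have h3 : Real.Gamma s.re ≤ 4 * Real.exp (s.re * Real.log (2 * (s.re + 1))) := by
    nlinarith
  have hxR : s.re ≤ R := (Complex.re_le_norm s).trans hsR
  have hR0 : 0 < R := by linarith
  have hRa : R ≤ R ^ a := by
    conv_lhs => rw [← Real.rpow_one R]
    exact Real.rpow_le_rpow_of_exponent_le hR ha.le
  have hlog : Real.log (2 * (s.re + 1)) ≤ 3 + R ^ (a - 1) / (a - 1) := by
    have h4 : Real.log (2 * (s.re + 1)) ≤ Real.log (4 * R) :=
      Real.log_le_log (by linarith) (by linarith)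
    rw [Real.log_mul (by norm_num) hR0.ne'] at h4
    have h5 : Real.log 4 ≤ 3 := by
      have := Real.log_le_sub_one_of_pos (show (0 : ℝ) < 4 by norm_num)
      linarith
    have h6 : Real.log R ≤ R ^ (a - 1) / (a - 1) := Real.log_le_rpow_div hR0.le (by linarith)
    linarith
  have h7 : s.re * Real.log (2 * (s.re + 1)) ≤ (3 + 1 / (a - 1)) * R ^ a := by
    have hnn : 0 ≤ 3 + R ^ (a - 1) / (a - 1) := by
      have : 0 ≤ R ^ (a - 1) / (a - 1) := div_nonneg (by positivity) (by linarith)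
      linarith
    have hmul : R * R ^ (a - 1) = R ^ a := by
      rw [Real.rpow_sub_one hR0.ne']
      field_simp
    calc s.re * Real.log (2 * (s.re + 1)) ≤ s.re * (3 + R ^ (a - 1) / (a - 1)) :=
          mul_le_mul_of_nonneg_left hlog hx.le
      _ ≤ R * (3 + R ^ (a - 1) / (a - 1)) := mul_le_mul_of_nonneg_right hxR hnn
      _ = 3 * R + (R * R ^ (a - 1)) / (a - 1) := by ring
      _ = 3 * R + R ^ a / (a - 1) := by rw [hmul]
      _ ≤ 3 * R ^ a + R ^ a / (a - 1) := by linarith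
      _ = (3 + 1 / (a - 1)) * R ^ a := by ring
  refine (h0.trans h3).trans ?_
  exact mul_le_mul_of_nonneg_left (Real.exp_le_exp.mpr h7) (by norm_num)

private theorem xg_ft (N : ℕ) [NeZero N] (Φ : ZMod N → ℂ) (h0 : Φ 0 = 0) : ∑ j, ZMod.dft Φ j = 0 := by
  have h1 := ZMod.dft_apply_zero (ZMod.dft Φ)
  rw [← h1, ZMod.dft_dft]
  simp [h0]

private theorem xg_exp (z : ℂ) (c : ℂ) (hc : ‖c‖ ≤ 1) : ‖Complex.exp (c * Real.pi * Complex.I * z / 2)‖ ≤ Real.exp (2 * ‖z‖) := by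
  refine (Complex.norm_exp_le_exp_norm _).trans (Real.exp_le_exp.2 ?_)
  rw [norm_div, norm_mul, norm_mul, norm_mul, Complex.norm_I, mul_one, Complex.norm_ofNat, Complex.norm_real,
    Real.norm_of_nonneg Real.pi_pos.le, div_le_iff₀ (by norm_num)]
  have h1 := Real.pi_lt_four
  have h2 := Real.pi_pos
  have h3 : ‖c‖ * Real.pi ≤ 4 := by nlinarith [norm_nonneg c]
  have h4 := norm_nonneg z
  nlinarith

private theorem xg_left (N : ℕ) [NeZero N] (Φ : ZMod N → ℂ) (h0 : Φ 0 = 0) :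
    ∃ C : ℝ, 0 < C ∧ ∀ (a : ℝ), 1 < a → ∀ w : ℂ, w.re ≤ 1 / 2 → ‖ZMod.LFunction Φ w‖ ≤
      C * Real.exp ((7 + Real.log N + 1 / (a - 1)) * (1 + ‖w‖) ^ a) := by
  obtain ⟨C₁, hC₁, h1⟩ := phi_ub N (ZMod.dft Φ) (xg_ft N Φ h0)
  obtain ⟨C₂, hC₂, h2⟩ := phi_ub N (ZMod.dft fun x => Φ (-x)) (xg_ft N (fun x => Φ (-x)) (by rw [neg_zero, h0]))
  refine ⟨8 * (C₁ + C₂), by positivity, ?_⟩
  intro a ha w hw
  obtain ⟨s, hs⟩ : ∃ s : ℂ, s = 1 - w := ⟨_, rfl⟩
  have hws : w = 1 - s := by rw [hs]; ring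
  have hsre : 1 / 2 ≤ s.re := by
    rw [hs, Complex.sub_re, Complex.one_re]
    linarith
  have hsn : ∀ n : ℕ, s ≠ -n := by
    intro n h
    rw [h] at hsre
    simp at hsre
    have : (0 : ℝ) ≤ n := n.cast_nonneg
    linarith
  have hsnorm : ‖s‖ ≤ 1 + ‖w‖ := by
    rw [hs]
    refine (norm_sub_le _ _).trans ?_
    rw [norm_one]
  have hpi : ‖(2 * (Real.pi : ℂ)) ^ (-s)‖ ≤ 1 := by
    have e : (2 * (Real.pi : ℂ)) = ((2 * Real.pi : ℝ) : ℂ) := by push_cast; rfl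
    rw [e, Complex.norm_cpow_eq_rpow_re_of_pos (by positivity)]
    apply Real.rpow_le_one_of_one_le_of_nonpos
    · have := Real.pi_gt_three
      linarith
    · rw [Complex.neg_re]
      linarith
  have hN1 : (1 : ℝ) ≤ (N : ℝ) := by exact_mod_cast NeZero.one_le
  have hN0 : (0 : ℝ) < (N : ℝ) := by linarith
  have hlN : 0 ≤ Real.log N := Real.log_nonneg hN1
  obtain ⟨R, hRdef⟩ : ∃ R : ℝ, R = 1 + ‖w‖ := ⟨_, rfl⟩
  have hR1 : 1 ≤ R := by
    have := norm_nonneg w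
    linarith
  have hsR : ‖s‖ ≤ R := by linarith
  have hRa : R ≤ R ^ a := by
    conv_lhs => rw [← Real.rpow_one R]
    exact Real.rpow_le_rpow_of_exponent_le hR1 ha.le
  have hNs : ‖(N : ℂ) ^ (s - 1)‖ ≤ Real.exp (Real.log N * R) := by
    rw [← Complex.ofReal_natCast, Complex.norm_cpow_eq_rpow_re_of_pos hN0, Real.rpow_def_of_pos hN0]
    refine Real.exp_le_exp.2 (mul_le_mul_of_nonneg_left ?_ hlN)
    rw [Complex.sub_re, Complex.one_re]
    have := Complex.re_le_norm s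
    linarith
  have hgam := zg_gamma a ha s hsre R hR1 hsR
  have he1 : ‖Complex.exp (Real.pi * Complex.I * s / 2)‖ ≤ Real.exp (2 * R) := by
    have h3 := xg_exp s 1 (by rw [norm_one])
    rw [one_mul] at h3
    exact h3.trans (Real.exp_le_exp.2 (by linarith))
  have he2 : ‖Complex.exp (-Real.pi * Complex.I * s / 2)‖ ≤ Real.exp (2 * R) := by
    have h3 := xg_exp s (-1) (by rw [norm_neg, norm_one])
    rw [neg_one_mul] at h3
    exact h3.trans (Real.exp_le_exp.2 (by linarith))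
  have hb1 : ‖ZMod.LFunction (ZMod.dft Φ) s‖ ≤ C₁ * (2 * R) :=
    (h1 s (by linarith)).trans (mul_le_mul_of_nonneg_left (by linarith) hC₁.le)
  have hb2 : ‖ZMod.LFunction (ZMod.dft fun x => Φ (-x)) s‖ ≤ C₂ * (2 * R) :=
    (h2 s (by linarith)).trans (mul_le_mul_of_nonneg_left (by linarith) hC₂.le)
  rw [← hRdef, hws, ZMod.LFunction_one_sub Φ hsn (Or.inl h0), norm_mul, norm_mul, norm_mul]
  have hsum : ‖Complex.exp (Real.pi * Complex.I * s / 2) * ZMod.LFunction (ZMod.dft Φ) s +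
      Complex.exp (-Real.pi * Complex.I * s / 2) * ZMod.LFunction (ZMod.dft fun x => Φ (-x)) s‖ ≤
      Real.exp (2 * R) * ((C₁ + C₂) * (2 * R)) := by
    refine (norm_add_le _ _).trans ?_
    rw [norm_mul, norm_mul]
    have h3 := mul_le_mul he1 hb1 (norm_nonneg _) (Real.exp_pos _).le
    have h4 := mul_le_mul he2 hb2 (norm_nonneg _) (Real.exp_pos _).le
    calc _ ≤ Real.exp (2 * R) * (C₁ * (2 * R)) + Real.exp (2 * R) * (C₂ * (2 * R)) := add_le_add h3 h4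
      _ = Real.exp (2 * R) * ((C₁ + C₂) * (2 * R)) := by ring
  have hRe : R ≤ Real.exp R := by
    have := Real.add_one_le_exp R
    linarith
  calc ‖(N : ℂ) ^ (s - 1)‖ * ‖(2 * (Real.pi : ℂ)) ^ (-s)‖ * ‖Complex.Gamma s‖ * _
      ≤ Real.exp (Real.log N * R) * 1 * (4 * Real.exp ((3 + 1 / (a - 1)) * R ^ a)) *
        (Real.exp (2 * R) * ((C₁ + C₂) * (2 * Real.exp R))) := by
        refine mul_le_mul ?_ (hsum.trans ?_) (norm_nonneg _) (by positivity)
        · refine mul_le_mul ?_ hgam (norm_nonneg _) (by positivity)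
          exact mul_le_mul hNs hpi (norm_nonneg _) (Real.exp_pos _).le
        · refine mul_le_mul_of_nonneg_left ?_ (Real.exp_pos _).le
          exact mul_le_mul_of_nonneg_left (by linarith) (by positivity)
    _ = 8 * (C₁ + C₂) * (Real.exp (Real.log N * R) * Real.exp ((3 + 1 / (a - 1)) * R ^ a) *
        (Real.exp (2 * R) * Real.exp R)) := by ring
    _ = 8 * (C₁ + C₂) * Real.exp (Real.log N * R + (3 + 1 / (a - 1)) * R ^ a + (2 * R + R)) := by
        rw [← Real.exp_add, ← Real.exp_add, ← Real.exp_add]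
    _ ≤ 8 * (C₁ + C₂) * Real.exp ((7 + Real.log N + 1 / (a - 1)) * R ^ a) := by
        refine mul_le_mul_of_nonneg_left (Real.exp_le_exp.2 ?_) (by positivity)
        have h5 : Real.log N * R ≤ Real.log N * R ^ a := mul_le_mul_of_nonneg_left hRa hlN
        have h6 : 0 ≤ R ^ a := by linarith
        nlinarith

theorem chi_growth (N : ℕ) [NeZero N] (χ : DirichletCharacter ℂ N) (hχ : χ ≠ 1) (a : ℝ) (ha : 1 < a) :
    ∃ C : ℝ, ∀ z : ℂ, ‖DirichletCharacter.LFunction χ z‖ ≤ Real.exp (C * (1 + ‖z‖) ^ a) := by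
  have hN : N ≠ 1 := by
    rintro rfl
    exact hχ (Subsingleton.elim _ _)
  have h0 : χ 0 = 0 := by
    refine χ.map_nonunit fun h => ?_
    have h1 := isUnit_zero_iff.1 h
    have h2 : Nontrivial (ZMod N) := ZMod.nontrivial_iff.2 hN
    exact zero_ne_one h1
  have hsum : ∑ j, χ j = 0 := χ.sum_eq_zero_of_ne_one hχ
  obtain ⟨C₁, hC₁, h1⟩ := phi_ub N (fun j => χ j) hsum
  obtain ⟨C₂, hC₂, h2⟩ := xg_left N (fun j => χ j) h0
  have h2' := h2 a ha
  have ha1 : 0 < 1 / (a - 1) := by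
    have : 0 < a - 1 := by linarith
    positivity
  have hN1 : (1 : ℝ) ≤ (N : ℝ) := by exact_mod_cast NeZero.one_le
  have hlN : 0 ≤ Real.log N := Real.log_nonneg hN1
  obtain ⟨c, hc⟩ : ∃ c : ℝ, c = 7 + Real.log N + 1 / (a - 1) := ⟨_, rfl⟩
  rw [← hc] at h2'
  have hc7 : 7 ≤ c := by rw [hc]; linarith
  obtain ⟨K, hK⟩ : ∃ K : ℝ, K = C₁ + C₂ := ⟨_, rfl⟩
  have hK0 : 0 < K := by rw [hK]; linarith
  have hmain : ∀ z : ℂ, ‖DirichletCharacter.LFunction χ z‖ ≤ K * Real.exp (c * (1 + ‖z‖) ^ a) := by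
    intro z
    have hz0 := norm_nonneg z
    have hR1 : 1 ≤ 1 + ‖z‖ := by linarith
    have hRa : 1 + ‖z‖ ≤ (1 + ‖z‖) ^ a := by
      conv_lhs => rw [← Real.rpow_one (1 + ‖z‖)]
      exact Real.rpow_le_rpow_of_exponent_le hR1 ha.le
    have hE : 1 + ‖z‖ ≤ Real.exp (c * (1 + ‖z‖) ^ a) := by
      have h3 := Real.add_one_le_exp (c * (1 + ‖z‖) ^ a)
      nlinarith
    have hE0 := Real.exp_pos (c * (1 + ‖z‖) ^ a)
    rcases le_total (1 / 2) z.re with h | h
    · have h3 : ‖DirichletCharacter.LFunction χ z‖ ≤ C₁ * (1 + ‖z‖) := h1 z (by linarith)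
      refine h3.trans ((mul_le_mul_of_nonneg_left hE hC₁.le).trans ?_)
      exact mul_le_mul_of_nonneg_right (by rw [hK]; linarith) hE0.le
    · have h3 : ‖DirichletCharacter.LFunction χ z‖ ≤ C₂ * Real.exp (c * (1 + ‖z‖) ^ a) := h2' z h
      refine h3.trans ?_
      exact mul_le_mul_of_nonneg_right (by rw [hK]; linarith) hE0.le
  refine ⟨K + c, fun z => (hmain z).trans ?_⟩
  have hR1 : 1 ≤ (1 + ‖z‖) ^ a := Real.one_le_rpow (by linarith [norm_nonneg z]) (by linarith)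
  have h1 : K ≤ Real.exp (K * (1 + ‖z‖) ^ a) := by
    have h2 := Real.add_one_le_exp (K * (1 + ‖z‖) ^ a)
    nlinarith
  rw [add_mul, Real.exp_add]
  exact mul_le_mul_of_nonneg_right h1 (Real.exp_pos _).le

end Pool.Agent.H50.RQ
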