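import Pool.Agent.H50.RQ.Df
import Pool.Agent.H50.RQ.Xg

/-!
[H50 RQ XL] The `LF` of a nontrivial character.

PROOF of `chi_ld`: `DirichletCharacter.LSeries_twist_vonMangoldt_eq` (Mathlib, `NumberTheory/LSeries/Dirichlet`): `L (χ Λ) s = - deriv (L χ) s / L χ s`, together with
`DirichletCharacter.deriv_LFunction_eq_deriv_LSeries` and `LFunction_eq_LSeries`; unfold `LSeries`, `LSeries.term` (term `n = 0` is `0`; `/ n^s = * n^(-s)`).
-/

set_option autoImplicit false

namespace Pool.Agent.H50.RQ

open MeasureTheory Filter Topology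
open Pool.Agent.H50.RL (SC Lp Lf Wk Ft)

theorem chi_ld (N : ℕ) [NeZero N] (χ : DirichletCharacter ℂ N) (s : ℂ) (hs : 1 < s.re) :
    -(deriv (DirichletCharacter.LFunction χ) s / DirichletCharacter.LFunction χ s) =
      (∑' n : ℕ, (ArithmeticFunction.vonMangoldt n : ℂ) * χ n * (n : ℂ) ^ (-s)) - 0 / (s - 1) := by
  rw [zero_div, sub_zero, DirichletCharacter.deriv_LFunction_eq_deriv_LSeries χ hs,
    DirichletCharacter.LFunction_eq_LSeries χ hs, ← neg_div]
  refine (DirichletCharacter.LSeries_twist_vonMangoldt_eq χ hs).symm.trans ?_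
  unfold LSeries
  refine tsum_congr fun n => ?_
  rcases eq_or_ne n 0 with rfl | hn
  · simp
  · rw [LSeries.term_of_ne_zero hn, Complex.cpow_neg, div_eq_mul_inv]
    simp only [Pi.mul_apply]
    ring

/-- the `L`-function of a nontrivial character -/
noncomputable def lfx (N : ℕ) [NeZero N] (χ : DirichletCharacter ℂ N) (hχ : χ ≠ 1) : LF where
  F := DirichletCharacter.LFunction χ
  g := fun n => χ n
  p := 0
  diff := DirichletCharacter.differentiable_LFunction hχ
  grow := chi_growth N χ hχ
  gle := fun n => χ.norm_le_one n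
  ne := fun _ hs => DirichletCharacter.LFunction_ne_zero_of_one_le_re χ (.inl hχ) hs
  ld := chi_ld N χ

end Pool.Agent.H50.RQ
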