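import Mathlib

/-!
[H50 RQ XU] `L(s, Φ)`, `Φ` periodic with mean zero, by partial summation for `Re s > 0`; a linear upper bound.

PROOF of `phi_int`. `A x = Σ_{n ≤ x} Φ n` is bounded (by `Σ_j ‖Φ j‖`, periodic because a full period sums to zero) and `A (N X) = 0`. For `Re s > 1`:
`ZMod.LFunction_eq_LSeries`, and Abel summation on `(N X, ∞)` (Mathlib `LSeries_eq_mul_integral` / `sum_mul_eq_sub_integral_mul`, or the version with
`tsum`): `Σ_{n > NX} Φ n n^(-s) = -A(NX) (NX)^(-s) + s ∫_{NX}^∞ A x x^(-s-1) dx`. Both sides are analytic on `Re s > 0`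
(`ZMod.differentiable_LFunction_of_sum_zero`; the integral: `hasDerivAt_integral_of_dominated_loc_of_deriv_le` with `‖A‖ ≤ C` and
`|x^(-s-1) log x| ≤ C' x^(-1-σ/2)`), the half plane is connected: identity theorem
(`AnalyticOnNhd.eqOn_of_preconnected_of_eventuallyEq`).
PROOF of `phi_ub`: `X = 1`: `‖L‖ ≤ Σ_{n ≤ N} ‖Φ n‖ n^(-σ) + ‖s‖ C ∫_N^∞ x^(-σ-1) dx ≤ C' + ‖s‖ C/σ`, `σ ≥ 1/16`, `N^(-σ) ≤ 1`.
-/

set_option autoImplicit false

namespace Pool.Agent.H50.RQ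

open MeasureTheory Filter Topology

/-- the partial sums -/
private noncomputable def xA (N : ℕ) (Φ : ZMod N → ℂ) (m : ℕ) : ℂ := ∑ n ∈ Finset.Icc 1 m, Φ n

private theorem xT (N : ℕ) [NeZero N] (Φ : ZMod N → ℂ) (hΦ : ∑ j, Φ j = 0) (m : ℕ) :
    ∑ i ∈ Finset.range N, Φ ((m + i : ℕ) : ZMod N) = 0 := by
  induction m with
  | zero =>
    rw [← hΦ]
    refine Finset.sum_nbij' (fun i => (i : ZMod N)) (fun j => j.val) ?_ ?_ ?_ ?_ ?_
    · intro i _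
      exact Finset.mem_univ _
    · intro j _
      exact Finset.mem_range.2 (ZMod.val_lt j)
    · intro i hi
      exact ZMod.val_natCast_of_lt (Finset.mem_range.1 hi)
    · intro j _
      exact ZMod.natCast_zmod_val j
    · intro i _
      rw [zero_add]
  | succ m ih =>
    have h1 := Finset.sum_range_succ (fun i => Φ ((m + i : ℕ) : ZMod N)) N
    have h2 := Finset.sum_range_succ' (fun i => Φ ((m + i : ℕ) : ZMod N)) N
    rw [h1, ih, zero_add] at h2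
    have h3 : ((m + N : ℕ) : ZMod N) = (m : ZMod N) := by
      rw [Nat.cast_add, ZMod.natCast_self, add_zero]
    rw [h3, add_zero] at h2
    have h4 : ∑ i ∈ Finset.range N, Φ ((m + (i + 1) : ℕ) : ZMod N) = 0 := by
      have h5 := h2.symm
      rwa [add_eq_right] at h5
    rw [← h4]
    refine Finset.sum_congr rfl fun i _ => ?_
    congr 2
    ring

private theorem xA_per (N : ℕ) [NeZero N] (Φ : ZMod N → ℂ) (hΦ : ∑ j, Φ j = 0) (m : ℕ) :
    xA N Φ (m + N) = xA N Φ m := by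
  have h0 : ∀ k : ℕ, xA N Φ k = ∑ i ∈ Finset.range k, Φ ((1 + i : ℕ) : ZMod N) := by
    intro k
    unfold xA
    induction k with
    | zero => rfl
    | succ k ih =>
      rw [Finset.sum_Icc_succ_top (Nat.succ_le_succ (Nat.zero_le k)), ih, Finset.sum_range_succ, add_comm 1 k]
  rw [h0, h0, Finset.sum_range_add]
  have h1 := xT N Φ hΦ (1 + m)
  rw [add_eq_left, ← h1]
  refine Finset.sum_congr rfl fun i _ => ?_
  congr 2
  ring

private theorem xA_zero (N : ℕ) [NeZero N] (Φ : ZMod N → ℂ) (hΦ : ∑ j, Φ j = 0) (X : ℕ) :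
    xA N Φ (N * X) = 0 := by
  induction X with
  | zero =>
    rw [mul_zero]
    unfold xA
    rfl
  | succ X ih => rw [mul_add, mul_one, xA_per N Φ hΦ, ih]

private theorem xA_bdd (N : ℕ) [NeZero N] (Φ : ZMod N → ℂ) (hΦ : ∑ j, Φ j = 0) :
    ∃ C : ℝ, 0 ≤ C ∧ ∀ m, ‖xA N Φ m‖ ≤ C := by
  refine ⟨∑ r ∈ Finset.range N, ‖xA N Φ r‖, Finset.sum_nonneg fun _ _ => norm_nonneg _, fun m => ?_⟩
  induction m using Nat.strong_induction_on with
  | _ m ih =>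
    rcases lt_or_ge m N with h | h
    · exact Finset.single_le_sum (f := fun r => ‖xA N Φ r‖) (fun _ _ => norm_nonneg _) (Finset.mem_range.2 h)
    · obtain ⟨k, rfl⟩ : ∃ k, m = k + N := ⟨m - N, by omega⟩
      rw [xA_per N Φ hΦ]
      exact ih k (by have := NeZero.pos N; omega)

private theorem xf_loc (N : ℕ) (Φ : ZMod N → ℂ) :
    LocallyIntegrableOn (fun x : ℝ => xA N Φ ⌊x⌋₊) (Set.Ici 0) := by
  have h1 := locallyIntegrableOn_mul_sum_Icc (𝕜 := ℂ) (fun n : ℕ => Φ n) (m := 1) (le_refl (0 : ℝ)) (g := fun _ => 1)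
    ((locallyIntegrable_const (1 : ℂ)).locallyIntegrableOn _)
  simp only [one_mul] at h1
  exact h1

private theorem xf_top (N : ℕ) [NeZero N] (Φ : ZMod N → ℂ) (hΦ : ∑ j, Φ j = 0) :
    (fun x : ℝ => xA N Φ ⌊x⌋₊) =O[atTop] (fun x : ℝ => x ^ (-(0 : ℝ))) := by
  obtain ⟨C, -, hC⟩ := xA_bdd N Φ hΦ
  refine Asymptotics.IsBigO.of_bound C (Eventually.of_forall fun x => ?_)
  rw [neg_zero, Real.rpow_zero, norm_one, mul_one]
  exact hC _

private theorem xf_bot (N : ℕ) (Φ : ZMod N → ℂ) (b : ℝ) :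
    (fun x : ℝ => xA N Φ ⌊x⌋₊) =O[𝓝[>] 0] (fun x : ℝ => x ^ (-b)) := by
  refine Asymptotics.IsBigO.of_bound 0 ?_
  have h1 : ∀ᶠ x : ℝ in 𝓝[>] 0, x < 1 := by
    refine Filter.Eventually.filter_mono nhdsWithin_le_nhds ?_
    exact gt_mem_nhds one_pos
  filter_upwards [h1] with x hx
  have h2 : ⌊x⌋₊ = 0 := Nat.floor_eq_zero.2 hx
  rw [h2, zero_mul]
  unfold xA
  rw [Finset.Icc_eq_empty (by norm_num), Finset.sum_empty, norm_zero]

private theorem x_mellin (N : ℕ) (Φ : ZMod N → ℂ) (s : ℂ) :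
    mellin (fun x : ℝ => xA N Φ ⌊x⌋₊) (-s) = ∫ x in Set.Ioi (1 : ℝ), xA N Φ ⌊x⌋₊ * (x : ℂ) ^ (-s - 1) := by
  unfold mellin
  have h1 : ∀ x : ℝ, (x : ℂ) ^ (-s - 1) • xA N Φ ⌊x⌋₊ = xA N Φ ⌊x⌋₊ * (x : ℂ) ^ (-s - 1) := by
    intro x
    rw [smul_eq_mul, mul_comm]
  simp only [h1]
  rw [← integral_indicator measurableSet_Ioi, ← integral_indicator measurableSet_Ioi]
  refine integral_congr_ae ?_
  have h3 : ∀ᵐ x : ℝ, x ≠ 1 := by
    simp [ae_iff, measure_singleton]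
  filter_upwards [h3] with x hx
  by_cases h2 : x ∈ Set.Ioi (1 : ℝ)
  · have h4 : x ∈ Set.Ioi (0 : ℝ) := Set.mem_Ioi.2 (lt_trans one_pos (Set.mem_Ioi.1 h2))
    rw [Set.indicator_of_mem h2, Set.indicator_of_mem h4]
  · rw [Set.indicator_of_notMem h2]
    by_cases h4 : x ∈ Set.Ioi (0 : ℝ)
    · rw [Set.indicator_of_mem h4]
      have h5 : x < 1 := lt_of_le_of_ne (not_lt.1 h2) hx
      have h6 : ⌊x⌋₊ = 0 := Nat.floor_eq_zero.2 h5
      rw [h6]
      unfold xA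
      rw [Finset.Icc_eq_empty (by norm_num), Finset.sum_empty, zero_mul]
    · rw [Set.indicator_of_notMem h4]

/-- the formula with the integral from `1` -/
private theorem x_form (N : ℕ) [NeZero N] (Φ : ZMod N → ℂ) (hΦ : ∑ j, Φ j = 0) (s : ℂ) (hs : 0 < s.re) :
    ZMod.LFunction Φ s = s * ∫ x in Set.Ioi (1 : ℝ), xA N Φ ⌊x⌋₊ * (x : ℂ) ^ (-s - 1) := by
  obtain ⟨C, hC0, hC⟩ := xA_bdd N Φ hΦ
  have hU : IsOpen {s : ℂ | 0 < s.re} := isOpen_lt continuous_const Complex.continuous_re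
  have hconv : IsPreconnected {s : ℂ | 0 < s.re} := (convex_halfSpace_re_gt 0).isPreconnected
  have hF : AnalyticOnNhd ℂ (ZMod.LFunction Φ) {s : ℂ | 0 < s.re} :=
    ((ZMod.differentiable_LFunction_of_sum_zero hΦ).differentiableOn).analyticOnNhd hU
  have hG : AnalyticOnNhd ℂ (fun s => s * mellin (fun x : ℝ => xA N Φ ⌊x⌋₊) (-s)) {s : ℂ | 0 < s.re} := by
    refine DifferentiableOn.analyticOnNhd (fun z hz => ?_) hU
    refine DifferentiableAt.differentiableWithinAt ?_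
    refine differentiableAt_id.mul ?_
    have h1 : DifferentiableAt ℂ (mellin (fun x : ℝ => xA N Φ ⌊x⌋₊)) (-z) := by
      refine mellin_differentiableAt_of_isBigO_rpow (a := 0) (b := (-z).re - 1)
        ((xf_loc N Φ).mono_set Set.Ioi_subset_Ici_self) (xf_top N Φ hΦ) ?_ (xf_bot N Φ _) (by linarith)
      rw [Complex.neg_re]
      have : 0 < z.re := hz
      linarith
    exact h1.comp z differentiableAt_id.neg
  have h2 : (2 : ℂ) ∈ {s : ℂ | 0 < s.re} := by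
    show 0 < (2 : ℂ).re
    norm_num
  have heq : ZMod.LFunction Φ =ᶠ[𝓝 2] fun s => s * mellin (fun x : ℝ => xA N Φ ⌊x⌋₊) (-s) := by
    have h3 : ∀ᶠ z : ℂ in 𝓝 2, 1 < z.re := by
      refine (isOpen_lt continuous_const Complex.continuous_re).mem_nhds ?_
      show (1 : ℝ) < (2 : ℂ).re
      norm_num
    filter_upwards [h3] with z hz
    rw [x_mellin, ZMod.LFunction_eq_LSeries Φ hz,
      LSeries_eq_mul_integral (fun n : ℕ => Φ n) le_rfl (by linarith) (ZMod.LSeriesSummable_of_one_lt_re Φ hz) ?_]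
    · have e : -(z + 1) = -z - 1 := by ring
      rw [e]
      rfl
    · refine Asymptotics.IsBigO.of_bound C (Eventually.of_forall fun n => ?_)
      rw [Real.rpow_zero, norm_one, mul_one]
      exact hC n
  have h4 := hF.eqOn_of_preconnected_of_eventuallyEq hG hconv h2 heq hs
  rw [h4]
  show s * mellin (fun x : ℝ => xA N Φ ⌊x⌋₊) (-s) = _
  rw [x_mellin]

private theorem x_int (N : ℕ) [NeZero N] (Φ : ZMod N → ℂ) (hΦ : ∑ j, Φ j = 0) (s : ℂ) (hs : 0 < s.re) :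
    IntegrableOn (fun x : ℝ => xA N Φ ⌊x⌋₊ * (x : ℂ) ^ (-s - 1)) (Set.Ioi 0) := by
  have h1 : MellinConvergent (fun x : ℝ => xA N Φ ⌊x⌋₊) (-s) := by
    refine mellinConvergent_of_isBigO_rpow (a := 0) (b := (-s).re - 1)
      ((xf_loc N Φ).mono_set Set.Ioi_subset_Ici_self) (xf_top N Φ hΦ) ?_ (xf_bot N Φ _) (by linarith)
    rw [Complex.neg_re]
    linarith
  refine h1.congr_fun (fun x _ => ?_) measurableSet_Ioi
  show (x : ℂ) ^ (-s - 1) • xA N Φ ⌊x⌋₊ = _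
  rw [smul_eq_mul, mul_comm]

/-- finite Abel summation -/
private theorem x_fin (N : ℕ) [NeZero N] (Φ : ZMod N → ℂ) (hΦ : ∑ j, Φ j = 0) (X : ℕ) (s : ℂ) (hs : s ≠ 0) :
    ∑ n ∈ Finset.Icc 1 (N * X), Φ n * (n : ℂ) ^ (-s) =
      s * ∫ x in Set.Ioc (1 : ℝ) ((N * X : ℕ) : ℝ), xA N Φ ⌊x⌋₊ * (x : ℂ) ^ (-s - 1) := by
  obtain ⟨c, hc⟩ : ∃ c : ℕ → ℂ, c = fun n : ℕ => if n = 0 then 0 else Φ (n : ZMod N) := ⟨_, rfl⟩
  have hc0 : c 0 = 0 := by rw [hc]; exact if_pos rfl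
  have hc1 : ∀ n : ℕ, n ≠ 0 → c n = Φ n := fun n hn => by rw [hc]; exact if_neg hn
  have hsum : ∀ (m : ℕ) (g : ℕ → ℂ), ∑ k ∈ Finset.Icc 0 m, g k * c k = ∑ k ∈ Finset.Icc 1 m, g k * Φ k := by
    intro m g
    rw [← Finset.insert_Icc_add_one_left_eq_Icc m.zero_le, Finset.sum_insert (by simp), hc0, mul_zero, zero_add,
      zero_add]
    refine Finset.sum_congr rfl fun k hk => ?_
    rw [hc1 k (by have := (Finset.mem_Icc.1 hk).1; omega)]
  have hsum' : ∀ m : ℕ, ∑ k ∈ Finset.Icc 0 m, c k = xA N Φ m := by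
    intro m
    have h1 := hsum m (fun _ => 1)
    simp only [one_mul] at h1
    exact h1
  have hd : ∀ t ∈ Set.Icc (1 : ℝ) ((N * X : ℕ) : ℝ), DifferentiableAt ℝ (fun x : ℝ => (x : ℂ) ^ (-s)) t := by
    intro t ht
    exact differentiableAt_id.ofReal_cpow_const (zero_lt_one.trans_le ht.1).ne' (neg_ne_zero.mpr hs)
  have hderiv : ∀ t : ℝ, 1 ≤ t → deriv (fun x : ℝ => (x : ℂ) ^ (-s)) t = -s * (t : ℂ) ^ (-s - 1) := by
    intro t ht
    rw [Complex.deriv_ofReal_cpow_const (zero_lt_one.trans_le ht).ne' (neg_ne_zero.mpr hs)]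
  have hint : IntegrableOn (deriv fun x : ℝ => (x : ℂ) ^ (-s)) (Set.Icc (1 : ℝ) ((N * X : ℕ) : ℝ)) := by
    refine ContinuousOn.integrableOn_compact isCompact_Icc ?_
    have h1 : ContinuousOn (fun t : ℝ => -s * (t : ℂ) ^ (-s - 1)) (Set.Icc (1 : ℝ) ((N * X : ℕ) : ℝ)) := by
      refine continuousOn_const.mul ?_
      refine ContinuousOn.cpow_const (Complex.continuous_ofReal.continuousOn) fun t ht => ?_
      exact Complex.ofReal_mem_slitPlane.2 (zero_lt_one.trans_le ht.1)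
    exact h1.congr fun t ht => hderiv t ht.1
  have h1 := sum_mul_eq_sub_integral_mul₀' (f := fun x : ℝ => (x : ℂ) ^ (-s)) c hc0 (N * X) hd hint
  rw [hsum (N * X) (fun k => ((k : ℝ) : ℂ) ^ (-s)), hsum', xA_zero N Φ hΦ, mul_zero, zero_sub, ← integral_neg] at h1
  rw [← integral_const_mul]
  have h2 : ∑ n ∈ Finset.Icc 1 (N * X), Φ n * (n : ℂ) ^ (-s) =
      ∑ k ∈ Finset.Icc 1 (N * X), ((k : ℝ) : ℂ) ^ (-s) * Φ k := by
    refine Finset.sum_congr rfl fun k _ => ?_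
    rw [Complex.ofReal_natCast, mul_comm]
  rw [h2, h1]
  refine setIntegral_congr_fun measurableSet_Ioc fun t ht => ?_
  show -(deriv (fun x : ℝ => (x : ℂ) ^ (-s)) t * ∑ k ∈ Finset.Icc 0 ⌊t⌋₊, c k) = _
  rw [hderiv t ht.1.le, hsum']
  ring

theorem phi_int (N : ℕ) [NeZero N] (Φ : ZMod N → ℂ) (hΦ : ∑ j, Φ j = 0) (X : ℕ) (hX : 1 ≤ X) (s : ℂ) (hs : 0 < s.re) :
    ZMod.LFunction Φ s = (∑ n ∈ Finset.Icc 1 (N * X), Φ n * (n : ℂ) ^ (-s)) +
      s * ∫ x in Set.Ioi ((N * X : ℕ) : ℝ), (∑ n ∈ Finset.Icc 1 ⌊x⌋₊, Φ n) * (x : ℂ) ^ (-s - 1) := by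
  have hs0 : s ≠ 0 := by
    intro h
    rw [h] at hs
    exact lt_irrefl _ hs
  have hN : (1 : ℝ) ≤ ((N * X : ℕ) : ℝ) := by
    have : 1 ≤ N * X := Nat.mul_pos (NeZero.pos N) hX
    exact_mod_cast this
  rw [x_form N Φ hΦ s hs, x_fin N Φ hΦ X s hs0, ← mul_add]
  congr 1
  have hint := x_int N Φ hΦ s hs
  have h1 : Set.Ioi (1 : ℝ) = Set.Ioc 1 ((N * X : ℕ) : ℝ) ∪ Set.Ioi ((N * X : ℕ) : ℝ) :=
    (Set.Ioc_union_Ioi_eq_Ioi hN).symm
  rw [h1, setIntegral_union (Set.Ioc_disjoint_Ioi le_rfl) measurableSet_Ioi]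
  · rfl
  · exact hint.mono_set fun x hx => lt_trans one_pos hx.1
  · exact hint.mono_set fun x hx => lt_of_lt_of_le one_pos (hN.trans (le_of_lt hx))

theorem phi_ub (N : ℕ) [NeZero N] (Φ : ZMod N → ℂ) (hΦ : ∑ j, Φ j = 0) : ∃ C : ℝ, 0 < C ∧ ∀ s : ℂ, 1 / 16 ≤ s.re →
    ‖ZMod.LFunction Φ s‖ ≤ C * (1 + ‖s‖) := by
  obtain ⟨C, hC0, hC⟩ := xA_bdd N Φ hΦ
  obtain ⟨D, hD⟩ : ∃ D : ℝ, D = ∑ n ∈ Finset.Icc 1 N, ‖Φ n‖ := ⟨_, rfl⟩
  have hD0 : 0 ≤ D := by rw [hD]; exact Finset.sum_nonneg fun _ _ => norm_nonneg _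
  refine ⟨1 + D + 16 * C, by positivity, fun s hs => ?_⟩
  have hs0 : 0 < s.re := by linarith
  have hN1 : (1 : ℝ) ≤ (N : ℝ) := by exact_mod_cast NeZero.one_le
  have h1 := phi_int N Φ hΦ 1 le_rfl s hs0
  rw [mul_one] at h1
  rw [h1]
  have h2 : ‖∑ n ∈ Finset.Icc 1 N, Φ n * (n : ℂ) ^ (-s)‖ ≤ D := by
    rw [hD]
    refine (norm_sum_le _ _).trans (Finset.sum_le_sum fun n hn => ?_)
    have hn1 : 1 ≤ n := (Finset.mem_Icc.1 hn).1
    have hn0 : (0 : ℝ) < n := by exact_mod_cast hn1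
    have h3 : ‖(n : ℂ) ^ (-s)‖ ≤ 1 := by
      rw [← Complex.ofReal_natCast, Complex.norm_cpow_eq_rpow_re_of_pos hn0, Complex.neg_re]
      exact Real.rpow_le_one_of_one_le_of_nonpos (by exact_mod_cast hn1) (by linarith)
    rw [norm_mul]
    exact mul_le_of_le_one_right (norm_nonneg _) h3
  have h4 : ‖∫ x in Set.Ioi ((N : ℕ) : ℝ), (∑ n ∈ Finset.Icc 1 ⌊x⌋₊, Φ n) * (x : ℂ) ^ (-s - 1)‖ ≤ 16 * C := by
    have h5 : -s.re - 1 < -1 := by linarith
    have h6 : IntegrableOn (fun x : ℝ => C * x ^ (-s.re - 1)) (Set.Ioi ((N : ℕ) : ℝ)) :=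
      (integrableOn_Ioi_rpow_of_lt h5 (by linarith)).const_mul C
    refine (norm_integral_le_of_norm_le h6 ?_).trans ?_
    · refine (ae_restrict_iff' measurableSet_Ioi).2 (Eventually.of_forall fun x hx => ?_)
      have hx0 : 0 < x := lt_trans (by linarith) (Set.mem_Ioi.1 hx)
      rw [norm_mul, Complex.norm_cpow_eq_rpow_re_of_pos hx0, Complex.sub_re, Complex.neg_re, Complex.one_re]
      exact mul_le_mul_of_nonneg_right (hC _) (Real.rpow_nonneg hx0.le _)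
    · rw [integral_const_mul, integral_Ioi_rpow_of_lt h5 (by linarith)]
      have h7 : -s.re - 1 + 1 = -s.re := by ring
      rw [h7, neg_div_neg_eq, mul_comm]
      refine mul_le_mul_of_nonneg_right ?_ hC0
      have h8 : (N : ℝ) ^ (-s.re) ≤ 1 := Real.rpow_le_one_of_one_le_of_nonpos hN1 (by linarith)
      rw [div_le_iff₀ hs0]
      linarith
  refine (norm_add_le _ _).trans ?_
  rw [norm_mul]
  have h9 : ‖s‖ * ‖∫ x in Set.Ioi ((N : ℕ) : ℝ), (∑ n ∈ Finset.Icc 1 ⌊x⌋₊, Φ n) * (x : ℂ) ^ (-s - 1)‖ ≤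
      ‖s‖ * (16 * C) := mul_le_mul_of_nonneg_left h4 (norm_nonneg _)
  have h10 := norm_nonneg s
  nlinarith

end Pool.Agent.H50.RQ
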