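import Pool.Agent.H50.RQ.Df

/-!
[H50 RQ ZB] Basic facts on zero data `ZD`.

PROOF. `countable`: `ι` is the union of the finite sets `{‖ρ i‖ ≤ n}` (`D.fin`). `away`: the finitely many `i` with `‖ρ i‖ ≤ 1`, `ρ i ≠ 0`: take the minimum of their norms and `1`. `sumc`: `D.s1`, comparison.
`left_real`: `D.left`: `ρ i = -n` is real; `D.conj i`: `j` with `ρ j = conj (ρ i) = ρ i`, so `j = i` (`D.inj`) and `c i = conj (c i)`.
`V_zero`: `0 ≤ V 0 ≤ Λ 0 = 0`, `|w 0| ≤ 0`. `sw`: `fw u - f u = Σ_{n ∈ Icc 1 ⌊exp u⌋} w n`; for `u < 0` the sum is empty; for `u ≥ 0`, `N = ⌊exp u⌋ ≥ 1`, `log N ≤ u`, `D.w2` (take `|C|`).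
`f_int`, `fw_int`: `u ↦ Σ_{n ≤ exp u} V n` is monotone (`MonotoneOn.intervalIntegrable`), also with `V n` replaced by `max (V n + w n) 0` and `max (-(V n + w n)) 0`, whose difference gives `V + w`; `exp` is continuous.
-/

set_option autoImplicit false

namespace Pool.Agent.H50.RQ

open MeasureTheory Filter Topology
open Pool.Agent.H50.RL (SC Lp Lf Wk Ft)

theorem ZD.countable (D : ZD) : Countable D.ι := by
  have h : (Set.univ : Set D.ι) = ⋃ n : ℕ, {i | ‖D.ρ i‖ ≤ (n : ℝ)} := by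
    ext i
    simp only [Set.mem_univ, Set.mem_iUnion, Set.mem_setOf_eq, true_iff]
    exact exists_nat_ge _
  rw [← Set.countable_univ_iff, h]
  exact Set.countable_iUnion fun n => (D.fin n).countable

theorem ZD.away (D : ZD) : ∃ c : ℝ, 0 < c ∧ c ≤ 1 ∧ ∀ i, D.ρ i ≠ 0 → c ≤ ‖D.ρ i‖ := by
  classical
  have hf := D.fin 1
  set S : Finset ℝ := insert 1 ((hf.toFinset.filter fun i => D.ρ i ≠ 0).image fun i => ‖D.ρ i‖) with hS
  have hne : S.Nonempty := ⟨1, Finset.mem_insert_self _ _⟩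
  refine ⟨S.min' hne, ?_, S.min'_le 1 (Finset.mem_insert_self _ _), fun i hi => ?_⟩
  · have key : ∀ x ∈ S, 0 < x := by
      intro x hx
      rw [hS, Finset.mem_insert] at hx
      rcases hx with h | h
      · rw [h]; norm_num
      · obtain ⟨i, hi, h2⟩ := Finset.mem_image.1 h
        rw [← h2]
        exact norm_pos_iff.2 (Finset.mem_filter.1 hi).2
    exact key _ (S.min'_mem hne)
  · by_cases h1 : ‖D.ρ i‖ ≤ 1
    · refine S.min'_le _ (Finset.mem_insert_of_mem (Finset.mem_image.2 ⟨i, ?_, rfl⟩))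
      exact Finset.mem_filter.2 ⟨hf.mem_toFinset.2 h1, hi⟩
    · exact (S.min'_le 1 (Finset.mem_insert_self _ _)).trans (le_of_not_ge h1)

theorem ZD.sumc (D : ZD) (b : ℝ) (hb : 1 < b) : Summable fun i => ‖D.c i‖ / ‖D.ρ i‖ ^ b := by
  refine Summable.of_nonneg_of_le (fun i => by positivity) (fun i => ?_) (D.s1 b hb)
  apply div_le_div_of_nonneg_right _ (by positivity)
  linarith

theorem ZD.left_real (D : ZD) (i : D.ι) (h : (D.ρ i).re ≤ 0) : (D.c i).im = 0 ∧ (D.ρ i).im = 0 := by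
  obtain ⟨n, hn⟩ := D.left i h
  obtain ⟨j, hj, hc⟩ := D.conj i
  have h1 : (D.ρ i).im = 0 := by rw [hn]; simp
  have h2 : D.ρ j = D.ρ i := by
    rw [hj, hn]; simp
  have h3 := D.inj h2
  subst h3
  refine ⟨?_, h1⟩
  have h4 := congrArg Complex.im hc
  rw [Complex.conj_im] at h4
  linarith

theorem ZD.V_zero (D : ZD) : D.V 0 = 0 ∧ D.w 0 = 0 := by
  have h : ArithmeticFunction.vonMangoldt 0 = 0 := by simp
  refine ⟨le_antisymm (h ▸ D.V1 0) (D.V0 0), ?_⟩
  have := D.w1 0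
  rw [h] at this
  exact abs_eq_zero.1 (le_antisymm this (abs_nonneg _))

theorem ZD.sw (D : ZD) : ∃ C : ℝ, 0 ≤ C ∧ ∀ u : ℝ, |D.fw u - D.f u| ≤ C * (1 + |u|) := by
  obtain ⟨C, hC⟩ := D.w2
  refine ⟨|C|, abs_nonneg _, fun u => ?_⟩
  have h1 : D.fw u - D.f u = ∑ n ∈ Finset.Icc 1 ⌊Real.exp u⌋₊, D.w n := by
    unfold ZD.fw ZD.f
    rw [Finset.sum_add_distrib]
    ring
  rw [h1]
  rcases Nat.eq_zero_or_pos ⌊Real.exp u⌋₊ with h0 | h0
  · rw [h0]
    simp only [zero_lt_one, Finset.Icc_eq_empty_of_lt, Finset.sum_empty, abs_zero]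
    positivity
  · refine (Finset.abs_sum_le_sum_abs _ _).trans ((hC _ h0).trans ?_)
    have h2 : Real.log (⌊Real.exp u⌋₊ : ℝ) ≤ u := by
      have h3 : (⌊Real.exp u⌋₊ : ℝ) ≤ Real.exp u := Nat.floor_le (Real.exp_pos _).le
      have h4 := Real.log_le_log (by exact_mod_cast h0) h3
      rwa [Real.log_exp] at h4
    have h5 : 0 ≤ Real.log (⌊Real.exp u⌋₊ : ℝ) := Real.log_natCast_nonneg _
    have h6 : u ≤ |u| := le_abs_self u
    calc C * (1 + Real.log (⌊Real.exp u⌋₊ : ℝ)) ≤ |C| * (1 + Real.log (⌊Real.exp u⌋₊ : ℝ)) :=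
          mul_le_mul_of_nonneg_right (le_abs_self C) (by linarith)
      _ ≤ |C| * (1 + |u|) := mul_le_mul_of_nonneg_left (by linarith) (abs_nonneg _)

private theorem mono_int (g : ℕ → ℝ) (hg : ∀ n, 0 ≤ g n) (a b : ℝ) :
    IntervalIntegrable (fun u : ℝ => ∑ n ∈ Finset.Icc 1 ⌊Real.exp u⌋₊, g n) volume a b := by
  have h : Monotone (fun u : ℝ => ∑ n ∈ Finset.Icc 1 ⌊Real.exp u⌋₊, g n) := by
    intro u v huv
    refine Finset.sum_le_sum_of_subset_of_nonneg ?_ fun n _ _ => hg n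
    exact Finset.Icc_subset_Icc le_rfl (Nat.floor_le_floor (Real.exp_le_exp.2 huv))
  exact h.intervalIntegrable

theorem ZD.f_int (D : ZD) (a b : ℝ) : IntervalIntegrable D.f volume a b := by
  have h : D.f = fun u : ℝ => (∑ n ∈ Finset.Icc 1 ⌊Real.exp u⌋₊, D.V n) - D.κ * Real.exp u := rfl
  rw [h]
  exact (mono_int D.V D.V0 a b).sub ((Real.continuous_exp.intervalIntegrable a b).const_mul D.κ)

theorem ZD.fw_int (D : ZD) (a b : ℝ) : IntervalIntegrable D.fw volume a b := by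
  have h : D.fw = fun u : ℝ => ((∑ n ∈ Finset.Icc 1 ⌊Real.exp u⌋₊, max (D.V n + D.w n) 0) -
      (∑ n ∈ Finset.Icc 1 ⌊Real.exp u⌋₊, max (-(D.V n + D.w n)) 0)) - D.κ * Real.exp u := by
    funext u
    unfold ZD.fw
    rw [← Finset.sum_sub_distrib]
    congr 1
    refine Finset.sum_congr rfl fun n _ => ?_
    rcases le_total 0 (D.V n + D.w n) with h | h
    · rw [max_eq_left h, max_eq_right (by linarith), sub_zero]
    · rw [max_eq_right h, max_eq_left (by linarith)]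
      ring
  rw [h]
  exact ((mono_int _ (fun n => le_max_right _ _) a b).sub (mono_int _ (fun n => le_max_right _ _) a b)).sub
    ((Real.continuous_exp.intervalIntegrable a b).const_mul D.κ)

end Pool.Agent.H50.RQ
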